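import Pool.Agent.Lib.MP_7e5527_ag.EO.TDefs
import Pool.Agent.Lib.MP_7e5527_ag.E7.PGal
import Pool.Agent.Lib.MP_7e5527_ag.E7.PBU
import Pool.Agent.Lib.MP_7e5527_ag.E7.PUl
import Pool.Agent.Lib.MP_7e5527_ag.E7.PCst

/-! Frobenius, inertia and unramified elements. -/

open Filter Topology Polynomial
open scoped IntermediateField

noncomputable section

namespace Pool.Agent.E7

variable {p : ℕ} [Fact p.Prime]

theorem bg_lt {a b c : ℂ_[p]} (h : ‖a - b‖ < 1) (h' : ‖b - c‖ < 1) : ‖a - c‖ < 1 := by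
  rw [← sub_add_sub_cancel a b c]
  exact (IsUltrametricDist.norm_add_le_max _ _).trans_lt (max_lt h h')

theorem bg_pow {a b : ℂ_[p]} (ha : ‖a‖ ≤ 1) (h : ‖a - b‖ < 1) (n : ℕ) : ‖a ^ n - b ^ n‖ < 1 := by
  have hb : ‖b‖ ≤ 1 := by
    rw [← sub_sub_cancel a b, sub_eq_add_neg]
    exact (IsUltrametricDist.norm_add_le_max _ _).trans (max_le ha (by rw [norm_neg]; exact h.le))
  rw [← Commute.mul_geom_sum₂ (Commute.all a b), norm_mul]
  refine mul_lt_one_of_nonneg_of_lt_one_left (norm_nonneg _) h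
    (IsUltrametricDist.norm_sum_le_of_forall_le_of_nonneg one_pos.le fun i _ => ?_)
  rw [norm_mul, norm_pow, norm_pow]
  exact mul_le_one₀ (pow_le_one₀ (norm_nonneg _) ha) (by positivity)
    (pow_le_one₀ (norm_nonneg _) hb)

/-- Every residue class contains zero or a root of unity of order prime to `p`. -/
theorem eo_teich {y : ℂ_[p]} (hy : ‖y‖ ≤ 1) :
    ∃ ω, (ω = 0 ∨ ∃ r, ¬ p ∣ r ∧ ω ^ r = 1) ∧ ‖y - ω‖ < 1 := by
  obtain ⟨a, ha⟩ := UniformSpace.Completion.denseRange_coe.exists_dist_lt y one_pos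
  rw [dist_eq_norm] at ha
  have hi : IsIntegral ℚ_[p] (a : ℂ_[p]) := (Algebra.IsIntegral.isIntegral (R := ℚ_[p]) a).map
    (IsScalarTower.toAlgHom ℚ_[p] (PadicAlgCl p) ℂ_[p])
  have := IntermediateField.adjoin.finiteDimensional hi
  have h1 : ‖(a : ℂ_[p])‖ ≤ 1 := by
    rw [← sub_sub_cancel y a, sub_eq_add_neg]
    exact (IsUltrametricDist.norm_add_le_max _ _).trans (max_le hy (by rw [norm_neg]; exact ha.le))
  have h2 := UAP.norm_pow_sub_lt _ le_rfl (IntermediateField.mem_adjoin_simple_self ℚ_[p] _) h1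
  have hf := Nat.factorial_pos (Module.finrank ℚ_[p] ℚ_[p]⟮(a : ℂ_[p])⟯)
  generalize (Module.finrank ℚ_[p] ℚ_[p]⟮(a : ℂ_[p])⟯).factorial = f at h2 hf
  have hQ : 1 < p ^ f := Nat.one_lt_pow hf.ne' (Fact.out : p.Prime).one_lt
  have hm : (X ^ p ^ f - X : ℂ_[p][X]).Monic := monic_X_pow_sub (by
    rw [degree_X]; exact_mod_cast hQ)
  obtain ⟨ω, h3, h4⟩ : ∃ ω ∈ (X ^ p ^ f - X : ℂ_[p][X]).roots, ‖a - ω‖ < 1 := by
    by_contra hc
    push Not at hc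
    have h5 := (IsAlgClosed.splits _).eval_eq_prod_roots_of_monic hm (a : ℂ_[p])
    simp only [eval_sub, eval_pow, eval_X] at h5
    refine absurd h2 (not_lt.2 (h5 ▸ Multiset.prod_induction (fun x : ℂ_[p] => 1 ≤ ‖x‖) _
      (fun a b ha hb => norm_mul a b ▸ one_le_mul_of_one_le_of_one_le ha hb) (by simp) ?_))
    intro x hx
    obtain ⟨a, ha, rfl⟩ := Multiset.mem_map.1 hx
    exact hc a ha
  refine ⟨ω, or_iff_not_imp_left.2 fun h0 => ⟨p ^ f - 1, fun h => ?_, ?_⟩, bg_lt ha h4⟩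
  · exact (Fact.out : p.Prime).not_dvd_one ((Nat.dvd_sub_iff_right hQ.le
      (dvd_pow_self p hf.ne')).1 h)
  · have h5 : ω ^ p ^ f - ω = 0 := by simpa using (mem_roots hm.ne_zero).1 h3
    refine mul_left_cancel₀ h0 ?_
    rw [← pow_succ', Nat.sub_add_cancel hQ.le, mul_one, sub_eq_zero.1 h5]

theorem frob_of_root {σ : ℂ_[p] →+* ℂ_[p]} {f : ℕ} (hσ : UAP.Iso σ)
    (h : ∀ r ω, ¬ p ∣ r → ω ^ r = 1 → σ ω = ω ^ p ^ f) : Frob σ f := ⟨hσ, fun y hy => by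
  obtain ⟨ω, h1, h2⟩ := eo_teich hy
  have h3 : σ ω = ω ^ p ^ f := by
    rcases h1 with rfl | ⟨r, h1, h3⟩
    · rw [map_zero, zero_pow (pow_ne_zero _ (Fact.out : p.Prime).ne_zero)]
    · exact h r ω h1 h3
  refine bg_lt (b := σ ω) (by rwa [← map_sub, hσ]) ?_
  rw [h3, norm_sub_rev]
  exact bg_pow hy h2 _⟩

/-- The limit of isometric maps along an ultrafilter. -/
theorem exists_lim_iso (φ : ℕ → ℂ_[p] →+* ℂ_[p]) (h : ∀ n, UAP.Iso (φ n))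
    (h' : ∀ n (a : ℚ_[p]), φ n (algebraMap _ _ a) = algebraMap _ _ a) (U : Ultrafilter ℕ) :
    ∃ σ : ℂ_[p] →+* ℂ_[p], UAP.Iso σ ∧ ∀ z, Tendsto (fun n => φ n z) U (𝓝 (σ z)) := by
  obtain ⟨K, _, _, _, _, ⟨L⟩⟩ := exists_ulim (p := p) U
  obtain ⟨Φ, a1, a2⟩ := L.aut φ h
  choose s hs using map_cst_mem Φ a1 fun a => by
    rw [← L.const, a2 _ (pul_bdd_const _)]
    simp only [h']
  have hi := (algebraMap ℂ_[p] K).injective
  refine ⟨⟨⟨⟨s, hi (by simp [← hs])⟩, fun a b => hi (by simp [← hs])⟩, hi (by simp [← hs]),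
    fun a b => hi (by simp [← hs])⟩, fun z => ?_, fun z => ?_⟩
  · change ‖s z‖ = _
    rw [← norm_algebraMap' K, ← hs, a1, norm_algebraMap']
  · refine (L.eq_iff ⟨‖z‖, fun n => (h n z).le⟩ _).1 ?_
    rw [← a2 _ (pul_bdd_const _), L.const, hs]
    rfl

/-- Primitive roots of unity whose orders exhaust the integers prime to `p`. -/
theorem bg_seq (p : ℕ) [Fact p.Prime] : ∃ (r : ℕ → ℕ) (ω : ℕ → ℂ_[p]), (∀ n, ¬ p ∣ r n) ∧
    (∀ n, IsPrimitiveRoot (ω n) (r n)) ∧ ∀ s (ξ : ℂ_[p]), ¬ p ∣ s → ξ ^ s = 1 →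
      ∀ᶠ n in (hyperfilter ℕ : Filter ℕ), ∃ j, ω n ^ j = ξ := by
  let r : ℕ → ℕ := fun n => ∏ k ∈ (Finset.range n).filter fun k => ¬ p ∣ k, k
  have hr : ∀ n, ¬ p ∣ r n := fun n => (Fact.out : p.Prime).prime.not_dvd_finsetProd
    fun k hk => (Finset.mem_filter.1 hk).2
  have h0 : ∀ n, r n ≠ 0 := fun n e => hr n (e ▸ dvd_zero p)
  choose ω hω using fun n => pgal_prim p (Nat.pos_of_ne_zero (h0 n))
  refine ⟨r, ω, hr, hω, fun s ξ hs h => Nat.hyperfilter_le_atTop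
    ((eventually_gt_atTop s).mono fun n hn => ?_)⟩
  obtain ⟨k, hk⟩ : s ∣ r n :=
    Finset.dvd_prod_of_mem _ (Finset.mem_filter.2 ⟨Finset.mem_range.2 hn, hs⟩)
  have : NeZero (r n) := ⟨h0 n⟩
  obtain ⟨j, -, hj⟩ := (hω n).eq_pow_of_pow_eq_one (ξ := ξ) (by rw [hk, pow_mul, h, one_pow])
  exact ⟨j, hj⟩

theorem bg_frob (E1 : IntermediateField ℚ_[p] ℂ_[p]) [FiniteDimensional ℚ_[p] E1] :
    ∃ (σ : ℂ_[p] →+* ℂ_[p]) (f : ℕ), 0 < f ∧ Frob σ f ∧ ∀ a ∈ E1, σ a = a := by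
  obtain ⟨r, ω, hr, hω, h⟩ := bg_seq p
  choose φ h1 h2 h3 using fun n => UAP.exists_frobenius E1 le_rfl (hr n) (hω n).pow_eq_one
  obtain ⟨σ, h4, h5⟩ := exists_lim_iso φ h1 (fun n a => h2 n _ (E1.algebraMap_mem a))
    (hyperfilter ℕ)
  refine ⟨σ, _, Nat.factorial_pos (Module.finrank ℚ_[p] E1), frob_of_root h4 fun s ξ hs hξ =>
    tendsto_nhds_unique (h5 ξ) (tendsto_const_nhds.congr' ((h s ξ hs hξ).mono ?_)), fun a ha =>
    tendsto_nhds_unique (h5 a) (tendsto_const_nhds.congr fun n => (h2 n a ha).symm)⟩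
  rintro n ⟨j, rfl⟩
  simp only [map_pow, h3, ← pow_mul, mul_comm]

theorem bg_move (K : IntermediateField ℚ_[p] ℂ_[p]) [FiniteDimensional ℚ_[p] K] {z : ℂ_[p]}
    (hz : IsAlgebraic ℚ_[p] z) (h : z ∉ K) :
    ∃ σ : ℂ_[p] →+* ℂ_[p], UAP.Iso σ ∧ (∀ a ∈ K, σ a = a) ∧ σ z ≠ z := by
  have hi : IsIntegral K z := hz.isIntegral.tower_top
  obtain ⟨w, h1, h2⟩ := (notMem_iff_exists_ne_and_isConjRoot (minpoly.irreducible hi).separable
    (IsAlgClosed.splits _)).1 fun ⟨a, e⟩ => h (e ▸ a.2)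
  obtain ⟨σ, h3, h4, h5⟩ := UAP.exists_iso K hi h2.aeval_eq_zero
  exact ⟨σ, h3, h4, h5 ▸ h1.symm⟩

/-- An algebraic element that is fixed by inertia is unramified. -/
theorem eo_unr (E1 : IntermediateField ℚ_[p] ℂ_[p]) [FiniteDimensional ℚ_[p] E1] :
    ∃ ρ : ℝ, ρ < 1 ∧ ∀ (σ : ℂ_[p] →+* ℂ_[p]) (f : ℕ), Frob σ f → (∀ a ∈ E1, σ a = a) →
      ∀ y, IsAlgebraic ℚ_[p] y → ‖y‖ ≤ 1 →
        (∀ τ : ℂ_[p] →+* ℂ_[p], Frob τ 0 → (∀ a ∈ E1, τ a = a) → τ y = y) →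
        ‖σ y - y ^ p ^ f‖ ≤ ρ := by
  have hD := Nat.factorial_pos (Module.finrank ℚ_[p] E1)
  obtain ⟨hp0, hp1⟩ := plg_lt p
  refine ⟨(p : ℝ)⁻¹ ^ ((Module.finrank ℚ_[p] E1).factorial : ℝ)⁻¹,
    Real.rpow_lt_one hp0.le hp1 (by positivity), fun σ f hσ hE y hy h1 h => ?_⟩
  obtain ⟨r, ω, hr, hω, hs⟩ := bg_seq p
  have h0 : ∀ n, 0 < r n := fun n => Nat.pos_of_ne_zero fun e => hr n (e ▸ dvd_zero p)
  obtain ⟨n, hn⟩ : ∃ n, y ∈ E1 ⊔ ℚ_[p]⟮ω n⟯ := by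
    by_contra hc
    push Not at hc
    choose φ h2 h3 h4 using fun n => @bg_move p _ _
      (UAP.finiteDimensional_sup_root E1 (h0 n) (hω n).pow_eq_one) y hy (hc n)
    have h5 : ∀ n, ∀ a ∈ E1, φ n a = a := fun n a ha => h3 n a ((le_sup_left : E1 ≤ _) ha)
    obtain ⟨τ, h6, h7⟩ := exists_lim_iso φ h2 (fun n a => h5 n _ (E1.algebraMap_mem a))
      (hyperfilter ℕ)
    have h8 := h τ (frob_of_root h6 fun s ξ h8 h9 => tendsto_nhds_unique (h7 ξ)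
      (tendsto_const_nhds.congr' ((hs s ξ h8 h9).mono ?_))) fun a ha =>
      tendsto_nhds_unique (h7 a) (tendsto_const_nhds.congr fun n => (h5 n a ha).symm)
    · obtain ⟨P, hP, h9⟩ := hy
      refine (((P.rootSet_finite ℂ_[p]).sdiff (t := {y})).isClosed.mem_of_tendsto (h7 y)
        (Eventually.of_forall fun n => ⟨(mem_rootSet_of_ne hP).2 ?_, h4 n⟩)).2 h8
      exact (aeval_algHom_apply (⟨φ n, fun a => h5 n _ (E1.algebraMap_mem a)⟩ :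
        ℂ_[p] →ₐ[ℚ_[p]] ℂ_[p]) y P).trans (by rw [h9, map_zero])
    · rintro n ⟨j, rfl⟩
      simp only [map_pow, pow_zero, pow_one, h3 n _ ((le_sup_right : _ ≤ E1 ⊔ ℚ_[p]⟮ω n⟯)
        (IntermediateField.mem_adjoin_simple_self _ _))]
  have : NeZero (r n) := ⟨(h0 n).ne'⟩
  obtain ⟨j, -, hj⟩ := (hω n).eq_pow_of_pow_eq_one (ξ := σ (ω n))
    (by rw [← map_pow, (hω n).pow_eq_one, map_one])
  by_cases h2 : σ y - y ^ p ^ f = 0
  · rw [h2, norm_zero]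
    positivity
  obtain ⟨k, hk⟩ := UAP.norm_pow_factorial_unram E1 le_rfl (hr n) (hω n)
    (sub_mem (UAP.map_mem_sup_root E1 hE hj.symm hn) (pow_mem hn _)) h2
  have hp : (1 : ℝ) < p := by exact_mod_cast (Fact.out : p.Prime).one_lt
  have h3 : k < 0 := (zpow_lt_one_iff_right₀ hp).1
    (hk ▸ pow_lt_one₀ (norm_nonneg _) (hσ.res y h1) hD.ne')
  rw [← Real.pow_rpow_inv_natCast (norm_nonneg (σ y - y ^ p ^ f)) hD.ne', hk]
  refine Real.rpow_le_rpow (by positivity) ?_ (by positivity)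
  rw [← zpow_neg_one]
  exact zpow_le_zpow_right₀ hp.le (by omega)

end Pool.Agent.E7
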