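import Pool.Agent.Lib.MP_7e5527_ag.EO.TCh
import Pool.Agent.Lib.MP_7e5527_ag.E7.PLog
import Pool.Agent.Lib.MP_7e5527_ag.E7.PData

/-! The logarithm. -/

open Filter Topology Polynomial Matrix

noncomputable section

namespace Pool.Agent.E7

variable {ι : Type} [Fintype ι] [DecidableEq ι] {p : ℕ} [Fact p.Prime] {C : Cone ι} {R : Type}
  [CommRing R] {S : TW p C R}

variable {A : Type} [NormedCommRing A] [NormOneClass A] [NormedAlgebra ℂ_[p] A] [CompleteSpace A]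
  [IsUltrametricDist A] {a b : A} {u v : ι → Aˣ}

theorem lg_spec (h : ‖a - 1‖ < 1) :
    Tendsto (fun k : ℕ => ((p : ℂ_[p]) ^ k)⁻¹ • (a ^ p ^ k - 1)) atTop (𝓝 (lg p a)) :=
  tendsto_nhds_limUnder (exists_lg h)

theorem lg_one : lg p (1 : A) = 0 := by
  simpa only [one_pow, sub_self, smul_zero, lg] using
    (tendsto_const_nhds (x := (0 : A)) (f := (atTop : Filter ℕ))).limUnder_eq

theorem lg_mul (ha : ‖a - 1‖ < 1) (hb : ‖b - 1‖ < 1) : lg p (a * b) = lg p a + lg p b := by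
  have h := ((lg_spec (p := p) ha).mul (tendsto_ppow p hb)).add (lg_spec (p := p) hb)
  rw [mul_one] at h
  refine (h.congr fun k => ?_).limUnder_eq
  rw [smul_mul_assoc, ← smul_add, mul_pow]
  congr 1
  ring

private theorem tlg_mul {A : Type} [NormedCommRing A] [IsUltrametricDist A] {a b : A}
    (ha : ‖a - 1‖ < 1) (hb : ‖b - 1‖ < 1) : ‖a * b - 1‖ < 1 := by
  rw [show a * b - 1 = (a - 1) * (b - 1) + ((a - 1) + (b - 1)) by ring]
  exact (IsUltrametricDist.norm_add_le_max _ _).trans_lt (max_lt ((norm_mul_le _ _).trans_lt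
    (mul_lt_one_of_nonneg_of_lt_one_left (norm_nonneg _) ha hb.le))
    ((IsUltrametricDist.norm_add_le_max _ _).trans_lt (max_lt ha hb)))

private theorem tlg_pow {A : Type} [NormedCommRing A] [IsUltrametricDist A] {a : A}
    (ha : ‖a - 1‖ < 1) (n : ℕ) : ‖a ^ n - 1‖ < 1 := by
  induction n with
  | zero => simp
  | succ n ih =>
    rw [pow_succ]
    exact tlg_mul ih ha

theorem lg_pow (ha : ‖a - 1‖ < 1) (n : ℕ) : lg p (a ^ n) = n * lg p a := by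
  induction n with
  | zero => simp [lg_one]
  | succ n ih =>
    rw [pow_succ, lg_mul (tlg_pow ha n) ha, ih]
    push_cast
    ring

theorem lg_root (ha : ‖a - 1‖ < 1) {n : ℕ} (hn : 0 < n) (h : a ^ n = 1) : lg p a = 0 := by
  have h1 := lg_pow (p := p) ha n
  rw [h, lg_one, ← nsmul_eq_mul, ← Nat.cast_smul_eq_nsmul ℂ_[p]] at h1
  exact (smul_eq_zero_iff_right (Nat.cast_ne_zero.2 hn.ne')).1 h1.symm

theorem lg_map (ha : ‖a - 1‖ < 1) {A' : Type} [NormedCommRing A'] [NormOneClass A']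
    [NormedAlgebra ℂ_[p] A'] [CompleteSpace A'] [IsUltrametricDist A'] (ρ : A →+* A')
    (hρ : ∀ a, ‖ρ a‖ ≤ ‖a‖) : ρ (lg p a) = lg p (ρ a) := by
  have hc : Continuous ρ := AddMonoidHomClass.continuous_of_bound ρ 1 fun f => by simpa using hρ f
  refine (((hc.tendsto _).comp (lg_spec (p := p) ha)).congr fun k => ?_).limUnder_eq.symm
  rw [Function.comp, ← Nat.cast_pow, map_inv_natCast_smul ρ ℂ_[p] ℂ_[p], map_sub, map_pow, map_one]

omit [CompleteSpace A] in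
private theorem tlg_geo (h : ‖a - 1‖ ≤ (p : ℝ)⁻¹) (k : ℕ) :
    ‖a ^ p ^ k - 1‖ ≤ ‖a - 1‖ * (p : ℝ)⁻¹ ^ k := by
  obtain ⟨h0, h1⟩ := plg_lt p
  have h3 : ‖(p : A)‖ = (p : ℝ)⁻¹ := by
    rw [← map_natCast (algebraMap ℂ_[p] A), norm_algebraMap', UAP.norm_p_eq]
  induction k with
  | zero => simp
  | succ k ih =>
    have h4 : ‖a ^ p ^ k - 1‖ ≤ (p : ℝ)⁻¹ :=
      ih.trans ((mul_le_of_le_one_right (norm_nonneg _) (pow_le_one₀ h0.le h1.le)).trans h)
    rw [pow_succ p, pow_mul, pow_succ, ← mul_assoc, ← sub_add_cancel (_ - 1) (p * (a ^ p ^ k - 1))]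
    refine (IsUltrametricDist.norm_add_le_max _ _).trans (max_le ?_ ?_)
    · refine (plg_step (h4.trans h1.le) p).trans ?_
      rw [sq]
      exact mul_le_mul ih h4 (norm_nonneg _) (by positivity)
    · rw [mul_comm]
      exact (norm_mul_le _ _).trans (mul_le_mul ih h3.le (norm_nonneg _) (by positivity))

theorem lg_near (h : ‖a - 1‖ ≤ ((p : ℝ) ^ 2)⁻¹) : ‖lg p a - (a - 1)‖ ≤ p * ‖a - 1‖ ^ 2 := by
  obtain ⟨h0, h1⟩ := plg_lt p
  have hp : (p : ℂ_[p]) ≠ 0 := Nat.cast_ne_zero.2 (Fact.out : p.Prime).ne_zero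
  have h2 : ‖a - 1‖ ≤ (p : ℝ)⁻¹ := h.trans (by
    rw [← inv_pow]
    exact pow_le_of_le_one h0.le h1.le two_ne_zero)
  have h4 : (p : ℝ) * (p : ℝ)⁻¹ = 1 := mul_inv_cancel₀ (inv_pos.1 h0).ne'
  refine le_of_tendsto' ((lg_spec (p := p) (h2.trans_lt h1)).sub_const (a - 1)).norm fun k => ?_
  induction k with
  | zero => simpa using by positivity
  | succ k ih =>
    have h3 := tlg_geo (p := p) h2 k
    have e : ((p : ℂ_[p]) ^ (k + 1))⁻¹ • (a ^ p ^ (k + 1) - 1) - (a - 1) =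
        ((p : ℂ_[p]) ^ (k + 1))⁻¹ • ((a ^ p ^ k) ^ p - 1 - p * (a ^ p ^ k - 1)) +
          (((p : ℂ_[p]) ^ k)⁻¹ • (a ^ p ^ k - 1) - (a - 1)) := by
      rw [pow_succ p, pow_mul, smul_sub _ (_ - 1), ← nsmul_eq_mul, ← Nat.cast_smul_eq_nsmul ℂ_[p],
        smul_smul, pow_succ, mul_inv, inv_mul_cancel_right₀ hp, sub_add_sub_cancel]
    rw [e]
    refine (IsUltrametricDist.norm_add_le_max _ _).trans (max_le ?_ ih)
    rw [norm_smul, norm_inv, norm_pow, UAP.norm_p_eq, inv_pow, inv_inv]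
    refine (mul_le_mul_of_nonneg_left ((plg_step (h3.trans (mul_le_one₀ (h2.trans h1.le)
      (by positivity) (pow_le_one₀ h0.le h1.le))) p).trans
      (pow_le_pow_left₀ (norm_nonneg _) h3 2)) (by positivity)).trans ?_
    calc (p : ℝ) ^ (k + 1) * (‖a - 1‖ * (p : ℝ)⁻¹ ^ k) ^ 2
        = ((p : ℝ) * (p : ℝ)⁻¹) ^ k * (p * ‖a - 1‖ ^ 2) * (p : ℝ)⁻¹ ^ k := by ring
      _ ≤ _ := by
        rw [h4, one_pow, one_mul]
        exact mul_le_of_le_one_right (by positivity) (pow_le_one₀ h0.le h1.le)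

theorem ppow_bound (p : ℕ) [Fact p.Prime] {ρ : ℝ} (hρ : ρ < 1) : ∃ B : ℝ, ∀ (A : Type)
    [NormedCommRing A] [NormOneClass A] [NormedAlgebra ℂ_[p] A] [IsUltrametricDist A] (a : A),
    ‖a - 1‖ ≤ ρ → ∀ k : ℕ, ‖a ^ p ^ k - 1‖ ≤ B * ((p : ℝ) ^ k)⁻¹ := by
  obtain ⟨h0, h1⟩ := plg_lt p
  have hp : (1 : ℝ) ≤ p := Nat.one_le_cast.2 (Fact.out : p.Prime).pos
  have h2 : max ρ (p : ℝ)⁻¹ < 1 := max_lt hρ h1
  obtain ⟨m, hm⟩ := exists_pow_lt_of_lt_one h0 h2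
  refine ⟨p ^ m, fun A _ _ _ _ a ha k => ?_⟩
  have h3 := plg_geo (p := p) (ha.trans (le_max_left _ _)) (le_max_right _ _) h2.le
  have h5 : 0 ≤ max ρ (p : ℝ)⁻¹ := le_max_of_le_right h0.le
  rcases le_total k m with hk | hk
  · refine (h3 k).trans ((pow_le_one₀ h5 h2.le).trans ?_)
    rw [← div_eq_mul_inv, one_le_div (by positivity)]
    exact pow_le_pow_right₀ hp hk
  · obtain ⟨j, rfl⟩ := Nat.exists_eq_add_of_le hk
    have h4 := plg_geo (p := p) (((h3 m).trans (pow_le_pow_of_le_one h5 h2.le m.le_succ)).trans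
      hm.le) le_rfl h1.le j
    rw [pow_add p, pow_mul, pow_add, mul_inv, mul_inv_cancel_left₀ (by positivity), ← inv_pow]
    exact h4.trans (pow_le_pow_of_le_one h0.le h1.le j.le_succ)

theorem lg_bound (p : ℕ) [Fact p.Prime] {ρ : ℝ} (hρ : ρ < 1) :
    ∃ B : ℝ, ∀ a : ℂ_[p], ‖a - 1‖ ≤ ρ → ‖lg p a‖ ≤ B := by
  obtain ⟨B, hB⟩ := ppow_bound p hρ
  refine ⟨B, fun a ha => le_of_tendsto' (lg_spec (p := p) (ha.trans_lt hρ)).norm fun k => ?_⟩
  have hp : (0 : ℝ) < p := Nat.cast_pos.2 (Fact.out : p.Prime).pos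
  rw [norm_smul, norm_inv, norm_pow, UAP.norm_p_eq, inv_pow, inv_inv, mul_comm,
    ← le_mul_inv_iff₀ (by positivity)]
  exact hB _ a ha k

/-- The derivative of `a ^ p ^ k` is `p ^ k a ^ (p ^ k - 1) D a`, and `a ^ p ^ k` tends to one. -/
theorem lg_der (ha : ‖a - 1‖ < 1) (D : Derivation ℂ_[p] A A) (hD : Continuous D) :
    D (lg p a) * a = D a := by
  have hp : (p : ℂ_[p]) ≠ 0 := Nat.cast_ne_zero.mpr (Fact.out : p.Prime).ne_zero
  have h1 := ((hD.tendsto _).comp (lg_spec (p := p) ha)).mul_const a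
  have h2 := (tendsto_ppow p ha).mul_const (D a)
  rw [one_mul] at h2
  refine tendsto_nhds_unique h1 (h2.congr fun k => ?_)
  have hk : p ^ k - 1 + 1 = p ^ k :=
    Nat.sub_add_cancel (Nat.one_le_pow _ _ (Fact.out : p.Prime).pos)
  simp only [Function.comp, Derivation.map_smul, map_sub, Derivation.map_one_eq_zero, sub_zero,
    Derivation.leibniz_pow]
  rw [← Nat.cast_smul_eq_nsmul ℂ_[p], smul_smul, Nat.cast_pow, inv_mul_cancel₀ (pow_ne_zero _ hp),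
    one_smul, smul_eq_mul, mul_right_comm, ← pow_succ, hk]

private theorem tlg_iso {x y : ℂ_[p]} (hx : ‖x - 1‖ ≤ ((p : ℝ) ^ 2)⁻¹)
    (hy : ‖y - 1‖ ≤ ((p : ℝ) ^ 2)⁻¹) : ‖x - y‖ ≤ 2 * ‖lg p x - lg p y‖ := by
  have hp : (2 : ℝ) ≤ p := by exact_mod_cast (Fact.out : p.Prime).two_le
  have h1 : ((p : ℝ) ^ 2)⁻¹ < 1 := inv_lt_one_of_one_lt₀ (by nlinarith)
  have h2 : ‖y‖ = 1 := by
    rw [← sub_add_cancel y 1, IsUltrametricDist.norm_add_eq_max_of_norm_ne_norm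
      (by simpa using (hy.trans_lt h1).ne), norm_one, max_eq_right (hy.trans h1.le)]
  have h3 : y ≠ 0 := norm_ne_zero_iff.1 (h2 ▸ one_ne_zero)
  obtain ⟨c, rfl⟩ : ∃ c, x = c * y := ⟨x / y, (div_mul_cancel₀ x h3).symm⟩
  have h4 : ‖c * y - y‖ = ‖c - 1‖ := by rw [← sub_one_mul, norm_mul, h2, mul_one]
  have h5 : ‖c - 1‖ ≤ ((p : ℝ) ^ 2)⁻¹ := by
    rw [← h4, ← sub_sub_sub_cancel_right _ _ 1, sub_eq_add_neg]
    exact (IsUltrametricDist.norm_add_le_max _ _).trans (max_le hx ((norm_neg _).le.trans hy))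
  have h6 := lg_near (p := p) h5
  have h7 : p * ‖c - 1‖ * 2 ≤ 1 := by
    rw [← one_div, le_div_iff₀ (by positivity)] at h5
    nlinarith [mul_nonneg (norm_nonneg (c - 1)) (zero_le_two.trans hp)]
  have h8 := norm_sub_norm_le (c - 1) (lg p c)
  rw [norm_sub_rev (c - 1)] at h8
  rw [lg_mul (h5.trans_lt h1) (hy.trans_lt h1), add_sub_cancel_right, h4]
  nlinarith [norm_nonneg (c - 1)]

/-- For large `k` the powers `a n ^ p ^ k` are close to one, where `lg` is an isometry; they form a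
Cauchy filter; finish with `tendsto_root`. -/
theorem conv_of_lg (U : Ultrafilter ℕ) {a : ℕ → ℂ_[p]} {ρ : ℝ} (hρ : ρ < 1)
    (h : ∀ n, ‖a n - 1‖ ≤ ρ) {z : ℂ_[p]} (hz : Tendsto (fun n => lg p (a n)) U (𝓝 z)) :
    ∃ c, ‖c - 1‖ < 1 ∧ Tendsto a U (𝓝 c) := by
  obtain ⟨B, hB⟩ := ppow_bound p hρ
  obtain ⟨h0, h1⟩ := plg_lt p
  obtain ⟨k, hk⟩ := (((tendsto_pow_atTop_nhds_zero_of_lt_one h0.le h1).const_mul B).eventually
    (eventually_le_nhds (by simpa using pow_pos h0 2 : B * 0 < ((p : ℝ) ^ 2)⁻¹))).exists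
  rw [inv_pow] at hk
  have h2 := hz.const_mul ((p ^ k : ℕ) : ℂ_[p])
  obtain ⟨y, hy⟩ : ∃ y, Tendsto (fun n => a n ^ p ^ k) U (𝓝 y) := by
    rw [← cauchy_map_iff_exists_tendsto, cauchy_map_iff', tendsto_uniformity_iff_dist_tendsto_zero]
    have h3 := ((h2.comp (tendsto_fst (g := (U : Filter ℕ)))).sub
      (h2.comp (tendsto_snd (f := (U : Filter ℕ))))).norm.const_mul 2
    rw [sub_self, norm_zero, mul_zero] at h3
    refine squeeze_zero (fun _ => dist_nonneg) (fun x => ?_) h3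
    rw [dist_eq_norm, Function.comp, Function.comp, ← lg_pow ((h _).trans_lt hρ),
      ← lg_pow ((h _).trans_lt hρ)]
    exact tlg_iso ((hB _ _ (h _) k).trans hk) ((hB _ _ (h _) k).trans hk)
  obtain ⟨c, hc⟩ := tendsto_root (X_pow_sub_C_ne_zero (pow_pos (Fact.out : p.Prime).pos k) y) U
    (x := a) (by simpa using tendsto_sub_nhds_zero_iff.2 hy)
  exact ⟨c, (le_of_tendsto' (hc.sub_const 1).norm h).trans_lt hρ, hc⟩

/-- A finite dimensional space over `ℚ_[p]` is proper. -/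
theorem conv_of_span (U : Ultrafilter ℕ) (s : Finset ℂ_[p]) {z : ℕ → ℂ_[p]} (hb : Bdd z)
    (h : ∀ n, z n ∈ Submodule.span ℚ_[p] (s : Set ℂ_[p])) : ∃ c, Tendsto z U (𝓝 c) := by
  obtain ⟨B, hB⟩ := hb
  have := FiniteDimensional.proper ℚ_[p] (Submodule.span ℚ_[p] (s : Set ℂ_[p]))
  obtain ⟨b, -, hb⟩ := (isCompact_closedBall (0 : Submodule.span ℚ_[p] (s : Set ℂ_[p]))
    B).ultrafilter_le_nhds' (U.map fun n => ⟨z n, h n⟩)
    (Ultrafilter.mem_map.2 (Filter.univ_mem' fun n => mem_closedBall_zero_iff.2 (hB n)))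
  have h1 : Tendsto (fun n => (⟨z n, h n⟩ : Submodule.span ℚ_[p] (s : Set ℂ_[p]))) U (𝓝 b) := hb
  exact ⟨b, (continuous_subtype_val.tendsto b).comp h1⟩

theorem lgv_one : lgv p (1 : ι → Aˣ) = 0 :=
  funext fun _ => lg_one

theorem lgv_mul (hu : Nr u) (hv : Nr v) : lgv p (u * v) = lgv p u + lgv p v :=
  funext fun i => lg_mul (hu i) (hv i)

theorem lgv_inv (hu : Nr u) : lgv p u⁻¹ = -lgv p u :=
  eq_neg_of_add_eq_zero_left (by rw [← lgv_mul hu.inv hu, inv_mul_cancel, lgv_one])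

theorem lgv_pow (hu : Nr u) (n : ℕ) : lgv p (u ^ n) = (n : A) • lgv p u :=
  funext fun i => (congrArg (lg p) (Units.val_pow_eq_pow_val (u i) n)).trans (lg_pow (hu i) n)

private theorem tlg_zpow (hu : Nr u) (n : ℤ) (i : ι) :
    ‖((u i ^ n : Aˣ) : A) - 1‖ < 1 ∧ lg p ((u i ^ n : Aˣ) : A) = n * lg p (u i : A) := by
  obtain ⟨m, rfl | rfl⟩ := n.eq_nat_or_neg
  · rw [zpow_natCast, Int.cast_natCast]
    exact ⟨hu.pow m i, congrFun (lgv_pow hu m) i⟩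
  · rw [_root_.zpow_neg, zpow_natCast, Int.cast_neg, Int.cast_natCast, neg_mul]
    exact ⟨(hu.pow m).inv i, (congrFun (lgv_inv (hu.pow m)) i).trans
      (congrArg Neg.neg (congrFun (lgv_pow hu m) i))⟩

theorem lgv_upow (hu : Nr u) (M : Matrix ι ι ℤ) :
    lgv p (upow u M) = (M.map fun a => (a : A)) *ᵥ lgv p u := by
  funext i
  have h : ∀ s : Finset ι, ‖((∏ l ∈ s, u l ^ M i l : Aˣ) : A) - 1‖ < 1 ∧
      lg p ((∏ l ∈ s, u l ^ M i l : Aˣ) : A) = ∑ l ∈ s, (M i l : A) * lg p (u l : A) := fun s => by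
    induction s using Finset.induction_on with
    | empty => simp [lg_one]
    | insert l s hl ih =>
      obtain ⟨h1, h2⟩ := tlg_zpow (p := p) hu (M i l) l
      rw [Finset.prod_insert hl, Finset.sum_insert hl, Units.val_mul, lg_mul h1 ih.1, h2, ih.2]
      exact ⟨tlg_mul h1 ih.1, rfl⟩
  exact (h Finset.univ).2

theorem lgv_root (hu : Nr u) {n : ℕ} (hn : 0 < n) (h : ∀ i, u i ^ n = 1) : lgv p u = 0 :=
  funext fun i => lg_root (hu i) hn (by rw [← Units.val_pow_eq_pow_val, h, Units.val_one])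

theorem lgv_umap (hu : Nr u) {A' : Type} [NormedCommRing A'] [NormOneClass A']
    [NormedAlgebra ℂ_[p] A'] [CompleteSpace A'] [IsUltrametricDist A'] (ρ : A →+* A')
    (hρ : ∀ a, ‖ρ a‖ ≤ ‖a‖) : lgv p (umap ρ u) = fun i => ρ (lgv p u i) :=
  funext fun i => (lg_map (hu i) ρ hρ).symm

/-- Test on `u = 1 + p ^ 2 single l 1`. -/
theorem mat_eq_of_lgv {κ κ' : Matrix ι ι ℂ_[p]}
    (h : ∀ u : ι → ℂ_[p]ˣ, Nr u → κ *ᵥ lgv p u = κ' *ᵥ lgv p u) : κ = κ' := by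
  have hp : (1 : ℝ) < p := Nat.one_lt_cast.2 (Fact.out : p.Prime).one_lt
  have h1 : ‖(1 + (p : ℂ_[p]) ^ 2) - 1‖ = ((p : ℝ) ^ 2)⁻¹ := by
    rw [add_sub_cancel_left, norm_pow, UAP.norm_p_eq, inv_pow]
  have h2 : ((p : ℝ) ^ 2)⁻¹ < 1 := inv_lt_one_of_one_lt₀ (by nlinarith)
  generalize 1 + (p : ℂ_[p]) ^ 2 = x at h1
  have h3 : x ≠ 0 := by
    rintro rfl
    simp [← h1] at h2
  have h4 : lg p x ≠ 0 := fun h0 => by
    have h5 := lg_near (p := p) h1.le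
    rw [h0, zero_sub, norm_neg, h1] at h5
    field_simp at h5
    linarith
  ext i l
  have h5 : lgv p (Pi.mulSingle l (Units.mk0 x h3)) = Pi.single l (lg p x) :=
    funext fun j => by
      rcases eq_or_ne j l with rfl | hj
      · simp [lgv]
      · simp [lgv, hj, lg_one]
  have h6 := congrFun (h (Pi.mulSingle l (Units.mk0 x h3)) fun j => by
    rcases eq_or_ne j l with rfl | hj
    · simpa [h1] using h2
    · simp [hj]) i
  rw [h5, mulVec_single, mulVec_single] at h6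
  exact mul_right_cancel₀ h4 h6

end Pool.Agent.E7
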