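import Pool.Agent.Lib.MP_7e5527_ag.E7.PInv
import Pool.Agent.Lib.MP_7e5527_ag.E7.PLg
import Pool.Agent.Lib.MP_7e5527_ag.E7.WrA

/-! Rings of series with class sums, characters, twists, frames and classes of forms. -/

open Filter Topology Polynomial Matrix

noncomputable section

namespace Pool.Agent.E7

variable {ι : Type} [Fintype ι] [DecidableEq ι]

/-- `T` is congruent to `c` modulo `N`. -/
def Cg (N : ℕ) (T c : ι → ℤ) : Prop := ∀ i, (N : ℤ) ∣ T i - c i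

instance (N : ℕ) (T c : ι → ℤ) : Decidable (Cg N T c) := by
  unfold Cg
  infer_instance

/-- The representative of a class. -/
def rp {N : ℕ} (c : ι → Fin N) : ι → ℤ := fun i => ((c i : ℕ) : ℤ)

/-- A ring of series with class sums `cs`, Frobenius `fr` and its left inverse `up`. -/
structure TW (p : ℕ) [Fact p.Prime] (C : Cone ι) (R : Type) [CommRing R] where
  co : R →+ ((ι → ℤ) → ℂ_[p])
  inj : Function.Injective co
  supp : ∀ F T, co F T ≠ 0 → T ∈ C.Lp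
  co_one : co 1 = Pi.single 0 1
  co_mul : ∀ F G T, co (F * G) T = ∑ᶠ S, co F S * co G (T - S)
  bdd : ∀ F, ∃ B : ℝ, 0 ≤ B ∧ ∀ T, ‖co F T‖ ≤ B
  cst : ℂ_[p] →+* R
  co_cst : ∀ c F T, co (cst c * F) T = c * co F T
  del : ι → R → R
  co_del : ∀ i F T, co (del i F) T = (T i : ℂ_[p]) * co F T
  cs : ℕ → (ι → ℤ) → R → R
  co_cs : ∀ N c F T, 0 < N → co (cs N c F) T = if Cg N T c then co F T else 0
  fr : R →+* R
  co_fr : ∀ F T, co (fr F) ((p : ℤ) • T) = co F T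
  co_fr0 : ∀ F T, co (fr F) T ≠ 0 → Cg p T 0
  up : R → R
  co_up : ∀ F T, co (up F) T = co F ((p : ℤ) • T)

variable {p : ℕ} [Fact p.Prime] {C : Cone ι} {R : Type} [CommRing R]

/-- The coefficients are bounded by `B`. -/
def TW.Bd (S : TW p C R) (B : ℝ) (F : R) : Prop := ∀ T, ‖S.co F T‖ ≤ B

/-- The coefficients are integers. -/
def TW.Zi (S : TW p C R) (F : R) : Prop := ∀ T, ∃ n : ℤ, S.co F T = n

/-- The coefficients are integers divisible by `p`. -/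
def TW.Dv (S : TW p C R) (F : R) : Prop := ∀ T, ∃ n : ℤ, S.co F T = p * n

/-- The exponents are congruent to `c` modulo `N`. -/
def TW.Sup (S : TW p C R) (N : ℕ) (c : ι → ℤ) (F : R) : Prop := ∀ T, S.co F T ≠ 0 → Cg N T c

/-- `g` moves the exponents by the matrix `M`. -/
structure TW.Isg (S : TW p C R) (g : R →+* R) (M : Matrix ι ι ℤ) : Prop where
  det : M.det ≠ 0
  co_eq : ∀ F T, S.co (g F) (T ᵥ* M) = S.co F T
  co_zero : ∀ F T, S.co (g F) T ≠ 0 → ∃ T', T = T' ᵥ* M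

/-- `t` multiplies the coefficients by a character of finite order. -/
structure TW.Trl (S : TW p C R) (t : R →+* R) (ζ : ι → ℂ_[p]ˣ) (M : ℕ) : Prop where
  pos : 0 < M
  ord : ∀ i, ζ i ^ M = 1
  co_eq : ∀ F T, S.co (t F) T = umon ζ T * S.co F T

section Ch

variable {A : Type} [NormedCommRing A]

/-- A character that is bounded by the Gauss norm. -/
def TW.Ch (S : TW p C R) (ψ : R →+* A) : Prop := ∀ F (B : ℝ), 0 ≤ B → S.Bd B F → ‖ψ F‖ ≤ B

/-- A linear character. -/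
def TW.Lin (S : TW p C R) [Algebra ℂ_[p] A] (ψ : R →+* A) : Prop :=
  ∀ c, ψ (S.cst c) = algebraMap ℂ_[p] A c

/-- Bounded and uniformly continuous for the `p`-adic topology. -/
def UC (p : ℕ) (f : (ι → ℤ) → A) : Prop :=
  (∃ B : ℝ, ∀ T, ‖f T‖ ≤ B) ∧
    ∀ ε : ℝ, 0 < ε → ∃ j : ℕ, ∀ T T', Cg (p ^ j) T T' → ‖f T - f T'‖ ≤ ε

/-- Riemann sums. -/
def TW.rs (S : TW p C R) (ψ : R →+* A) (f : (ι → ℤ) → A) (G : R) (j : ℕ) : A :=
  ∑ c : ι → Fin (p ^ j), f (rp c) * ψ (S.cs (p ^ j) (rp c) G)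

/-- The integral of `f` against the measure of `G`. -/
def TW.tw (S : TW p C R) (ψ : R →+* A) (f : (ι → ℤ) → A) (G : R) : A :=
  limUnder atTop (S.rs ψ f G)

/-- A point of the formal torus. -/
def Nr (u : ι → Aˣ) : Prop := ∀ i, ‖(u i : A) - 1‖ < 1

open Classical in
/-- The twist of a character by a point of the formal torus. -/
def TW.twc (S : TW p C R) (ψ : R →+* A) (u : ι → Aˣ) : R →+* A :=
  if h : ∃ φ : R →+* A, ∀ G, φ G = S.tw ψ (umon u) G then h.choose else ψ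

/-- The image of a point of the torus under an integral matrix. -/
def upow (u : ι → Aˣ) (M : Matrix ι ι ℤ) : ι → Aˣ := fun i => ∏ l, u l ^ M i l

/-- The underlying vector. -/
def uv (u : ι → Aˣ) : ι → A := fun i => u i

/-- A unit with inverse of norm at most one. -/
def IsU (a : A) : Prop := ∃ b, a * b = 1 ∧ ‖b‖ ≤ 1

/-- The logarithm. -/
def lg (p : ℕ) [Fact p.Prime] [NormedAlgebra ℂ_[p] A] (u : A) : A :=
  limUnder atTop fun k : ℕ => ((p : ℂ_[p]) ^ k)⁻¹ • (u ^ p ^ k - 1)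

/-- The logarithm of a point of the torus. -/
def lgv (p : ℕ) [Fact p.Prime] [NormedAlgebra ℂ_[p] A] (u : ι → Aˣ) : ι → A :=
  fun i => lg p (u i : A)

end Ch

/-- A frame: integral series in the classes of `0` and of the basis vectors modulo `p`. -/
structure Fr (S : TW p C R) where
  e0 : R
  e : ι → R
  int0 : S.Zi e0
  int : ∀ i, S.Zi (e i)
  sup0 : S.Sup p 0 e0
  sup : ∀ i, S.Sup p (Pi.single i 1) (e i)

variable {S : TW p C R}

/-- The members of the frame as one family. -/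
def Fr.oe (E : Fr S) : Option ι → R := fun o => o.elim E.e0 E.e

/-- The values on the frame are units. -/
def Fr.Un (E : Fr S) {A : Type} [NormedCommRing A] (ψ : R →+* A) : Prop :=
  IsU (ψ E.e0) ∧ ∀ i, IsU (ψ (E.e i))

section Nz

variable {A : Type} [CommRing A]

/-- The normalised value of a form of weight `a`. -/
def Fr.nz (E : Fr S) (ψ : R →+* A) (a : ℕ) (F : R) : A := ψ F * Ring.inverse (ψ E.e0) ^ a

/-- The coordinates. -/
def Fr.xc (E : Fr S) (ψ : R →+* A) : ι → A := fun i => E.nz ψ 1 (E.e i)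

/-- The numerator of the derivative of `G / e0`. -/
def Fr.dq (E : Fr S) (l : ι) (G : R) : R := E.e0 * S.del l G - G * S.del l E.e0

/-- The Jacobian matrix of the coordinates. -/
def Fr.Jm (E : Fr S) (ψ : R →+* A) : Matrix ι ι A :=
  Matrix.of fun i l => E.nz ψ 2 (E.dq l (E.e i))

end Nz

/-- A class of integral forms, graded by the weight. -/
structure Cl (S : TW p C R) where
  M : ℕ → Set R
  int : ∀ a, ∀ F ∈ M a, S.Zi F
  one : (1 : R) ∈ M 0
  zero : ∀ a, (0 : R) ∈ M a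
  add : ∀ a, ∀ F ∈ M a, ∀ G ∈ M a, F + G ∈ M a
  neg : ∀ a, ∀ F ∈ M a, -F ∈ M a
  mul : ∀ a b, ∀ F ∈ M a, ∀ G ∈ M b, F * G ∈ M (a + b)
  div : ∀ a, ∀ F ∈ M a, S.Dv F → ∃ G ∈ M a, F = p * G
  up : ∀ a, ∀ F ∈ M a, S.up F ∈ M a
  frup : ∀ a, ∀ F ∈ M a, S.fr (S.up F) ∈ M a

/-- The class is stable under class sums and Frobenius. -/
structure Cl.Tow (M : Cl S) : Prop where
  cs : ∀ N c a, 0 < N → ∀ F ∈ M.M a, S.cs N c F ∈ M.M a
  fr : ∀ a, ∀ F ∈ M.M a, S.fr F ∈ M.M a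

/-- `P` is homogeneous when the variable has weight `a`. -/
def WH {σ k : Type} [CommRing k] (a : ℕ) (P : (MvPolynomial σ k)[X]) : Prop :=
  ∃ L : ℕ, ∀ j, P.coeff j ≠ 0 → ∃ d, d + j * a = L ∧ (P.coeff j).IsHomogeneous d

/-- `P` is a relation between the frame and `F`, with coefficients seen through `k0`. -/
def Fr.Rl (E : Fr S) {k : Type} [CommRing k] (k0 : k →+* R) (a : ℕ) (F : R)
    (P : (MvPolynomial (Option ι) k)[X]) : Prop :=
  P ≠ 0 ∧ WH a P ∧ P.eval₂ (MvPolynomial.eval₂Hom k0 E.oe) F = 0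

/-- The frame is adapted to the class. -/
structure Ad (M : Cl S) (E : Fr S) : Prop where
  e0 : E.e0 ∈ M.M 1
  e : ∀ i, E.e i ∈ M.M 1
  fr0 : S.fr E.e0 ∈ M.M 1
  fre : ∀ i, S.fr (E.e i) ∈ M.M 1
  alg : ∀ a, ∀ F ∈ M.M a, ∃ P, E.Rl (Int.castRingHom R) a F P

/-- Relations of bounded degree. -/
def BDeg (M : Cl S) (E : Fr S) : Prop :=
  ∃ D0 : ℕ, ∀ a, ∀ F ∈ M.M a, ∃ P, E.Rl (Int.castRingHom R) a F P ∧ P.natDegree ≤ D0

/-- The characters are proportional on the class. -/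
def Cl.Sim (M : Cl S) {A : Type} [CommRing A] (ψ1 ψ2 : R →+* A) : Prop :=
  ∃ c : Aˣ, ∀ a, ∀ F ∈ M.M a, ψ1 F = (c : A) ^ a * ψ2 F

/-- The normalised values are congruent on the class. -/
def Cl.Cgr (M : Cl S) (E : Fr S) {A : Type} [NormedCommRing A] (ψ1 ψ2 : R →+* A) : Prop :=
  ∀ a, ∀ F ∈ M.M a, ‖E.nz ψ1 a F - E.nz ψ2 a F‖ < 1

/-- A bounded character with units on the frame. -/
structure Fr.Gp (E : Fr S) {A : Type} [NormedCommRing A] (ψ : R →+* A) : Prop where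
  ch : S.Ch ψ
  un : E.Un ψ

/-- The transition between the twists of two characters is linear with matrix `κ`. -/
def Cl.Trn (M : Cl S) (ψ1 ψ2 : R →+* ℂ_[p]) (κ : Matrix ι ι ℂ_[p]) : Prop :=
  ∀ u, Nr u → ∃ v, Nr v ∧ lgv p v = κ *ᵥ lgv p u ∧ M.Sim (S.twc ψ1 u) (S.twc ψ2 v)

/-- A matrix with entries in the `p`-adic integers. -/
def ZpM (κ : Matrix ι ι ℂ_[p]) : Prop := ∀ i l, ∃ z : ℤ_[p], κ i l = UAP.zp p z

/-- The transition on torsion points. -/
def Cl.Tor (M : Cl S) (ψ1 ψ2 : R →+* ℂ_[p]) (κ : Matrix ι ι ℂ_[p]) : Prop :=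
  ∀ (j : ℕ) (ζ : ℂ_[p]ˣ) (a b : ι → ℤ), ζ ^ p ^ j = 1 →
    (∀ i, ‖(b i : ℂ_[p]) - (κ *ᵥ fun l => (a l : ℂ_[p])) i‖ ≤ ((p : ℝ) ^ j)⁻¹) →
    M.Sim (S.twc ψ1 fun i => ζ ^ a i) (S.twc ψ2 fun i => ζ ^ b i)

/-- `σ` induces the power `p ^ f` on the residue field. -/
structure Frob (σ : ℂ_[p] →+* ℂ_[p]) (f : ℕ) : Prop where
  iso : UAP.Iso σ
  res : ∀ y, ‖y‖ ≤ 1 → ‖σ y - y ^ p ^ f‖ < 1

/-- The image of a point of the torus under a ring map. -/
def umap {A A' : Type} [CommRing A] [CommRing A'] (ρ : A →+* A') (u : ι → Aˣ) : ι → A'ˣ :=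
  fun i => Units.map (ρ : A →* A') (u i)

/-- The operators of `S` on a subring. -/
structure SubR (S : TW p C R) (Q : Type) [CommRing Q] where
  val : Q →+* R
  inj : Function.Injective val
  cst : ℂ_[p] →+* Q
  val_cst : ∀ c, val (cst c) = S.cst c
  del : ι → Q → Q
  val_del : ∀ i F, val (del i F) = S.del i (val F)

/-- The Wronskian oracle, for every subring that is stable under the derivations. -/
def Orc (S : TW p C R) (e0 : R) (Φ : ι → R) (Ψ : ℕ → R) : Prop :=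
  ∀ (Q : Type) [CommRing Q] (V : SubR S Q) (Φ' : ι → Q), e0 ∈ V.val.range →
    (∀ j, V.val (Φ' j) = Φ j) → ∃ Ψ' : ℕ → Q, (∀ d, V.val (Ψ' d) = Ψ d) ∧
    ∀ (L : Type) [CommRing L] [IsDomain L] [Algebra ℂ_[p] L] (D : Derivation ℂ_[p] L L)
      (ε : Q →+* L) (z : ι → L), (∀ c, ε (V.cst c) = algebraMap ℂ_[p] L c) →
      (∀ F, D (ε F) = ∑ i, ε (V.del i F) * D (z i)) → (∀ j, ε (Φ' j) = 0) →
      (∃ i, D (z i) ≠ 0) → ∀ (d : ℕ) (P : MvPolynomial ι L), P ≠ 0 → P.totalDegree ≤ d →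
      (∀ m, D (P.coeff m) = 0) → MvPolynomial.eval z P = 0 → ε (Ψ' d) = 0

end Pool.Agent.E7
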