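import Pool.Agent.Lib.MP_7e5527_ag.E7.PSer
import Pool.Agent.Lib.MP_7e5527_ag.EO.TDefs

/-! Binomial series. -/

open Filter Topology Polynomial Matrix

noncomputable section

namespace Pool.Agent.E7

variable {p : ℕ} [Fact p.Prime]

/-- The binomial coefficients. -/
def bnm (β : ℂ_[p]) (n : ℕ) : ℂ_[p] := (∏ i ∈ Finset.range n, (β - i)) / n.factorial

/-- Vandermonde in the simplest form. -/
theorem bnm_succ (β : ℂ_[p]) (n : ℕ) : bnm (β + 1) (n + 1) = bnm β (n + 1) + bnm β n := by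
  have h1 : ((n : ℂ_[p]) + 1) ≠ 0 := Nat.cast_add_one_ne_zero n
  have h2 : (n.factorial : ℂ_[p]) ≠ 0 := Nat.cast_ne_zero.2 n.factorial_ne_zero
  rw [bnm, bnm, bnm, Finset.prod_range_succ', Finset.prod_range_succ, Nat.factorial_succ]
  simp only [Nat.cast_add, Nat.cast_one, add_sub_add_right_eq_sub, Nat.cast_mul, Nat.cast_zero]
  field_simp
  ring

theorem trb_approx (z : ℤ_[p]) (k : ℕ) : ∃ m : ℤ, ‖UAP.zp p z - m‖ ≤ ((p : ℝ) ^ k)⁻¹ := by
  refine ⟨z.appr k, ?_⟩
  rw [Int.cast_natCast, ← map_natCast (UAP.zp p), ← map_sub, UAP.norm_zp, ← zpow_natCast,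
    ← _root_.zpow_neg, PadicInt.norm_le_pow_iff_mem_span_pow]
  exact PadicInt.appr_spec k z

theorem trb_p : ‖(p : ℂ_[p])‖ = (p : ℝ)⁻¹ := by
  rw [← map_natCast (UAP.zp p), UAP.norm_zp, PadicInt.norm_p]

theorem trb_int {β : ℂ_[p]} (h : ∀ n, ‖bnm β n‖ ≤ 1) (m : ℤ) :
    ∀ n, ‖bnm (β - (m : ℂ_[p])) n‖ ≤ 1 := by
  induction m using Int.induction_on with
  | zero => simpa using h
  | succ m ih =>
    intro n
    induction n with
    | zero => simp [bnm]
    | succ n ih' =>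
      have e := bnm_succ (β - ((m + 1 : ℤ) : ℂ_[p])) n
      rw [show β - ((m + 1 : ℤ) : ℂ_[p]) + 1 = β - ((m : ℤ) : ℂ_[p]) by push_cast; ring] at e
      rw [← sub_eq_iff_eq_add.2 e, sub_eq_add_neg]
      exact pinv_add (ih _) ((norm_neg _).le.trans ih')
  | pred m ih =>
    intro n
    rw [show β - ((-m - 1 : ℤ) : ℂ_[p]) = β - ((-m : ℤ) : ℂ_[p]) + 1 by push_cast; ring]
    cases n with
    | zero => simp [bnm]
    | succ n =>
      rw [bnm_succ]
      exact pinv_add (ih _) (ih _)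

/-- By induction on `k` there is an integer `m` with `‖β - m‖ ≤ p ^ (-k)`: all binomial
coefficients of `β - m` are integral (`bnm_succ`); in the coefficient of order `p ^ (k + 1)` the
factors `β - m - i` with `i` not divisible by `p ^ k` have the norm of `i`; among the other `p`
factors at most one is smaller than `p ^ (-k)`. The image of `ℤ_[p]` is closed. -/
theorem zp_of_bnm {β : ℂ_[p]} (h : ∀ n, ‖bnm β n‖ ≤ 1) : ∃ z : ℤ_[p], β = UAP.zp p z := by
  have hc : Continuous fun z : ℤ_[p] => ‖β - UAP.zp p z‖ := (continuous_const.sub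
    (AddMonoidHomClass.continuous_of_bound (UAP.zp p) 1 fun z => by
      rw [UAP.norm_zp, one_mul])).norm
  obtain ⟨z, -, hz⟩ := isCompact_univ.exists_isMinOn Set.univ_nonempty hc.continuousOn
  by_contra hn
  have hd : 0 < ‖β - UAP.zp p z‖ := norm_pos_iff.2 (sub_ne_zero.2 fun h => hn ⟨z, h⟩)
  obtain ⟨k, hk⟩ := exists_pow_lt_of_lt_one hd (plg_lt p).2
  obtain ⟨m, hm⟩ := trb_approx z k
  have h1 : ‖β - m‖ ≤ ‖β - UAP.zp p z‖ := by
    rw [← sub_add_sub_cancel β (UAP.zp p z)]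
    exact pinv_add le_rfl (hm.trans (inv_pow (p : ℝ) k ▸ hk.le))
  have h2 : ∀ j : ℤ, ‖β - UAP.zp p z‖ ≤ ‖β - j‖ := fun j => by
    rw [← map_intCast (UAP.zp p)]
    exact hz (Set.mem_univ _)
  have h3 : ∀ i : ℕ, ‖(i : ℂ_[p])‖ ≤ ‖β - m - i‖ := fun i => by
    have h4 := h1.trans (h2 (m + i))
    rw [Int.cast_add, Int.cast_natCast, ← sub_sub] at h4
    calc ‖(i : ℂ_[p])‖ = ‖β - m + -(β - m - i)‖ := congrArg _ (by ring)
      _ ≤ _ := pinv_add h4 (norm_neg _).le
  obtain ⟨n, hn⟩ := Nat.exists_eq_succ_of_ne_zero (pow_pos (Fact.out : p.Prime).pos k).ne'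
  have h5 := trb_int h m (n + 1)
  have h6 : 0 < ‖(n.factorial : ℂ_[p])‖ := norm_pos_iff.2 (Nat.cast_ne_zero.2 n.factorial_ne_zero)
  rw [bnm, norm_div, div_le_one (norm_pos_iff.2 (Nat.cast_ne_zero.2 (Nat.factorial_ne_zero _))),
    Finset.prod_range_succ', Nat.factorial_succ, Nat.cast_mul, norm_mul, norm_mul, Nat.cast_zero,
    sub_zero, ← Nat.succ_eq_add_one n, ← hn, Nat.cast_pow, norm_pow, trb_p] at h5
  have h7 : ‖(n.factorial : ℂ_[p])‖ ≤ ‖∏ i ∈ Finset.range n, (β - m - ((i + 1 : ℕ) : ℂ_[p]))‖ := by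
    rw [← Finset.prod_range_add_one_eq_factorial, Nat.cast_prod, norm_prod, norm_prod]
    exact Finset.prod_le_prod (fun _ _ => norm_nonneg _) fun i _ => h3 _
  have h8 := (mul_le_mul h7 (h2 m) hd.le (norm_nonneg _)).trans h5
  rw [mul_comm] at h8
  exact hk.not_ge (le_of_mul_le_mul_right h8 h6)

theorem zp_norm (z : ℤ_[p]) : ‖UAP.zp p z‖ = ‖z‖ :=
  UAP.norm_zp p z

theorem zp_approx (z : ℤ_[p]) (k : ℕ) : ∃ m : ℤ, ‖UAP.zp p z - m‖ ≤ ((p : ℝ) ^ k)⁻¹ :=
  trb_approx z k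

theorem int_dvd_of_norm {m : ℤ} {k : ℕ} (h : ‖(m : ℂ_[p])‖ ≤ ((p : ℝ) ^ k)⁻¹) :
    ((p ^ k : ℕ) : ℤ) ∣ m := by
  rw [← map_intCast (UAP.zp p), UAP.norm_zp, ← zpow_natCast, ← _root_.zpow_neg,
    PadicInt.norm_int_le_pow_iff_dvd] at h
  exact_mod_cast h

theorem ppow_root_near {ζ : ℂ_[p]} {j : ℕ} (h : ζ ^ p ^ j = 1) : ‖ζ - 1‖ < 1 := by
  have hp := (pow_pos (Fact.out : p.Prime).pos j).ne'
  have h1 : ‖ζ‖ = 1 := (pow_eq_one_iff_of_nonneg (norm_nonneg _) hp).1 (by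
    rw [← norm_pow, h, norm_one])
  have h2 : ‖ζ - 1‖ ≤ 1 := by
    rw [sub_eq_add_neg]
    exact pinv_add h1.le (by simp)
  obtain ⟨r, hr⟩ := exists_add_pow_prime_pow_eq (Fact.out : p.Prime)
    (⟨ζ - 1, h2⟩ : (NormedField.valuation (K := ℂ_[p])).integer) 1 j
  have h3 : (ζ - 1 + 1) ^ p ^ j = (ζ - 1) ^ p ^ j + 1 ^ p ^ j + p * (ζ - 1) * 1 * r := by
    simpa using congrArg (NormedField.valuation (K := ℂ_[p])).integer.subtype hr
  rw [sub_add_cancel, h, one_pow] at h3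
  have h4 : (ζ - 1) ^ p ^ j = -((ζ - 1) * (r * p)) := by linear_combination -h3
  rw [← pow_lt_one_iff_of_nonneg (norm_nonneg _) hp, ← norm_pow, h4, norm_neg]
  exact (pinv_mul h2 (pinv_mul r.2 trb_p.le)).trans_lt (plg_lt p).2

theorem exists_norm_gt {r : ℝ} (hr : r < 1) : ∃ π : ℂ_[p], r < ‖π‖ ∧ ‖π‖ < 1 := by
  obtain ⟨n, hn⟩ := exists_pow_lt_of_lt_one (plg_lt p).1 hr
  have h0 : n ≠ 0 := fun h => (plg_lt p).2.not_gt (by simpa [h] using hn)
  obtain ⟨π, h⟩ := IsAlgClosed.exists_pow_nat_eq (p : ℂ_[p]) (Nat.pos_of_ne_zero h0)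
  have h1 : ‖π‖ ^ n = (p : ℝ)⁻¹ := by rw [← norm_pow, h, trb_p]
  exact ⟨π, lt_of_pow_lt_pow_left₀ n (norm_nonneg _) (h1 ▸ hn),
    (pow_lt_one_iff_of_nonneg (norm_nonneg _) h0).1 (h1 ▸ (plg_lt p).2)⟩

theorem trb_bs {A : Type} [NormedCommRing A] [NormedAlgebra ℂ_[p] A]
    {co : A →ₐ[ℂ_[p]] PowerSeries ℂ_[p]} (h : pser_Mod co) : ∃ B : BS p A,
      co B.t = PowerSeries.X ∧ (∀ f, co (B.dt f) = PowerSeries.derivative ℂ_[p] (co f)) ∧
      ∀ f, B.ev 0 f = PowerSeries.constantCoeff (co f) := by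
  obtain ⟨D, hD⟩ := pser_der h
  obtain ⟨e, he⟩ := pser_ev h
  have hX : ∀ k, ‖PowerSeries.coeff k (PowerSeries.X : PowerSeries ℂ_[p])‖ ≤ 1 := by
    intro k
    rw [PowerSeries.coeff_X]
    split_ifs <;> simp
  obtain ⟨t, ht⟩ := h.ex PowerSeries.X 1 hX
  have he1 : ∀ s, ‖s‖ < 1 → ∀ f, UAP.HasEv (co f) s (e s f) := by
    intro s hs f
    simpa only [if_pos hs] using he s f
  refine ⟨⟨t, D, e, h.ge t 1 (by rw [ht]; exact hX), pser_inj h ?_, ?_, fun s hs => ?_,
    fun s f => ?_, fun f U s hs hf => ?_, fun f hf s => ?_, fun g B hB => ?_⟩, ht, hD, fun f => ?_⟩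
  · rw [hD, ht, map_one, PowerSeries.derivative_X]
  · refine AddMonoidHomClass.continuous_of_bound D.toLinearMap 1 fun f => ?_
    rw [one_mul]
    refine h.ge _ _ fun k => ?_
    have := pser_der_le h f k
    rw [← hD] at this
    exact this
  · refine (he1 s hs t).unique ?_
    rw [ht]
    exact UAP.hasEv_X s
  · refine (he s f).norm_le (h.le f) ?_
    split_ifs with hs
    · exact hs.le
    · simp
  · refine pser_zero h f U s hs ?_
    have hn : Tendsto (fun n => ‖s n‖) U (𝓝 0) := by simpa using hs.norm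
    filter_upwards [hf, hn.eventually (gt_mem_nhds one_pos)] with n hn1 hn2
    refine ⟨hn1.1, ?_⟩
    rw [← hn1.2]
    exact he1 _ hn2 f
  · have hc : co f = PowerSeries.C (PowerSeries.constantCoeff (co f)) := by
      refine PowerSeries.derivative.ext ?_ (by simp)
      rw [← hD, hf, map_zero, PowerSeries.derivative_C]
    have hv : ∀ s, e s f = PowerSeries.constantCoeff (co f) := by
      intro s
      refine (he s f).unique ?_
      have := UAP.hasEv_C (PowerSeries.constantCoeff (co f)) (if ‖s‖ < 1 then s else 0)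
      rwa [← hc] at this
    rw [hv, hv]
  · obtain ⟨f, hf⟩ := h.ex g B hB
    refine ⟨f, h.ge f B (by rw [hf]; exact hB), fun s hs => ?_⟩
    rw [← hf]
    exact he1 s hs f
  · refine (he1 0 (by simp) f).unique ?_
    have := hasSum_single (f := fun n => PowerSeries.coeff n (co f) * (0 : ℂ_[p]) ^ n) 0
      fun n hn => by simp [hn]
    simpa [UAP.HasEv] using this

/-- Bounded series with access to the coefficients: repeat the proofs of `pser_bs`, `exists_bs`. -/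
theorem exists_bsc (p : ℕ) [Fact p.Prime] : ∃ (A : Type) (_ : NormedCommRing A) (_ : NormOneClass A)
    (_ : NormedAlgebra ℂ_[p] A) (_ : CompleteSpace A) (_ : IsUltrametricDist A) (_ : IsDomain A)
    (B : BS p A) (co : A →ₐ[ℂ_[p]] PowerSeries ℂ_[p]), pser_Mod co ∧ co B.t = PowerSeries.X ∧
      (∀ f, co (B.dt f) = PowerSeries.derivative ℂ_[p] (co f)) ∧
      ∀ f, B.ev 0 f = PowerSeries.constantCoeff (co f) := by
  let R : NormedCommRing (pser_sub p) :=
    { (pser_rn p).toNormedRing with mul_comm := mul_comm }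
  let N : NormedAlgebra ℂ_[p] (pser_sub p) :=
    { (pser_sub p).algebra with
      norm_smul_le := fun c f => pser_nm_ge _ _ fun k => by
        have h1 : PowerSeries.coeff k (c • f).1 = c * PowerSeries.coeff k f.1 := by simp
        rw [h1, norm_mul]
        exact mul_le_mul_of_nonneg_left (pser_nm_le f k) (norm_nonneg _) }
  have h : pser_Mod (A := pser_sub p) (pser_sub p).val :=
    ⟨pser_nm_le, pser_nm_ge, fun g B hB => ⟨⟨g, B, hB⟩, rfl⟩⟩
  obtain ⟨B, hB⟩ := trb_bs h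
  exact ⟨pser_sub p, R, pser_one h, N, pser_complete h, pser_ultra h, pser_dom h, B, _, h, hB⟩

theorem ode_coeff {g : PowerSeries ℂ_[p]} {β π : ℂ_[p]}
    (h : PowerSeries.derivative ℂ_[p] g * (1 + PowerSeries.C π * PowerSeries.X) =
      PowerSeries.C (β * π) * g) (h0 : PowerSeries.constantCoeff g = 1) (n : ℕ) :
    PowerSeries.coeff n g = bnm β n * π ^ n := by
  induction n with
  | zero => simpa [bnm] using h0
  | succ n ih =>
    have h1 : ((n : ℂ_[p]) + 1) ≠ 0 := Nat.cast_add_one_ne_zero n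
    have h2 : (n.factorial : ℂ_[p]) ≠ 0 := Nat.cast_ne_zero.2 n.factorial_ne_zero
    have h3 : PowerSeries.coeff n (PowerSeries.derivative ℂ_[p] g * PowerSeries.X) =
        PowerSeries.coeff n g * n := by
      cases n with
      | zero => simp
      | succ n => rw [PowerSeries.coeff_succ_mul_X, PowerSeries.coeff_derivative, Nat.cast_succ]
    have h4 := congrArg (PowerSeries.coeff n) h
    rw [mul_add, mul_one, mul_left_comm, map_add, PowerSeries.coeff_C_mul, PowerSeries.coeff_C_mul,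
      h3, PowerSeries.coeff_derivative] at h4
    have h5 : bnm β (n + 1) * (n + 1) = bnm β n * (β - n) := by
      rw [bnm, bnm, Finset.prod_range_succ, Nat.factorial_succ, Nat.cast_mul, Nat.cast_succ]
      field_simp
    refine mul_right_cancel₀ h1 ?_
    rw [ih] at h4
    linear_combination h4 - π ^ (n + 1) * h5

end Pool.Agent.E7
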