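import Pool.Agent.Lib.MP_7e5527_ag.EO.TR2
import Pool.Agent.Lib.MP_7e5527_ag.E7.POrb

/-! Isometric endomorphisms of `ℂ_[p]`. -/

open Filter Topology Polynomial Matrix

noncomputable section

namespace Pool.Agent.E7

variable {ι : Type} [Fintype ι] [DecidableEq ι] {p : ℕ} [Fact p.Prime] {σ : ℂ_[p] →+* ℂ_[p]}

theorem Frob.pow {f : ℕ} (h : Frob σ f) (k : ℕ) : Frob (σ ^ k) (k * f) := by
  refine ⟨h.iso.iterate k, ?_⟩
  induction k with
  | zero => intro y _; simp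
  | succ k ih =>
    intro y hy
    have h1 : ‖σ ((σ ^ k) y) - σ (y ^ p ^ (k * f))‖ < 1 := by
      rw [← map_sub, h.iso]
      exact ih y hy
    have h2 := h.res (y ^ p ^ (k * f)) (by rw [norm_pow]; exact pow_le_one₀ (norm_nonneg _) hy)
    rw [← pow_mul, ← pow_add] at h2
    have h3 : (σ ^ (k + 1)) y - y ^ p ^ ((k + 1) * f) =
        (σ ((σ ^ k) y) - σ (y ^ p ^ (k * f))) + (σ (y ^ p ^ (k * f)) - y ^ p ^ (k * f + f)) := by
      rw [pow_succ' σ, RingHom.mul_def, RingHom.comp_apply, add_mul, one_mul]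
      ring
    rw [h3]
    exact (IsUltrametricDist.norm_add_le_max _ _).trans_lt (max_lt h1 h2)

theorem pow_fix {B : Type} [CommRing B] {s : B →+* B} {y : B} (h : s y = y) (k : ℕ) :
    (s ^ k) y = y := by
  rw [RingHom.coe_pow]
  exact Function.iterate_fixed h k

/-- `σ` fixes `ℚ_[p]` (`iso_qp`) and permutes the roots of the minimal polynomial. -/
theorem iso_period (hσ : UAP.Iso σ) {y : ℂ_[p]} (hy : IsAlgebraic ℚ_[p] y) :
    ∃ r : ℕ, 0 < r ∧ (σ ^ r) y = y := by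
  classical
  obtain ⟨P, hP0, hP⟩ := hy
  have hroot : ∀ k : ℕ, (σ ^ k) y ∈ P.rootSet ℂ_[p] := fun k => by
    let τ : ℂ_[p] →ₐ[ℚ_[p]] ℂ_[p] := { σ ^ k with commutes' := iso_qp (hσ.iterate k) }
    rw [mem_rootSet]
    refine ⟨hP0, ?_⟩
    have h1 := aeval_algHom_apply τ y P
    rw [hP, map_zero] at h1
    exact h1
  obtain ⟨a, b, hab, he⟩ := (P.rootSet_finite ℂ_[p]).exists_lt_map_eq_of_forall_mem hroot
  obtain ⟨r, rfl⟩ := Nat.exists_eq_add_of_lt hab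
  refine ⟨r + 1, Nat.succ_pos r, (σ ^ a).injective ?_⟩
  rw [he, add_assoc, pow_add σ a, RingHom.mul_def, RingHom.comp_apply]

theorem iso_period_fam (hσ : UAP.Iso σ) {τ : Type} [Finite τ] {y : τ → ℂ_[p]}
    (hy : ∀ i, IsAlgebraic ℚ_[p] (y i)) : ∃ r : ℕ, 0 < r ∧ ∀ i, (σ ^ r) (y i) = y i := by
  classical
  have := Fintype.ofFinite τ
  choose r hr h using fun i => iso_period hσ (hy i)
  refine ⟨∏ i, r i, Finset.prod_pos fun i _ => hr i, fun i => ?_⟩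
  obtain ⟨m, hm⟩ := Finset.dvd_prod_of_mem r (Finset.mem_univ i)
  rw [hm, pow_mul]
  exact pow_fix (h i) m

/-- The image is closed and contains the algebraic elements, which are dense. -/
theorem iso_surj (hσ : UAP.Iso σ) : Function.Surjective σ := by
  have hi : Isometry σ := AddMonoidHomClass.isometry_of_norm σ hσ
  have hc : IsClosed (Set.range σ) := hi.isClosedEmbedding.isClosed_range
  intro y
  change y ∈ Set.range σ
  refine UniformSpace.Completion.induction_on (p := fun y : ℂ_[p] => y ∈ Set.range σ) y hc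
    fun a => ?_
  have ha : IsAlgebraic ℚ_[p] (a : ℂ_[p]) :=
    (Algebra.IsAlgebraic.isAlgebraic (R := ℚ_[p]) a).algebraMap (A := ℂ_[p])
  obtain ⟨r, hr, h⟩ := iso_period hσ ha
  obtain ⟨s, rfl⟩ := Nat.exists_eq_succ_of_ne_zero hr.ne'
  rw [Nat.succ_eq_add_one, pow_succ' σ, RingHom.mul_def, RingHom.comp_apply] at h
  exact ⟨_, h⟩

theorem exists_L (hσ : UAP.Iso σ) {q : ℂ_[p]} (hq : ‖q‖ < 1) (l : ℂ_[p]) :
    ∃ L, σ L - q * L = l := by
  obtain ⟨τ, hτ⟩ := (iso_surj hσ).hasRightInverse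
  have hK : ContractingWith ‖q‖₊ fun L : ℂ_[p] => τ (l + q * L) := by
    refine ⟨by exact_mod_cast hq, LipschitzWith.of_dist_le_mul fun x y => ?_⟩
    rw [dist_eq_norm, dist_eq_norm, ← hσ, map_sub, hτ, hτ, add_sub_add_left_eq_sub, ← mul_sub,
      norm_mul, coe_nnnorm]
  refine ⟨hK.fixedPoint, ?_⟩
  have h1 : τ (l + q * hK.fixedPoint) = hK.fixedPoint := hK.fixedPoint_isFixedPt
  have h2 := hτ (l + q * hK.fixedPoint)
  rw [h1] at h2
  rw [h2, add_sub_cancel_right]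

theorem L_unique (hσ : UAP.Iso σ) {q : ℂ_[p]} (hq : ‖q‖ < 1) {L L' : ℂ_[p]}
    (h : σ L - q * L = σ L' - q * L') : L = L' := by
  have h1 : σ (L - L') = q * (L - L') := by
    rw [map_sub, mul_sub]
    linear_combination h
  have h2 : ‖L - L'‖ = ‖q‖ * ‖L - L'‖ := by rw [← norm_mul, ← h1, hσ]
  have h3 : ‖L - L'‖ = 0 := by
    have := norm_nonneg (L - L')
    nlinarith
  exact sub_eq_zero.1 (norm_eq_zero.1 h3)

/-- The cyclotomic character: on the cyclic group of the roots of order `p ^ j` the map `σ` is a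
power `m j`, prime to `p`; the `m j` are compatible and converge in `ℤ_[p]`. -/
theorem exists_cyc (σ : ℂ_[p] →+* ℂ_[p]) : ∃ a : ℤ_[p], ‖a‖ = 1 ∧ ∀ (j : ℕ) (ζ : ℂ_[p]) (m : ℤ),
    ζ ^ p ^ j = 1 → ‖(m : ℂ_[p]) - UAP.zp p a‖ ≤ ((p : ℝ) ^ j)⁻¹ → σ ζ = ζ ^ m := by
  have hp' : p.Prime := Fact.out
  have hμ : ∀ j : ℕ, ∃ μ : ℂ_[p], IsPrimitiveRoot μ (p ^ j) := fun j => by
    have : NeZero (p ^ j) := ⟨pow_ne_zero _ hp'.ne_zero⟩
    have : NeZero ((p ^ j : ℕ) : ℂ_[p]) := ⟨by exact_mod_cast pow_ne_zero j hp'.ne_zero⟩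
    exact HasEnoughRootsOfUnity.exists_primitiveRoot ℂ_[p] (p ^ j)
  have hm : ∀ j : ℕ, ∃ m : ℕ, ∀ ζ : ℂ_[p], ζ ^ p ^ j = 1 → σ ζ = ζ ^ m := fun j => by
    have : NeZero (p ^ j) := ⟨pow_ne_zero _ hp'.ne_zero⟩
    obtain ⟨μ, hμ⟩ := hμ j
    obtain ⟨a, -, ha⟩ := hμ.eq_pow_of_pow_eq_one (ξ := σ μ)
      (by rw [← map_pow, hμ.pow_eq_one, map_one])
    refine ⟨a, fun w hw => ?_⟩
    obtain ⟨i, -, rfl⟩ := hμ.eq_pow_of_pow_eq_one hw
    rw [map_pow, ← ha, ← pow_mul, ← pow_mul, mul_comm]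
  choose m hm using hm
  have hd : ∀ i, (p : ℤ) ^ i ∣ (m (i + 1) : ℤ) - m i := fun i => by
    obtain ⟨μ, hμ⟩ := hμ i
    have h0 : μ ≠ 0 := hμ.ne_zero (pow_ne_zero _ hp'.ne_zero)
    have h1 := hm i μ hμ.pow_eq_one
    have h2 := hm (i + 1) μ (by rw [pow_succ, pow_mul, hμ.pow_eq_one, one_pow])
    have h3 := (hμ.zpow_eq_one_iff_dvd ((m (i + 1) : ℤ) - m i)).1 (by
      rw [zpow_sub₀ h0, zpow_natCast, zpow_natCast, ← h1, ← h2, div_self]
      exact (map_ne_zero σ).2 h0)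
    exact_mod_cast h3
  set a := PadicInt.ofIntSeq _
    (PadicInt.isCauSeq_padicNorm_of_pow_dvd_sub (fun i => (m i : ℤ)) p hd) with ha
  have key : ∀ (j : ℕ) (ζ : ℂ_[p]) (n : ℤ), ζ ^ p ^ j = 1 →
      ‖(n : ℂ_[p]) - UAP.zp p a‖ ≤ ((p : ℝ) ^ j)⁻¹ → σ ζ = ζ ^ n := by
    intro j ζ n hζ hn
    have h1 : (n : ℂ_[p]) - UAP.zp p a = UAP.zp p ((n : ℤ_[p]) - a) := by
      rw [map_sub, map_intCast]
    rw [h1, UAP.norm_zp, ← zpow_natCast, ← _root_.zpow_neg, PadicInt.norm_le_pow_iff_mem_span_pow,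
      ← PadicInt.ker_toZModPow, RingHom.mem_ker, map_sub, map_intCast, ha,
      PadicInt.toZModPow_ofIntSeq_of_pow_dvd_sub _ p hd, sub_eq_zero,
      ZMod.intCast_eq_intCast_iff_dvd_sub] at hn
    obtain ⟨c, hc⟩ := hn
    have h0 : ζ ≠ 0 := fun h => by simp [h, hp'.ne_zero] at hζ
    have h2 : (m j : ℤ) = n + ((p ^ j : ℕ) : ℤ) * c := by linarith
    rw [hm j ζ hζ, ← zpow_natCast, h2, zpow_add₀ h0, _root_.zpow_mul, zpow_natCast, hζ,
      _root_.one_zpow, mul_one]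
  refine ⟨a, le_antisymm a.norm_le_one (not_lt.1 fun hlt => ?_), key⟩
  obtain ⟨μ, hμ⟩ := hμ 1
  have h1 := key 1 μ 0 hμ.pow_eq_one (by
    rw [Int.cast_zero, zero_sub, norm_neg, UAP.norm_zp, ← zpow_natCast, ← _root_.zpow_neg,
      PadicInt.norm_le_pow_iff_norm_lt_pow_add_one]
    simpa using hlt)
  rw [zpow_zero, ← map_one σ] at h1
  exact hμ.ne_one (by simpa using hp'.one_lt) (σ.injective h1)

theorem eog1_geom_modEq {a q : ℕ} (ha : a ≡ 1 [MOD q]) (m : ℕ) :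
    ∑ i ∈ Finset.range m, a ^ i ≡ m [MOD q] := by
  induction m with
  | zero => simp [Nat.ModEq]
  | succ m ih =>
    rw [Finset.sum_range_succ]
    exact ih.add (by simpa using ha.pow m)

theorem eog1_geom_add (a k l : ℕ) : ∑ i ∈ Finset.range (k + l), a ^ i =
    ∑ i ∈ Finset.range k, a ^ i + a ^ k * ∑ i ∈ Finset.range l, a ^ i := by
  rw [Finset.sum_range_add, Finset.mul_sum]
  simp only [pow_add]

theorem eog1_geom_mul (a q m : ℕ) : ∑ i ∈ Finset.range (q * m), a ^ i =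
    (∑ i ∈ Finset.range q, a ^ i) * ∑ i ∈ Finset.range m, (a ^ q) ^ i := by
  induction m with
  | zero => simp
  | succ m ih => rw [Nat.mul_succ, eog1_geom_add, ih, Finset.sum_range_succ, pow_mul]; ring

theorem eog1_ppow_dvd {q : ℕ} (hq : q.Prime) (s : ℕ) : ∀ a m : ℕ, a ≡ 1 [MOD q ^ 2] →
    q ^ s ∣ ∑ i ∈ Finset.range m, a ^ i → q ^ s ∣ m := by
  induction s with
  | zero => simp
  | succ s ih =>
    intro a m ha hd
    have h1 : q ∣ m := by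
      have h2 := eog1_geom_modEq (ha.of_dvd (dvd_pow_self q two_ne_zero)) m
      exact (h2.dvd_iff dvd_rfl).1 ((dvd_pow_self q (Nat.succ_ne_zero s)).trans hd)
    obtain ⟨m', rfl⟩ := h1
    rw [eog1_geom_mul] at hd
    have h3 := eog1_geom_modEq ha q
    have h4 : q ∣ ∑ i ∈ Finset.range q, a ^ i :=
      ((h3.of_dvd (dvd_pow_self q two_ne_zero)).dvd_iff dvd_rfl).2 dvd_rfl
    obtain ⟨u, hu⟩ := h4
    rw [hu] at h3 hd
    have h5 : ¬ q ∣ u := by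
      rintro ⟨v, rfl⟩
      have h6 : q ^ 2 ∣ q := (h3.dvd_iff dvd_rfl).1 ⟨v, by ring⟩
      have h7 := Nat.le_of_dvd hq.pos h6
      have h8 := hq.one_lt
      nlinarith
    rw [pow_succ', mul_assoc] at hd
    have h9 := Nat.dvd_of_mul_dvd_mul_left hq.pos hd
    have h10 := (Nat.Coprime.pow_left s ((Nat.Prime.coprime_iff_not_dvd hq).2 h5)).dvd_of_dvd_mul_left
      h9
    rw [pow_succ']
    exact Nat.mul_dvd_mul_left q (ih _ _ (by simpa using ha.pow q) h10)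

theorem eog1_hull {q : ℕ} (hq : q.Prime) {s r a : ℕ} (hr : ¬ q ∣ r)
    (ha : a ≡ 1 [MOD q ^ 2]) (har : a ≡ 1 [MOD r]) (e : ℕ) :
    ∃ k, ∑ i ∈ Finset.range k, a ^ i ≡ e [MOD q ^ s * r] := by
  have hco : (q ^ s).Coprime r := Nat.Coprime.pow_left s ((Nat.Prime.coprime_iff_not_dvd hq).2 hr)
  have hr0 : 0 < r := Nat.pos_of_ne_zero (by rintro rfl; exact hr (dvd_zero q))
  obtain ⟨n, hn⟩ : ∃ n, n = q ^ s * r := ⟨_, rfl⟩
  have hn0 : 0 < n := hn ▸ Nat.mul_pos (pow_pos hq.pos s) hr0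
  have : NeZero n := ⟨hn0.ne'⟩
  have han : n.Coprime a := by
    rw [hn]
    refine Nat.Coprime.mul_left (Nat.Coprime.pow_left s ?_) ?_
    · have h1 := (ha.of_dvd (dvd_pow_self q two_ne_zero)).gcd_eq
      rw [Nat.Coprime, Nat.gcd_comm, h1, Nat.gcd_one_left]
    · rw [Nat.Coprime, Nat.gcd_comm, har.gcd_eq, Nat.gcd_one_left]
  have key : ∀ k l : ℕ, k ≤ l → ∑ i ∈ Finset.range k, a ^ i ≡ ∑ i ∈ Finset.range l, a ^ i [MOD n] →
      k ≡ l [MOD n] := by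
    intro k l hkl h
    obtain ⟨d, rfl⟩ := Nat.exists_eq_add_of_le hkl
    rw [eog1_geom_add] at h
    have h1 : n ∣ a ^ k * ∑ i ∈ Finset.range d, a ^ i := by
      have h2 := (Nat.modEq_iff_dvd' (Nat.le_add_right _ _)).1 h
      rwa [Nat.add_sub_cancel_left] at h2
    have h3 := (han.pow_right k).dvd_of_dvd_mul_left h1
    have h4 : n ∣ d := by
      rw [hn] at h3 ⊢
      refine hco.mul_dvd_of_dvd_of_dvd (eog1_ppow_dvd hq s a d ha ((dvd_mul_right _ _).trans h3))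
        ?_
      exact ((eog1_geom_modEq har d).dvd_iff dvd_rfl).1 ((dvd_mul_left _ _).trans h3)
    exact (Nat.modEq_iff_dvd' (Nat.le_add_right _ _)).2 (by rwa [Nat.add_sub_cancel_left])
  have hinj : Function.Injective
      fun t : ZMod n => ((∑ i ∈ Finset.range t.val, a ^ i : ℕ) : ZMod n) := by
    intro t t' h
    have h1 := (ZMod.natCast_eq_natCast_iff _ _ _).1 h
    have h2 : t.val ≡ t'.val [MOD n] := by
      rcases le_total t.val t'.val with hle | hle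
      · exact key _ _ hle h1
      · exact (key _ _ hle h1.symm).symm
    have h3 := (ZMod.natCast_eq_natCast_iff _ _ _).2 h2
    rwa [ZMod.natCast_zmod_val, ZMod.natCast_zmod_val] at h3
  obtain ⟨t, ht⟩ := Finite.surjective_of_injective hinj (e : ZMod n)
  exact ⟨t.val, hn ▸ (ZMod.natCast_eq_natCast_iff _ _ _).1 ht⟩

/-- `σ` acts on the roots of order `p ^ j` as a power `a = 1 mod p ^ 2`, and the sums
`1 + a + ... + a ^ (k - 1)` run through all classes modulo `p ^ j` (see the proofs of `orbit_fam`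
and `UAP.orbit_full`). -/
theorem geom_orbit (hp : ∀ ξ : ℂ_[p], ξ ^ p ^ 2 = 1 → σ ξ = ξ) {c : ι → ℂ_[p]} {j : ℕ}
    (hc : ∀ i, c i ^ p ^ j = 1) (e : ℕ) :
    ∃ k : ℕ, ∀ i, ∏ l ∈ Finset.range k, (σ ^ l) (c i) = c i ^ e := by
  have hp' : p.Prime := Fact.out
  obtain ⟨n, hn⟩ : ∃ n, n = p ^ j * p ^ 2 := ⟨_, rfl⟩
  have hn0 : 0 < n := hn ▸ Nat.mul_pos (pow_pos hp'.pos _) (pow_pos hp'.pos _)
  have : NeZero n := ⟨hn0.ne'⟩
  have : NeZero (n : ℂ_[p]) := ⟨by exact_mod_cast hn0.ne'⟩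
  obtain ⟨μ, hμ⟩ := HasEnoughRootsOfUnity.exists_primitiveRoot ℂ_[p] n
  obtain ⟨a, -, ha⟩ := hμ.eq_pow_of_pow_eq_one (ξ := σ μ)
    (by rw [← map_pow, hμ.pow_eq_one, map_one])
  have hσ : ∀ w : ℂ_[p], w ^ n = 1 → σ w = w ^ a := by
    intro w hw
    obtain ⟨i, -, rfl⟩ := hμ.eq_pow_of_pow_eq_one hw
    rw [map_pow, ← ha, ← pow_mul, ← pow_mul, mul_comm]
  have ha1 : a ≡ 1 [MOD p ^ 2] := by
    have h3 : IsPrimitiveRoot (μ ^ p ^ j) (p ^ 2) := hμ.pow hn0 hn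
    have hc := hp _ h3.pow_eq_one
    rw [hσ _ (by rw [← pow_mul, mul_comm, pow_mul, hμ.pow_eq_one, one_pow])] at hc
    rw [h3.eq_orderOf]
    have h4 : IsOfFinOrder (μ ^ p ^ j) := isOfFinOrder_iff_pow_eq_one.2
      ⟨n, hn0, by rw [← pow_mul, mul_comm, pow_mul, hμ.pow_eq_one, one_pow]⟩
    exact h4.pow_eq_pow_iff_modEq.1 (by rw [hc, pow_one])
  obtain ⟨k, hk⟩ := eog1_hull hp' (s := j) (r := 1) hp'.not_dvd_one ha1 (Nat.modEq_one) e
  rw [mul_one] at hk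
  refine ⟨k, fun i => ?_⟩
  have h1 : σ (c i) = c i ^ a := hσ _ (by rw [hn, pow_mul, hc, one_pow])
  have h2 : ∀ l : ℕ, (σ ^ l) (c i) = c i ^ a ^ l := fun l => by
    induction l with
    | zero => simp
    | succ l ih =>
      rw [pow_succ' σ, RingHom.mul_def, RingHom.comp_apply, ih, map_pow, h1, ← pow_mul,
        ← pow_succ']
  simp only [h2]
  rw [Finset.prod_pow_eq_pow_sum]
  exact pow_eq_pow_of_modEq hk (hc i)

theorem root_ppow {η : ι → ℂ_[p]ˣ} (hη : Nr η) {M : ℕ} (hM : 0 < M) (h : ∀ i, η i ^ M = 1) :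
    ∃ j : ℕ, p ^ j ∣ M ∧ ∀ i, η i ^ p ^ j = 1 := by
  have hp' : p.Prime := Fact.out
  obtain ⟨j, r, hr, rfl⟩ := Nat.exists_eq_pow_mul_and_not_dvd hM.ne' p hp'.ne_one
  refine ⟨j, dvd_mul_right _ _, fun i => Units.ext ?_⟩
  have h1 : ‖(η i : ℂ_[p])‖ ≤ 1 := by
    have h2 := IsUltrametricDist.norm_add_le_max ((η i : ℂ_[p]) - 1) 1
    rw [sub_add_cancel, norm_one] at h2
    exact h2.trans (max_le (hη i).le le_rfl)
  have h3 : ∀ k : ℕ, ‖(η i : ℂ_[p]) ^ k - 1‖ < 1 := fun k => by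
    induction k with
    | zero => simp
    | succ k ih =>
      have h4 : (η i : ℂ_[p]) ^ (k + 1) - 1 = η i * ((η i : ℂ_[p]) ^ k - 1) + (η i - 1) := by ring
      rw [h4]
      refine (IsUltrametricDist.norm_add_le_max _ _).trans_lt (max_lt ?_ (hη i))
      rw [norm_mul]
      exact (mul_le_of_le_one_left (norm_nonneg _) h1).trans_lt ih
  rw [Units.val_pow_eq_pow_val, Units.val_one]
  refine UAP.root_eq_one_of_coprime hr ?_ (h3 _)
  rw [← pow_mul, ← Units.val_pow_eq_pow_val, h i, Units.val_one]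

theorem exists_field (E0 : IntermediateField ℚ_[p] ℂ_[p]) [FiniteDimensional ℚ_[p] E0]
    {y : ι → ℂ_[p]} (hy : ∀ i, IsAlgebraic ℚ_[p] (y i)) : ∃ E1 : IntermediateField ℚ_[p] ℂ_[p],
      FiniteDimensional ℚ_[p] E1 ∧ E0 ≤ E1 ∧ (∀ i, y i ∈ E1) ∧
        ∀ ξ : ℂ_[p], ξ ^ p ^ 2 = 1 → ξ ∈ E1 := by
  have hp' : p.Prime := Fact.out
  have : NeZero (p ^ 2) := ⟨pow_ne_zero _ hp'.ne_zero⟩
  have : NeZero ((p ^ 2 : ℕ) : ℂ_[p]) := ⟨by exact_mod_cast pow_ne_zero 2 hp'.ne_zero⟩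
  obtain ⟨μ, hμ⟩ := HasEnoughRootsOfUnity.exists_primitiveRoot ℂ_[p] (p ^ 2)
  have : Finite (Set.range y) := (Set.finite_range y).to_subtype
  have : FiniteDimensional ℚ_[p] (IntermediateField.adjoin ℚ_[p] (Set.range y)) :=
    IntermediateField.finiteDimensional_adjoin (by
      rintro _ ⟨i, rfl⟩
      exact (hy i).isIntegral)
  have : FiniteDimensional ℚ_[p]
      (E0 ⊔ IntermediateField.adjoin ℚ_[p] (Set.range y) : IntermediateField ℚ_[p] ℂ_[p]) :=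
    IntermediateField.finiteDimensional_sup _ _
  refine ⟨_, UAP.finiteDimensional_sup_root (E0 ⊔ IntermediateField.adjoin ℚ_[p] (Set.range y))
    (pow_pos hp'.pos 2) hμ.pow_eq_one, le_sup_left.trans le_sup_left, fun i => ?_, fun ξ hξ => ?_⟩
  · exact (le_sup_right.trans le_sup_left : IntermediateField.adjoin ℚ_[p] (Set.range y) ≤ _)
      (IntermediateField.subset_adjoin _ _ ⟨i, rfl⟩)
  · obtain ⟨l, -, rfl⟩ := hμ.eq_pow_of_pow_eq_one hξ
    exact pow_mem ((le_sup_right : IntermediateField.adjoin ℚ_[p] {μ} ≤ _)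
      (IntermediateField.mem_adjoin_simple_self _ μ)) l

/-- A torsion point of exact order `p ^ (j + 1)`. -/
theorem exists_gen {c : ι → ℂ_[p]ˣ} {j : ℕ} (h : c ^ p ^ (j + 1) = 1) (h' : c ^ p ^ j ≠ 1) :
    ∃ (ζ : ℂ_[p]ˣ) (a : ι → ℤ) (i0 : ι), IsPrimitiveRoot ζ (p ^ (j + 1)) ∧ a i0 = 1 ∧
      c = fun i => ζ ^ a i := by
  have hp' : p.Prime := Fact.out
  have : NeZero (p ^ (j + 1)) := ⟨pow_ne_zero _ hp'.ne_zero⟩
  obtain ⟨i0, hi0⟩ : ∃ i0, c i0 ^ p ^ j ≠ 1 := by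
    by_contra hc
    refine h' (funext fun i => ?_)
    by_contra hi
    exact hc ⟨i, hi⟩
  have h1 : ∀ i, c i ^ p ^ (j + 1) = 1 := fun i => congrFun h i
  have hζ : IsPrimitiveRoot (c i0) (p ^ (j + 1)) := by
    rw [← orderOf_eq_prime_pow hi0 (h1 i0)]
    exact IsPrimitiveRoot.orderOf _
  have h2 : ∀ i, ∃ a : ℕ, c i0 ^ a = c i := fun i => by
    obtain ⟨a, -, ha⟩ := hζ.eq_pow_of_mem_rootsOfUnity (ξ := c i)
      ((mem_rootsOfUnity _ _).2 (h1 i))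
    exact ⟨a, ha⟩
  choose a ha using h2
  refine ⟨c i0, fun i => if i = i0 then 1 else a i, i0, hζ, if_pos rfl, funext fun i => ?_⟩
  dsimp only
  split_ifs with hi
  · rw [hi, zpow_one]
  · rw [zpow_natCast, ha]

end Pool.Agent.E7
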