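import Pool.Agent.Lib.MP_7e5527_ag.EO.QR
import Pool.Agent.Lib.MP_7e5527_ag.E7.Orc

/-! Wronskians and the oracle. -/

open Filter Topology Polynomial Matrix

noncomputable section

namespace Pool.Agent.E7

variable {p : ℕ} [Fact p.Prime]

variable {Δ : Subgroup Gb}

/-- As `psi_main`. -/
theorem psi_mi (hΔ : Δ ≤ Gam) (hi : Δ.relIndex Gam ≠ 0) {k : Option Ix → ℤ} {F : Option Ix → Fn}
    (h : ∀ a, MI Δ (k a) (F a)) (i1 : Ix) {d : ℕ} (P : PB d) :
    MI Δ (2 * wP k i1 P) (PsiF k F i1 P ^ 2) := by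
  have hH : ∀ a, IsHol (F a) := fun a => (h a).1.gd.isHol
  have hv : Inv Δ (2 * wP k i1 P) (PsiF k F i1 P ^ 2) := fun δ hδ => by
    rw [psi_slash (hΔ hδ) k hH, funext fun a => (h a).2 δ hδ]
  refine ⟨⟨fun γ hγ => ?_, hv.finite hΔ hi⟩, hv⟩
  rw [psi_slash hγ k hH]
  exact psi_gd k (fun a => (h a).1.1 γ hγ) i1 P

/-- As `br_main`. -/
theorem br_mi (hΔ : Δ ≤ Gam) (hi : Δ.relIndex Gam ≠ 0) {k : Option Ix → ℤ} {F : Option Ix → Fn}
    (h : ∀ a, MI Δ (k a) (F a)) : MI Δ (2 * (∑ a, k a + 18)) (Wr.br dl k F ^ 2) := by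
  have hH : ∀ a, IsHol (F a) := fun a => (h a).1.gd.isHol
  have hv : Inv Δ (2 * (∑ a, k a + 18)) (Wr.br dl k F ^ 2) := fun δ hδ => by
    rw [sl_br_sq (hΔ hδ) k hH, funext fun a => (h a).2 δ hδ]
  refine ⟨⟨fun γ hγ => ?_, hv.finite hΔ hi⟩, hv⟩
  rw [sl_br_sq hγ k hH]
  exact GQ.pow_mem (br_mem GQ (fun i _ hF => GQ.dl_mem i hF) k fun a => (h a).1.1 γ hγ) 2

/-- As `Dk_eq_prod`. -/
theorem Dk_eq_prod' {f : Option Ix → Fn} (hf : ∀ o, IsHol (f o)) (w : ℤ)
    (Ph : Ix → MvPolynomial (Fin 3) ℂ) (m : Ix → ℕ) (hP : ∀ j, (Ph j).IsHomogeneous (m j))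
    (i1 : Ix) :
    Wr.Dk dl (fun o => o.elim w fun j => w * (m j : ℤ)) (fun o => o.elim (f none) fun j =>
        MvPolynomial.aeval ![f none, f (some i1), f (some j)] (Ph j)) i1 w (f (some i1)) =
      (∏ j ∈ Finset.univ.erase i1, MvPolynomial.aeval ![f none, f (some i1), f (some j)]
        (MvPolynomial.pderiv 2 (Ph j))) * Wr.br dl (fun _ => w) f := by
  obtain ⟨t0, h0⟩ : ∃ t0 : Hol, (t0 : Fn) = f none := ⟨⟨f none, hf none⟩, rfl⟩
  obtain ⟨t, ht⟩ : ∃ t : Ix → Hol, ∀ i, (t i : Fn) = f (some i) :=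
    ⟨fun i => ⟨f (some i), hf _⟩, fun _ => rfl⟩
  have hσ : ∀ i x, Hol.val.toRingHom (dH i x) = dl i (Hol.val.toRingHom x) := fun _ _ => rfl
  have ha : ∀ j (Q : MvPolynomial (Fin 3) ℂ), Hol.val.toRingHom (MvPolynomial.aeval
      ![t0, t i1, t j] Q) = MvPolynomial.aeval ![f none, f (some i1), f (some j)] Q := by
    intro j Q
    refine (MvPolynomial.comp_aeval_apply ![t0, t i1, t j] Hol.val Q).trans ?_
    congr 2
    funext r
    fin_cases r
    · exact h0
    · exact ht i1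
    · exact ht j
  have h := (Wr.map_Dk (dl := fun i => dH i) (dl' := dl) Hol.val.toRingHom hσ _ _ _ _ _).symm.trans
    ((congrArg Hol.val.toRingHom (Wr.Dk_aeval dH dH_const t0 t w Ph m hP i1)).trans
      ((map_mul _ _ _).trans (congrArg₂ (· * ·) (map_prod _ _ _)
        (Wr.map_br (dl := fun i => dH i) (dl' := dl) Hol.val.toRingHom hσ _ _))))
  have e1 : (fun a : Option Ix => Hol.val.toRingHom
      (a.elim t0 fun j => MvPolynomial.aeval ![t0, t i1, t j] (Ph j))) =
      fun o : Option Ix => o.elim (f none) fun j =>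
        MvPolynomial.aeval ![f none, f (some i1), f (some j)] (Ph j) := by
    funext a
    cases a with
    | none => exact h0
    | some j => exact ha j _
  have e2 : (fun a : Option Ix => Hol.val.toRingHom (a.elim t0 t)) = f := by
    funext a
    cases a with
    | none => exact h0
    | some j => exact ht j
  have e3 : Hol.val.toRingHom (t i1) = f (some i1) := ht i1
  rw [e1, e2, e3, Finset.prod_congr rfl fun j _ => ha j _] at h
  exact h

variable {e : ℂ_[p] ≃+* ℂ}

theorem TWE_aeval {σ : Type} (F : σ → RQ e) (P : MvPolynomial σ ℂ_[p]) :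
    ((MvPolynomial.eval₂ (TWE e).cst F P : RQ e) : Fn) =
      MvPolynomial.aeval (fun r => (F r : Fn)) (MvPolynomial.map e.toRingHom P) := by
  rw [MvPolynomial.aeval_def, MvPolynomial.eval₂_map]
  exact MvPolynomial.eval₂_comp_left (RQ e).val.toRingHom _ _ P

theorem TWE_br (k : Option Ix → ℤ) (F : Option Ix → RQ e) :
    ((Wr.br (TWE e).del k F : RQ e) : Fn) = Wr.br dl k fun o => (F o : Fn) :=
  Wr.map_br (dl := (TWE e).del) (dl' := dl) (RQ e).val.toRingHom (fun _ _ => rfl) k F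

theorem oo_le : RQ e ≤ GQ := fun _ h => h.1.1

theorem oo_der {Q : Type} [CommRing Q] (V : SubR (TWE e) Q) :
    ∃ dd : Ix → Derivation ℤ (MvPolynomial Ix Q) (MvPolynomial Ix Q),
      (∀ i c, dd i (MvPolynomial.C c) = MvPolynomial.C (V.del i c)) ∧
      (∀ i j, dd i (MvPolynomial.X j) = if i = j then
        MvPolynomial.C (V.cst (e.symm (2 * Real.pi * Complex.I)⁻¹)) else 0) ∧
      ∀ i G, MvPolynomial.aeval yF (MvPolynomial.map V.val (dd i G)) =
        dl i (MvPolynomial.aeval yF (MvPolynomial.map V.val G)) := by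
  have hH : ∀ F : Q, IsHol (V.val F : Fn) := fun F => (RQ.gd _).isHol
  have hd : ∀ i F, (V.val (V.del i F) : Fn) = dl i (V.val F) := fun i F => by
    rw [V.val_del, TWE_del]
  choose dd h1 h2 using fun i : Ix => polyP_der (A := Q) (AddMonoidHom.mk' (V.del i)
      fun F G => V.inj (Subtype.ext (by
        rw [hd, map_add, map_add, Subalgebra.coe_add, Subalgebra.coe_add, hd, hd,
          dl_add (hH F) (hH G)])))
    (fun F G => V.inj (Subtype.ext (by
      simp only [AddMonoidHom.mk'_apply, hd, map_add, map_mul, Subalgebra.coe_add,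
        Subalgebra.coe_mul, dl_mul (hH F) (hH G)])))
    fun j : Ix => if i = j then
      MvPolynomial.C (V.cst (e.symm (2 * Real.pi * Complex.I)⁻¹)) else 0
  obtain ⟨d, g1, g2, g3⟩ := exists_dP (𝒮 := RQ e) (oo_le.trans GQ_le_Hol)
    fun i F hF => RQ.dl_mem i ⟨F, hF⟩
  have key : ∀ i G, MvPolynomial.map V.val (dd i G) = d i (MvPolynomial.map V.val G) := by
    intro i G
    induction G using MvPolynomial.induction_on with
    | C a =>
      rw [h1, MvPolynomial.map_C, MvPolynomial.map_C, g1]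
      exact congrArg _ (Subtype.ext (hd i a))
    | add f g hf hg => rw [map_add, map_add, map_add, map_add, hf, hg]
    | mul_X f j hf =>
      rw [map_mul (MvPolynomial.map V.val), MvPolynomial.map_X, Derivation.leibniz,
        Derivation.leibniz, smul_eq_mul,
        smul_eq_mul, smul_eq_mul, smul_eq_mul, map_add, map_mul, map_mul, hf, MvPolynomial.map_X,
        h2, g2]
      split_ifs
      · rw [MvPolynomial.map_C, V.val_cst]
        have : (TWE e).cst (e.symm (2 * Real.pi * Complex.I)⁻¹) =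
            algebraMap ℂ (RQ e) (2 * Real.pi * Complex.I)⁻¹ := by
          change algebraMap ℂ (RQ e) (e (e.symm _)) = _
          rw [e.apply_symm_apply]
        rw [this]
      · rw [map_zero]
  exact ⟨dd, h1, h2, fun i G => by rw [key, g3]⟩

/-- As `oracle_E7`, in `MvPolynomial Ix Q` with the derivations of `polyP_der`; `map V.val` into
`MvPolynomial Ix (RQ e)` commutes with them, so the power of the Wronskian is a constant `Ψ' d`
(`aeval_yF_inj`, `exists_dP`). -/
theorem orc_E7 (k : Option Ix → ℤ) (e0 : RQ e) (Φ : Ix → RQ e) (i1 : Ix) (P : ∀ d, PB d) {r : ℕ}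
    (hr : 0 < r) (Ψ : ℕ → RQ e)
    (hΨ : ∀ d, (Ψ d : Fn) = PsiF k (fun o => o.elim (e0 : Fn) fun j => Φ j) i1 (P d) ^ r) :
    Orc (TWE e) e0 Φ Ψ := by
  intro Q _ V Φ' ⟨e0', he0⟩ hΦ'
  obtain ⟨dd, h1, h2, h3⟩ := oo_der V
  let φ0 : ℚ →+* Q := V.cst.comp (algebraMap ℚ ℂ_[p])
  let F' : Option Ix → MvPolynomial Ix Q := fun o =>
    o.elim (MvPolynomial.C e0') fun j => MvPolynomial.C (Φ' j)
  let b' : ∀ d, Fin (P d).D → MvPolynomial Ix Q := fun d α => MvPolynomial.map φ0 ((P d).b α)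
  let W : ℕ → MvPolynomial Ix Q := fun d =>
    Wr.Psi (fun i => dd i) k F' i1 (Wr.wStep k i1 18) (-(d : ℤ)) (b' d)
  have hW : ∀ d, MvPolynomial.aeval yF (MvPolynomial.map V.val (W d)) =
      PsiF k (fun o => o.elim (e0 : Fn) fun j => Φ j) i1 (P d) := fun d => by
    have h := Wr.map_Psi (dl := fun i => dd i) (dl' := dl)
      ((MvPolynomial.aeval yF : MvPolynomial Ix (RQ e) →ₐ[RQ e] Fn).toRingHom.comp
        (MvPolynomial.map V.val)) h3 k F' i1 (Wr.wStep k i1 18) (-(d : ℤ)) (b' d)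
    refine h.trans ?_
    unfold PsiF
    congr 1
    · funext o
      cases o with
      | none =>
        change MvPolynomial.aeval yF (MvPolynomial.map V.val (MvPolynomial.C e0')) = _
        rw [MvPolynomial.map_C, he0]
        exact MvPolynomial.aeval_C yF _
      | some j =>
        change MvPolynomial.aeval yF (MvPolynomial.map V.val (MvPolynomial.C (Φ' j))) = _
        rw [MvPolynomial.map_C, hΦ']
        exact MvPolynomial.aeval_C yF _
    · funext α
      change MvPolynomial.aeval yF (MvPolynomial.map V.val (MvPolynomial.map φ0 _)) = _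
      rw [MvPolynomial.map_map, RingHom.ext_rat (V.val.comp φ0)
        ((algebraMap ℂ (RQ e)).comp (algebraMap ℚ ℂ))]
      exact aeval_map_pF (RQ e) _
  have h4 : ∀ d, MvPolynomial.map V.val (W d ^ r) = MvPolynomial.C (Ψ d) := fun d => by
    apply aeval_yF_inj oo_le
    rw [map_pow, map_pow, hW, MvPolynomial.aeval_C, ← hΨ]
    rfl
  have h5 : ∀ d, V.val ((W d ^ r).coeff 0) = Ψ d := fun d => by
    rw [← MvPolynomial.coeff_map, h4, MvPolynomial.coeff_zero_C]
  refine ⟨fun d => (W d ^ r).coeff 0, h5, ?_⟩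
  intro L _ _ _ D ε z hcst hch hΦ hz d Pp h0 hd hD hev
  have h6 : W d ^ r = MvPolynomial.C ((W d ^ r).coeff 0) := by
    apply MvPolynomial.map_injective V.val V.inj
    rw [h4, MvPolynomial.map_C, h5]
  have hκ : ∀ c, D (ε (V.cst c)) = 0 := fun c => by rw [hcst, Derivation.map_algebraMap]
  have hπ : (2 * Real.pi * Complex.I : ℂ) ≠ 0 := Complex.two_pi_I_ne_zero
  obtain ⟨c, hc, hcD, hrel⟩ := orc_rel D (ε.comp φ0) (fun r => hκ _)
    (ε (V.cst (e.symm (2 * Real.pi * Complex.I)⁻¹))) (ε (V.cst (e.symm (2 * Real.pi * Complex.I))))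
    (by rw [← map_mul, ← map_mul, ← map_mul, mul_inv_cancel₀ hπ, map_one, map_one, map_one])
    (hκ _) z (P d).b (P d).span Pp h0 hd hD hev
  have h7 := Wr.psi_zero_of_rel (fun i => dd i) k F' i1 D
    (MvPolynomial.eval₂Hom ε fun i => ε (V.cst (e.symm (2 * Real.pi * Complex.I)⁻¹)) * z i)
    (fun i => D (z i)) (orc_chain D ε z V.del hch _ (hκ _) dd h1 h2)
    (fun j _ => (MvPolynomial.eval₂Hom_C _ _ _).trans (hΦ j)) hz (Wr.wStep k i1 18) (-(d : ℤ))
    (b' d) c hc hcD (by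
      rw [← hrel]
      refine Finset.sum_congr rfl fun α _ => ?_
      rw [MvPolynomial.coe_eval₂Hom, MvPolynomial.eval₂_map])
  have h8 := congrArg
    (MvPolynomial.eval₂Hom ε fun i => ε (V.cst (e.symm (2 * Real.pi * Complex.I)⁻¹)) * z i) h6
  rw [map_pow, h7, MvPolynomial.eval₂Hom_C] at h8
  rw [← h8]
  exact zero_pow hr.ne'

end Pool.Agent.E7
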