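import Pool.Agent.Lib.MP_7e5527_ag.EO.TDat

/-! Similitudes of the norm over a field. -/

open Filter Topology Polynomial Matrix

noncomputable section

namespace Pool.Agent.E7

variable {K : Type} [Field K] [CharZero K]

/-- The point with coordinates `ξ` in the basis `TT`. -/
def tv (ξ : Ix → K) : Ix → K := ∑ l, ξ l • toR K (TT l)

theorem tr_tv_pt (ξ y : Ix → K) : tr (tv ξ) (pt y) = ξ ⬝ᵥ y := by
  have h := congrFun (yc_pt y)
  simp only [yc] at h
  simp only [tv, tr_sum_left, tr_smul_left, h, dotProduct]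

theorem tv_surj (T : Ix → K) : ∃ ξ, tv ξ = T := ⟨fun i => tr T (toR K (UU i)), sum_TT T⟩

theorem adj_floor (l l' : Ix) : ((⌊2 * TT l l'⌋ : ℤ) : K) = 2 * toR K (TT l) l' := by
  obtain ⟨n, hn⟩ := Lam.two_mul (TT_mem l) l'
  have h := congrArg (fun q : ℚ => (q : K)) hn
  simp only [Rat.cast_mul, Rat.cast_ofNat, Rat.cast_intCast] at h
  rw [hn, Int.floor_intCast, ← h]
  rfl

theorem adj_omul {σ R : Type} [CommRing R] {x y : Fin 8 → MvPolynomial σ R} {n : ℕ}
    (m : ∀ a b, (x a * y b).IsHomogeneous n) (k : Fin 8) : (omul x y k).IsHomogeneous n := by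
  match k with
  | 0 =>
    rw [omul_0]
    exact (((((((m 0 0).sub (m 1 1)).sub (m 2 2)).sub (m 3 3)).sub (m 4 4)).sub
        (m 5 5)).sub (m 6 6)).sub (m 7 7)
  | 1 =>
    rw [omul_1]
    exact (((((((m 0 1).add (m 1 0)).add (m 2 3)).sub (m 3 2)).add (m 4 5)).sub
        (m 5 4)).sub (m 6 7)).add (m 7 6)
  | 2 =>
    rw [omul_2]
    exact (((((((m 0 2).sub (m 1 3)).add (m 2 0)).add (m 3 1)).add (m 4 6)).add
        (m 5 7)).sub (m 6 4)).sub (m 7 5)
  | 3 =>
    rw [omul_3]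
    exact (((((((m 0 3).add (m 1 2)).sub (m 2 1)).add (m 3 0)).add (m 4 7)).sub
        (m 5 6)).add (m 6 5)).sub (m 7 4)
  | 4 =>
    rw [omul_4]
    exact (((((((m 0 4).sub (m 1 5)).sub (m 2 6)).sub (m 3 7)).add (m 4 0)).add
        (m 5 1)).add (m 6 2)).add (m 7 3)
  | 5 =>
    rw [omul_5]
    exact (((((((m 0 5).add (m 1 4)).sub (m 2 7)).add (m 3 6)).sub (m 4 1)).add
        (m 5 0)).sub (m 6 3)).add (m 7 2)
  | 6 =>
    rw [omul_6]
    exact (((((((m 0 6).add (m 1 7)).add (m 2 4)).sub (m 3 5)).sub (m 4 2)).add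
        (m 5 3)).add (m 6 0)).sub (m 7 1)
  | 7 =>
    rw [omul_7]
    exact (((((((m 0 7).sub (m 1 6)).add (m 2 5)).add (m 3 4)).sub (m 4 3)).sub
        (m 5 2)).add (m 6 1)).add (m 7 0)

theorem adj_hom {σ R : Type} [CommRing R] {Z : Ix → MvPolynomial σ R}
    (h : ∀ l, (Z l).IsHomogeneous 1) : (nrm Z).IsHomogeneous 3 := by
  have hd : ∀ i, (dg Z i).IsHomogeneous 1 := fun i => h _
  have ho : ∀ i k, (oc Z i k).IsHomogeneous 1 := fun i k => h _
  have h2 : ∀ k, (omul (oc Z 0) (oc Z 1) k).IsHomogeneous 2 :=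
    adj_omul fun a b => (ho 0 a).mul (ho 1 b)
  have h3 : (omul (omul (oc Z 0) (oc Z 1)) (oc Z 2) 0).IsHomogeneous 3 :=
    adj_omul (fun a b => (h2 a).mul (ho 2 b)) 0
  rw [nrm, two_mul]
  refine ((((hd 0).mul (hd 1)).mul (hd 2)).sub ?_).add (h3.add h3)
  refine MvPolynomial.IsHomogeneous.sum _ _ _ fun i _ => (hd i).mul (n := 2) ?_
  exact MvPolynomial.IsHomogeneous.sum _ _ _ fun k _ => (ho i k).pow 2

/-- `nrm_map`; the floor of `2 * TT l l'` is that number (`Lam.two_mul`). -/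
theorem aeval_Np (ξ : Ix → K) : MvPolynomial.aeval ξ Np = 8 * nrm (tv ξ) := by
  have h := nrm_map (MvPolynomial.aeval ξ : MvPolynomial Ix ℤ →ₐ[ℤ] K).toRingHom
    fun l' => ∑ l, MvPolynomial.X l * MvPolynomial.C ⌊2 * TT l l'⌋
  refine h.symm.trans ?_
  rw [show (8 : K) = 2 ^ 3 by norm_num, ← nrm_smul]
  refine congrArg nrm (funext fun l' => ?_)
  simp only [AlgHom.toRingHom_eq_coe, RingHom.coe_coe, map_sum, map_mul, MvPolynomial.aeval_X,
    eq_intCast, map_intCast, adj_floor, tv, Pi.smul_apply, Finset.sum_apply, smul_eq_mul,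
    Finset.mul_sum]
  exact Finset.sum_congr rfl fun l _ => by ring

theorem Np_hom : Np.IsHomogeneous 3 :=
  adj_hom fun _ => MvPolynomial.IsHomogeneous.sum _ _ _ fun l _ =>
    (MvPolynomial.isHomogeneous_X ℤ l).mul (MvPolynomial.isHomogeneous_C Ix _)

/-- Functions given by polynomials of degree at most three. -/
def adj_Cub (f : (Ix → K) → K) : Prop :=
  ∃ P : MvPolynomial Ix K, P.totalDegree ≤ 3 ∧ ∀ y, MvPolynomial.eval y P = f y

omit [CharZero K] in
theorem adj_Cub.comb {f g : (Ix → K) → K} (hf : adj_Cub f) (hg : adj_Cub g) (a b : K) :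
    adj_Cub fun y => a * f y + b * g y := by
  obtain ⟨P, hP, hf⟩ := hf
  obtain ⟨Q, hQ, hg⟩ := hg
  refine ⟨a • P + b • Q, (MvPolynomial.totalDegree_add _ _).trans (max_le
    ((MvPolynomial.totalDegree_smul_le _ _).trans hP)
    ((MvPolynomial.totalDegree_smul_le _ _).trans hQ)), fun y => ?_⟩
  rw [map_add, MvPolynomial.smul_eval, MvPolynomial.smul_eval, hf, hg]

omit [CharZero K] in
theorem adj_cub_nrm (g : (Ix → K) →ₗ[K] Ix → K) : adj_Cub fun y => nrm (g y) := by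
  refine ⟨nrm fun l => ∑ j, MvPolynomial.X j * MvPolynomial.C (g (Pi.single j 1) l),
    (adj_hom fun _ => MvPolynomial.IsHomogeneous.sum _ _ _ fun j _ =>
      (MvPolynomial.isHomogeneous_X K j).mul (MvPolynomial.isHomogeneous_C Ix _)).totalDegree_le,
    fun y => ?_⟩
  rw [← nrm_map]
  refine congrArg nrm (funext fun l => ?_)
  conv_rhs => rw [← Finset.univ_sum_single y]
  simp only [map_sum, map_mul, MvPolynomial.eval_X, MvPolynomial.eval_C, Finset.sum_apply]
  refine Finset.sum_congr rfl fun j _ => ?_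
  rw [← smul_eq_mul, ← Pi.smul_apply, ← map_smul, ← Pi.single_smul, smul_eq_mul, mul_one]

omit [CharZero K] in
theorem adj_one : nrm (one3 : Ix → K) = 1 := by
  rw [nrm_eq]
  simp [one3, onorm_zero, omul_zero_left, oip_zero_left]

omit [CharZero K] in
theorem adj_pol (x y : Ix → K) : 2 * tr (sharp x) y = nrm (x + y) - nrm (x - y) - 2 * nrm y := by
  rw [sub_eq_add_neg x, nrm_add, nrm_add, tr_neg_right, sharp_neg, nrm_neg]
  ring

/-- The derivative of a similitude relation (`nrm_add`, compare the terms of order one). -/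
theorem sim_der (g : (Ix → K) →ₗ[K] Ix → K) {c : K} (h : ∀ x, nrm (g x) = c * nrm x)
    (x y : Ix → K) : tr (sharp (g x)) (g y) = c * tr (sharp x) y := by
  refine mul_left_cancel₀ (two_ne_zero' K) ?_
  rw [adj_pol, ← map_add, ← map_sub, h, h, h]
  linear_combination (-c) * adj_pol x y

/-- `g'` is the adjoint of `g`. From `sim_der`, `g' (sharp (g x)) = c • sharp x`; every `y` of
non zero norm is a `sharp` (`sharp_sharp`), `nrm_sharp`; remove the condition on the norm along a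
line `y + t • one3`. -/
theorem sim_adj [IsAlgClosed K] (g g' : (Ix → K) →ₗ[K] Ix → K) (hg : Function.Surjective g)
    (ha : ∀ x y, tr (g x) y = tr x (g' y)) {c : K} (hc : c ≠ 0) (h : ∀ x, nrm (g x) = c * nrm x)
    (y : Ix → K) : nrm (g' y) = c * nrm y := by
  have h1 : ∀ x, g' (sharp (g x)) = c • sharp x := fun x => eq_of_tr fun T => by
    rw [tr_comm, ← ha, tr_comm, sim_der g h, tr_smul_left]
  have h2 : ∀ z, nrm z ≠ 0 → nrm (g' z) = c * nrm z := fun z hz => by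
    obtain ⟨s, hs⟩ := IsAlgClosed.exists_pow_nat_eq (nrm z)⁻¹ two_pos
    obtain ⟨x, hx⟩ := hg (s • sharp z)
    have e : sharp (g x) = z := by
      rw [hx, sharp_smul, sharp_sharp, smul_smul, hs, inv_mul_cancel₀ hz, one_smul]
    rw [← e, h1, nrm_smul, nrm_sharp, nrm_sharp, h]
    ring
  obtain ⟨P, -, hP⟩ := (adj_cub_nrm g').comb (adj_cub_nrm LinearMap.id) 1 (-c)
  obtain ⟨Q, -, hQ⟩ := adj_cub_nrm (LinearMap.id : (Ix → K) →ₗ[K] Ix → K)
  simp only [LinearMap.id_apply] at hP hQ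
  have h3 : P * Q = 0 := MvPolynomial.funext fun z => by
    rw [map_mul, hP, hQ, map_zero]
    by_cases hz : nrm z = 0
    · rw [hz, mul_zero]
    · rw [h2 z hz]
      ring
  have h4 : Q ≠ 0 := fun h0 => by
    have := hQ one3
    rw [h0, map_zero, adj_one] at this
    exact zero_ne_one this
  have h5 := hP y
  rw [(mul_eq_zero.1 h3).resolve_right h4, map_zero] at h5
  have _ := hc
  linear_combination -h5

theorem conf_of_dual [IsAlgClosed K] {κ : Matrix Ix Ix K} (hκ : IsUnit κ.det) {c : K} (hc : c ≠ 0)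
    (h : ∀ ξ, nrm (tv (ξ ᵥ* κ)) = c * nrm (tv ξ)) : Conf κ := by
  let tvL : (Ix → K) →ₗ[K] Ix → K :=
    { toFun := tv
      map_add' := fun y y' => by simp only [tv, Pi.add_apply, add_smul, Finset.sum_add_distrib]
      map_smul' := fun a y => by
        simp only [tv, Pi.smul_apply, smul_eq_mul, mul_smul, Finset.smul_sum, RingHom.id_apply] }
  let co : (Ix → K) →ₗ[K] Ix → K :=
    { toFun := fun T i => tr T (toR K (UU i))
      map_add' := fun _ _ => funext fun _ => tr_add_left _ _ _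
      map_smul' := fun _ _ => funext fun _ => tr_smul_left _ _ _ }
  have e1 : ∀ T, tv (co T) = T := sum_TT
  have e2 : ∀ ξ, co (tv ξ) = ξ := fun ξ =>
    LinearMap.congr_fun (mul_eq_one_comm.1 (show tvL * co = 1 from LinearMap.ext e1)) ξ
  have key := sim_adj (tvL ∘ₗ κ.vecMulLinear ∘ₗ co) (latJ_ptL ∘ₗ κ.mulVecLin ∘ₗ latJ_ycL)
    (fun T => ⟨tv (co T ᵥ* κ⁻¹), by
      show tv (co (tv _) ᵥ* κ) = T
      rw [e2, vecMul_vecMul, nonsing_inv_mul _ hκ, vecMul_one, e1]⟩)
    (fun T Y => by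
      show tr (tv (co T ᵥ* κ)) Y = tr T (pt (κ *ᵥ yc Y))
      conv_lhs => rw [← pt_yc Y]
      conv_rhs => rw [← e1 T]
      rw [tr_tv_pt, tr_tv_pt, dotProduct_mulVec]) hc
    (fun T => by
      show nrm (tv (co T ᵥ* κ)) = _
      rw [h, e1])
  refine ⟨c, hc, fun y => ?_⟩
  have e3 : nrm (pt (κ *ᵥ yc (pt y))) = c * nrm (pt y) := key (pt y)
  rwa [yc_pt] at e3

theorem Conf.mul {κ κ' : Matrix Ix Ix K} (h : Conf κ) (h' : Conf κ') : Conf (κ * κ') := by
  obtain ⟨c, hc, h⟩ := h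
  obtain ⟨c', hc', h'⟩ := h'
  exact ⟨c * c', mul_ne_zero hc hc', fun y => by rw [← mulVec_mulVec, h, h', mul_assoc]⟩

theorem Conf.inv {κ : Matrix Ix Ix K} (h : Conf κ) (hκ : IsUnit κ.det) : Conf κ⁻¹ := by
  obtain ⟨c, hc, h⟩ := h
  refine ⟨c⁻¹, inv_ne_zero hc, fun y => ?_⟩
  rw [eq_inv_mul_iff_mul_eq₀ hc, ← h, mulVec_mulVec, mul_nonsing_inv _ hκ, one_mulVec]

theorem Conf.smul {κ : Matrix Ix Ix K} (h : Conf κ) {c : K} (hc : c ≠ 0) : Conf (c • κ) := by
  obtain ⟨d, hd, h⟩ := h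
  exact ⟨c ^ 3 * d, mul_ne_zero (pow_ne_zero 3 hc) hd, fun y => by
    rw [smul_mulVec, pt_smul, nrm_smul, h, mul_assoc]⟩

theorem Conf.cub {g β : Matrix Ix Ix K} (h : Conf g) (e : g * β = β * g) : ∃ c, c ≠ 0 ∧
    (∀ y, nrm (pt (g *ᵥ y)) = c * nrm (pt y)) ∧ ∀ y, cub β (g *ᵥ y) = c * cub β y := by
  obtain ⟨c, hc, h⟩ := h
  refine ⟨c, hc, h, fun y => ?_⟩
  have h1 : tr (sharp (pt (g *ᵥ yc (pt y)))) (pt (g *ᵥ yc (pt (β *ᵥ y)))) =
      c * tr (sharp (pt y)) (pt (β *ᵥ y)) :=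
    sim_der (latJ_ptL ∘ₗ g.mulVecLin ∘ₗ latJ_ycL) (fun x => by
      show nrm (pt (g *ᵥ yc x)) = _
      rw [h, pt_yc]) (pt y) (pt (β *ᵥ y))
  rw [yc_pt, yc_pt, mulVec_mulVec, e, ← mulVec_mulVec] at h1
  exact h1

/-- A cubic polynomial that kills the orbit of `L` under the similitudes commuting with `β`. -/
theorem exists_cubic {β : Matrix Ix Ix K} (hβ : ¬ ∃ t, ∀ y, cub β y = t * nrm (pt y))
    (L : Ix → K) : ∃ P : MvPolynomial Ix K, P.totalDegree ≤ 3 ∧
      (∃ y, MvPolynomial.eval y P ≠ 0) ∧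
      ∀ g, Conf g → g * β = β * g → MvPolynomial.eval (g *ᵥ L) P = 0 := by
  have hn : adj_Cub fun y : Ix → K => nrm (pt y) := adj_cub_nrm latJ_ptL
  by_cases ha : nrm (pt L) = 0
  · obtain ⟨P, h1, h2⟩ := hn
    beta_reduce at h2
    refine ⟨P, h1, ⟨yc one3, by rw [h2, pt_yc, adj_one]; exact one_ne_zero⟩, fun g hg e => ?_⟩
    obtain ⟨c, -, h3, -⟩ := hg.cub e
    rw [h2, h3, ha, mul_zero]
  · have hc : adj_Cub (cub β) := by
      obtain ⟨P, h1, h2⟩ := ((adj_cub_nrm (latJ_ptL + latJ_ptL ∘ₗ β.mulVecLin)).comb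
        (adj_cub_nrm (latJ_ptL - latJ_ptL ∘ₗ β.mulVecLin)) 2⁻¹ (-2⁻¹)).comb
        (adj_cub_nrm (latJ_ptL ∘ₗ β.mulVecLin)) 1 (-1)
      refine ⟨P, h1, fun y => (h2 y).trans ?_⟩
      have h3 := adj_pol (pt y) (pt (β *ᵥ y))
      show 1 * (2⁻¹ * nrm (pt y + pt (β *ᵥ y)) + -2⁻¹ * nrm (pt y - pt (β *ᵥ y))) +
        -1 * nrm (pt (β *ᵥ y)) = tr (sharp (pt y)) (pt (β *ᵥ y))
      linear_combination (-2⁻¹ : K) * h3
    obtain ⟨P, h1, h2⟩ := hc.comb hn (nrm (pt L)) (-cub β L)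
    beta_reduce at h2
    refine ⟨P, h1, ?_, fun g hg e => ?_⟩
    · by_contra h0
      push Not at h0
      refine hβ ⟨cub β L / nrm (pt L), fun y => ?_⟩
      have h3 := h0 y
      rw [h2] at h3
      field_simp
      linear_combination h3
    · obtain ⟨c, -, h3, h4⟩ := hg.cub e
      rw [h2, h3, h4]
      ring

omit [CharZero K] in
theorem adj2_deg {ι : Type} {P : MvPolynomial ι K} {d : ℕ} (hd : P.totalDegree ≤ d)
    {f : ι → MvPolynomial ι K} (hf : ∀ i, (f i).totalDegree ≤ 1) :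
    (MvPolynomial.aeval f P).totalDegree ≤ d := by
  rw [MvPolynomial.aeval_def, MvPolynomial.eval₂_eq]
  refine MvPolynomial.totalDegree_finsetSum_le fun s hs => ?_
  refine (MvPolynomial.totalDegree_mul _ _).trans ?_
  rw [MvPolynomial.algebraMap_eq, MvPolynomial.totalDegree_C, zero_add]
  refine (MvPolynomial.totalDegree_finsetProd _ _).trans
    (le_trans ?_ ((MvPolynomial.le_totalDegree hs).trans hd))
  exact Finset.sum_le_sum fun i _ => (MvPolynomial.totalDegree_pow _ _).trans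
    (mul_le_of_le_one_right (Nat.zero_le _) (hf i))

theorem adj2_ext {ι : Type} {f g : MvPolynomial ι K} (h : ∀ lam : ι → ℤ,
    MvPolynomial.eval (fun i => (lam i : K)) f = MvPolynomial.eval (fun i => (lam i : K)) g) :
    f = g := by
  refine MvPolynomial.funext_set (fun _ => Set.range (Int.cast : ℤ → K))
    (fun _ => Set.infinite_range_of_injective Int.cast_injective) fun x hx => ?_
  choose lam hl using fun i => hx i (Set.mem_univ i)
  rw [← funext hl]
  exact h lam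

/-- An invertible affine substitution. -/
theorem exists_subst {ι : Type} [Fintype ι] [DecidableEq ι] {P : MvPolynomial ι K} {d : ℕ}
    (hd : P.totalDegree ≤ d) (h0 : ∃ y, MvPolynomial.eval y P ≠ 0) {g : Matrix ι ι K}
    (hg : IsUnit g.det) (b : ι → K) : ∃ P' : MvPolynomial ι K, P'.totalDegree ≤ d ∧
      (∃ y, MvPolynomial.eval y P' ≠ 0) ∧ ∀ (B : Type) [CommRing B] [Algebra K B] (y : ι → B),
        MvPolynomial.aeval y P' = MvPolynomial.aeval
          ((fun i => algebraMap K B (b i)) + g.map (algebraMap K B) *ᵥ y) P := by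
  have key : ∀ (B : Type) [CommRing B] [Algebra K B] (y : ι → B), MvPolynomial.aeval y
      (MvPolynomial.aeval (fun i => MvPolynomial.C (b i) +
        ∑ j, MvPolynomial.C (g i j) * MvPolynomial.X j) P) = MvPolynomial.aeval
          ((fun i => algebraMap K B (b i)) + g.map (algebraMap K B) *ᵥ y) P := fun B _ _ y => by
    rw [← AlgHom.comp_apply, MvPolynomial.comp_aeval]
    refine congrArg (fun z => MvPolynomial.aeval z P) (funext fun i => ?_)
    simp [mulVec, dotProduct]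
  refine ⟨_, adj2_deg hd fun i => ?_, ?_, key⟩
  · refine (MvPolynomial.totalDegree_add _ _).trans (max_le (by simp) ?_)
    refine MvPolynomial.totalDegree_finsetSum_le fun j _ => ?_
    refine (MvPolynomial.totalDegree_mul _ _).trans ?_
    simp
  · obtain ⟨y, hy⟩ := h0
    refine ⟨g⁻¹ *ᵥ (y - b), ?_⟩
    have h1 := key K (g⁻¹ *ᵥ (y - b))
    simp only [MvPolynomial.aeval_eq_eval, Algebra.algebraMap_self, RingHom.id_apply,
      RingHom.coe_id, mulVec_mulVec, Matrix.map_id, mul_nonsing_inv g hg, one_mulVec,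
      add_sub_cancel] at h1
    exact h1 ▸ hy

/-- Two polynomial functions `f`, `g` with `∏ f (lam r) = c * ∏ g (lam r)` on integral points. -/
theorem prop_of_prod {ι : Type} [Fintype ι] {f g : MvPolynomial ι K} {h : ℕ} (hh : 0 < h) {c : K}
    (hc : c ≠ 0) (hg : g ≠ 0) (e : ∀ lam : Fin h → ι → ℤ,
      ∏ r, MvPolynomial.eval (fun i => (lam r i : K)) f =
        c * ∏ r, MvPolynomial.eval (fun i => (lam r i : K)) g) :
    ∃ c' : K, c' ≠ 0 ∧ f = MvPolynomial.C c' * g := by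
  obtain ⟨l, hl⟩ : ∃ lam : ι → ℤ, MvPolynomial.eval (fun i => (lam i : K)) g ≠ 0 := by
    by_contra h1
    push Not at h1
    exact hg (adj2_ext fun lam => (h1 lam).trans (map_zero _).symm)
  obtain ⟨k, rfl⟩ := Nat.exists_eq_succ_of_ne_zero hh.ne'
  have h1 := e fun _ => l
  rw [Fin.prod_const, Fin.prod_const] at h1
  have h2 : MvPolynomial.eval (fun i => (l i : K)) f ≠ 0 := fun h2 => by
    rw [h2, zero_pow hh.ne'] at h1
    exact mul_ne_zero hc (pow_ne_zero _ hl) h1.symm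
  refine ⟨c * MvPolynomial.eval (fun i => (l i : K)) g ^ k /
    MvPolynomial.eval (fun i => (l i : K)) f ^ k,
    div_ne_zero (mul_ne_zero hc (pow_ne_zero _ hl)) (pow_ne_zero _ h2), adj2_ext fun lam => ?_⟩
  have h3 := e (Fin.cons lam fun _ => l)
  simp only [Fin.prod_univ_succ, Fin.cons_zero, Fin.cons_succ, Fin.prod_const] at h3
  rw [map_mul, MvPolynomial.eval_C, div_mul_eq_mul_div, eq_div_iff (pow_ne_zero _ h2), h3]
  ring

theorem exists_int_ne {ι : Type} [Fintype ι] {g : MvPolynomial ι K} (hg : g ≠ 0) :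
    ∃ lam : ι → ℤ, MvPolynomial.eval (fun i => (lam i : K)) g ≠ 0 := by
  by_contra h1
  push Not at h1
  exact hg (adj2_ext fun lam => (h1 lam).trans (map_zero _).symm)

/-- Choose `N` such that the centraliser of `α ^ N` has the largest dimension. -/
theorem exists_cent {ι : Type} [Fintype ι] [DecidableEq ι] (α : Matrix ι ι K) : ∃ N : ℕ, 0 < N ∧
    ∀ r : ℕ, 0 < r → ∀ g, g * α ^ (N * r) = α ^ (N * r) * g → g * α ^ N = α ^ N * g := by
  obtain ⟨_, ⟨N, hN, rfl⟩, h⟩ := wellFounded_gt.has_min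
    ((fun N => (Subalgebra.centralizer K {α ^ N}).toSubmodule) '' {N | 0 < N}) ⟨_, 1, one_pos, rfl⟩
  refine ⟨N, hN, fun r hr g hg => ?_⟩
  have h1 : (Subalgebra.centralizer K {α ^ N}).toSubmodule ≤
      (Subalgebra.centralizer K {α ^ (N * r)}).toSubmodule := fun z hz => by
    rw [Subalgebra.mem_toSubmodule, Subalgebra.mem_centralizer_iff] at hz ⊢
    rintro _ rfl
    rw [pow_mul]
    exact (Commute.pow_left (hz _ rfl) r).eq
  have h2 := (h1.lt_or_eq.resolve_left (h _ ⟨N * r, Nat.mul_pos hN hr, rfl⟩)).ge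
    (x := g) (by
      rw [Subalgebra.mem_toSubmodule, Subalgebra.mem_centralizer_iff]
      rintro _ rfl
      exact hg.symm)
  rw [Subalgebra.mem_toSubmodule, Subalgebra.mem_centralizer_iff] at h2
  exact (h2 _ rfl).symm

end Pool.Agent.E7
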