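import Pool.Agent.Lib.MP_7e5527_ag.EO.TR2
import Pool.Agent.Lib.MP_7e5527_ag.EO.Adj

/-! The matrix of the transition is a similitude of the norm. -/

open Filter Topology Polynomial Matrix

noncomputable section

namespace Pool.Agent.E7

variable {p : ℕ} [Fact p.Prime] {R : Type} [CommRing R] {S : TW p cone R} {M : Cl S} {E : Fr S}

theorem tr3_hom {B : Type} [CommRing B] (c : B) (x : Ix → B) :
    MvPolynomial.aeval (fun i => x i * c) Np = MvPolynomial.aeval x Np * c ^ 3 := by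
  rw [MvPolynomial.aeval_def, MvPolynomial.aeval_def, MvPolynomial.eval₂_eq',
    MvPolynomial.eval₂_eq', Finset.sum_mul]
  refine Finset.sum_congr rfl fun s hs => ?_
  have h1 : ∑ i, s i = 3 := by
    have h2 := Np_hom (MvPolynomial.mem_support_iff.1 hs)
    rw [Finsupp.weight_apply, Finsupp.sum_fintype _ _ (by simp)] at h2
    simpa using h2
  simp only [mul_pow, Finset.prod_mul_distrib, Finset.prod_pow_eq_pow_sum, h1, mul_assoc]

theorem tr3_one {K : Type} [Field K] : nrm (one3 : Ix → K) = 1 := by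
  rw [nrm_eq]
  simp [one3, onorm_zero, omul_zero_left, oip_zero_left]

/-- The norm of `ξ ᵥ* J` as a polynomial in `ξ`. -/
theorem tr3_poly {K : Type} [Field K] [CharZero K] (J : Matrix Ix Ix K) :
    ∃ P : MvPolynomial Ix K, (∀ ξ, MvPolynomial.eval ξ P = 8 * nrm (tv (ξ ᵥ* J))) ∧
      (IsUnit J.det → P ≠ 0) := by
  have key : ∀ ξ, MvPolynomial.eval ξ (MvPolynomial.aeval
      (fun l => ∑ i, MvPolynomial.X i * MvPolynomial.C (J i l)) Np) =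
        8 * nrm (tv (ξ ᵥ* J)) := fun ξ => by
    rw [← aeval_Np, MvPolynomial.map_aeval, MvPolynomial.aeval_def,
      MvPolynomial.coe_eval₂Hom, RingHom.ext_int (RingHom.comp _ _) (algebraMap ℤ K)]
    refine congrArg (fun z => MvPolynomial.eval₂ (algebraMap ℤ K) z Np) (funext fun l => ?_)
    simp [vecMul, dotProduct]
  refine ⟨_, key, fun hJ h0 => ?_⟩
  obtain ⟨ξ, hξ⟩ := tv_surj (one3 : Ix → K)
  have h1 := key (ξ ᵥ* J⁻¹)
  rw [h0, map_zero, vecMul_vecMul, nonsing_inv_mul J hJ, vecMul_one, hξ, tr3_one] at h1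
  norm_num at h1

theorem Fr.dq_sum (E : Fr S) (l : Ix) (lam : Ix → ℤ) :
    E.dq l (∑ i, (lam i : R) * E.e i) = ∑ i, (lam i : R) * E.dq l (E.e i) := by
  have h1 : S.del l (∑ i, (lam i : R) * E.e i) = ∑ i, (lam i : R) * S.del l (E.e i) := by
    rw [← TW.dD_apply, map_sum]
    refine Finset.sum_congr rfl fun i _ => ?_
    rw [← zsmul_eq_mul, map_zsmul, zsmul_eq_mul, TW.dD_apply]
  simp only [Fr.dq, h1, Finset.mul_sum, Finset.sum_mul, ← Finset.sum_sub_distrib]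
  exact Finset.sum_congr rfl fun i _ => by ring

theorem Fr.nz_NB {K : Type} [Field K] [CharZero K] {ψ : R →+* K} (h : ψ E.e0 ≠ 0) (lam : Ix → ℤ) :
    E.nz ψ 6 (E.NB lam) = 8 * nrm (tv ((fun i => (lam i : K)) ᵥ* E.Jm ψ)) := by
  have h1 : (fun i => (lam i : K)) ᵥ* E.Jm ψ = fun l =>
      ψ (E.dq l (∑ i, (lam i : R) * E.e i)) * Ring.inverse (ψ E.e0) ^ 2 := by
    funext l
    simp only [Fr.dq_sum, vecMul, dotProduct, Fr.Jm, of_apply, Fr.nz, map_sum, map_mul, map_intCast,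
      Finset.sum_mul, mul_assoc]
  rw [← aeval_Np, h1, tr3_hom, ← pow_mul, Fr.nz, Fr.NB, MvPolynomial.map_aeval,
    MvPolynomial.aeval_def, MvPolynomial.coe_eval₂Hom,
    RingHom.ext_int (RingHom.comp _ _) (algebraMap ℤ K)]

theorem Fr.exists_NB {K : Type} [Field K] [CharZero K] {ψ : R →+* K} (h : ψ E.e0 ≠ 0)
    (hJ : IsUnit (E.Jm ψ).det) : ∃ lam, ψ (E.NB lam) ≠ 0 := by
  obtain ⟨P, h1, h2⟩ := tr3_poly (E.Jm ψ)
  obtain ⟨lam, h3⟩ := exists_int_ne (h2 hJ)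
  refine ⟨lam, fun h4 => h3 ?_⟩
  rw [h1, ← E.nz_NB h, Fr.nz, h4, zero_mul]

/-- `Ad3.nb`, `nz_NB`, `prop_of_prod`, `Jm_kap`, `conf_of_dual`. -/
theorem Ad3.conf (h : Ad3 M E) {ψ1 ψ2 : R →+* ℂ_[p]} (h1 : E.Gp ψ1) (h2 : E.Gp ψ2)
    (hs : M.Sim ψ1 ψ2) : Conf (E.kap ψ1 ψ2) := by
  obtain ⟨n, hn, hM⟩ := h.nb
  obtain ⟨P1, e1, -⟩ := tr3_poly (E.Jm ψ1)
  obtain ⟨P2, e2, n2⟩ := tr3_poly (E.Jm ψ2)
  have u1 := h1.unit.ne_zero
  have u2 := h2.unit.ne_zero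
  have hJ := h2.Jm_det.isUnit
  obtain ⟨c, hc, e⟩ := prop_of_prod (f := P1) hn (c := ψ1 E.e0 / ψ2 E.e0) (div_ne_zero u1 u2)
    (n2 hJ) fun lam => by
      have h3 := hs.nz h.e0 h2.unit (hM lam)
      simp only [e1, e2, ← E.nz_NB u1, ← E.nz_NB u2]
      simp only [Fr.nz, map_prod, Finset.prod_mul_distrib, Fin.prod_const, Ring.inverse_eq_inv',
        ← pow_mul, pow_succ] at h3 ⊢
      field_simp at h3 ⊢
      linear_combination h3
  refine conf_of_dual (Fr.kap_unit h1 h2) hc fun ξ => ?_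
  have h3 := e1 (ξ ᵥ* (E.Jm ψ2)⁻¹)
  rw [e, map_mul, MvPolynomial.eval_C, e2, vecMul_vecMul, vecMul_vecMul, nonsing_inv_mul _ hJ,
    vecMul_one] at h3
  rw [Fr.kap]
  linear_combination (-1 / 8 : ℂ_[p]) * h3

theorem Ad3.tr (h : Ad3 M E) {ψ1 ψ2 : R →+* ℂ_[p]} (h1 : E.Gp ψ1) (h2 : E.Gp ψ2)
    (hs : M.Sim ψ1 ψ2) : ∃ κ, M.Trn ψ1 ψ2 κ ∧ ZpM κ ∧ M.Tor ψ1 ψ2 κ ∧ Conf κ ∧ IsUnit κ.det :=
  ⟨_, h.toAd.trn h1 h2 hs, h.toAd.zpm h1 h2 hs, h.toAd.tor h1 h2 hs, h.conf h1 h2 hs,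
    Fr.kap_unit h1 h2⟩

end Pool.Agent.E7
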