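import Pool.Agent.Lib.MP_7e5527_ag.EO.G1
import Pool.Agent.Lib.MP_7e5527_ag.EO.TR3

/-! Galois cocycles of the points. -/

open Filter Topology Polynomial Matrix

noncomputable section

namespace Pool.Agent.E7

variable {p : ℕ} [Fact p.Prime] {R : Type} [CommRing R] {S : TW p cone R}

/-- A subsequence. -/
def ODat.comp (D : ODat S) (f : ℕ → ℕ) (hf : Tendsto f cofinite cofinite) : ODat S :=
  { D with
    ψ := fun n => D.ψ (f n)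
    gp := fun _ => D.gp _
    lin := fun _ => D.lin _
    alg := fun _ => D.alg _
    ψ' := fun n => D.ψ' (f n)
    E' := fun n => D.E' (f n)
    M' := fun n => D.M' (f n)
    gp' := fun _ => D.gp' _
    lin' := fun _ => D.lin' _
    a' := fun _ => D.a' _
    b' := fun _ => D.b' _
    w' := fun _ => D.w' _
    alg' := fun _ => D.alg' _
    N := fun n => D.N (f n)
    hN := fun _ => D.hN _
    g0 := fun n => D.g0 (f n)
    isg0 := fun _ => D.isg0 _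
    eq0 := fun _ => D.eq0 _
    g := fun n => D.g (f n)
    Cm := fun n => D.Cm (f n)
    isg := fun _ => D.isg _
    t := fun n => D.t (f n)
    ζ := fun n => D.ζ (f n)
    Mo := fun n => D.Mo (f n)
    trl := fun _ => D.trl _
    eq1 := fun _ => D.eq1 _
    w0 := fun _ => D.w0 _
    w1 := fun _ => D.w1 _
    m0 := fun _ => D.m0 _
    m1 := fun _ => D.m1 _
    conf := fun _ => D.conf _
    fib := fun c => by
      have := hf (D.fib c).compl_mem_cofinite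
      rw [mem_map, Set.preimage_compl, mem_cofinite, compl_compl] at this
      exact this
    rel := fun j => (D.rel j).imp fun _ h => ⟨h.1, fun _ => h.2 _⟩
    pk :=
      { D.pk with
        van := fun _ => D.pk.van _
        dep := fun d => by
          obtain ⟨Q0, h0, B, h⟩ := D.pk.dep d
          exact ⟨Q0, h0, B, fun _ => h _⟩ } }

/-- The ring as a subring of itself. -/
def SubR.top (S : TW p cone R) : SubR S R where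
  val := RingHom.id R
  inj := Function.injective_id
  cst := S.cst
  val_cst _ := rfl
  del := S.del
  val_del _ _ := rfl

theorem ODat.norm_x (D : ODat S) (n : ℕ) (i : Ix) : ‖D.x n i‖ = 1 :=
  (isU_iff ((D.gp n).xc_le i)).1 ((D.gp n).xc_isU i)

theorem ODat.ne_ev (D : ODat S) {U : Ultrafilter ℕ} (hU : (U : Filter ℕ) ≤ cofinite) (c : ℂ_[p]) :
    ∀ᶠ n in (U : Filter ℕ), D.x n D.i1 ≠ c :=
  hU (D.fib c).compl_mem_cofinite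

theorem ODat.absurd (D : ODat S) {U : Ultrafilter ℕ} (hU : (U : Filter ℕ) ≤ cofinite) (d : ℕ)
    (h : ∀ᶠ n in (U : Filter ℕ), D.ψ n (D.pk.Ψ d) = 0) : False := by
  classical
  obtain ⟨Q0, h0, B, hB⟩ := D.pk.dep d
  have h1 : ∀ᶠ n in (U : Filter ℕ), ∀ c ∈ Q0.roots.toFinset, D.x n D.i1 ≠ c :=
    (eventually_all_finset _).2 fun c _ => D.ne_ev hU c
  obtain ⟨n, h2, h3⟩ := (h.and h1).exists
  have h4 := hB n
  rw [h2, norm_zero, mul_zero, norm_le_zero_iff] at h4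
  exact h3 _ (Multiset.mem_toFinset.2 ((mem_roots h0).2 h4)) rfl

theorem ODat.conv (D : ODat S) (U : Ultrafilter ℕ) (d : ℕ)
    (h : Tendsto (fun n => D.ψ n (D.pk.Ψ d)) U (𝓝 0)) :
    ∃ c, Tendsto (fun n => D.x n D.i1) U (𝓝 c) := by
  obtain ⟨Q0, h0, B, hB⟩ := D.pk.dep d
  refine tendsto_root h0 U (squeeze_zero_norm hB ?_)
  simpa using h.norm.const_mul B

/-- `ev_hom`. -/
theorem ODat.Φ_eq (D : ODat S) {B : Type} [CommRing B] [Algebra ℂ_[p] B] {θ : R →+* B}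
    (hθ : ∀ c, θ (S.cst c) = algebraMap ℂ_[p] B c) (h0 : IsUnit (θ D.E.e0)) (j : Ix) :
    θ (D.Φ j) = θ D.E.e0 ^ D.pk.m j *
      MvPolynomial.aeval ![1, D.E.xc θ D.i1, D.E.xc θ j] (D.pk.Ph j) := by
  have h1 := Fr.ev_hom (E := D.E) h0 S.cst ![D.E.e0, D.E.e D.i1, D.E.e j] (D.pk.hom j)
  have h2 : (fun r => D.E.nz θ 1 (![D.E.e0, D.E.e D.i1, D.E.e j] r)) =
      ![1, D.E.xc θ D.i1, D.E.xc θ j] := by
    funext r
    fin_cases r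
    · change θ D.E.e0 * Ring.inverse (θ D.E.e0) ^ 1 = 1
      rw [pow_one, Ring.mul_inverse_cancel _ h0]
    · rfl
    · rfl
  rw [h2, RingHom.ext (g := algebraMap ℂ_[p] B) (f := θ.comp S.cst) hθ] at h1
  rw [MvPolynomial.aeval_def, ← h1, Fr.nz, mul_left_comm, ← mul_pow,
    Ring.mul_inverse_cancel _ h0, one_pow, mul_one]

theorem ODat.orc (D : ODat S) (L : Type) [CommRing L] [IsDomain L] [Algebra ℂ_[p] L]
    (δ : Derivation ℂ_[p] L L) (ε : R →+* L) (z : Ix → L)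
    (hc : ∀ c, ε (S.cst c) = algebraMap ℂ_[p] L c)
    (hch : ∀ F, δ (ε F) = ∑ i, ε (S.del i F) * δ (z i)) (hΦ : ∀ j, ε (D.Φ j) = 0)
    (hz : ∃ i, δ (z i) ≠ 0) (d : ℕ) (P : MvPolynomial Ix L) (h0 : P ≠ 0) (hd : P.totalDegree ≤ d)
    (hP : ∀ m, δ (P.coeff m) = 0) (he : MvPolynomial.eval z P = 0) : ε (D.pk.Ψ d) = 0 := by
  obtain ⟨Ψ', h1, h2⟩ := D.pk.orc R (SubR.top S) D.Φ ⟨D.E.e0, rfl⟩ fun _ => rfl
  rw [← h1 d]
  exact h2 L δ ε z hc hch hΦ hz d P h0 hd hP he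

variable {σ : ℂ_[p] →+* ℂ_[p]} {f : ℕ}

theorem g2_sup_cs {N N' : ℕ} (hN : 0 < N') {c : Ix → ℤ} (c' : Ix → ℤ) {F : R} (h : S.Sup N c F) :
    S.Sup N c (S.cs N' c' F) := fun T hT => h T fun e => hT (by
  rw [S.co_cs _ _ _ _ hN, e, ite_self])

theorem g2_sup_isg {g : R →+* R} {M : Matrix Ix Ix ℤ} (hg : S.Isg g M) {N : ℕ} {c : Ix → ℤ} {F : R}
    (h : S.Sup N c F) : S.Sup N (c ᵥ* M) (g F) := fun T hT => by
  obtain ⟨T', rfl⟩ := hg.co_zero F T hT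
  rw [hg.co_eq] at hT
  exact (h T' hT).vecMul M

theorem g2_isg {W : Cl S} {ψ : R →+* ℂ_[p]} (hψ : S.Ch ψ) {w : Ix → ℂ_[p]ˣ} (hw : Nr w)
    (hs : W.Sim (σ.comp ψ) (S.twc (ψ.comp (S.fr ^ f)) w)) {g : R →+* R} {M : Matrix Ix Ix ℤ}
    (hg : S.Isg g M) (hW : ∀ a, ∀ F ∈ W.M a, g F ∈ W.M a) :
    W.Sim (σ.comp (ψ.comp g)) (S.twc ((ψ.comp g).comp (S.fr ^ f)) (upow w M)) := by
  have h1 := hs.comp g hW
  have h2 : (ψ.comp (S.fr ^ f)).comp g = (ψ.comp g).comp (S.fr ^ f) :=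
    RingHom.ext fun F => (congrArg ψ (hg.comm f F)).symm
  rwa [TW.twc_isg (hψ.isg (TW.isg_fr_pow f)) hw hg, h2] at h1

theorem g2_eta (hσ : Frob σ f) {ζ : Ix → ℂ_[p]ˣ} {M : ℕ} (hM : 0 < M) (h : ∀ i, ζ i ^ M = 1) :
    Nr (umap σ ζ * (ζ ^ p ^ f)⁻¹) ∧ ∀ i, (umap σ ζ * (ζ ^ p ^ f)⁻¹) i ^ M = 1 := by
  refine ⟨fun i => ?_, fun i => ?_⟩
  · have h1 : ‖(ζ i : ℂ_[p])‖ = 1 := by
      have := congrArg (fun z : ℂ_[p]ˣ => ‖(z : ℂ_[p])‖) (h i)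
      simp only [Units.val_pow_eq_pow_val, norm_pow, Units.val_one, norm_one] at this
      exact (pow_eq_one_iff_of_nonneg (norm_nonneg _) hM.ne').1 this
    have h2 := hσ.res _ h1.le
    have h3 : (((umap σ ζ * (ζ ^ p ^ f)⁻¹) i : ℂ_[p]ˣ) : ℂ_[p]) - 1 =
        (σ (ζ i) - (ζ i : ℂ_[p]) ^ p ^ f) * ((ζ i : ℂ_[p]) ^ p ^ f)⁻¹ := by
      rw [sub_mul, mul_inv_cancel₀ (pow_ne_zero _ (ζ i).ne_zero)]
      simp [umap]
    rwa [h3, norm_mul, norm_inv, norm_pow, h1, one_pow, inv_one, mul_one]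
  · rw [Pi.mul_apply, Pi.inv_apply, Pi.pow_apply, mul_pow, inv_pow, ← pow_mul, pow_mul', h i,
      one_pow, inv_one, mul_one, umap, ← map_pow, h i, map_one]

theorem g2_trl {W : Cl S} (hW : W.Tow) (hσ : Frob σ f) {φ : R →+* ℂ_[p]} (hφ : S.Ch φ)
    (hl : ∀ c, φ (S.cst c) = c) {v : Ix → ℂ_[p]ˣ} (hv : Nr v)
    (hs : W.Sim (σ.comp φ) (S.twc (φ.comp (S.fr ^ f)) v)) {t : R →+* R} {ζ : Ix → ℂ_[p]ˣ} {M : ℕ}
    (ht : S.Trl t ζ M) : W.Sim (σ.comp (φ.comp t))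
      (S.twc ((φ.comp t).comp (S.fr ^ f)) (umap σ ζ * (ζ ^ p ^ f)⁻¹ * v)) := by
  obtain ⟨hη, hη'⟩ := g2_eta hσ ht.pos ht.ord
  obtain ⟨j, hj, hη''⟩ := root_ppow hη ht.pos hη'
  obtain ⟨c, hc⟩ := hs
  have h1 := hφ.isg (TW.isg_fr_pow f)
  have h2 := (hφ.trl ht).isg (TW.isg_fr_pow f)
  refine ⟨c, fun a F hF => ?_⟩
  rw [← TW.twc_twc h2 hv hη, ← TW.cs_sum (S := S) ht.pos F, map_sum, map_sum, Finset.mul_sum]
  refine Finset.sum_congr rfl fun d _ => ?_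
  have h3 := TW.Sup.cs (S := S) ht.pos (rp d) F
  have h4 := hc a _ (hW.cs M (rp d) a ht.pos F hF)
  have h5 : S.twc ((φ.comp t).comp (S.fr ^ f)) v (S.cs M (rp d) F) =
      umon (ζ ^ p ^ f) (rp d) * S.twc (φ.comp (S.fr ^ f)) v (S.cs M (rp d) F) := by
    rw [TW.twc_apply h2 hv, TW.twc_apply h1 hv]
    refine TW.tw_prop h2 h1 (UC.umon hv) _ _ fun k e => ?_
    have h6 := ht.sup (g2_sup_isg (TW.isg_fr_pow f)
      (g2_sup_cs (pow_pos (Fact.out : p.Prime).pos k) e h3))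
    rw [RingHom.comp_apply, RingHom.comp_apply, h6, map_mul, hl, ← umon_upow, upow_scalar]
    rfl
  rw [TW.twc_sup (h2.twc hv) hη hj hη'' h3, h5, ← mul_assoc (umon _ _), ← umon_mul',
    inv_mul_cancel_right, umon_umap, mul_left_comm, ← h4, RingHom.comp_apply, RingHom.comp_apply,
    ht.sup h3, map_mul, hl, map_mul]
  rfl

/-- Let `w'` be the cocycle of `ψ' n` (`Ad.frob`). Then `w0 = w' ^ N n` (`eq0`, `Sim.comp`,
`twc_isg`, `Isg.comm`, `twc_inj`). With `η i = σ (ζ i) / ζ i ^ p ^ f`, a root of unity of `p`-power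
order (`root_ppow`), one has `w = η * upow w' (Cm n)`: expand with `Trl.eq_sum`, `cs_sum`,
`Trl.sup`, `twc_sup`, `twc_twc`. -/
theorem ODat.coc0 (D : ODat S) (hσ : Frob σ f) (n : ℕ) : ∃ w' η : Ix → ℂ_[p]ˣ, Nr w' ∧ Nr η ∧
    (∀ i, η i ^ D.Mo n = 1) ∧
    D.W.Sim (σ.comp D.χ) (S.twc (D.χ.comp (S.fr ^ f)) (w' ^ D.N n)) ∧
    D.W.Sim (σ.comp (D.ψ n)) (S.twc ((D.ψ n).comp (S.fr ^ f)) (η * upow w' (D.Cm n))) := by
  obtain ⟨w', hw, hs⟩ := (D.w' n).frob (D.gp' n) hσ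
  have hc := (D.gp' n).ch
  obtain ⟨hη, hη'⟩ := g2_eta hσ (D.trl n).pos (D.trl n).ord
  refine ⟨w', _, hw, hη, hη', ?_, ?_⟩
  · rw [D.eq0 n, ← upow_scalar]
    exact g2_isg hc hw hs (D.isg0 n) (D.w0 n)
  · rw [D.eq1 n]
    exact g2_trl D.tow hσ (hc.isg (D.isg n))
      (fun c => by rw [RingHom.comp_apply, (D.isg n).cst]; exact D.lin' n c) (hw.upow _)
      (g2_isg hc hw hs (D.isg n) (D.w1 n)) (D.trl n)

/-- `twc_inj`; for the second part `root_ppow` and `j < p ^ j ≤ N * Mo`. -/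
theorem ODat.coc (D : ODat S) (hσ : Frob σ f) (n : ℕ) {w0 w : Ix → ℂ_[p]ˣ} (h0 : Nr w0) (h1 : Nr w)
    (s0 : D.W.Sim (σ.comp D.χ) (S.twc (D.χ.comp (S.fr ^ f)) w0))
    (s1 : D.W.Sim (σ.comp (D.ψ n)) (S.twc ((D.ψ n).comp (S.fr ^ f)) w)) :
    (D.N n : ℂ_[p]) • lgv p w = mc p (D.Cm n) *ᵥ lgv p w0 ∧
      (w0 = 1 → w ^ p ^ (D.N n * D.Mo n) = 1) := by
  obtain ⟨w', η, hw, hη, hη', t0, t1⟩ := D.coc0 hσ n
  have e0 : w0 = w' ^ D.N n := D.wc.twc_inj (D.gc.fr f) h0 (hw.pow _) (s0.symm.trans t0)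
  have e1 : w = η * upow w' (D.Cm n) :=
    D.wE.twc_inj ((D.gp n).fr f) h1 (hη.mul (hw.upow _)) (s1.symm.trans t1)
  refine ⟨?_, fun h => ?_⟩
  · rw [e0, e1, lgv_mul hη (hw.upow _), lgv_root hη (D.trl n).pos hη', zero_add, lgv_upow hw,
      lgv_pow hw, mulVec_smul]
    rfl
  · have h2 : ∀ l, w' l ^ D.N n = 1 := fun l => congrFun (e0.symm.trans h) l
    have hpos := Nat.mul_pos (D.hN n) (D.trl n).pos
    obtain ⟨j, hj, h3⟩ := root_ppow h1 hpos fun i => by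
      have h4 : upow w' (D.Cm n) i ^ D.N n = 1 := by
        rw [upow, ← Finset.prod_pow]
        refine Finset.prod_eq_one fun l _ => ?_
        rw [← zpow_natCast, ← _root_.zpow_mul, mul_comm, _root_.zpow_mul, zpow_natCast, h2,
          _root_.one_zpow]
      rw [e1, Pi.mul_apply, mul_pow, pow_mul', hη', one_pow, pow_mul, h4, one_pow, one_mul]
    obtain ⟨k, hk⟩ := pow_dvd_pow p
      ((Nat.lt_pow_self (Fact.out : p.Prime).one_lt).le.trans (Nat.le_of_dvd hpos hj))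
    funext i
    rw [Pi.pow_apply, hk, pow_mul, h3, one_pow, Pi.one_apply]

/-- An inertia cocycle of the point `n`. -/
structure ODat.Inr (D : ODat S) (E1 : IntermediateField ℚ_[p] ℂ_[p]) (n : ℕ)
    (τ : ℂ_[p] →+* ℂ_[p]) (c : Ix → ℂ_[p]ˣ) : Prop where
  frob : Frob τ 0
  fix : ∀ a ∈ E1, τ a = a
  nr : Nr c
  sim : D.W.Sim (τ.comp (D.ψ n)) (S.twc (D.ψ n) c)

theorem ODat.exists_inr (D : ODat S) {E1 : IntermediateField ℚ_[p] ℂ_[p]} (n : ℕ)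
    {τ : ℂ_[p] →+* ℂ_[p]} (h : Frob τ 0) (h' : ∀ a ∈ E1, τ a = a) : ∃ c, D.Inr E1 n τ c := by
  obtain ⟨c, hc, hs⟩ := D.wE.frob (D.gp n) h
  exact ⟨c, h, h', hc, hs⟩

/-- The cocycle of `χ` is trivial by `xc_inj`. -/
theorem ODat.Inr.tors {D : ODat S} {E1 : IntermediateField ℚ_[p] ℂ_[p]}
    (hE : ∀ i, D.Ec.xc D.χ i ∈ E1) {n : ℕ} {τ : ℂ_[p] →+* ℂ_[p]} {c : Ix → ℂ_[p]ˣ}
    (h : D.Inr E1 n τ c) : c ^ p ^ (D.N n * D.Mo n) = 1 := by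
  obtain ⟨w0, h0, s0⟩ := D.wc.frob D.gc h.frob
  refine (D.coc h.frob n h0 h.nr s0 h.sim).2 ?_
  have h1 : D.Ec.xc (τ.comp D.χ) = D.Ec.xc (S.twc D.χ w0) := s0.xc D.wc (D.gc.twc h0).unit
  refine D.gc.xc_inj h0 Nr.one ?_
  rw [← h1, TW.twc_one D.gc.ch, Fr.xc_map D.gc.unit]
  exact funext fun i => h.fix _ (hE i)

/-- `L` is the canonical logarithm of `ψ`. -/
def Cl.IsL (W : Cl S) (σ : ℂ_[p] →+* ℂ_[p]) (f : ℕ) (ψ : R →+* ℂ_[p]) (L : Ix → ℂ_[p]) : Prop :=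
  ∃ w, Nr w ∧ W.Sim (σ.comp ψ) (S.twc (ψ.comp (S.fr ^ f)) w) ∧
    ∀ i, σ (L i) - (p : ℂ_[p]) ^ f * L i = lgv p w i

variable {W M : Cl S} {E : Fr S}

theorem g2b_norm (hf : 0 < f) : ‖(p : ℂ_[p]) ^ f‖ < 1 := by
  rw [norm_pow]
  refine pow_lt_one₀ (norm_nonneg _) ?_ hf.ne'
  rw [UAP.norm_p_eq]
  exact inv_lt_one_of_one_lt₀ (by exact_mod_cast (Fact.out : p.Prime).one_lt)

theorem g2b_uniq (hσ : Frob σ f) (hf : 0 < f) {κ : Matrix Ix Ix ℂ_[p]} (hκ : κ.map σ = κ)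
    {L1 L2 l1 l2 : Ix → ℂ_[p]} (h1 : ∀ i, σ (L1 i) - (p : ℂ_[p]) ^ f * L1 i = l1 i)
    (h2 : ∀ i, σ (L2 i) - (p : ℂ_[p]) ^ f * L2 i = l2 i) (h : l2 = κ *ᵥ l1) : L2 = κ *ᵥ L1 := by
  funext i
  refine L_unique hσ.iso (g2b_norm hf) ?_
  have e : l1 = σ ∘ L1 - (p : ℂ_[p]) ^ f • L1 := funext fun j => (h1 j).symm
  rw [h2, h, RingHom.map_mulVec, hκ, e, mulVec_sub, mulVec_smul]
  rfl

theorem Ad.exists_isL (h : Ad W E) {ψ : R →+* ℂ_[p]} (hψ : E.Gp ψ) (hσ : Frob σ f) (hf : 0 < f) :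
    ∃ L, W.IsL σ f ψ L := by
  obtain ⟨w, hw, hs⟩ := h.frob hψ hσ
  choose L hL using fun i => exists_L hσ.iso (g2b_norm hf) (lgv p w i)
  exact ⟨L, w, hw, hs, hL⟩

/-- The new cocycle is `σ u * w / u ^ p ^ f`. -/
theorem Cl.IsL.twc (hW : W.Tow) {ψ : R →+* ℂ_[p]} (hψ : S.Ch ψ) (hσ : Frob σ f) {L : Ix → ℂ_[p]}
    (h : W.IsL σ f ψ L) {u : Ix → ℂ_[p]ˣ} (hu : Nr u) : W.IsL σ f (S.twc ψ u) (L + lgv p u) := by
  obtain ⟨w, hw, hs, hL⟩ := h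
  have hρ : ∀ a, ‖σ a‖ ≤ ‖a‖ := fun a => (hσ.iso a).le
  have hf : S.Ch (ψ.comp (S.fr ^ f)) := hψ.isg (TW.isg_fr_pow f)
  have h1 := hu.umap σ hρ
  have h2 := hu.pow (p ^ f)
  have h3 := (h1.mul hw).mul h2.inv
  refine ⟨_, h3, ?_, fun i => ?_⟩
  · rw [TW.twc_map hψ hu σ hρ, TW.twc_fr hψ hu, TW.twc_twc hf h2 h3, inv_mul_cancel_right,
      ← TW.twc_twc hf hw h1]
    exact hs.twc hW (hψ.map σ hρ) (hf.twc hw) h1
  · rw [lgv_mul (h1.mul hw) h2.inv, lgv_mul h1 hw, lgv_inv h2, lgv_pow hu, lgv_umap hu σ hρ]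
    simp only [Pi.add_apply, Pi.neg_apply, Pi.smul_apply, smul_eq_mul, map_add, ← hL i,
      Nat.cast_pow]
    ring

/-- `trn_fr`, `trn_lg`, `ZpM.map`, `L_unique`. -/
theorem Cl.IsL.trn (hM : Ad M E) (hW : ∀ a, M.M a ⊆ W.M a) {ψ1 ψ2 : R →+* ℂ_[p]} (h1 : E.Gp ψ1)
    (h2 : E.Gp ψ2) (hs : M.Sim ψ1 ψ2) {κ : Matrix Ix Ix ℂ_[p]} (ht : M.Trn ψ1 ψ2 κ) (hz : ZpM κ)
    (hσ : Frob σ f) (hf : 0 < f) {L1 L2 : Ix → ℂ_[p]} (l1 : W.IsL σ f ψ1 L1)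
    (l2 : W.IsL σ f ψ2 L2) : L2 = κ *ᵥ L1 := by
  obtain ⟨w1, n1, s1, e1⟩ := l1
  obtain ⟨w2, n2, s2, e2⟩ := l2
  exact g2b_uniq hσ hf (hz.map hσ.iso) e1 e2 (hM.trn_lg (h2.fr f) (hM.trn_fr h1 h2 hs ht f) n1 n2
    (((s1.mono hW).symm.trans (hs.map σ)).trans (s2.mono hW)))

theorem ODat.isL (D : ODat S) (hσ : Frob σ f) (hf : 0 < f) (n : ℕ) {L0 L : Ix → ℂ_[p]}
    (l0 : D.W.IsL σ f D.χ L0) (l : D.W.IsL σ f (D.ψ n) L) :
    L = ((D.N n : ℂ_[p])⁻¹ • mc p (D.Cm n)) *ᵥ L0 := by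
  obtain ⟨w0, n0, s0, e0⟩ := l0
  obtain ⟨w, n1, s1, e1⟩ := l
  refine g2b_uniq hσ hf ?_ e0 e1 ?_
  · ext i j
    simp [mc]
  · rw [smul_mulVec, ← (D.coc hσ n n0 n1 s0 s1).1, smul_smul,
      inv_mul_cancel₀ (Nat.cast_ne_zero.2 (D.hN n).ne'), one_smul]

end Pool.Agent.E7
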