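import Pool.Agent.Lib.MP_7e5527_ag.EO.DVT
import Pool.Agent.Lib.MP_7e5527_ag.EO.TDefs

/-! Forms of a fixed level are algebraic of bounded degree over 28 given forms. -/

open Polynomial

noncomputable section

namespace Pool.Agent.E7

variable {p : ℕ} [Fact p.Prime]

theorem gf_dep {R I J : Type} [CommRing R] [Nontrivial R] [Fintype I] [Fintype J]
    (h : Fintype.card J < Fintype.card I) (M : I → J → R) :
    ∃ c : I → R, c ≠ 0 ∧ ∀ j, ∑ i, c i * M i j = 0 := by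
  by_contra h1
  push Not at h1
  have h2 : Function.Injective (Matrix.vecMulLinear (Matrix.of M)) :=
    (injective_iff_map_eq_zero _).2 fun c hc => by_contra fun h0 => by
      obtain ⟨j, hj⟩ := h1 c h0
      exact hj (congrFun hc j)
  have h3 := LinearMap.finrank_le_finrank_of_injective h2
  rw [Module.finrank_fintype_fun_eq_card, Module.finrank_fintype_fun_eq_card] at h3
  omega

/-- The exponents of the monomials of weight `n`. -/
def gfE {L D : ℕ} (a n : ℕ) (i : (Ix → Fin L) × Fin (D + 1)) : Option Ix →₀ ℕ :=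
  Finsupp.equivFunOnFinite.symm fun o =>
    o.elim (n - (∑ l, (i.1 l : ℕ) + i.2 * a)) fun l => (i.1 l : ℕ)

/-- The polynomial with coefficients `c`. -/
def gfQ {R : Type} [CommRing R] {L D : ℕ} (a n : ℕ) (c : (Ix → Fin L) × Fin (D + 1) → R) :
    (MvPolynomial (Option Ix) R)[X] :=
  ∑ i, monomial i.2 (MvPolynomial.monomial (gfE a n i) (c i))

/-- The monomials of weight `n`. -/
def gfM {L D : ℕ} (f : Option Ix → Fn) (F : Fn) (a n : ℕ) (i : (Ix → Fin L) × Fin (D + 1)) : Fn :=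
  (∏ o, f o ^ gfE a n i o) * F ^ (i.2 : ℕ)

section

variable {R : Type} [CommRing R] {L D a n : ℕ}

theorem gfE_sum (i : (Ix → Fin L) × Fin (D + 1)) (h : ∑ l, (i.1 l : ℕ) + i.2 * a ≤ n) :
    ∑ o, gfE a n i o + i.2 * a = n := by
  simp only [gfE, Finsupp.equivFunOnFinite_symm_apply_apply, Fintype.sum_option, Option.elim_none,
    Option.elim_some]
  omega

theorem gfQ_ne {c : (Ix → Fin L) × Fin (D + 1) → R} (h : c ≠ 0) : gfQ a n c ≠ 0 := by
  classical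
  refine fun h0 => h (funext fun i => ?_)
  have h1 := congrArg (fun P => MvPolynomial.coeff (gfE a n i) (P.coeff i.2)) h0
  simp only [gfQ, finsetSum_coeff, coeff_monomial, MvPolynomial.coeff_sum, coeff_zero,
    MvPolynomial.coeff_zero] at h1
  rw [Finset.sum_eq_single i, if_pos rfl, MvPolynomial.coeff_monomial, if_pos rfl] at h1
  · exact h1
  · intro j _ hj
    split_ifs with h2
    · rw [MvPolynomial.coeff_monomial, if_neg]
      intro h3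
      have h4 := Finsupp.equivFunOnFinite.symm.injective h3
      exact hj (Prod.ext (funext fun l => Fin.ext (congrFun h4 (some l))) (Fin.ext h2))
    · exact MvPolynomial.coeff_zero _
  · exact fun h2 => absurd (Finset.mem_univ i) h2

theorem gfQ_deg (c : (Ix → Fin L) × Fin (D + 1) → R) : (gfQ a n c).natDegree ≤ D :=
  natDegree_sum_le_of_forall_le _ _ fun i _ =>
    (natDegree_monomial_le _).trans (Nat.le_of_lt_succ i.2.2)

theorem gfQ_wh (hn : ∀ i : (Ix → Fin L) × Fin (D + 1), ∑ l, (i.1 l : ℕ) + i.2 * a ≤ n)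
    (c : (Ix → Fin L) × Fin (D + 1) → R) : WH a (gfQ a n c) := by
  refine ⟨n, fun j hj => ⟨n - j * a, ?_, ?_⟩⟩
  · rw [gfQ, finsetSum_coeff] at hj
    obtain ⟨i, -, hi⟩ := Finset.exists_ne_zero_of_sum_ne_zero hj
    rw [coeff_monomial] at hi
    have h1 : (i.2 : ℕ) = j := by_contra fun h => hi (if_neg h)
    have h2 := hn i
    rw [h1] at h2
    omega
  · rw [gfQ, finsetSum_coeff]
    refine MvPolynomial.IsHomogeneous.sum _ _ _ fun i _ => ?_
    rw [coeff_monomial]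
    split_ifs with h
    · refine MvPolynomial.isHomogeneous_monomial _ ?_
      have h2 := gfE_sum i (hn i)
      rw [Finsupp.degree_eq_sum, ← h]
      omega
    · exact MvPolynomial.isHomogeneous_zero _ _ _

theorem gfQ_eval (φ : R →+* Fn) (c : (Ix → Fin L) × Fin (D + 1) → R) (f : Option Ix → Fn) (F : Fn) :
    (gfQ a n c).eval₂ (MvPolynomial.eval₂Hom φ f) F = ∑ i, φ (c i) * gfM f F a n i := by
  rw [gfQ, eval₂_finsetSum]
  refine Finset.sum_congr rfl fun i _ => ?_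
  rw [eval₂_monomial, MvPolynomial.eval₂Hom_monomial, Finsupp.prod_fintype _ _ fun _ => pow_zero _,
    gfM, mul_assoc]

end

theorem gf_int_mul {F G : Fn} (hF : Gd F ∧ ∀ T, ∃ n : ℤ, cf F T = n)
    (hG : Gd G ∧ ∀ T, ∃ n : ℤ, cf G T = n) : Gd (F * G) ∧ ∀ T, ∃ n : ℤ, cf (F * G) T = n := by
  refine ⟨GQ.mul_mem hF.1 hG.1, fun T => ?_⟩
  rw [(hF.1.spec.mul hG.1.spec).cf_eq]
  refine finsum_induction (fun z : ℂ => ∃ n : ℤ, z = n) ⟨0, by simp⟩ ?_ fun S => ?_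
  · rintro _ _ ⟨m, rfl⟩ ⟨n, rfl⟩
    exact ⟨m + n, by simp⟩
  · obtain ⟨m, hm⟩ := hF.2 S
    obtain ⟨n, hn⟩ := hG.2 (T - S)
    exact ⟨m * n, by simp [hm, hn]⟩

/-- Good functions with integer coefficients. -/
def intS : Submonoid Fn where
  carrier := {F | Gd F ∧ ∀ T, ∃ n : ℤ, cf F T = n}
  mul_mem' := gf_int_mul
  one_mem' := ⟨⟨_, GoodC.one⟩, fun T => by
    rw [GoodC.one.cf_eq, Pi.single_apply]
    split_ifs
    exacts [⟨1, by simp⟩, ⟨0, by simp⟩]⟩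

theorem gf_count (r μ k0 a : ℕ) : ∃ L : ℕ, a * (4 * μ * (28 * k0 + 1) + 1) ^ r < L ∧
    (4 * (μ * (28 * L * k0 + 1)) + 1) ^ r < L ^ r * ((4 * μ * (28 * k0 + 1) + 1) ^ r + 1) := by
  refine ⟨_, Nat.lt_succ_self _, ?_⟩
  generalize a * (4 * μ * (28 * k0 + 1) + 1) ^ r = b
  have h1 : 4 * (μ * (28 * (b + 1) * k0 + 1)) + 1 ≤ (b + 1) * (4 * μ * (28 * k0 + 1) + 1) := by
    nlinarith [Nat.zero_le (μ * b)]
  refine (Nat.pow_le_pow_left h1 r).trans_lt ?_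
  rw [mul_pow]
  exact (Nat.mul_lt_mul_left (pow_pos (Nat.succ_pos b) r)).2 (Nat.lt_succ_self _)

theorem gf_core (e : ℂ_[p] ≃+* ℂ) {Δ : Subgroup Gb} (hΔ : Δ ≤ Gam) (hi : Δ.relIndex Gam ≠ 0)
    (k0 : ℕ) : ∃ D : ℕ, ∀ a : ℕ, ∃ (L n : ℕ) (s : Finset (Ix → ℚ)),
      Fintype.card s < Fintype.card ((Ix → Fin L) × Fin (D + 1)) ∧
      (∀ i : (Ix → Fin L) × Fin (D + 1), ∑ l, (i.1 l : ℕ) + i.2 * a ≤ n) ∧
      ∀ H, MF (n * k0 : ℕ) H → Inv Δ (n * k0 : ℕ) H → H ∈ GZ → (∀ T ∈ s, cf H T = 0) → H = 0 := by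
  obtain ⟨μ, hμ⟩ := vt e hΔ hi
  have hc : Fintype.card Ix = 27 := by simp
  have h0 := gf_count (Fintype.card Ix) μ k0
  generalize (4 * μ * (28 * k0 + 1) + 1) ^ Fintype.card Ix = D at h0
  refine ⟨D, fun a => ?_⟩
  obtain ⟨L, l1, l2⟩ := h0 a
  obtain ⟨s, s1, s2⟩ := count_psd (μ * (28 * L * k0 + 1))
  rw [← hc] at s1
  refine ⟨L, 28 * L, s, ?_, fun i => ?_, fun H h1 h2 h3 h4 => ?_⟩
  · rw [Fintype.card_coe, Fintype.card_prod, Fintype.card_fun, Fintype.card_fin, Fintype.card_fin]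
    exact s1.trans_lt l2
  · have h1 := Finset.sum_le_card_nsmul Finset.univ (fun l => (i.1 l : ℕ)) L fun l _ => (i.1 l).2.le
    rw [Finset.card_univ, hc, smul_eq_mul] at h1
    have h2 : (i.2 : ℕ) * a ≤ D * a := Nat.mul_le_mul_right _ (Nat.le_of_lt_succ i.2.2)
    rw [mul_comm a] at l1
    omega
  · refine hμ _ H h1 h2 fun T hT => lt_of_not_ge fun h5 => hT (h4 T (s2 T ((mem_GZ.1 h3).2 T hT)
      (h1.gd.psd hT) ?_))
    push_cast at h5 ⊢
    exact h5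

theorem gfh (e : ℂ_[p] ≃+* ℂ) {Δ : Subgroup Gb} (hΔ : Δ ≤ Gam) (hi : Δ.relIndex Gam ≠ 0) (k0 : ℕ) :
    ∃ D0 : ℕ, ∀ (f : Option Ix → Fn) (a : ℕ) (F : Fn),
      (∀ o, MF k0 (f o) ∧ Inv Δ k0 (f o) ∧ f o ∈ GZ) →
      MF (a * k0) F → Inv Δ (a * k0) F → F ∈ GZ →
      (∃ P : (MvPolynomial (Option Ix) ℂ)[X], P ≠ 0 ∧ WH a P ∧ P.natDegree ≤ D0 ∧
        P.eval₂ (MvPolynomial.eval₂Hom (algebraMap ℂ Fn) f) F = 0) ∧
      ((∀ o T, ∃ n : ℤ, cf (f o) T = n) → (∀ T, ∃ n : ℤ, cf F T = n) →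
        ∃ P : (MvPolynomial (Option Ix) ℤ)[X], P ≠ 0 ∧ WH a P ∧ P.natDegree ≤ D0 ∧
          P.eval₂ (MvPolynomial.eval₂Hom (Int.castRingHom Fn) f) F = 0) := by
  obtain ⟨D, hD⟩ := gf_core e hΔ hi k0
  refine ⟨D, fun f a F hf h1 h2 h3 => ?_⟩
  obtain ⟨L, n, s, s1, s2, s3⟩ := hD a
  have hw : ∀ i : (Ix → Fin L) × Fin (D + 1),
      ∑ o, ((gfE a n i o : ℕ) : ℤ) * k0 + ((i.2 : ℕ) : ℤ) * (a * k0) = (n * k0 : ℕ) := fun i => by
    have h4 := congrArg (fun m : ℕ => ((m * k0 : ℕ) : ℤ)) (gfE_sum i (s2 i))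
    simp only [← h4, ← Finset.sum_mul, Nat.cast_mul, Nat.cast_add, Nat.cast_sum, add_mul, mul_assoc]
  have hm : ∀ i : (Ix → Fin L) × Fin (D + 1), MF (n * k0 : ℕ) (gfM f F a n i) ∧
      Inv Δ (n * k0 : ℕ) (gfM f F a n i) ∧ gfM f F a n i ∈ GZ := fun i => by
    rw [← hw i]
    exact ⟨(MF.prod _ fun o _ => (hf o).1.pow _).mul (h1.pow _),
      (Inv.prod hΔ _ fun o _ => (hf o).2.1.pow hΔ _).mul hΔ (h2.pow hΔ _),
      mul_mem (prod_mem fun o _ => pow_mem (hf o).2.2 _) (pow_mem h3 _)⟩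
  have key : ∀ c : (Ix → Fin L) × Fin (D + 1) → ℂ,
      (∀ T : s, ∑ i, c i * cf (gfM f F a n i) T = 0) → ∑ i, c i • gfM f F a n i = 0 := fun c hc =>
    s3 _ (MF.sum _ fun i _ => (hm i).1.smul _) (Inv.sum _ fun i _ => (hm i).2.1.smul _)
      (sum_mem fun i _ => GZ.smul_mem (hm i).2.2 _) fun T hT => by
        rw [(GoodC.finsum _ fun i _ => (hm i).1.gd.spec.smul (c i)).cf_eq, Finset.sum_apply]
        exact hc ⟨T, hT⟩
  refine ⟨?_, fun k1 k2 => ?_⟩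
  · obtain ⟨c, c1, c2⟩ := gf_dep s1 fun i (T : s) => cf (gfM f F a n i) T
    refine ⟨gfQ a n c, gfQ_ne c1, gfQ_wh s2 c, gfQ_deg c, ?_⟩
    rw [gfQ_eval, ← key c c2]
    exact Finset.sum_congr rfl fun i _ => (Algebra.smul_def _ _).symm
  · have k4 : ∀ i : (Ix → Fin L) × Fin (D + 1), gfM f F a n i ∈ intS := fun i =>
      mul_mem (prod_mem fun o _ => pow_mem (show f o ∈ intS from ⟨(hf o).1.gd, k1 o⟩) _)
        (pow_mem (show F ∈ intS from ⟨h1.gd, k2⟩) _)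
    choose M hM using fun i => (k4 i).2
    obtain ⟨c, c1, c2⟩ := gf_dep s1 fun i (T : s) => M i T
    refine ⟨gfQ a n c, gfQ_ne c1, gfQ_wh s2 c, gfQ_deg c, ?_⟩
    rw [gfQ_eval, ← key (fun i => c i) fun T => by
      simp only [hM, ← Int.cast_mul, ← Int.cast_sum, c2 T, Int.cast_zero]]
    refine Finset.sum_congr rfl fun i _ => ?_
    rw [Algebra.smul_def, eq_intCast, map_intCast]

end Pool.Agent.E7
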