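import Pool.Agent.Lib.MP_7e5527_ag.EO.G2
import Pool.Agent.Lib.MP_7e5527_ag.E7.PUl
import Pool.Agent.Lib.MP_7e5527_ag.E7.PBU

/-! Inertia of unbounded order. -/

open Filter Topology Polynomial Matrix

noncomputable section

namespace Pool.Agent.E7

variable {ι : Type} [Fintype ι] [DecidableEq ι] {p : ℕ} [Fact p.Prime] {C : Cone ι} {R : Type}
  [CommRing R] {S : TW p C R}

theorem a1a_uc (a : ι → ℤ) (r : ℕ) : UC p fun T => (ipZ T a : ℂ_[p]) ^ r := by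
  refine UC.pow ?_ r
  simp only [ipZ, Int.cast_sum, Int.cast_mul]
  exact UC.sum _ fun i _ => (UC.coord i).mul (UC.const _)

theorem a1a_umon (ζ : ℂ_[p]ˣ) (a T : ι → ℤ) (e : ℕ) :
    umon ((fun i => ζ ^ a i) ^ e) T = ((ζ : ℂ_[p]) ^ ipZ T a) ^ e := by
  have h : ∀ F : Finset ι, ∏ i ∈ F, ((ζ ^ a i) ^ e) ^ T i = (ζ ^ ∑ i ∈ F, T i * a i) ^ e := by
    intro F
    induction F using Finset.induction_on with
    | empty => simp
    | insert i F hi ih =>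
      rw [Finset.prod_insert hi, Finset.sum_insert hi, ih, _root_.zpow_add, mul_pow,
        ← zpow_natCast, ← _root_.zpow_mul, ← _root_.zpow_mul, ← zpow_natCast (ζ ^ (T i * a i)),
        ← _root_.zpow_mul]
      congr 2
      ring
  simp only [umon, Pi.pow_apply]
  rw [h, ipZ, Units.val_pow_eq_pow_val, Units.val_zpow_eq_zpow_val]

theorem a1a_poly {ζ : ℂ_[p]} {j : ℕ} (hζ : IsPrimitiveRoot ζ (p ^ j)) (r : ℕ) :
    ∃ P : ℂ_[p][X], ∀ m : ℤ, ‖(m : ℂ_[p]) ^ r - P.eval (ζ ^ m)‖ ≤ ((p : ℝ) ^ j)⁻¹ := by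
  classical
  have hN : 0 < p ^ j := pow_pos (Fact.out : p.Prime).pos j
  refine ⟨Lagrange.interpolate (Finset.range (p ^ j)) (fun s => ζ ^ s) fun s => (s : ℂ_[p]) ^ r,
    fun m => ?_⟩
  have hN' : (0 : ℤ) < (p ^ j : ℕ) := by exact_mod_cast hN
  obtain ⟨s, hs⟩ := Int.eq_ofNat_of_zero_le (Int.emod_nonneg m hN'.ne')
  have hlt : s < p ^ j := by exact_mod_cast hs ▸ Int.emod_lt_of_pos m hN'
  have hm : m = (p ^ j : ℕ) * (m / (p ^ j : ℕ)) + s := by rw [← hs, Int.mul_ediv_add_emod]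
  have e : ζ ^ m = ζ ^ s := by
    rw [hm, zpow_add₀ (hζ.ne_zero hN.ne'), _root_.zpow_mul, zpow_natCast, hζ.pow_eq_one,
      _root_.one_zpow, one_mul, zpow_natCast]
  rw [e, Lagrange.eval_interpolate_at_node _ hζ.injOn_pow (Finset.mem_range.2 hlt)]
  obtain ⟨k, hk⟩ : ((p ^ j : ℕ) : ℤ) ∣ m ^ r - (s : ℤ) ^ r :=
    Dvd.dvd.trans ⟨m / (p ^ j : ℕ), by linarith⟩ (sub_dvd_pow_sub_pow m s r)
  have hk' : (m : ℂ_[p]) ^ r - (s : ℂ_[p]) ^ r = (p : ℂ_[p]) ^ j * k := by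
    exact_mod_cast congrArg (Int.cast : ℤ → ℂ_[p]) hk
  rw [hk', norm_mul, norm_pow, UAP.norm_p_eq, inv_pow]
  exact mul_le_of_le_one_right (by positivity) (IsUltrametricDist.norm_intCast_le_one _ k)

/-- Orthogonality of characters gives `tw ψ (indicator of ipZ T a = s mod p ^ j) G = 0`; on such a
class `ipZ T a ^ r` differs from `s ^ r` by a multiple of `p ^ j`. -/
theorem TW.orth {ψ : R →+* ℂ_[p]} (hψ : S.Ch ψ) {ζ : ℂ_[p]ˣ} {j : ℕ}
    (hζ : IsPrimitiveRoot ζ (p ^ j)) {a : ι → ℤ} {G : R} {B : ℝ} (hB : 0 ≤ B) (hG : S.Bd B G)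
    (h : ∀ e : ℕ, S.twc ψ ((fun i => ζ ^ a i) ^ e) G = 0) (r : ℕ) :
    ‖S.tw ψ (fun T => (ipZ T a : ℂ_[p]) ^ r) G‖ ≤ ((p : ℝ) ^ j)⁻¹ * B := by
  obtain ⟨P, hP⟩ := a1a_poly (IsPrimitiveRoot.coe_units_iff.2 hζ) r
  have hn : ∀ e : ℕ, Nr ((fun i => ζ ^ a i) ^ e) := fun e => Nr.pow (fun i => ppow_root_near (j := j)
    (by rw [← Units.val_pow_eq_pow_val, ← zpow_natCast, ← _root_.zpow_mul, mul_comm,
      _root_.zpow_mul, zpow_natCast, hζ.pow_eq_one, _root_.one_zpow, Units.val_one])) e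
  have hu : ∀ e ∈ Finset.range (P.natDegree + 1),
      UC p fun T => P.coeff e * umon ((fun i => ζ ^ a i) ^ e) T :=
    fun e _ => (UC.const _).mul (UC.umon (hn e))
  have h0 : S.tw ψ (fun T => ∑ e ∈ Finset.range (P.natDegree + 1),
      P.coeff e * umon ((fun i => ζ ^ a i) ^ e) T) G = 0 := by
    rw [tw_sum hψ _ hu]
    refine Finset.sum_eq_zero fun e _ => ?_
    rw [tw_smul hψ (UC.umon (hn e)), ← twc_apply hψ (hn e), h, mul_zero]
  rw [← sub_zero (S.tw _ _ _), ← h0, ← tw_sub hψ (a1a_uc a r) (UC.sum _ hu)]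
  refine tw_le hψ ((a1a_uc a r).sub (UC.sum _ hu)) hB hG (by positivity) fun T => ?_
  simp only [a1a_umon]
  rw [← Polynomial.eval_eq_sum_range]
  exact hP _

theorem a1a_bdd {ψ : ℕ → R →+* ℂ_[p]} (hψ : ∀ n, S.Ch (ψ n)) (a : ℕ → ι → ℤ) (r : ℕ) (F : R) :
    Bdd fun n => S.tw (ψ n) (fun T => (ipZ T (a n) : ℂ_[p]) ^ r) F := by
  obtain ⟨B, hB, hF⟩ := S.bdd F
  refine ⟨1 * B, fun n => TW.tw_le (hψ n) (a1a_uc _ r) hB hF zero_le_one fun T => ?_⟩
  rw [norm_pow]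
  exact pow_le_one₀ (norm_nonneg _) (IsUltrametricDist.norm_intCast_le_one _ _)

theorem a1a_mul {ψ : R →+* ℂ_[p]} (hψ : S.Ch ψ) (a : ι → ℤ) (r : ℕ) (F G : R) :
    S.tw ψ (fun T => (ipZ T a : ℂ_[p]) ^ r) (F * G) =
      ∑ m ∈ Finset.HasAntidiagonal.antidiagonal r, (r.choose m.1 : ℂ_[p]) *
        (S.tw ψ (fun T => (ipZ T a : ℂ_[p]) ^ m.1) F *
          S.tw ψ (fun T => (ipZ T a : ℂ_[p]) ^ m.2) G) := by
  rw [TW.tw_mul hψ (a1a_uc a r) (Finset.HasAntidiagonal.antidiagonal r)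
    (g := fun m T => (r.choose m.1 : ℂ_[p]) * (ipZ T a : ℂ_[p]) ^ m.1)
    (h := fun m T => (ipZ T a : ℂ_[p]) ^ m.2) (fun m _ => (UC.const _).mul (a1a_uc a _))
    (fun m _ => a1a_uc a _)]
  · refine Finset.sum_congr rfl fun m _ => ?_
    rw [TW.tw_smul hψ (a1a_uc a _), mul_assoc]
  · intro T T'
    rw [ipZ_add, Int.cast_add, (Commute.all _ _).add_pow']
    refine Finset.sum_congr rfl fun m _ => ?_
    rw [nsmul_eq_mul, mul_assoc]

theorem a1a_del {ψ : R →+* ℂ_[p]} (hψ : S.Ch ψ) (a : ι → ℤ) (r : ℕ) (F : R) :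
    S.tw ψ (fun T => (ipZ T a : ℂ_[p]) ^ (r + 1)) F =
      ∑ i, S.tw ψ (fun T => (ipZ T a : ℂ_[p]) ^ r) (S.del i F) * (a i : ℂ_[p]) := by
  have e : (fun T => (ipZ T a : ℂ_[p]) ^ (r + 1)) =
      fun T => ∑ i, (a i : ℂ_[p]) * ((T i : ℂ_[p]) * (ipZ T a : ℂ_[p]) ^ r) := by
    funext T
    rw [pow_succ']
    nth_rewrite 1 [ipZ]
    rw [Int.cast_sum, Finset.sum_mul]
    refine Finset.sum_congr rfl fun i _ => ?_
    rw [Int.cast_mul]
    ring
  rw [e, TW.tw_sum hψ _ fun i _ => (UC.const _).mul ((UC.coord i).mul (a1a_uc a r))]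
  refine Finset.sum_congr rfl fun i _ => ?_
  rw [TW.tw_smul hψ ((UC.coord i).mul (a1a_uc a r)), TW.tw_del hψ (a1a_uc a r), mul_comm]

/-- The formal orbit in the direction of the limit of the `a n` (`tw_mul` with the binomial
formula, `tw_del`). -/
theorem TW.exists_eps {U : Ultrafilter ℕ} {K : Type} [NontriviallyNormedField K]
    [NormedAlgebra ℂ_[p] K] [CompleteSpace K] [IsUltrametricDist K] (L : ULim p U K)
    {ψ : ℕ → R →+* ℂ_[p]} (hψ : ∀ n, S.Ch (ψ n)) (hl : ∀ n, S.Lin (ψ n)) (a : ℕ → ι → ℤ) :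
    ∃ ε : R →+* PowerSeries K,
      (∀ F r, PowerSeries.coeff r (ε F) = (r.factorial : K)⁻¹ *
        L.lim fun n => S.tw (ψ n) (fun T => (ipZ T (a n) : ℂ_[p]) ^ r) F) ∧
      (∀ c, ε (S.cst c) = algebraMap ℂ_[p] (PowerSeries K) c) ∧
      ∀ F, PowerSeries.derivative K (ε F) =
        ∑ i, ε (S.del i F) * PowerSeries.C (L.lim fun n => (a n i : ℂ_[p])) := by
  have : CharZero K := charZero_of_injective_algebraMap (algebraMap ℂ_[p] K).injective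
  have hb := a1a_bdd hψ a
  let e : R → PowerSeries K := fun F => PowerSeries.mk fun r => (r.factorial : K)⁻¹ *
    L.lim fun n => S.tw (ψ n) (fun T => (ipZ T (a n) : ℂ_[p]) ^ r) F
  have hc : ∀ c, e (S.cst c) = algebraMap ℂ_[p] (PowerSeries K) c := by
    intro c
    ext r
    have : (fun n => S.tw (ψ n) (fun T => (ipZ T (a n) : ℂ_[p]) ^ r) (S.cst c)) =
        fun _ => c * 0 ^ r := by
      funext n
      rw [← mul_one (S.cst c), tw_cst_mul (hψ n) (a1a_uc _ r), tw_one_right (hψ n) (a1a_uc _ r),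
        hl n, ipZ_zero, Int.cast_zero]
      rfl
    rw [PowerSeries.coeff_mk, this, L.const, PowerSeries.algebraMap_apply, PowerSeries.coeff_C]
    rcases r with _ | r <;> simp
  have hadd : ∀ F G, e (F + G) = e F + e G := by
    intro F G
    ext r
    simp only [e, map_add, PowerSeries.coeff_mk]
    rw [← mul_add, ← L.add _ _ (hb r F) (hb r G)]
    simp only [tw_add_right (hψ _) (a1a_uc _ r)]
  have hmul : ∀ F G, e (F * G) = e F * e G := by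
    intro F G
    ext r
    simp only [e, PowerSeries.coeff_mul, PowerSeries.coeff_mk, a1a_mul (hψ _)]
    rw [(pul_sum L _ fun m : ℕ × ℕ => pul_bdd_mul (pul_bdd_const _)
      (pul_bdd_mul (hb m.1 F) (hb m.2 G))).2, Finset.mul_sum]
    refine Finset.sum_congr rfl fun m hm => ?_
    rw [L.mul _ _ (pul_bdd_const _) (pul_bdd_mul (hb _ F) (hb _ G)), L.mul _ _ (hb _ F) (hb _ G),
      L.const, map_natCast, ← Finset.HasAntidiagonal.mem_antidiagonal.1 hm, Nat.cast_add_choose]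
    have h1 : ∀ k : ℕ, (k.factorial : K) ≠ 0 := fun k => Nat.cast_ne_zero.2 k.factorial_ne_zero
    have := h1 m.1
    have := h1 m.2
    have := h1 (m.1 + m.2)
    field_simp
  refine ⟨⟨⟨⟨e, ?_⟩, hmul⟩, ?_, hadd⟩, fun F r => ?_, hc, fun F => ?_⟩
  · rw [← map_one S.cst, hc, map_one]
  · show e 0 = 0
    rw [← map_zero S.cst, hc, map_zero]
  · show PowerSeries.coeff r (e F) = _
    rw [PowerSeries.coeff_mk]
  · ext r
    show PowerSeries.coeff r (PowerSeries.derivative K (e F)) =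
      PowerSeries.coeff r (∑ i, e (S.del i F) * _)
    have ha : ∀ i, Bdd fun n => (a n i : ℂ_[p]) := fun i =>
      ⟨1, fun n => IsUltrametricDist.norm_intCast_le_one _ _⟩
    simp only [e, PowerSeries.coeff_derivative, map_sum, PowerSeries.coeff_mul_C,
      PowerSeries.coeff_mk, a1a_del (hψ _)]
    rw [(pul_sum L _ fun i => pul_bdd_mul (hb r (S.del i F)) (ha i)).2, Finset.mul_sum,
      Finset.sum_mul]
    refine Finset.sum_congr rfl fun i _ => ?_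
    have h1 : (r.factorial : K) ≠ 0 := Nat.cast_ne_zero.2 r.factorial_ne_zero
    have h2 : (r : K) + 1 ≠ 0 := Nat.cast_add_one_ne_zero r
    rw [L.mul _ _ (hb _ _) (ha i), Nat.factorial_succ, Nat.cast_mul, Nat.cast_succ]
    field_simp

variable {R : Type} [CommRing R] {S : TW p cone R}

theorem a1b_orbit {W : Cl S} (hW : W.Tow) {ψ : R →+* ℂ_[p]} (hψ : S.Ch ψ) {τ : ℂ_[p] →+* ℂ_[p]}
    (hτ : UAP.Iso τ) {c : Ix → ℂ_[p]ˣ} (hc : Nr c) (h : W.Sim (τ.comp ψ) (S.twc ψ c)) (k : ℕ) :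
    ∃ u : Ix → ℂ_[p]ˣ, Nr u ∧ (∀ i, (u i : ℂ_[p]) = ∏ l ∈ Finset.range k, (τ ^ l) (c i)) ∧
      W.Sim ((τ ^ k).comp ψ) (S.twc ψ u) := by
  have hτ' : ∀ a, ‖τ a‖ ≤ ‖a‖ := fun a => (hτ a).le
  induction k with
  | zero =>
    refine ⟨1, Nr.one, fun i => by simp, ?_⟩
    rw [TW.twc_one hψ]
    exact Cl.Sim.refl ψ
  | succ k ih =>
    obtain ⟨u, hu, e, hs⟩ := ih
    have hu' := hu.umap τ hτ'
    refine ⟨umap τ u * c, hu'.mul hc, fun i => ?_, ?_⟩
    · rw [Finset.prod_range_succ', Pi.mul_apply, Units.val_mul]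
      change τ (u i) * c i = _ * c i
      rw [e, map_prod]
      simp only [pow_succ', RingHom.coe_mul, Function.comp_apply]
    · have h1 := hs.map τ
      rw [TW.twc_map hψ hu τ hτ'] at h1
      have h2 := Cl.Sim.twc hW (hψ.map τ hτ') (hψ.twc hc) h hu'
      rw [TW.twc_twc hψ hc hu'] at h2
      rw [pow_succ']
      exact h1.trans h2

theorem a1b_eval {K σ : Type} [CommRing K] [Fintype σ] (ρ : K →+* K) (P : MvPolynomial σ K)
    (h : ∀ ν, ρ (P.coeff ν) = P.coeff ν) (v : σ → K) :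
    MvPolynomial.aeval (fun i => ρ (v i)) P = ρ (MvPolynomial.eval v P) := by
  change MvPolynomial.eval _ P = _
  rw [MvPolynomial.eval_eq', MvPolynomial.eval_eq', map_sum]
  simp only [map_mul, map_prod, map_pow, h]

theorem a1b_ord {G : Type} [Monoid G] {c : G} {n : ℕ} (h1 : ∃ j : ℕ, c ^ p ^ j = 1)
    (h2 : c ^ p ^ n ≠ 1) : ∃ j, n ≤ j ∧ c ^ p ^ (j + 1) = 1 ∧ c ^ p ^ j ≠ 1 := by
  classical
  have h3 : n < Nat.find h1 := by
    by_contra hn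
    obtain ⟨d, hd⟩ := Nat.exists_eq_add_of_le (not_lt.1 hn)
    exact h2 (by rw [hd, pow_add, pow_mul, Nat.find_spec h1, one_pow])
  obtain ⟨d, hd⟩ := Nat.exists_eq_add_of_lt h3
  exact ⟨n + d, Nat.le_add_right _ _, hd ▸ Nat.find_spec h1, Nat.find_min h1 (by omega)⟩

/-- `(τ ^ k).comp ψ` is proportional to the twist by `∏ l < k, (τ ^ l) c` (`twc_map`, `Sim.twc`,
`twc_twc`); `geom_orbit`, `Φ_eq`. -/
theorem ODat.Inr.van {D : ODat S} {E1 : IntermediateField ℚ_[p] ℂ_[p]} (h0 : D.E0 ≤ E1)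
    (hp : ∀ ξ : ℂ_[p], ξ ^ p ^ 2 = 1 → ξ ∈ E1) {n : ℕ} {τ : ℂ_[p] →+* ℂ_[p]} {c : Ix → ℂ_[p]ˣ}
    (h : D.Inr E1 n τ c) {j : ℕ} (hc : c ^ p ^ j = 1) (e : ℕ) (i : Ix) :
    S.twc (D.ψ n) (c ^ e) (D.Φ i) = 0 := by
  obtain ⟨k, hk⟩ := geom_orbit (σ := τ) (fun ξ hξ => h.fix ξ (hp ξ hξ))
    (c := fun i => (c i : ℂ_[p])) (j := j)
    (fun i => by rw [← Units.val_pow_eq_pow_val, ← Pi.pow_apply, hc, Pi.one_apply, Units.val_one]) e
  obtain ⟨u, hu, e1, hs⟩ := a1b_orbit D.tow (D.gp n).ch h.frob.iso h.nr h.sim k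
  obtain rfl : u = c ^ e := funext fun i => Units.ext (by
    rw [e1, hk, Pi.pow_apply, Units.val_pow_eq_pow_val])
  have h1 := ((D.gp n).twc hu).unit
  have h2 := hs.xc D.wE h1
  rw [Fr.xc_map (D.gp n).unit] at h2
  have h3 := a1b_eval (τ ^ k) (D.pk.Ph i) (fun ν => pow_fix (h.fix _ (h0 (D.pk.coE i ν))) k)
    ![1, D.E.xc (D.ψ n) D.i1, D.E.xc (D.ψ n) i]
  rw [D.pk.van, map_zero] at h3
  rw [D.Φ_eq ((D.lin n).twc (D.gp n).ch hu) h1, ← h2]
  refine mul_eq_zero_of_right _ (Eq.trans ?_ h3)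
  congr 2
  funext r
  fin_cases r
  exacts [(map_one _).symm, rfl, rfl]

/-- `exists_gen`; the index `i0` is constant along `U`; `exists_ulim`, `exists_eps`, `orth`; apply
`ODat.orc` in `PowerSeries K` with `z i = C (lim a i) * X` and `P = X i - C (lim a i) * X i0` for
some `i ≠ i0`; the constant coefficient of `ε (Ψ 1)` is the limit of the `ψ n (Ψ 1)`. -/
theorem ODat.caseA (D : ODat S) {E1 : IntermediateField ℚ_[p] ℂ_[p]} (h0 : D.E0 ≤ E1)
    (hp : ∀ ξ : ℂ_[p], ξ ^ p ^ 2 = 1 → ξ ∈ E1) {τ : ℕ → ℂ_[p] →+* ℂ_[p]} {c : ℕ → Ix → ℂ_[p]ˣ}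
    (h : ∀ n, D.Inr E1 n (τ n) (c n)) (h1 : ∀ n, ∃ j : ℕ, c n ^ p ^ j = 1)
    (h2 : ∀ n, c n ^ p ^ n ≠ 1) {U : Ultrafilter ℕ} (hU : (U : Filter ℕ) ≤ cofinite) :
    ∃ y, Tendsto (fun n => D.x n D.i1) U (𝓝 y) := by
  choose j hj hj1 hj2 using fun n => a1b_ord (h1 n) (h2 n)
  choose ζ a i0 hζ ha hc using fun n => exists_gen (hj1 n) (hj2 n)
  obtain ⟨l0, hl0⟩ := (U.map i0).eq_pure_of_finite
  have hi0 : ∀ᶠ n in (U : Filter ℕ), i0 n = l0 := by
    have : {l0} ∈ U.map i0 := by rw [hl0]; exact Ultrafilter.mem_pure.2 rfl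
    exact this
  obtain ⟨K, _, _, _, _, ⟨L⟩⟩ := exists_ulim (p := p) U
  obtain ⟨ε, e1, e2, e3⟩ := TW.exists_eps L (fun n => (D.gp n).ch) D.lin a
  have hb : ∀ i, Bdd fun n => (a n i : ℂ_[p]) := fun i =>
    ⟨1, fun n => IsUltrametricDist.norm_intCast_le_one _ _⟩
  have hA : L.lim (fun n => (a n l0 : ℂ_[p])) = 1 := by
    rw [← map_one (algebraMap ℂ_[p] K), L.eq_iff (hb l0)]
    refine tendsto_const_nhds.congr' (hi0.mono fun n hn => ?_)
    change 1 = ((a n l0 : ℤ) : ℂ_[p])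
    rw [← hn, ha, Int.cast_one]
  let δ : Derivation ℂ_[p] (PowerSeries K) (PowerSeries K) :=
    (PowerSeries.derivative K).restrictScalars ℂ_[p]
  have hδ : ∀ x : K, δ (PowerSeries.C x * PowerSeries.X) = PowerSeries.C x := fun x => by
    change PowerSeries.derivative K _ = _
    simp
  have hC : ∀ x : K, δ (PowerSeries.C x) = 0 := fun x => PowerSeries.derivative_C
  have hΦ : ∀ i, ε (D.Φ i) = 0 := fun i => by
    obtain ⟨B, hB, hG⟩ := S.bdd (D.Φ i)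
    ext r
    have h3 : ∀ n, ‖S.tw (D.ψ n) (fun T => (ipZ T (a n) : ℂ_[p]) ^ r) (D.Φ i)‖ ≤
        (p : ℝ)⁻¹ ^ n * B := fun n => by
      refine (TW.orth (D.gp n).ch (hζ n) hB hG (fun e => ?_) r).trans ?_
      · rw [← hc n]
        exact (h n).van h0 hp (hj1 n) e i
      · rw [inv_pow]
        exact mul_le_mul_of_nonneg_right (inv_anti₀ (pow_pos (one_pos.trans one_lt_p) _)
          (pow_le_pow_right₀ one_lt_p.le ((hj n).trans (Nat.le_succ _)))) hB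
    have h4 : Tendsto (fun n : ℕ => (p : ℝ)⁻¹ ^ n * B) atTop (𝓝 0) := by
      simpa only [zero_mul] using (tendsto_pow_atTop_nhds_zero_of_lt_one
        (inv_nonneg.2 (Nat.cast_nonneg p)) (inv_lt_one_of_one_lt₀ one_lt_p)).mul_const B
    have h5 := squeeze_zero_norm h3 h4
    have h6 : Bdd fun n => S.tw (D.ψ n) (fun T => (ipZ T (a n) : ℂ_[p]) ^ r) (D.Φ i) :=
      ⟨B, fun n => (h3 n).trans (mul_le_of_le_one_left hB (pow_le_one₀
        (inv_nonneg.2 (Nat.cast_nonneg p)) (inv_le_one_of_one_le₀ one_lt_p.le)))⟩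
    rw [e1, (L.eq_iff h6 0).2 (h5.mono_left (hU.trans Nat.cofinite_eq_atTop.le)), map_zero,
      mul_zero, map_zero]
  obtain ⟨i, hi⟩ := Fintype.exists_ne_of_one_lt_card (by simp : 1 < Fintype.card Ix) l0
  have h7 := D.orc (PowerSeries K) δ ε
    (fun l => PowerSeries.C (L.lim fun n => (a n l : ℂ_[p])) * PowerSeries.X) e2
    (fun F => by simp only [hδ]; exact e3 F) hΦ ⟨l0, by rw [hδ, hA, map_one]; exact one_ne_zero⟩ 1
    (MvPolynomial.X i - MvPolynomial.C (PowerSeries.C (L.lim fun n => (a n i : ℂ_[p]))) *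
      MvPolynomial.X l0)
    (fun e => by
      have := congrArg (MvPolynomial.eval (Pi.single i (1 : PowerSeries K))) e
      simp [hi.symm] at this)
    ((MvPolynomial.totalDegree_sub _ _).trans (max_le (MvPolynomial.totalDegree_X _).le
      ((MvPolynomial.totalDegree_mul _ _).trans (by simp))))
    (fun m => by
      rw [MvPolynomial.coeff_sub, MvPolynomial.coeff_C_mul, MvPolynomial.coeff_X,
        MvPolynomial.coeff_X]
      split_ifs <;> simp [hC])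
    (by simp [hA])
  obtain ⟨B, hB, hG⟩ := S.bdd (D.pk.Ψ 1)
  have h8 := e1 (D.pk.Ψ 1) 0
  simp only [h7, map_zero, pow_zero, TW.tw_const (D.gp _).ch, one_mul, Nat.factorial_zero,
    Nat.cast_one, inv_one] at h8
  exact D.conv U 1 ((L.eq_iff ⟨B, fun n => (D.gp n).ch _ B hB hG⟩ 0).1 (by rw [← h8, map_zero]))

end Pool.Agent.E7
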