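import Pool.Agent.Lib.MP_7e5527_ag.EO.BU
import Pool.Agent.Lib.MP_7e5527_ag.EO.BG

/-! Inertia of bounded order. -/

open Filter Topology Polynomial Matrix

noncomputable section

namespace Pool.Agent.E7

variable {p : ℕ} [Fact p.Prime] {R : Type} [CommRing R] {S : TW p cone R}

theorem exists_frob (E1 : IntermediateField ℚ_[p] ℂ_[p]) [FiniteDimensional ℚ_[p] E1] :
    ∃ (σ : ℂ_[p] →+* ℂ_[p]) (f : ℕ), 0 < f ∧ Frob σ f ∧ ∀ a ∈ E1, σ a = a := bg_frob E1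

theorem ODat.bc_bound (D : ODat S) (E1 : IntermediateField ℚ_[p] ℂ_[p])
    [FiniteDimensional ℚ_[p] E1] {b : ℕ} (hb : ∀ n τ c, D.Inr E1 n τ c → c ^ p ^ b = 1)
    {σ : ℂ_[p] →+* ℂ_[p]} {f : ℕ} (hσ : Frob σ f) (hE : ∀ a ∈ E1, σ a = a) : ∃ ρ : ℝ, ρ < 1 ∧
    ∀ n w, Nr w → D.W.Sim (σ.comp (D.ψ n)) (S.twc ((D.ψ n).comp (S.fr ^ f)) w) →
      ∀ i, ‖(w i : ℂ_[p]) ^ p ^ b - 1‖ ≤ ρ := by
  obtain ⟨ρ, h1, h2⟩ := eo_unr E1
  refine ⟨max ρ (p : ℝ)⁻¹, max_lt h1 (plg_lt p).2, fun n w hw hs i => ?_⟩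
  have g0 := D.gp n
  have g1 := g0.fr b
  have g2 := g1.fr f
  have hfr := fun a (F : R) (hF : F ∈ D.W.M a) => D.tow.fr_pow b hF
  have h3 : ∀ i, ‖σ (D.E.xc ((D.ψ n).comp (S.fr ^ b)) i) -
      D.E.xc ((D.ψ n).comp (S.fr ^ b)) i ^ p ^ f‖ ≤ ρ := fun i =>
    h2 σ f hσ hE _ (D.alg n b i) (g1.xc_le i) fun τ hτ hτE => by
      obtain ⟨c, hc⟩ := D.exists_inr n hτ hτE
      have h4 := hc.sim.comp _ hfr
      rw [TW.twc_fr g0.ch hc.nr, hb n τ c hc, TW.twc_one g1.ch, RingHom.comp_assoc] at h4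
      exact congrFun ((Fr.xc_map g1.unit τ).symm.trans (h4.xc D.wE g1.unit)) i
  have h4 := hs.comp _ hfr
  rw [TW.twc_fr (g0.fr f).ch hw, RingHom.comp_assoc, RingHom.comp_assoc, ← RingHom.mul_def,
    pow_mul_comm, RingHom.mul_def, ← RingHom.comp_assoc (S.fr ^ f)] at h4
  have h5 := g2.xc_iso (hw.pow (p ^ b)) Nr.one
  rw [← h4.xc D.wE (g2.twc (hw.pow _)).unit, TW.twc_one g2.ch, Fr.xc_map g1.unit] at h5
  refine (le_of_eq (by simp [uv])).trans ((norm_le_pi_norm _ i).trans (h5.trans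
    ((pi_norm_le_iff_of_nonneg ((plg_lt p).1.le.trans (le_max_right _ _))).2 fun j => ?_)))
  rw [Pi.sub_apply, ← sub_add_sub_cancel _ (D.E.xc ((D.ψ n).comp (S.fr ^ b)) j ^ p ^ f)]
  refine (IsUltrametricDist.norm_add_le_max _ _).trans (max_le_max (h3 j) ?_)
  rw [norm_sub_rev]
  exact g1.nz_fr f 1 (D.E.int j)

theorem ODat.caseB (D : ODat S) (E1 : IntermediateField ℚ_[p] ℂ_[p]) [FiniteDimensional ℚ_[p] E1]
    {b : ℕ} (hb : ∀ n τ c, D.Inr E1 n τ c → c ^ p ^ b = 1) (U : Ultrafilter ℕ) :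
    ∃ y, Tendsto (fun n => D.x n D.i1) U (𝓝 y) := by
  classical
  obtain ⟨σ, f, hf, hσ, hE⟩ := exists_frob E1
  obtain ⟨ρ, h1, h2⟩ := D.bc_bound E1 hb hσ hE
  obtain ⟨B, hB⟩ := lg_bound p h1
  choose w hw hs using fun n => D.wE.frob (D.gp n) hσ
  obtain ⟨w0, hw0, hs0⟩ := D.wc.frob D.gc hσ
  have h3 : ∀ i, ∃ c, ‖c - 1‖ < 1 ∧ Tendsto (fun n => uv (w n) i) U (𝓝 c) := fun i => by
    obtain ⟨z, hz⟩ := conv_of_span U (Finset.univ.image (lgv p w0))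
      (z := fun n => lg p ((w n i : ℂ_[p]) ^ p ^ b)) ⟨B, fun n => hB _ (h2 n _ (hw n) (hs n) i)⟩
      fun n => by
        have h4 := congrFun (D.coc hσ n hw0 (hw n) hs0 (hs n)).1 i
        have h5 : (D.N n : ℚ_[p]) ≠ 0 := Nat.cast_ne_zero.2 (D.hN n).ne'
        rw [lg_pow (hw n i), ← nsmul_eq_mul]
        refine nsmul_mem ((Submodule.smul_mem_iff _ h5).1 ?_) _
        rw [Nat.cast_smul_eq_nsmul, nsmul_eq_mul,
          show (D.N n : ℂ_[p]) * lg p (w n i : ℂ_[p]) = _ from h4, mulVec, dotProduct]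
        refine sum_mem fun l _ => ?_
        simp only [mc, map_apply, ← zsmul_eq_mul]
        exact zsmul_mem (Submodule.subset_span (by simp)) _
    obtain ⟨c, -, h4⟩ := conv_of_lg U h1 (fun n => h2 n _ (hw n) (hs n) i) hz
    obtain ⟨y, hy⟩ := tendsto_root (X_pow_sub_C_ne_zero (pow_pos (Fact.out : p.Prime).pos b) c) U
      (x := fun n => uv (w n) i) (by simpa [uv] using tendsto_sub_nhds_zero_iff.2 h4)
    exact ⟨y, mem_ball_iff_norm.1 ((IsUltrametricDist.isClosed_ball 1 1).mem_of_tendsto hy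
      (Eventually.of_forall fun n => mem_ball_iff_norm.2 (hw n i))), hy⟩
  choose c hc1 hc2 using h3
  obtain ⟨u, hu, e⟩ := exists_nr ((pi_norm_lt_iff one_pos).2 hc1 : ‖c - 1‖ < 1)
  exact D.convB hf hσ.iso hw hs U hu (e ▸ tendsto_pi_nhds.2 hc2)

end Pool.Agent.E7
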