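import Pool.Agent.Lib.MP_7e5527_ag.EO.R2
import Pool.Agent.Lib.MP_7e5527_ag.EO.A1
import Pool.Agent.Lib.MP_7e5527_ag.EO.BCase

/-! The `p`-adic core. -/

open Filter Topology Polynomial Matrix

noncomputable section

namespace Pool.Agent.E7

variable {p : ℕ} [Fact p.Prime] {R : Type} [CommRing R] {S : TW p cone R}

theorem ocore (D : ODat S) : False := by
  have := D.fin
  obtain ⟨E1, hE, h0, hx, hp⟩ := exists_field D.E0 D.algc
  obtain ⟨σ, f, hf, hσ, hfix⟩ := exists_frob E1
  have hU : (hyperfilter ℕ : Filter ℕ) ≤ cofinite := hyperfilter_le_cofinite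
  by_cases hb : ∃ b : ℕ, ∀ n τ c, D.Inr E1 n τ c → c ^ p ^ b = 1
  · obtain ⟨b, hb⟩ := hb
    obtain ⟨y, hy⟩ := D.caseB E1 hb (hyperfilter ℕ)
    exact D.caseR hσ hf (fun i => hfix _ (hx i)) hU hy
  · push Not at hb
    choose n τ c hc hne using hb
    have hn : Tendsto n cofinite cofinite := by
      refine Filter.Tendsto.cofinite_of_finite_preimage_singleton fun m => ?_
      refine (Set.finite_le_nat (D.N m * D.Mo m)).subset fun b hb => ?_
      by_contra hlt
      have h1 := (hc b).tors hx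
      rw [show n b = m from hb] at h1
      obtain ⟨k, hk⟩ := Nat.exists_eq_add_of_le (not_le.1 hlt).le
      have h2 : p ^ b = p ^ (D.N m * D.Mo m) * p ^ k := by rw [← pow_add, ← hk]
      exact hne b (by rw [h2, pow_mul, h1, one_pow])
    obtain ⟨y, hy⟩ := (D.comp n hn).caseA (E1 := E1) h0 hp (τ := τ) (c := c)
      (fun b => ⟨(hc b).frob, (hc b).fix, (hc b).nr, (hc b).sim⟩)
      (fun b => ⟨_, (hc b).tors hx⟩) hne hU
    exact (D.comp n hn).caseR hσ hf (fun i => hfix _ (hx i)) hU hy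

end Pool.Agent.E7
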