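import Pool.Agent.Lib.MP_7e5527_ag.EO.Lv2
import Pool.Agent.Lib.MP_7e5527_ag.EO.G1

/-! Frobenius is not central. -/

open Filter Topology Polynomial Matrix

noncomputable section

namespace Pool.Agent.E7

variable {p : ℕ} [Fact p.Prime]

variable {e : ℂ_[p] ≃+* ℂ} {Z0 : HH} {χ : Fn → ℂ_[p]} {c : ℂ} {k0 N : ℕ} {S0 : Set Fn}
  {χb : CQ e →+* ℂ_[p]}

/-- A matrix in dual coordinates as an endomorphism of `J(ℚ_[p])`. -/
theorem exists_kap (α : Matrix Ix Ix ℚ_[p]) :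
    ∃ κ : Matrix Ix Ix ℚ_[p], ∀ x, κ.mulVec x = pt (α *ᵥ yc x) :=
  ⟨LinearMap.toMatrix' (latJ_ptL ∘ₗ α.mulVecLin ∘ₗ latJ_ycL), fun x =>
    LinearMap.toMatrix'_mulVec _ x⟩

theorem og2_pt {K L : Type} [Field K] [Field L] [CharZero K] [CharZero L] (φ : K →+* L)
    (y : Ix → K) : pt (fun l => φ (y l)) = fun l => φ (pt y l) := by
  funext l
  simp only [pt, Finset.sum_apply, Pi.smul_apply, smul_eq_mul, map_sum, map_mul, toR, map_ratCast]

theorem og2_cub {K L : Type} [Field K] [Field L] [CharZero K] [CharZero L] (φ : K →+* L)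
    (α : Matrix Ix Ix K) (y : Ix → K) : cub (α.map φ) (fun l => φ (y l)) = φ (cub α y) := by
  have h : α.map φ *ᵥ (fun l => φ (y l)) = fun l => φ ((α *ᵥ y) l) :=
    funext fun l => (RingHom.map_mulVec φ α y l).symm
  rw [cub, cub, h, og2_pt, og2_pt, sharp_map, tr_map]

omit [Fact p.Prime] in
theorem og2_int {j : ℕ} {B : Ix → ℚ} (h : (p : ℚ) ^ j • B ∈ Lam) :
    ∃ b : Ix → ℤ, ∀ i, (b i : ℚ) = p ^ j * yc B i := by
  choose b hb using (mem_Lam_iff' _).1 h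
  exact ⟨b, fun i => by rw [← hb i, tr_smul_right, yc, toR_rat]⟩

theorem og2_nr {j : ℕ} {ζ : ℂ_[p]ˣ} (h : ζ ^ p ^ j = 1) (b : Ix → ℤ) : Nr fun i => ζ ^ b i :=
  fun i => ppow_root_near (j := j) (by
    rw [← Units.val_pow_eq_pow_val, ← zpow_natCast, ← _root_.zpow_mul, mul_comm, _root_.zpow_mul,
      zpow_natCast, h, _root_.one_zpow, Units.val_one])

theorem cub_desc {α : Matrix Ix Ix ℚ_[p]} {t : ℂ_[p]}
    (h : ∀ y, cub (α.map (algebraMap ℚ_[p] ℂ_[p])) y = t * nrm (pt y)) :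
    ∃ t' : ℚ_[p], ∀ y, cub α y = t' * nrm (pt y) := by
  have h1 : ∀ y, algebraMap ℚ_[p] ℂ_[p] (cub α y) = t * algebraMap ℚ_[p] ℂ_[p] (nrm (pt y)) :=
    fun y => by rw [← og2_cub, h, og2_pt, nrm_map]
  have h2 := h1 (yc one3)
  have h3 : nrm (one3 : Ix → ℚ) = 1 := by
    have := stab_nrm_one3
    rw [← toR_one3, nrm_toR] at this
    exact_mod_cast this
  rw [pt_yc, ← toR_one3, nrm_toR, h3, Rat.cast_one, map_one, mul_one] at h2
  exact ⟨_, fun y => (algebraMap ℚ_[p] ℂ_[p]).injective (by rw [h1, ← h2, map_mul])⟩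

/-- A translation of `p`-power order is the twist by `ζ ^ b`, `ζ = e.symm (exp (2 π i / p ^ j))`
(`chAB_comp`, `trl_opR`, `comp_trl`). -/
theorem chAB_tors (hx : Ext e χ χb) (j : ℕ) : ∃ ζ : ℂ_[p]ˣ, ζ ^ p ^ j = 1 ∧
    ∀ (B : Ix → ℚ) (b : Ix → ℤ), (∀ i, (b i : ℚ) = p ^ j * yc B i) →
      chAB χb IsSim.one B = (TWE e).twc (chAB χb IsSim.one 0) fun i => ζ ^ b i := by
  have hp : 0 < p ^ j := pow_pos (Fact.out : p.Prime).pos j
  have h0 : (p : ℂ) ^ j ≠ 0 := by exact_mod_cast hp.ne'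
  have h0' : (p : ℚ) ^ j ≠ 0 := by exact_mod_cast hp.ne'
  obtain ⟨ζ, hζ⟩ : ∃ ζ : ℂ_[p]ˣ, (ζ : ℂ_[p]) =
      e.symm (Complex.exp (2 * Real.pi * Complex.I / (p : ℂ) ^ j)) :=
    ⟨Units.mk0 _ ((_root_.map_ne_zero _).2 (Complex.exp_ne_zero _)), rfl⟩
  have h1 : ζ ^ p ^ j = 1 := Units.ext (by
    rw [Units.val_pow_eq_pow_val, hζ, ← map_pow, ← Complex.exp_nat_mul, Nat.cast_pow,
      mul_div_cancel₀ _ h0, Complex.exp_two_pi_mul_I, map_one, Units.val_one])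
  refine ⟨ζ, h1, fun B b hb => ?_⟩
  have hB : ((p ^ j : ℕ) : ℚ) • B ∈ Lam := (mem_Lam_iff' _).2 fun i =>
    ⟨b i, by rw [hb i, tr_smul_right, yc, toR_rat, Nat.cast_pow]⟩
  rw [← chAB_comp IsSim.one 0 IsSim.one intS_one B IsSim.one (Matrix.mul_one 1).symm
    (by rw [lin_zero, zero_add])]
  refine TW.comp_trl (chAB_ch hx _ _) (trl_opR hp hB) (fun i => ?_) (og2_nr h1 b)
  have h2 : tr (TT i) B = b i / p ^ j := by
    rw [hb i, mul_div_cancel_left₀ _ h0', yc, toR_rat]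
  rw [chAB_lin hx, Units.val_zpow_eq_zpow_val, hζ, ← map_zpow₀, ← Complex.exp_int_mul]
  change e.symm (eT (TT i) (toR ℂ B)) = _
  rw [eT, tr_toR, h2]
  push_cast
  exact congrArg (fun x => e.symm (Complex.exp x)) (by ring)

/-- Let `a` be the cyclotomic unit of `s` (`exists_cyc`), `α = α0.map`, `κ` from `exists_kap` for
`a • α0`; apply `Tor` to `m * b` and `b'` with an integer `m` close to `a` (`zp_approx`,
`twc_map`). -/
theorem OrdC.nc_tor (O : OrdC e Z0 χ c k0 S0) (hx : Ext e χ χb) (hN : 0 < N) (hp : p ∣ N)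
    (s : ℂ_[p] →+* ℂ_[p]) (f : ℕ) (α : Matrix Ix Ix ℂ_[p]) (hf : 0 < f) (hs : Frob s f)
    (hα : ZpM α)
    (ht : (clN e k0 hN hp).Tor (s.comp (chAB χb IsSim.one 0)) (chAB χb IsSim.one 0) α) :
    ¬ ∃ t : ℂ_[p], ∀ y, cub α y = t * nrm (pt y) := by
  rintro ⟨t, h1⟩
  choose z hz using hα
  obtain ⟨α0, h0⟩ : ∃ α0 : Matrix Ix Ix ℚ_[p], ∀ i l, α0 i l = z i l :=
    ⟨Matrix.of fun i l => z i l, fun _ _ => rfl⟩
  obtain rfl : α = α0.map (algebraMap ℚ_[p] ℂ_[p]) := Matrix.ext fun i l => by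
    rw [hz, Matrix.map_apply, h0]
    rfl
  obtain ⟨t', h2⟩ := cub_desc h1
  obtain ⟨a, -, ha⟩ := exists_cyc s
  obtain ⟨κ, hκ⟩ := exists_kap ((a : ℚ_[p]) • α0)
  refine O.nc s f κ hf hs (fun j B B' hB hB' hT => ?_) ⟨a * t', fun x => ?_⟩
  · obtain ⟨b, hb⟩ := og2_int hB
    obtain ⟨b', hb'⟩ := og2_int hB'
    obtain ⟨ζ, hζ, h3⟩ := chAB_tors hx j
    obtain ⟨m, hm⟩ := zp_approx a j
    have h4 : s ζ = ζ ^ m :=
      ha j ζ m (by rw [← Units.val_pow_eq_pow_val, hζ, Units.val_one]) (by rwa [norm_sub_rev])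
    have hc : ∀ (B : Ix → ℚ) (b : Ix → ℤ), (∀ i, (b i : ℚ) = p ^ j * yc B i) →
        (fun i => (b i : ℚ_[p])) = (p : ℚ_[p]) ^ j • yc (toR ℚ_[p] B) := fun B b hb =>
      funext fun i => by
        rw [Pi.smul_apply, smul_eq_mul, yc, tr_toR]
        exact_mod_cast hb i
    obtain ⟨d, hd⟩ := ht j ζ (fun i => m * b i) b' hζ fun i => by
      have h5 := hT _ (TT_mem i)
      have h6 : (b' i : ℚ_[p]) - a * (α0 *ᵥ fun l => (b l : ℚ_[p])) i =
          (p : ℚ_[p]) ^ j * tr (toR ℚ_[p] (TT i)) (toR ℚ_[p] B' - κ.mulVec (toR ℚ_[p] B)) := by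
        have h7 := congrFun (yc_pt (((a : ℚ_[p]) • α0) *ᵥ yc (toR ℚ_[p] B))) i
        rw [yc] at h7
        rw [tr_sub_right, hκ, h7, congrFun (hc B' b' hb') i, hc B b hb, Matrix.mulVec_smul,
          Matrix.smul_mulVec]
        simp only [Pi.smul_apply, smul_eq_mul, yc]
        ring
      have h8 : ‖algebraMap ℚ_[p] ℂ_[p] ((b' i : ℚ_[p]) - a * (α0 *ᵥ fun l => (b l : ℚ_[p])) i)‖ ≤
          ((p : ℝ) ^ j)⁻¹ := by
        rw [norm_algebraMap', h6, norm_mul, norm_pow, Padic.norm_p, inv_pow]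
        exact mul_le_of_le_one_right (by positivity) h5
      have h9 : (b' i : ℂ_[p]) - (α0.map (algebraMap ℚ_[p] ℂ_[p]) *ᵥ
          fun l => ((m * b l : ℤ) : ℂ_[p])) i =
          algebraMap ℚ_[p] ℂ_[p] ((b' i : ℚ_[p]) - a * (α0 *ᵥ fun l => (b l : ℚ_[p])) i) +
            (UAP.zp p a - m) * UAP.zp p (∑ l, z i l * b l) := by
        have e1 : ∀ x : ℤ_[p], algebraMap ℚ_[p] ℂ_[p] x = UAP.zp p x := fun _ => rfl
        simp only [Matrix.mulVec, dotProduct, Matrix.map_apply, h0, map_sub, map_mul, map_sum,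
          map_intCast, e1, Int.cast_mul, sub_mul, Finset.mul_sum, mul_left_comm _ (m : ℂ_[p])]
        rw [Finset.sum_sub_distrib]
        ring
      rw [h9]
      refine (IsUltrametricDist.norm_add_le_max _ _).trans (max_le h8 ?_)
      rw [norm_mul, UAP.norm_zp]
      exact (mul_le_of_le_one_right (norm_nonneg _) (PadicInt.norm_le_one _)).trans hm
    have h5 : (fun i => ζ ^ (m * b i)) = umap s fun i => ζ ^ b i := funext fun i => Units.ext (by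
      change _ = s ((ζ ^ b i : ℂ_[p]ˣ) : ℂ_[p])
      rw [Units.val_zpow_eq_zpow_val, Units.val_zpow_eq_zpow_val, map_zpow₀, h4, _root_.zpow_mul])
    rw [h5, ← TW.twc_map (chAB_ch hx _ _) (og2_nr hζ b) s fun y => (hs.iso y).le, ← h3 B b hb,
      ← h3 B' b' hb'] at hd
    refine ⟨d, d.ne_zero, fun n F hF hI => ?_⟩
    have h6 := hd n ⟨F, hF.1.mem_RQ (hF.mem_GZ fun B hB => nE_mem_Gam hB)⟩
      (mem_clN.2 ⟨⟨hF.1, hF.2.mono (DD_le p N)⟩, hI⟩)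
    rwa [RingHom.comp_apply, chAB_eq hx _ _ hF.1, chAB_eq hx _ _ hF.1] at h6
  · have h3 := h2 (yc x)
    rw [cub, pt_yc] at h3
    rw [hκ, Matrix.smul_mulVec, pt_smul, tr_smul_right, h3, mul_assoc]

end Pool.Agent.E7
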