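import Pool.Agent.Lib.MP_7e5527_ag.EO.OG1
import Pool.Agent.Lib.MP_7e5527_ag.EO.OG2
import Pool.Agent.Lib.MP_7e5527_ag.EO.Core

/-! The data for the `p`-adic core. -/

open Filter Topology Polynomial Matrix

noncomputable section

namespace Pool.Agent.E7

variable {p : ℕ} [Fact p.Prime]

variable {e : ℂ_[p] ≃+* ℂ} {Z0 : HH} {χ : Fn → ℂ_[p]} {c : ℂ} {k0 N : ℕ} {S0 : Set Fn}
  {χb : CQ e →+* ℂ_[p]}

theorem OrdC.frame (O : OrdC e Z0 χ c k0 S0) {A : Matrix Ix Ix ℚ} {t : ℚ} (hA : IsSim A t)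
    (B : Ix → ℚ) : ∃ G : Option Ix → Fn, (∀ o, MI Gam k0 (G o) ∧ IntC (G o)) ∧
      ∀ o, ‖χ (opP A B (clsF p (oT o) (G o)))‖ = 1 := by
  have h : ∀ o, oT o ∈ Lam := fun o => by
    cases o
    · exact Lam.zero
    · exact TT_mem _
  choose G h1 h2 using fun o => O.red A t B hA (oT o) (h o)
  exact ⟨G, fun o => O.mem _ (h1 o), h2⟩

theorem OrdC.alg_xc (O : OrdC e Z0 χ c k0 S0) (hx : Ext e χ χb) {G : Option Ix → Fn}
    (hG : ∀ o, MI Gam k0 (G o) ∧ IntC (G o)) {A : Matrix Ix Ix ℚ} {t : ℚ} (hA : IsSim A t)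
    (B : Ix → ℚ) (i : Ix) : IsAlgebraic ℚ_[p] ((frm e G hG).xc (chAB χb hA B) i) := by
  have hp : 0 < p := (Fact.out : p.Prime).pos
  rw [frm_xc hG hx hA B i]
  have h1 := frm_int (e := e) hG (some i)
  have h2 := frm_int (e := e) hG none
  rw [frm_oe] at h1 h2
  exact O.alg_opP hA B ((hG _).1.1.clsF hp _) ((hG _).1.1.clsF hp _) h1 h2

theorem isSim_inv {n : ℕ} (h : 0 < n) :
    IsSim ((n : ℚ)⁻¹ • (1 : Matrix Ix Ix ℚ)) ((n : ℚ)⁻¹ ^ 3) :=
  isSim_scalar (inv_pos.2 (Nat.cast_pos.2 h))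

theorem IsSim.nsmul {A : Matrix Ix Ix ℚ} {t : ℚ} (hA : IsSim A t) {n : ℕ} (h : 0 < n) :
    IsSim ((n : ℚ) • A) ((n : ℚ) ^ 3 * t) := by
  have := (isSim_nat h).mul hA
  rwa [smul_mul_assoc, one_mul] at this

theorem exists_odat (X : OPts e χ (DD p N) S0) (O : OrdC e Z0 χ c k0 S0) (hx : Ext e χ χb)
    (hN : 0 < N) (hp : p ∣ N) (hD : Deep p N) : Nonempty (ODat (TWE e)) := by
  obtain ⟨r, hr, hk⟩ := O.even
  obtain ⟨Gc, hGc, uc⟩ := O.frame IsSim.one 0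
  choose n hn hZ using fun m => exists_intS (X.A m)
  choose G' hG' u' using fun m => O.frame (isSim_inv (hn m)) 0
  choose Mo hMo hB using fun m => exists_den (X.B m)
  choose N1 h1 h2 h3 using fun m => clN_deep hN hp ((X.sim m).nsmul (hn m)) (hZ m)
    (isSim_nat (hn m)) (intS_scalar (n m)) (hMo m)
  obtain ⟨i1, E0, hE, hf, hrel, ⟨pk⟩⟩ := X.pk O hx hN hD
  have hq : ∀ m, (n m : ℚ) ≠ 0 := fun m => Nat.cast_ne_zero.2 (hn m).ne'
  exact ⟨{
    M := clN e k0 hN hp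
    W := clW e k0
    tow := clW_tow e k0
    sub := clN_sub hN hp
    χ := chAB χb IsSim.one 0
    Ec := frm e Gc hGc
    gc := frm_gp hGc hx _ _ uc
    ac := ad3_N hGc hN hp hD hr hk
    bc := bdeg_N hGc hN hp hD
    wc := ad_W hGc
    algc := O.alg_xc hx _ _ _
    E := X.E O
    aE := ad3_N _ hN hp hD hr hk
    bE := bdeg_N _ hN hp hD
    wE := ad_W _
    ψ := X.ψ χb
    gp := X.gp O hx
    lin := fun m => chAB_lin hx _ _
    alg := X.alg O hx
    ψ' := fun m => chAB χb (isSim_inv (hn m)) 0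
    E' := fun m => frm e (G' m) (hG' m)
    M' := fun m => clN e k0 (h1 m) (hp.trans (h2 m))
    gp' := fun m => frm_gp _ hx _ _ (u' m)
    lin' := fun m => chAB_lin hx _ _
    a' := fun m => ad3_N _ _ _ (hD.mono (h2 m)) hr hk
    b' := fun m => bdeg_N _ _ _ (hD.mono (h2 m))
    w' := fun m => ad_W _
    alg' := fun m => O.alg_xc hx _ _ _
    N := n
    hN := hn
    g0 := fun m => opR e (isSim_nat (hn m)) (intS_scalar (n m)) 0
    isg0 := fun m => cmat_scalar (n m) ▸ isg_opR _ _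
    eq0 := fun m => (chAB_comp _ _ _ _ _ _
      (by rw [smul_mul_assoc, one_mul, smul_inv_smul₀ (hq m)]) (by rw [lin_zero, add_zero])).symm
    g := fun m => opR e ((X.sim m).nsmul (hn m)) (hZ m) 0
    Cm := fun m => cmat ((n m : ℚ) • X.A m)
    isg := fun m => isg_opR _ _
    t := fun m => opR e IsSim.one intS_one (X.B m)
    ζ := fun m => zt e (X.B m)
    Mo := Mo
    trl := fun m => trl_opR (hMo m) (hB m)
    eq1 := fun m => by
      rw [chAB_comp _ _ _ _ _ (X.sim m) (B'' := 0)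
        (by rw [smul_mul_assoc, mul_smul_comm, mul_one, smul_inv_smul₀ (hq m)])
        (by rw [lin_zero, add_zero]),
        chAB_comp _ _ _ _ _ (X.sim m) (B'' := X.B m) (one_mul _).symm
          (by rw [lin_zero, zero_add])]
    w0 := fun m => clW_opR _ _
    w1 := fun m => clW_opR _ _
    m0 := fun m a F hF => (h3 m e k0 a F hF).1
    m1 := fun m a c0 F hF => (h3 m e k0 a F hF).2 c0
    conf := fun m => conf_cmat e ((X.sim m).nsmul (hn m)) (hZ m)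
    i1 := i1
    fib := hf
    rel := hrel
    E0 := E0
    fin := hE
    pk := pk
    nc := O.nc_tor hx hN hp }⟩

theorem OrdC.finite (O : OrdC e Z0 χ c k0 S0) {h : ℂ → Ix → ℂ} (hA : Arc h) :
    ∃ S : Set (Ix → ℂ), S.Finite ∧ S ⊆ HH ∧ ∀ Z, Hecke Z0 Z →
      (∀ k F a, IsMF k F a → (∀ᶠ t in 𝓝 (0 : ℂ), F (h t) = 0) → F Z = 0) →
        ∃ Z' ∈ S, SamePt Z Z' := by
  by_contra hn
  have h1 : 1 < p := (Fact.out : p.Prime).one_lt
  obtain ⟨N, hN, hp, hD⟩ := exists_deep p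
  obtain ⟨χb, hx⟩ := exists_ext O.fc O.bd
  obtain ⟨X⟩ := O.exists_pts (DD_le p N) (DD_index h1 hN) hA hn
  exact (exists_odat X O hx hN hp hD).elim ocore

end Pool.Agent.E7
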