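import Pool.Agent.Lib.MP_7e5527_ag.EO.CSys

/-! Etale closure, the Serre-Tate lemma and descent of Frobenius. -/

open Filter Topology Polynomial Matrix

noncomputable section

namespace Pool.Agent.E7

variable {ι : Type} [Fintype ι] [DecidableEq ι] {p : ℕ} [Fact p.Prime] {C : Cone ι} {R : Type}
  [CommRing R] {S : TW p C R}

variable {M : Cl S} {E : Fr S}

variable {A : Type} [NormedCommRing A] [NormOneClass A] [NormedAlgebra ℂ_[p] A] [CompleteSpace A]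
  [IsUltrametricDist A] {ψ : R →+* A}

section aux

omit [CompleteSpace A]

/-- The unit ball of a subring. -/
def cecO (A0 : Subring A) : Subring A where
  carrier := {y | y ∈ A0 ∧ ‖y‖ ≤ 1}
  mul_mem' := fun h h' => ⟨A0.mul_mem h.1 h'.1,
    (norm_mul_le _ _).trans (mul_le_one₀ h.2 (norm_nonneg _) h'.2)⟩
  one_mem' := ⟨A0.one_mem, norm_one.le⟩
  add_mem' := fun h h' => ⟨A0.add_mem h.1 h'.1,
    (IsUltrametricDist.norm_add_le_max _ _).trans (max_le h.2 h'.2)⟩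
  zero_mem' := ⟨A0.zero_mem, by simp⟩
  neg_mem' := fun h => ⟨A0.neg_mem h.1, by simpa using h.2⟩

omit [IsUltrametricDist A] in
theorem cec_p (z : A) : ‖(p : A) * z‖ ≤ (p : ℝ)⁻¹ * ‖z‖ := by
  refine (norm_mul_le _ _).trans_eq ?_
  rw [← map_natCast (algebraMap ℂ_[p] A), norm_algebraMap', UAP.norm_p_eq]

omit [NormOneClass A] in
theorem cec_tri {x y z : A} {r : ℝ} (h : ‖x - y‖ ≤ r) (h' : ‖y - z‖ ≤ r) : ‖x - z‖ ≤ r := by
  rw [← sub_add_sub_cancel x y z]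
  exact (IsUltrametricDist.norm_add_le_max _ _).trans (max_le h h')

omit [NormOneClass A] in
theorem cec_tri' {x y z : A} {r : ℝ} (h : ‖x - y‖ < r) (h' : ‖y - z‖ < r) : ‖x - z‖ < r := by
  rw [← sub_add_sub_cancel x y z]
  exact (IsUltrametricDist.norm_add_le_max _ _).trans_lt (max_lt h h')

omit [NormOneClass A] in
theorem cec_mul {a a' b b' : A} {r : ℝ} (h : ‖a - a'‖ ≤ r) (h' : ‖b - b'‖ ≤ r) (ha : ‖a‖ ≤ 1)
    (hb : ‖b'‖ ≤ 1) : ‖a * b - a' * b'‖ ≤ r := by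
  refine cec_tri (y := a * b') ?_ ?_
  · rw [← mul_sub]
    exact (norm_mul_le _ _).trans ((mul_le_of_le_one_left (norm_nonneg _) ha).trans h')
  · rw [← sub_mul]
    exact (norm_mul_le _ _).trans ((mul_le_of_le_one_right (norm_nonneg _) hb).trans h)

theorem cec_pow_le {x : A} (hx : ‖x‖ ≤ 1) (n : ℕ) : ‖x ^ n‖ ≤ 1 :=
  ((cecO ⊤).pow_mem (x := x) ⟨trivial, hx⟩ n).2

theorem cec_pow {x y : A} {r : ℝ} (h : ‖x - y‖ ≤ r) (hx : ‖x‖ ≤ 1) (hy : ‖y‖ ≤ 1) (n : ℕ) :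
    ‖x ^ n - y ^ n‖ ≤ r := by
  induction n with
  | zero => simpa using (norm_nonneg _).trans h
  | succ n ih =>
    rw [pow_succ, pow_succ]
    exact cec_mul ih h (cec_pow_le hx n) hy

end aux

theorem norm_add_ppow {y z : A} (hy : ‖y‖ ≤ 1) (hz : ‖z‖ ≤ 1) :
    ‖(y + z) ^ p - y ^ p‖ ≤ max (‖z‖ ^ p) ((p : ℝ)⁻¹ * ‖z‖) := by
  have hy' : y ∈ cecO (⊤ : Subring A) := ⟨trivial, hy⟩
  have hz' : z ∈ cecO (⊤ : Subring A) := ⟨trivial, hz⟩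
  rw [add_pow_prime_eq Fact.out, add_assoc, add_sub_cancel_left]
  refine (IsUltrametricDist.norm_add_le_max _ _).trans (max_le_max (norm_pow_le _ _) ?_)
  rw [mul_assoc, mul_assoc, mul_left_comm y]
  refine (cec_p _).trans (mul_le_mul_of_nonneg_left ((norm_mul_le _ _).trans
    (mul_le_of_le_one_right (norm_nonneg _) ?_)) (plg_lt p).1.le)
  exact (mul_mem hy' (sum_mem fun k _ =>
    mul_mem (mul_mem (pow_mem hy' _) (pow_mem hz' _)) (natCast_mem _ _))).2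

/-- The distance to the unit ball of `A0` is at most `r`. -/
def CecN (A0 : Subring A) (r : ℝ) (x : A) : Prop := ∃ y ∈ cecO A0, ‖x - y‖ ≤ r

section near

variable {A0 : Subring A} {r r' : ℝ} {x x' : A}

omit [CompleteSpace A]

theorem CecN.mono (h : CecN A0 r x) (hr : r ≤ r') : CecN A0 r' x :=
  h.imp fun _ hy => ⟨hy.1, hy.2.trans hr⟩

theorem CecN.near (h : CecN A0 r x) (h' : ‖x' - x‖ ≤ r) : CecN A0 r x' :=
  h.imp fun _ hy => ⟨hy.1, cec_tri h' hy.2⟩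

theorem CecN.add (h : CecN A0 r x) (h' : CecN A0 r x') : CecN A0 r (x + x') := by
  obtain ⟨y, hy, h1⟩ := h
  obtain ⟨y', hy', h2⟩ := h'
  refine ⟨y + y', add_mem hy hy', ?_⟩
  rw [add_sub_add_comm]
  exact (IsUltrametricDist.norm_add_le_max _ _).trans (max_le h1 h2)

theorem CecN.sum {α : Type} (s : Finset α) {f : α → A} (hr : 0 ≤ r)
    (h : ∀ a ∈ s, CecN A0 r (f a)) : CecN A0 r (∑ a ∈ s, f a) :=
  Finset.sum_induction f (CecN A0 r) (fun _ _ => CecN.add) ⟨0, zero_mem _, by simpa using hr⟩ h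

theorem CecN.mul (h : CecN A0 r x) {c : A} (hc : c ∈ cecO A0) : CecN A0 r (c * x) := by
  obtain ⟨y, hy, h1⟩ := h
  refine ⟨c * y, mul_mem hc hy, ?_⟩
  rw [← mul_sub]
  exact (norm_mul_le _ _).trans ((mul_le_of_le_one_left (norm_nonneg _) hc.2).trans h1)

theorem CecN.pmul (h : CecN A0 r x) : CecN A0 ((p : ℝ)⁻¹ * r) (p * x) := by
  obtain ⟨y, hy, h1⟩ := h
  refine ⟨p * y, mul_mem (natCast_mem _ _) hy, ?_⟩
  rw [← mul_sub]
  exact (cec_p _).trans (mul_le_mul_of_nonneg_left h1 (plg_lt p).1.le)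

end near

theorem CecN.pow {A0 : Subring A} {r θ : ℝ} {x : A} (h : CecN A0 r x) (hr : r ≤ θ)
    (h0 : (p : ℝ)⁻¹ ≤ θ) (h1 : θ ≤ 1) : CecN A0 (θ * r) (x ^ p) := by
  obtain ⟨y, hy, h2⟩ := h
  have h3 := norm_add_ppow (p := p) hy.2 (h2.trans (hr.trans h1))
  have h4 : 0 ≤ θ := (plg_lt p).1.le.trans h0
  rw [add_sub_cancel] at h3
  refine ⟨y ^ p, pow_mem hy p, h3.trans (max_le ?_ (mul_le_mul h0 h2 (norm_nonneg _) h4))⟩
  refine (pow_le_pow_of_le_one (norm_nonneg _) (h2.trans (hr.trans h1))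
    (Fact.out : p.Prime).two_le).trans ?_
  rw [sq]
  exact mul_le_mul (h2.trans hr) h2 (norm_nonneg _) h4

/-- Let `δ` be the distance to the unit ball of `A0`. On the finite system the maximum `ρ < 1`
satisfies `ρ ≤ max (ρ ^ p) p⁻¹`, so `δ ≤ p⁻¹` everywhere; by `Ad.recur` the supremum `d` satisfies
`d ≤ max (d ^ p) (d / p)`. -/
theorem Ad.ec (h : Ad M E) (hψ : E.Gp ψ) (A0 : Subring A) (hc : IsClosed (A0 : Set A))
    (hx : ∀ i, Ring.inverse (E.xc ψ i) ∈ A0)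
    (hn : ∀ a, ∀ F ∈ M.M a, ∃ y ∈ A0, ‖E.nz ψ a F - y‖ < 1) {a : ℕ} {F : R} (hF : F ∈ M.M a) :
    E.nz ψ a F ∈ A0 := by
  obtain ⟨hp0, hp1⟩ := plg_lt p
  have hm : ∀ m : ι → Fin p, ∏ i, Ring.inverse (E.xc ψ i) ^ (m i : ℕ) ∈ cecO A0 := fun m =>
    prod_mem fun i _ => (cecO A0).pow_mem ⟨hx i, (hψ.xc_isU i).inv_le⟩ _
  have h1 : ∀ a, ∀ F ∈ M.M a, ∃ r < 1, CecN A0 r (E.nz ψ a F) := fun a F hF => by
    obtain ⟨y, hy, h2⟩ := hn a F hF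
    refine ⟨_, h2, y, ⟨hy, ?_⟩, le_rfl⟩
    have h3 := cec_tri (x := y) (z := 0) (norm_sub_rev y _ ▸ h2.le)
      (by simpa using hψ.nz_le a zero_le_one (M.int a F hF).bd)
    rwa [sub_zero] at h3
  have h2 : ∀ a, ∀ F ∈ M.M a, CecN A0 (p : ℝ)⁻¹ (E.nz ψ a F) := fun a F hF => by
    obtain ⟨τ, _, b, G, s0, nx, hG, h3, h4⟩ := h.sys_norm hψ hF
    choose r hr hr' using fun s => h1 _ _ (hG s)
    obtain ⟨s1, -, hs1⟩ := Finset.exists_max_image Finset.univ r ⟨s0, Finset.mem_univ _⟩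
    obtain ⟨θ, h5, h6, h7⟩ : ∃ θ : ℝ, (p : ℝ)⁻¹ ≤ θ ∧ θ < 1 ∧ ∀ s, r s ≤ θ :=
      ⟨max (r s1) (p : ℝ)⁻¹, le_max_right _ _, max_lt (hr s1) hp1,
        fun s => (hs1 s (Finset.mem_univ s)).trans (le_max_left _ _)⟩
    have h8 : 0 ≤ θ := hp0.le.trans h5
    have h9 : ∀ k : ℕ, ∀ s, CecN A0 (max (θ ^ (k + 1)) (p : ℝ)⁻¹) (E.nz ψ (b s) (G s)) := by
      intro k
      induction k with
      | zero => exact fun s => (hr' s).mono ((h7 s).trans (by simp))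
      | succ k ih =>
        refine fun s => CecN.near (CecN.sum _ (hp0.le.trans (le_max_right _ _)) fun m _ =>
          (((ih _).pow (max_le (pow_le_of_le_one h8 h6.le k.succ_ne_zero) h5) h5 h6.le).mono
            ?_).mul (hm m)) ((h4 s).trans (le_max_right _ _))
        rw [mul_max_of_nonneg _ _ h8, ← pow_succ']
        exact max_le_max le_rfl (mul_le_of_le_one_left hp0.le h6.le)
    obtain ⟨k, hk⟩ := exists_pow_lt_of_lt_one hp0 h6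
    exact ((h9 k s0).mono (max_le ((pow_le_pow_of_le_one h8 h6.le k.le_succ).trans hk.le)
      le_rfl)).near h3
  have h3 : ∀ k : ℕ, ∀ a, ∀ F ∈ M.M a, CecN A0 ((p : ℝ)⁻¹ ^ (k + 1)) (E.nz ψ a F) := by
    intro k
    induction k with
    | zero => simpa using h2
    | succ k ih =>
      intro a F hF
      obtain ⟨G, hG, h4⟩ := h.recur hF
      rw [h4 A ψ hψ.unit fun i => (hψ.un.2 i).isUnit, pow_succ']
      exact CecN.sum _ (by positivity) fun m _ => (((ih _ _ (h.car_mem hF m)).pow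
        (pow_le_of_le_one hp0.le hp1.le k.succ_ne_zero) le_rfl hp1.le).add
          (ih _ _ (hG m)).pmul).mul (hm m)
  refine hc.closure_subset (Metric.mem_closure_iff.2 fun ε hε => ?_)
  obtain ⟨k, hk⟩ := exists_pow_lt_of_lt_one hε hp1
  obtain ⟨y, hy, h4⟩ := h3 k a F hF
  exact ⟨y, hy.1, (dist_eq_norm _ _).trans_lt
    (h4.trans_lt ((pow_le_pow_of_le_one hp0.le hp1.le k.le_succ).trans_lt hk))⟩

theorem cec_isU_prod {A : Type} [NormedCommRing A] {a b : A} (ha : IsU a) (hb : IsU b) :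
    IsU (a, b) := by
  obtain ⟨a', h1, h2⟩ := ha
  obtain ⟨b', h3, h4⟩ := hb
  exact ⟨(a', b'), Prod.ext h1 h3, max_le h2 h4⟩

/-- Apply `Ad.ec` in `A × A` with the diagonal. -/
theorem Ad.sim_of_xc (h : Ad M E) {ψ1 ψ2 : R →+* A} (h1 : E.Gp ψ1) (h2 : E.Gp ψ2)
    (hx : E.xc ψ1 = E.xc ψ2) (hc : M.Cgr E ψ1 ψ2) : M.Sim ψ1 ψ2 := by
  have : IsUltrametricDist (A × A) := ⟨fun x y z => max_le
    ((dist_triangle_max x.1 y.1 z.1).trans (max_le_max (le_max_left _ _) (le_max_left _ _)))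
    ((dist_triangle_max x.2 y.2 z.2).trans (max_le_max (le_max_right _ _) (le_max_right _ _)))⟩
  have h3 : E.Gp (ψ1.prod ψ2) := ⟨fun F B hB hF => max_le (h1.ch F B hB hF) (h2.ch F B hB hF),
    cec_isU_prod h1.un.1 h2.un.1, fun i => cec_isU_prod (h1.un.2 i) (h2.un.2 i)⟩
  have h4 : ∀ a F, E.nz (ψ1.prod ψ2) a F = (E.nz ψ1 a F, E.nz ψ2 a F) := fun a F =>
    Prod.ext (Fr.nz_map h3.unit (RingHom.fst A A) a F).symm
      (Fr.nz_map h3.unit (RingHom.snd A A) a F).symm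
  refine Cl.sim_of_nz h1.unit h2.unit fun a F hF => ?_
  have h5 := h.ec h3 ((RingHom.fst A A).eqLocus (RingHom.snd A A))
    (isClosed_eq continuous_fst continuous_snd) (fun i => ?_) (fun a F hF => ?_) hF
  · rwa [h4] at h5
  · have h6 := Ring.inverse_mul_cancel _ (h3.xc_isU i).isUnit
    have h7 : E.xc (ψ1.prod ψ2) i = (E.xc ψ2 i, E.xc ψ2 i) := by
      rw [Fr.xc, h4, ← congrFun hx i]
      exact Prod.ext rfl (congrFun hx i).symm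
    generalize Ring.inverse (E.xc (ψ1.prod ψ2) i) = w at h6 ⊢
    rw [h7] at h6
    exact (h2.xc_isU i).isUnit.mul_right_cancel
      ((congrArg Prod.fst h6).trans (congrArg Prod.snd h6).symm)
  · refine ⟨(E.nz ψ2 a F, E.nz ψ2 a F), rfl, ?_⟩
    rw [h4, Prod.mk_sub_mk, sub_self, Prod.norm_def]
    exact max_lt (hc a F hF) (by simp)

theorem Cl.cgr_twc (hψ : E.Gp ψ) {u : ι → Aˣ} (hu : Nr u) : M.Cgr E (S.twc ψ u) ψ := by
  intro a F hF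
  have h1 := hψ.nz_twc hu Nr.one a zero_le_one (M.int a F hF).bd
  rw [TW.twc_one hψ.ch, mul_one] at h1
  exact h1.trans_lt (nr_iff.1 hu)

theorem Cl.Cgr.symm {ψ1 ψ2 : R →+* A} (h : M.Cgr E ψ1 ψ2) : M.Cgr E ψ2 ψ1 :=
  fun a F hF => (norm_sub_rev _ _).trans_lt (h a F hF)

theorem Cl.Cgr.trans {ψ1 ψ2 ψ3 : R →+* A} (h : M.Cgr E ψ1 ψ2) (h' : M.Cgr E ψ2 ψ3) :
    M.Cgr E ψ1 ψ3 :=
  fun a F hF => cec_tri' (h a F hF) (h' a F hF)

theorem Ad.cgr_of_sim (h : Ad M E) {ψ1 ψ2 : R →+* A} (h2 : E.Gp ψ2) (hs : M.Sim ψ1 ψ2) :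
    M.Cgr E ψ1 ψ2 := fun a F hF => by
  rw [hs.nz h.e0 h2.unit hF, sub_self, norm_zero]
  exact one_pos

theorem Ad.st (h : Ad M E) {ψ1 ψ2 : R →+* A} (h1 : E.Gp ψ1) (h2 : E.Gp ψ2)
    (hc : M.Cgr E ψ1 ψ2) : ∃ u, Nr u ∧ M.Sim ψ1 (S.twc ψ2 u) := by
  obtain ⟨u, hu, h3⟩ := h2.xc_surj (y := E.xc ψ1)
    ((pi_norm_lt_iff one_pos).2 fun i => hc 1 _ (h.e i))
  exact ⟨u, hu, h.sim_of_xc h1 (h2.twc hu) h3.symm (hc.trans (Cl.cgr_twc h2 hu).symm)⟩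

theorem Ad.twc_inj (h : Ad M E) (hψ : E.Gp ψ) {u v : ι → Aˣ} (hu : Nr u) (hv : Nr v)
    (hs : M.Sim (S.twc ψ u) (S.twc ψ v)) : u = v :=
  hψ.xc_inj hu hv (hs.xc h (hψ.twc hv).unit)

omit [CompleteSpace A] [IsUltrametricDist A] [NormOneClass A] [NormedAlgebra ℂ_[p] A] in
theorem cec_fr (hψ : S.Ch ψ) (f : ℕ) {F : R} (hF : S.Zi F) :
    ‖ψ ((S.fr ^ f) F) - ψ F ^ p ^ f‖ ≤ (p : ℝ)⁻¹ := by
  rw [← map_pow, ← map_sub]
  exact hψ _ _ (plg_lt p).1.le (TW.fr_pow_sub_pow hF f).bd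

theorem cec_isU_pow {a : A} (ha : IsU a) (n : ℕ) : IsU (a ^ n) := by
  induction n with
  | zero => exact ⟨1, by simp, norm_one.le⟩
  | succ n ih => exact pow_succ a n ▸ ih.mul ha

theorem Fr.Gp.fr (hψ : E.Gp ψ) (f : ℕ) : E.Gp (ψ.comp (S.fr ^ f)) :=
  ⟨hψ.ch.isg (TW.isg_fr_pow f),
    (cec_isU_pow hψ.un.1 _).near ((cec_fr hψ.ch f E.int0).trans_lt (plg_lt p).2), fun i =>
    (cec_isU_pow (hψ.un.2 i) _).near ((cec_fr hψ.ch f (E.int i)).trans_lt (plg_lt p).2)⟩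

theorem Fr.Gp.nz_fr (hψ : E.Gp ψ) (f a : ℕ) {F : R} (hF : S.Zi F) :
    ‖E.nz (ψ.comp (S.fr ^ f)) a F - E.nz ψ a F ^ p ^ f‖ ≤ (p : ℝ)⁻¹ := by
  have h1 := (hψ.fr f).un.1
  have h2 := cec_isU_pow hψ.un.1 (p ^ f)
  rw [Fr.nz, Fr.nz, mul_pow, ← pow_mul, mul_comm a, pow_mul, Ring.inverse_pow (ψ E.e0)]
  exact cec_mul (cec_fr hψ.ch f hF)
    (cec_pow ((h1.inv_sub h2).trans (cec_fr hψ.ch f E.int0)) h1.inv_le h2.inv_le a)
    ((hψ.fr f).ch F 1 zero_le_one hF.bd) (cec_pow_le h2.inv_le a)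

theorem cec_desc (h : Ad M E) {ψ1 ψ2 : R →+* A} (h1 : E.Gp ψ1) (h2 : E.Gp ψ2) (hs : M.Sim ψ1 ψ2) :
    M.Sim (ψ1.comp (S.fr ^ 1)) (ψ2.comp (S.fr ^ 1)) := by
  refine h.sim_of_xc (h1.fr 1) (h2.fr 1) (funext fun i => ?_) fun a F hF => ?_
  · obtain ⟨c, hc⟩ := hs
    simp only [Fr.xc, Fr.nz, pow_one, RingHom.comp_apply, hc 1 _ h.fr0, hc 1 _ (h.fre i)]
    rw [Ring.mul_inverse_rev, mul_comm (c : A), mul_assoc, mul_left_comm (c : A),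
      Ring.mul_inverse_cancel _ c.isUnit, mul_one]
  · have h3 := h1.nz_fr 1 a (M.int a F hF)
    rw [hs.nz h.e0 h2.unit hF] at h3
    exact (cec_tri h3 ((norm_sub_rev _ _).trans_le (h2.nz_fr 1 a (M.int a F hF)))).trans_lt
      (plg_lt p).2

theorem Ad.desc (h : Ad M E) {ψ1 ψ2 : R →+* A} (h1 : E.Gp ψ1) (h2 : E.Gp ψ2) (hs : M.Sim ψ1 ψ2)
    (f : ℕ) : M.Sim (ψ1.comp (S.fr ^ f)) (ψ2.comp (S.fr ^ f)) := by
  induction f with
  | zero => exact hs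
  | succ f ih =>
    rw [pow_add]
    exact cec_desc h (h1.fr f) (h2.fr f) ih

theorem Ad.frob (h : Ad M E) {ψ : R →+* ℂ_[p]} (hψ : E.Gp ψ) {σ : ℂ_[p] →+* ℂ_[p]} {f : ℕ}
    (hσ : Frob σ f) : ∃ w, Nr w ∧ M.Sim (σ.comp ψ) (S.twc (ψ.comp (S.fr ^ f)) w) := by
  refine h.st (hψ.map σ fun a => (hσ.iso a).le) (hψ.fr f) fun a F hF => ?_
  rw [Fr.nz_map hψ.unit]
  exact cec_tri' (hσ.res _ (hψ.nz_le a zero_le_one (M.int a F hF).bd))
    (((norm_sub_rev _ _).trans_le (hψ.nz_fr f a (M.int a F hF))).trans_lt (plg_lt p).2)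

end Pool.Agent.E7
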