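import Pool.Agent.Lib.MP_7e5527_ag.EO.CEC

/-! The number of sheets over a point is bounded. -/

open Filter Topology Polynomial Matrix

noncomputable section

namespace Pool.Agent.E7

variable {ι : Type} [Fintype ι] [DecidableEq ι] {p : ℕ} [Fact p.Prime] {C : Cone ι} {R : Type}
  [CommRing R] {S : TW p C R}

variable {M : Cl S} {E : Fr S}

/-- A graded family with relations of bounded degree over the frame. -/
structure Fr.Kl (E : Fr S) {k : Type} [CommRing k] (k0 : k →+* R) (𝓚 : ℕ → Set R) (D0 : ℕ) :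
    Prop where
  cst : ∀ c, ∃ c', k0 c = S.cst c'
  zero : ∀ a, (0 : R) ∈ 𝓚 a
  add : ∀ a, ∀ F ∈ 𝓚 a, ∀ G ∈ 𝓚 a, F + G ∈ 𝓚 a
  e0 : ∀ a, ∀ F ∈ 𝓚 a, F * E.e0 ∈ 𝓚 (a + 1)
  int : ∀ a (n : ℤ), ∀ F ∈ 𝓚 a, (n : R) * F ∈ 𝓚 a
  rel : ∀ a, ∀ F ∈ 𝓚 a, ∃ P, E.Rl k0 a F P ∧ P.natDegree ≤ D0

theorem sh_hom {σ K : Type} [Fintype σ] [CommRing K] {P : MvPolynomial σ K} {m : ℕ}
    (hP : P.IsHomogeneous m) (t : K) (y : σ → K) :
    MvPolynomial.eval (fun o => t * y o) P = t ^ m * MvPolynomial.eval y P := by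
  rw [MvPolynomial.eval_eq, MvPolynomial.eval_eq, Finset.mul_sum]
  refine Finset.sum_congr rfl fun d hd => ?_
  simp only [mul_pow, Finset.prod_mul_distrib, Finset.prod_pow_eq_pow_sum,
    hP.degree_eq_sum_deg_support hd, mul_left_comm]

theorem sh_avoid {τ K : Type} [Field K] [CharZero K] (T : Finset τ) (α β : τ → K)
    (h : ∀ q ∈ T, α q ≠ 0 ∨ β q ≠ 0) : ∃ n : ℤ, ∀ q ∈ T, α q + n * β q ≠ 0 := by
  obtain ⟨n, hn⟩ := (T.finite_toSet.biUnion (t := fun q => {n : ℤ | α q + n * β q = 0})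
    fun q hq => Set.Subsingleton.finite fun n h1 m h2 => by
      have h3 : β q ≠ 0 := fun e => (h q hq).elim (fun h4 => h4 (by simpa [e] using h1)) (· e)
      exact Int.cast_injective (mul_right_cancel₀ h3 (add_left_cancel (h1.trans h2.symm)))
    ).exists_notMem
  exact ⟨n, fun q hq e => hn (Set.mem_biUnion hq e)⟩

/-- A non zero homogeneous polynomial does not vanish at all points `(1, x')` near `(1, x)`. -/
theorem exists_near_ne {Q : MvPolynomial (Option ι) ℂ_[p]} {d : ℕ} (h0 : Q ≠ 0)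
    (hQ : Q.IsHomogeneous d) (x : ι → ℂ_[p]) {δ : ℝ} (hδ : 0 < δ) :
    ∃ x' : ι → ℂ_[p], ‖x' - x‖ ≤ δ ∧ MvPolynomial.eval (fun o => o.elim 1 x') Q ≠ 0 := by
  by_contra hn
  push Not at hn
  have e : ∀ y : ι → ℂ_[p], MvPolynomial.eval y (MvPolynomial.aeval
      (fun o : Option ι => o.elim 1 MvPolynomial.X) Q) =
      MvPolynomial.eval (fun o => o.elim 1 y) Q := fun y => by
    rw [← MvPolynomial.aeval_eq_eval, MvPolynomial.comp_aeval_apply, MvPolynomial.aeval_eq_eval]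
    exact congrArg (MvPolynomial.eval · Q) (funext fun o => by cases o <;> simp)
  have h1 := MvPolynomial.funext_set (fun i => Metric.closedBall (x i) δ)
    (fun i => infinite_of_mem_nhds _ (Metric.closedBall_mem_nhds _ hδ)) (q := 0) fun y hy => by
      rw [e, map_zero]
      exact hn y ((pi_norm_le_iff_of_nonneg hδ.le).2 fun i => mem_closedBall_iff_norm.1 (hy i trivial))
  refine h0 (MvPolynomial.funext_set (fun _ => {0}ᶜ)
    (fun _ => (Set.finite_singleton _).infinite_compl) fun y hy => ?_)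
  have h2 : y none ≠ 0 := hy none trivial
  have h3 : y = fun o => y none * o.elim 1 fun i => y (some i) / y none := funext fun o => by
    cases o
    · simp
    · simp [mul_div_cancel₀ _ h2]
  rw [h3, sh_hom hQ, ← e, h1, map_zero, map_zero, mul_zero]

/-- One member of the family separates all pairs: raise the weights with `e0`, add integral
multiples one at a time. -/
theorem Fr.Kl.sep {k : Type} [CommRing k] {k0 : k →+* R} {𝓚 : ℕ → Set R} {D0 : ℕ}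
    (h : E.Kl k0 𝓚 D0) {τ : Type} [Fintype τ] {ψ : τ → R →+* ℂ_[p]} (hψ : ∀ r, ψ r E.e0 ≠ 0)
    (hne : ∀ r r', r ≠ r' → ∃ a, ∃ F ∈ 𝓚 a, E.nz (ψ r) a F ≠ E.nz (ψ r') a F) :
    ∃ a, ∃ F ∈ 𝓚 a, Function.Injective fun r => E.nz (ψ r) a F := by
  classical
  have hpow : ∀ n a, ∀ F ∈ 𝓚 a, F * E.e0 ^ n ∈ 𝓚 (a + n) := fun n a F hF => by
    induction n with
    | zero => simpa using hF
    | succ n ih => simpa only [pow_succ, mul_assoc, add_assoc] using h.e0 _ _ ih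
  have key : ∀ T : Finset (τ × τ), (∀ q ∈ T, q.1 ≠ q.2) →
      ∃ a, ∃ F ∈ 𝓚 a, ∀ q ∈ T, E.nz (ψ q.1) a F ≠ E.nz (ψ q.2) a F := fun T hT => by
    induction T using Finset.induction_on with
    | empty => exact ⟨0, 0, h.zero 0, by simp⟩
    | insert q T _ ih =>
      obtain ⟨a, F, hF, h1⟩ := ih fun r hr => hT r (Finset.mem_insert_of_mem hr)
      obtain ⟨b, G, hG, h2⟩ := hne _ _ (hT q (Finset.mem_insert_self _ _))
      obtain ⟨n, hn⟩ := sh_avoid (insert q T) (fun r => E.nz (ψ r.1) a F - E.nz (ψ r.2) a F)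
        (fun r => E.nz (ψ r.1) b G - E.nz (ψ r.2) b G) fun r hr =>
          (Finset.mem_insert.1 hr).elim (fun e => .inr (e ▸ sub_ne_zero.2 h2))
            fun hr => .inl (sub_ne_zero.2 (h1 r hr))
      have e : ∀ r, E.nz (ψ r) (a + b) (F * E.e0 ^ b + n * (G * E.e0 ^ a)) =
          E.nz (ψ r) a F + n * E.nz (ψ r) b G := fun r => by
        rw [← Fr.nz_e0 (hψ r).isUnit a b F, ← Fr.nz_e0 (hψ r).isUnit b a G, add_comm b a]
        simp only [Fr.nz, map_add, map_mul (ψ r) (n : R), map_intCast, add_mul, mul_assoc]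
      refine ⟨a + b, _, h.add _ _ (hpow b a F hF) _ (h.int _ n _ (add_comm b a ▸ hpow a b G hG)),
        fun r hr e' => hn r hr ?_⟩
      rw [e, e] at e'
      linear_combination e'
  obtain ⟨a, F, hF, h1⟩ := key Finset.univ.offDiag fun q hq => (Finset.mem_offDiag.1 hq).2.2
  exact ⟨a, F, hF, fun r r' e => by_contra fun h2 => h1 (r, r') (by simpa using h2) e⟩

/-- Move `x` to a nearby point where the relation of a separating `F` does not vanish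
(`xc_surj`, `xc_iso`, `nz_twc`, `twc_cst`, `Rl.nz`); the values stay distinct roots. -/
theorem Fr.Kl.sheets {k : Type} [CommRing k] {k0 : k →+* R} {𝓚 : ℕ → Set R} {D0 : ℕ}
    (h : E.Kl k0 𝓚 D0) {j0 : k →+* ℂ_[p]} (hj : Function.Injective j0)
    {ψ : Fin (D0 + 1) → R →+* ℂ_[p]} (hψ : ∀ r, E.Gp (ψ r)) (hk : ∀ r c, ψ r (k0 c) = j0 c)
    {x : ι → ℂ_[p]} (hx : ∀ r, E.xc (ψ r) = x) :
    ∃ r r', r ≠ r' ∧ ∀ a, ∀ F ∈ 𝓚 a, E.nz (ψ r) a F = E.nz (ψ r') a F := by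
  by_contra hn
  push Not at hn
  obtain ⟨a, F, hF, hi⟩ := h.sep (fun r => (hψ r).unit.ne_zero) hn
  obtain ⟨P, hP, hd⟩ := h.rel a F hF
  obtain ⟨B, hB, hFB⟩ := S.bdd F
  obtain ⟨L, hL⟩ := hP.2.1
  have hl := leadingCoeff_ne_zero.2 hP.1
  obtain ⟨d, -, hQ⟩ := hL _ hl
  have t0 : Tendsto (fun δ : ℝ => δ * B + δ * B) (𝓝[>] 0) (𝓝 0) := by
    have : Continuous fun δ : ℝ => δ * B + δ * B := by fun_prop
    simpa using (this.tendsto 0).mono_left (nhdsWithin_le_nhds (s := Set.Ioi 0))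
  obtain ⟨δ, h1, h2⟩ := ((eventually_all.2 fun q : {q : Fin (D0 + 1) × Fin (D0 + 1) // q.1 ≠ q.2} =>
    t0.eventually_lt_const (norm_sub_pos_iff.2 (hi.ne q.2))).and
    (Ioo_mem_nhdsGT (zero_lt_one' ℝ))).exists
  obtain ⟨x', hx', h3⟩ := exists_near_ne
    ((map_ne_zero_iff _ (MvPolynomial.map_injective j0 hj)).2 hl) (hQ.map j0) x h2.1
  choose u hu hxu using fun r => (hψ r).xc_surj (y := x') (by rw [hx]; exact hx'.trans_lt h2.2)
  have h4 : ∀ r, ‖E.nz (S.twc (ψ r) (u r)) a F - E.nz (ψ r) a F‖ ≤ δ * B := fun r => by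
    have h5 := (hψ r).nz_twc (hu r) Nr.one a hB hFB
    have h6 := (hψ r).xc_iso (hu r) Nr.one
    rw [TW.twc_one (hψ r).ch] at h5 h6
    rw [hxu, hx] at h6
    exact h5.trans (mul_le_mul_of_nonneg_right (h6.trans hx') hB)
  have h5 : Function.Injective fun r => E.nz (S.twc (ψ r) (u r)) a F := fun r r' e =>
    by_contra fun hr => (h1 ⟨(r, r'), hr⟩).not_ge
      ((norm_sub_le_norm_sub_add_norm_sub _ _ _).trans
        (add_le_add ((norm_sub_rev _ _).le.trans (h4 r)) ((congrArg (‖· - _‖) e).le.trans (h4 r'))))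
  have h6 : P.map (MvPolynomial.eval₂Hom j0 fun o => o.elim 1 x') ≠ 0 := fun e => h3 (by
    have h7 := congrArg (coeff · P.natDegree) e
    simpa [MvPolynomial.eval_map] using h7)
  have h7 := card_le_degree_of_subset_roots (Z := Finset.univ.map ⟨_, h5⟩) fun z hz => by
    obtain ⟨r, -, rfl⟩ := Finset.mem_map.1 (Finset.mem_def.2 hz)
    have h8 := Fr.Rl.nz ((hψ r).twc (hu r)).unit hP
    have h9 : (S.twc (ψ r) (u r)).comp k0 = j0 := RingHom.ext fun c => by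
      obtain ⟨c', e⟩ := h.cst c
      rw [← hk r, RingHom.comp_apply, e, TW.twc_cst (hψ r).ch (hu r)]
    rw [h9, hxu] at h8
    exact (mem_roots h6).2 ((eval_map _ _).trans h8)
  have h8 := (h7.trans natDegree_map_le).trans hd
  simp at h8

theorem Fr.Kl.fib {k : Type} [CommRing k] {k0 : k →+* R} {𝓚 : ℕ → Set R} {D0 : ℕ}
    (h : E.Kl k0 𝓚 D0) {j0 : k →+* ℂ_[p]} (hj : Function.Injective j0)
    {ψ : ℕ → R →+* ℂ_[p]} (hψ : ∀ n, E.Gp (ψ n)) (hk : ∀ n c, ψ n (k0 c) = j0 c)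
    (hne : ∀ n m, n ≠ m → ∃ a, ∃ F ∈ 𝓚 a, E.nz (ψ n) a F ≠ E.nz (ψ m) a F) (x : ι → ℂ_[p]) :
    {n | E.xc (ψ n) = x}.Finite := by
  by_contra hn
  let e := Set.Infinite.natEmbedding _ hn
  obtain ⟨r, r', h1, h2⟩ := h.sheets hj (ψ := fun r => ψ (e r)) (fun _ => hψ _) (fun _ => hk _)
    fun r => (e r).2
  obtain ⟨a, F, hF, h3⟩ := hne (e r) (e r') fun h3 => h1 (Fin.ext (e.injective (Subtype.ext h3)))
  exact h3 (h2 a F hF)

theorem BDeg.sheets (hb : BDeg M E) (hA : Ad M E) : ∃ D0 : ℕ,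
    ∀ (ψ : Fin (D0 + 1) → R →+* ℂ_[p]) (x : ι → ℂ_[p]), (∀ r, E.Gp (ψ r)) →
      (∀ r, E.xc (ψ r) = x) → ∃ r r', r ≠ r' ∧ M.Sim (ψ r) (ψ r') := by
  obtain ⟨D0, hD⟩ := hb
  have h : E.Kl (Int.castRingHom R) M.M D0 := ⟨fun c => ⟨c, (map_intCast S.cst c).symm⟩, M.zero,
    M.add, fun a F hF => M.mul a 1 F hF _ hA.e0, fun _ n _ hF => M.zsmul hF n, hD⟩
  refine ⟨D0, fun ψ x hψ hx => ?_⟩
  obtain ⟨r, r', h1, h2⟩ := h.sheets (Int.castRingHom ℂ_[p]).injective_int hψ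
    (fun r c => map_intCast (ψ r) c) hx
  exact ⟨r, r', h1, Cl.sim_of_nz (hψ r).unit (hψ r').unit h2⟩

theorem Cl.Sim.pow {B : Type} [CommRing B] {ψ : R →+* B} {s : B →+* B} (h : M.Sim (s.comp ψ) ψ)
    (k : ℕ) : M.Sim ((s ^ k).comp ψ) ψ := by
  induction k with
  | zero => exact Cl.Sim.refl ψ
  | succ k ih => exact pow_succ s k ▸ (h.map (s ^ k)).trans ih

/-- `sheets` for the characters `(s ^ r).comp ψ`, `Sim.of_map`. -/
theorem BDeg.period (hb : BDeg M E) (hA : Ad M E) {ψ : R →+* ℂ_[p]} (hψ : E.Gp ψ)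
    {s : ℂ_[p] →+* ℂ_[p]} (hs : UAP.Iso s) (hx : ∀ i, s (E.xc ψ i) = E.xc ψ i) :
    ∃ r : ℕ, 0 < r ∧ M.Sim ((s ^ r).comp ψ) ψ := by
  obtain ⟨D0, hD⟩ := hb.sheets hA
  have h1 : ∀ r : ℕ, (∀ a, ‖(s ^ r) a‖ ≤ ‖a‖) ∧ ∀ i, (s ^ r) (E.xc ψ i) = E.xc ψ i := fun r => by
    induction r with
    | zero => exact ⟨fun _ => le_rfl, fun _ => rfl⟩
    | succ r ih =>
      rw [pow_succ]
      exact ⟨fun a => (ih.1 _).trans (hs a).le, fun i => (congrArg _ (hx i)).trans (ih.2 i)⟩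
  have key : ∀ a b : ℕ, a < b → M.Sim ((s ^ b).comp ψ) ((s ^ a).comp ψ) →
      ∃ r : ℕ, 0 < r ∧ M.Sim ((s ^ r).comp ψ) ψ := fun a b hab h => by
    obtain ⟨k, rfl⟩ := Nat.exists_eq_add_of_le hab.le
    rw [pow_add] at h
    exact ⟨k, by omega, Cl.Sim.of_map (s ^ a) hA.e0 hψ.unit.ne_zero h⟩
  obtain ⟨r, r', h2, h3⟩ := hD (fun r => (s ^ r.val).comp ψ) (E.xc ψ)
    (fun r => hψ.map _ (h1 r).1) fun r => (Fr.xc_map hψ.unit _).trans (funext (h1 r).2)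
  rcases lt_or_gt_of_ne h2 with h4 | h4
  exacts [key _ _ h4 h3.symm, key _ _ h4 h3]

/-- Otherwise there are `D0 + 1` pairwise non congruent members; twist them to `x`. -/
theorem BDeg.same (hb : BDeg M E) (hA : Ad M E) (U : Ultrafilter ℕ) {ψ : ℕ → R →+* ℂ_[p]}
    (hψ : ∀ n, E.Gp (ψ n)) {x : ι → ℂ_[p]} (hx : ∀ᶠ n in (U : Filter ℕ), ‖E.xc (ψ n) - x‖ < 1) :
    ∃ m, ‖E.xc (ψ m) - x‖ < 1 ∧ ∀ᶠ n in (U : Filter ℕ), M.Cgr E (ψ n) (ψ m) := by
  by_contra hn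
  obtain ⟨D0, hD⟩ := hb.sheets hA
  obtain ⟨f, hf, h1⟩ := exists_seq_of_forall_finset_exists (fun n => ‖E.xc (ψ n) - x‖ < 1)
    (fun m n => ¬M.Cgr E (ψ n) (ψ m)) fun T hT => (hx.and ((eventually_all_finset T).2 fun m hm =>
      Ultrafilter.eventually_not.2 fun h => hn ⟨m, hT m hm, h⟩)).exists
  choose u hu hxu using fun n => (hψ (f n)).xc_surj ((norm_sub_rev _ _).trans_lt (hf n))
  obtain ⟨r, r', h2, h3⟩ := hD (fun r => S.twc (ψ (f r)) (u r)) x (fun r => (hψ _).twc (hu r))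
    fun r => hxu r
  have h4 := ((Cl.cgr_twc (hψ _) (hu r)).symm.trans
    (hA.cgr_of_sim ((hψ _).twc (hu r')) h3)).trans (Cl.cgr_twc (hψ _) (hu r'))
  rcases lt_or_gt_of_ne h2 with h5 | h5
  exacts [h1 _ _ h5 h4.symm, h1 _ _ h5 h4]

end Pool.Agent.E7
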