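import Pool.Agent.Lib.MP_7e5527_ag.E7.SRE

/-! Supports of products and brackets; good functions form a domain. -/

noncomputable section

namespace Pool.Agent.E7

theorem Gd.psd {F : Fn} (hF : Gd F) {T : Ix → ℚ} (h : cf F T ≠ 0) : Psd T := by
  obtain ⟨_, _, h1⟩ := hF.spec.supp
  exact (h1 T h).2

theorem Gd.eq_zero {F : Fn} (hF : Gd F) (h : ∀ T, cf F T = 0) : F = 0 := by
  funext Z
  have h1 := hF.spec.sum Z
  simp only [h, zero_mul] at h1
  exact h1.unique hasSum_zero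

theorem Gd.supp_mul {F G : Fn} (hF : Gd F) (hG : Gd G) {T : Ix → ℚ} (h : cf (F * G) T ≠ 0) :
    ∃ S, cf F S ≠ 0 ∧ Psd (T - S) := by
  rw [(hF.spec.mul hG.spec).cf_eq] at h
  obtain ⟨S, h1, h2⟩ := good2a_ex h
  exact ⟨S, h1, hG.psd h2⟩

theorem Gd.exists_min {F : Fn} (hF : Gd F) (h : F ≠ 0) : ∃ (m : ℚ) (s : Finset (Ix → ℚ)),
    s.Nonempty ∧ (∀ T, T ∈ s ↔ cf F T ≠ 0 ∧ tr T one3 = m) ∧ ∀ T, cf F T ≠ 0 → m ≤ tr T one3 := by
  obtain ⟨T0, h0⟩ : ∃ T, cf F T ≠ 0 := by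
    by_contra h1
    push Not at h1
    exact h (hF.eq_zero h1)
  obtain ⟨M, hM, h1⟩ := hF.spec.supp
  have h2 : ∀ R : ℚ, {T | cf F T ≠ 0 ∧ tr T one3 ≤ R}.Finite := fun R =>
    (psd_fin_box hM R).subset fun T hT =>
      ⟨(h1 T hT.1).1, fun l => ((h1 T hT.1).2.abs_le l).trans hT.2⟩
  obtain ⟨T1, h3, h4⟩ := Set.exists_min_image _ (fun T => tr T one3) (h2 (tr T0 one3))
    ⟨T0, h0, le_rfl⟩
  have h5 : {T | cf F T ≠ 0 ∧ tr T one3 = tr T1 one3}.Finite :=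
    (h2 _).subset fun T hT => ⟨hT.1, hT.2.le⟩
  refine ⟨tr T1 one3, h5.toFinset, ⟨T1, h5.mem_toFinset.2 ⟨h3.1, rfl⟩⟩,
    fun T => h5.mem_toFinset, fun T hT => ?_⟩
  rcases le_total (tr T one3) (tr T0 one3) with h6 | h6
  · exact h4 T ⟨hT, h6⟩
  · exact h3.2.trans h6

theorem Gd.mul_eq_zero {F G : Fn} (hF : Gd F) (hG : Gd G) (h : F * G = 0) : F = 0 ∨ G = 0 := by
  by_contra h0
  push Not at h0
  obtain ⟨m, s, s1, s2, s3⟩ := hF.exists_min h0.1
  obtain ⟨n, t, t1, t2, t3⟩ := hG.exists_min h0.2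
  obtain ⟨a, ha, b, hb, hu⟩ := UniqueSums.uniqueAdd_of_nonempty s1 t1
  have h1 := hF.spec.mul hG.spec
  rw [h] at h1
  have h2 := congrFun h1.eq_zero (a + b)
  rw [finsum_eq_single _ a, add_sub_cancel_left] at h2
  · exact mul_ne_zero ((s2 a).1 ha).1 ((t2 b).1 hb).1 h2
  · intro S hS
    by_contra h3
    obtain ⟨h4, h5⟩ := mul_ne_zero_iff.1 h3
    have h6 := s3 S h4
    have h7 := t3 _ h5
    rw [tr_sub_left, tr_add_left, ((s2 a).1 ha).2, ((t2 b).1 hb).2] at h7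
    refine hS (hu ((s2 S).2 ⟨h4, by linarith⟩) ((t2 (a + b - S)).2 ⟨h5, ?_⟩) (by abel)).1
    rw [tr_sub_left, tr_add_left, ((s2 a).1 ha).2, ((t2 b).1 hb).2]
    linarith

/-- Good functions whose exponents have a positive diagonal entry at `i`. -/
def posI (i : Fin 3) : Ideal GQ where
  carrier := {G | ∀ T, cf (G : Fn) T ≠ 0 → 0 < dg T i}
  zero_mem' := fun T hT => absurd (congrFun GoodC.zero.cf_eq T) hT
  add_mem' := fun {F G} hF hG T hT => by
    rw [Subalgebra.coe_add, ((mem_GQ.1 F.2).spec.add (mem_GQ.1 G.2).spec).cf_eq, Pi.add_apply] at hT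
    by_cases h : cf (F : Fn) T = 0
    · exact hG T (by rwa [h, zero_add] at hT)
    · exact hF T h
  smul_mem' := fun c G hG T hT => by
    rw [smul_eq_mul, mul_comm, Subalgebra.coe_mul] at hT
    obtain ⟨S, h1, h2⟩ := (mem_GQ.1 G.2).supp_mul (mem_GQ.1 c.2) hT
    have h3 : dg (T - S) i = dg T i - dg S i := rfl
    linarith [hG S h1, h2.dg_nonneg i]

theorem det_mem_of_row {n A : Type} [Fintype n] [DecidableEq n] [CommRing A] (I : Ideal A)
    (M : Matrix n n A) (c : n → A) (l : n) (h : ∀ a, ∑ r, c r * M r a ∈ I) : c l * M.det ∈ I := by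
  rw [← smul_eq_mul, ← Matrix.det_updateRow_sum, ← Ideal.Quotient.eq_zero_iff_mem, RingHom.map_det]
  refine Matrix.det_eq_zero_of_row_eq_zero l fun a => ?_
  rw [RingHom.mapMatrix_apply, Matrix.map_apply, Matrix.updateRow_self,
    Ideal.Quotient.eq_zero_iff_mem]
  simpa [Finset.sum_apply] using h a

theorem br_pos (k : Option Ix → ℤ) {F : Option Ix → Fn} (h : ∀ a, Gd (F a)) {T : Ix → ℚ}
    (hT : cf (Wr.br dl k F) T ≠ 0) (i : Fin 3) : 0 < dg T i := by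
  have h1 : ((Wr.br (fun i (G : GQ) => (⟨dl i G, GQ.dl_mem i G.2⟩ : GQ)) k
      fun a => ⟨F a, h a⟩ : GQ) : Fn) = Wr.br dl k F :=
    Wr.map_br (dl := fun i (G : GQ) => (⟨dl i G, GQ.dl_mem i G.2⟩ : GQ)) (dl' := dl)
      GQ.val.toRingHom (fun _ _ => rfl) k fun a => ⟨F a, h a⟩
  obtain ⟨l0, h0⟩ : ∃ l, tr (TT l) (ed i) ≠ 0 := by
    by_contra h2
    push Not at h2
    have h3 := latJ_sum_UU (ed i)
    simp only [h2, zero_smul, Finset.sum_const_zero] at h3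
    have h4 := congrArg (fun T => dg T i) h3
    fin_cases i <;> simp [ed] at h4
  have h3 := det_mem_of_row (posI i)
    (Wr.brM (fun i (G : GQ) => (⟨dl i G, GQ.dl_mem i G.2⟩ : GQ)) k fun a => ⟨F a, h a⟩)
    (fun r => r.elim 0 fun l => algebraMap ℂ GQ ((tr (TT l) (ed i) : ℚ) : ℂ)) (some l0)
    fun a S hS => by
      have h3 := GoodC.finsum Finset.univ fun l _ =>
        ((h a).spec.dl l).smul ((tr (TT l) (ed i) : ℚ) : ℂ)
      have h5 : ∑ l, tr (TT l) (ed i) * tr S (UU l) = dg S i := by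
        rw [← tr_ed, ← latJ_sum_UU (ed i), tr_sum_right, latJ_sum_UU]
        simp only [tr_smul_right]
      simp only [Fintype.sum_option, Option.elim_none, zero_mul, zero_add, Option.elim_some, Wr.brM,
        Matrix.of_apply, Wr.col, ← Algebra.smul_def, AddSubmonoidClass.coe_finsetSum,
        Subalgebra.coe_smul] at hS
      rw [h3.cf_eq] at hS
      simp only [Finset.sum_apply, Pi.smul_apply, smul_eq_mul, ← mul_assoc, ← Finset.sum_mul,
        ← Rat.cast_mul, ← Rat.cast_sum, h5] at hS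
      obtain ⟨h6, h7⟩ := mul_ne_zero_iff.1 hS
      exact (((h a).psd h7).dg_nonneg i).lt_of_ne' (by exact_mod_cast h6)
  have h4 := (posI i).mul_mem_left (algebraMap ℂ GQ ((tr (TT l0) (ed i) : ℚ) : ℂ)⁻¹) h3
  have h5 : ((tr (TT l0) (ed i) : ℚ) : ℂ) ≠ 0 := by exact_mod_cast h0
  rw [Option.elim_some, ← mul_assoc, ← map_mul, inv_mul_cancel₀ h5, map_one, one_mul] at h4
  rw [← h1] at hT
  exact h4 T hT

theorem exists_chr {p : ℕ} [Fact p.Prime] (e : ℂ_[p] ≃+* ℂ) {Y : Ix → ℚ} (hY : toR ℝ Y ∈ Om) :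
    ∃ q, Chr p q Y := by
  have hp : (0 : ℝ) < p := by exact_mod_cast (Fact.out : p.Prime).pos
  refine ⟨fun T => e.symm (((p : ℝ) ^ ((tr T Y : ℚ) : ℝ) : ℝ) : ℂ), hY, fun T T' => ?_, fun T => ?_⟩
  · rw [tr_add_left, Rat.cast_add, Real.rpow_add hp, Complex.ofReal_mul, map_mul]
  · generalize tr T Y = r
    have h1 : ((r.den : ℕ) : ℝ) * r = r.num := by exact_mod_cast r.den_mul_eq_num
    have h2 : ‖(p : ℂ_[p])‖ = (p : ℝ)⁻¹ := by
      rw [← map_natCast (algebraMap ℚ_[p] ℂ_[p]), norm_algebraMap', Padic.norm_p]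
    refine (pow_left_inj₀ (norm_nonneg _) (by positivity) r.den_nz).1 ?_
    rw [← norm_pow, ← map_pow, ← Complex.ofReal_pow, ← Real.rpow_mul_natCast hp.le,
      ← Real.rpow_mul_natCast hp.le, neg_mul, mul_comm, h1, Real.rpow_neg hp.le, Real.rpow_intCast,
      Complex.ofReal_zpow, Complex.ofReal_natCast, map_zpow₀, map_natCast, norm_zpow, h2, inv_zpow]

theorem JacF_ne {p : ℕ} [Fact p.Prime] (e : ℂ_[p] ≃+* ℂ) : JacF ≠ 0 := by
  have h1 : toR ℝ one3 ∈ Sieg := by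
    refine ⟨1, 1, 1, 0, 0, 0, one_pos, by norm_num, by norm_num, by simp [onorm], by simp [onorm],
      by simp [onorm], ?_⟩
    rw [toR_one3]
    apply jext <;> simp [jac, v0, v1, ed, one3, onorm, omul_zero_left, oconj_zero]
  obtain ⟨q, hq⟩ := exists_chr e (Sieg_sub h1)
  intro h
  refine evq_JacF e hq h1 ?_
  rw [h, zero_pow two_ne_zero, evq_zero]

end Pool.Agent.E7
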