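import Pool.Agent.Lib.MP_7e5527_ag.E7.Sieg

/-! Estimates on the Siegel set, and the number of exponents of bounded trace. -/

noncomputable section

namespace Pool.Agent.E7

theorem sieg_dg {T : Ix → ℚ} (hT : Psd T) {d0 d1 d2 : ℝ} {u0 u1 u2 : Fin 8 → ℝ} (h0 : 0 < d0)
    (h1 : d0 ≤ 8 * d1) (h2 : d1 ≤ 8 * d2) (k0 : onorm u0 ≤ 1) (k1 : onorm u1 ≤ 1)
    (k2 : onorm u2 ≤ 1) :
    d0 * (dg T 0 : ℚ) ≤ 834 * tr (toR ℝ T) (jac d0 d1 d2 u0 u1 u2) ∧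
      d1 * (dg T 1 : ℚ) ≤ 18 * tr (toR ℝ T) (jac d0 d1 d2 u0 u1 u2) ∧
      d2 * (dg T 2 : ℚ) ≤ tr (toR ℝ T) (jac d0 d1 d2 u0 u1 u2) := by
  have q0 : onorm (oconj (omul u1 u2)) ≤ 1 := by
    rw [onorm_oconj, onorm_omul]
    exact mul_le_one₀ k1 (onorm_nonneg _) k2
  have e0 : ∀ (S : Ix → ℝ) (a b : Fin 8 → ℝ), tr S (v0 a b) = dg S 0 + dg S 1 * onorm b +
      dg S 2 * onorm a + (oip (oc S 0) (oconj (omul a b)) + oip (oc S 1) a + oip (oc S 2) b) :=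
    fun S a b => by simp [tr_eq, v0, add_assoc]
  have r0 := hT.pair0 u1 u2
  have r1 := hT.pair1 u0
  have s0 := hT.pair0 ((2 : ℝ) • u1) ((2 : ℝ) • u2)
  have s1 := hT.pair1 ((2 : ℝ) • u0)
  have tn : ∀ j, 0 ≤ dg (toR ℝ T) j := fun j => by
    rw [dg_toR]
    exact_mod_cast hT.dg_nonneg j
  have mi : onorm (oc (toR ℝ T) 0) ≤ dg (toR ℝ T) 1 * dg (toR ℝ T) 2 := by
    rw [oc_toR, onorm_cast, dg_toR, dg_toR]
    exact_mod_cast hT.onorm_le 0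
  have cs := oip_sq_le (oc (toR ℝ T) 0) (oconj (omul u1 u2))
  have c1 : oip (oc (toR ℝ T) 0) (oconj (omul u1 u2)) ≤ dg (toR ℝ T) 1 + dg (toR ℝ T) 2 := by
    refine le_of_sq_le_sq ?_ (add_nonneg (tn 1) (tn 2))
    have c2 := mul_le_mul mi q0 (onorm_nonneg _) (mul_nonneg (tn 1) (tn 2))
    nlinarith [sq_nonneg (dg (toR ℝ T) 1 - dg (toR ℝ T) 2)]
  simp only [jac, tr_add_right, tr_smul_right, tr_ed, ← dg_toR]
  rw [e0] at s0
  rw [psd_tr_v1] at s1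
  simp only [onorm_smul, omul_smul_left, omul_smul_right, oconj_smul, oip_smul_right] at s0 s1
  have a0 : dg (toR ℝ T) 0 ≤ 2 * tr (toR ℝ T) (v0 u1 u2) +
      4 * (dg (toR ℝ T) 1 + dg (toR ℝ T) 2) := by
    rw [e0]
    linarith [mul_le_of_le_one_right (tn 1) k2, mul_le_of_le_one_right (tn 2) k1]
  have a1 : dg (toR ℝ T) 1 ≤ 2 * tr (toR ℝ T) (v1 u0) + 2 * dg (toR ℝ T) 2 := by
    rw [psd_tr_v1]
    linarith [mul_le_of_le_one_right (tn 2) k0]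
  have p1 : 0 < d1 := by linarith
  have p2 : 0 < d2 := by linarith
  have b0 := mul_nonneg h0.le r0
  have b1 := mul_nonneg p1.le r1
  have b2 := mul_nonneg p2.le (tn 2)
  have f0 := mul_le_mul_of_nonneg_left a0 h0.le
  have f1 := mul_le_mul_of_nonneg_left a1 p1.le
  have g1 := mul_le_mul_of_nonneg_right h1 (tn 1)
  have g2 := mul_le_mul_of_nonneg_right h1 (tn 2)
  have g3 := mul_le_mul_of_nonneg_right h2 (tn 2)
  refine ⟨by linarith, by linarith, by linarith⟩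

theorem sieg_trace {T : Ix → ℚ} (hT : Psd T) {Y : Ix → ℝ} (hY : Y ∈ Sieg) (h : 1 / 2 ≤ dg Y 0) :
    ((tr T one3 : ℚ) : ℝ) ≤ 3000 * tr (toR ℝ T) Y := by
  obtain ⟨d0, d1, d2, u0, u1, u2, h0, h1, h2, k0, k1, k2, rfl⟩ := hY
  obtain ⟨a0, a1, a2⟩ := sieg_dg hT h0 h1 h2 k0 k1 k2
  rw [dg_jac_0] at h
  have tn : ∀ j, (0 : ℝ) ≤ (dg T j : ℚ) := fun j => by exact_mod_cast hT.dg_nonneg j
  have b0 := mul_le_mul_of_nonneg_right h (tn 0)
  have b1 := mul_le_mul_of_nonneg_right (show 1 / 16 ≤ d1 by linarith) (tn 1)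
  have b2 := mul_le_mul_of_nonneg_right (show 1 / 128 ≤ d2 by linarith) (tn 2)
  rw [psd_tr_one3]
  push_cast
  linarith [tn 2]

theorem sieg_nrm {T : Ix → ℚ} (hT : Psd T) (h : ∀ i, 1 ≤ dg T i) {Y : Ix → ℝ} (hY : Y ∈ Sieg) :
    Real.sqrt (nrm Y) ≤ (1 + 834 * tr (toR ℝ T) Y) ^ 2 := by
  obtain ⟨d0, d1, d2, u0, u1, u2, h0, h1, h2, k0, k1, k2, rfl⟩ := hY
  obtain ⟨a0, a1, a2⟩ := sieg_dg hT h0 h1 h2 k0 k1 k2
  have tn : ∀ j, (1 : ℝ) ≤ (dg T j : ℚ) := fun j => by exact_mod_cast h j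
  have p1 : 0 < d1 := by linarith
  have p2 : 0 < d2 := by linarith
  have b0 := le_mul_of_one_le_right h0.le (tn 0)
  have b1 := le_mul_of_one_le_right p1.le (tn 1)
  have b2 := le_mul_of_one_le_right p2.le (tn 2)
  rw [nrm_jac]
  generalize tr (toR ℝ T) (jac d0 d1 d2 u0 u1 u2) = s at *
  have c0 : d0 ≤ 1 + 834 * s := by linarith
  have c1 : d1 ≤ 1 + 834 * s := by linarith
  have c2 : d2 ≤ 1 + 834 * s := by linarith
  have c3 : 1 ≤ 1 + 834 * s := by linarith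
  refine Real.sqrt_le_iff.2 ⟨by positivity, ?_⟩
  calc d0 * d1 * d2 ≤ (1 + 834 * s) * (1 + 834 * s) * (1 + 834 * s) := by gcongr
    _ = (1 + 834 * s) ^ 3 := by ring
    _ ≤ (1 + 834 * s) ^ 4 := pow_le_pow_right₀ c3 (by norm_num)
    _ = ((1 + 834 * s) ^ 2) ^ 2 := by ring

theorem tr_toR_one3 (T : Ix → ℚ) : tr (toR ℝ T) one3 = ((tr T one3 : ℚ) : ℝ) := by
  rw [← tr_toR, toR_one3]

theorem tail_small {c : ℝ} (hc : 0 < c) : ∃ μ : ℕ, ∀ k : ℕ, ∃ u : (Ix → ℚ) → ℝ,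
    Summable u ∧ (∀ T, 0 ≤ u T) ∧ 3 ^ k * ∑' T, u T < 1 ∧ ∀ T ∈ Lam, Psd T →
      (μ * (k + 1) : ℚ) < tr T one3 → Real.exp (-(c * ((tr T one3 : ℚ) : ℝ))) ≤ u T := by
  have h1 := summable_psd (Om.smul one3_mem (half_pos hc)) 0
  simp only [pow_zero, one_mul, tr_smul_right, tr_toR_one3] at h1
  have h2 : Summable (Set.indicator {T : Ix → ℚ | T ∈ Lam ∧ Psd T}
      fun T => Real.exp (-(c / 2 * ((tr T one3 : ℚ) : ℝ)))) := summable_subtype_iff_indicator.1 h1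
  have h3 : ∀ T, 0 ≤ Set.indicator {T : Ix → ℚ | T ∈ Lam ∧ Psd T}
      (fun T => Real.exp (-(c / 2 * ((tr T one3 : ℚ) : ℝ)))) T :=
    Set.indicator_nonneg (fun _ _ => (Real.exp_pos _).le)
  generalize hw : (Set.indicator {T : Ix → ℚ | T ∈ Lam ∧ Psd T}
      fun T => Real.exp (-(c / 2 * ((tr T one3 : ℚ) : ℝ)))) = w at h2 h3
  have h4 : 0 ≤ ∑' T, w T := tsum_nonneg h3
  obtain ⟨μ, hμ⟩ := exists_nat_gt (3 * (∑' T, w T + 1) / (c / 2))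
  have h5 : 3 * (∑' T, w T + 1) * Real.exp (-(c / 2 * μ)) ≤ 1 := by
    rw [div_lt_iff₀ (half_pos hc)] at hμ
    rw [Real.exp_neg, mul_inv_le_iff₀ (Real.exp_pos _), one_mul]
    linarith [Real.add_one_le_exp (c / 2 * μ)]
  have h6 := Real.exp_pos (-(c / 2 * μ))
  refine ⟨μ, fun k => ⟨fun T => Real.exp (-(c / 2 * μ)) ^ (k + 1) * w T, h2.mul_left _,
    fun T => mul_nonneg (by positivity) (h3 T), ?_, fun T hT hp ht => ?_⟩⟩
  · rw [tsum_mul_left]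
    generalize Real.exp (-(c / 2 * μ)) = r at *
    have h7 : (3 * r) ^ k ≤ 1 := pow_le_one₀ (by positivity) (by nlinarith)
    have h8 : r * ∑' T, w T < 1 := by nlinarith
    calc 3 ^ k * (r ^ (k + 1) * ∑' T, w T) = (3 * r) ^ k * (r * ∑' T, w T) := by ring
      _ ≤ 1 * (r * ∑' T, w T) := by gcongr
      _ < 1 := by rw [one_mul]; exact h8
  · have h7 : w T = Real.exp (-(c / 2 * ((tr T one3 : ℚ) : ℝ))) := by
      rw [← hw, Set.indicator_of_mem (show T ∈ {T : Ix → ℚ | T ∈ Lam ∧ Psd T} from ⟨hT, hp⟩)]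
    have h8 : (μ : ℝ) * (k + 1) < ((tr T one3 : ℚ) : ℝ) := by exact_mod_cast ht
    beta_reduce
    rw [h7, ← Real.exp_nat_mul, ← Real.exp_add]
    refine Real.exp_le_exp.2 ?_
    push_cast
    nlinarith

theorem count_psd (m : ℕ) : ∃ s : Finset (Ix → ℚ), s.card ≤ (4 * m + 1) ^ 27 ∧
    ∀ T ∈ Lam, Psd T → tr T one3 ≤ m → T ∈ s := by
  classical
  refine ⟨Fintype.piFinset fun _ => (Finset.Icc (-(2 * m : ℤ)) (2 * m)).image fun n : ℤ => (n : ℚ) / 2,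
    ?_, fun T hT hp ht => Fintype.mem_piFinset.2 fun l => ?_⟩
  · rw [Fintype.card_piFinset, Finset.prod_const, Finset.card_univ,
      show Fintype.card Ix = 27 by simp]
    refine Nat.pow_le_pow_left (Finset.card_image_le.trans ?_) _
    rw [Int.card_Icc]
    omega
  · obtain ⟨n, hn⟩ := Lam.two_mul hT l
    have h1 := abs_le.1 ((hp.abs_le l).trans ht)
    refine Finset.mem_image.2 ⟨n, Finset.mem_Icc.2 ⟨?_, ?_⟩, by linarith⟩
    · have : (-(2 * m) : ℚ) ≤ n := by linarith [h1.1]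
      exact_mod_cast this
    · have : (n : ℚ) ≤ 2 * m := by linarith [h1.2]
      exact_mod_cast this

end Pool.Agent.E7
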