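import Pool.Agent.Lib.MP_7e5527_ag.E7.Defs

/-! Definitions used in the statement: forms of any level, class sums, ordinary points. -/

noncomputable section

namespace Pool.Agent.E7

/-- `F` has the Fourier expansion `a` on the domain. -/
def Expn (F : (Ix → ℂ) → ℂ) (a : (Ix → ℚ) → ℂ) : Prop :=
  (∃ M : ℕ, 0 < M ∧ ∀ T, a T ≠ 0 → (M : ℚ) • T ∈ Lam ∧ Psd T) ∧
  (∃ s : Finset ℂ, ∀ T, a T ∈ Submodule.span ℤ (s : Set ℂ)) ∧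
  ∀ Z ∈ HH, HasSum (fun T => a T * Complex.exp (2 * Real.pi * Complex.I * tr (toR ℂ T) Z)) (F Z)

/-- `F` is a form of weight `k` and some level: it lies in a finite set of functions with
expansions that is stable under the generators of the group of Baily. -/
def IsForm (k : ℤ) (F : (Ix → ℂ) → ℂ) (a : (Ix → ℚ) → ℂ) : Prop :=
  Expn F a ∧ ∃ S : Set ((Ix → ℂ) → ℂ), S.Finite ∧ F ∈ S ∧ ∀ G ∈ S, (∃ b, Expn G b) ∧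
    (∀ B ∈ Lam, ∃ G' ∈ S, ∀ Z ∈ HH, G (Z + toR ℂ B) = G' Z) ∧
    (∀ A, IsSim A 1 → (∀ T, lin A T ∈ Lam ↔ T ∈ Lam) → ∃ G' ∈ S, ∀ Z ∈ HH, G (lin A Z) = G' Z) ∧
    ∃ G' ∈ S, ∀ Z ∈ HH, G (inv Z) = nrm Z ^ k * G' Z

open Classical in
/-- The part of an integral expansion with exponents congruent to `c` modulo `p`. -/
def cls (p : ℕ) (a : (Ix → ℚ) → ℤ) (c : Ix → ℚ) (Z : Ix → ℂ) : ℂ :=
  ∑' T, if (p : ℚ)⁻¹ • (T - c) ∈ Lam then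
    a T * Complex.exp (2 * Real.pi * Complex.I * tr (toR ℂ T) Z) else 0

/-- `Z0` lies under an algebraic point `χ` of the Igusa tower with good reduction whose Frobenius
has no central power. -/
def IsOrd {p : ℕ} [Fact p.Prime] (e : ℂ_[p] ≃+* ℂ) (Z0 : Ix → ℂ) : Prop :=
  ∃ (χ : ((Ix → ℂ) → ℂ) → ℂ_[p]) (c : ℂ) (k0 : ℕ) (S : Set ((Ix → ℚ) → ℤ)),
    c ≠ 0 ∧ 0 < k0 ∧ S.Finite ∧
    (∀ k F a (x : ℂ), IsForm k F a → χ (x • F) = e.symm x * χ F) ∧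
    (∀ k l F G a b, IsForm k F a → IsForm l G b → χ (F * G) = χ F * χ G) ∧
    (∀ (n : ℕ) (k : Fin n → ℤ) (F : Fin n → (Ix → ℂ) → ℂ) (a : Fin n → (Ix → ℚ) → ℂ),
      (∀ i, IsForm (k i) (F i) (a i)) → (∀ T, ‖e.symm (∑ i, a i T)‖ ≤ 1) → ‖∑ i, χ (F i)‖ ≤ 1) ∧
    (∀ k F a, IsMF k F a → F Z0 = c ^ k * e (χ F)) ∧
    (∀ A t B, ∀ T0 ∈ Lam, IsSim A t → ∃ a ∈ S, (∃ F, IsMF k0 F fun T => a T) ∧
      ‖χ fun Z => cls p a T0 (lin A Z + toR ℂ B)‖ = 1) ∧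
    (∀ k F G a b, IsForm k F a → IsForm k G b →
      (∀ T, IsAlgebraic ℚ (a T) ∧ IsAlgebraic ℚ (b T)) → IsAlgebraic ℚ_[p] (χ F / χ G)) ∧
    ∀ (s : ℂ_[p] →+* ℂ_[p]) (f : ℕ) (κ : Matrix Ix Ix ℚ_[p]), 0 < f → (∀ y, ‖s y‖ = ‖y‖) →
      (∀ y, ‖y‖ ≤ 1 → ‖s y - y ^ p ^ f‖ < 1) →
      (∀ (j : ℕ) (B B' : Ix → ℚ), (p : ℚ) ^ j • B ∈ Lam → (p : ℚ) ^ j • B' ∈ Lam →
        (∀ T ∈ Lam, ‖tr (toR ℚ_[p] T) (toR ℚ_[p] B' - κ.mulVec (toR ℚ_[p] B))‖ ≤ 1) →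
        ∃ d : ℂ_[p], d ≠ 0 ∧ ∀ (n : ℕ) F (a : (Ix → ℚ) → ℤ), IsMF (n * k0) F (fun T => a T) →
          s (χ fun Z => F (Z + toR ℂ B)) = d ^ n * χ fun Z => F (Z + toR ℂ B')) →
      ¬ ∃ t : ℚ_[p], ∀ x : Ix → ℚ_[p], tr (sharp x) (κ.mulVec x) = t * nrm x

end Pool.Agent.E7
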