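import Pool.Agent.Lib.MP_7e5527_ag.E7.MFs
import Pool.Agent.Lib.MP_7e5527_ag.EO.ODefs

/-! Parabolic operators and class sums on functions. -/

open Filter Topology Polynomial Matrix

noncomputable section

namespace Pool.Agent.E7

/-- Forms of weight `k` and level `Δ`. -/
abbrev MI (Δ : Subgroup Gb) (k : ℤ) (F : Fn) : Prop := MF k F ∧ Inv Δ k F

/-- The coefficients are integers. -/
def IntC (F : Fn) : Prop := ∀ T, ∃ n : ℤ, cf F T = n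

/-- The substitution `Z ↦ A Z + B`. -/
def opP (A : Matrix Ix Ix ℚ) (B : Ix → ℚ) : Fn →ₐ[ℂ] Fn where
  toFun F := fun Z => F (ofC (lin A Z + toR ℂ B))
  map_one' := funext fun _ => rfl
  map_mul' _ _ := funext fun _ => by simp only [Pi.mul_apply]
  map_zero' := funext fun _ => rfl
  map_add' _ _ := funext fun _ => by simp only [Pi.add_apply]
  commutes' _ := funext fun _ => by simp only [Pi.algebraMap_apply]

theorem opP_apply (A : Matrix Ix Ix ℚ) (B : Ix → ℚ) (F : Fn) (Z : HH) :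
    opP A B F Z = F (ofC (lin A Z + toR ℂ B)) := rfl

open Classical in
/-- The coefficients with exponents congruent to `T0` modulo `N`. -/
def clc (N : ℕ) (T0 : Ix → ℚ) (a : (Ix → ℚ) → ℂ) (T : Ix → ℚ) : ℂ :=
  if (N : ℚ)⁻¹ • (T - T0) ∈ Lam then a T else 0

/-- The class sum. -/
def clsF (N : ℕ) (T0 : Ix → ℚ) (F : Fn) : Fn := fun Z => ∑' T, clc N T0 (cf F) T * eT T Z

/-- The exponents of the frame. -/
def oT : Option Ix → Ix → ℚ := fun o => o.elim 0 TT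

theorem lin_scalar {K : Type} [Field K] [CharZero K] (t : ℚ) (Z : Ix → K) :
    lin (t • (1 : Matrix Ix Ix ℚ)) Z = (t : K) • Z := by
  funext l
  simp [lin_apply, Matrix.one_apply, apply_ite]

theorem isSim_scalar {t : ℚ} (ht : 0 < t) : IsSim (t • (1 : Matrix Ix Ix ℚ)) (t ^ 3) := by
  have h : (0 : ℝ) < t := by exact_mod_cast ht
  refine ⟨by simp [ht.ne'], fun Z => ?_, fun Y => ?_⟩
  · rw [lin_scalar, nrm_smul, Rat.cast_pow]
  · rw [lin_scalar]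
    refine ⟨fun h1 => ?_, fun h1 => Om.smul h1 h⟩
    simpa [smul_smul, h.ne'] using Om.smul h1 (inv_pos.2 h)

theorem adjM_smul (t : ℚ) (A : Matrix Ix Ix ℚ) : adjM (t • A) = t • adjM A := by
  ext l l'
  simp only [adjM, Matrix.of_apply, Matrix.smul_apply, smul_eq_mul]
  ring

theorem exists_isP {A : Matrix Ix Ix ℚ} {c : ℚ} (hA : IsSim A c) (B : Ix → ℚ) :
    ∃ g ∈ GG, IsP g 1 B A c := by
  obtain ⟨m, hm⟩ := exists_m hA
  refine ⟨nE (toR ℂ B) * m, mul_mem (nE_mem_GG B) (hm.mem_GG hA), one_ne_zero, hA, fun v => ?_⟩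
  rw [LinearEquiv.mul_apply, hm, nE_apply, Rat.cast_one, one_smul]

theorem IsP.sl_eq {g : Gb} {t : ℚ} {B : Ix → ℚ} {A : Matrix Ix Ix ℚ} {c : ℚ} (h : IsP g t B A c)
    (k : ℤ) (F : Fn) : sl k g F = (t : ℂ) ^ (-k) • opP A B F := by
  funext Z
  rw [sl, h.jf_eq, h.act_eq]
  rfl

theorem IsM.sl_eq {g : Gb} {A : Matrix Ix Ix ℚ} {c : ℚ} (h : IsM A c g) (k : ℤ) (F : Fn) :
    sl k g F = opP A 0 F := by
  funext Z
  rw [sl, h.jf_eq, h.act_eq, _root_.one_zpow, one_mul, opP_apply, toR_zero, add_zero]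

theorem sl_nE_eq (k : ℤ) (B : Ix → ℚ) (F : Fn) : sl k (nE (toR ℂ B)) F = opP 1 B F := by
  funext Z
  rw [sl_nE, opP_apply, lin_one]

theorem opP_one (F : Fn) : opP 1 0 F = F := by
  funext Z
  rw [opP_apply, lin_one, toR_zero, add_zero, ofC_coe]

theorem opP_opP {A : Matrix Ix Ix ℚ} {c : ℚ} (hA : IsSim A c) (B : Ix → ℚ) (A' : Matrix Ix Ix ℚ)
    (B' : Ix → ℚ) (F : Fn) : opP A B (opP A' B' F) = opP (A' * A) (lin A' B + B') F := by
  funext Z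
  rw [opP_apply, opP_apply, opP_apply, coe_ofC (HH.add_toR (HH.lin_mem Z.2 hA) B), lin_add, lin_mul,
    lin_toR, toR_add, add_assoc]

theorem GoodC.opP {F : Fn} {a : (Ix → ℚ) → ℂ} (h : GoodC F a) {A : Matrix Ix Ix ℚ} {c : ℚ}
    (hA : IsSim A c) (B : Ix → ℚ) :
    GoodC (opP A B F) fun T => a (lin (adjM A)⁻¹ T) * eT (lin (adjM A)⁻¹ T) (toR ℂ B) := by
  obtain ⟨g, -, hg⟩ := exists_isP hA B
  have h1 := h.slP 0 hg
  rw [hg.sl_eq] at h1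
  simpa using h1

theorem cf_opP {F : Fn} (h : Gd F) {A : Matrix Ix Ix ℚ} {c : ℚ} (hA : IsSim A c) (B T : Ix → ℚ) :
    cf (opP A B F) (lin (adjM A) T) = cf F T * eT T (toR ℂ B) := by
  rw [(h.spec.opP hA B).cf_eq]
  simp only [lin_inv_lin (show IsUnit (adjM A).det from det_adjM A ▸ hA.1)]

theorem MF.opP {k : ℤ} {F : Fn} (h : MF k F) {A : Matrix Ix Ix ℚ} {c : ℚ} (hA : IsSim A c)
    (B : Ix → ℚ) : MF k (opP A B F) := by
  obtain ⟨g, h1, hg⟩ := exists_isP hA B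
  have h2 := h.slash h1
  rw [hg.sl_eq] at h2
  simpa using h2

/-- Apply `GoodC.filter` with `B = N⁻¹ • UU l` for all `l`, as in `Thi_spec`. -/
theorem clsF_span {F : Fn} (h : Gd F) {N : ℕ} (hN : 0 < N) (T0 : Ix → ℚ) :
    GoodC (clsF N T0 F) (clc N T0 (cf F)) ∧
      clsF N T0 F ∈ Submodule.span ℂ {G | ∃ B, (N : ℚ) • B ∈ Lam ∧ G = opP 1 B F} := by
  classical
  have hN' : (N : ℚ) ≠ 0 := Nat.cast_ne_zero.2 hN.ne'
  have h0 : ∀ B, (N : ℚ) • B ∈ Lam →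
      ∀ G ∈ Submodule.span ℂ {G | ∃ B, (N : ℚ) • B ∈ Lam ∧ G = opP 1 B F},
      opP 1 B G ∈ Submodule.span ℂ {G | ∃ B, (N : ℚ) • B ∈ Lam ∧ G = opP 1 B F} := by
    intro B hB G hG
    induction hG using Submodule.span_induction with
    | mem G hG =>
      obtain ⟨B', h1, rfl⟩ := hG
      refine Submodule.subset_span ⟨B + B', by rw [smul_add]; exact Lam.add hB h1, ?_⟩
      rw [opP_opP IsSim.one, mul_one, lin_one]
    | zero => rw [map_zero]; exact zero_mem _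
    | add _ _ _ _ h1 h2 => rw [map_add]; exact add_mem h1 h2
    | smul c _ _ h1 => rw [map_smul]; exact Submodule.smul_mem _ c h1
  have key : ∀ s : Finset Ix, ∃ G ∈ Submodule.span ℂ {G | ∃ B, (N : ℚ) • B ∈ Lam ∧ G = opP 1 B F},
      GoodC G fun T =>
        if ∀ l ∈ s, ∃ n : ℤ, tr (T - T0) ((N : ℚ)⁻¹ • UU l) = n then cf F T else 0 := by
    intro s
    induction s using Finset.induction_on with
    | empty =>
      exact ⟨F, Submodule.subset_span ⟨0, by simpa using Lam.zero, (opP_one F).symm⟩,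
        by simpa using h.spec⟩
    | insert l s hl ih =>
      obtain ⟨G, h1, h2⟩ := ih
      obtain ⟨M, c, h3⟩ := h2.filter 0 T0 ((N : ℚ)⁻¹ • UU l)
      refine ⟨_, sum_mem fun j _ => Submodule.smul_mem _ _ ?_, mfs_congr h3 fun T => ?_⟩
      · rw [sl_nE_eq]
        refine h0 _ ?_ G h1
        rw [smul_comm, smul_inv_smul₀ hN']
        exact Lam.nsmul (UU_mem l) j
      · simp only [Finset.forall_mem_insert, ite_and]
  obtain ⟨G, h1, h2⟩ := key Finset.univ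
  have h3 : GoodC G (clc N T0 (cf F)) := mfs_congr h2 fun T => by
    simp only [clc, mem_Lam_iff, tr_smul_left, tr_smul_right, Finset.mem_univ, forall_true_left]
  have e : clsF N T0 F = G := funext fun Z => (h3.sum Z).tsum_eq
  rw [e]
  exact ⟨h3, h1⟩

theorem cf_clsF {F : Fn} (h : Gd F) {N : ℕ} (hN : 0 < N) (T0 : Ix → ℚ) :
    cf (clsF N T0 F) = clc N T0 (cf F) := (clsF_span h hN T0).1.cf_eq

theorem MF.clsF {k : ℤ} {F : Fn} (h : MF k F) {N : ℕ} (hN : 0 < N) (T0 : Ix → ℚ) :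
    MF k (clsF N T0 F) := by
  refine Submodule.span_induction (p := fun G _ => MF k G) ?_ (MF.zero k)
    (fun _ _ _ _ => MF.add) (fun c _ _ h1 => h1.smul c) (clsF_span h.gd hN T0).2
  rintro _ ⟨B, -, rfl⟩
  exact h.opP IsSim.one B

/-- Invariance of the image of a class sum under a parabolic operator. -/
theorem inv_clsF {k : ℤ} {F : Fn} (h : Gd F) {N : ℕ} (hN : 0 < N) (T0 : Ix → ℚ) (φ : Fn →ₐ[ℂ] Fn)
    {Δ : Subgroup Gb} (hi : ∀ B, (N : ℚ) • B ∈ Lam → Inv Δ k (φ (opP 1 B F))) :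
    Inv Δ k (φ (clsF N T0 F)) := by
  refine Submodule.span_induction (p := fun G _ => Inv Δ k (φ G)) ?_ ?_ (fun _ _ _ _ h1 h2 => ?_)
    (fun c _ _ h1 => ?_) (clsF_span h hN T0).2
  · rintro _ ⟨B, hB, rfl⟩
    exact hi B hB
  · rw [map_zero]
    exact Inv.zero _ _
  · rw [map_add]
    exact h1.add h2
  · rw [map_smul]
    exact h1.smul c

theorem clc_vec {N : ℕ} (hN : 0 < N) (c m : Ix → ℤ) (a : (Ix → ℚ) → ℂ) :
    clc N (vec c) a (vec m) = if ∀ i, (N : ℤ) ∣ m i - c i then a (vec m) else 0 := by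
  have hN' : (N : ℚ) ≠ 0 := Nat.cast_ne_zero.2 hN.ne'
  rw [clc, ← vec_sub]
  refine ite_cond_congr (propext ((mem_Lam_iff _).trans (forall_congr' fun i => ?_)))
  rw [tr_smul_left, tr_vec_UU, Pi.sub_apply]
  refine exists_congr fun n => ?_
  rw [inv_mul_eq_iff_eq_mul₀ hN']
  exact_mod_cast Iff.rfl

theorem MI.mem_GZ {Δ : Subgroup Gb} (hΔ : ∀ B ∈ Lam, nE (toR ℂ B) ∈ Δ) {k : ℤ} {F : Fn}
    (h : MI Δ k F) : F ∈ GZ := 
  E7.mem_GZ.2 ⟨h.1.gd, fun _ hT => h.1.gd.spec.supp_Lam (fun B hB => h.2 _ (hΔ B hB)) hT⟩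

theorem MI.mul {Δ : Subgroup Gb} (hΔ : Δ ≤ Gam) {k l : ℤ} {F G : Fn} (hF : MI Δ k F)
    (hG : MI Δ l G) : MI Δ (k + l) (F * G) := ⟨hF.1.mul hG.1, hF.2.mul hΔ hG.2⟩

theorem MI.pow {Δ : Subgroup Gb} (hΔ : Δ ≤ Gam) {k : ℤ} {F : Fn} (hF : MI Δ k F) (n : ℕ) :
    MI Δ (n * k) (F ^ n) := ⟨hF.1.pow n, hF.2.pow hΔ n⟩

/-- As `mf_aeval`. -/
theorem MI.aeval {Δ : Subgroup Gb} (hΔ : Δ ≤ Gam) {k : ℤ} {σ : Type} {F : σ → Fn}
    (hF : ∀ r, MI Δ k (F r)) {P : MvPolynomial σ ℂ} {m : ℕ} (hP : P.IsHomogeneous m) :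
    MI Δ (k * m) (MvPolynomial.aeval F P) := by
  have e : MvPolynomial.aeval F P =
      ∑ d ∈ P.support, P.coeff d • ∏ r ∈ d.support, F r ^ d r := by
    rw [MvPolynomial.aeval_def, MvPolynomial.eval₂_eq]
    simp only [Algebra.smul_def]
  have w : ∀ d ∈ P.support, (k * m : ℤ) = ∑ r ∈ d.support, (d r : ℤ) * k := fun d hd => by
    rw [hP.degree_eq_sum_deg_support hd, ← Finset.sum_mul, mul_comm]
    push_cast
    rfl
  rw [e]
  refine ⟨MF.sum _ fun d hd => MF.smul ?_ _, Inv.sum _ fun d hd => Inv.smul ?_ _⟩ <;> rw [w d hd]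
  · exact MF.prod _ fun r _ => (hF r).1.pow _
  · exact Inv.prod hΔ _ fun r _ => (hF r).2.pow hΔ _

/-- `wE * wE = -1`. -/
theorem odd_zero {k : ℤ} (hk : Odd k) {F : Fn} (h : Inv Gam k F) : F = 0 := by
  funext Z
  have h1 := congrFun (h _ (mul_mem wE_mem wE_mem)) Z
  obtain ⟨h2, h3⟩ := act_of_eq (g := wE * wE) (Z := Z) (Z' := Z) (j := -1) (by norm_num)
    (by rw [LinearEquiv.mul_apply, wE_sq, neg_one_smul])
  rw [sl, h2, h3, ofC_coe, hk.neg.neg_one_zpow] at h1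
  change F Z = 0
  linear_combination (-1 / 2 : ℂ) * h1

theorem IsForm.congr {k : ℤ} {F F' : (Ix → ℂ) → ℂ} {a : (Ix → ℚ) → ℂ} (h : IsForm k F a)
    (e : ∀ Z ∈ HH, F' Z = F Z) : IsForm k F' a := by
  obtain ⟨⟨h1, h2, h3⟩, S, s1, s2, s3⟩ := h
  have h4 : Expn F' a := ⟨h1, h2, fun Z hZ => e Z hZ ▸ h3 Z hZ⟩
  have h5 : ∀ {P : ((Ix → ℂ) → ℂ) → Prop}, (∃ G ∈ S, P G) → ∃ G ∈ insert F' S, P G :=
    fun ⟨G, g1, g2⟩ => ⟨G, Set.mem_insert_of_mem _ g1, g2⟩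
  refine ⟨h4, insert F' S, s1.insert _, Set.mem_insert _ _, ?_⟩
  rintro G (rfl | hG)
  · obtain ⟨-, t1, t2, t3⟩ := s3 F s2
    refine ⟨⟨a, h4⟩, fun B hB => h5 ((t1 B hB).imp fun G' g => ⟨g.1, fun Z hZ => ?_⟩),
      fun A hA hL => h5 ((t2 A hA hL).imp fun G' g => ⟨g.1, fun Z hZ => ?_⟩),
      h5 (t3.imp fun G' g => ⟨g.1, fun Z hZ => ?_⟩)⟩
    · rw [e _ (HH.add_toR hZ B), g.2 Z hZ]
    · rw [e _ (HH.lin_mem hZ hA), g.2 Z hZ]
    · rw [e _ (act_wE Z ▸ (act_spec (Gam_le wE_mem) hZ).2.1), g.2 Z hZ]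
  · obtain ⟨t0, t1, t2, t3⟩ := s3 G hG
    exact ⟨t0, fun B hB => h5 (t1 B hB), fun A hA hL => h5 (t2 A hA hL), h5 t3⟩

/-- Take the finite set of the `ext (sl k γ F)`, see `isMF_ext`. -/
theorem MF.isForm {k : ℤ} {F : Fn} (h : MF k F) : IsForm k (ext F) (cf F) := by
  have h1 : ∀ G, Gd G → Expn (ext G) (cf G) := fun G hG =>
    ⟨hG.spec.supp, hG.spec.fg, fun Z hZ => by rw [ext, ofC_eq hZ]; exact hG.spec.sum ⟨Z, hZ⟩⟩
  refine ⟨h1 F h.gd, ext '' {G | ∃ γ ∈ Gam, G = sl k γ F}, h.2.image _,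
    ⟨F, ⟨1, one_mem _, (sl_one k F).symm⟩, rfl⟩, ?_⟩
  rintro _ ⟨_, ⟨γ, hγ, rfl⟩, rfl⟩
  have h2 : ∀ g ∈ Gam, ∃ G' ∈ ext '' {G | ∃ γ ∈ Gam, G = sl k γ F},
      ∀ Z ∈ HH, ext (sl k γ F) (act g Z) = jf g Z ^ k * G' Z := fun g hg =>
    ⟨_, ⟨_, ⟨_, mul_mem hγ hg, rfl⟩, rfl⟩, fun Z hZ => by
      rw [ext, ext, ofC_eq hZ, sl_mul_apply k (Gam_le hγ) (Gam_le hg), _root_.zpow_neg,
        mul_inv_cancel_left₀ (zpow_ne_zero _ (act_spec (Gam_le hg) hZ).1)]⟩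
  refine ⟨⟨_, h1 _ (h.1 γ hγ)⟩, fun B hB => ?_, fun A hA hL => ?_, ?_⟩
  · simpa only [act_nE, jf_nE, _root_.one_zpow, one_mul] using h2 _ (nE_mem_Gam hB)
  · obtain ⟨g, hg⟩ := exists_m hA
    simpa only [hg.act_eq, hg.jf_eq, _root_.one_zpow, one_mul] using h2 _ (hg.mem_Gam ⟨hA, hL⟩)
  · simpa only [act_wE, jf_wE] using h2 _ wE_mem

end Pool.Agent.E7
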