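import Pool.Agent.Lib.MP_7e5527_ag.EO.QOrd
import Pool.Agent.Lib.MP_7e5527_ag.E7.Match

/-! Matching of complex points and characters. -/

open Filter Topology Polynomial Matrix

noncomputable section

namespace Pool.Agent.E7

variable {p : ℕ} [Fact p.Prime]

variable {e : ℂ_[p] ≃+* ℂ} {χ : Fn → ℂ_[p]} {c : ℂ} {Z0 : HH} {Δ : Subgroup Gb}

/-- The `p`-adic characters. -/
def om_ψ (h : FC e χ) (hc : c ≠ 0) (hΔ : Δ ≤ Gam) {γ : Gb} (hγ : γ ∈ Gam) : mat1_S hΔ →* ℂ where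
  toFun x := c ^ x.1.1.toAdd * e (χ (sl x.1.1.toAdd γ x.1.2))
  map_one' := by
    change c ^ (0 : ℤ) * e (χ (sl 0 γ 1)) = 1
    rw [sl_zero_one, h.one, map_one, _root_.zpow_zero, mul_one]
  map_mul' x y := by
    rw [mat1_mul hΔ hγ, h.mul _ _ _ _ (x.2.1.slash (Gam_le hγ)) (y.2.1.slash (Gam_le hγ)),
      map_mul]
    change c ^ (x.1.1.toAdd + y.1.1.toAdd) * _ = _
    rw [zpow_add₀ hc]
    ring

/-- As `match0`. -/
theorem FC.match0 (h : FC e χ) (hc : c ≠ 0) (hT : ∀ k F, MI Gam k F → F Z0 = c ^ k * e (χ F))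
    (hΔ : Δ ≤ Gam) (hi : Δ.relIndex Gam ≠ 0) :
    ∃ γ ∈ Gam, ∀ k F, MI Δ k F → sl k γ F Z0 = c ^ k * e (χ F) := by
  obtain ⟨τ, _, ⟨R⟩⟩ := exists_trans hΔ hi
  obtain ⟨t, δ, hδ, h1⟩ := R.cover 1 (one_mem _)
  have ht : R.rep t ∈ Δ := by
    rw [eq_inv_of_mul_eq_one_right h1.symm]
    exact inv_mem hδ
  obtain ⟨s, hs⟩ := char_match (fun t => mat1_χ hΔ (R.mem t) Z0)
    (fun t => om_ψ h hc hΔ (R.mem t)) (fun x => by
      have h4 := hT _ _ (R.trace hΔ x.2.1 x.2.2)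
      rw [Finset.sum_apply, h.sum _ fun a _ => x.2.1.slash (Gam_le (R.mem a)), map_sum,
        Finset.mul_sum] at h4
      exact h4) t
  refine ⟨R.rep s, R.mem s, fun k F hF => ?_⟩
  have h2 : c ^ k * e (χ (sl k (R.rep t) F)) = sl k (R.rep s) F Z0 :=
    DFunLike.congr_fun hs ⟨(Multiplicative.ofAdd k, F), hF⟩
  rw [← h2, hF.2 _ ht]

/-- As `match_pt`, without reduction to the Siegel set (`IsP.sl_eq`). -/
theorem FC.match_pt (h : FC e χ) (hc : c ≠ 0) (hT : ∀ k F, MI Gam k F → F Z0 = c ^ k * e (χ F))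
    (hΔ : Δ ≤ Gam) (hi : Δ.relIndex Gam ≠ 0) {g : Gb} (hg : g ∈ GG) :
    ∃ γ ∈ Gam, ∃ (c' : ℂ) (A : Matrix Ix Ix ℚ) (cA : ℚ) (B : Ix → ℚ), c' ≠ 0 ∧ IsSim A cA ∧
      ∀ k F, MI Δ k F → sl k (γ * g) F Z0 = c' ^ k * e (χ (E7.opP A B F)) := by
  obtain ⟨Δ', h1, h2, h3⟩ := exists_level hΔ hi hg
  obtain ⟨γ0, hγ0, h4⟩ := h.match0 hc hT h1 h2
  obtain ⟨γ1, hγ1, t, B, A, cA, hP⟩ := krut (mul_mem hg (Gam_le (inv_mem hγ0)))
  rw [← mul_assoc] at hP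
  have hG : γ1 * g * γ0⁻¹ ∈ GG := mul_mem (mul_mem (Gam_le hγ1) hg) (Gam_le (inv_mem hγ0))
  refine ⟨γ1, hγ1, c * (t : ℂ)⁻¹, A, cA, B,
    mul_ne_zero hc (inv_ne_zero (Rat.cast_ne_zero.2 hP.1)), hP.2.1, fun k F hF => ?_⟩
  have h5 := h4 k _ ⟨hF.1.slash hG, fun δ hδ => by
    have h6 := h3 δ hδ _ (inv_mem hγ0) _ hγ1
    rw [← sl_mul k hG (Gam_le (h1 hδ)), ← inv_mul_cancel_right (γ1 * g * γ0⁻¹ * δ)
      (γ1 * g * γ0⁻¹), sl_mul k (Gam_le (hΔ h6)) hG, hF.2 _ h6]⟩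
  rw [← sl_mul k hG (Gam_le hγ0), inv_mul_cancel_right, hP.sl_eq,
    h.smul k _ _ (hF.1.opP hP.2.1 B), map_mul, e.apply_symm_apply] at h5
  rw [h5, mul_zpow, _root_.inv_zpow', mul_assoc]

/-- An infinite sequence of Hecke points on the curve, with one frame. -/
structure OPts (e : ℂ_[p] ≃+* ℂ) (χ : Fn → ℂ_[p]) (Δ : Subgroup Gb) (S0 : Set Fn) where
  h : ℂ → Ix → ℂ
  arc : Arc h
  A : ℕ → Matrix Ix Ix ℚ
  c : ℕ → ℚ
  B : ℕ → Ix → ℚ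
  sim : ∀ n, IsSim (A n) (c n)
  G : Option Ix → Fn
  mem : ∀ o, G o ∈ S0
  unit : ∀ n o, ‖χ (opP (A n) (B n) (clsF p (oT o) (G o)))‖ = 1
  kill : ∀ n k F, MI Δ k F → Van F h → χ (opP (A n) (B n) F) = 0
  sep : ∀ n m, n ≠ m → ¬ ∃ d : ℂ_[p], d ≠ 0 ∧ ∀ k F, MI Gam k F →
    χ (opP (A n) (B n) F) = d ^ k * χ (opP (A m) (B m) F)

/-- As `exists_pts`; pass to a subsequence on which `t` and the frame given by `red` are
constant. -/
theorem OrdC.exists_pts {k0 : ℕ} {S0 : Set Fn} (O : OrdC e Z0 χ c k0 S0) (hΔ : Δ ≤ Gam)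
    (hi : Δ.relIndex Gam ≠ 0) {h : ℂ → Ix → ℂ} (hA : Arc h)
    (hn : ¬ ∃ S : Set (Ix → ℂ), S.Finite ∧ S ⊆ HH ∧ ∀ Z, Hecke Z0 Z →
      (∀ k F a, IsMF k F a → (∀ᶠ t in 𝓝 (0 : ℂ), F (h t) = 0) → F Z = 0) →
        ∃ Z' ∈ S, SamePt Z Z') : Nonempty (OPts e χ Δ S0) := by
  have h0 : (Z0 : Ix → ℂ) ∈ HH := Z0.2
  obtain ⟨g, hg, hne⟩ := match_seq h0 hn
  obtain ⟨τ, _, ⟨R⟩⟩ := exists_trans hΔ hi
  choose γ hγ c' A cA B hc' hsim hm using fun n => O.fc.match_pt O.c0 O.lvl hΔ hi (hg n).1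
  have hZ : ∀ n, act (g n) Z0 ∈ HH := fun n => (act_spec (hg n).1 h0).2.1
  have hj : ∀ n, jf (g n) Z0 ≠ 0 := fun n => (act_spec (hg n).1 h0).1
  have hm' : ∀ n k F, MI Δ k F → sl k (γ n) F ⟨act (g n) Z0, hZ n⟩ =
      (jf (g n) Z0 * c' n) ^ k * e (χ (opP (A n) (B n) F)) := fun n k F hF => by
    have h1 := hm n k F hF
    rw [sl_mul_apply k (Gam_le (hγ n)) (hg n).1, ofC_eq (hZ n)] at h1
    rw [mul_zpow, mul_assoc, ← h1, ← mul_assoc, _root_.zpow_neg,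
      mul_inv_cancel₀ (zpow_ne_zero k (hj n)), one_mul]
  choose t ht using fun n => going_up hΔ R (Z := ⟨act (g n) Z0, hZ n⟩) (hg n).2 (hγ n)
  have hL : ∀ o, oT o ∈ Lam := fun o => by
    rcases o with _ | i
    exacts [Lam.zero, TT_mem i]
  choose G hG hu using fun n o => O.red (A n) (cA n) (B n) (hsim n) (oT o) (hL o)
  have := O.fin.to_subtype
  obtain ⟨⟨t0, G0⟩, ht0⟩ :=
    Finite.exists_infinite_fiber fun n => (t n, fun o => (⟨G n o, hG n o⟩ : S0))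
  let φ := Infinite.natEmbedding
    ((fun n => (t n, fun o => (⟨G n o, hG n o⟩ : S0))) ⁻¹' {(t0, G0)})
  have hφ : ∀ n, t (φ n) = t0 := fun n => congrArg Prod.fst (φ n).2
  have hφ' : ∀ n o, G (φ n) o = G0 o := fun n o =>
    congrArg (fun x : τ × (Option Ix → S0) => (x.2 o : Fn)) (φ n).2
  have hsame : ∀ n m (d : ℂ_[p]), d ≠ 0 → (∀ k F, MI Gam k F →
      χ (opP (A n) (B n) F) = d ^ k * χ (opP (A m) (B m) F)) →
      SamePt (act (g n) Z0) (act (g m) Z0) := fun n m d hd hnm => by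
    have h1 : ∀ l, jf (g l) Z0 * c' l ≠ 0 := fun l => mul_ne_zero (hj l) (hc' l)
    refine ⟨jf (g n) Z0 * c' n * e d / (jf (g m) Z0 * c' m),
      div_ne_zero (mul_ne_zero (h1 n) ((map_ne_zero e).2 hd)) (h1 m), fun k F a hF => ?_⟩
    have h2 : ∀ l, F (act (g l) Z0) =
        (jf (g l) Z0 * c' l) ^ k * e (χ (opP (A l) (B l) (res F))) := fun l => by
      rw [← hm' l k _ ⟨hF.mf, hF.inv_Gam.mono hΔ⟩, hF.inv_Gam _ (hγ l)]
      rfl
    rw [h2 n, h2 m, hnm k _ ⟨hF.mf, hF.inv_Gam⟩, div_zpow, ← mul_assoc,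
      div_mul_cancel₀ _ (zpow_ne_zero k (h1 m)), map_mul, map_zpow₀, mul_zpow _ (e d), mul_assoc]
  refine ⟨⟨fun s => act (R.rep t0) (h s), hA.move (R.mem t0), fun n => A (φ n), fun n => cA (φ n),
    fun n => B (φ n), fun n => hsim _, fun o => G0 o, fun o => (G0 o).2,
    fun n o => hφ' n o ▸ hu _ o, fun n k F hF hv => ?_, fun n m hnm ⟨d, hd, h2⟩ => ?_⟩⟩
  · have h1 := ht (φ n) k F hF.1 hF.2 (by
      rw [hφ]
      exact (van_move hA (Gam_le (R.mem t0)) k F).2 hv)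
    rw [hm' _ k F hF] at h1
    exact (map_eq_zero e).1 ((mul_eq_zero.1 h1).resolve_left
      (zpow_ne_zero k (mul_ne_zero (hj _) (hc' _))))
  · rcases lt_trichotomy (φ n : ℕ) (φ m) with h1 | h1 | h1
    · refine hne _ _ h1 (hsame _ _ d⁻¹ (inv_ne_zero hd) fun k F hF => ?_)
      rw [h2 k F hF, _root_.inv_zpow, inv_mul_cancel_left₀ (zpow_ne_zero k hd)]
    · exact hnm (φ.injective (Subtype.ext h1))
    · exact hne _ _ h1 (hsame _ _ d hd h2)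

/-- A multiplicative function on a submonoid of `ℤ` extends to the cyclic group it generates. -/
theorem exists_root_hom {K : Type} [Field K] [IsAlgClosed K] (H : AddSubmonoid ℤ) (ρ : ℤ → K)
    (h0 : ∀ k ∈ H, ρ k ≠ 0) (h : ∀ k ∈ H, ∀ l ∈ H, ρ (k + l) = ρ k * ρ l) :
    ∃ d : K, d ≠ 0 ∧ ∀ k ∈ H, ρ k = d ^ k := by
  have h1 : ρ 0 = 1 := mul_left_cancel₀ (h0 0 H.zero_mem) (by
    rw [← h 0 H.zero_mem 0 H.zero_mem, add_zero, mul_one])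
  have h2 : ∀ a ∈ H, ∀ n : ℕ, ρ (n • a) = ρ a ^ n := fun a ha n => by
    induction n with
    | zero => rw [zero_smul, pow_zero, h1]
    | succ n ih => rw [succ_nsmul, h _ (nsmul_mem ha n) _ ha, ih, pow_succ]
  let G : AddSubgroup ℤ :=
    { carrier := {x | ∃ a ∈ H, ∃ b ∈ H, x = a - b}
      add_mem' := by
        rintro _ _ ⟨a, ha, b, hb, rfl⟩ ⟨a', ha', b', hb', rfl⟩
        exact ⟨a + a', add_mem ha ha', b + b', add_mem hb hb', by ring⟩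
      zero_mem' := ⟨0, H.zero_mem, 0, H.zero_mem, rfl⟩
      neg_mem' := by
        rintro _ ⟨a, ha, b, hb, rfl⟩
        exact ⟨b, hb, a, ha, neg_sub a b⟩ }
  obtain ⟨g, hg⟩ := Int.subgroup_cyclic G
  obtain ⟨a, ha, b, hb, hab⟩ : g ∈ G := hg ▸ AddSubgroup.mem_closure_singleton_self g
  have hA := h0 a ha
  have hB := h0 b hb
  have h3 : ∀ k ∈ H, ∃ n : ℤ, k = g * n ∧ ρ k = (ρ a / ρ b) ^ n := fun k hk => by
    have hk' : k ∈ G := ⟨k, hk, 0, H.zero_mem, (sub_zero k).symm⟩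
    rw [hg, AddSubgroup.mem_closure_singleton] at hk'
    obtain ⟨n, hn⟩ := hk'
    refine ⟨n, by rw [← hn, smul_eq_mul, mul_comm], ?_⟩
    obtain ⟨m, rfl | rfl⟩ := n.eq_nat_or_neg
    · have e1 : k + m • b = m • a := by
        rw [← hn, hab]
        simp only [smul_eq_mul, nsmul_eq_mul]
        ring
      have e2 := h k hk _ (nsmul_mem hb m)
      rw [e1, h2 a ha, h2 b hb] at e2
      rw [_root_.zpow_natCast, div_pow, e2, mul_div_cancel_right₀ _ (pow_ne_zero m hB)]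
    · have e1 : k + m • a = m • b := by
        rw [← hn, hab]
        simp only [smul_eq_mul, nsmul_eq_mul]
        ring
      have e2 := h k hk _ (nsmul_mem ha m)
      rw [e1, h2 a ha, h2 b hb] at e2
      rw [_root_.zpow_neg, _root_.zpow_natCast, div_pow, inv_div, e2,
        mul_div_cancel_right₀ _ (pow_ne_zero m hA)]
  have hx := div_ne_zero hA hB
  obtain ⟨d, hd0, hd⟩ : ∃ d : K, d ≠ 0 ∧ (g ≠ 0 → d ^ g = ρ a / ρ b) := by
    obtain ⟨m, rfl | rfl⟩ := g.eq_nat_or_neg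
    all_goals rcases m.eq_zero_or_pos with rfl | hm
    · exact ⟨1, one_ne_zero, fun h => absurd rfl h⟩
    · obtain ⟨d, hd⟩ := IsAlgClosed.exists_pow_nat_eq (ρ a / ρ b) hm
      exact ⟨d, fun h => hx (by rw [← hd, h, zero_pow hm.ne']), fun _ => by
        rw [_root_.zpow_natCast, hd]⟩
    · exact ⟨1, one_ne_zero, fun h => absurd rfl h⟩
    · obtain ⟨d, hd⟩ := IsAlgClosed.exists_pow_nat_eq (ρ a / ρ b) hm
      exact ⟨d⁻¹, inv_ne_zero fun h => hx (by rw [← hd, h, zero_pow hm.ne']), fun _ => by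
        rw [_root_.inv_zpow', neg_neg, _root_.zpow_natCast, hd]⟩
  refine ⟨d, hd0, fun k hk => ?_⟩
  obtain ⟨n, hn, e1⟩ := h3 k hk
  by_cases hg0 : g = 0
  · rw [hn, hg0, zero_mul, h1, _root_.zpow_zero]
  · rw [e1, hn, _root_.zpow_mul, hd hg0]

/-- For `F`, `G` of weight `k` compare `F * G ^ (k0 - 1) * θ ^ j` and `G ^ k0 * θ ^ j`: the ratio
`v F / v' F` only depends on `k`. -/
theorem FC.prop {v v' : Fn → ℂ_[p]} (h : FC e v) (h' : FC e v') (hΔ : Δ ≤ Gam) {k0 : ℕ}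
    (hk : 0 < k0) {θ : Fn} (hθ : MI Δ k0 θ) (h0 : v θ ≠ 0) (h0' : v' θ ≠ 0)
    (hv : ∀ (a : ℕ) F, MI Δ (a * k0) F → v F * (v θ)⁻¹ ^ a = v' F * (v' θ)⁻¹ ^ a) :
    ∃ d : ℂ_[p], d ≠ 0 ∧ ∀ k F, MI Δ k F → v F = d ^ k * v' F := by
  obtain ⟨r, rfl⟩ := Nat.exists_eq_succ_of_ne_zero hk.ne'
  have key : ∀ k : ℤ, ∃ x : ℂ_[p], x ≠ 0 ∧ ∀ F G, MI Δ k F → MI Δ k G →
      v F * v G ^ r = x * (v' F * v' G ^ r) := fun k => by
    obtain ⟨j, a, hj⟩ : ∃ j a : ℕ, k + j = a := ⟨k.natAbs, (k + k.natAbs).toNat, by omega⟩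
    have e0 := mul_ne_zero (pow_ne_zero j h0) (pow_ne_zero a (inv_ne_zero h0))
    refine ⟨v' θ ^ j * (v' θ)⁻¹ ^ a / (v θ ^ j * (v θ)⁻¹ ^ a), div_ne_zero
      (mul_ne_zero (pow_ne_zero j h0') (pow_ne_zero a (inv_ne_zero h0'))) e0, fun F G hF hG => ?_⟩
    have h1 := hG.pow hΔ r
    have h2 := hF.mul hΔ h1
    have h3 := hθ.pow hΔ j
    have h4 := h2.mul hΔ h3
    have e1 : k + r * k + j * (r.succ : ℤ) = a * (r.succ : ℤ) := by
      rw [← hj]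
      push_cast
      ring
    rw [e1] at h4
    have h5 := hv a _ h4
    rw [h.mul _ _ _ _ h2.1 h3.1, h.mul _ _ _ _ hF.1 h1.1, h.pow hG.1, h.pow hθ.1,
      h'.mul _ _ _ _ h2.1 h3.1, h'.mul _ _ _ _ hF.1 h1.1, h'.pow hG.1, h'.pow hθ.1] at h5
    rw [div_mul_eq_mul_div, eq_div_iff e0]
    linear_combination h5
  have h1 : ∀ k F, MI Δ k F → (v F = 0 ↔ v' F = 0) := fun k F hF => by
    obtain ⟨x, hx, h2⟩ := key k
    have h3 := h2 F F hF hF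
    rw [← pow_succ', ← pow_succ'] at h3
    rw [← pow_eq_zero_iff r.succ_ne_zero, h3, mul_eq_zero, or_iff_right hx,
      pow_eq_zero_iff r.succ_ne_zero]
  have h2 : ∀ k F G, MI Δ k F → MI Δ k G → v' G ≠ 0 → v F = v G / v' G * v' F :=
    fun k F G hF hG h3 => by
      obtain ⟨x, -, h4⟩ := key k
      have h5 := pow_ne_zero r (mt (h1 k G hG).1 h3)
      rw [div_mul_eq_mul_div, eq_div_iff h3]
      refine mul_right_cancel₀ h5 ?_
      linear_combination v' G * h4 F G hF hG - v' F * h4 G G hG hG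
  let H : AddSubmonoid ℤ :=
    { carrier := {k | ∃ G, MI Δ k G ∧ v' G ≠ 0}
      add_mem' := fun ⟨F, hF, e1⟩ ⟨G, hG, e2⟩ => ⟨F * G, hF.mul hΔ hG, by
        rw [h'.mul _ _ _ _ hF.1 hG.1]
        exact mul_ne_zero e1 e2⟩
      zero_mem' := ⟨1, ⟨MF.one, Inv.one Δ⟩, by
        rw [h'.one]
        exact one_ne_zero⟩ }
  have h3 : ∀ k ∈ H, ∃ G, MI Δ k G ∧ v' G ≠ 0 := fun k hk => hk
  choose! G hG hG' using h3
  obtain ⟨d, hd, h4⟩ := exists_root_hom H (fun k => v (G k) / v' (G k))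
    (fun k hk => div_ne_zero (mt (h1 k _ (hG k hk)).1 (hG' k hk)) (hG' k hk)) fun k hk l hl => by
      have h5 := h2 _ _ _ ((hG k hk).mul hΔ (hG l hl)) (hG _ (add_mem hk hl))
        (hG' _ (add_mem hk hl))
      rw [h.mul _ _ _ _ (hG k hk).1 (hG l hl).1, h'.mul _ _ _ _ (hG k hk).1 (hG l hl).1] at h5
      rw [div_mul_div_comm, h5, mul_div_cancel_right₀ _ (mul_ne_zero (hG' k hk) (hG' l hl))]
  refine ⟨d, hd, fun k F hF => ?_⟩
  by_cases h5 : v' F = 0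
  · rw [h5, (h1 k F hF).2 h5, mul_zero]
  · have hk : k ∈ H := ⟨F, hF, h5⟩
    rw [← h4 k hk]
    exact h2 k F _ hF (hG k hk) (hG' k hk)

end Pool.Agent.E7
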