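import Pool.Agent.Lib.MP_7e5527_ag.EO.TDefs
import Pool.Agent.Lib.MP_7e5527_ag.E7.ConeI

/-! The data of an infinite sequence of ordinary Hecke points on a curve. -/

open Filter Topology Polynomial Matrix
open scoped Polynomial.Bivariate

noncomputable section

namespace Pool.Agent.E7

variable {p : ℕ} [Fact p.Prime] {R : Type} [CommRing R] {S : TW p cone R}

/-- Eight times the norm, in the coordinates of the basis `TT`. -/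
def Np : MvPolynomial Ix ℤ :=
  nrm fun l' => ∑ l, MvPolynomial.X l * MvPolynomial.C ⌊2 * TT l l'⌋

/-- The norm of the gradient of a linear combination of the coordinates. -/
def Fr.NB (E : Fr S) (lam : Ix → ℤ) : R :=
  MvPolynomial.aeval (fun l => E.dq l (∑ i, (lam i : R) * E.e i)) Np

/-- The frame is adapted to the class, and the norms of gradients are forms. -/
structure Ad3 (M : Cl S) (E : Fr S) : Prop extends Ad M E where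
  nb : ∃ h : ℕ, 0 < h ∧ ∀ lam : Fin h → Ix → ℤ, ∏ r, E.NB (lam r) ∈ M.M (6 * h + 1)

/-- A similitude of the norm, in dual coordinates. -/
def Conf {K : Type} [Field K] (κ : Matrix Ix Ix K) : Prop :=
  ∃ c : K, c ≠ 0 ∧ ∀ y, nrm (pt (κ *ᵥ y)) = c * nrm (pt y)

/-- The derivative of the norm in the direction `β`. -/
def cub {K : Type} [Field K] (β : Matrix Ix Ix K) (y : Ix → K) : K :=
  tr (sharp (pt y)) (pt (β *ᵥ y))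

/-- An integral matrix over `ℂ_[p]`. -/
def mc (p : ℕ) [Fact p.Prime] (M : Matrix Ix Ix ℤ) : Matrix Ix Ix ℂ_[p] :=
  M.map fun a => (a : ℂ_[p])

/-- The equations of the curve for the parameter `i1`, and their Wronskians. -/
structure Pk (E : Fr S) (ψ : ℕ → R →+* ℂ_[p]) (E0 : IntermediateField ℚ_[p] ℂ_[p]) (i1 : Ix) where
  Ph : Ix → MvPolynomial (Fin 3) ℂ_[p]
  m : Ix → ℕ
  Ψ : ℕ → R
  hom : ∀ j, (Ph j).IsHomogeneous (m j)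
  coE : ∀ j ν, (Ph j).coeff ν ∈ E0
  van : ∀ n j, MvPolynomial.eval ![1, E.xc (ψ n) i1, E.xc (ψ n) j] (Ph j) = 0
  dep : ∀ d, ∃ Q0 : ℂ_[p][X], Q0 ≠ 0 ∧ ∃ B : ℝ, ∀ n,
    ‖Q0.eval (E.xc (ψ n) i1)‖ ≤ B * ‖ψ n (Ψ d)‖
  orc : Orc S E.e0 (fun j => MvPolynomial.eval₂ S.cst ![E.e0, E.e i1, E.e j] (Ph j)) Ψ

/-- An infinite sequence of ordinary Hecke points on a curve. -/
structure ODat (S : TW p cone R) where
  M : Cl S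
  W : Cl S
  tow : W.Tow
  sub : ∀ a, M.M a ⊆ W.M a
  χ : R →+* ℂ_[p]
  Ec : Fr S
  gc : Ec.Gp χ
  ac : Ad3 M Ec
  bc : BDeg M Ec
  wc : Ad W Ec
  algc : ∀ i, IsAlgebraic ℚ_[p] (Ec.xc χ i)
  E : Fr S
  aE : Ad3 M E
  bE : BDeg M E
  wE : Ad W E
  ψ : ℕ → R →+* ℂ_[p]
  gp : ∀ n, E.Gp (ψ n)
  lin : ∀ n, S.Lin (ψ n)
  alg : ∀ n b i, IsAlgebraic ℚ_[p] (E.xc ((ψ n).comp (S.fr ^ b)) i)
  ψ' : ℕ → R →+* ℂ_[p]
  E' : ℕ → Fr S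
  M' : ℕ → Cl S
  gp' : ∀ n, (E' n).Gp (ψ' n)
  lin' : ∀ n, S.Lin (ψ' n)
  a' : ∀ n, Ad3 (M' n) (E' n)
  b' : ∀ n, BDeg (M' n) (E' n)
  w' : ∀ n, Ad W (E' n)
  alg' : ∀ n i, IsAlgebraic ℚ_[p] ((E' n).xc (ψ' n) i)
  N : ℕ → ℕ
  hN : ∀ n, 0 < N n
  g0 : ℕ → R →+* R
  isg0 : ∀ n, S.Isg (g0 n) ((N n : ℤ) • (1 : Matrix Ix Ix ℤ))
  eq0 : ∀ n, χ = (ψ' n).comp (g0 n)
  g : ℕ → R →+* R
  Cm : ℕ → Matrix Ix Ix ℤ
  isg : ∀ n, S.Isg (g n) (Cm n)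
  t : ℕ → R →+* R
  ζ : ℕ → Ix → ℂ_[p]ˣ
  Mo : ℕ → ℕ
  trl : ∀ n, S.Trl (t n) (ζ n) (Mo n)
  eq1 : ∀ n, ψ n = ((ψ' n).comp (g n)).comp (t n)
  w0 : ∀ n a, ∀ F ∈ W.M a, g0 n F ∈ W.M a
  w1 : ∀ n a, ∀ F ∈ W.M a, g n F ∈ W.M a
  m0 : ∀ n a, ∀ F ∈ M.M a, g0 n F ∈ (M' n).M a
  m1 : ∀ n a c, ∀ F ∈ M.M a, g n (S.cs (Mo n) c F) ∈ (M' n).M a
  conf : ∀ n, Conf (mc p (Cm n))
  i1 : Ix
  fib : ∀ c, {n | E.xc (ψ n) i1 = c}.Finite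
  rel : ∀ j, ∃ P : ℂ_[p][X][Y], P ≠ 0 ∧ ∀ n, P.evalEval (E.xc (ψ n) i1) (E.xc (ψ n) j) = 0
  E0 : IntermediateField ℚ_[p] ℂ_[p]
  fin : FiniteDimensional ℚ_[p] E0
  pk : Pk E ψ E0 i1
  nc : ∀ s f α, 0 < f → Frob s f → ZpM α → M.Tor (s.comp χ) χ α →
    ¬ ∃ t : ℂ_[p], ∀ y, cub α y = t * nrm (pt y)

/-- The equations of the curve. -/
abbrev ODat.Φ (D : ODat S) (j : Ix) : R :=
  MvPolynomial.eval₂ S.cst ![D.E.e0, D.E.e D.i1, D.E.e j] (D.pk.Ph j)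

/-- The coordinates of the points. -/
abbrev ODat.x (D : ODat S) (n : ℕ) : Ix → ℂ_[p] := D.E.xc (D.ψ n)

end Pool.Agent.E7
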