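import Pool.Agent.Lib.MP_7e5527_ag.EO.QCQ
import Pool.Agent.Lib.MP_7e5527_ag.EO.TDat
import Pool.Agent.Lib.MP_7e5527_ag.E7.SRE

/-! The ring of series and its operators. -/

open Filter Topology Polynomial Matrix

noncomputable section

namespace Pool.Agent.E7

variable {p : ℕ} [Fact p.Prime]

/-- Limits of sums of forms, with exponents in the lattice. -/
def RQ (e : ℂ_[p] ≃+* ℂ) : Subalgebra ℂ Fn := CQ e ⊓ GZ

variable {e : ℂ_[p] ≃+* ℂ}

theorem mem_RQ {F : Fn} : F ∈ RQ e ↔ IsCQ e F ∧ F ∈ GZ := Iff.rfl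

theorem RQ.gd (F : RQ e) : Gd (F : Fn) := F.2.1.1

theorem MF.mem_RQ {k : ℤ} {F : Fn} (h : MF k F) (hZ : F ∈ GZ) : F ∈ RQ e := ⟨h.isCQ, hZ⟩

/-- The adjoint preserves the lattice. -/
def IntS (A : Matrix Ix Ix ℚ) : Prop := ∀ T ∈ Lam, lin (adjM A) T ∈ Lam

theorem qr1_adj (t : ℚ) (T : Ix → ℚ) : lin (adjM (t • (1 : Matrix Ix Ix ℚ))) T = t • T := by
  rw [adjM_smul, adjM_one, lin_scalar, Rat.cast_id]

theorem qr1_lin (t : ℚ) (A : Matrix Ix Ix ℚ) (T : Ix → ℚ) : lin (t • A) T = t • lin A T := by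
  rw [← one_mul A, ← smul_mul_assoc, lin_mul, lin_scalar, Rat.cast_id, one_mul]

theorem qr1_eT (T : Ix → ℚ) : eT T (toR ℂ 0) = 1 :=
  (eT_eq_one T 0).2 ⟨0, by rw [tr_zero_right, Int.cast_zero]⟩

theorem qr1_cf {F : Fn} (h : Gd F) {t : ℚ} (ht : 0 < t) (T : Ix → ℚ) :
    cf (opP (t • 1) 0 F) (t • T) = cf F T := by
  have h1 := cf_opP h (isSim_scalar ht) 0 T
  rwa [qr1_adj, qr1_eT, mul_one] at h1

theorem qr1_vec (n : ℕ) (m : Ix → ℤ) : vec ((n : ℤ) • m) = (n : ℚ) • vec m := by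
  simp only [vec, Finset.smul_sum, Pi.smul_apply, smul_eq_mul, Int.cast_mul, Int.cast_natCast,
    mul_smul]

theorem qr1_clc {N : ℕ} {T0 T : Ix → ℚ} {a : (Ix → ℚ) → ℂ} (h : clc N T0 a T ≠ 0) :
    (N : ℚ)⁻¹ • (T - T0) ∈ Lam ∧ a T ≠ 0 := by
  unfold clc at h
  split_ifs at h with h1
  · exact ⟨h1, h⟩
  · exact absurd rfl h

theorem intS_scalar (N : ℕ) : IntS ((N : ℚ) • 1) := fun T hT => by
  rw [qr1_adj]
  exact Lam.nsmul hT N

theorem intS_one : IntS 1 := fun T hT => by rwa [adjM_one, lin_one]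

theorem exists_intS (A : Matrix Ix Ix ℚ) : ∃ N : ℕ, 0 < N ∧ IntS ((N : ℚ) • A) := by
  obtain ⟨M, hM, h⟩ := exists_den_lin (adjM A)
  exact ⟨M, hM, fun T hT => by rw [adjM_smul, qr1_lin]; exact h T hT⟩

theorem RQ.opP_mem {A : Matrix Ix Ix ℚ} {c : ℚ} (hA : IsSim A c) (hZ : IntS A) (B : Ix → ℚ)
    (F : RQ e) : opP A B F ∈ RQ e := by
  have h1 := (RQ.gd F).spec.opP hA B
  refine ⟨F.2.1.opP hA B, ⟨_, h1⟩, fun T hT => ?_⟩
  rw [h1.cf_eq] at hT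
  have h2 := hZ _ (F.2.2.2 _ (left_ne_zero_of_mul hT))
  rwa [lin_lin_inv (det_adjM A ▸ hA.1)] at h2

theorem RQ.clsF_mem {N : ℕ} (hN : 0 < N) (T0 : Ix → ℚ) (F : RQ e) : clsF N T0 F ∈ RQ e := by
  have h1 := F.2.1.clsF hN T0
  refine ⟨h1, h1.1, fun T hT => ?_⟩
  rw [cf_clsF (RQ.gd F) hN] at hT
  exact F.2.2.2 _ (qr1_clc hT).2

theorem RQ.up_mem (F : RQ e) : opP ((p : ℚ)⁻¹ • 1) 0 (clsF p 0 F) ∈ RQ e := by
  have hp : 0 < p := (Fact.out : p.Prime).pos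
  have hq : (0 : ℚ) < p := Nat.cast_pos.2 hp
  have h1 := F.2.1.clsF hp 0
  have h2 := h1.opP (isSim_scalar (inv_pos.2 hq)) 0
  refine ⟨h2, h2.1, fun T hT => ?_⟩
  have h3 := qr1_cf h1.1 (inv_pos.2 hq) ((p : ℚ) • T)
  rw [inv_smul_smul₀ hq.ne'] at h3
  rw [h3, cf_clsF (RQ.gd F) hp] at hT
  have h4 := (qr1_clc hT).1
  rwa [sub_zero, inv_smul_smul₀ hq.ne'] at h4

theorem RQ.dl_mem (i : Ix) (F : RQ e) : dl i F ∈ RQ e := ⟨F.2.1.dl F.2.2 i, GZ.dl_mem i F.2.2⟩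

/-- A parabolic operator on the ring. -/
def opR (e : ℂ_[p] ≃+* ℂ) {A : Matrix Ix Ix ℚ} {c : ℚ} (hA : IsSim A c) (hZ : IntS A)
    (B : Ix → ℚ) : RQ e →+* RQ e :=
  ((opP A B).toRingHom.comp (RQ e).val.toRingHom).codRestrict (RQ e) (RQ.opP_mem hA hZ B)

theorem opR_coe {A : Matrix Ix Ix ℚ} {c : ℚ} (hA : IsSim A c) (hZ : IntS A) (B : Ix → ℚ)
    (F : RQ e) : (opR e hA hZ B F : Fn) = opP A B F := rfl

theorem isSim_nat {N : ℕ} (hN : 0 < N) : IsSim ((N : ℚ) • (1 : Matrix Ix Ix ℚ)) ((N : ℚ) ^ 3) :=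
  isSim_scalar (Nat.cast_pos.2 hN)

/-- The coefficients. -/
def coR (e : ℂ_[p] ≃+* ℂ) : RQ e →+ ((Ix → ℤ) → ℂ_[p]) :=
  AddMonoidHom.mk' (fun F m => e.symm (cf F (vec m))) fun F G => by
    funext m
    show e.symm (cf ((F : Fn) + G) (vec m)) = e.symm (cf F (vec m)) + e.symm (cf G (vec m))
    rw [cf_add (RQ.gd F) (RQ.gd G), Pi.add_apply, map_add]

theorem qr1_ex (F : RQ e) {T : Ix → ℚ} (h : cf (F : Fn) T ≠ 0) : ∃ m, vec m = T := by
  have h1 : T ∈ Set.range vec := range_vec ▸ F.2.2.2 T h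
  exact h1

theorem qr1_inj : Function.Injective (coR e) := by
  intro F G h
  have h1 : cf (F : Fn) = cf (G : Fn) := by
    funext T
    by_cases hT : ∃ m, vec m = T
    · obtain ⟨m, rfl⟩ := hT
      exact e.symm.injective (congrFun h m)
    · rw [not_not.1 (mt (qr1_ex F) hT), not_not.1 (mt (qr1_ex G) hT)]
  refine Subtype.ext (funext fun Z => ?_)
  have h2 := (RQ.gd F).spec.sum Z
  rw [h1] at h2
  exact h2.unique ((RQ.gd G).spec.sum Z)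

/-- The ring with its operators (compare `SRE`). -/
def TWE (e : ℂ_[p] ≃+* ℂ) : TW p cone (RQ e) where
  co := coR e
  inj := qr1_inj
  supp := fun F T h => (SRE e).supp ⟨F, F.2.2⟩ T h
  co_one := (SRE e).co_one
  co_mul := fun F G T => sre1_mul e ⟨F, F.2.2⟩ ⟨G, G.2.2⟩ T
  bdd := fun F => by
    obtain ⟨B, hB, h⟩ := (RQ.gd F).gb e
    exact ⟨B, hB.le, fun T => h _⟩
  cst := (algebraMap ℂ (RQ e)).comp e.toRingHom
  co_cst := fun c F T => (SRE e).co_cst c ⟨F, F.2.2⟩ T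
  del i F := ⟨dl i F, RQ.dl_mem i F⟩
  co_del := fun i F T => (SRE e).co_del i ⟨F, F.2.2⟩ T
  cs N c F := if h : 0 < N then ⟨clsF N (vec c) F, RQ.clsF_mem h _ F⟩ else 0
  co_cs := fun N c F T hN => by
    rw [dif_pos hN]
    show e.symm (cf (clsF N (vec c) F) (vec T)) = if Cg N T c then e.symm (cf F (vec T)) else 0
    rw [cf_clsF (RQ.gd F) hN, clc_vec hN]
    by_cases h : Cg N T c
    · rw [if_pos h, if_pos (show ∀ i, (N : ℤ) ∣ T i - c i from h)]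
    · rw [if_neg h, if_neg (show ¬∀ i, (N : ℤ) ∣ T i - c i from h), map_zero]
  fr := opR e (isSim_nat (Fact.out : p.Prime).pos) (intS_scalar p) 0
  co_fr := fun F T => by
    show e.symm (cf (opP ((p : ℚ) • 1) 0 F) (vec ((p : ℤ) • T))) = e.symm (cf F (vec T))
    rw [qr1_vec, qr1_cf (RQ.gd F) (Nat.cast_pos.2 (Fact.out : p.Prime).pos)]
  co_fr0 := fun F T h => by
    have hq : (0 : ℚ) < p := Nat.cast_pos.2 (Fact.out : p.Prime).pos
    have h1 : cf (opP ((p : ℚ) • 1) 0 F) (vec T) ≠ 0 := sre1_ne e h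
    have h2 := qr1_cf (RQ.gd F) hq ((p : ℚ)⁻¹ • vec T)
    rw [smul_inv_smul₀ hq.ne'] at h2
    rw [h2] at h1
    obtain ⟨m, hm⟩ := qr1_ex F h1
    have h3 : (p : ℤ) • m = T := vec_inj (by rw [qr1_vec, hm, smul_inv_smul₀ hq.ne'])
    intro i
    exact ⟨m i, by rw [← h3, Pi.zero_apply, sub_zero, Pi.smul_apply, smul_eq_mul]⟩
  up F := ⟨_, RQ.up_mem F⟩
  co_up := fun F T => by
    have hp : 0 < p := (Fact.out : p.Prime).pos
    have hq : (0 : ℚ) < p := Nat.cast_pos.2 hp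
    show e.symm (cf (opP ((p : ℚ)⁻¹ • 1) 0 (clsF p 0 F)) (vec T)) =
      e.symm (cf F (vec ((p : ℤ) • T)))
    have h3 := qr1_cf (F.2.1.clsF hp 0).1 (inv_pos.2 hq) ((p : ℚ) • vec T)
    rw [inv_smul_smul₀ hq.ne'] at h3
    rw [h3, cf_clsF (RQ.gd F) hp, qr1_vec, clc,
      if_pos (by rw [sub_zero, inv_smul_smul₀ hq.ne']; exact vec_mem T)]

theorem TWE_co (F : RQ e) (m : Ix → ℤ) : (TWE e).co F m = e.symm (cf F (vec m)) := rfl

theorem TWE_cst (c : ℂ_[p]) : ((TWE e).cst c : Fn) = algebraMap ℂ Fn (e c) := rfl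

theorem TWE_del (i : Ix) (F : RQ e) : ((TWE e).del i F : Fn) = dl i F := rfl

theorem TWE_cs {N : ℕ} (hN : 0 < N) (c : Ix → ℤ) (F : RQ e) :
    ((TWE e).cs N c F : Fn) = clsF N (vec c) F := by
  change ((if h : 0 < N then ⟨clsF N (vec c) F, RQ.clsF_mem h _ F⟩ else 0 : RQ e) : Fn) = _
  rw [dif_pos hN]

theorem TWE_fr (F : RQ e) : ((TWE e).fr F : Fn) = opP ((p : ℚ) • 1) 0 F := rfl

theorem TWE_up (F : RQ e) : ((TWE e).up F : Fn) = opP ((p : ℚ)⁻¹ • 1) 0 (clsF p 0 F) := rfl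

theorem TWE_fr_pow (f : ℕ) (F : RQ e) :
    (((TWE e).fr ^ f) F : Fn) = opP (((p ^ f : ℕ) : ℚ) • 1) 0 F := by
  induction f generalizing F with
  | zero => rw [pow_zero, pow_zero, Nat.cast_one, one_smul, opP_one, RingHom.one_def,
      RingHom.id_apply]
  | succ f ih =>
    rw [pow_succ', RingHom.mul_def, RingHom.comp_apply, TWE_fr, ih,
      opP_opP (isSim_nat (Fact.out : p.Prime).pos), lin_zero, add_zero, smul_mul_smul_comm, one_mul,
      pow_succ, Nat.cast_mul]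

theorem bd_iff {B : ℝ} (hB : 0 ≤ B) (F : RQ e) : (TWE e).Bd B F ↔ GB e B F := by
  refine ⟨fun h T => ?_, fun h m => h _⟩
  by_cases hT : cf (F : Fn) T = 0
  · rwa [hT, map_zero, norm_zero]
  · obtain ⟨m, rfl⟩ := qr1_ex F hT
    exact h m

theorem zi_iff (F : RQ e) : (TWE e).Zi F ↔ IntC F := by
  refine ⟨fun h T => ?_, fun h m => ?_⟩
  · by_cases hT : cf (F : Fn) T = 0
    · exact ⟨0, by rw [hT, Int.cast_zero]⟩
    · obtain ⟨m, rfl⟩ := qr1_ex F hT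
      obtain ⟨n, hn⟩ := h m
      refine ⟨n, e.symm.injective ?_⟩
      rw [map_intCast]
      exact hn
  · obtain ⟨n, hn⟩ := h (vec m)
    exact ⟨n, by rw [TWE_co, hn, map_intCast]⟩

/-- The action on the exponents, in coordinates. -/
def cmat (A : Matrix Ix Ix ℚ) : Matrix Ix Ix ℤ :=
  Matrix.of fun i l => ⌊tr (lin (adjM A) (TT i)) (UU l)⌋

private theorem qr2_cast {A : Matrix Ix Ix ℚ} (hZ : IntS A) (i l : Ix) :
    (cmat A i l : ℚ) = tr (lin (adjM A) (TT i)) (UU l) := by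
  obtain ⟨n, hn⟩ := Lam.tr_int (hZ _ (TT_mem i)) (UU_mem l)
  rw [cmat, Matrix.of_apply, hn, Int.floor_intCast]

private theorem qr2_eT (T : Ix → ℚ) : eT T (toR ℂ 0) = 1 :=
  (eT_eq_one T 0).2 ⟨0, by rw [tr_zero_right, Int.cast_zero]⟩

theorem vec_cmat {A : Matrix Ix Ix ℚ} (hZ : IntS A) (m : Ix → ℤ) :
    vec (m ᵥ* cmat A) = lin (adjM A) (vec m) := by
  rw [← latJ_sum_TT (lin (adjM A) (vec m)), vec]
  refine Finset.sum_congr rfl fun l _ => ?_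
  rw [latJ_lin_exp, Matrix.vecMul, dotProduct, Int.cast_sum]
  refine congrArg (· • TT l) (Finset.sum_congr rfl fun i _ => ?_)
  rw [Int.cast_mul, qr2_cast hZ, tr_vec_UU, mul_comm]

theorem pt_cmat {A : Matrix Ix Ix ℚ} (hZ : IntS A) {K : Type} [Field K] [CharZero K] (y : Ix → K) :
    pt ((cmat A).map (fun a => (a : K)) *ᵥ y) = lin A (pt y) := by
  rw [← pt_yc (lin A (pt y))]
  refine congrArg pt (funext fun i => ?_)
  rw [yc, tr_lin, lin_toR, ← vec_single, ← vec_cmat hZ, tr_vec_pt, Matrix.single_one_vecMul]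
  rfl

theorem cmat_scalar (N : ℕ) : cmat ((N : ℚ) • 1) = (N : ℤ) • (1 : Matrix Ix Ix ℤ) := by
  ext i l
  rw [cmat, Matrix.of_apply, adjM_smul, adjM_one, lin_scalar, tr_smul_left, tr_TT_UU,
    Matrix.smul_apply, Matrix.one_apply]
  split_ifs <;> simp

theorem isg_opR {A : Matrix Ix Ix ℚ} {c : ℚ} (hA : IsSim A c) (hZ : IntS A) :
    (TWE e).Isg (opR e hA hZ 0) (cmat A) := by
  have hd : IsUnit (adjM A).det := by rw [det_adjM]; exact hA.1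
  refine ⟨fun h0 => ?_, fun F T => ?_, fun F T h => ?_⟩
  · obtain ⟨m, hm, h1⟩ := Matrix.exists_vecMul_eq_zero_iff.2 h0
    have h2 := vec_cmat hZ m
    rw [h1, vec_zero] at h2
    have h3 := lin_inv_lin hd (vec m)
    rw [← h2, lin_zero] at h3
    exact hm (vec_inj (h3.symm.trans vec_zero.symm))
  · rw [TWE_co, TWE_co, opR_coe, vec_cmat hZ, cf_opP (RQ.gd F) hA, qr2_eT, mul_one]
  · rw [TWE_co, opR_coe, ← lin_lin_inv hd (vec T), cf_opP (RQ.gd F) hA] at h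
    have h1 : lin (adjM A)⁻¹ (vec T) ∈ Set.range vec :=
      range_vec ▸ F.2.2.2 _ (left_ne_zero_of_mul (sre1_ne e h))
    obtain ⟨m, hm⟩ := h1
    refine ⟨m, vec_inj ?_⟩
    rw [vec_cmat hZ, hm, lin_lin_inv hd]

theorem conf_cmat (e : ℂ_[p] ≃+* ℂ) {A : Matrix Ix Ix ℚ} {c : ℚ} (hA : IsSim A c) (hZ : IntS A) :
    Conf (mc p (cmat A)) :=
  ⟨(c : ℂ_[p]), Rat.cast_ne_zero.2 hA.pos.ne', fun y => by
    rw [mc, pt_cmat hZ, hA.nrm_lin e.toRingHom]⟩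

/-- The roots of unity of a translation. -/
def zt (e : ℂ_[p] ≃+* ℂ) (B : Ix → ℚ) (i : Ix) : ℂ_[p]ˣ :=
  Units.mk0 (e.symm (eT (TT i) (toR ℂ B))) ((_root_.map_ne_zero _).2 (eT_ne _ _))

private theorem qr2_umon (B : Ix → ℚ) (m : Ix → ℤ) :
    umon (zt e B) m = e.symm (eT (vec m) (toR ℂ B)) := by
  let φ : (Ix → ℚ) →+ Additive ℂ_[p]ˣ :=
    { toFun := fun T => Additive.ofMul (Units.mk0 (e.symm (eT T (toR ℂ B)))
        ((_root_.map_ne_zero _).2 (eT_ne _ _)))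
      map_zero' := congrArg Additive.ofMul (Units.ext (by
        rw [Units.val_mk0, eT_zero, map_one]; rfl))
      map_add' := fun T T' => congrArg Additive.ofMul (Units.ext (by
        rw [Units.val_mk0, eT_add, map_mul]; rfl)) }
  have h : e.symm (eT (vec m) (toR ℂ B)) = ((Additive.toMul (φ (vec m)) : ℂ_[p]ˣ) : ℂ_[p]) := rfl
  rw [h, vec, map_sum, toMul_sum, umon]
  refine congrArg Units.val (Finset.prod_congr rfl fun i _ => ?_)
  rw [Int.cast_smul_eq_zsmul, map_zsmul, toMul_zsmul]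
  rfl

theorem trl_opR {M : ℕ} (hM : 0 < M) {B : Ix → ℚ} (hB : (M : ℚ) • B ∈ Lam) :
    (TWE e).Trl (opR e IsSim.one intS_one B) (zt e B) M := by
  refine ⟨hM, fun i => Units.ext ?_, fun F T => ?_⟩
  · rw [Units.val_pow_eq_pow_val, zt, Units.val_mk0, ← map_pow, ← g1_pow,
      (eT_eq_one _ _).2 (Lam.tr_int (TT_mem i) hB), map_one, Units.val_one]
  · have h := cf_opP (RQ.gd F) IsSim.one B (vec T)
    rw [adjM_one, lin_one] at h
    rw [TWE_co, TWE_co, opR_coe, h, map_mul, qr2_umon, mul_comm]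

/-- The character of a parabolic translate of the point. -/
def chAB (χb : CQ e →+* ℂ_[p]) {A : Matrix Ix Ix ℚ} {c : ℚ} (hA : IsSim A c) (B : Ix → ℚ) :
    RQ e →+* ℂ_[p] :=
  χb.comp (((opP A B).toRingHom.comp (RQ e).val.toRingHom).codRestrict (CQ e)
    fun F => F.2.1.opP hA B)

variable {χ : Fn → ℂ_[p]} {χb : CQ e →+* ℂ_[p]} {A : Matrix Ix Ix ℚ} {c : ℚ}

theorem chAB_eq (h : Ext e χ χb) (hA : IsSim A c) (B : Ix → ℚ) {k : ℤ} {F : RQ e} (hF : MF k F) :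
    chAB χb hA B F = χ (opP A B F) :=
  h.eq k ⟨opP A B F, F.2.1.opP hA B⟩ (hF.opP hA B)

theorem chAB_ch (h : Ext e χ χb) (hA : IsSim A c) (B : Ix → ℚ) : (TWE e).Ch (chAB χb hA B) :=
  fun F B' hB' hb => h.bd ⟨opP A B F, F.2.1.opP hA B⟩ B' hB'
    (GB.opP (RQ.gd F) ((bd_iff hB' F).1 hb) hA B)

theorem chAB_lin (h : Ext e χ χb) (hA : IsSim A c) (B : Ix → ℚ) : (TWE e).Lin (chAB χb hA B) :=
  fun a => ((congrArg χb (Subtype.ext ((opP A B).commutes (e a)))).trans (h.cst (e a))).trans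
    (e.symm_apply_apply a)

theorem chAB_comp (hA : IsSim A c) (B : Ix → ℚ) {A' A'' : Matrix Ix Ix ℚ} {c' c'' : ℚ}
    (hA' : IsSim A' c') (hZ : IntS A') (B' : Ix → ℚ) (hA'' : IsSim A'' c'') {B'' : Ix → ℚ}
    (e1 : A'' = A' * A) (e2 : B'' = lin A' B + B') :
    (chAB χb hA B).comp (opR e hA' hZ B') = chAB χb hA'' B'' := by
  subst e1 e2
  exact RingHom.ext fun F => congrArg χb (Subtype.ext (opP_opP hA B A' B' F))

end Pool.Agent.E7
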