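import Pool.Agent.Lib.MP_7e5527_ag.EO.BH

/-! Systems of equations that are formally unramified. -/

open Filter Topology Polynomial

noncomputable section

namespace Pool.Agent.E7

theorem bs_sep {p : ℕ} [Fact p.Prime] {k L : Type*} [Field k] [Field L] [Algebra k L] [CharP L p]
    {μ : Type*} [Fintype μ] (y : μ → k) {Z : Set L} (hZ : Z.Finite)
    (h : ∀ z ∈ Z, ∃ c : μ → L, (∀ m, c m ∈ Z) ∧ z = ∑ m, algebraMap k L (y m) * c m ^ p) {z : L}
    (hz : z ∈ Z) : IsSeparable k z := by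
  let F := IntermediateField.adjoin k Z
  have : Algebra.EssFiniteType k F := IntermediateField.essFiniteType_iff.2
    ⟨hZ.toFinset, by rw [hZ.coe_toFinset]⟩
  have : CharP F p := (RingHom.charP_iff_charP F.subtype p).2 inferInstance
  have hD : ∀ x (hx : x ∈ F), KaehlerDifferential.D k F ⟨x, hx⟩ = 0 := by
    intro x hx
    induction hx using IntermediateField.adjoin_induction with
    | mem x hx =>
      obtain ⟨c, hc, e⟩ := h x hx
      have e' : (⟨x, IntermediateField.subset_adjoin k Z hx⟩ : F) = ∑ m, y m •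
          (⟨c m, IntermediateField.subset_adjoin k Z (hc m)⟩ : F) ^ p := by
        refine Subtype.ext (e.trans ?_)
        simp [Algebra.smul_def]
      rw [e', map_sum]
      refine Finset.sum_eq_zero fun m _ => ?_
      rw [Derivation.map_smul, Derivation.leibniz_pow, ← Nat.cast_smul_eq_nsmul F,
        CharP.cast_eq_zero, zero_smul, smul_zero]
    | algebraMap x => exact (KaehlerDifferential.D k F).map_algebraMap x
    | add x y hx hy h1 h2 =>
      rw [show (⟨x + y, add_mem hx hy⟩ : F) = ⟨x, hx⟩ + ⟨y, hy⟩ from rfl, map_add, h1, h2, add_zero]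
    | inv x hx h1 =>
      rw [show (⟨x⁻¹, inv_mem hx⟩ : F) = (⟨x, hx⟩ : F)⁻¹ from rfl, Derivation.leibniz_inv, h1,
        smul_zero]
    | mul x y hx hy h1 h2 =>
      rw [show (⟨x * y, mul_mem hx hy⟩ : F) = ⟨x, hx⟩ * ⟨y, hy⟩ from rfl, Derivation.leibniz, h1,
        h2, smul_zero, smul_zero, add_zero]
  have : Algebra.FormallyUnramified k F := ⟨subsingleton_of_forall_eq 0 fun w => by
    have hw : w ∈ Submodule.span F (Set.range (KaehlerDifferential.D k F)) :=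
      KaehlerDifferential.span_range_derivation k F ▸ Submodule.mem_top
    refine (Submodule.mem_bot F).1 (Submodule.span_le.2 ?_ hw)
    rintro _ ⟨x, rfl⟩
    exact hD x x.2⟩
  have := Algebra.FormallyUnramified.isSeparable k F
  exact IntermediateField.isSeparable_of_mem_isSeparable k L (IntermediateField.subset_adjoin k Z hz)

variable {p : ℕ} [Fact p.Prime] {K : Type*} [NontriviallyNormedField K] [IsUltrametricDist K]
  [NormedAlgebra ℂ_[p] K]

omit [IsUltrametricDist K] in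
variable (p K) in
theorem bs_norm_p : ‖(p : K)‖ = (p : ℝ)⁻¹ := by
  rw [← map_natCast (algebraMap ℂ_[p] K), norm_algebraMap',
    ← map_natCast (algebraMap ℚ_[p] ℂ_[p]), norm_algebraMap', Padic.norm_p]

theorem bs_lt : (p : ℝ)⁻¹ < 1 := inv_lt_one_of_one_lt₀ (by exact_mod_cast (Fact.out : p.Prime).one_lt)

theorem bs_pos : 0 < (p : ℝ)⁻¹ := inv_pos.2 (by exact_mod_cast (Fact.out : p.Prime).pos)

variable (p K) in
theorem bs_char : CharP (RK K) p := (CharP.charP_iff_prime_eq_zero Fact.out).2 (by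
  rw [← map_natCast rs, rs_eq_zero]
  exact ((bs_norm_p p K).trans_lt bs_lt :))

/-- The elements of a finite system are congruent to elements of `M`. -/
theorem bs_res {M : Subfield K} (hM : SepCl M) {μ : Type*} [Fintype μ] {y : μ → K}
    (hy : ∀ m, y m ∈ M ∧ ‖y m‖ ≤ 1) {Z : Set K} (hZ : Z.Finite)
    (h : ∀ z ∈ Z, ‖z‖ ≤ 1 ∧ ∃ c : μ → K, (∀ m, c m ∈ Z) ∧ ‖z - ∑ m, y m * c m ^ p‖ ≤ (p : ℝ)⁻¹)
    {z : K} (hz : z ∈ Z) : ∃ a ∈ M, ‖z - a‖ < 1 := by
  have := bs_char p K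
  have := hZ.to_subtype
  let r : Z → OK K := fun z => ⟨z, mem_OK.2 (h z z.2).1⟩
  let y' : μ → OK K := fun m => ⟨y m, mem_OK.2 (hy m).2⟩
  obtain ⟨a, ha, e⟩ := hM _ (bs_sep (p := p) (k := resF M) (fun m => ⟨rs (y' m), y' m, (hy m).1, rfl⟩)
    (Set.finite_range fun z => rs (r z)) (by
      rintro _ ⟨z, rfl⟩
      obtain ⟨-, c, hc, e⟩ := h z z.2
      refine ⟨fun m => rs (r ⟨c m, hc m⟩), fun m => ⟨_, rfl⟩, ?_⟩
      have e1 : rs (r z) = rs (∑ m, y' m * r ⟨c m, hc m⟩ ^ p) := rs_eq.2 (by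
        push_cast
        exact e.trans_lt bs_lt)
      exact e1.trans ((map_sum _ _ _).trans (Finset.sum_congr rfl fun m _ => by
        rw [map_mul, map_pow]; rfl))) ⟨⟨z, hz⟩, rfl⟩)
  exact ⟨a, ha, rs_eq.1 e.symm⟩

theorem bs_pow {z a : K} {r : ℝ} (hz : ‖z‖ ≤ 1) (hr : r ≤ 1) (h : ‖z - a‖ ≤ r) :
    ‖z ^ p - a ^ p‖ ≤ max (r ^ p) ((p : ℝ)⁻¹ * r) := by
  have h1 : z - a ∈ OK K := mem_OK.2 (h.trans hr)
  have ha : a ∈ OK K := by simpa using sub_mem (mem_OK.2 hz) h1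
  obtain ⟨s, hs⟩ := exists_add_pow_prime_eq (Fact.out : p.Prime) (⟨a, ha⟩ : OK K) ⟨z - a, h1⟩
  have e := congrArg (fun u : OK K => (u : K)) hs
  push_cast at e
  rw [add_sub_cancel] at e
  rw [e, show a ^ p + (z - a) ^ p + p * a * (z - a) * s - a ^ p =
    (z - a) ^ p + p * ((z - a) * (a * s)) by ring]
  refine (IsUltrametricDist.norm_add_le_max _ _).trans (max_le_max ?_ ?_)
  · rw [norm_pow]
    exact pow_le_pow_left₀ (norm_nonneg _) h p
  · rw [norm_mul, bs_norm_p, norm_mul]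
    exact mul_le_mul_of_nonneg_left ((mul_le_of_le_one_right (norm_nonneg _)
      (mem_OK.1 (mul_mem ha s.2))).trans h) bs_pos.le

/-- One step: approximate a sum. -/
theorem bs_step {M : Subfield K} {μ : Type*} [Fintype μ] {y : μ → K}
    (hy : ∀ m, y m ∈ M ∧ ‖y m‖ ≤ 1) {c : μ → K} {r : ℝ} (hr : 0 ≤ r)
    (h : ∀ m, ∃ a ∈ M, ‖c m - a‖ ≤ r) : ∃ a ∈ M, ‖∑ m, y m * c m - a‖ ≤ r := by
  choose a ha hc using h
  refine ⟨∑ m, y m * a m, sum_mem fun m _ => mul_mem (hy m).1 (ha m), ?_⟩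
  rw [← Finset.sum_sub_distrib]
  refine IsUltrametricDist.norm_sum_le_of_forall_le_of_nonneg hr fun m _ => ?_
  rw [← mul_sub, norm_mul]
  exact (mul_le_of_le_one_left (norm_nonneg _) (hy m).2).trans (hc m)

theorem bs_near {M : Subfield K} (hM : SepCl M) {μ : Type*} [Fintype μ] {y : μ → K}
    (hy : ∀ m, y m ∈ M ∧ ‖y m‖ ≤ 1) {Z : Set K} (hZ : Z.Finite)
    (h : ∀ z ∈ Z, ‖z‖ ≤ 1 ∧ ∃ c : μ → K, (∀ m, c m ∈ Z) ∧ ‖z - ∑ m, y m * c m ^ p‖ ≤ (p : ℝ)⁻¹)
    {z : K} (hz : z ∈ Z) : ∃ a ∈ M, ‖z - a‖ ≤ (p : ℝ)⁻¹ := by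
  have := hZ.to_subtype
  choose a ha h1 using fun z : Z => bs_res hM hy hZ h z.2
  obtain ⟨z0, h0⟩ := @Finite.exists_max Z ℝ _ ⟨⟨z, hz⟩⟩ _ fun z => ‖(z : K) - a z‖
  set ρ := ‖(z0 : K) - a z0‖ with hρ
  have hρ0 : 0 ≤ ρ := norm_nonneg _
  have hρ1 : ρ < 1 := h1 z0
  have key : ∀ n : ℕ, ∀ z ∈ Z, ∃ a ∈ M, ‖z - a‖ ≤ max (ρ ^ (n + 1)) (p : ℝ)⁻¹ := by
    intro n
    induction n with
    | zero => exact fun z hz => ⟨a ⟨z, hz⟩, ha _, le_max_of_le_left (by simpa using h0 ⟨z, hz⟩)⟩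
    | succ n ih =>
      intro z hz
      obtain ⟨-, c, hc, e⟩ := h z hz
      have hr : max (ρ ^ (n + 1)) (p : ℝ)⁻¹ ≤ 1 := max_le (pow_le_one₀ hρ0 hρ1.le) bs_lt.le
      obtain ⟨b, hb, e1⟩ := bs_step hy (c := fun m => c m ^ p)
        (r := max (ρ ^ (n + 1 + 1)) (p : ℝ)⁻¹) (le_max_of_le_right bs_pos.le) fun m => by
          obtain ⟨b, hb, e1⟩ := ih _ (hc m)
          refine ⟨b ^ p, pow_mem hb p, (bs_pow (h _ (hc m)).1 hr e1).trans (max_le ?_
            (le_max_of_le_right (mul_le_of_le_one_right bs_pos.le hr)))⟩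
          rcases max_choice (ρ ^ (n + 1)) (p : ℝ)⁻¹ with e2 | e2 <;> rw [e2]
          · rw [← pow_mul]
            refine le_max_of_le_left (pow_le_pow_of_le_one hρ0 hρ1.le ?_)
            nlinarith [(Fact.out : p.Prime).two_le]
          · exact le_max_of_le_right (pow_le_of_le_one bs_pos.le bs_lt.le (Fact.out : p.Prime).ne_zero)
      refine ⟨b, hb, ?_⟩
      rw [← sub_add_sub_cancel _ (∑ m, y m * c m ^ p)]
      exact (IsUltrametricDist.norm_add_le_max _ _).trans (max_le (le_max_of_le_right e) e1)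
  obtain ⟨n, hn⟩ := exists_pow_lt_of_lt_one (bs_pos (p := p)) hρ1
  obtain ⟨b, hb, e⟩ := key n z hz
  exact ⟨b, hb, e.trans (max_le ((pow_le_pow_of_le_one hρ0 hρ1.le n.le_succ).trans hn.le) le_rfl)⟩

/-- All members of a recursive family lie in `M`. -/
theorem bs_mem {M : Subfield K} (hM : IsClosed (M : Set K)) {μ S : Type*} [Fintype μ] {y : μ → K}
    (hy : ∀ m, y m ∈ M ∧ ‖y m‖ ≤ 1) {z : S → K} (h1 : ∀ s, ‖z s‖ ≤ 1)
    (hr : ∀ s, ∃ c g : μ → S, z s = ∑ m, y m * (z (c m) ^ p + p * z (g m)))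
    (hn : ∀ s, ∃ a ∈ M, ‖z s - a‖ ≤ (p : ℝ)⁻¹) (s : S) : z s ∈ M := by
  have key : ∀ n : ℕ, ∀ s, ∃ a ∈ M, ‖z s - a‖ ≤ (p : ℝ)⁻¹ ^ (n + 1) := by
    intro n
    induction n with
    | zero => simpa using hn
    | succ n ih =>
      intro s
      obtain ⟨c, g, e⟩ := hr s
      rw [e]
      refine bs_step hy (pow_nonneg bs_pos.le _) fun m => ?_
      obtain ⟨a, ha, e1⟩ := ih (c m)
      obtain ⟨b, hb, e2⟩ := ih (g m)
      refine ⟨a ^ p + p * b, add_mem (pow_mem ha p) (mul_mem (natCast_mem M p) hb), ?_⟩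
      rw [add_sub_add_comm, ← mul_sub]
      refine (IsUltrametricDist.norm_add_le_max _ _).trans (max_le
        ((bs_pow (h1 _) (pow_le_one₀ bs_pos.le bs_lt.le) e1).trans (max_le ?_ (pow_succ' _ _).ge)) ?_)
      · rw [← pow_mul]
        refine pow_le_pow_of_le_one bs_pos.le bs_lt.le ?_
        nlinarith [(Fact.out : p.Prime).two_le]
      · rw [norm_mul, bs_norm_p, pow_succ']
        exact mul_le_mul_of_nonneg_left e2 bs_pos.le
  refine hM.closure_subset (Metric.mem_closure_iff.2 fun ε hε => ?_)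
  obtain ⟨n, hn⟩ := exists_pow_lt_of_lt_one hε (bs_lt (p := p))
  obtain ⟨a, ha, e⟩ := key n s
  exact ⟨a, ha, (dist_eq_norm _ _).trans_lt (e.trans_lt
    ((pow_le_pow_of_le_one bs_pos.le bs_lt.le n.le_succ).trans_lt hn))⟩

omit [IsUltrametricDist K] [NormedAlgebra ℂ_[p] K] in
/-- A bounded defect that is contracted by the recursion vanishes. -/
theorem bs_zero {S : Type*} {δ : S → K} {B : ℝ} (hB : ∀ s, ‖δ s‖ ≤ B)
    (hr : ∀ r : ℝ, 0 ≤ r → (∀ s, ‖δ s‖ ≤ r) → ∀ s, ‖δ s‖ ≤ (p : ℝ)⁻¹ * r) (s : S) : δ s = 0 := by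
  have h0 := (norm_nonneg _).trans (hB s)
  have key : ∀ n : ℕ, ∀ s, ‖δ s‖ ≤ (p : ℝ)⁻¹ ^ n * B := fun n => by
    induction n with
    | zero => simpa using hB
    | succ n ih =>
      rw [pow_succ', mul_assoc]
      exact hr _ (mul_nonneg (pow_nonneg bs_pos.le _) h0) ih
  have := (tendsto_pow_atTop_nhds_zero_of_lt_one bs_pos.le (bs_lt (p := p))).mul_const B
  rw [zero_mul] at this
  exact norm_le_zero_iff.1 (ge_of_tendsto' this fun n => key n s)

end Pool.Agent.E7
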