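import Pool.Agent.Lib.MP_7e5527_ag.EO.BZ
import Pool.Agent.Lib.MP_7e5527_ag.EO.BS

/-! Consequences of the recursion. -/

open Filter Topology Polynomial TrivSqZeroExt

noncomputable section

namespace Pool.Agent.E7

variable {ι : Type} [Fintype ι] [DecidableEq ι] {p : ℕ} [Fact p.Prime] {Q : Type} [CommRing Q]
  {K : Type} [NontriviallyNormedField K] [NormedAlgebra ℂ_[p] K] [IsUltrametricDist K]
  {cst : ℂ_[p] →+* Q} {del : ι → Q → Q} {TW : ℕ → Set Q} {e0 : Q} {e : ι → Q} {ψ : Q →+* K}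

omit [IsUltrametricDist K] in
theorem RB.rec2 (h : RB p cst del TW e0 e ψ) {a : ℕ} {F : Q} (hF : F ∈ TW a) :
    ∃ (C G : (ι → Fin p) → Q) (b : (ι → Fin p) → ℕ), (∀ m, C m ∈ TW (b m) ∧ G m ∈ TW (p * b m)) ∧
      ∀ (A : Type) [CommRing A] (χ : Q →+* A) (u0 : Aˣ) (u : ι → Aˣ), χ e0 = u0 →
        (∀ i, χ (e i) = u i) → χ F * (u0⁻¹ : Aˣ) ^ a =
          ∑ m : ι → Fin p, ((∏ i, (u i * u0⁻¹) ^ (m i : ℕ))⁻¹ : Aˣ) *
            ((χ (C m) * (u0⁻¹ : Aˣ) ^ b m) ^ p + p * (χ (G m) * (u0⁻¹ : Aˣ) ^ (p * b m))) := by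
  obtain ⟨H, C, G, b, n, e1, h1⟩ := h.rec1 a F hF
  refine ⟨C, G, b, fun m => ⟨(h1 m).1, (h1 m).2.1⟩, fun A _ χ u0 u h0 hu => ?_⟩
  rw [e1, map_sum, Finset.sum_mul]
  refine Finset.sum_congr rfl fun m _ => ?_
  obtain ⟨-, -, e2, e3⟩ := h1 m
  have e4 := congrArg χ e3
  simp only [map_mul, map_add, map_pow, map_prod, map_natCast, h0, hu] at e4
  have e5 : (∏ i, (u i * u0⁻¹) ^ (m i : ℕ))⁻¹ * u0⁻¹ ^ (p * b m) * (∏ i, u i ^ (m i : ℕ)) *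
      u0 ^ n m = u0⁻¹ ^ a := by
    simp only [mul_pow, Finset.prod_mul_distrib, Finset.prod_pow_eq_pow_sum, ← e2, pow_add]
    simp [mul_comm, mul_left_comm]
  have e6 := congrArg (fun v : Aˣ => (v : A)) e5
  simp only [Units.val_mul, Units.val_pow_eq_pow_val, Units.coe_prod] at e6
  rw [mul_pow, ← pow_mul, mul_comm (b m) p, ← e6]
  linear_combination (((∏ i, (u i * u0⁻¹) ^ (m i : ℕ))⁻¹ : Aˣ) : A) *
    ((u0⁻¹ : Aˣ) : A) ^ (p * b m) * e4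

omit [IsUltrametricDist K] in
theorem RB.ne0 (h : RB p cst del TW e0 e ψ) : ψ e0 ≠ 0 := fun e => by simpa [e] using h.nm0

omit [IsUltrametricDist K] in
theorem RB.ne1 (h : RB p cst del TW e0 e ψ) (i : ι) : ψ (e i) ≠ 0 := fun e => by
  simpa [e] using h.nm i

omit [IsUltrametricDist K] in
theorem RB.le (h : RB p cst del TW e0 e ψ) {a : ℕ} {F : Q} (hF : F ∈ TW a) :
    ‖ψ F / ψ e0 ^ a‖ ≤ 1 := by
  rw [norm_div, norm_pow, h.nm0, one_pow, div_one]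
  exact (h.bd a F hF).1

/-- A closed field with separably closed residue field contains all normalised values. -/
theorem RB.mem_of (h : RB p cst del TW e0 e ψ) {M : Subfield K} (hM : IsClosed (M : Set K))
    (hs : SepCl M) (hx : ∀ i, ψ (e i) / ψ e0 ∈ M) {a : ℕ} {F : Q} (hF : F ∈ TW a) :
    ψ F / ψ e0 ^ a ∈ M := by
  have hy : ∀ m : ι → Fin p, (∏ i, (ψ (e i) / ψ e0) ^ (m i : ℕ))⁻¹ ∈ M ∧
      ‖(∏ i, (ψ (e i) / ψ e0) ^ (m i : ℕ))⁻¹‖ ≤ 1 := fun m =>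
    ⟨inv_mem (prod_mem fun i _ => pow_mem (hx i) _), by simp [h.nm, h.nm0]⟩
  refine bs_mem (p := p) hM hy (S := Σ a, TW a) (z := fun s => ψ s.2 / ψ e0 ^ s.1)
    (fun s => h.le s.2.2) (fun s => ?_) (fun s => ?_) ⟨a, F, hF⟩
  · obtain ⟨C, G, b, h1, h2⟩ := h.rec2 s.2.2
    refine ⟨fun m => ⟨_, C m, (h1 m).1⟩, fun m => ⟨_, G m, (h1 m).2⟩, ?_⟩
    simpa [div_eq_mul_inv] using h2 K ψ (Units.mk0 _ h.ne0) (fun i => Units.mk0 _ (h.ne1 i)) rfl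
      fun _ => rfl
  · obtain ⟨τ, _, b, G, s0, nx, h1, h2, h3⟩ := h.sys _ _ s.2.2
    obtain ⟨y, h4, h5⟩ := bs_near hs hy (Set.finite_range fun s => ψ (G s) / ψ e0 ^ b s) (by
      rintro _ ⟨s, rfl⟩
      exact ⟨h.le (h1 s), _, fun m => ⟨nx s m, rfl⟩, h3 s⟩) ⟨s0, rfl⟩
    refine ⟨y, h4, ?_⟩
    rw [← sub_add_sub_cancel _ (ψ (G s0) / ψ e0 ^ b s0)]
    exact (IsUltrametricDist.norm_add_le_max _ _).trans (max_le h2 h5)

/-- Two lifts to the dual numbers with the same coordinates have the same normalised values. -/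
theorem RB.two (h : RB p cst del TW e0 e ψ) {χ χ' : Q →+* DualNumber K} {B : ℝ}
    (hf : ∀ G, (χ G).fst = (χ' G).fst) (h0 : ‖(χ e0).fst‖ = 1) (h1 : ∀ i, ‖(χ (e i)).fst‖ = 1)
    (hb : ∀ a, ∀ F ∈ TW a, bzW B 1 (χ F) ∧ bzW B 1 (χ' F))
    (hx : ∀ i, χ (e i) * χ' e0 = χ' (e i) * χ e0) {a : ℕ} {F : Q} (hF : F ∈ TW a) :
    χ F * χ' e0 ^ a = χ' F * χ e0 ^ a := by
  have hB : 0 ≤ B := by simpa using (norm_nonneg _).trans (hb 1 e0 h.mem0).1.2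
  have hu : ∀ t : DualNumber K, ‖t.fst‖ = 1 → ∃ u : (DualNumber K)ˣ, t = u := fun t ht =>
    (isUnit_iff_isUnit_fst.2 (Ne.isUnit fun e => by simp [e] at ht)).imp fun _ => Eq.symm
  have hi : ∀ u : (DualNumber K)ˣ, ((u⁻¹ : (DualNumber K)ˣ) : DualNumber K).fst = u.1.fst⁻¹ :=
    fun u => eq_inv_of_mul_eq_one_left (by rw [← fst_mul, Units.inv_mul, fst_one])
  have hw : ∀ u : (DualNumber K)ˣ, ‖u.1.fst‖ = 1 → bzW B 1 u.1 → bzW B 1 (u⁻¹).1 := by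
    intro u h2 h3
    have h4 := congrArg (fun t : DualNumber K => t.snd) u.mul_inv
    simp only [bz_snd_mul, snd_one, hi] at h4
    have h5 := congrArg norm (eq_neg_of_add_eq_zero_left h4)
    rw [norm_neg, norm_mul, norm_mul, norm_inv, h2, inv_one, one_mul, one_mul] at h5
    exact ⟨by rw [hi, norm_inv, h2, inv_one], h5 ▸ h3.2⟩
  obtain ⟨u0, e0⟩ := hu _ h0
  obtain ⟨v0, e0'⟩ := hu _ (hf _ ▸ h0)
  choose u eu using fun i => hu _ (h1 i)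
  choose v ev using fun i => hu _ (hf _ ▸ h1 i)
  have huv : ∀ i, v i * v0⁻¹ = u i * u0⁻¹ := fun i => Units.ext (by
    have h2 := hx i
    rw [eu, ev, e0, e0'] at h2
    rw [Units.val_mul, Units.val_mul]
    linear_combination -(u0⁻¹).1 * (v0⁻¹).1 * h2 - (v i).1 * (v0⁻¹).1 * u0.mul_inv +
      (u i).1 * (u0⁻¹).1 * v0.mul_inv)
  have w1 := hw u0 (e0 ▸ h0) (e0 ▸ (hb 1 _ h.mem0).1)
  have w2 := hw v0 (e0' ▸ hf _ ▸ h0) (e0' ▸ (hb 1 _ h.mem0).2)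
  let z : (Σ a, TW a) → DualNumber K := fun s => χ s.2 * (u0⁻¹ : (DualNumber K)ˣ) ^ s.1
  let z' : (Σ a, TW a) → DualNumber K := fun s => χ' s.2 * (v0⁻¹ : (DualNumber K)ˣ) ^ s.1
  have z1 : ∀ s, bzW B 1 (z s) := fun s => (hb _ _ s.2.2).1.mul (w1.pow hB _)
  have z2 : ∀ s, bzW B 1 (z' s) := fun s => (hb _ _ s.2.2).2.mul (w2.pow hB _)
  have z3 : ∀ s, (z' s).fst = (z s).fst := fun s => by
    simp only [z, z', fst_mul, fst_pow, hi, ← e0, ← e0', hf]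
  have key := bs_zero (p := p) (δ := fun s => (z s).snd - (z' s).snd) (B := B * 1)
    (fun s => (bh_sub _ _).trans (max_le (z1 s).2 (z2 s).2)) (fun r hr hδ s => by
      obtain ⟨C, G, b, h2, h3⟩ := h.rec2 s.2.2
      have h4 := h3 _ χ u0 u e0 eu
      have h5 := h3 _ χ' v0 v e0' ev
      simp only [huv] at h5
      change z s = ∑ m, _ * (z ⟨_, C m, (h2 m).1⟩ ^ p + p * z ⟨_, G m, (h2 m).2⟩) at h4
      change z' s = ∑ m, _ * (z' ⟨_, C m, (h2 m).1⟩ ^ p + p * z' ⟨_, G m, (h2 m).2⟩) at h5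
      rw [h4, h5, snd_sum, snd_sum, ← Finset.sum_sub_distrib]
      refine IsUltrametricDist.norm_sum_le_of_forall_le_of_nonneg (mul_nonneg bs_pos.le hr)
        fun m _ => ?_
      set s1 : Σ a, TW a := ⟨_, C m, (h2 m).1⟩
      set s2 : Σ a, TW a := ⟨_, G m, (h2 m).2⟩
      set y := (((∏ i, (u i * u0⁻¹) ^ (m i : ℕ))⁻¹ : (DualNumber K)ˣ) : DualNumber K) with hy
      have hy1 : ‖y.fst‖ = 1 := by
        have : ∀ t : ι → DualNumber K, (∏ i, t i).fst = ∏ i, (t i).fst := fun t =>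
          map_prod (fstHom K K K) _ _
        simp [hy, hi, this, ← eu, ← e0, h0, h1]
      rw [show (y * (z s1 ^ p + p * z s2)).snd - (y * (z' s1 ^ p + p * z' s2)).snd = y.fst *
        (p * ((z s1).fst ^ (p - 1) * ((z s1).snd - (z' s1).snd) + ((z s2).snd - (z' s2).snd))) by
          simp [z3]; ring, norm_mul, hy1, one_mul, norm_mul, bs_norm_p]
      refine mul_le_mul_of_nonneg_left ((IsUltrametricDist.norm_add_le_max _ _).trans
        (max_le ?_ (hδ s2))) bs_pos.le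
      rw [norm_mul, norm_pow]
      exact (mul_le_of_le_one_left (norm_nonneg _) (pow_le_one₀ (norm_nonneg _) (z1 s1).1)).trans
        (hδ s1)) ⟨a, F, hF⟩
  have e1 : z ⟨a, F, hF⟩ = z' ⟨a, F, hF⟩ := TrivSqZeroExt.ext (z3 _).symm (sub_eq_zero.1 key)
  simp only [z, z'] at e1
  have e2 : ∀ u : (DualNumber K)ˣ, ((u⁻¹ : (DualNumber K)ˣ) : DualNumber K) ^ a * u ^ a = 1 :=
    fun u => by rw [← mul_pow, Units.inv_mul, one_pow]
  rw [e0, e0']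
  linear_combination (u0 : DualNumber K) ^ a * v0 ^ a * e1 - χ F * v0 ^ a * e2 u0 +
    χ' F * u0 ^ a * e2 v0

end Pool.Agent.E7
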