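import Pool.Agent.Lib.MP_7e5527_ag.E7.PBS

/-! Hypotheses of the rigidity step, for one character with values in a complete field. -/

open Filter Topology Polynomial
open scoped Polynomial.Bivariate

noncomputable section

namespace Pool.Agent.E7

variable {ι : Type} [Fintype ι] [DecidableEq ι] {p : ℕ} [Fact p.Prime] {Q : Type} [CommRing Q]
  {K : Type} [NontriviallyNormedField K] [NormedAlgebra ℂ_[p] K]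

/-- At `ψ`, the element `G` and its derivatives are limits of elements of `S`. -/
def Ap (ψ : Q →+* K) (del : ι → Q → Q) (S : Set Q) (G : Q) : Prop :=
  ∀ ε : ℝ, 0 < ε → ∃ A ∈ S, ‖ψ G - ψ A‖ ≤ ε ∧ ∀ l, ‖ψ (del l G) - ψ (del l A)‖ ≤ ε

/-- A character `ψ` of a ring `Q` with derivations, integral elements `TW a` of weight `a`, and
coordinates `e i / e0`. -/
structure RB (p : ℕ) [Fact p.Prime] [NormedAlgebra ℂ_[p] K] (cst : ℂ_[p] →+* Q) (del : ι → Q → Q)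
    (TW : ℕ → Set Q) (e0 : Q) (e : ι → Q) (ψ : Q →+* K) : Prop where
  del_add : ∀ l F G, del l (F + G) = del l F + del l G
  del_mul : ∀ l F G, del l (F * G) = F * del l G + G * del l F
  del_cst : ∀ l c, del l (cst c) = 0
  map_cst : ∀ c, ψ (cst c) = algebraMap ℂ_[p] K c
  bd : ∀ a, ∀ F ∈ TW a, ‖ψ F‖ ≤ 1 ∧ ∀ l, ‖ψ (del l F)‖ ≤ 1
  mem0 : e0 ∈ TW 1
  mem : ∀ i, e i ∈ TW 1
  nm0 : ‖ψ e0‖ = 1
  nm : ∀ i, ‖ψ (e i)‖ = 1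
  jac0 : ∀ l, ‖ψ (del l e0)‖ < 1
  jac : ∀ i l, ‖ψ (del l (e i)) - if l = i then ψ (e i) else 0‖ < 1
  rec1 : ∀ a, ∀ F ∈ TW a, ∃ (H C G : (ι → Fin p) → Q) (b n : (ι → Fin p) → ℕ), F = ∑ m, H m ∧
    ∀ m, C m ∈ TW (b m) ∧ G m ∈ TW (p * b m) ∧ a + ∑ i, (m i : ℕ) + n m = p * b m ∧
      H m * (∏ i, e i ^ (m i : ℕ)) * e0 ^ n m = C m ^ p + p * G m
  sys : ∀ a, ∀ F ∈ TW a, ∃ (τ : Type) (_ : Fintype τ) (b : τ → ℕ) (G : τ → Q) (s0 : τ)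
    (nx : τ → (ι → Fin p) → τ), (∀ s, G s ∈ TW (b s)) ∧
    ‖ψ F / ψ e0 ^ a - ψ (G s0) / ψ e0 ^ b s0‖ ≤ (p : ℝ)⁻¹ ∧ ∀ s, ‖ψ (G s) / ψ e0 ^ b s -
      ∑ m, (∏ i, (ψ (e i) / ψ e0) ^ (m i : ℕ))⁻¹ *
        (ψ (G (nx s m)) / ψ e0 ^ b (nx s m)) ^ p‖ ≤ (p : ℝ)⁻¹
  dense : ∀ G, Ap ψ del (AddSubgroup.closure {x | ∃ c a, ∃ F ∈ TW a, x = cst c * F} :
    AddSubgroup Q) G
  nb : ∃ s, ∃ N ∈ TW (s + 1), ψ N ≠ 0 ∧ Ap ψ del (TW s) N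

/-- A Frobenius structure: `σ ψ` is equivalent to a limit `θ` of maps `ψ ∘ Θ j`, where `Θ j`
multiplies the derivations by `q`. -/
structure FB (p : ℕ) [Fact p.Prime] [NormedAlgebra ℂ_[p] K] (del : ι → Q → Q) (TW : ℕ → Set Q)
    (e0 : Q) (e : ι → Q) (ψ : Q →+* K) (σ : K →+* K) (q : ℕ) (θ : Q → K) (c : K) : Prop where
  iso : ∀ z, ‖σ z‖ = ‖z‖
  cst : ∀ a, ∃ a', σ (algebraMap ℂ_[p] K a) = algebraMap ℂ_[p] K a'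
  pos : 0 < q
  lt : ‖(q : ℂ_[p])‖ < 1
  lim : ∃ Θ : ℕ → Q → Q, (∀ j l G, del l (Θ j G) = q * Θ j (del l G)) ∧
    ∀ G, Tendsto (fun j => ψ (Θ j G)) atTop (𝓝 (θ G))
  eq : ∀ a, ∀ F ∈ TW a, σ (ψ F) = c ^ a * θ F
  eq0 : ∀ l, σ (ψ (del l e0)) = c * θ (del l e0)
  eq1 : ∀ i l, σ (ψ (del l (e i))) = c * θ (del l (e i))

end Pool.Agent.E7
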