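import Pool.Agent.Lib.MP_7e5527_ag.EO.BD

/-! The derivation along the curve and the chain rule. -/

open Filter Topology Polynomial TrivSqZeroExt Matrix
open scoped Polynomial.Bivariate IntermediateField

noncomputable section

namespace Pool.Agent.E7

variable {ι : Type} [Fintype ι] [DecidableEq ι] {p : ℕ} [Fact p.Prime] {Q : Type} [CommRing Q]
  {K : Type} [NontriviallyNormedField K] [NormedAlgebra ℂ_[p] K] [IsUltrametricDist K]
  {cst : ℂ_[p] →+* Q} {del : ι → Q → Q} {TW : ℕ → Set Q} {e0 : Q} {e : ι → Q} {ψ : Q →+* K}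

omit [DecidableEq ι] [IsUltrametricDist K] in
theorem Ap.mem {S : Set Q} {G : Q} (h : Ap ψ del S G) {T : Set (K × (ι → K))} (hT : IsClosed T)
    (hS : ∀ A ∈ S, (ψ A, fun l => ψ (del l A)) ∈ T) : (ψ G, fun l => ψ (del l G)) ∈ T := by
  refine hT.closure_subset (Metric.mem_closure_iff.2 fun ε hε => ?_)
  obtain ⟨A, hA, h1, h2⟩ := h (ε / 2) (half_pos hε)
  refine ⟨_, hS A hA, lt_of_le_of_lt ?_ (half_lt_self hε)⟩
  rw [Prod.dist_eq, max_le_iff, dist_pi_le_iff (half_pos hε).le]
  exact ⟨(dist_eq_norm _ _).trans_le h1, fun l => (dist_eq_norm _ _).trans_le (h2 l)⟩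

omit [IsUltrametricDist K] in
theorem RB.mem_all (h : RB p cst del TW e0 e ψ) {M : Subfield K} (hM : IsClosed (M : Set K))
    (hc : ∀ c, algebraMap ℂ_[p] K c ∈ M) (hF : ∀ a, ∀ F ∈ TW a, ψ F / ψ e0 ^ a ∈ M) (G : Q) :
    ψ G ∈ M := by
  obtain ⟨s, N, hN, h0, hA⟩ := h.nb
  have h1 : ψ N / ψ e0 ^ s ∈ M := hA.mem (T := {t | t.1 / ψ e0 ^ s ∈ M})
    (hM.preimage (_root_.continuous_fst.div_const _)) (hF s)
  have hu : ψ e0 ∈ M := by
    have h2 := div_mem h1 (hF _ N hN)
    rwa [show ψ N / ψ e0 ^ s / (ψ N / ψ e0 ^ (s + 1)) = ψ e0 by field_simp [h.ne0]; ring] at h2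
  refine (h.dense G).mem (T := {t | t.1 ∈ M}) (hM.preimage _root_.continuous_fst) fun A hA => ?_
  refine (AddSubgroup.closure_le (M.toAddSubgroup.comap ψ.toAddMonoidHom)).2 ?_ hA
  rintro _ ⟨c, a, F, hF', rfl⟩
  change ψ (cst c * F) ∈ M
  rw [map_mul, h.map_cst, ← div_mul_cancel₀ (ψ F) (pow_ne_zero a h.ne0)]
  exact mul_mem (hc c) (mul_mem (hF a F hF') (pow_mem hu a))

/-- The Jacobian matrix. -/
def jacO (del : ι → Q → Q) (e0 : Q) (e : ι → Q) (ψ : Q →+* K) : Matrix ι ι K :=
  Matrix.of fun i l => (ψ e0 * ψ (del l (e i)) - ψ (e i) * ψ (del l e0)) / ψ e0 ^ 2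

theorem RB.det (h : RB p cst del TW e0 e ψ) : (jacO del e0 e ψ).det ≠ 0 := by
  intro h0
  obtain ⟨v, hv, h1⟩ := Matrix.exists_mulVec_eq_zero_iff.2 h0
  obtain ⟨j, hj⟩ := Function.ne_iff.1 hv
  obtain ⟨i, hi⟩ := @Finite.exists_max ι ℝ _ ⟨j⟩ _ fun i => ‖v i‖
  have hpos : 0 < ‖v i‖ := (norm_pos_iff.2 hj).trans_le (hi j)
  have h2 : ψ (e i) / ψ e0 * v i = -∑ l, ((ψ (del l (e i)) - if l = i then ψ (e i) else 0) / ψ e0 -
      ψ (e i) * ψ (del l e0) / ψ e0 ^ 2) * v l := by
    have h3 := congrFun h1 i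
    simp only [mulVec, dotProduct, jacO, of_apply, Pi.zero_apply] at h3
    rw [eq_neg_iff_add_eq_zero, show ψ (e i) / ψ e0 * v i =
      ∑ l, (if l = i then ψ (e i) else 0) / ψ e0 * v l by simp [ite_div], ← Finset.sum_add_distrib]
    exact (Finset.sum_congr rfl fun l _ => by field_simp [h.ne0]; ring).trans h3
  have h4 := congrArg norm h2
  rw [norm_neg, norm_mul, norm_div, h.nm, h.nm0, div_one, one_mul] at h4
  obtain ⟨l, -, hl⟩ := IsUltrametricDist.exists_norm_finsetSum_le_of_nonempty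
    ⟨i, Finset.mem_univ i⟩ fun l => ((ψ (del l (e i)) - if l = i then ψ (e i) else 0) / ψ e0 -
      ψ (e i) * ψ (del l e0) / ψ e0 ^ 2) * v l
  refine absurd (h4.trans_le hl) (not_le.2 ?_)
  rw [norm_mul]
  refine (mul_le_mul_of_nonneg_left (hi l) (norm_nonneg _)).trans_lt
    (mul_lt_of_lt_one_left hpos ((bh_sub _ _).trans_lt (max_lt ?_ ?_)))
  · rw [norm_div, h.nm0, div_one]
    exact h.jac i l
  · rw [norm_div, norm_pow, h.nm0, one_pow, div_one, norm_mul, h.nm, one_mul]
    exact h.jac0 l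

/-- A ring map to the dual numbers. -/
def dualHom {A : Type*} [CommRing A] (φ : A →+* K) (d : A → K) (ha : ∀ a b, d (a + b) = d a + d b)
    (hm : ∀ a b, d (a * b) = φ a * d b + φ b * d a) : A →+* DualNumber K where
  toFun a := inl (φ a) + inr (d a)
  map_one' := TrivSqZeroExt.ext (by simp) (by simpa using hm 1 1)
  map_mul' a b := TrivSqZeroExt.ext (by simp) (by rw [bz_snd_mul]; simp [hm])
  map_zero' := TrivSqZeroExt.ext (by simp) (by simpa using ha 0 0)
  map_add' a b := TrivSqZeroExt.ext (by simp) (by simp [ha])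

omit [IsUltrametricDist K] in
@[simp] theorem dualHom_fst {A : Type*} [CommRing A] (φ : A →+* K) (d : A → K) (ha) (hm) (a : A) :
    (dualHom φ d ha hm a).fst = φ a := by simp [dualHom]

omit [IsUltrametricDist K] in
@[simp] theorem dualHom_snd {A : Type*} [CommRing A] (φ : A →+* K) (d : A → K) (ha) (hm) (a : A) :
    (dualHom φ d ha hm a).snd = d a := by simp [dualHom]

omit [IsUltrametricDist K] in
theorem der_bound (D : Derivation ℂ_[p] K K) (hc : Continuous D) :
    ∃ B, 0 < B ∧ ∀ y, ‖D y‖ ≤ B * ‖y‖ := (⟨D.toLinearMap, hc⟩ : K →L[ℂ_[p]] K).bound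

/-- The chain rule. -/
theorem RB.chain (h : RB p cst del TW e0 e ψ) (D : Derivation ℂ_[p] K K) (hc : Continuous D)
    (η : ι → K) (hη : ∀ i, D (ψ (e i) / ψ e0) = (jacO del e0 e ψ *ᵥ η) i) (G : Q) :
    D (ψ G) = ∑ l, ψ (del l G) * η l := by
  obtain ⟨B, hB, hb⟩ := der_bound D hc
  let δ : Q → K := fun G => D (ψ G) - ∑ l, ψ (del l G) * η l
  have h1 : ∀ a, ∀ F ∈ TW a, ψ e0 * δ F = a * ψ F * δ e0 := by
    intro a F hF
    have h2 := congrArg (fun t : DualNumber K => t.snd) (h.two (B := max B ‖η‖)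
      (χ := dualHom ψ (fun G => D (ψ G)) (by simp) (by simp))
      (χ' := dualHom ψ (fun G => ∑ l, ψ (del l G) * η l)
        (by simp [h.del_add, add_mul, Finset.sum_add_distrib])
        (by simp [h.del_mul, add_mul, Finset.sum_add_distrib, Finset.mul_sum, mul_assoc]))
      (by simp) (by simp [h.nm0]) (by simp [h.nm]) (fun a F hF => ⟨⟨by simpa using (h.bd a F hF).1,
        by simpa using Or.inl ((hb _).trans (mul_le_of_le_one_right hB.le (h.bd a F hF).1))⟩,
        by simpa using (h.bd a F hF).1, by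
          rw [dualHom_snd, mul_one]
          refine le_max_of_le_right (IsUltrametricDist.norm_sum_le_of_forall_le_of_nonneg
            (norm_nonneg _) fun l _ => ?_)
          rw [norm_mul]
          exact (mul_le_of_le_one_left (norm_nonneg _) ((h.bd a F hF).2 l)).trans
            (norm_le_pi_norm η l)⟩) (fun i => TrivSqZeroExt.ext (by simp) (by
        have h3 := hη i
        rw [D.leibniz_div] at h3
        simp only [mulVec, dotProduct, jacO, of_apply, smul_eq_mul, div_mul_eq_mul_div,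
          ← Finset.sum_div, sub_mul, Finset.sum_sub_distrib, mul_assoc, ← Finset.mul_sum] at h3
        rw [inv_pow, inv_mul_eq_div, div_left_inj' (pow_ne_zero 2 h.ne0)] at h3
        simp only [bz_snd_mul, dualHom_fst, dualHom_snd]
        linear_combination h3)) hF)
    simp only [bz_snd_mul, fst_pow, snd_pow, dualHom_fst, dualHom_snd, smul_eq_mul,
      nsmul_eq_mul] at h2
    cases a with
    | zero => simp only [δ]; simp at h2; simp [h2]
    | succ a =>
      refine mul_left_cancel₀ (pow_ne_zero a h.ne0) ?_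
      simp only [δ, Nat.pred_succ] at h2 ⊢
      linear_combination h2
  have hcl : ∀ a b : K, IsClosed {t : K × (ι → K) | a * (D t.1 - ∑ l, t.2 l * η l) = b * t.1} :=
    fun a b => isClosed_eq (by fun_prop) (by fun_prop)
  have h0 : δ e0 = 0 := by
    obtain ⟨s, N, hN, h0, hA⟩ := h.nb
    have h2 : ψ e0 * δ N = s * δ e0 * ψ N :=
      hA.mem (hcl (ψ e0) (s * δ e0)) fun A hA => (h1 s A hA).trans (mul_right_comm _ _ _)
    have h3 := h1 _ N hN
    push_cast at h3
    exact (mul_eq_zero.1 (by linear_combination h2 - h3 : ψ N * δ e0 = 0)).resolve_left h0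
  have h2 := (h.dense G).mem (hcl 1 0) fun A hA => by
    change 1 * δ A = 0 * ψ A
    rw [one_mul, zero_mul]
    induction hA using AddSubgroup.closure_induction with
    | mem x hx =>
      obtain ⟨c, a, F, hF, rfl⟩ := hx
      have h3 := h1 a F hF
      rw [h0, mul_zero, mul_eq_zero, or_iff_right h.ne0] at h3
      simp only [δ, h.del_mul, h.del_cst, map_mul, h.map_cst, mul_zero, add_zero, D.leibniz,
        D.map_algebraMap, smul_eq_mul, mul_assoc, ← Finset.mul_sum] at h3 ⊢
      rw [← mul_sub, h3, mul_zero]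
    | zero =>
      have h3 : ∀ l, del l 0 = 0 := fun l => by simpa using h.del_cst l 0
      simp [δ, h3]
    | add x y _ _ hx hy =>
      simp only [δ, h.del_add, map_add, add_mul, Finset.sum_add_distrib] at hx hy ⊢
      linear_combination hx + hy
    | neg x _ hx =>
      have h3 : ∀ l, del l (-x) = -del l x := fun l => eq_neg_of_add_eq_zero_left (by
        rw [← h.del_add, neg_add_cancel]; simpa using h.del_cst l 0)
      simp only [δ, h3, map_neg, neg_mul, Finset.sum_neg_distrib] at hx ⊢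
      linear_combination -hx
  simpa [sub_eq_zero] using h2

omit [IsUltrametricDist K] in
theorem dual_eq {k : Type*} [Field k] [CharZero k] [Algebra k K] {γ γ' : K →+* DualNumber K}
    (hf : ∀ y, (γ y).fst = (γ' y).fst) (hk : ∀ a, γ (algebraMap k K a) = γ' (algebraMap k K a))
    {z : K} (hz : IsIntegral k z) : γ z = γ' z := by
  have h0 : γ'.comp (algebraMap k K) = γ.comp (algebraMap k K) := RingHom.ext fun a => (hk a).symm
  have h1 : ∀ (ρ : K →+* DualNumber K) (P : k[X]),
      (P.map (ρ.comp (algebraMap k K))).eval (ρ z) = ρ (aeval z P) := fun ρ P => by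
    rw [eval_map, aeval_def, hom_eval₂]
  have h2 := h1 γ' (minpoly k z)
  have h3 : γ' z = γ z + inr ((γ' z).snd - (γ z).snd) := TrivSqZeroExt.ext (by simp [hf]) (by simp)
  rw [h0, h3, eval_add_of_sq_eq_zero _ _ _ (by rw [sq, inr_mul_inr]), derivative_map, h1, h1,
    minpoly.aeval, map_zero, map_zero, zero_add] at h2
  have h4 := congrArg (fun t : DualNumber K => t.snd) h2
  simp only [bz_snd_mul, fst_inr, snd_inr, zero_mul, add_zero, snd_zero] at h4
  have h5 := isUnit_iff_isUnit_fst.1 ((Ne.isUnit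
    ((minpoly.irreducible hz).separable.aeval_derivative_ne_zero (minpoly.aeval k z))).map γ)
  rw [h3, (mul_eq_zero.1 h4).resolve_left h5.ne_zero, inr_zero, add_zero]

end Pool.Agent.E7
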