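import Pool.Agent.Lib.MP_7e5527_ag.EO.BDefs

/-! The unit ball, the residue field and the lemma of Hensel. -/

open Filter Topology Polynomial

noncomputable section

namespace Pool.Agent.E7

variable {K : Type*} [NontriviallyNormedField K] [IsUltrametricDist K]

/-- The unit ball. -/
abbrev OK (K : Type*) [NontriviallyNormedField K] [IsUltrametricDist K] : ValuationSubring K :=
  (NormedField.valuation (K := K)).valuationSubring

/-- The residue field. -/
abbrev RK (K : Type*) [NontriviallyNormedField K] [IsUltrametricDist K] : Type _ :=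
  IsLocalRing.ResidueField (OK K)

theorem mem_OK {x : K} : x ∈ OK K ↔ ‖x‖ ≤ 1 := by
  rw [Valuation.mem_valuationSubring_iff]
  exact Iff.rfl

theorem OK.le (x : OK K) : ‖(x : K)‖ ≤ 1 := mem_OK.1 x.2

/-- The residue map. -/
abbrev rs : OK K →+* RK K := IsLocalRing.residue (OK K)

theorem rs_eq_zero {x : OK K} : rs x = 0 ↔ ‖(x : K)‖ < 1 := by
  rw [IsLocalRing.residue_eq_zero_iff, Valuation.mem_maximalIdeal_iff]
  exact Iff.rfl

theorem rs_eq {x y : OK K} : rs x = rs y ↔ ‖(x : K) - y‖ < 1 := by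
  rw [← sub_eq_zero, ← map_sub, rs_eq_zero]
  exact Iff.rfl

theorem rs_ne_zero {x : OK K} : rs x ≠ 0 ↔ ‖(x : K)‖ = 1 := by
  rw [Ne, rs_eq_zero, not_lt]
  exact ⟨fun h => le_antisymm (OK.le x) h, fun h => h.ge⟩

theorem bh_sub (a b : K) : ‖a - b‖ ≤ max ‖a‖ ‖b‖ := by
  simpa [sub_eq_add_neg] using IsUltrametricDist.norm_add_le_max a (-b)

theorem hensel [CompleteSpace K] (P : (OK K)[X]) (z : OK K) (h0 : rs (P.eval z) = 0)
    (h1 : rs (P.derivative.eval z) ≠ 0) : ∃ y : OK K, P.eval y = 0 ∧ rs y = rs z := by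
  rw [rs_eq_zero] at h0
  rw [rs_ne_zero] at h1
  set r := ‖((P.eval z : OK K) : K)‖ with hr
  set d : K := ((P.derivative.eval z : OK K) : K) with hd
  have hd0 : d ≠ 0 := fun h => by simp [h] at h1
  let s : Set K := Metric.closedBall (z : K) r
  have hs : ∀ y ∈ s, ‖y - z‖ ≤ r := fun y hy => mem_closedBall_iff_norm.1 hy
  have hO : ∀ y ∈ s, y ∈ OK K := fun y hy => by
    have := add_mem (mem_OK.2 ((hs y hy).trans h0.le)) z.2
    rwa [sub_add_cancel] at this
  let f : K → K := fun y => y - P.eval₂ (OK K).subtype y / d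
  have he : ∀ y : OK K, P.eval₂ (OK K).subtype (y : K) = ((P.eval y : OK K) : K) := fun y =>
    eval₂_at_apply (OK K).subtype y
  have key : ∀ y ∈ s, ∀ y' ∈ s, ‖f y - f y'‖ ≤ r * ‖y - y'‖ := by
    intro y hy y' hy'
    obtain ⟨y, rfl⟩ : ∃ u : OK K, (u : K) = y := ⟨⟨y, hO y hy⟩, rfl⟩
    obtain ⟨y', rfl⟩ : ∃ u : OK K, (u : K) = y' := ⟨⟨y', hO y' hy'⟩, rfl⟩
    obtain ⟨k, hk⟩ := P.binomExpansion y' (y - y')
    obtain ⟨k', hk'⟩ := P.derivative.evalSubFactor y' z
    rw [add_sub_cancel] at hk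
    have e1 := congrArg (fun u : OK K => (u : K)) hk
    have e2 := congrArg (fun u : OK K => (u : K)) hk'
    push_cast at e1 e2
    have e3 : f y - f y' = -((k' * (y' - z) + k * (y - y')) / d) * (y - y') := by
      simp only [f, he]
      rw [e1, ← e2, ← hd]
      field_simp
      ring
    rw [e3, norm_mul, norm_neg, norm_div, h1, div_one]
    refine mul_le_mul_of_nonneg_right ((IsUltrametricDist.norm_add_le_max _ _).trans
      (max_le ?_ ?_)) (norm_nonneg _)
    · rw [norm_mul]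
      exact (mul_le_of_le_one_left (norm_nonneg _) (OK.le _)).trans (hs _ hy')
    · rw [norm_mul]
      refine (mul_le_of_le_one_left (norm_nonneg _) (OK.le _)).trans ?_
      rw [← sub_sub_sub_cancel_right _ _ (z : K)]
      exact (bh_sub _ _).trans (max_le (hs _ hy) (hs _ hy'))
  have hz : (z : K) ∈ s := Metric.mem_closedBall_self (norm_nonneg _)
  have hm : Set.MapsTo f s s := fun y hy => by
    refine mem_closedBall_iff_norm.2 ?_
    rw [show f y - z = (f y - f z) + -(P.eval₂ (OK K).subtype z / d) by simp only [f]; ring]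
    refine (IsUltrametricDist.norm_add_le_max _ _).trans (max_le ((key y hy z hz).trans ?_) ?_)
    · exact mul_le_of_le_one_right (norm_nonneg _) ((hs y hy).trans h0.le)
    · rw [norm_neg, norm_div, h1, div_one, he]
  have hc : ContractingWith ⟨r, norm_nonneg _⟩ (hm.restrict f s s) :=
    ⟨h0, LipschitzWith.of_dist_le_mul fun a b => by
      rw [Subtype.dist_eq, Subtype.dist_eq, dist_eq_norm, dist_eq_norm]
      exact key a a.2 b b.2⟩
  obtain ⟨y, hy, hf, -⟩ := ContractingWith.exists_fixedPoint' Metric.isClosed_closedBall.isComplete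
    hm hc hz (edist_ne_top _ _)
  refine ⟨⟨y, hO y hy⟩, Subtype.ext ?_, rs_eq.2 ((hs y hy).trans_lt h0)⟩
  have h2 : y - P.eval₂ (OK K).subtype y / d = y := hf
  rw [sub_eq_self, div_eq_zero_iff, or_iff_left hd0] at h2
  exact (he ⟨y, hO y hy⟩).symm.trans h2

/-- The residue field of a subfield. -/
def resF (M : Subfield K) : Subfield (RK K) where
  carrier := {t | ∃ a : OK K, (a : K) ∈ M ∧ rs a = t}
  mul_mem' := by
    rintro _ _ ⟨a, ha, rfl⟩ ⟨b, hb, rfl⟩
    exact ⟨a * b, mul_mem ha hb, map_mul _ _ _⟩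
  one_mem' := ⟨1, one_mem M, map_one _⟩
  add_mem' := by
    rintro _ _ ⟨a, ha, rfl⟩ ⟨b, hb, rfl⟩
    exact ⟨a + b, add_mem ha hb, map_add _ _ _⟩
  zero_mem' := ⟨0, zero_mem M, map_zero _⟩
  neg_mem' := by
    rintro _ ⟨a, ha, rfl⟩
    exact ⟨-a, neg_mem ha, map_neg _ _⟩
  inv_mem' := by
    rintro _ ⟨a, ha, rfl⟩
    by_cases h : rs a = 0
    · exact ⟨0, zero_mem M, by rw [h, inv_zero, map_zero]⟩
    have h1 := rs_ne_zero.1 h
    have h0 : (a : K) ≠ 0 := fun e => by simp [e] at h1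
    refine ⟨⟨(a : K)⁻¹, mem_OK.2 (by rw [norm_inv, h1, inv_one])⟩, inv_mem ha,
      eq_inv_of_mul_eq_one_left ?_⟩
    rw [← map_mul, ← map_one rs]
    exact congrArg rs (Subtype.ext (inv_mul_cancel₀ h0))

/-- The residue field of `M` is separably closed in the residue field of `K`. -/
def SepCl (M : Subfield K) : Prop := ∀ t : RK K, IsSeparable (resF M) t → t ∈ resF M

end Pool.Agent.E7
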