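import Pool.Agent.Lib.MP_7e5527_ag.EO.BF

/-! Frobenius rigidity. -/

open Filter Topology Polynomial Matrix
open scoped Polynomial.Bivariate IntermediateField

noncomputable section

namespace Pool.Agent.E7

variable {ι : Type} [Fintype ι] [DecidableEq ι] {p : ℕ} [Fact p.Prime] {Q : Type} [CommRing Q]
  {K : Type} [NontriviallyNormedField K] [NormedAlgebra ℂ_[p] K] [CompleteSpace K]
  [IsUltrametricDist K] {cst : ℂ_[p] →+* Q} {del : ι → Q → Q} {TW : ℕ → Set Q} {e0 : Q} {e : ι → Q}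
  {ψ : Q →+* K} {σ : K →+* K} {q : ℕ} {θ : Q → K} {c : K}

theorem RB.exists_der (h : RB p cst del TW e0 e ψ) (hd : TopGen ℂ_[p] ψ) (i1 : ι)
    (tr : ∀ a, ψ (e i1) / ψ e0 ≠ algebraMap ℂ_[p] K a)
    (rel : ∀ j, ∃ P : ℂ_[p][X][Y], P ≠ 0 ∧ P.aevalAeval (ψ (e i1) / ψ e0) (ψ (e j) / ψ e0) = 0) :
    ∃ D : Derivation ℂ_[p] K K, Continuous D ∧ D (ψ (e i1) / ψ e0) = 1 := by
  let x : ι → K := fun i => ψ (e i) / ψ e0
  let x' : ι → gen ℂ_[p] x := fun i => ⟨x i, mem_gen x i⟩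
  have tr' : ∀ a, x' i1 ≠ algebraMap ℂ_[p] _ a := fun a e => tr a (congrArg Subtype.val e)
  have : FiniteDimensional (clo ℂ_[p]⟮x' i1⟯) (gen ℂ_[p] x) :=
    pbs_fin _ x' x' (topGen_gen x) (fun j => by
      obtain ⟨P, hP, h1⟩ := rel j
      refine pbs_integral tr' hP (Subtype.ext (Eq.trans ?_ h1))
      exact DFunLike.congr_fun (show (gen ℂ_[p] x).val.comp (aevalAeval (x' i1) (x' j)) =
        aevalAeval (x i1) (x j) by ext <;> simp [x']) P) fun _ _ h => h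
  obtain ⟨D0, hc, h1⟩ := E7.exists_der (x' i1) tr'
  obtain ⟨D, hD, h2⟩ := exists_der_top (gen ℂ_[p] x) D0 hc fun M hM hle hs =>
    hd M hM (h.mem_all (M := M.toSubfield) hM M.algebraMap_mem fun a F hF =>
      h.mem_of hM hs (fun i => hle (mem_gen x i)) hF)
  exact ⟨D, hD, (h2 (x' i1)).trans (by rw [h1]; rfl)⟩

omit [CompleteSpace K] in
/-- The derivation commutes with the Frobenius up to a factor. -/
theorem RB.comm (h : RB p cst del TW e0 e ψ) (hd : TopGen ℂ_[p] ψ) (iso : ∀ z, ‖σ z‖ = ‖z‖)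
    (hk : ∀ a, ∃ a', σ (algebraMap ℂ_[p] K a) = algebraMap ℂ_[p] K a') (i1 : ι)
    (hi : ∀ j, IsIntegral (clo ℂ_[p]⟮ψ (e i1) / ψ e0⟯) (ψ (e j) / ψ e0))
    (D : Derivation ℂ_[p] K K) (hc : Continuous D) (h1 : D (ψ (e i1) / ψ e0) = 1) (z : K) :
    D (σ z) = D (σ (ψ (e i1) / ψ e0)) * σ (D z) := by
  obtain ⟨B, hB, hb⟩ := der_bound D hc
  set l := D (σ (ψ (e i1) / ψ e0)) with hl
  have hσ : Continuous σ := (AddMonoidHomClass.isometry_of_norm σ iso).continuous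
  let γ := dualHom σ (fun y => D (σ y)) (by simp) (by simp)
  let γ' := dualHom σ (fun y => l * σ (D y)) (by simp [mul_add]) (by
    simp [mul_add, mul_left_comm])
  have hZ : ∀ y, y ∈ γ.eqLocusField γ' ↔ D (σ y) = l * σ (D y) := fun y =>
    ⟨fun e => by simpa [γ, γ'] using congrArg (fun t : DualNumber K => t.snd) e,
      fun e => TrivSqZeroExt.ext (by simp [γ, γ']) (by simpa [γ, γ'] using e)⟩
  have hcl : IsClosed (γ.eqLocusField γ' : Set K) := by
    rw [show (γ.eqLocusField γ' : Set K) = {y | D (σ y) = l * σ (D y)} from Set.ext hZ]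
    exact isClosed_eq (by fun_prop) (by fun_prop)
  have hc0 : ∀ a, algebraMap ℂ_[p] K a ∈ γ.eqLocusField γ' := fun a => by
    obtain ⟨a', e⟩ := hk a
    rw [hZ, e, D.map_algebraMap, D.map_algebraMap, map_zero, mul_zero]
  let Z := (γ.eqLocusField γ').toIntermediateField hc0
  have h2 : clo ℂ_[p]⟮ψ (e i1) / ψ e0⟯ ≤ Z := clo_le (IntermediateField.adjoin_simple_le_iff.2
    ((hZ _).2 (by rw [h1, map_one, mul_one]))) hcl
  have : CharZero (clo ℂ_[p]⟮ψ (e i1) / ψ e0⟯) :=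
    charZero_of_injective_algebraMap (algebraMap ℂ_[p] _).injective
  have h3 : ∀ j, γ (ψ (e j) / ψ e0) = γ' (ψ (e j) / ψ e0) := fun j =>
    dual_eq (by simp [γ, γ']) (fun a => h2 a.2) (hi j)
  have h4 : ∀ a, ∀ F ∈ TW a, ψ F / ψ e0 ^ a ∈ γ.eqLocusField γ' := fun a F hF => by
    have h5 := h.two (B := max B (‖l‖ * B)) (χ := γ.comp ψ) (χ' := γ'.comp ψ) (by simp [γ, γ'])
      (by simp [γ, iso, h.nm0]) (by simp [γ, iso, h.nm]) (fun a F hF => by
        have h6 := (h.bd a F hF).1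
        have h7 : ∀ y : K, ‖y‖ ≤ 1 → ‖D y‖ ≤ B := fun y hy =>
          (hb y).trans (mul_le_of_le_one_right hB.le hy)
        refine ⟨⟨by simpa [γ, iso] using h6, ?_⟩, by simpa [γ', iso] using h6, ?_⟩
        · simpa [γ] using Or.inl (h7 _ ((iso _).trans_le h6))
        · simpa [γ', iso] using Or.inr (mul_le_mul_of_nonneg_left (h7 _ h6) (norm_nonneg l)))
      (fun i => by
        simp only [RingHom.comp_apply]
        rw [← div_mul_cancel₀ (ψ (e i)) h.ne0, map_mul, map_mul, h3]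
        ring) hF
    simp only [RingHom.comp_apply] at h5
    rw [← div_mul_cancel₀ (ψ F) (pow_ne_zero a h.ne0), map_mul, map_mul, map_pow, map_pow,
      mul_assoc, mul_assoc, mul_comm (γ' _ ^ a)] at h5
    exact ((((Ne.isUnit h.ne0).map γ).pow a).mul (((Ne.isUnit h.ne0).map γ').pow a)).mul_right_cancel
      h5
  exact (hZ z).1 ((hd Z hcl (h.mem_all hcl hc0 h4)).symm ▸ IntermediateField.mem_top : z ∈ Z)

omit [CompleteSpace K] [IsUltrametricDist K] in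
theorem FB.ne (h : RB p cst del TW e0 e ψ) (hf : FB p del TW e0 e ψ σ q θ c) :
    c ≠ 0 ∧ θ e0 ≠ 0 := by
  have h1 := hf.eq 1 e0 h.mem0
  rw [pow_one] at h1
  exact mul_ne_zero_iff.1 (h1 ▸ (map_ne_zero σ).2 h.ne0)

theorem rigidO_gen (h : RB p cst del TW e0 e ψ) (hf : FB p del TW e0 e ψ σ q θ c)
    (hd : TopGen ℂ_[p] ψ) (i1 : ι) (tr : ∀ a, ψ (e i1) / ψ e0 ≠ algebraMap ℂ_[p] K a)
    (rel : ∀ j, ∃ P : ℂ_[p][X][Y], P ≠ 0 ∧ P.aevalAeval (ψ (e i1) / ψ e0) (ψ (e j) / ψ e0) = 0) :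
    ∃ (D : Derivation ℂ_[p] K K) (g : ι → K) (i0 : ι), g i0 = 1 ∧ (∀ i, D (g i) = 0) ∧
      ∀ G, D (ψ G) = ∑ l, ψ (del l G) * g l := by
  obtain ⟨D, hc, h1⟩ := h.exists_der hd i1 tr rel
  have hJ := Ne.isUnit h.det
  obtain ⟨η, hη⟩ : ∃ η, ∀ i, D (ψ (e i) / ψ e0) = (jacO del e0 e ψ *ᵥ η) i :=
    ⟨(jacO del e0 e ψ)⁻¹ *ᵥ fun i => D (ψ (e i) / ψ e0), fun i => by
      rw [mulVec_mulVec, mul_nonsing_inv _ hJ, one_mulVec]⟩
  have hch := h.chain D hc η hη
  have hcomm := h.comm hd hf.iso hf.cst i1 (fun j => by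
    obtain ⟨P, hP, h2⟩ := rel j
    exact pbs_integral tr hP h2) D hc h1
  set l := D (σ (ψ (e i1) / ψ e0)) with hl
  obtain ⟨hc0, hθ0⟩ := hf.ne h
  obtain ⟨Θ, hΘ, hlim⟩ := hf.lim
  have hθ : ∀ G, D (θ G) = q * ∑ l, θ (del l G) * η l := fun G =>
    tendsto_nhds_unique ((hc.tendsto _).comp (hlim G)) (by
      refine ((tendsto_finsetSum _ fun l _ => (hlim (del l G)).mul_const (η l)).const_mul
        (q : K)).congr fun j => ?_
      simp only [Function.comp, hch, hΘ, map_mul, map_natCast, Finset.mul_sum, mul_assoc])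
  have e0' : σ (ψ e0) = c * θ e0 := by simpa using hf.eq 1 _ h.mem0
  have e1' : ∀ i, σ (ψ (e i)) = c * θ (e i) := fun i => by simpa using hf.eq 1 _ (h.mem i)
  have hw : ∀ i, l * σ (η i) = q * η i := by
    have h2 : (jacO del e0 e ψ).map σ *ᵥ (fun i => l * σ (η i) - q * η i) = 0 := by
      funext i
      have h3 := hcomm (ψ (e i) / ψ e0)
      rw [hη, map_div₀, e0', e1', mul_div_mul_left _ _ hc0, D.leibniz_div, hθ, hθ] at h3
      simp only [mulVec, dotProduct, jacO, of_apply, map_apply, map_sum, map_mul, map_div₀, map_sub,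
        map_pow, e0', e1', hf.eq0, hf.eq1, smul_eq_mul, Finset.mul_sum, ← Finset.sum_sub_distrib,
        Pi.zero_apply] at h3 ⊢
      rw [← sub_eq_zero.2 h3.symm, ← Finset.sum_sub_distrib]
      exact Finset.sum_congr rfl fun m _ => by field_simp
    have h3 : ((jacO del e0 e ψ).map σ).det ≠ 0 := by
      rw [← RingHom.mapMatrix_apply, ← RingHom.map_det]
      exact (map_ne_zero σ).2 h.det
    exact fun i => sub_eq_zero.1 (congrFun (eq_zero_of_mulVec_eq_zero h3 h2) i)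
  obtain ⟨i0, hi0⟩ : ∃ i0, η i0 ≠ 0 := by
    by_contra h0
    push Not at h0
    have h2 := hη i1
    rw [h1, show η = 0 from funext h0, mulVec_zero] at h2
    exact one_ne_zero h2
  have : CharZero K := charZero_of_injective_algebraMap (algebraMap ℂ_[p] K).injective
  have hN0 : (q : K) ≠ 0 := Nat.cast_ne_zero.2 hf.pos.ne'
  have hl0 : l ≠ 0 := fun e => mul_ne_zero hN0 hi0 (by rw [← hw, e, zero_mul])
  have hφ0 : σ (η i0) ≠ 0 := (map_ne_zero σ).2 hi0
  refine ⟨(η i0)⁻¹ • D, fun i => η i / η i0, i0, div_self hi0, fun i => ?_, fun G => ?_⟩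
  · have h2 : σ (η i / η i0) = η i / η i0 := by
      rw [map_div₀, ← mul_div_mul_left _ _ hl0, hw, hw, mul_div_mul_left _ _ hN0]
    show (η i0)⁻¹ * D (η i / η i0) = 0
    set t := (η i0)⁻¹ * D (η i / η i0) with ht
    have h3 : t = q * σ t := by
      have h4 := hcomm (η i / η i0)
      rw [h2] at h4
      have h5 : (q : K) = l * σ (η i0) * (η i0)⁻¹ := by rw [hw, mul_inv_cancel_right₀ hi0]
      rw [h5, ht, map_mul, map_inv₀]
      conv_lhs => rw [h4]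
      field_simp
    have h4 : ‖t‖ = ‖(q : ℂ_[p])‖ * ‖t‖ := by
      conv_lhs => rw [h3, norm_mul, hf.iso, ← map_natCast (algebraMap ℂ_[p] K), norm_algebraMap']
    by_contra h0
    have h5 : 0 < ‖t‖ := norm_pos_iff.2 h0
    nlinarith [hf.lt]
  · show (η i0)⁻¹ * D (ψ G) = _
    rw [hch, Finset.mul_sum]
    exact Finset.sum_congr rfl fun m _ => by ring

omit [CompleteSpace K] [IsUltrametricDist K] in
theorem RB.sub (h : RB p cst del TW e0 e ψ) {M : IntermediateField ℂ_[p] K} {ε : Q →+* M}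
    (he : ∀ G, (ε G : K) = ψ G) : RB p cst del TW e0 e ε := by
  have hn : ∀ y : M, ‖y‖ = ‖(y : K)‖ := fun _ => rfl
  have hA : ∀ {S : Set Q} {G : Q}, Ap ψ del S G → Ap ε del S G := fun hA r hr => by
    simpa only [hn, AddSubgroupClass.coe_sub, he] using hA r hr
  refine ⟨h.del_add, h.del_mul, h.del_cst, fun c => Subtype.ext ((he _).trans (h.map_cst c)),
    by simpa only [hn, he] using h.bd, h.mem0, h.mem, by simpa only [hn, he] using h.nm0,
    by simpa only [hn, he] using h.nm, by simpa only [hn, he] using h.jac0, fun i l => ?_,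
    h.rec1, ?_, fun G => hA (h.dense G), ?_⟩
  · simpa [hn, he, apply_ite (fun y : M => (y : K))] using h.jac i l
  · simpa [hn, he] using h.sys
  · obtain ⟨s, N, h1, h2, h3⟩ := h.nb
    exact ⟨s, N, h1, fun e => h2 (by rw [← he, e]; rfl), hA h3⟩

theorem rigidO (h : RB p cst del TW e0 e ψ) (hf : FB p del TW e0 e ψ σ q θ c) (i1 : ι)
    (tr : ∀ a, ψ (e i1) / ψ e0 ≠ algebraMap ℂ_[p] K a)
    (rel : ∀ j, ∃ P : ℂ_[p][X][Y], P ≠ 0 ∧ P.aevalAeval (ψ (e i1) / ψ e0) (ψ (e j) / ψ e0) = 0) :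
    ∃ (M : IntermediateField ℂ_[p] K) (D : Derivation ℂ_[p] M M) (ε : Q →+* M) (g : ι → M)
      (i0 : ι), (∀ G, (ε G : K) = ψ G) ∧ g i0 = 1 ∧ (∀ i, D (g i) = 0) ∧
        ∀ G, D (ε G) = ∑ l, ε (del l G) * g l := by
  let M := gen ℂ_[p] ψ
  have hM : IsClosed (M : Set K) := isClosed_clo _
  let ε : Q →+* M := ψ.codRestrict M.toSubfield (mem_gen ψ)
  have he : ∀ G, (ε G : K) = ψ G := fun _ => rfl
  obtain ⟨hc0, hθ0⟩ := hf.ne h
  obtain ⟨Θ, hΘ, hlim⟩ := hf.lim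
  have hθ : ∀ G, θ G ∈ M := fun G =>
    hM.mem_of_tendsto (hlim G) (Eventually.of_forall fun j => mem_gen ψ _)
  have hσ : Continuous σ := (AddMonoidHomClass.isometry_of_norm σ hf.iso).continuous
  have e0' : σ (ψ e0) = c * θ e0 := by simpa using hf.eq 1 _ h.mem0
  obtain ⟨σ', hσ'⟩ := exists_restrict ψ σ hf.iso hf.cst
    (h.mem_all (M := M.toSubfield.comap σ) (hM.preimage hσ) (fun a => by
      obtain ⟨a', e⟩ := hf.cst a
      exact show σ _ ∈ M from e ▸ M.algebraMap_mem a') fun a F hF => by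
      change σ _ ∈ M
      rw [map_div₀, map_pow, hf.eq a F hF, e0', mul_pow, mul_div_mul_left _ _ (pow_ne_zero a hc0)]
      exact div_mem (hθ F) (pow_mem (hθ e0) a))
  have hc : c ∈ M := by
    rw [eq_div_of_mul_eq hθ0 e0'.symm, ← he, ← hσ']
    exact div_mem (σ' _).2 (hθ e0)
  have hx : ∀ i, M.val (ε (e i) / ε e0) = ψ (e i) / ψ e0 := fun i => by
    rw [map_div₀]
    rfl
  obtain ⟨D, g, i0, h1⟩ := rigidO_gen (σ := σ') (q := q) (θ := fun G => ⟨θ G, hθ G⟩) (c := ⟨c, hc⟩)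
    (h.sub he) ⟨fun z => (congrArg norm (hσ' z)).trans (hf.iso z), fun a => (hf.cst a).imp
      fun _ e => Subtype.ext ((hσ' _).trans e), hf.pos, hf.lt,
      ⟨Θ, hΘ, fun G => tendsto_subtype_rng.2 (hlim G)⟩,
      fun a F hF => Subtype.ext ((hσ' _).trans (hf.eq a F hF)),
      fun l => Subtype.ext ((hσ' _).trans (hf.eq0 l)),
      fun i l => Subtype.ext ((hσ' _).trans (hf.eq1 i l))⟩ (topGen_gen ψ) i1
    (fun a e => tr a (by rw [← hx, e, AlgHom.commutes])) fun j => by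
      obtain ⟨P, hP, h2⟩ := rel j
      refine ⟨P, hP, Subtype.ext (Eq.trans ?_ h2)⟩
      exact DFunLike.congr_fun (show M.val.comp (aevalAeval (ε (e i1) / ε e0) (ε (e j) / ε e0)) =
        aevalAeval (ψ (e i1) / ψ e0) (ψ (e j) / ψ e0) by ext <;> simp [← hx]) P
  exact ⟨M, D, ε, g, i0, he, h1⟩

end Pool.Agent.E7
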