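import Pool.Agent.Lib.MP_7e5527_ag.EO.BQ
import Pool.Agent.Lib.MP_7e5527_ag.EO.TR3

/-! The norm of the gradient is a limit of forms of lower weight. -/

open Filter Topology Polynomial Matrix

noncomputable section

namespace Pool.Agent.E7

variable {p : ℕ} [Fact p.Prime] {R : Type} [CommRing R] {S : TW p cone R} {M W : Cl S} {E : Fr S}

theorem Cl.gl_mul {a b : ℕ} {F G : R} (h : S.GL (W.M a) F) (h' : S.GL (W.M b) G) :
    S.GL (W.M (a + b)) (F * G) := h.mul h' (W.mul a b)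

theorem Cl.gl_pow {a : ℕ} {F : R} (h : S.GL (W.M a) F) (n : ℕ) : S.GL (W.M (n * a)) (F ^ n) := by
  induction n with
  | zero => exact .of_mem (by simpa using W.one)
  | succ k ih =>
    rw [pow_succ, add_mul, one_mul]
    exact Cl.gl_mul ih h

theorem Cl.gl_hom {σ : Type} {P : MvPolynomial σ ℤ} {d a : ℕ} (hP : P.IsHomogeneous d) {x : σ → R}
    (hx : ∀ i, S.GL (W.M a) (x i)) : S.GL (W.M (d * a)) (MvPolynomial.aeval x P) := by
  classical
  rw [MvPolynomial.aeval_def, MvPolynomial.eval₂_eq]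
  refine Finset.sum_induction _ _ (fun _ _ h h' => TW.GL.add h h' (W.add _)) (.of_mem (W.zero _))
    fun m hm => ?_
  rw [hP.degree_eq_sum_deg_support hm, ← zero_add (_ * a), Finset.sum_mul]
  refine Cl.gl_mul (.of_mem (by simpa using W.zsmul W.one _)) ?_
  induction m.support using Finset.induction_on with
  | empty => exact .of_mem W.one
  | insert i s hi ih =>
    rw [Finset.sum_insert hi, Finset.prod_insert hi]
    exact Cl.gl_mul (Cl.gl_pow (hx i) _) ih

theorem Ad3.nb' {K : Type} [NontriviallyNormedField K] [NormedAlgebra ℂ_[p] K] [CompleteSpace K]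
    [IsUltrametricDist K] {ψ : R →+* K} (h : Ad3 M E) (tow : W.Tow) (h' : Ad W E)
    (sub : ∀ a, M.M a ⊆ W.M a) (gp : E.Gp ψ) :
    ∃ s, ∃ N ∈ W.M (s + 1), ψ N ≠ 0 ∧ S.GL (W.M s) N := by
  have : CharZero K := charZero_of_injective_algebraMap (algebraMap ℂ_[p] K).injective
  obtain ⟨lam, h1⟩ := Fr.exists_NB gp.unit.ne_zero gp.Jm_det.isUnit
  obtain ⟨k, -, h2⟩ := h.nb
  have hg : ∑ i, (lam i : R) * E.e i ∈ W.M 1 := W.sum _ fun i _ => W.zsmul (h'.e i) _
  refine ⟨k * (3 * 2), E.NB lam ^ k, by simpa [mul_comm k] using sub _ (h2 fun _ => lam),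
    by simpa using fun e => absurd e h1, Cl.gl_pow (Cl.gl_hom Np_hom fun l => ?_) k⟩
  rw [Fr.dq, sub_eq_add_neg]
  exact (Cl.gl_mul (.of_mem h'.e0) (tow.gl_del (.of_mem hg) l)).add ((Cl.gl_mul (.of_mem hg)
    (tow.gl_del (.of_mem h'.e0) l)).neg (W.neg _)) (W.add _)

end Pool.Agent.E7
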