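import Mathlib

/-! Cartier operators and the theorem of Christol in several variables. -/

open Polynomial

noncomputable section

namespace Pool.Agent.E7

variable {ι : Type} [Fintype ι] [DecidableEq ι] {p : ℕ} [Fact p.Prime] {K : Type} [Field K]
  [CharP K p]

/-- The monomials `y ^ m`, `m i < p`, form a basis of `K` over its `p`-th powers. -/
structure PBasis (p : ℕ) (y : ι → K) (L : (ι → Fin p) → K → K) : Prop where
  eq : ∀ h, h = ∑ m : ι → Fin p, (∏ i, y i ^ (m i : ℕ)) * L m h ^ p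
  uniq : ∀ z : (ι → Fin p) → K, ∑ m : ι → Fin p, (∏ i, y i ^ (m i : ℕ)) * z m ^ p = 0 → z = 0

variable {y : ι → K} {L : (ι → Fin p) → K → K}

theorem PBasis.ext (h : PBasis p y L) {a : K} {z : (ι → Fin p) → K}
    (e : a = ∑ m : ι → Fin p, (∏ i, y i ^ (m i : ℕ)) * z m ^ p) (m : ι → Fin p) : L m a = z m := by
  have h1 := h.uniq (fun m => L m a - z m) (by
    simp only [sub_pow_char, mul_sub, Finset.sum_sub_distrib]
    rw [← h.eq a, ← e, sub_self])
  exact sub_eq_zero.mp (congrFun h1 m)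

theorem PBasis.cchr_add (h : PBasis p y L) (m : ι → Fin p) (a b : K) :
    L m (a + b) = L m a + L m b :=
  h.ext (z := fun m => L m a + L m b) (by
    simp only [add_pow_char, mul_add, Finset.sum_add_distrib]
    rw [← h.eq a, ← h.eq b]) m

theorem PBasis.cchr_mul (h : PBasis p y L) (m : ι → Fin p) (a b : K) :
    L m (a * b ^ p) = L m a * b :=
  h.ext (z := fun m => L m a * b) (by
    simp only [mul_pow, ← mul_assoc, ← Finset.sum_mul]
    rw [← h.eq a]) m

theorem PBasis.cchr_zero (h : PBasis p y L) (m : ι → Fin p) : L m 0 = 0 := by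
  simpa [(Fact.out : p.Prime).ne_zero] using h.cchr_mul m 0 0

theorem PBasis.cchr_sum (h : PBasis p y L) (m : ι → Fin p) (N : ℕ) (c : ℕ → K) (g : K) :
    L m (∑ i ∈ Finset.range N, c i * g ^ p ^ (i + 1)) =
      ∑ i ∈ Finset.range N, L m (c i) * g ^ p ^ i := by
  induction N with
  | zero => simpa using h.cchr_zero m
  | succ N ih =>
    rw [Finset.sum_range_succ, Finset.sum_range_succ, h.cchr_add, ih, pow_succ, pow_mul,
      h.cchr_mul]

theorem PBasis.cchr_split (h : PBasis p y L) (m : ι → Fin p) (P : MvPolynomial ι ℤ) :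
    ∃ Q : MvPolynomial ι ℤ, MvPolynomial.aeval y Q = L m (MvPolynomial.aeval y P) ∧
      ∀ q ν : ι →₀ ℕ, (∀ i, ν i = p * q i + m i) → Q.coeff q = P.coeff ν := by
  have hp := (Fact.out : p.Prime).pos
  induction P using MvPolynomial.induction_on' with
  | add P P' h1 h2 =>
    obtain ⟨Q, e, c⟩ := h1
    obtain ⟨Q', e', c'⟩ := h2
    exact ⟨Q + Q', by rw [map_add, map_add, h.cchr_add, e, e'], fun q ν hν => by
      rw [MvPolynomial.coeff_add, MvPolynomial.coeff_add, c q ν hν, c' q ν hν]⟩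
  | monomial μ c =>
    let r : ι → Fin p := fun i => ⟨μ i % p, Nat.mod_lt _ hp⟩
    let d : ι →₀ ℕ := Finsupp.equivFunOnFinite.symm fun i => μ i / p
    have e : L m (MvPolynomial.aeval y (MvPolynomial.monomial μ c)) =
        (Pi.single r (MvPolynomial.aeval y (MvPolynomial.monomial d c)) : (ι → Fin p) → K) m := by
      refine h.ext ?_ m
      rw [Finset.sum_eq_single r (fun b _ hb => by simp [hb, hp.ne']) (by simp), Pi.single_eq_same,
        MvPolynomial.aeval_monomial, MvPolynomial.aeval_monomial, mul_pow, eq_intCast,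
        ← frobenius_def p (c : K), map_intCast, Finsupp.prod_fintype _ _ (by simp),
        Finsupp.prod_fintype _ _ (by simp), mul_left_comm, ← Finset.prod_pow,
        ← Finset.prod_mul_distrib]
      refine congrArg _ (Finset.prod_congr rfl fun i _ => ?_)
      rw [← pow_mul, ← pow_add]
      exact congrArg _ (Nat.mod_add_div' (μ i) p).symm
    have key : ∀ q ν : ι →₀ ℕ, (∀ i, ν i = p * q i + m i) → (μ = ν ↔ m = r ∧ d = q) := by
      intro q ν hν
      constructor
      · rintro rfl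
        refine ⟨funext fun i => Fin.ext ?_, Finsupp.ext fun i => ?_⟩
        · change _ = μ i % p
          rw [hν, Nat.mul_add_mod, Nat.mod_eq_of_lt (m i).isLt]
        · change μ i / p = _
          rw [hν, Nat.mul_add_div hp, Nat.div_eq_of_lt (m i).isLt, add_zero]
      · rintro ⟨rfl, rfl⟩
        exact Finsupp.ext fun i => (hν i).symm ▸ (Nat.div_add_mod (μ i) p).symm
    by_cases hm : m = r
    · refine ⟨MvPolynomial.monomial d c, by rw [e, hm, Pi.single_eq_same], fun q ν hν => ?_⟩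
      simp only [MvPolynomial.coeff_monomial, key q ν hν, hm, true_and]
    · refine ⟨0, by rw [e, Pi.single_eq_of_ne hm, map_zero], fun q ν hν => ?_⟩
      simp only [MvPolynomial.coeff_monomial, key q ν hν, hm, false_and, if_false,
        MvPolynomial.coeff_zero]

omit [DecidableEq ι] in
theorem cchr_deg {m : ι → Fin p} {P Q : MvPolynomial ι ℤ}
    (c : ∀ q ν : ι →₀ ℕ, (∀ i, ν i = p * q i + m i) → Q.coeff q = P.coeff ν) :
    Q.totalDegree ≤ P.totalDegree / 2 := by
  refine Finset.sup_le fun q hq => ?_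
  let ν : ι →₀ ℕ := Finsupp.equivFunOnFinite.symm fun i => p * q i + m i
  have h1 : ν ∈ P.support := by
    rw [MvPolynomial.mem_support_iff] at hq ⊢
    rwa [← c q ν fun _ => rfl]
  have h2 := MvPolynomial.le_totalDegree h1
  rw [Finsupp.sum_fintype _ _ (by simp)] at h2 ⊢
  rw [Nat.le_div_iff_mul_le two_pos, Finset.sum_mul]
  refine (Finset.sum_le_sum fun i _ => ?_).trans h2
  change _ ≤ p * q i + m i
  have := (Fact.out : p.Prime).two_le
  nlinarith

/-- A relation of least total degree splits along the classes of exponents modulo `p`. -/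
theorem PBasis.indep (h : PBasis p y L) {P : MvPolynomial ι ℤ}
    (e : MvPolynomial.aeval y P = 0) (ν : ι →₀ ℕ) : (p : ℤ) ∣ P.coeff ν := by
  have hp := (Fact.out : p.Prime).pos
  induction hn : P.totalDegree using Nat.strong_induction_on generalizing P ν with
  | _ n ih =>
    rcases Nat.eq_zero_or_pos n with rfl | h0
    · rw [MvPolynomial.totalDegree_eq_zero_iff_eq_C] at hn
      rw [hn, MvPolynomial.aeval_C, eq_intCast, CharP.intCast_eq_zero_iff K p] at e
      rw [hn, MvPolynomial.coeff_C]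
      split_ifs
      exacts [e, dvd_zero _]
    · obtain ⟨Q, e', c⟩ := h.cchr_split (fun i => ⟨ν i % p, Nat.mod_lt _ hp⟩) P
      rw [e, h.cchr_zero] at e'
      have := cchr_deg c
      rw [← c (Finsupp.equivFunOnFinite.symm fun i => ν i / p) ν fun i =>
        (Nat.div_add_mod (ν i) p).symm]
      exact ih _ (by omega) e' _ rfl

omit [Fact p.Prime] [CharP K p] in
theorem cchr_ore (R : Subalgebra ℤ K) {a : K} (ha : IsAlgebraic R a) :
    ∃ (N k : ℕ) (c : ℕ → K), (∀ i, c i ∈ R) ∧ k < N ∧ c k ≠ 0 ∧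
      ∑ i ∈ Finset.range N, c i * a ^ p ^ i = 0 := by
  let _ : Algebra (FractionRing R) K := FractionRing.liftAlgebra R K
  have := FractionRing.isScalarTower_liftAlgebra R K
  have hi : IsIntegral (FractionRing R) a :=
    ((IsFractionRing.isAlgebraic_iff R (FractionRing R) K).mp ha).isIntegral
  have := IntermediateField.adjoin.finiteDimensional hi
  have h1 : ¬ LinearIndependent R fun i : ℕ => a ^ p ^ i := by
    rw [LinearIndependent.iff_fractionRing R (FractionRing R)]
    intro hl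
    refine Module.Finite.not_linearIndependent_of_infinite (R := FractionRing R)
      (fun i : ℕ => IntermediateField.AdjoinSimple.gen (FractionRing R) a ^ p ^ i) ?_
    exact LinearIndependent.of_comp
      (IntermediateField.adjoin (FractionRing R) {a}).val.toLinearMap hl
  obtain ⟨s, g, e, k, hk, h0⟩ := not_linearIndependent_iff.mp h1
  obtain ⟨N, hN⟩ := s.exists_nat_subset_range
  refine ⟨N, k, fun i => if i ∈ s then g i else 0, fun i => ?_, Finset.mem_range.mp (hN hk),
    by simpa [hk] using h0, ?_⟩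
  · dsimp only
    split_ifs
    exacts [(g i).2, R.zero_mem]
  · rw [← Finset.sum_subset hN fun i _ hi => by simp [hi]]
    exact (Finset.sum_congr rfl fun i hi => by simp only [if_pos hi]; rfl).trans e

theorem PBasis.cchr_low (h : PBasis p y L) {R : Subalgebra ℤ K} (hR : ∀ m, ∀ c ∈ R, L m c ∈ R)
    {a : K} (k : ℕ) : ∀ (N : ℕ) (c : ℕ → K), (∀ i, c i ∈ R) → k < N → c k ≠ 0 →
      ∑ i ∈ Finset.range N, c i * a ^ p ^ i = 0 → ∃ (N : ℕ) (c : ℕ → K), (∀ i, c i ∈ R) ∧
        c 0 ≠ 0 ∧ ∑ i ∈ Finset.range (N + 1), c i * a ^ p ^ i = 0 := by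
  induction k with
  | zero =>
    intro N c h1 h2 h3 h4
    obtain ⟨N, rfl⟩ := Nat.exists_eq_add_one_of_ne_zero h2.ne'
    exact ⟨N, c, h1, h3, h4⟩
  | succ k ih =>
    intro N c h1 h2 h3 h4
    obtain ⟨N, rfl⟩ := Nat.exists_eq_add_one_of_ne_zero (show N ≠ 0 by omega)
    by_cases h0 : c 0 = 0
    swap
    · exact ⟨N, c, h1, h0, h4⟩
    obtain ⟨m, hm⟩ : ∃ m, L m (c (k + 1)) ≠ 0 := by
      by_contra hn
      push Not at hn
      refine h3 ((h.eq _).trans ?_)
      simp [hn, (Fact.out : p.Prime).ne_zero]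
    rw [Finset.sum_range_succ', h0, zero_mul, add_zero] at h4
    refine ih N (fun i => L m (c (i + 1))) (fun i => hR m _ (h1 _)) (by omega) hm ?_
    rw [← h.cchr_sum m N (fun i => c (i + 1)), h4, h.cchr_zero]

/-- Values of polynomials of bounded degree. -/
def cchrV (y : ι → K) (n : ℕ) : Submodule ℤ K :=
  (MvPolynomial.restrictTotalDegree ι ℤ n).map
    (MvPolynomial.aeval y : MvPolynomial ι ℤ →ₐ[ℤ] K).toLinearMap

omit [Fintype ι] [DecidableEq ι] in
theorem cchr_mem {n : ℕ} {x : K} : x ∈ cchrV y n ↔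
    ∃ Q : MvPolynomial ι ℤ, Q.totalDegree ≤ n ∧ MvPolynomial.aeval y Q = x := by
  simp only [cchrV, Submodule.mem_map, MvPolynomial.mem_restrictTotalDegree,
    AlgHom.toLinearMap_apply]

omit [DecidableEq ι] in
include p in
theorem cchr_fin (y : ι → K) (n : ℕ) : Finite (cchrV y n) := by
  have : Module.Finite ℤ (cchrV y n) := by
    unfold cchrV
    infer_instance
  refine Module.finite_of_fg_torsion _ fun x => ⟨⟨p, mem_nonZeroDivisors_of_ne_zero
    (by exact_mod_cast (Fact.out : p.Prime).ne_zero)⟩, Subtype.ext ?_⟩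
  change (p : ℤ) • (x : K) = 0
  simp

/-- An Ore relation `a0 * h = ∑ a i * h ^ p ^ i` with polynomials in `y` and `a0 ≠ 0` (lower a
relation with the operators `L m`); for `g = h / a0` the sums `∑ c i * g ^ p ^ i` with `c i` of
bounded degree form a finite set that is stable under the operators. -/
theorem PBasis.christol (h : PBasis p y L) {a : K} {P : (MvPolynomial ι ℤ)[X]}
    (h0 : P.map (MvPolynomial.aeval y : MvPolynomial ι ℤ →ₐ[ℤ] K).toRingHom ≠ 0)
    (e : P.eval₂ (MvPolynomial.aeval y : MvPolynomial ι ℤ →ₐ[ℤ] K).toRingHom a = 0) :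
    ∃ s : Set K, s.Finite ∧ a ∈ s ∧ ∀ b ∈ s, ∀ m, L m b ∈ s := by
  let ev := (MvPolynomial.aeval y : MvPolynomial ι ℤ →ₐ[ℤ] K)
  have ha : IsAlgebraic ev.range a := by
    refine ⟨P.map ev.rangeRestrict.toRingHom, fun h1 => h0 ?_, ?_⟩
    · have := congrArg (Polynomial.map (algebraMap ev.range K)) h1
      rwa [Polynomial.map_map, Polynomial.map_zero] at this
    · rw [aeval_def, eval₂_map]
      exact e
  obtain ⟨N, k, c, h1, h2, h3, h4⟩ := cchr_ore (p := p) ev.range ha
  obtain ⟨N, c, h1, h3, h4⟩ := h.cchr_low (R := ev.range) (fun m _ ⟨Q, hQ⟩ =>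
    let ⟨Q', e', _⟩ := h.cchr_split m Q
    ⟨Q', hQ ▸ e'⟩) k N c h1 h2 h3 h4
  obtain ⟨g, rfl⟩ : ∃ g, a = c 0 * g := ⟨a / c 0, by field_simp⟩
  have hg : g = ∑ i ∈ Finset.range N,
      (-c (i + 1) * c 0 ^ (p ^ (i + 1) - 2)) * g ^ p ^ (i + 1) := by
    rw [Finset.sum_range_succ', pow_zero, pow_one, add_comm, add_eq_zero_iff_eq_neg,
      ← Finset.sum_neg_distrib] at h4
    refine mul_left_cancel₀ (pow_ne_zero 2 h3) ?_
    rw [pow_two, mul_assoc, h4, Finset.mul_sum]
    refine Finset.sum_congr rfl fun i _ => ?_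
    have h5 : 2 ≤ p ^ (i + 1) := (Fact.out : p.Prime).two_le.trans
      (Nat.le_self_pow (Nat.succ_ne_zero i) p)
    obtain ⟨j, hj⟩ := Nat.exists_eq_add_of_le h5
    rw [mul_pow, hj, Nat.add_sub_cancel_left]
    ring
  have h6 : ∀ i, -c (i + 1) * c 0 ^ (p ^ (i + 1) - 2) ∈ ev.range := fun i =>
    mul_mem (neg_mem (h1 _)) (pow_mem (h1 _) _)
  choose E hE using h6
  obtain ⟨C0, hC⟩ := h1 0
  let n := C0.totalDegree + ∑ i ∈ Finset.range N, (E i).totalDegree
  have := cchr_fin (p := p) y n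
  refine ⟨{x | ∃ b : ℕ → K, (∀ i, b i ∈ cchrV y n) ∧
    x = ∑ i ∈ Finset.range (N + 1), b i * g ^ p ^ i}, ?_, ?_, ?_⟩
  · refine (Set.finite_range fun b : Fin (N + 1) → cchrV y n =>
      ∑ i, (b i : K) * g ^ p ^ (i : ℕ)).subset ?_
    rintro _ ⟨b, hb, rfl⟩
    exact ⟨fun i => ⟨b i, hb i⟩, (Finset.sum_range fun i => b i * g ^ p ^ i).symm⟩
  · refine ⟨fun i => if i = 0 then c 0 else 0, fun i => ?_, by simp⟩
    dsimp only
    split_ifs
    exacts [cchr_mem.mpr ⟨C0, Nat.le_add_right _ _, hC⟩, zero_mem _]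
  · rintro _ ⟨b, hb, rfl⟩ m
    refine ⟨fun i => if i < N then L m (b (i + 1) + b 0 * ev (E i)) else 0, fun i => ?_, ?_⟩
    · dsimp only
      split_ifs with hi
      swap
      · exact zero_mem _
      obtain ⟨Q, d1, e1⟩ := cchr_mem.mp (hb (i + 1))
      obtain ⟨Q', d2, e2⟩ := cchr_mem.mp (hb 0)
      obtain ⟨Q'', e3, c3⟩ := h.cchr_split m (Q + Q' * E i)
      refine cchr_mem.mpr ⟨Q'', ?_, by rw [e3, map_add, map_mul, e1, e2]⟩
      have d3 := cchr_deg c3
      have d4 := MvPolynomial.totalDegree_add Q (Q' * E i)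
      have d5 := MvPolynomial.totalDegree_mul Q' (E i)
      have d6 : (E i).totalDegree ≤ n := (Finset.single_le_sum (f := fun i => (E i).totalDegree)
        (fun _ _ => Nat.zero_le _) (Finset.mem_range.mpr hi)).trans (Nat.le_add_left _ _)
      omega
    · rw [Finset.sum_range_succ (fun i => ite (i < N) _ _ * _), if_neg (lt_irrefl N), zero_mul,
        add_zero]
      refine Eq.trans ?_ ((h.cchr_sum m N (fun i => b (i + 1) + b 0 * ev (E i)) g).trans
        (Finset.sum_congr rfl fun i hi => by rw [if_pos (Finset.mem_range.mp hi)]))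
      rw [Finset.sum_range_succ', pow_zero, pow_one]
      nth_rewrite 2 [hg]
      rw [Finset.mul_sum, ← Finset.sum_add_distrib]
      refine congrArg _ (Finset.sum_congr rfl fun i _ => ?_)
      rw [show ev (E i) = _ from hE i]
      ring

end Pool.Agent.E7
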