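import Pool.Agent.Lib.MP_7e5527_ag.EO.CRec
import Pool.Agent.Lib.MP_7e5527_ag.EO.CChr

/-! Every form lies in a finite system that is closed under the Cartier operators modulo `p`. -/

open Filter Topology Polynomial Matrix

noncomputable section

namespace Pool.Agent.E7

variable {ι : Type} [Fintype ι] [DecidableEq ι] {p : ℕ} [Fact p.Prime] {C : Cone ι} {R : Type}
  [CommRing R] {S : TW p C R}

variable {M : Cl S} {E : Fr S}

theorem csys_cancel (S : TW p C R) {F : R} (h : (p : R) * F = 0) : F = 0 := by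
  refine S.inj (funext fun T => ?_)
  have h1 := TW.co_int (S := S) p F T
  rw [Int.cast_natCast, h, map_zero, Int.cast_natCast] at h1
  rw [map_zero]
  exact (mul_eq_zero.1 h1.symm).resolve_left (Nat.cast_ne_zero.2 (Fact.out : p.Prime).ne_zero)

/-- Divide the relation by `p` as long as possible (`p_cancel`). -/
theorem Fr.Rl.prim {a : ℕ} {F : R} {P : (MvPolynomial (Option ι) ℤ)[X]}
    (h : E.Rl (Int.castRingHom R) a F P) : ∃ P', E.Rl (Int.castRingHom R) a F P' ∧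
      ∃ j ν, ¬ (p : ℤ) ∣ (P'.coeff j).coeff ν := by
  obtain ⟨j, hj⟩ : ∃ j, P.coeff j ≠ 0 := by
    by_contra h1
    exact h.1 (Polynomial.ext fun j => by_contra fun h2 => h1 ⟨j, h2⟩)
  obtain ⟨ν, hν⟩ := MvPolynomial.ne_zero_iff.1 hj
  have hp : 1 < p := (Fact.out : p.Prime).one_lt
  clear hj
  generalize hn : ((P.coeff j).coeff ν).natAbs = n
  induction n using Nat.strong_induction_on generalizing P with
  | _ n ih =>
  by_cases h1 : ∃ j ν, ¬ (p : ℤ) ∣ (P.coeff j).coeff ν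
  · exact ⟨P, h, h1⟩
  have h2 : Polynomial.C (MvPolynomial.C (p : ℤ)) ∣ P :=
    (Polynomial.C_dvd_iff_dvd_coeff _ _).2 fun j => (MvPolynomial.C_dvd_iff_dvd_coeff _ _).2
      fun ν => by_contra fun h2 => h1 ⟨j, ν, h2⟩
  obtain ⟨Q, rfl⟩ := h2
  have h3 : ∀ j ν, ((Polynomial.C (MvPolynomial.C (p : ℤ)) * Q).coeff j).coeff ν =
      p * (Q.coeff j).coeff ν := fun j ν => by
    rw [Polynomial.coeff_C_mul, MvPolynomial.coeff_C_mul]
  have hp0 : (p : ℤ) ≠ 0 := by omega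
  rw [h3] at hν hn
  have h4 := right_ne_zero_of_mul hν
  refine ih _ ?_ (P := Q) ⟨right_ne_zero_of_mul h.1, ?_, ?_⟩ h4 rfl
  · rw [← hn, Int.natAbs_mul, Int.natAbs_natCast]
    exact lt_mul_of_one_lt_left (Int.natAbs_pos.2 h4) hp
  · obtain ⟨L, hL⟩ := h.2.1
    refine ⟨L, fun j hj => ?_⟩
    obtain ⟨μ, hμ⟩ := MvPolynomial.ne_zero_iff.1 hj
    obtain ⟨d, e, hd⟩ := hL j (MvPolynomial.ne_zero_iff.2 ⟨μ, by
      rw [h3]; exact mul_ne_zero hp0 hμ⟩)
    exact ⟨d, e, fun μ hμ => hd (by rw [h3]; exact mul_ne_zero hp0 hμ)⟩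
  · have h5 := h.2.2
    rw [eval₂_mul, eval₂_C, MvPolynomial.eval₂Hom_C, map_natCast] at h5
    exact csys_cancel S h5

theorem csys_sep {W : (ι → Fin p) → R} (h : ∀ m, S.Sup p (-rp m) (W m)) (hD : S.Dv (∑ m, W m))
    (m : ι → Fin p) : S.Dv (W m) := by
  intro T
  by_cases h0 : S.co (W m) T = 0
  · exact ⟨0, by rw [h0]; simp⟩
  obtain ⟨n, hn⟩ := hD T
  refine ⟨n, ?_⟩
  have key : ∀ m', S.co (W m') T ≠ 0 → Cg p (0 - T) (rp m') := fun m' h1 => by
    have := (Cg.refl p 0).sub (h m' T h1)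
    rwa [zero_sub (-rp m'), neg_neg] at this
  rw [← hn, map_sum, Finset.sum_apply, Finset.sum_eq_single m]
  · intro m' _ hm
    by_contra h1
    exact hm ((exists_rp (Fact.out : p.Prime).pos (0 - T)).unique (key m' h1) (key m h0))
  · exact fun h1 => absurd (Finset.mem_univ m) h1

theorem csys_pow {N : ℕ} {c : ι → ℤ} {F : R} (h : S.Sup N c F) (n : ℕ) :
    S.Sup N (n • c) (F ^ n) := by
  induction n with
  | zero => rw [zero_smul, pow_zero]; exact TW.Sup.one N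
  | succ n ih => rw [succ_nsmul, pow_succ]; exact ih.mul h

theorem csys_rev {c : MvPolynomial (Option ι) ℤ} {d N : ℕ} (hc : c.IsHomogeneous d) (hN : d ≤ N) :
    ∃ c' : MvPolynomial ι ℤ, (∀ ν, c.coeff ν ≠ 0 → ∃ ν', c'.coeff ν' = c.coeff ν) ∧
      ∀ (K : Type) [Field K] (t : K) (x : ι → K), (∀ i, x i ≠ 0) →
        MvPolynomial.aeval (fun i => t / x i) c' * t ^ d =
          (∏ i, t / x i) ^ N * MvPolynomial.aeval (fun o : Option ι => o.elim t x) c := by
  have hd : ∀ ν ∈ c.support, ν none + ∑ i, ν (some i) = d := fun ν hν => by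
    rw [← Fintype.sum_option (fun o => ν o), ← Finsupp.degree_eq_sum, Finsupp.degree_eq_weight_one]
    exact hc (MvPolynomial.mem_support_iff.1 hν)
  have hle : ∀ ν ∈ c.support, ∀ i, ν (some i) ≤ N := fun ν hν i => by
    have h1 := hd ν hν
    have h2 : ν (some i) ≤ ∑ i, ν (some i) :=
      Finset.single_le_sum (f := fun i => ν (some i)) (fun _ _ => Nat.zero_le _) (Finset.mem_univ i)
    omega
  let θ : (Option ι →₀ ℕ) → ι →₀ ℕ := fun ν =>
    Finsupp.equivFunOnFinite.symm fun k => N - ν (some k)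
  refine ⟨∑ ν ∈ c.support, MvPolynomial.monomial (θ ν) (c.coeff ν), fun ν hν => ⟨θ ν, ?_⟩,
    fun K _ t x hx => ?_⟩
  · have hν' := MvPolynomial.mem_support_iff.2 hν
    rw [MvPolynomial.coeff_sum, Finset.sum_eq_single ν]
    · rw [MvPolynomial.coeff_monomial, if_pos rfl]
    · intro μ hμ hne
      rw [MvPolynomial.coeff_monomial, if_neg]
      intro h1
      have h2 : ∀ k, μ (some k) = ν (some k) := fun k => by
        have h3 : N - μ (some k) = N - ν (some k) := DFunLike.congr_fun h1 k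
        have := hle μ hμ k
        have := hle ν hν' k
        omega
      refine hne (Finsupp.ext fun o => ?_)
      cases o with
      | none =>
        have h3 := hd μ hμ
        have h4 := hd ν hν'
        simp only [h2] at h3
        omega
      | some k => exact h2 k
    · exact fun h1 => absurd hν' h1
  · conv_rhs => rw [c.as_sum]
    rw [map_sum, map_sum, Finset.sum_mul, Finset.mul_sum]
    refine Finset.sum_congr rfl fun ν hν => ?_
    rw [MvPolynomial.aeval_monomial, MvPolynomial.aeval_monomial,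
      Finsupp.prod_fintype _ _ (fun _ => pow_zero _), Finsupp.prod_fintype _ _ (fun _ => pow_zero _),
      Fintype.prod_option, ← hd ν hν, pow_add, ← Finset.prod_pow_eq_pow_sum, ← Finset.prod_pow]
    have h1 : (∏ i, (t / x i) ^ θ ν i) * ∏ i, t ^ ν (some i) =
        (∏ i, (t / x i) ^ N) * ∏ i, x i ^ ν (some i) := by
      rw [← Finset.prod_mul_distrib, ← Finset.prod_mul_distrib]
      refine Finset.prod_congr rfl fun i _ => ?_
      change (t / x i) ^ (N - ν (some i)) * _ = _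
      conv_rhs => rw [← Nat.sub_add_cancel (hle ν hν i), pow_add, mul_assoc, ← mul_pow,
        div_mul_cancel₀ _ (hx i)]
    simp only [Option.elim]
    linear_combination (algebraMap ℤ K (c.coeff ν) * t ^ ν none) * h1

theorem csys_rel {K : Type} [Field K] [CharP K p] {t f : K} {x : ι → K} (ht : t ≠ 0)
    (hx : ∀ i, x i ≠ 0) {L : (ι → Fin p) → K → K} (h : PBasis p (fun i => t / x i) L) {a : ℕ}
    {P : (MvPolynomial (Option ι) ℤ)[X]} (hw : WH a P) {j : ℕ} {ν : Option ι →₀ ℕ}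
    (hj : ¬ (p : ℤ) ∣ (P.coeff j).coeff ν)
    (e : ∑ k ∈ P.support, MvPolynomial.aeval (fun o : Option ι => o.elim t x) (P.coeff k) * f ^ k = 0) :
    ∃ s : Set K, s.Finite ∧ f / t ^ a ∈ s ∧ ∀ b ∈ s, ∀ m, L m b ∈ s := by
  obtain ⟨N, hN⟩ := hw
  have h1 := fun k : P.support => hN k (Polynomial.mem_support_iff.1 k.2)
  choose d hd hh using h1
  choose c h2 h3 using fun k => csys_rev (hh k) (N := N) (by have := hd k; omega)
  have hν : (P.coeff j).coeff ν ≠ 0 := fun h0 => hj (h0 ▸ dvd_zero _)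
  have hjs : j ∈ P.support := Polynomial.mem_support_iff.2 (MvPolynomial.ne_zero_iff.2 ⟨ν, hν⟩)
  refine h.christol (P := ∑ k : P.support, Polynomial.monomial k (c k)) ?_ ?_
  · intro h0
    have h4 := congrArg (fun Q => Polynomial.coeff Q j) h0
    simp only [coeff_map, coeff_zero, finsetSum_coeff] at h4
    rw [Finset.sum_eq_single (⟨j, hjs⟩ : P.support), Polynomial.coeff_monomial, if_pos rfl] at h4
    · obtain ⟨ν', h5⟩ := h2 ⟨j, hjs⟩ ν hν
      exact hj (h5 ▸ h.indep h4 ν')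
    · intro k _ hk
      rw [Polynomial.coeff_monomial, if_neg fun h5 => hk (Subtype.ext h5)]
    · exact fun h5 => absurd (Finset.mem_univ _) h5
  · refine mul_right_cancel₀ (pow_ne_zero N ht) ?_
    rw [zero_mul, eval₂_finsetSum, Finset.sum_mul, ← mul_zero ((∏ i, t / x i) ^ N), ← e,
      ← Finset.sum_coe_sort P.support, Finset.mul_sum]
    refine Finset.sum_congr rfl fun k _ => ?_
    rw [eval₂_monomial, ← mul_assoc, ← h3 k K t x hx]
    change MvPolynomial.aeval _ _ * _ * _ = _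
    rw [← hd k, pow_add, div_pow, ← pow_mul, mul_comm a]
    field_simp

theorem csys_div {K : Type} [Field K] {u V : K} (hu : u ≠ 0) {q : ℕ} (hq : 0 < q) (b d : ℕ) :
    V / (u ^ d * u ^ b) =
      V * u ^ ((q - 1) * (b + d)) * ((u ^ q) ^ q) ^ (b + d) / (u ^ q) ^ ((q + 1) * (b + d)) := by
  obtain ⟨n, rfl⟩ : ∃ n, q = n + 1 := ⟨q - 1, by omega⟩
  rw [Nat.add_sub_cancel]
  field_simp
  ring

/-- In the field of `exists_red` put `y i = r e0 / r (e i)`; it is a `PBasis` (write `r F / r G`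
as `r (F * G ^ (p - 1)) / r G ^ p`, use `split`, `cs_em`, `fr_sub_pow`; uniqueness by the classes of
the exponents), and `L m (r F / r e0 ^ a) = r (car a m F) / r e0 ^ ((p + 1) * (a + dgm m))` by
`Ad.recur`-like computation with `car_dv`. A primitive relation for `F`, multiplied by a power of the
`y i`, is a relation over the `y i` that does not vanish (`PBasis.indep`, homogeneity). Apply
`PBasis.christol` and index by the members of the finite set that come from the class. -/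
theorem Ad.sys (h : Ad M E) (h0 : ¬ S.Dv E.e0) (h1 : ∀ i, ¬ S.Dv (E.e i)) {a : ℕ} {F : R}
    (hF : F ∈ M.M a) : ∃ (τ : Type) (_ : Fintype τ) (b : τ → ℕ) (G : τ → R) (s0 : τ)
      (nx : τ → (ι → Fin p) → τ), (∀ s, G s ∈ M.M (b s)) ∧
      S.Dv (F * E.e0 ^ b s0 - G s0 * E.e0 ^ a) ∧ ∀ s m,
        S.Dv (E.car (b s) m (G s) * E.e0 ^ b (nx s m) -
          G (nx s m) * E.e0 ^ ((p + 1) * (b s + dgm m))) := by
  have hp : p.Prime := Fact.out
  obtain ⟨K, _, _, r, hr, hK⟩ := S.exists_red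
  let x0 : S.ZR := ⟨E.e0, E.int0⟩
  let u0 : S.ZR := ⟨S.up E.e0, E.int0.up⟩
  let x : ι → S.ZR := fun i => ⟨E.e i, E.int i⟩
  let em : (ι → Fin p) → S.ZR := fun m => ∏ i, x i ^ (m i : ℕ)
  have hem : ∀ m, (em m : R) = E.em m := fun m => by
    simp only [em, x, Fr.em, SubmonoidClass.coe_finsetProd, SubmonoidClass.coe_pow]
  let fr : S.ZR → S.ZR := fun G => ⟨S.fr G, TW.Zi.isg TW.isg_fr G.2⟩
  let U : (ι → Fin p) → S.ZR → S.ZR := fun m G => ⟨S.up (G * em m : S.ZR), TW.Zi.up (G * em m).2⟩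
  have hfr : ∀ G, r (fr G) = r G ^ p := fun G => by
    rw [← sub_eq_zero, ← map_pow, ← map_sub, hr]
    exact TW.fr_sub_pow G.2
  have t0 : r x0 ≠ 0 := fun h2 => h0 ((hr x0).1 h2)
  have tx : ∀ i, r (x i) ≠ 0 := fun i h2 => h1 i ((hr (x i)).1 h2)
  have tu : r x0 = r u0 ^ p := by
    rw [← hfr]
    exact congrArg r (Subtype.ext E.fr_up_e0.symm)
  have tu0 : r u0 ≠ 0 := fun h2 => t0 (by rw [tu, h2, zero_pow hp.ne_zero])
  have tm : ∀ m, r (em m) ≠ 0 := fun m => by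
    rw [map_prod]
    exact Finset.prod_ne_zero_iff.2 fun i _ => by rw [map_pow]; exact pow_ne_zero _ (tx i)
  have hy : ∀ m : ι → Fin p, ∏ i, (r x0 / r (x i)) ^ (m i : ℕ) = r x0 ^ dgm m / r (em m) :=
    fun m => by
      simp only [div_pow, Finset.prod_div_distrib, Finset.prod_pow_eq_pow_sum, em, map_prod,
        map_pow, dgm]
  have hA : ∀ (G : S.ZR) (z : K), r G / z ^ p =
      ∑ m : ι → Fin p, (∏ i, (r x0 / r (x i)) ^ (m i : ℕ)) *
        (r (U m G) / (r u0 ^ dgm m * z)) ^ p := fun G z => by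
    have e1 : G = ∑ m : ι → Fin p, ⟨S.cs p (-rp m) G, TW.Zi.cs G.2 hp.pos _⟩ := by
      refine Subtype.ext ?_
      rw [AddSubmonoidClass.coe_finsetSum]
      exact E.split G
    conv_lhs => rw [e1, map_sum, Finset.sum_div]
    refine Finset.sum_congr rfl fun m _ => ?_
    have e2 : r ⟨S.cs p (-rp m) G, TW.Zi.cs G.2 hp.pos _⟩ * r (em m) = r (U m G) ^ p := by
      rw [← hfr, ← map_mul]
      refine congrArg r (Subtype.ext ?_)
      change _ * (em m : R) = S.fr (S.up (_ * (em m : R)))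
      rw [hem]
      exact E.cs_em m G
    have e3 := tm m
    rw [hy, div_pow, ← e2, mul_pow, ← pow_mul, mul_comm (dgm m), pow_mul, ← tu]
    field_simp
  have hex : ∀ z : K, ∃ w : (ι → Fin p) → K,
      z = ∑ m : ι → Fin p, (∏ i, (r x0 / r (x i)) ^ (m i : ℕ)) * w m ^ p := fun z => by
    obtain ⟨G, H, hH, rfl⟩ := hK z
    refine ⟨_, Eq.trans ?_ (hA (G * H ^ (p - 1)) (r H))⟩
    rw [map_mul, map_pow, ← pow_sub_one_mul hp.ne_zero (r H), mul_comm (r G),
      mul_div_mul_left _ _ (pow_ne_zero _ hH)]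
  choose L hL using hex
  have hB : PBasis p (fun i => r x0 / r (x i)) fun m z => L z m := by
    refine ⟨hL, fun z hz => ?_⟩
    choose G H hH e using fun m => hK (z m / r (em m))
    have hD : r (∏ m, H m) ≠ 0 := by
      rw [map_prod]
      exact Finset.prod_ne_zero_iff.2 fun m _ => hH m
    let W : (ι → Fin p) → S.ZR := fun m =>
      x0 ^ dgm m * em m ^ (p - 1) * fr (G m * ∏ k ∈ Finset.univ.erase m, H k)
    have hW : ∀ m, r (W m) = r x0 ^ dgm m / r (em m) * z m ^ p * r (∏ m, H m) ^ p := fun m => by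
      have e1 := tm m
      have e2 := hH m
      rw [map_mul, map_mul, map_pow, map_pow, hfr, ← Finset.mul_prod_erase _ H (Finset.mem_univ m),
        map_mul, map_mul, (div_eq_iff e1).1 (e m), mul_pow, mul_pow, mul_pow, div_pow,
        ← pow_sub_one_mul hp.ne_zero (r (em m))]
      field_simp
    have hS : S.Dv (∑ m, (W m : R)) := by
      rw [← AddSubmonoidClass.coe_finsetSum, ← hr, map_sum]
      simp only [hW, ← hy]
      rw [← Finset.sum_mul, hz, zero_mul]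
    funext m
    have h3 : r (W m) = 0 := (hr _).2 (csys_sep (fun m T hT => ?_) hS m)
    · rw [hW] at h3
      exact pow_eq_zero_iff hp.ne_zero |>.1 ((mul_eq_zero.1 ((mul_eq_zero.1 h3).resolve_right
        (pow_ne_zero _ hD))).resolve_left (div_ne_zero (pow_ne_zero _ t0) (tm m)))
    · have h4 := ((csys_pow E.sup0 (dgm m)).mul (csys_pow (E.em_sup m) (p - 1))).mul
        (S.co_fr0 (G m * ∏ k ∈ Finset.univ.erase m, H k : S.ZR)) T (by rw [← hem]; exact hT)
      refine h4.trans fun i => ⟨rp m i, ?_⟩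
      rw [smul_zero, zero_add, add_zero, Pi.smul_apply, Pi.neg_apply, nsmul_eq_mul,
        Nat.cast_pred hp.pos]
      ring
  have hC : ∀ b G (hG : G ∈ M.M b) (m : ι → Fin p), L (r ⟨G, M.int b G hG⟩ / r x0 ^ b) m =
      r ⟨E.car b m G, M.int _ _ (h.car_mem hG m)⟩ / r x0 ^ ((p + 1) * (b + dgm m)) := by
    intro b G hG m
    have e1 := hA ⟨G, M.int b G hG⟩ (r u0 ^ b)
    rw [← pow_mul, mul_comm b, pow_mul, ← tu] at e1
    have e2 : (⟨E.car b m G, M.int _ _ (h.car_mem hG m)⟩ : S.ZR) = U m ⟨G, M.int b G hG⟩ *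
        u0 ^ ((p - 1) * (b + dgm m)) * fr x0 ^ (b + dgm m) := by
      refine Subtype.ext ?_
      change _ = S.up (G * (em m : R)) * _ * _
      rw [hem]
      rfl
    refine (hB.ext e1 m).trans ?_
    rw [e2, map_mul, map_mul, map_pow, map_pow, hfr, tu]
    exact csys_div tu0 hp.pos _ _
  have hE : ∀ (G H : S.ZR) (b c : ℕ), r G / r x0 ^ b = r H / r x0 ^ c →
      S.Dv ((G : R) * E.e0 ^ c - (H : R) * E.e0 ^ b) := fun G H b c e => by
    rw [div_eq_div_iff (pow_ne_zero _ t0) (pow_ne_zero _ t0), ← sub_eq_zero, ← map_pow, ← map_pow,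
      ← map_mul, ← map_mul, ← map_sub, hr] at e
    exact e
  obtain ⟨P0, hP0⟩ := h.alg a F hF
  obtain ⟨P, ⟨-, hw, hP⟩, j, ν, hj⟩ := hP0.prim
  obtain ⟨s, hs, ha, hst⟩ := csys_rel t0 tx hB (f := r ⟨F, M.int a F hF⟩) hw hj (by
    let oe : Option ι → S.ZR := fun o => o.elim x0 x
    have e1 : ∑ k ∈ P.support, MvPolynomial.aeval oe (P.coeff k) *
        (⟨F, M.int a F hF⟩ : S.ZR) ^ k = 0 := by
      refine Subtype.ext (Eq.trans ?_ hP)
      rw [AddSubmonoidClass.coe_finsetSum, eval₂_eq_sum, Polynomial.sum_def]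
      refine Finset.sum_congr rfl fun k _ => ?_
      have e2 : S.ZR.subtype.comp (MvPolynomial.aeval oe : _ →ₐ[ℤ] S.ZR).toRingHom =
          MvPolynomial.eval₂Hom (Int.castRingHom R) E.oe :=
        MvPolynomial.ringHom_ext (fun n => by simp) fun o => by cases o <;> simp [oe, Fr.oe, x0, x]
      rw [← e2]
      rfl
    have e2 : r.comp (MvPolynomial.aeval oe : _ →ₐ[ℤ] S.ZR).toRingHom =
        (MvPolynomial.aeval (fun o : Option ι => o.elim (r x0) fun i => r (x i)) :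
          _ →ₐ[ℤ] K).toRingHom :=
      MvPolynomial.ringHom_ext (fun n => by simp) fun o => by cases o <;> simp [oe]
    rw [← map_zero r, ← e1, map_sum]
    refine Finset.sum_congr rfl fun k _ => ?_
    rw [map_mul, map_pow]
    exact congrArg (· * _) (DFunLike.congr_fun e2 (P.coeff k)).symm)
  let τ := {z : K // z ∈ s ∧ ∃ b G, ∃ hG : G ∈ M.M b, z = r ⟨G, M.int b G hG⟩ / r x0 ^ b}
  have : Finite τ := (hs.subset fun z hz => hz.1 :
    {z | z ∈ s ∧ ∃ b G, ∃ hG : G ∈ M.M b, z = r ⟨G, M.int b G hG⟩ / r x0 ^ b}.Finite)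
  choose b G hG e using fun z : τ => z.2.2
  refine ⟨τ, Fintype.ofFinite τ, b, G, ⟨_, ha, a, F, hF, rfl⟩, fun z m => ⟨L z m, hst z z.2.1 m,
    _, _, h.car_mem (hG z) m, by rw [← hC _ _ (hG z), ← e]⟩, hG,
    hE ⟨F, _⟩ ⟨_, _⟩ _ _ (e ⟨_, _⟩), fun z m => ?_⟩
  refine hE ⟨_, M.int _ _ (h.car_mem (hG z) m)⟩ ⟨_, M.int _ _ (hG _)⟩ _ _ ?_
  rw [← hC _ _ (hG z), ← e, ← e]

variable {A : Type} [NormedCommRing A] [NormOneClass A] [NormedAlgebra ℂ_[p] A] [CompleteSpace A]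
  [IsUltrametricDist A] {ψ : R →+* A}

theorem Fr.Gp.not_dv (h : E.Gp ψ) : ¬ S.Dv E.e0 ∧ ∀ i, ¬ S.Dv (E.e i) := by
  have hp : (1 : ℝ) < p := Nat.one_lt_cast.2 (Fact.out : p.Prime).one_lt
  have key : ∀ G, IsU (ψ G) → ¬ S.Dv G := fun G ⟨b, hb, hb'⟩ hD => by
    have h1 := h.ch G _ (by positivity) hD.bd
    have h2 := norm_mul_le_of_le h1 hb'
    rw [hb, norm_one, mul_one] at h2
    exact absurd (inv_lt_one_of_one_lt₀ hp) (not_lt.2 h2)
  exact ⟨key _ h.un.1, fun i => key _ (h.un.2 i)⟩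

theorem csys_nz (hψ : E.Gp ψ) {a : ℕ} {F : R} (hF : F ∈ M.M a) : ‖E.nz ψ a F‖ ≤ 1 := by
  have h1 := norm_mul_le_of_le (hψ.ch F 1 zero_le_one (M.int a F hF).bd)
    ((norm_pow_le _ a).trans (pow_le_one₀ (norm_nonneg _) hψ.un.1.inv_le))
  rwa [mul_one] at h1

theorem csys_pnz (hψ : E.Gp ψ) {a : ℕ} {F : R} (hF : F ∈ M.M a) :
    ‖(p : A) * E.nz ψ a F‖ ≤ (p : ℝ)⁻¹ := by
  have h1 := hψ.ch _ _ (by positivity) (TW.Zi.one (S := S)).dv.bd
  rw [mul_one, map_natCast] at h1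
  have h2 := norm_mul_le_of_le h1 (csys_nz hψ hF)
  rwa [mul_one] at h2

theorem csys_pows {u v : A} (hu : ‖u‖ ≤ 1) (hv : ‖v‖ ≤ 1) (n : ℕ) : ‖u ^ n - v ^ n‖ ≤ ‖u - v‖ := by
  induction n with
  | zero => simp
  | succ n ih =>
    rw [show u ^ (n + 1) - v ^ (n + 1) = u * (u ^ n - v ^ n) + v ^ n * (u - v) by ring]
    refine (IsUltrametricDist.norm_add_le_max _ _).trans (max_le ?_ ?_)
    · exact (norm_mul_le_of_le hu ih).trans_eq (one_mul _)
    · exact (norm_mul_le_of_le ((norm_pow_le _ n).trans (pow_le_one₀ (norm_nonneg _) hv))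
        le_rfl).trans_eq (one_mul _)

/-- The system in terms of norms (`Ad.sys`, `Ad.recur`, `Ad.nz_sub`). -/
theorem Ad.sys_norm (h : Ad M E) (hψ : E.Gp ψ) {a : ℕ} {F : R} (hF : F ∈ M.M a) :
    ∃ (τ : Type) (_ : Fintype τ) (b : τ → ℕ) (G : τ → R) (s0 : τ) (nx : τ → (ι → Fin p) → τ),
      (∀ s, G s ∈ M.M (b s)) ∧ ‖E.nz ψ a F - E.nz ψ (b s0) (G s0)‖ ≤ (p : ℝ)⁻¹ ∧
      ∀ s, ‖E.nz ψ (b s) (G s) - ∑ m : ι → Fin p, (∏ i, Ring.inverse (E.xc ψ i) ^ (m i : ℕ)) *
        E.nz ψ (b (nx s m)) (G (nx s m)) ^ p‖ ≤ (p : ℝ)⁻¹ := by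
  obtain ⟨τ, hτ, b, G, s0, nx, hG, h1, h2⟩ := h.sys hψ.not_dv.1 hψ.not_dv.2 hF
  have hu := hψ.un.1.isUnit
  refine ⟨τ, hτ, b, G, s0, nx, hG, ?_, fun s => ?_⟩
  · obtain ⟨H, hH, e⟩ := h.nz_sub hF (hG s0) h1
    rw [e A ψ hu]
    exact csys_pnz hψ hH
  obtain ⟨G', hG', e⟩ := h.recur (hG s)
  rw [e A ψ hu fun i => (hψ.un.2 i).isUnit, ← Finset.sum_sub_distrib]
  refine IsUltrametricDist.norm_sum_le_of_forall_le_of_nonneg (by positivity) fun m _ => ?_
  have hX : ‖∏ i, Ring.inverse (E.xc ψ i) ^ (m i : ℕ)‖ ≤ 1 := by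
    refine (Finset.norm_prod_le _ _).trans (Finset.prod_le_one (fun _ _ => norm_nonneg _)
      fun i _ => (norm_pow_le _ _).trans (pow_le_one₀ (norm_nonneg _) (IsU.inv_le ?_)))
    refine (hψ.un.2 i).mul ⟨ψ E.e0, ?_, hψ.ch _ 1 zero_le_one E.int0.bd⟩
    rw [pow_one, Ring.inverse_mul_cancel _ hu]
  obtain ⟨H, hH, e'⟩ := h.nz_sub (h.car_mem (hG s) m) (hG (nx s m)) (h2 s m)
  rw [← mul_sub, add_sub_right_comm]
  refine (norm_mul_le_of_le hX ((IsUltrametricDist.norm_add_le_max _ _).trans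
    (max_le ?_ (csys_pnz hψ (hG' m))))).trans_eq (one_mul _)
  refine (csys_pows (csys_nz hψ (h.car_mem (hG s) m)) (csys_nz hψ (hG _)) p).trans ?_
  rw [e' A ψ hu]
  exact csys_pnz hψ hH

end Pool.Agent.E7
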