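import Pool.Agent.Lib.MP_7e5527_ag.EO.BDefs
import Pool.Agent.Lib.MP_7e5527_ag.EO.CSys

/-! The closure of the span of a class of forms. -/

open Filter Topology Polynomial Matrix

noncomputable section

namespace Pool.Agent.E7

variable {ι : Type} [Fintype ι] [DecidableEq ι] {p : ℕ} [Fact p.Prime] {C : Cone ι} {R : Type}
  [CommRing R] {S : TW p C R} {W : Cl S} {E : Fr S}

/-- `G` is a limit of elements of `T` for the Gauss norm. -/
def TW.GL (S : TW p C R) (T : Set R) (G : R) : Prop := ∀ ε : ℝ, 0 < ε → ∃ A ∈ T, S.Bd ε (G - A)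

namespace TW

variable {T T' T'' : Set R} {G G' : R}

theorem GL.of_mem (h : G ∈ T) : S.GL T G := fun ε hε => ⟨G, h, fun U => by simp [hε.le]⟩

theorem GL.map (h : S.GL T G) (φ : R →+ R) (hφ : ∀ B F, S.Bd B F → S.Bd B (φ F))
    (hT : ∀ A ∈ T, S.GL T' (φ A)) : S.GL T' (φ G) := fun ε hε => by
  obtain ⟨A, hA, h1⟩ := h ε hε
  obtain ⟨A', hA', h2⟩ := hT A hA ε hε
  have h3 := (hφ _ _ h1).add h2
  rw [map_sub, sub_add_sub_cancel] at h3
  exact ⟨A', hA', h3⟩

theorem GL.add (h : S.GL T G) (h' : S.GL T G') (hT : ∀ A ∈ T, ∀ A' ∈ T, A + A' ∈ T) :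
    S.GL T (G + G') := fun ε hε => by
  obtain ⟨A, hA, h1⟩ := h ε hε
  obtain ⟨A', hA', h2⟩ := h' ε hε
  exact ⟨_, hT A hA A' hA', add_sub_add_comm G G' A A' ▸ h1.add h2⟩

theorem GL.neg (h : S.GL T G) (hT : ∀ A ∈ T, -A ∈ T) : S.GL T (-G) :=
  h.map (negAddMonoidHom) (fun _ _ => Bd.neg) fun A hA => GL.of_mem (hT A hA)

theorem GL.mul (h : S.GL T G) (h' : S.GL T' G') (hT : ∀ A ∈ T, ∀ A' ∈ T', A * A' ∈ T'') :
    S.GL T'' (G * G') := fun ε hε => by
  obtain ⟨B, -, hB⟩ := S.bdd G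
  obtain ⟨B', -, hB'⟩ := S.bdd G'
  have h0 : 0 < max 1 (max B B') := one_pos.trans_le (le_max_left _ _)
  have h3 := lt_min one_pos (div_pos hε h0)
  obtain ⟨A, hA, h1⟩ := h _ h3
  obtain ⟨A', hA', h2⟩ := h' _ h3
  have h4 : min 1 (ε / max 1 (max B B')) * max 1 (max B B') ≤ ε :=
    (le_div_iff₀ h0).1 (min_le_right _ _)
  have h5 : S.Bd (max 1 (max B B')) (G' - (G' - A')) :=
    (Bd.mono hB' ((le_max_right _ _).trans (le_max_right _ _))).sub
      (h2.mono ((min_le_left _ _).trans (le_max_left _ _)))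
  have h6 := ((h1.mul h5).mono h4).add ((h2.mul (Bd.mono hB ((le_max_left _ B').trans
    (le_max_right 1 _)))).mono h4)
  exact ⟨_, hT A hA A' hA', (by ring : (G - A) * (G' - (G' - A')) + (G' - A') * G =
    G * G' - A * A') ▸ h6⟩

theorem GL.eq {A : Type} [NormedCommRing A] {ψ ψ' : R →+* A} (hψ : S.Ch ψ) (hψ' : S.Ch ψ') {c : A}
    (h : S.GL T G) (hT : ∀ F ∈ T, ψ F = c * ψ' F) : ψ G = c * ψ' G := by
  rw [← sub_eq_zero, ← norm_le_zero_iff]
  refine le_of_forall_pos_le_add fun ε hε => ?_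
  have h0 : 0 < 1 + ‖c‖ := by positivity
  obtain ⟨F, hF, h1⟩ := h _ (div_pos hε h0)
  rw [show ψ G - c * ψ' G = ψ (G - F) - c * ψ' (G - F) by rw [map_sub, map_sub, hT F hF]; ring]
  refine (norm_sub_le _ _).trans ((add_le_add (hψ _ _ (div_pos hε h0).le h1) ((norm_mul_le _ _).trans
    (mul_le_mul_of_nonneg_left (hψ' _ _ (div_pos hε h0).le h1) (norm_nonneg c)))).trans_eq ?_)
  field_simp
  ring

end TW

theorem Cl.Tow.gl_del (tow : W.Tow) {a : ℕ} {F : R} (h : S.GL (W.M a) F) (l : ι) :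
    S.GL (W.M a) (S.del l F) :=
  h.map (AddMonoidHom.mk' (S.del l) (TW.del_add l)) (fun _ _ h => h.del l) fun A hA ε hε => by
    have hp : (1 : ℝ) < p := by exact_mod_cast (Fact.out : p.Prime).one_lt
    obtain ⟨j, hj⟩ := exists_pow_lt_of_lt_one hε (inv_lt_one_of_one_lt₀ hp)
    exact ⟨_, W.sum _ fun c _ => W.zsmul
      (tow.cs _ _ _ (pow_pos (Fact.out : p.Prime).pos j) A hA) _,
      (TW.del_approx l (W.int a A hA).bd j).mono (by rw [one_mul, ← inv_pow]; exact hj.le)⟩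

/-- The constant multiples of the members of the class. -/
def Cl.gn (W : Cl S) : Submonoid R where
  carrier := {x | ∃ c a, ∃ F ∈ W.M a, x = S.cst c * F}
  one_mem' := ⟨1, 0, 1, W.one, by simp⟩
  mul_mem' := by
    rintro _ _ ⟨c, a, F, hF, rfl⟩ ⟨c', a', F', hF', rfl⟩
    exact ⟨c * c', _, _, W.mul _ _ _ hF _ hF', by rw [map_mul]; ring⟩

/-- The closure of the span. -/
def Cl.QS (W : Cl S) : Subring R where
  carrier := {G | S.GL (Subring.closure (W.gn : Set R)) G}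
  one_mem' := .of_mem (one_mem _)
  zero_mem' := .of_mem (zero_mem _)
  add_mem' h h' := h.add h' fun _ h _ h' => add_mem h h'
  neg_mem' h := h.neg fun _ h => neg_mem h
  mul_mem' h h' := h.mul h' fun _ h _ h' => mul_mem h h'

theorem Cl.sp_eq (W : Cl S) : (Subring.closure (W.gn : Set R) : Set R) =
    AddSubgroup.closure (W.gn : Set R) := Set.ext fun x => by
  rw [SetLike.mem_coe, Subring.mem_closure_iff, Submonoid.closure_eq, SetLike.mem_coe]

theorem Cl.mem_QS {a : ℕ} {F : R} (h : S.GL (W.M a) F) : F ∈ W.QS :=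
  h.map (AddMonoidHom.id R) (fun _ _ h => h) fun A hA =>
    .of_mem (Subring.subset_closure ⟨1, a, A, hA, by simp⟩)

theorem Cl.cst_QS (c : ℂ_[p]) : S.cst c ∈ W.QS :=
  .of_mem (Subring.subset_closure ⟨c, 0, 1, W.one, by simp⟩)

theorem Cl.map_QS (φ : R →+ R) (hφ : ∀ B F, S.Bd B F → S.Bd B (φ F))
    (hc : ∀ c F, φ (S.cst c * F) = S.cst c * φ F) (hg : ∀ a, ∀ F ∈ W.M a, S.GL (W.M a) (φ F))
    {G : R} (h : G ∈ W.QS) : φ G ∈ W.QS :=
  TW.GL.map h φ hφ fun A hA => by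
    refine (AddSubgroup.closure_le (W.QS.toAddSubgroup.comap φ)).2 ?_ (W.sp_eq ▸ hA :)
    rintro _ ⟨c, a, F, hF, rfl⟩
    change φ _ ∈ W.QS
    rw [hc]
    exact mul_mem (Cl.cst_QS c) (Cl.mem_QS (hg a F hF))

theorem Cl.Tow.exists_sub (tow : W.Tow) : ∃ (Q : Type) (_ : CommRing Q) (V : SubR S Q),
    (∀ a F, S.GL (W.M a) F → F ∈ V.val.range) ∧
    (∀ G, S.GL (AddSubgroup.closure (W.gn : Set R)) (V.val G)) ∧
    (∀ N c, 0 < N → ∀ G ∈ V.val.range, S.cs N c G ∈ V.val.range) ∧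
    ∀ f : ℕ, ∀ G ∈ V.val.range, (S.fr ^ f) G ∈ V.val.range := by
  refine ⟨W.QS, inferInstance, ⟨W.QS.subtype, Subtype.val_injective,
    S.cst.codRestrict _ Cl.cst_QS, fun _ => rfl, fun l G => ⟨S.del l G, Cl.map_QS
      (AddMonoidHom.mk' (S.del l) (TW.del_add l)) (fun _ _ h => h.del l)
      (fun c F => by simp [TW.del_mul, TW.del_cst]) (fun a F hF => tow.gl_del (.of_mem hF) l) G.2⟩,
    fun _ _ => rfl⟩, ?_⟩
  simp only [Subring.range_subtype]
  refine ⟨fun a F => Cl.mem_QS, fun G => W.sp_eq ▸ G.2, fun N c hN G => Cl.map_QS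
    (AddMonoidHom.mk' (S.cs N c) (TW.cs_add hN c)) (fun _ _ h => h.cs hN c) (fun a F => ?_)
    fun a F hF => .of_mem (tow.cs N c a hN F hF), fun f G => Cl.map_QS (S.fr ^ f : R →+* R)
      (fun _ _ h => h.isg (TW.isg_fr_pow f)) (fun a F => ?_) fun a F hF =>
      .of_mem (tow.fr_pow f hF)⟩
  · exact TW.ext_co (S := S) fun T => by simp [S.co_cs _ _ _ _ hN, S.co_cst]
  · exact (map_mul (S.fr ^ f) _ _).trans (by rw [(TW.isg_fr_pow f).cst]; rfl)

theorem TW.Sup.dv {c : ι → ℤ} {F : R} (h : S.Sup p c F) (hF : S.Zi F) (l : ι) :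
    S.Dv (S.del l F - c l * F) := fun T => by
  rw [map_sub, Pi.sub_apply, S.co_del, TW.co_int, ← sub_mul]
  by_cases h0 : S.co F T = 0
  · exact ⟨0, by simp [h0]⟩
  · obtain ⟨k, hk⟩ := h T h0 l
    obtain ⟨n, hn⟩ := hF T
    exact ⟨k * n, by rw [hn, ← Int.cast_sub, hk]; push_cast; ring⟩

variable {K : Type} [NontriviallyNormedField K] [NormedAlgebra ℂ_[p] K] [CompleteSpace K]
  [IsUltrametricDist K] {ψ : R →+* K} {Q : Type} [CommRing Q]

theorem Ad.rb (tow : W.Tow) (h : Ad W E) (gp : E.Gp ψ) (lin : S.Lin ψ)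
    (nb : ∃ s, ∃ N ∈ W.M (s + 1), ψ N ≠ 0 ∧ S.GL (W.M s) N) (V : SubR S Q)
    (h1 : ∀ a F, S.GL (W.M a) F → F ∈ V.val.range)
    (h2 : ∀ G, S.GL (AddSubgroup.closure (W.gn : Set R)) (V.val G)) {e0 : Q} {e : ι → Q}
    (h0 : V.val e0 = E.e0) (he : ∀ i, V.val (e i) = E.e i) :
    RB p V.cst V.del (fun a => V.val ⁻¹' W.M a) e0 e (ψ.comp V.val) := by
  have hp : (p : ℝ)⁻¹ < 1 := inv_lt_one_of_one_lt₀ (by exact_mod_cast (Fact.out : p.Prime).one_lt)
  have hd : ∀ {F}, S.Dv F → ‖ψ F‖ < 1 := fun hF => (gp.ch _ _ (by positivity) hF.bd).trans_lt hp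
  have hz : ∀ {F}, S.Zi F → ‖ψ F‖ ≤ 1 := fun hF => gp.ch _ _ one_pos.le hF.bd
  have hA : ∀ {T : Set Q} {G : Q}, S.GL (V.val '' T) (V.val G) → Ap (ψ.comp V.val) V.del T G :=
    fun hG ε hε => by
      obtain ⟨_, ⟨A, hA, rfl⟩, h3⟩ := hG ε hε
      refine ⟨A, hA, by simpa using gp.ch _ _ hε.le h3, fun l => ?_⟩
      have h4 := gp.ch _ _ hε.le (h3.del l)
      rw [← TW.dD_apply, map_sub, map_sub] at h4
      simpa [V.val_del, TW.dD_apply] using h4
  have h3 : ∀ a, ∀ F ∈ W.M a, ∃ G, V.val G = F := fun a F hF => h1 a F (.of_mem hF)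
  refine ⟨fun l F G => V.inj (by simp [V.val_del, TW.del_add]),
    fun l F G => V.inj (by simp [V.val_del, TW.del_mul]),
    fun l c => V.inj (by simp [V.val_del, V.val_cst, TW.del_cst]),
    fun c => by simpa [V.val_cst] using lin c,
    fun a F hF => ⟨hz (W.int a _ hF), fun l => by
      simpa [V.val_del] using hz ((W.int a _ hF).del l)⟩,
    by simpa [h0] using h.e0, fun i => by simpa [he] using h.e i,
    by simpa [h0] using (isU_iff (hz E.int0)).1 gp.un.1,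
    fun i => by simpa [he] using (isU_iff (hz (E.int i))).1 (gp.un.2 i),
    fun l => by simpa [V.val_del, h0] using hd (E.sup0.dv E.int0 l),
    fun i l => ?_, fun a F hF => ?_, fun a F hF => ?_, fun G => hA ?_, ?_⟩
  · have h4 := hd ((E.sup i).dv (E.int i) l)
    simpa [V.val_del, he, Pi.single_apply, apply_ite ψ] using h4
  · have h4 := fun m : ι → Fin p => W.div _ _ (W.sub (by
      simpa only [show a + dgm m + (p * (p + 1) - 1) * (a + dgm m) * 1 =
        p * ((p + 1) * (a + dgm m)) by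
          have : 1 ≤ p * (p + 1) := Nat.mul_pos (Fact.out : p.Prime).pos p.succ_pos
          zify [this]
          ring] using W.mul _ _ _ (W.frup _ _ (W.mul _ _ _ hF _ (h.em_mem m))) _
        (W.pow h.e0 ((p * (p + 1) - 1) * (a + dgm m)))) (W.pow (h.car_mem hF m) p))
      (h.car_dv hF m)
    choose G hG eG using h4
    choose G' eG' using fun m => h3 _ _ (hG m)
    choose C' eC using fun m => h3 _ _ (h.car_mem hF m)
    choose H eH using fun m : ι → Fin p =>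
      h3 _ _ (tow.cs p (-rp m) a (Fact.out : p.Prime).pos _ hF)
    refine ⟨H, C', G', fun m => (p + 1) * (a + dgm m), fun m => (p * (p + 1) - 1) * (a + dgm m),
      V.inj (by simpa [eH] using E.split _), fun m => ⟨by simpa [eC] using h.car_mem hF m,
        by simpa [eG'] using hG m, ?_, V.inj ?_⟩⟩
    · have : 1 ≤ p * (p + 1) := Nat.mul_pos (Fact.out : p.Prime).pos p.succ_pos
      change a + dgm m + _ = _
      zify [this]
      ring
    · simp only [map_mul, map_add, map_pow, map_prod, map_natCast, eH, eC, eG', h0, he, ← eG]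
      rw [← E.cs_em, Fr.em]
      ring
  · obtain ⟨τ, _, b, G, s0, nx, h4, h5, h6⟩ := h.sys_norm gp hF
    choose G' eG' using fun s => h3 _ _ (h4 s)
    refine ⟨τ, inferInstance, b, G', s0, nx, fun s => by simpa [eG'] using h4 s, ?_, fun s => ?_⟩
    · simpa [Fr.nz, eG', h0, div_eq_mul_inv] using h5
    · simpa only [Fr.nz, Fr.xc, eG', h0, he, div_eq_mul_inv, RingHom.comp_apply, pow_one, inv_pow,
        Ring.inverse_eq_inv', Finset.prod_inv_distrib] using h6 s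
  · rw [← AddMonoidHom.coe_coe, ← AddSubgroup.coe_map, AddMonoidHom.map_closure]
    refine (congrArg (fun T => S.GL (AddSubgroup.closure T : AddSubgroup R) (V.val G))
      (Set.ext fun x => ⟨?_, ?_⟩)).mp (h2 G)
    · rintro ⟨c, a, F, hF, rfl⟩
      obtain ⟨F', rfl⟩ := h3 a F hF
      exact ⟨_, ⟨c, a, F', hF, rfl⟩, by simp [V.val_cst]⟩
    · rintro ⟨_, ⟨c, a, F, hF, rfl⟩, rfl⟩
      exact ⟨c, a, _, hF, by simp [V.val_cst]⟩
  · obtain ⟨s, N, h4, h5, h6⟩ := nb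
    obtain ⟨N', rfl⟩ := h3 _ _ h4
    exact ⟨s, N', h4, h5, hA (by rwa [Set.image_preimage_eq_of_subset fun F hF => h3 s F hF])⟩

end Pool.Agent.E7
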