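import Pool.Agent.Lib.MP_7e5527_ag.EO.BN
import Pool.Agent.Lib.MP_7e5527_ag.EO.BMain
import Pool.Agent.Lib.MP_7e5527_ag.EO.G2
import Pool.Agent.Lib.MP_7e5527_ag.E7.PBU
import Pool.Agent.Lib.MP_7e5527_ag.E7.PUl
import Pool.Agent.Lib.MP_7e5527_ag.E7.PCst
import Pool.Agent.Lib.MP_7e5527_ag.E7.POrc

/-! Rigidity in the ultralimit. -/

open Filter Topology Polynomial Matrix
open scoped Polynomial.Bivariate

noncomputable section

namespace Pool.Agent.E7

variable {p : ℕ} [Fact p.Prime] {R : Type} [CommRing R] {S : TW p cone R} {K : Type}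
  [NontriviallyNormedField K] [NormedAlgebra ℂ_[p] K] [CompleteSpace K] [IsUltrametricDist K]
  {U : Ultrafilter ℕ}

theorem bu_bdd {ψ : ℕ → R →+* ℂ_[p]} (h : ∀ n, S.Ch (ψ n)) (G : R) : Bdd fun n => ψ n G := by
  obtain ⟨B, h0, hB⟩ := S.bdd G
  exact ⟨B, fun n => h n G B h0 hB⟩

omit [CompleteSpace K] [IsUltrametricDist K] in
theorem ULim.exists_ch (L : ULim p U K) {ψ : ℕ → R →+* ℂ_[p]} (h : ∀ n, S.Ch (ψ n)) :
    ∃ χ : R →+* K, ∀ G, χ G = L.lim fun n => ψ n G :=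
  ⟨⟨⟨⟨fun G => L.lim fun n => ψ n G, by simpa using L.const 1⟩, fun F G => by
    simpa using L.mul _ _ (bu_bdd h F) (bu_bdd h G)⟩, by simpa using L.const 0, fun F G => by
    simpa using L.add _ _ (bu_bdd h F) (bu_bdd h G)⟩, fun _ => rfl⟩

theorem TW.del_fr_pow (l : Ix) (f : ℕ) (F : R) :
    S.del l ((S.fr ^ f) F) = (p ^ f : ℕ) * (S.fr ^ f) (S.del l F) := by
  induction f with
  | zero => simp
  | succ f ih =>
    rw [pow_succ', RingHom.mul_def, RingHom.comp_apply, RingHom.comp_apply, TW.del_fr, ih]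
    simp only [map_mul, map_natCast, pow_succ', Nat.cast_mul, mul_assoc]

omit [CompleteSpace K] [IsUltrametricDist K] in
/-- Slopes that are constant for a derivation force the first Wronskian to vanish. -/
theorem Orc.slope {e0 : R} {Φ : Ix → R} {Ψ : ℕ → R} (h : Orc S e0 Φ Ψ) {Q : Type} [CommRing Q]
    (V : SubR S Q) (h0 : e0 ∈ V.val.range) (h1 : ∀ j, Φ j ∈ V.val.range) {χ : R →+* K}
    (hl : S.Lin χ) (hΦ : ∀ j, χ (Φ j) = 0) {M : IntermediateField ℂ_[p] K}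
    (D : Derivation ℂ_[p] M M) {ε : Q →+* M} {g : Ix → M} {i0 : Ix}
    (he : ∀ G, (ε G : K) = χ (V.val G)) (hg0 : g i0 = 1) (hg : ∀ i, D (g i) = 0)
    (hD : ∀ G, D (ε G) = ∑ l, ε (V.del l G) * g l) : χ (Ψ 1) = 0 := by
  choose Φ' hΦ' using h1
  obtain ⟨Ψ', h2, h3⟩ := h Q V Φ' h0 hΦ'
  obtain ⟨D', hX, hC⟩ := porc_ext D
  have : Nontrivial Ix := ⟨⟨.inl 0, .inl 1, by decide⟩⟩
  obtain ⟨i2, hi2⟩ := exists_ne i0
  have hz : ∀ i, D' (Polynomial.C (g i) * X) = Polynomial.C (g i) := fun i => by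
    rw [D'.leibniz, hX, hC, hg]
    simp
  have key := h3 M[X] D' (Polynomial.C.comp ε) (fun i => Polynomial.C (g i) * X) (fun c => ?_)
    (fun F => ?_) (fun j => ?_) ⟨i0, by simp [hg0, hX]⟩ 1
    (MvPolynomial.X i2 - MvPolynomial.C (Polynomial.C (g i2)) * MvPolynomial.X i0) (fun e => ?_) ?_
    (fun m => ?_) (by simp [hg0])
  · rw [← h2, ← he, Polynomial.C_eq_zero.1 key]
    rfl
  · rw [RingHom.comp_apply, Polynomial.algebraMap_apply]
    exact congrArg _ (Subtype.ext ((he _).trans ((congrArg χ (V.val_cst c)).trans (hl c))))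
  · simp only [RingHom.comp_apply, hC, hD, map_sum, hz, map_mul]
  · rw [RingHom.comp_apply, Polynomial.C_eq_zero]
    exact Subtype.ext ((he _).trans ((congrArg χ (hΦ' j)).trans (hΦ j)))
  · simpa [hi2.symm] using congrArg (MvPolynomial.eval (Pi.single i2 (1 : M[X]))) e
  · refine le_trans (MvPolynomial.totalDegree_sub _ _) (max_le ?_ ?_)
    · rw [MvPolynomial.totalDegree_X]
    · refine le_trans (MvPolynomial.totalDegree_mul _ _) ?_
      rw [MvPolynomial.totalDegree_C, MvPolynomial.totalDegree_X]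
  · rw [MvPolynomial.coeff_sub, MvPolynomial.coeff_C_mul, map_sub, D'.leibniz, hC, hg]
    simp only [MvPolynomial.coeff_X]
    split_ifs <;> simp

theorem ODat.convB (D : ODat S) {σ : ℂ_[p] →+* ℂ_[p]} {f : ℕ} (hf : 0 < f) (hσ : UAP.Iso σ)
    {w : ℕ → Ix → ℂ_[p]ˣ} (hw : ∀ n, Nr (w n))
    (hs : ∀ n, D.W.Sim (σ.comp (D.ψ n)) (S.twc ((D.ψ n).comp (S.fr ^ f)) (w n)))
    (U : Ultrafilter ℕ) {w0 : Ix → ℂ_[p]ˣ} (h0 : Nr w0)
    (lim : Tendsto (fun n => uv (w n)) U (𝓝 (uv w0))) :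
    ∃ y, Tendsto (fun n => D.x n D.i1) U (𝓝 y) := by
  by_contra hc
  obtain ⟨K, _, _, _, _, ⟨L⟩⟩ := exists_ulim (p := p) U
  have hch := fun n => (D.gp n).ch
  have g1 := fun n => (D.gp n).fr f
  have g2 := fun n => (g1 n).twc (hw n)
  obtain ⟨χ, hχ⟩ := L.exists_ch hch
  obtain ⟨θ, hθ⟩ := L.exists_ch fun n => (g2 n).ch
  obtain ⟨Φ, a1, a2⟩ := L.aut (fun _ => σ) fun _ => hσ
  have z0 : L.lim (fun _ => 0) = 0 := (L.const 0).trans (map_zero _)
  have hn : ∀ {ψ : R →+* ℂ_[p]}, D.E.Gp ψ → ‖ψ D.E.e0‖ = 1 ∧ ∀ i, ‖ψ (D.E.e i)‖ = 1 := fun h =>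
    ⟨(isU_iff (h.ch _ _ one_pos.le D.E.int0.bd)).1 h.un.1, fun i =>
      (isU_iff (h.ch _ _ one_pos.le (D.E.int i).bd)).1 (h.un.2 i)⟩
  have hu : ∀ G, (∀ n, ‖D.ψ n G‖ = 1) → IsU (χ G) := fun G h =>
    have h1 := (hχ G).symm ▸ pul_norm_eq L h
    (isU_iff h1.le).2 h1
  have gp : D.E.Gp χ := ⟨fun F B hB hF => hχ F ▸ pul_norm_le L fun n => hch n F B hB hF,
    hu _ fun n => (hn (D.gp n)).1, fun i => hu _ fun n => (hn (D.gp n)).2 i⟩
  have lin : S.Lin χ := fun c => by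
    rw [hχ, ← L.const]
    exact congrArg _ (funext fun n => D.lin n c)
  have hb : ∀ i, Bdd fun n => D.x n i := fun i => ⟨1, fun n => (D.norm_x n i).le⟩
  have hx : ∀ i, χ (D.E.e i) / χ D.E.e0 = L.lim fun n => D.x n i := fun i => by
    obtain ⟨h1, h2⟩ := pul_inv L one_ne_zero fun n => (hn (D.gp n)).1
    simp only [Fr.xc, Fr.nz, pow_one, Ring.inverse_eq_inv']
    rw [L.mul _ _ (bu_bdd hch _) h1, h2, ← hχ, ← hχ, div_eq_mul_inv]
  choose c hc1 using hs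
  have hc2 : Bdd fun n => (c n : ℂ_[p]) := ⟨1, fun n => by
    have h1 := congrArg norm (hc1 n 1 _ D.wE.e0)
    rw [RingHom.comp_apply, hσ, norm_mul, pow_one, (hn (D.gp n)).1, (hn (g2 n)).1, mul_one] at h1
    exact h1.ge⟩
  have key : ∀ a G, S.GL (D.W.M a) G → Φ (χ G) = (L.lim fun n => c n) ^ a * θ G := fun a G hG => by
    rw [hχ, hθ, a2 _ (bu_bdd hch G), ← L.pow hc2,
      ← L.mul _ _ (pul_bdd_pow hc2 a) (bu_bdd (fun n => (g2 n).ch) G)]
    exact congrArg _ (funext fun n =>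
      hG.eq ((hch n).map σ fun z => (hσ z).le) (g2 n).ch (hc1 n a))
  obtain ⟨Q, _, V, h1, h2, h3, h4⟩ := D.tow.exists_sub
  obtain ⟨e0, he0⟩ := h1 _ _ (.of_mem D.wE.e0)
  choose e he using fun i => h1 _ _ (.of_mem (D.wE.e i))
  have hp : ∀ j, 0 < p ^ j := pow_pos (Fact.out : p.Prime).pos
  choose Θ hΘ using fun (j : ℕ) (G : Q) => (show ∑ a : Ix → Fin (p ^ j), S.cst (umon w0 (rp a)) *
    (S.fr ^ f) (S.cs (p ^ j) (rp a) (V.val G)) ∈ V.val.range from sum_mem fun a _ =>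
      mul_mem ⟨_, V.val_cst _⟩ (h4 f _ (h3 _ _ (hp j) _ ⟨G, rfl⟩)))
  obtain ⟨ρ, r0, r1, r2⟩ := h0.theta p
  have r3 : 0 ≤ ρ := (plg_lt p).1.le.trans r0
  obtain ⟨M, δ, ε, g, i0, h5, h6, h7, h8⟩ := rigidO (σ := Φ) (q := p ^ f)
    (θ := fun G => θ (V.val G)) (c := L.lim fun n => c n)
    (D.wE.rb D.tow gp lin (D.aE.nb' D.tow D.wE D.sub gp) V h1 h2 he0 he)
    ⟨a1, map_cst_mem Φ a1 fun a => by
        rw [← L.const, a2 _ (pul_bdd_const _)]
        simp only [iso_qp hσ], hp f, by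
        rw [Nat.cast_pow, norm_pow, UAP.norm_p_eq]
        exact pow_lt_one₀ (plg_lt p).1.le (plg_lt p).2 hf.ne',
      ⟨Θ, fun j l G => V.inj (by
        rw [V.val_del, map_mul, hΘ, hΘ, ← TW.dD_apply, map_sum, map_natCast, Finset.mul_sum]
        exact Finset.sum_congr rfl fun a _ => by
          rw [TW.dD_apply, TW.del_mul, TW.del_cst, TW.del_fr_pow, TW.del_cs (hp j), V.val_del]
          ring), fun G => by
        obtain ⟨B, hB, hG⟩ := S.bdd (V.val G)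
        rw [tendsto_iff_norm_sub_tendsto_zero]
        refine squeeze_zero (fun _ => norm_nonneg _) (fun j => ?_)
          (by simpa using (((tendsto_pow_atTop_nhds_zero_of_lt_one r3 r1).comp
            (tendsto_add_atTop_nat 1)).mul_const B))
        have b1 := bu_bdd hch (V.val (Θ j G))
        have b2 := bu_bdd (fun n => (g2 n).ch) (V.val G)
        rw [RingHom.comp_apply, hχ, hθ, ← pul_sub L b1 b2]
        refine le_of_tendsto_of_tendsto' (L.norm _ (pul_bdd_sub b1 b2))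
          (by simpa using (((tendsto_iff_norm_sub_tendsto_zero.1 lim).mul_const B).const_add
            (ρ ^ (j + 1) * B))) fun n => ?_
        have h9 := TW.tw_approx (g1 n).ch (UC.umon h0) hB hG (pow_nonneg r3 (j + 1))
          fun T T' => norm_umon_cg r0 r1 r2 (j := j)
        rw [← TW.twc_apply (g1 n).ch h0, norm_sub_rev] at h9
        rw [show D.ψ n (V.val (Θ j G)) = S.rs ((D.ψ n).comp (S.fr ^ f)) (umon w0) (V.val G) j by
          simp only [hΘ, TW.rs, map_sum, map_mul, D.lin n _, RingHom.comp_apply]; rfl]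
        exact (norm_sub_le_norm_sub_add_norm_sub _ _ _).trans (add_le_add h9
          ((TW.twc_sub (g1 n).ch h0 (hw n) hB hG).trans_eq (by rw [norm_sub_rev])))⟩,
      fun a F hF => key a _ (.of_mem hF), fun l => by
        simpa [V.val_del, he0] using key 1 _ (D.tow.gl_del (.of_mem D.wE.e0) l), fun i l => by
        simpa [V.val_del, he] using key 1 _ (D.tow.gl_del (.of_mem (D.wE.e i)) l)⟩ D.i1
    (fun a h => hc ⟨a, (L.eq_iff (hb _) a).1 (by simpa [he0, he, hx] using h)⟩)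
    fun j => (D.rel j).imp fun P h => ⟨h.1, by
      simp only [RingHom.comp_apply, he0, he, hx, L.evalEval (hb _) (hb _), h.2, z0]⟩
  refine hc (D.conv U 1 ((L.eq_iff (bu_bdd hch _) 0).1 ?_))
  rw [← hχ, map_zero]
  refine D.pk.orc.slope V ⟨e0, he0⟩ (fun j => MvPolynomial.eval₂_mem
    (fun _ _ => RingHom.mem_range.2 ⟨_, V.val_cst _⟩) fun i => ?_) lin (fun j => ?_) δ h5 h6 h7 h8
  · fin_cases i
    exacts [⟨_, he0⟩, ⟨_, he _⟩, ⟨_, he _⟩]
  · rw [hχ, ← z0]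
    refine congrArg _ (funext fun n => ?_)
    rw [D.Φ_eq (D.lin n) (D.gp n).unit, MvPolynomial.aeval_eq_eval, D.pk.van, mul_zero]

end Pool.Agent.E7
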