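import Pool.Agent.Lib.MP_7e5527_ag.EO.BH

/-! Extension of a bounded derivation to unramified extensions. -/

open Filter Topology Polynomial TrivSqZeroExt

noncomputable section

namespace Pool.Agent.E7

variable {K : Type*} [NontriviallyNormedField K] [IsUltrametricDist K] {B : ℝ}

/-- Subrings of the dual numbers that are graphs of bounded derivations. -/
def BdG (B : ℝ) (G : Subring (DualNumber K)) : Prop := ∀ g ∈ G, ‖g.snd‖ ≤ B * ‖g.fst‖

omit [IsUltrametricDist K] in
theorem bz_snd_mul (a b : DualNumber K) : (a * b).snd = a.fst * b.snd + b.fst * a.snd := by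
  simp [mul_comm]

/-- Balls for the weighted norm. -/
def bzW (B r : ℝ) (g : DualNumber K) : Prop := ‖g.fst‖ ≤ r ∧ ‖g.snd‖ ≤ B * r

theorem bzW.add {r : ℝ} {a b : DualNumber K} (ha : bzW B r a) (hb : bzW B r b) : bzW B r (a + b) :=
  ⟨(IsUltrametricDist.norm_add_le_max _ _).trans (max_le ha.1 hb.1),
    (IsUltrametricDist.norm_add_le_max _ _).trans (max_le ha.2 hb.2)⟩

theorem bzW.mul {r : ℝ} {a b : DualNumber K} (ha : bzW B r a) (hb : bzW B 1 b) :
    bzW B r (a * b) := by
  have hr := (norm_nonneg _).trans ha.1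
  refine ⟨?_, ?_⟩
  · rw [fst_mul, norm_mul]
    exact (mul_le_of_le_one_right (norm_nonneg _) hb.1).trans ha.1
  · rw [bz_snd_mul]
    refine (IsUltrametricDist.norm_add_le_max _ _).trans (max_le ?_ ?_)
    · rw [norm_mul, mul_comm B]
      exact mul_le_mul ha.1 (hb.2.trans_eq (mul_one B)) (norm_nonneg _) hr
    · rw [norm_mul]
      exact (mul_le_of_le_one_left (norm_nonneg _) hb.1).trans ha.2

theorem bzW.pow (hB : 0 ≤ B) {a : DualNumber K} (ha : bzW B 1 a) (n : ℕ) : bzW B 1 (a ^ n) := by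
  induction n with
  | zero => exact ⟨by simp, by simpa using hB⟩
  | succ n ih => exact pow_succ a n ▸ ih.mul ha

theorem bzW.sum (hB : 0 ≤ B) {r : ℝ} (hr : 0 ≤ r) {α : Type*} (s : Finset α) {f : α → DualNumber K}
    (h : ∀ i ∈ s, bzW B r (f i)) : bzW B r (∑ i ∈ s, f i) :=
  Finset.sum_induction f (bzW B r) (fun _ _ => bzW.add) ⟨by simpa using hr, by
    simpa using mul_nonneg hB hr⟩ h

omit [IsUltrametricDist K] in
theorem bz_zorn {G0 : Subring (DualNumber K)} (h : BdG B G0) : ∃ G, G0 ≤ G ∧ Maximal (BdG B) G :=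
  zorn_le_nonempty₀ {G | BdG B G} (fun c hc hch y hy => ⟨sSup c, fun g hg => by
    obtain ⟨s, hs, hg⟩ := (Subring.mem_sSup_of_directedOn ⟨y, hy⟩ hch.directedOn).1 hg
    exact hc hs g hg, fun _ hz => le_sSup hz⟩) G0 h

variable {G : Subring (DualNumber K)}

theorem bz_inv (h : Maximal (BdG B) G) {g : DualNumber K} (hg : g ∈ G) (h0 : g.fst ≠ 0) :
    g⁻¹ ∈ G := by
  let G' : Subring (DualNumber K) :=
    { carrier := {t | ∃ n : ℕ, t * g ^ n ∈ G}
      mul_mem' := by
        rintro a b ⟨n, ha⟩ ⟨m, hb⟩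
        exact ⟨n + m, by simpa only [pow_add, mul_mul_mul_comm] using mul_mem ha hb⟩
      one_mem' := ⟨0, by simp⟩
      add_mem' := by
        rintro a b ⟨n, ha⟩ ⟨m, hb⟩
        refine ⟨n + m, ?_⟩
        rw [show (a + b) * g ^ (n + m) = a * g ^ n * g ^ m + b * g ^ m * g ^ n by ring]
        exact add_mem (mul_mem ha (pow_mem hg m)) (mul_mem hb (pow_mem hg n))
      zero_mem' := ⟨0, by simp⟩
      neg_mem' := by
        rintro a ⟨n, ha⟩
        exact ⟨n, by simpa using ha⟩ }
  refine h.le_of_ge (y := G') ?_ (fun t ht => ⟨0, by simpa using ht⟩)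
    ⟨1, by rw [pow_one, TrivSqZeroExt.inv_mul_cancel h0]; exact one_mem G⟩
  rintro t ⟨n, ht⟩
  have h1 := h.prop _ ht
  have h2 := h.prop _ (pow_mem hg n)
  have h3 : 0 < ‖(g ^ n).fst‖ := by
    rw [fst_pow]
    exact norm_pos_iff.2 (pow_ne_zero n h0)
  refine le_of_mul_le_mul_left ?_ h3
  rw [← norm_mul, show (g ^ n).fst * t.snd = (t * g ^ n).snd - t.fst * (g ^ n).snd by
    rw [bz_snd_mul]; ring]
  rw [fst_mul, norm_mul] at h1
  refine (bh_sub _ _).trans (max_le (h1.trans_eq (by ring)) ?_)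
  rw [norm_mul]
  exact (mul_le_mul_of_nonneg_left h2 (norm_nonneg _)).trans_eq (by ring)

theorem bz_closed [CompleteSpace K] (hB : 0 ≤ B) (h : Maximal (BdG B) G) :
    IsClosed (Set.range fun g : G => (g : DualNumber K).fst) := by
  have h1 : IsClosed (G : Set (DualNumber K)) := by
    refine isClosed_of_closure_subset (h.le_of_ge (y := G.topologicalClosure) ?_
      G.le_topologicalClosure)
    exact fun g hg => closure_minimal (t := {g : DualNumber K | ‖g.snd‖ ≤ B * ‖g.fst‖}) h.prop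
      (isClosed_le TrivSqZeroExt.continuous_snd.norm
        (continuous_const.mul TrivSqZeroExt.continuous_fst.norm)) hg
  have := h1.completeSpace_coe
  refine AntilipschitzWith.isClosed_range (K := ⟨1 + B, by positivity⟩)
    (AntilipschitzWith.of_le_mul_dist fun a b => ?_)
    (TrivSqZeroExt.uniformContinuous_fst.comp uniformContinuous_subtype_val)
  have h2 := h.prop _ (sub_mem a.2 b.2)
  rw [Subtype.dist_eq, dist_eq_norm, dist_eq_norm, norm_def, ← fst_sub]
  change _ ≤ (1 + B) * _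
  linarith

theorem bz_adjoin (hB : 0 ≤ B) (h : Maximal (BdG B) G) (P : G[X]) (hP : P.Monic)
    (h1 : ∀ i, ‖(P.coeff i : DualNumber K).fst‖ ≤ 1) {y : K} (hy : ‖y‖ ≤ 1)
    (h0 : P.eval₂ ((fstHom K K K).toRingHom.comp G.subtype) y = 0)
    (hd : ‖P.derivative.eval₂ ((fstHom K K K).toRingHom.comp G.subtype) y‖ = 1)
    (ho : ∀ R : G[X], R.degree < P.degree → ∀ i, ‖(R.coeff i : DualNumber K).fst‖ ≤
      ‖R.eval₂ ((fstHom K K K).toRingHom.comp G.subtype) y‖) : ∃ g ∈ G, g.fst = y := by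
  have hf : ∀ (R : G[X]) (t : DualNumber K), (R.eval₂ G.subtype t).fst =
      R.eval₂ ((fstHom K K K).toRingHom.comp G.subtype) t.fst := fun R t =>
    hom_eval₂ R G.subtype (fstHom K K K).toRingHom t
  have hW : ∀ (R : G[X]) (t : DualNumber K) (r : ℝ), 0 ≤ r → bzW B 1 t →
      (∀ i, ‖(R.coeff i : DualNumber K).fst‖ ≤ r) → bzW B r (R.eval₂ G.subtype t) := by
    intro R t r hr ht hR
    rw [eval₂_eq_sum_range]
    exact bzW.sum hB hr _ fun i _ => bzW.mul ⟨hR i, (h.prop _ (R.coeff i).2).trans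
      (mul_le_mul_of_nonneg_left (hR i) hB)⟩ (ht.pow hB i)
  set d := P.derivative.eval₂ ((fstHom K K K).toRingHom.comp G.subtype) y with hd'
  have hd0 : d ≠ 0 := fun e => by simp [e] at hd
  let y' : K := -(P.eval₂ G.subtype (inl y)).snd / d
  let t : DualNumber K := inl y + inr y'
  have ht1 : t.fst = y := by simp [t]
  have ht : bzW B 1 t := ⟨ht1 ▸ hy, by
    rw [show t.snd = y' by simp [t], norm_div, norm_neg, hd, div_one]
    exact (hW P (inl y) 1 zero_le_one ⟨hy, by simpa using hB⟩ h1).2⟩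
  have hz : P.eval₂ G.subtype t = 0 := by
    refine TrivSqZeroExt.ext (by rw [hf, ht1, h0, fst_zero]) ?_
    rw [← eval_map, eval_add_of_sq_eq_zero _ _ _ (by rw [sq, inr_mul_inr]), derivative_map,
      eval_map, eval_map, snd_add, bz_snd_mul, hf, fst_inl, ← hd', snd_inr, fst_inr, zero_mul,
      add_zero, mul_div_cancel₀ _ hd0, add_neg_cancel, snd_zero]
  refine ⟨t, h.le_of_ge (y := (eval₂RingHom G.subtype t).range) ?_
    (fun g hg => ⟨C ⟨g, hg⟩, eval₂_C _ _⟩) ⟨X, eval₂_X _ _⟩, ht1⟩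
  rintro _ ⟨R, rfl⟩
  have e : eval₂RingHom G.subtype t R = (R %ₘ P).eval₂ G.subtype t := by
    conv_lhs => rw [← modByMonic_add_div R P]
    rw [coe_eval₂RingHom, eval₂_add, eval₂_mul, hz, zero_mul, add_zero]
  rw [e, hf, ht1]
  exact (hW _ t _ (norm_nonneg _) ht (ho _ (degree_modByMonic_lt R hP))).2

/-- The field on which a maximal graph lives. -/
def bzF (h : Maximal (BdG B) G) : Subfield K where
  toSubring := G.map (fstHom K K K).toRingHom
  inv_mem' := by
    rintro _ ⟨g, hg, rfl⟩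
    by_cases h0 : g.fst = 0
    · exact ⟨0, zero_mem G, by simp [h0]⟩
    · exact ⟨g⁻¹, bz_inv h hg h0, fst_inv g⟩

theorem bz_sep [CompleteSpace K] (hB : 0 ≤ B) (h : Maximal (BdG B) G) : SepCl (bzF h) := by
  intro t ht
  obtain ⟨z, rfl⟩ := IsLocalRing.residue_surjective t
  let f : G →+* K := (fstHom K K K).toRingHom.comp G.subtype
  let OG : Subring G := (OK K).toSubring.comap f
  let φ : OG →+* OK K := (f.comp OG.subtype).codRestrict (OK K) fun a => a.2
  let ρ : OG →+* resF (bzF h) := (rs.comp φ).codRestrict _ fun a => ⟨φ a, ⟨a.1, a.1.2, rfl⟩, rfl⟩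
  have hρ : Function.Surjective ρ := by
    rintro ⟨_, a, ⟨g, hg, e⟩, rfl⟩
    exact ⟨⟨⟨g, hg⟩, show f ⟨g, hg⟩ ∈ OK K from (show f ⟨g, hg⟩ = a from e) ▸ a.2⟩,
      Subtype.ext (congrArg rs (Subtype.ext e))⟩
  have hi := ht.isIntegral
  obtain ⟨P, hP, -, hm⟩ := lifts_and_natDegree_eq_and_monic
    ((lifts_iff_coeff_lifts _).2 fun n => hρ ((minpoly (resF (bzF h)) (rs z)).coeff n))
    (minpoly.monic hi)
  have hev : ∀ (R : OG[X]) (w : OK K), rs ((R.map φ).eval w) = aeval (rs w) (R.map ρ) :=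
    fun R w => by
    rw [eval_map, hom_eval₂, aeval_def, eval₂_map]
    rfl
  have hev' : ∀ (R : OG[X]) (w : OK K), (R.map OG.subtype).eval₂ f (w : K) =
      (((R.map φ).eval w : OK K) : K) := fun R w => by
    rw [eval_map, eval₂_map]
    exact (hom_eval₂ R φ (OK K).subtype w).symm
  obtain ⟨y, hy, hyz⟩ := hensel (P.map φ) z (by rw [hev, hP, minpoly.aeval]) (by
    rw [derivative_map, hev, ← derivative_map, hP]
    exact ht.aeval_derivative_ne_zero (minpoly.aeval _ _))
  obtain ⟨g, hg, e⟩ := bz_adjoin hB h (P.map OG.subtype) (hm.map _)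
    (fun i => by rw [coeff_map]; exact mem_OK.1 (P.coeff i).2) (OK.le y) (by rw [hev', hy]; rfl) (by
      rw [derivative_map, hev', ← rs_ne_zero, hev, ← derivative_map, hP, hyz]
      exact ht.aeval_derivative_ne_zero (minpoly.aeval _ _)) fun R hR i => by
    obtain ⟨j, -, hj⟩ := (insert i R.support).exists_max_image (fun j => ‖f (R.coeff j)‖)
      ⟨i, Finset.mem_insert_self _ _⟩
    refine (hj i (Finset.mem_insert_self _ _)).trans ?_
    by_cases h0 : f (R.coeff j) = 0
    · rw [h0, norm_zero]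
      exact norm_nonneg _
    let u : G := ⟨_, bz_inv h (R.coeff j).2 h0⟩
    have hu : f u = (f (R.coeff j))⁻¹ := fst_inv _
    have hpos := norm_pos_iff.2 h0
    obtain ⟨R', hR', hdeg⟩ := exists_degree_eq_of_mem_lifts (f := OG.subtype) (p := C u * R)
      ((lifts_iff_coeff_lifts _).2 fun n => ⟨⟨_, show f ((C u * R).coeff n) ∈ OK K by
        rw [coeff_C_mul, map_mul, hu, mem_OK, norm_mul, norm_inv, inv_mul_le_one₀ hpos]
        by_cases hn : n ∈ R.support
        · exact hj n (Finset.mem_insert_of_mem hn)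
        · rw [notMem_support_iff.1 hn, map_zero, norm_zero]
          exact hpos.le⟩, rfl⟩)
    have h2 : R'.map ρ ≠ 0 := fun e => by
      have e1 : rs (φ (R'.coeff j)) = 0 := by
        have e0 := congrArg (fun R : (resF (bzF h))[X] => (R.coeff j : RK K)) e
        rw [coeff_map] at e0
        exact e0
      have e2 : ((φ (R'.coeff j) : OK K) : K) = f ((R'.map OG.subtype).coeff j) := by
        rw [coeff_map]; rfl
      rw [rs_eq_zero, e2, hR', coeff_C_mul, map_mul, hu, inv_mul_cancel₀ h0, norm_one] at e1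
      exact lt_irrefl _ e1
    have h3 : rs ((R'.map φ).eval y) ≠ 0 := fun e => by
      rw [hev, hyz] at e
      refine absurd (minpoly.degree_le_of_ne_zero _ _ h2 e) (not_le.2 (degree_map_le.trans_lt ?_))
      rw [hdeg, ← hP, hm.degree_map, ← hm.degree_map OG.subtype, ← smul_eq_C_mul]
      exact (degree_smul_le _ _).trans_lt hR
    rw [rs_ne_zero, ← hev', hR', eval₂_mul, eval₂_C, hu, norm_mul, norm_inv,
      inv_mul_eq_one₀ hpos.ne'] at h3
    exact h3.le
  exact ⟨y, ⟨g, hg, e⟩, hyz⟩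

theorem exists_der_top {k : Type*} [NontriviallyNormedField k] [NormedAlgebra k K] [CompleteSpace K]
    (M0 : IntermediateField k K) (D0 : Derivation k M0 M0) (hc : Continuous D0)
    (H : ∀ M : IntermediateField k K, IsClosed (M : Set K) → M0 ≤ M → SepCl M.toSubfield → M = ⊤) :
    ∃ D : Derivation k K K, Continuous D ∧ ∀ y : M0, D y = D0 y := by
  obtain ⟨B, hB, hb⟩ := (⟨D0.toLinearMap, hc⟩ : M0 →L[k] M0).bound
  let γ : M0 →+* DualNumber K :=
    { toFun := fun y => inl (y : K) + inr ((D0 y : M0) : K)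
      map_one' := by simp
      map_mul' := fun a b => TrivSqZeroExt.ext (by simp) (by rw [bz_snd_mul]; simp)
      map_zero' := by simp
      map_add' := fun a b => TrivSqZeroExt.ext (by simp) (by simp) }
  have γ1 : ∀ y, (γ y).fst = y := fun y => by simp [γ]
  have γ2 : ∀ y, (γ y).snd = D0 y := fun y => by simp [γ]
  obtain ⟨G, hG, h⟩ := bz_zorn (B := B) (G0 := γ.range) (by
    rintro _ ⟨y, rfl⟩
    rw [γ1, γ2]
    exact hb y)
  have hM : ∀ y : M0, (y : K) ∈ bzF h := fun y => ⟨γ y, hG ⟨y, rfl⟩, γ1 y⟩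
  have hcl : IsClosed (bzF h : Set K) := by
    rw [show (bzF h : Set K) = Set.range fun g : G => (g : DualNumber K).fst from
      Set.ext fun x => ⟨fun ⟨g, hg, e⟩ => ⟨⟨g, hg⟩, e⟩, fun ⟨g, e⟩ => ⟨g, g.2, e⟩⟩]
    exact bz_closed hB.le h
  have ht := H ((bzF h).toIntermediateField fun a => hM (algebraMap k M0 a)) hcl
    (fun y hy => hM ⟨y, hy⟩) (bz_sep hB.le h)
  have hs : ∀ x : K, ∃ g ∈ G, g.fst = x := fun x =>
    (ht.symm ▸ IntermediateField.mem_top : x ∈ (bzF h).toIntermediateField _)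
  choose s s1 s2 using hs
  have hu : ∀ g ∈ G, (s g.fst).snd = g.snd := fun g hg => by
    have h1 := h.prop _ (sub_mem (s1 g.fst) hg)
    rwa [fst_sub, s2, sub_self, norm_zero, mul_zero, norm_le_zero_iff, snd_sub, sub_eq_zero] at h1
  have hL : ∀ a b, (s (a * b)).snd = a • (s b).snd + b • (s a).snd := fun a b => by
    have h1 := hu _ (mul_mem (s1 a) (s1 b))
    rwa [fst_mul, bz_snd_mul, s2, s2] at h1
  have h0 : ∀ y : M0, (s y).snd = D0 y := fun y => by rw [← γ2, ← hu _ (hG ⟨y, rfl⟩), γ1]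
  let L : K →ₗ[k] K :=
    { toFun := fun x => (s x).snd
      map_add' := fun a b => by
        have h1 := hu _ (add_mem (s1 a) (s1 b))
        rwa [fst_add, snd_add, s2, s2] at h1
      map_smul' := fun c z => by
        have h1 := h0 (algebraMap k M0 c)
        rw [Derivation.map_algebraMap] at h1
        rw [Algebra.smul_def, hL, show (s (algebraMap k K c)).snd = 0 from h1, smul_zero, add_zero,
          RingHom.id_apply, smul_eq_mul, Algebra.smul_def] }
  refine ⟨Derivation.mk' L hL, AddMonoidHomClass.continuous_of_bound L B fun x => ?_, h0⟩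
  exact (h.prop _ (s1 x)).trans_eq (by rw [s2])

end Pool.Agent.E7
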