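import Pool.Agent.Lib.MP_7e5527_ag.EO.TCh

/-! The coordinates of the twists: an isometric bijection onto the residue polydisc. -/

open Filter Topology Polynomial Matrix

noncomputable section

namespace Pool.Agent.E7

variable {ι : Type} [Fintype ι] [DecidableEq ι] {p : ℕ} [Fact p.Prime] {C : Cone ι} {R : Type}
  [CommRing R] {S : TW p C R}

variable {A : Type} [NormedCommRing A] [NormOneClass A] [NormedAlgebra ℂ_[p] A] [CompleteSpace A]
  [IsUltrametricDist A] {ψ : R →+* A} {u v : ι → Aˣ} {E : Fr S}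

theorem tx_inv_map {B B' : Type} [CommRing B] [CommRing B'] {a : B} (h : IsUnit a)
    (ρ : B →+* B') : Ring.inverse (ρ a) = ρ (Ring.inverse a) := by
  obtain ⟨w, rfl⟩ := h
  rw [Ring.inverse_unit]
  exact Ring.inverse_unit (Units.map (ρ : B →* B') w)

theorem tx_umon_smul {B : Type} [CommRing B] (u : ι → Bˣ) (T : ι → ℤ) (n : ℕ) :
    umon u ((n : ℤ) • T) = umon u T ^ n := by
  induction n with
  | zero => simp [umon_zero]
  | succ n ih => rw [Nat.cast_succ, add_smul, one_smul, umon_add, ih, pow_succ]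

theorem tx_pow {a b : A} {θ : ℝ} (h1 : θ < 1) (ha : ‖a - 1‖ ≤ θ) (hb : ‖b - 1‖ ≤ θ) (n : ℕ) :
    ‖b ^ n - 1‖ ≤ θ ∧ ‖a ^ n - b ^ n - n * (a - b)‖ ≤ θ * ‖a - b‖ := by
  have h0 : 0 ≤ θ := (norm_nonneg _).trans ha
  induction n with
  | zero => simpa using ⟨h0, mul_nonneg h0 (norm_nonneg _)⟩
  | succ n ih =>
    refine ⟨?_, ?_⟩
    · rw [pow_succ]
      exact (pinv_mul_le _ (ih.1.trans_lt h1)).trans (max_le ih.1 hb)
    · rw [show a ^ (n + 1) - b ^ (n + 1) - (n + 1 : ℕ) * (a - b) =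
        a * (a ^ n - b ^ n - n * (a - b)) + (n * ((a - 1) * (a - b)) + (b ^ n - 1) * (a - b)) by
          push_cast; ring]
      refine pinv_add (pinv_mul (pinv_le (ha.trans_lt h1)) ih.2) (pinv_add
        (pinv_mul (IsUltrametricDist.norm_natCast_le_one A n) ?_) ?_)
      · exact (norm_mul_le _ _).trans (mul_le_mul_of_nonneg_right ha (norm_nonneg _))
      · exact (norm_mul_le _ _).trans (mul_le_mul_of_nonneg_right ih.1 (norm_nonneg _))

theorem tx_con {θ : ℝ} (h0 : (p : ℝ)⁻¹ ≤ θ) (h1 : θ < 1) (hu : ∀ i, ‖(u i : A) - 1‖ ≤ θ)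
    (hv : ∀ i, ‖(v i : A) - 1‖ ≤ θ) (T : ι → ℤ) :
    ‖umon u ((p : ℤ) • T) - umon v ((p : ℤ) • T)‖ ≤ θ * ‖uv u - uv v‖ := by
  have h2 : 0 ≤ θ := (plg_lt p).1.le.trans h0
  have h3 : ‖(p : A)‖ ≤ θ := by
    rw [← map_natCast (algebraMap ℂ_[p] A), norm_algebraMap', UAP.norm_p_eq]
    exact h0
  have ha := (pinv_umon h2 (fun i => ⟨(hu i).trans_lt h1, hu i⟩) T).2
  have hb := (pinv_umon h2 (fun i => ⟨(hv i).trans_lt h1, hv i⟩) T).2
  have hd := norm_umon_sub (fun i => (hu i).trans_lt h1) (fun i => (hv i).trans_lt h1)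
    (norm_nonneg (uv u - uv v)) (norm_le_pi_norm (uv u - uv v)) T
  rw [tx_umon_smul, tx_umon_smul, ← sub_add_cancel (_ - _) (p * (umon u T - umon v T))]
  exact pinv_add ((tx_pow h1 ha hb p).2.trans (mul_le_mul_of_nonneg_left hd h2))
    ((norm_mul_le _ _).trans (mul_le_mul h3 hd (norm_nonneg _) h2))

theorem tx_key (hψ : S.Ch ψ) {θ : ℝ} (h0 : (p : ℝ)⁻¹ ≤ θ) (h1 : θ < 1)
    (hu : ∀ i, ‖(u i : A) - 1‖ ≤ θ) (hv : ∀ i, ‖(v i : A) - 1‖ ≤ θ) {c : ι → ℤ} {G : R}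
    (hG : S.Zi G) (hc : S.Sup p c G) :
    ‖umon v c * S.twc ψ u G - umon u c * S.twc ψ v G‖ ≤ θ * ‖uv u - uv v‖ := by
  have h2 : 0 ≤ θ := (plg_lt p).1.le.trans h0
  have hu' : Nr u := fun i => (hu i).trans_lt h1
  have hv' : Nr v := fun i => (hv i).trans_lt h1
  have c1 : UC p fun T => umon v c * umon u T := (UC.const _).mul (UC.umon hu')
  have c2 : UC p fun T => umon u c * umon v T := (UC.const _).mul (UC.umon hv')
  rw [TW.twc_apply hψ hu', TW.twc_apply hψ hv', ← TW.tw_smul hψ (UC.umon hu'),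
    ← TW.tw_smul hψ (UC.umon hv'), ← TW.tw_sub hψ c1 c2, ← mul_one (θ * _)]
  refine TW.tw_le_sup hψ (c1.sub c2) zero_le_one hG.bd (mul_nonneg h2 (norm_nonneg _))
    (i := 1) (c := c) (by rwa [pow_one]) fun T hT => ?_
  rw [pow_one] at hT
  obtain ⟨T', e⟩ := cg_zero_iff.1 (sub_self c ▸ hT.sub (Cg.refl p c))
  rw [← add_sub_cancel c T, e, umon_add, umon_add,
    show ∀ a b x y : A, b * (a * x) - a * (b * y) = a * (b * (x - y)) from fun _ _ _ _ => by ring]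
  exact pinv_mul (norm_umon_le hu' c) (pinv_mul (norm_umon_le hv' c) (tx_con h0 h1 hu hv T'))

theorem tx_ipow {a b : A} (ha : ‖a‖ ≤ 1) (hb : ‖b‖ ≤ 1) (n : ℕ) : ‖a ^ n - b ^ n‖ ≤ ‖a - b‖ := by
  induction n with
  | zero => simp
  | succ n ih =>
    rw [show a ^ (n + 1) - b ^ (n + 1) = a * (a ^ n - b ^ n) + b ^ n * (a - b) by ring]
    exact pinv_add (pinv_mul ha ih)
      (pinv_mul ((norm_pow_le _ _).trans (pow_le_one₀ (norm_nonneg _) hb)) le_rfl)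

namespace Fr

theorem nz_map {B B' : Type} [CommRing B] [CommRing B'] {ψ : R →+* B} (h : IsUnit (ψ E.e0))
    (ρ : B →+* B') (a : ℕ) (F : R) : E.nz (ρ.comp ψ) a F = ρ (E.nz ψ a F) := by
  simp only [nz, RingHom.comp_apply, map_mul, map_pow, tx_inv_map h]

theorem xc_map {B B' : Type} [CommRing B] [CommRing B'] {ψ : R →+* B} (h : IsUnit (ψ E.e0))
    (ρ : B →+* B') : E.xc (ρ.comp ψ) = fun i => ρ (E.xc ψ i) :=
  funext fun _ => nz_map h ρ 1 _

theorem Jm_map {B B' : Type} [CommRing B] [CommRing B'] {ψ : R →+* B} (h : IsUnit (ψ E.e0))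
    (ρ : B →+* B') : E.Jm (ρ.comp ψ) = (E.Jm ψ).map ρ :=
  Matrix.ext fun _ _ => nz_map h ρ 2 _

theorem nz_mul {B : Type} [CommRing B] (ψ : R →+* B) (a b : ℕ) (F G : R) :
    E.nz ψ (a + b) (F * G) = E.nz ψ a F * E.nz ψ b G := by
  simp only [nz, map_mul, pow_add]
  ring

theorem nz_e0 {B : Type} [CommRing B] {ψ : R →+* B} (h : IsUnit (ψ E.e0)) (a n : ℕ) (F : R) :
    E.nz ψ (a + n) (F * E.e0 ^ n) = E.nz ψ a F := by
  rw [nz_mul, nz, nz, map_pow, ← mul_pow, Ring.mul_inverse_cancel _ h, one_pow, mul_one]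

/-- A homogeneous polynomial in the frame. -/
theorem ev_hom {B k σ : Type} [CommRing B] [CommRing k] {ψ : R →+* B} (h : IsUnit (ψ E.e0))
    (k0 : k →+* R) (F : σ → R) {P : MvPolynomial σ k} {d : ℕ} (hP : P.IsHomogeneous d) :
    E.nz ψ d (MvPolynomial.eval₂ k0 F P) =
      MvPolynomial.eval₂ (ψ.comp k0) (fun r => E.nz ψ 1 (F r)) P := by
  rw [MvPolynomial.eval₂_eq, MvPolynomial.eval₂_eq, nz, map_sum, Finset.sum_mul]
  refine Finset.sum_congr rfl fun m hm => ?_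
  simp only [nz, pow_one, mul_pow, map_mul, map_prod, map_pow, RingHom.comp_apply,
    Finset.prod_mul_distrib, Finset.prod_pow_eq_pow_sum, mul_assoc]
  rw [← hP.degree_eq_sum_deg_support hm]

/-- The normalised form of a relation. -/
theorem Rl.nz {B k : Type} [CommRing B] [CommRing k] {ψ : R →+* B} (h : IsUnit (ψ E.e0))
    {k0 : k →+* R} {a : ℕ} {F : R} {P : (MvPolynomial (Option ι) k)[X]} (hP : E.Rl k0 a F P) :
    P.eval₂ (MvPolynomial.eval₂Hom (ψ.comp k0) fun o => o.elim 1 (E.xc ψ)) (E.nz ψ a F) = 0 := by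
  obtain ⟨-, ⟨L, hL⟩, h0⟩ := hP
  have e : (fun o => E.nz ψ 1 (E.oe o)) = fun o : Option ι => o.elim 1 (E.xc ψ) := by
    funext o
    cases o with
    | none => exact (congrArg _ (pow_one _)).trans (Ring.mul_inverse_cancel _ h)
    | some i => rfl
  have h1 : E.nz ψ L (P.eval₂ (MvPolynomial.eval₂Hom k0 E.oe) F) = 0 := by
    rw [h0, Fr.nz, map_zero, zero_mul]
  rw [← h1, eval₂_eq_sum, eval₂_eq_sum, sum_def, sum_def, Fr.nz.eq_1 E ψ L, map_sum,
    Finset.sum_mul]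
  refine Finset.sum_congr rfl fun j hj => ?_
  obtain ⟨d, rfl, hd⟩ := hL j (mem_support_iff.1 hj)
  rw [MvPolynomial.coe_eval₂Hom, MvPolynomial.coe_eval₂Hom, ← e, ← ev_hom h k0 E.oe hd]
  simp only [Fr.nz, map_mul, map_pow]
  ring

theorem Gp.map (h : E.Gp ψ) {A' : Type} [NormedCommRing A'] (ρ : A →+* A')
    (hρ : ∀ a, ‖ρ a‖ ≤ ‖a‖) : E.Gp (ρ.comp ψ) :=
  ⟨h.ch.map ρ hρ, h.un.1.map ρ hρ, fun i => (h.un.2 i).map ρ hρ⟩

theorem Gp.unit (h : E.Gp ψ) : IsUnit (ψ E.e0) := h.un.1.isUnit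

theorem Gp.twc (h : E.Gp ψ) (hu : Nr u) : E.Gp (S.twc ψ u) := by
  have k : ∀ {G : R}, S.Zi G → IsU (ψ G) → IsU (S.twc ψ u G) := fun hG hU => by
    have h1 := TW.twc_sub h.ch hu Nr.one zero_le_one hG.bd
    rw [TW.twc_one h.ch, mul_one] at h1
    exact hU.near (h1.trans_lt (nr_iff.1 hu))
  exact ⟨h.ch.twc hu, k E.int0 h.un.1, fun i => k (E.int i) (h.un.2 i)⟩

theorem Gp.nz_le (h : E.Gp ψ) (a : ℕ) {F : R} {B : ℝ} (hB : 0 ≤ B) (hF : S.Bd B F) :
    ‖E.nz ψ a F‖ ≤ B := by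
  rw [nz, mul_comm]
  exact pinv_mul ((norm_pow_le _ _).trans (pow_le_one₀ (norm_nonneg _) h.un.1.inv_le))
    (h.ch F B hB hF)

theorem Gp.xc_le (h : E.Gp ψ) (i : ι) : ‖E.xc ψ i‖ ≤ 1 :=
  h.nz_le 1 zero_le_one (E.int i).bd

theorem Gp.xc_isU (h : E.Gp ψ) (i : ι) : IsU (E.xc ψ i) := by
  refine (h.un.2 i).mul ⟨ψ E.e0, ?_, h.ch _ 1 zero_le_one E.int0.bd⟩
  rw [pow_one, Ring.inverse_mul_cancel _ h.unit]

theorem Gp.nz_twc (h : E.Gp ψ) (hu : Nr u) (hv : Nr v) (a : ℕ) {F : R} {B : ℝ} (hB : 0 ≤ B)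
    (hF : S.Bd B F) :
    ‖E.nz (S.twc ψ u) a F - E.nz (S.twc ψ v) a F‖ ≤ ‖uv u - uv v‖ * B := by
  have hU := h.twc hu
  have hV := h.twc hv
  have h1 := hU.un.1.inv_sub hV.un.1
  have h2 := TW.twc_sub h.ch hu hv zero_le_one E.int0.bd
  rw [mul_one] at h2
  rw [nz, nz, show ∀ x y z w : A, x * y - z * w = y * (x - z) + (y - w) * z from
    fun _ _ _ _ => by ring]
  refine pinv_add (pinv_mul ((norm_pow_le _ _).trans (pow_le_one₀ (norm_nonneg _) hU.un.1.inv_le))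
    (TW.twc_sub h.ch hu hv hB hF)) ((norm_mul_le _ _).trans (mul_le_mul
      ((tx_ipow hU.un.1.inv_le hV.un.1.inv_le a).trans (h1.trans h2)) (hV.ch F B hB hF)
      (norm_nonneg _) (norm_nonneg _)))

theorem Gp.tx_est (h : E.Gp ψ) {θ : ℝ} (h0 : (p : ℝ)⁻¹ ≤ θ) (h1 : θ < 1)
    (hu : ∀ i, ‖(u i : A) - 1‖ ≤ θ) (hv : ∀ i, ‖(v i : A) - 1‖ ≤ θ) (i : ι) :
    ‖v i * (E.xc (S.twc ψ u) i - E.xc (S.twc ψ v) i) - E.xc (S.twc ψ v) i * (u i - v i)‖ ≤
      θ * ‖uv u - uv v‖ := by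
  have hu' : Nr u := fun i => (hu i).trans_lt h1
  have hv' : Nr v := fun i => (hv i).trans_lt h1
  have hU := h.twc hu'
  have hV := h.twc hv'
  have k0 := tx_key h.ch h0 h1 hu hv E.int0 E.sup0
  have k1 := tx_key h.ch h0 h1 hu hv (E.int i) (E.sup i)
  rw [umon_zero, umon_zero, one_mul, one_mul] at k0
  rw [umon_single, umon_single] at k1
  rw [xc, xc, nz, nz, pow_one, pow_one, show ∀ x y a b c d : A,
    y * (a * c - b * d) - b * d * (x - y) = c * (y * a - x * b) + x * (b * (c - d)) from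
    fun _ _ _ _ _ _ => by ring]
  exact pinv_add (pinv_mul hU.un.1.inv_le k1) (pinv_mul (pinv_le (hu' i))
    (pinv_mul (hV.ch _ 1 zero_le_one (E.int i).bd) ((hU.un.1.inv_sub hV.un.1).trans k0)))

/-- `twc ψ u (e i) = u i * tw ψ (fun T => umon u (T - single i 1)) (e i)`, and on the class of
`single i 1` modulo `p` the map `u ↦ umon u (T - single i 1)` contracts by a factor `θ < 1`
(`tw_le_sup` with `p ^ 1`). -/
theorem Gp.xc_iso (h : E.Gp ψ) (hu : Nr u) (hv : Nr v) :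
    ‖uv u - uv v‖ ≤ ‖E.xc (S.twc ψ u) - E.xc (S.twc ψ v)‖ := by
  obtain ⟨θ1, a0, a1, a2⟩ := hu.theta p
  obtain ⟨θ2, -, b1, b2⟩ := hv.theta p
  have h1 : max θ1 θ2 < 1 := max_lt a1 b1
  have h2 : ‖uv u - uv v‖ ≤
      max ‖E.xc (S.twc ψ u) - E.xc (S.twc ψ v)‖ (max θ1 θ2 * ‖uv u - uv v‖) := by
    refine (pi_norm_le_iff_of_nonneg (le_max_of_le_left (norm_nonneg _))).2 fun i => ?_
    have k := h.tx_est (le_max_of_le_left a0) h1 (fun i => le_max_of_le_left (a2 i))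
      (fun i => le_max_of_le_right (b2 i)) i
    obtain ⟨b, hb, hb1⟩ := (h.twc hv).xc_isU i
    have e : (uv u - uv v) i = b * (v i * (E.xc (S.twc ψ u) - E.xc (S.twc ψ v)) i +
        -(v i * (E.xc (S.twc ψ u) i - E.xc (S.twc ψ v) i) -
          E.xc (S.twc ψ v) i * (u i - v i))) := by
      simp only [Pi.sub_apply, uv]
      linear_combination (-((u i : A) - v i)) * hb
    rw [e]
    refine pinv_mul hb1 (pinv_add (pinv_mul (pinv_le (hv i))
      (le_max_of_le_left (norm_le_pi_norm _ i))) ?_)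
    rw [norm_neg]
    exact le_max_of_le_right k
  rcases le_max_iff.1 h2 with h3 | h3
  · exact h3
  · nlinarith [norm_nonneg (uv u - uv v), norm_nonneg (E.xc (S.twc ψ u) - E.xc (S.twc ψ v))]

theorem Gp.xc_lip (h : E.Gp ψ) (hu : Nr u) (hv : Nr v) :
    ‖E.xc (S.twc ψ u) - E.xc (S.twc ψ v)‖ ≤ ‖uv u - uv v‖ :=
  (pi_norm_le_iff_of_nonneg (norm_nonneg _)).2 fun i =>
    (h.nz_twc hu hv 1 zero_le_one (E.int i).bd).trans_eq (mul_one _)

theorem Gp.xc_inj (h : E.Gp ψ) (hu : Nr u) (hv : Nr v)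
    (e : E.xc (S.twc ψ u) = E.xc (S.twc ψ v)) : u = v := by
  have h1 := h.xc_iso hu hv
  rw [e, sub_self, norm_zero, norm_le_zero_iff, sub_eq_zero] at h1
  exact funext fun i => Units.ext (congrFun h1 i)

/-- Fixed point of a contraction of the closed ball of radius `‖y - xc ψ‖`. -/
theorem Gp.xc_surj (h : E.Gp ψ) {y : ι → A} (hy : ‖y - E.xc ψ‖ < 1) :
    ∃ u, Nr u ∧ E.xc (S.twc ψ u) = y := by
  obtain ⟨θ, h0, h1, h2⟩ : ∃ θ : ℝ, (p : ℝ)⁻¹ ≤ θ ∧ θ < 1 ∧ ‖y - E.xc ψ‖ ≤ θ :=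
    ⟨max _ _, le_max_left _ _, max_lt (plg_lt p).2 hy, le_max_right _ _⟩
  have r0 : 0 ≤ θ := (norm_nonneg _).trans h2
  have hB : ∀ x : Metric.closedBall (1 : ι → A) θ, ‖x.1 - 1‖ ≤ θ := fun x =>
    mem_closedBall_iff_norm.1 x.2
  choose U hU hU' using fun x => exists_nr ((hB x).trans_lt h1)
  choose c hc hc' using h.xc_isU
  have hθ : ∀ x i, ‖(U x i : A) - 1‖ ≤ θ := fun x i =>
    (norm_le_pi_norm (uv (U x) - 1) i).trans (hU' x ▸ hB x)
  have hX : ∀ x i, ‖E.xc (S.twc ψ (U x)) i - E.xc ψ i‖ ≤ θ := fun x i => by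
    have h3 := h.xc_lip (hU x) Nr.one
    rw [TW.twc_one h.ch, hU'] at h3
    exact (norm_le_pi_norm (E.xc (S.twc ψ (U x)) - E.xc ψ) i).trans (h3.trans (hB x))
  let F : Metric.closedBall (1 : ι → A) θ → Metric.closedBall (1 : ι → A) θ := fun x =>
    ⟨fun i => U x i + c i * (y i - E.xc (S.twc ψ (U x)) i), by
      refine mem_closedBall_iff_norm.2 ((pi_norm_le_iff_of_nonneg r0).2 fun i => ?_)
      rw [Pi.sub_apply, Pi.one_apply, add_sub_right_comm,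
        ← sub_add_sub_cancel (y i) (E.xc ψ i)]
      refine pinv_add (hθ x i) (pinv_mul (hc' i) (pinv_add
        ((norm_le_pi_norm (y - E.xc ψ) i).trans h2) ?_))
      rw [norm_sub_rev]
      exact hX x i⟩
  have hF : ContractingWith ⟨θ, r0⟩ F := ⟨h1, LipschitzWith.of_dist_le_mul fun x z => by
    rw [Subtype.dist_eq, dist_eq_norm, Subtype.dist_eq, dist_eq_norm, ← hU' x, ← hU' z]
    refine (pi_norm_le_iff_of_nonneg (mul_nonneg r0 (norm_nonneg _))).2 fun i => ?_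
    have e : ((F x).1 - (F z).1) i = c i *
        (-((E.xc (S.twc ψ (U z)) i - E.xc ψ i) * (uv (U x) - uv (U z)) i) +
        (-(U z i * (E.xc (S.twc ψ (U x)) i - E.xc (S.twc ψ (U z)) i) -
          E.xc (S.twc ψ (U z)) i * (U x i - U z i)) +
        (U z i - 1) * (E.xc (S.twc ψ (U x)) - E.xc (S.twc ψ (U z))) i)) := by
      simp only [F, Pi.sub_apply, uv]
      linear_combination (-((U x i : A) - U z i)) * hc i
    rw [e]
    refine pinv_mul (hc' i) (pinv_add ?_ (pinv_add ?_ ?_))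
    · rw [norm_neg]
      exact (norm_mul_le _ _).trans (mul_le_mul (hX z i) (norm_le_pi_norm _ i) (norm_nonneg _) r0)
    · rw [norm_neg]
      exact h.tx_est h0 h1 (hθ x) (hθ z) i
    · exact (norm_mul_le _ _).trans (mul_le_mul (hθ z i)
        ((norm_le_pi_norm _ i).trans (h.xc_lip (hU x) (hU z))) (norm_nonneg _) r0)⟩
  have : CompleteSpace (Metric.closedBall (1 : ι → A) θ) :=
    Metric.isClosed_closedBall.completeSpace_coe
  have : Nonempty (Metric.closedBall (1 : ι → A) θ) := ⟨⟨1, Metric.mem_closedBall_self r0⟩⟩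
  obtain ⟨x, hx⟩ : ∃ x, F x = x := ⟨_, hF.fixedPoint_isFixedPt⟩
  refine ⟨U x, hU x, funext fun i => ?_⟩
  have e : U x i + c i * (y i - E.xc (S.twc ψ (U x)) i) = U x i :=
    (congrFun (congrArg Subtype.val hx) i).trans (congrFun (hU' x) i).symm
  linear_combination (-E.xc ψ i) * e + (y i - E.xc (S.twc ψ (U x)) i) * hc i

end Fr

end Pool.Agent.E7
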