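import Pool.Agent.Lib.MP_7e5527_ag.EO.CSer
import Pool.Agent.Lib.MP_7e5527_ag.EO.TX

/-! The recursion for normalised values. -/

open Filter Topology Polynomial Matrix

noncomputable section

namespace Pool.Agent.E7

variable {ι : Type} [Fintype ι] [DecidableEq ι] {p : ℕ} [Fact p.Prime] {C : Cone ι} {R : Type}
  [CommRing R] {S : TW p C R}

variable {M : Cl S} {E : Fr S}

/-- The degree of a class. -/
def dgm (m : ι → Fin p) : ℕ := ∑ i, (m i : ℕ)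

/-- The monomial in the frame. -/
def Fr.em (E : Fr S) (m : ι → Fin p) : R := ∏ i, E.e i ^ (m i : ℕ)

/-- The Cartier operator on forms. -/
def Fr.car (E : Fr S) (a : ℕ) (m : ι → Fin p) (F : R) : R :=
  S.up (F * E.em m) * S.up E.e0 ^ ((p - 1) * (a + dgm m)) * S.fr E.e0 ^ (a + dgm m)

theorem crec_sup_pow {N : ℕ} {c : ι → ℤ} {F : R} (h : S.Sup N c F) (n : ℕ) :
    S.Sup N (n • c) (F ^ n) := by
  induction n with
  | zero => simpa using TW.Sup.one N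
  | succ n ih =>
    rw [pow_succ, succ_nsmul]
    exact ih.mul h

theorem crec_sup_prod {N : ℕ} {α : Type} (s : Finset α) {c : α → ι → ℤ} {F : α → R}
    (h : ∀ x ∈ s, S.Sup N (c x) (F x)) : S.Sup N (∑ x ∈ s, c x) (∏ x ∈ s, F x) := by
  classical
  induction s using Finset.induction_on with
  | empty => simpa using TW.Sup.one N
  | insert a s ha ih =>
    rw [Finset.sum_insert ha, Finset.prod_insert ha]
    exact (h a (Finset.mem_insert_self _ _)).mul (ih fun x hx => h x (Finset.mem_insert_of_mem hx))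

theorem Fr.em_sup (E : Fr S) (m : ι → Fin p) : S.Sup p (rp m) (E.em m) := by
  have h := crec_sup_prod (S := S) (N := p) Finset.univ
    (fun i _ => crec_sup_pow (E.sup i) (m i : ℕ))
  have e : ∑ i, (m i : ℕ) • (Pi.single i 1 : ι → ℤ) = rp m := by
    funext j
    simp [rp, Finset.sum_apply, Pi.single_apply]
  rwa [e] at h

theorem Fr.fr_up_e0 (E : Fr S) : S.fr (S.up E.e0) = E.e0 := by
  rw [TW.fr_up, E.sup0.cs_eq (Fact.out : p.Prime).pos]

theorem crec_cg_neg {N : ℕ} {T c : ι → ℤ} : Cg N T (-c) ↔ Cg N (-T) c := by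
  refine forall_congr' fun i => ?_
  rw [← dvd_neg, Pi.neg_apply, Pi.neg_apply, show -(T i - -c i) = -T i - c i by ring]

theorem Fr.split (E : Fr S) (F : R) : F = ∑ m : ι → Fin p, S.cs p (-rp m) F := by
  have hp := (Fact.out : p.Prime).pos
  refine TW.ext_co (S := S) fun T => ?_
  obtain ⟨c, hc, hu⟩ := exists_rp hp (-T)
  rw [map_sum, Finset.sum_apply, Finset.sum_eq_single c]
  · rw [S.co_cs _ _ _ _ hp, if_pos (crec_cg_neg.2 hc)]
  · intro d _ hd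
    rw [S.co_cs _ _ _ _ hp, if_neg fun h => hd (hu d (crec_cg_neg.1 h))]
  · exact fun h => (h (Finset.mem_univ _)).elim

theorem Fr.cs_em (E : Fr S) (m : ι → Fin p) (F : R) :
    S.cs p (-rp m) F * E.em m = S.fr (S.up (F * E.em m)) := by
  rw [TW.fr_up, ← TW.cs_mul_sup (Fact.out : p.Prime).pos _ F (E.em_sup m), neg_add_cancel]

theorem Ad.em_mem (h : Ad M E) (m : ι → Fin p) : E.em m ∈ M.M (dgm m) :=
  M.prod Finset.univ fun i _ => by simpa using M.pow (h.e i) (m i : ℕ)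

theorem Ad.car_mem (h : Ad M E) {a : ℕ} {F : R} (hF : F ∈ M.M a) (m : ι → Fin p) :
    E.car a m F ∈ M.M ((p + 1) * (a + dgm m)) := by
  have h1 := M.mul _ _ _ (M.mul _ _ _ (M.up _ _ (M.mul _ _ _ hF _ (h.em_mem m))) _
    (M.pow (M.up _ _ h.e0) ((p - 1) * (a + dgm m)))) _ (M.pow h.fr0 (a + dgm m))
  obtain ⟨q, hq⟩ := Nat.exists_eq_add_of_le' (Fact.out : p.Prime).pos
  have e : a + dgm m + (p - 1) * (a + dgm m) * 1 + (a + dgm m) * 1 = (p + 1) * (a + dgm m) := by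
    generalize a + dgm m = b
    rw [hq, Nat.succ_eq_add_one, Nat.zero_add, Nat.add_sub_cancel]
    ring
  rwa [e] at h1

theorem crec_dv_pow {X Y : R} (hX : S.Zi X) (hY : S.Zi Y) (h : S.Dv (X - Y)) (n : ℕ) :
    S.Dv (X ^ n - Y ^ n) := by
  obtain ⟨c, hc⟩ := sub_dvd_pow_sub_pow (⟨X, hX⟩ : S.ZR) ⟨Y, hY⟩ n
  have e : X ^ n - Y ^ n = (X - Y) * c := congrArg Subtype.val hc
  rw [e]
  exact h.mul c.2

theorem crec_exp (b : ℕ) : (p * (p + 1) - 1) * b = (p - 1) * b + p ^ 2 * b := by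
  obtain ⟨q, hq⟩ := Nat.exists_eq_add_of_le' (Fact.out : p.Prime).pos
  rw [← add_mul, hq, Nat.succ_eq_add_one, Nat.zero_add, Nat.add_sub_cancel,
    show (q + 1) * (q + 1 + 1) = q + (q + 1) ^ 2 + 1 by ring, Nat.add_sub_cancel]

theorem crec_exp' (b : ℕ) : b + (p * (p + 1) - 1) * b = p * (p + 1) * b := by
  have hp := (Fact.out : p.Prime).pos
  obtain ⟨q, hq⟩ := Nat.exists_eq_add_of_le' (Nat.mul_pos hp p.succ_pos)
  rw [Nat.succ_eq_add_one] at hq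
  rw [hq, Nat.succ_eq_add_one, Nat.zero_add, Nat.add_sub_cancel]
  ring

theorem Ad.car_dv (h : Ad M E) {a : ℕ} {F : R} (hF : F ∈ M.M a) (m : ι → Fin p) :
    S.Dv (S.fr (S.up (F * E.em m)) * E.e0 ^ ((p * (p + 1) - 1) * (a + dgm m)) -
      E.car a m F ^ p) := by
  have h1 := TW.fr_sub_pow (M.int _ _ (h.car_mem hF m))
  have h2 : S.Dv (S.fr (S.fr E.e0) - E.e0 ^ p ^ 2) := TW.fr_pow_sub_pow E.int0 2
  have z0 : E.e0 ∈ S.ZR := E.int0
  have z1 : S.Zi (S.fr (S.fr E.e0)) := (E.int0.isg TW.isg_fr).isg TW.isg_fr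
  have z2 : S.fr (S.up (F * E.em m)) ∈ S.ZR :=
    M.int _ _ (M.frup _ _ (M.mul _ _ _ hF _ (h.em_mem m)))
  have h3 := (crec_dv_pow z1 (S.ZR.pow_mem z0 _) h2 (a + dgm m)).mul
    (S.ZR.neg_mem (S.ZR.mul_mem z2 (S.ZR.pow_mem z0 ((p - 1) * (a + dgm m)))))
  have e : S.fr (S.up (F * E.em m)) * E.e0 ^ ((p * (p + 1) - 1) * (a + dgm m)) -
      E.car a m F ^ p = (S.fr (S.fr E.e0) ^ (a + dgm m) - (E.e0 ^ p ^ 2) ^ (a + dgm m)) *
        -(S.fr (S.up (F * E.em m)) * E.e0 ^ ((p - 1) * (a + dgm m))) +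
      (S.fr (E.car a m F) - E.car a m F ^ p) := by
    have e1 : S.fr (E.car a m F) = S.fr (S.up (F * E.em m)) * E.e0 ^ ((p - 1) * (a + dgm m)) *
        S.fr (S.fr E.e0) ^ (a + dgm m) := by
      rw [Fr.car, map_mul, map_mul, map_pow, map_pow, E.fr_up_e0]
    rw [e1, crec_exp, pow_add E.e0, pow_mul E.e0 (p ^ 2)]
    ring
  rw [e]
  exact h3.add h1

theorem Ad.recur (h : Ad M E) {a : ℕ} {F : R} (hF : F ∈ M.M a) : ∃ G : (ι → Fin p) → R,
    (∀ m, G m ∈ M.M (p * (p + 1) * (a + dgm m))) ∧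
    ∀ (B : Type) [CommRing B] (ψ : R →+* B), IsUnit (ψ E.e0) → (∀ i, IsUnit (ψ (E.e i))) →
      E.nz ψ a F = ∑ m : ι → Fin p, (∏ i, Ring.inverse (E.xc ψ i) ^ (m i : ℕ)) *
        (E.nz ψ ((p + 1) * (a + dgm m)) (E.car a m F) ^ p +
          p * E.nz ψ (p * (p + 1) * (a + dgm m)) (G m)) := by
  have hm : ∀ m, S.fr (S.up (F * E.em m)) * E.e0 ^ ((p * (p + 1) - 1) * (a + dgm m)) -
      E.car a m F ^ p ∈ M.M (p * (p + 1) * (a + dgm m)) := fun m => by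
    have h1 := M.mul _ _ _ (M.frup _ _ (M.mul _ _ _ hF _ (h.em_mem m))) _
      (M.pow h.e0 ((p * (p + 1) - 1) * (a + dgm m)))
    have h2 := M.pow (h.car_mem hF m) p
    rw [mul_one, crec_exp'] at h1
    rw [← mul_assoc] at h2
    exact M.sub h1 h2
  choose G hG eG using fun m => M.div _ _ (hm m) (h.car_dv hF m)
  refine ⟨G, hG, fun B _ ψ h0 hi => ?_⟩
  have u0 : ψ E.e0 * Ring.inverse (ψ E.e0) = 1 := Ring.mul_inverse_cancel _ h0
  have ux : ∀ i, Ring.inverse (E.xc ψ i) * E.xc ψ i = 1 := fun i =>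
    Ring.inverse_mul_cancel _ ((hi i).mul (h0.ringInverse.pow 1))
  conv_lhs => rw [Fr.nz, E.split F, map_sum, Finset.sum_mul]
  refine Finset.sum_congr rfl fun m _ => ?_
  have e1 := congrArg ψ (eG m)
  rw [← E.cs_em, map_sub, map_mul, map_mul, map_mul, map_pow, map_pow, map_natCast] at e1
  have e2 : ∏ i, E.xc ψ i ^ (m i : ℕ) = ψ (E.em m) * Ring.inverse (ψ E.e0) ^ dgm m := by
    simp only [Fr.xc, Fr.nz, Fr.em, dgm, pow_one, mul_pow, Finset.prod_mul_distrib, map_prod,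
      map_pow, Finset.prod_pow_eq_pow_sum]
  have e3 : (∏ i, Ring.inverse (E.xc ψ i) ^ (m i : ℕ)) * ∏ i, E.xc ψ i ^ (m i : ℕ) = 1 := by
    rw [← Finset.prod_mul_distrib]
    exact Finset.prod_eq_one fun i _ => by rw [← mul_pow, ux, one_pow]
  have e4 : E.nz ψ ((p + 1) * (a + dgm m)) (E.car a m F) ^ p +
      p * E.nz ψ (p * (p + 1) * (a + dgm m)) (G m) =
      (∏ i, E.xc ψ i ^ (m i : ℕ)) * (ψ (S.cs p (-rp m) F) * Ring.inverse (ψ E.e0) ^ a) := by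
    have e5 : ψ E.e0 ^ ((p * (p + 1) - 1) * (a + dgm m)) *
        Ring.inverse (ψ E.e0) ^ (p * (p + 1) * (a + dgm m)) =
        Ring.inverse (ψ E.e0) ^ a * Ring.inverse (ψ E.e0) ^ dgm m := by
      rw [← crec_exp', pow_add, mul_left_comm, ← mul_pow, u0, one_pow, mul_one, pow_add]
    rw [e2, Fr.nz, Fr.nz, mul_pow, ← pow_mul, mul_comm _ p, ← mul_assoc p (p + 1)]
    linear_combination (-Ring.inverse (ψ E.e0) ^ (p * (p + 1) * (a + dgm m))) * e1 +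
      ψ (S.cs p (-rp m) F) * ψ (E.em m) * e5
  rw [e4, ← mul_assoc, e3, one_mul]

theorem Ad.nz_sub (h : Ad M E) {a b : ℕ} {F G : R} (hF : F ∈ M.M a) (hG : G ∈ M.M b)
    (e : S.Dv (F * E.e0 ^ b - G * E.e0 ^ a)) : ∃ H ∈ M.M (a + b),
    ∀ (B : Type) [CommRing B] (ψ : R →+* B), IsUnit (ψ E.e0) →
      E.nz ψ a F - E.nz ψ b G = p * E.nz ψ (a + b) H := by
  have h1 := M.mul _ _ _ hF _ (M.pow h.e0 b)
  have h2 := M.mul _ _ _ hG _ (M.pow h.e0 a)
  rw [mul_one] at h1 h2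
  rw [add_comm b a] at h2
  obtain ⟨H, hH, eH⟩ := M.div _ _ (M.sub h1 h2) e
  refine ⟨H, hH, fun B _ ψ h0 => ?_⟩
  have e1 := congrArg ψ eH
  rw [← Fr.nz_e0 h0 a b F, ← Fr.nz_e0 h0 b a G, add_comm b a, Fr.nz, Fr.nz, Fr.nz, ← sub_mul,
    ← map_sub, e1, map_mul, map_natCast, mul_assoc]

end Pool.Agent.E7
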