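import Pool.Agent.Lib.MP_7e5527_ag.EO.TBas

/-! Integral series modulo `p`. -/

open Filter Topology Polynomial Matrix

noncomputable section

namespace Pool.Agent.E7

variable {ι : Type} [Fintype ι] [DecidableEq ι] {p : ℕ} [Fact p.Prime] {C : Cone ι} {R : Type}
  [CommRing R] {S : TW p C R}

theorem cser_low (C : Cone ι) {y : ι → ℚ} (hy : y ∈ C.Om) {k : Type} [Zero k] {a : (ι → ℤ) → k}
    (ha : ∀ T, a T ≠ 0 → T ∈ C.Lp) (h0 : a ≠ 0) : ∃ (A : Finset (ι → ℤ)) (l : ℚ), A.Nonempty ∧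
      (∀ T, T ∈ A ↔ a T ≠ 0 ∧ ip T y = l) ∧ ∀ T, a T ≠ 0 → l ≤ ip T y := by
  obtain ⟨T0, hT0⟩ := Function.ne_iff.1 h0
  have hf : ∀ L : ℚ, {T | a T ≠ 0 ∧ ip T y ≤ L}.Finite := fun L =>
    (C.fin y hy L).subset fun T hT => ⟨ha T hT.1, hT.2⟩
  obtain ⟨T1, hT1, hmin⟩ := Set.exists_min_image _ (fun T => ip T y) (hf (ip T0 y))
    ⟨T0, hT0, le_rfl⟩
  have hf' : {T | a T ≠ 0 ∧ ip T y = ip T1 y}.Finite :=
    (hf (ip T1 y)).subset fun T hT => ⟨hT.1, hT.2.le⟩
  refine ⟨hf'.toFinset, ip T1 y, ⟨T1, hf'.mem_toFinset.2 ⟨hT1.1, rfl⟩⟩,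
    fun T => hf'.mem_toFinset, fun T hT => ?_⟩
  rcases le_total (ip T y) (ip T0 y) with h | h
  · exact hmin T ⟨hT, h⟩
  · exact hT1.2.trans h

omit [DecidableEq ι] in
theorem cser_ip_smul (n : ℕ) (T : ι → ℤ) (y : ι → ℚ) : ip ((n : ℤ) • T) y = n * ip T y := by
  simp [ip, Finset.mul_sum, mul_assoc]

omit [Fintype ι] [DecidableEq ι] in
theorem cser_coeff_mul {k : Type} [CommRing k] (x x' : AddMonoidAlgebra k (ι → ℤ)) (T : ι → ℤ) :
    (x * x').coeff T = ∑ᶠ U, x.coeff U * x'.coeff (T - U) := by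
  rw [AddMonoidAlgebra.coeff_mul_apply_left, Finsupp.sum,
    finsum_eq_sum_of_support_subset (s := x.coeff.support)]
  · exact Finset.sum_congr rfl fun U _ => by rw [neg_add_eq_sub]
  · intro U hU
    exact Finsupp.mem_support_iff.2 (left_ne_zero_of_mul hU)

/-- `x` agrees with `a` up to the level `L`. -/
def cser_Q (C : Cone ι) (y : ι → ℚ) (L : ℚ) {k : Type} [CommRing k]
    (x : AddMonoidAlgebra k (ι → ℤ)) (a : (ι → ℤ) → k) : Prop :=
  (∀ T, x.coeff T ≠ 0 → T ∈ C.Lp) ∧ (∀ T, a T ≠ 0 → T ∈ C.Lp) ∧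
    ∀ T, ip T y ≤ L → x.coeff T = a T

theorem cser_conv_supp {k : Type} [CommRing k] {a b : (ι → ℤ) → k}
    (ha : ∀ T, a T ≠ 0 → T ∈ C.Lp) (hb : ∀ T, b T ≠ 0 → T ∈ C.Lp) (T : ι → ℤ)
    (h : ∑ᶠ U, a U * b (T - U) ≠ 0) : T ∈ C.Lp := by
  by_contra hT
  refine h (finsum_eq_zero_of_forall_eq_zero fun U => by_contra fun h2 => hT ?_)
  have h3 := C.add_mem _ (ha U (left_ne_zero_of_mul h2)) _ (hb _ (right_ne_zero_of_mul h2))
  rwa [add_sub_cancel] at h3

theorem cser_Q_mul {y : ι → ℚ} (hy : y ∈ C.Om) {L : ℚ} {k : Type} [CommRing k]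
    {x x' : AddMonoidAlgebra k (ι → ℤ)} {a a' c : (ι → ℤ) → k} (h : cser_Q C y L x a)
    (h' : cser_Q C y L x' a') (hc : ∀ T, c T = ∑ᶠ U, a U * a' (T - U)) :
    cser_Q C y L (x * x') c := by
  refine ⟨fun T hT => cser_conv_supp h.1 h'.1 T (cser_coeff_mul x x' T ▸ hT),
    fun T hT => cser_conv_supp h.2.1 h'.2.1 T (hc T ▸ hT), fun T hT => ?_⟩
  rw [cser_coeff_mul, hc]
  refine finsum_congr fun U => ?_
  by_cases h1 : U ∈ C.Lp
  · by_cases h2 : T - U ∈ C.Lp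
    · have h3 := C.ip_nonneg hy h1
      have h4 := C.ip_nonneg hy h2
      have h5 := ip_sub T U y
      rw [h.2.2 U (by linarith), h'.2.2 _ (by linarith)]
    · rw [not_not.1 (mt (h'.1 _) h2), not_not.1 (mt (h'.2.1 _) h2), mul_zero, mul_zero]
  · rw [not_not.1 (mt (h.1 _) h1), not_not.1 (mt (h.2.1 _) h1), zero_mul, zero_mul]

/-- Convolution of coefficient families over a domain has no zero divisors: look at the lowest level
of `ip T y`, `y ∈ C.Om`, and use that `AddMonoidAlgebra k (ι → ℤ)` is a domain. -/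
theorem conv_eq_zero (C : Cone ι) {k : Type} [CommRing k] [IsDomain k] {a b : (ι → ℤ) → k}
    (ha : ∀ T, a T ≠ 0 → T ∈ C.Lp) (hb : ∀ T, b T ≠ 0 → T ∈ C.Lp)
    (h : ∀ T, ∑ᶠ U, a U * b (T - U) = 0) : a = 0 ∨ b = 0 := by
  by_contra hc
  rw [not_or] at hc
  obtain ⟨y, hy⟩ := C.ne
  obtain ⟨A, l, hA, hA1, hA2⟩ := cser_low C hy ha hc.1
  obtain ⟨B, m, hB, hB1, hB2⟩ := cser_low C hy hb hc.2
  obtain ⟨a0, ha0, b0, hb0, hu⟩ := UniqueSums.uniqueAdd_of_nonempty hA hB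
  have h1 := h (a0 + b0)
  rw [finsum_eq_single _ a0, add_sub_cancel_left] at h1
  · exact mul_ne_zero ((hA1 a0).1 ha0).1 ((hB1 b0).1 hb0).1 h1
  · intro U hU
    by_contra h2
    have h3 := left_ne_zero_of_mul h2
    have h4 := right_ne_zero_of_mul h2
    have h5 := hA2 U h3
    have h6 := hB2 _ h4
    have h7 : ip (a0 + b0 - U) y = l + m - ip U y := by
      rw [ip_sub, ip_add, ((hA1 a0).1 ha0).2, ((hB1 b0).1 hb0).2]
    exact hU (hu ((hA1 U).2 ⟨h3, by linarith⟩) ((hB1 _).2 ⟨h4, by linarith⟩)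
      (add_sub_cancel _ _)).1

namespace TW

/-- The integral coefficients. -/
def cser_z (S : TW p C R) (F : R) (T : ι → ℤ) : ℤ :=
  Function.invFun (Int.cast : ℤ → ℂ_[p]) (S.co F T)

theorem cser_z_eq {F : R} {T : ι → ℤ} {n : ℤ} (h : S.co F T = n) : S.cser_z F T = n := by
  rw [cser_z, h]
  exact Function.leftInverse_invFun Int.cast_injective n

theorem cser_z_cast {F : R} (h : S.Zi F) (T : ι → ℤ) : S.co F T = S.cser_z F T := by
  obtain ⟨n, hn⟩ := h T
  rw [cser_z_eq hn, hn]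

/-- The coefficients modulo `p`. -/
def cser_r (S : TW p C R) (F : R) (T : ι → ℤ) : ZMod p := S.cser_z F T

theorem cser_r_zero {F : R} {T : ι → ℤ} (h : S.co F T = 0) : S.cser_r F T = 0 := by
  rw [cser_r, cser_z_eq (h.trans Int.cast_zero.symm), Int.cast_zero]

theorem cser_r_supp (F : R) (T : ι → ℤ) (h : S.cser_r F T ≠ 0) : T ∈ C.Lp :=
  S.supp F T fun h1 => h (cser_r_zero h1)

theorem cser_dv_iff {F : R} (h : S.Zi F) : S.Dv F ↔ S.cser_r F = 0 := by
  refine ⟨fun hd => funext fun T => ?_, fun hd T => ?_⟩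
  · obtain ⟨n, hn⟩ := hd T
    rw [cser_r, cser_z_eq (n := p * n) (by rw [hn]; push_cast; rfl)]
    simp
  · obtain ⟨n, hn⟩ := (ZMod.intCast_zmod_eq_zero_iff_dvd _ _).1 (congrFun hd T)
    exact ⟨n, by rw [cser_z_cast h, hn]; push_cast; rfl⟩

theorem cser_r_mul {F G : R} (hF : S.Zi F) (hG : S.Zi G) (T : ι → ℤ) :
    S.cser_r (F * G) T = ∑ᶠ U, S.cser_r F U * S.cser_r G (T - U) := by
  have h1 : (Function.support fun U => S.cser_z F U * S.cser_z G (T - U)).Finite := by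
    refine (conv_fin (S := S) F G T).subset fun U hU h2 => hU ?_
    beta_reduce at h2
    rw [cser_z_cast hF, cser_z_cast hG] at h2
    exact_mod_cast h2
  have h2 : S.co (F * G) T = (∑ᶠ U, S.cser_z F U * S.cser_z G (T - U) : ℤ) := by
    refine (S.co_mul F G T).trans (Eq.trans (finsum_congr fun U => ?_)
      (map_finsum (Int.castRingHom ℂ_[p]) h1).symm)
    rw [cser_z_cast hF, cser_z_cast hG, map_mul]
    rfl
  rw [cser_r, cser_z_eq h2]
  exact (map_finsum (Int.castRingHom (ZMod p)) h1).trans (finsum_congr fun U => map_mul _ _ _)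

theorem cser_r_sub {F G : R} (hF : S.Zi F) (hG : S.Zi G) (T : ι → ℤ) :
    S.cser_r (F - G) T = S.cser_r F T - S.cser_r G T := by
  rw [cser_r, cser_z_eq (n := S.cser_z F T - S.cser_z G T), Int.cast_sub, cser_r, cser_r]
  rw [map_sub, Pi.sub_apply, cser_z_cast hF, cser_z_cast hG, Int.cast_sub]

theorem cser_r_one (T : ι → ℤ) : S.cser_r 1 T = if 0 = T then 1 else 0 := by
  split_ifs with h
  · rw [cser_r, cser_z_eq (n := 1) (by rw [S.co_one, ← h, Pi.single_eq_same, Int.cast_one]),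
      Int.cast_one]
  · exact cser_r_zero (by rw [S.co_one, Pi.single_eq_of_ne' h])

theorem cser_zi_pow {F : R} (h : S.Zi F) (n : ℕ) : S.Zi (F ^ n) :=
  S.ZR.pow_mem (x := F) h n

theorem cser_Q_pow {y : ι → ℚ} (hy : y ∈ C.Om) {L : ℚ} {x : AddMonoidAlgebra (ZMod p) (ι → ℤ)}
    {F : R} (hF : S.Zi F) (h : cser_Q C y L x (S.cser_r F)) (n : ℕ) :
    cser_Q C y L (x ^ n) (S.cser_r (F ^ n)) := by
  induction n with
  | zero =>
    have h1 : ∀ T, (1 : AddMonoidAlgebra (ZMod p) (ι → ℤ)).coeff T = S.cser_r 1 T := fun T => by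
      rw [cser_r_one, AddMonoidAlgebra.one_def, AddMonoidAlgebra.coeff_single,
        Finsupp.single_apply]
    rw [pow_zero, pow_zero]
    exact ⟨fun T hT => cser_r_supp 1 T (h1 T ▸ hT), cser_r_supp 1, fun T _ => h1 T⟩
  | succ n ih =>
    rw [pow_succ, pow_succ]
    exact cser_Q_mul hy ih h (cser_r_mul (cser_zi_pow hF n) hF)

theorem isDomain (S : TW p C R) : IsDomain R := by
  have h1 : Nontrivial R := ⟨⟨1, 0, fun h => by
    have h2 := congrFun S.co_one 0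
    rw [h, map_zero, Pi.single_eq_same] at h2
    exact zero_ne_one h2⟩⟩
  have h2 : NoZeroDivisors R := ⟨fun {F G} h => by
    have h3 := conv_eq_zero C (S.supp F) (S.supp G) fun T => by
      rw [← S.co_mul, h, map_zero]
      rfl
    exact h3.imp (fun h4 => S.inj (h4.trans (map_zero _).symm))
      fun h4 => S.inj (h4.trans (map_zero _).symm)⟩
  exact NoZeroDivisors.to_isDomain R

theorem Dv.prime {F G : R} (hF : S.Zi F) (hG : S.Zi G) (h : S.Dv (F * G)) : S.Dv F ∨ S.Dv G := by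
  rw [cser_dv_iff (hF.mul hG)] at h
  rw [cser_dv_iff hF, cser_dv_iff hG]
  exact conv_eq_zero C (cser_r_supp F) (cser_r_supp G) fun T =>
    (cser_r_mul hF hG T).symm.trans (congrFun h T)

theorem not_dv_one : ¬ S.Dv 1 := by
  rw [cser_dv_iff Zi.one]
  intro h
  have h1 := congrFun h 0
  rw [cser_r_one, if_pos rfl] at h1
  exact one_ne_zero h1

/-- Truncate at the level of `T` and use Frobenius in `AddMonoidAlgebra (ZMod p) (ι → ℤ)`. -/
theorem fr_sub_pow {F : R} (h : S.Zi F) : S.Dv (S.fr F - F ^ p) := by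
  have hp : p.Prime := Fact.out
  have hfr : S.Zi (S.fr F) := h.isg isg_fr
  rw [cser_dv_iff (S.ZR.sub_mem (x := S.fr F) (y := F ^ p) hfr (cser_zi_pow h p))]
  funext T
  rw [cser_r_sub hfr (cser_zi_pow h p), Pi.zero_apply, sub_eq_zero]
  obtain ⟨y, hy⟩ := C.ne
  have hs := C.fin y hy (ip T y)
  have hx : ∀ U, (∑ V ∈ hs.toFinset, AddMonoidAlgebra.single V (S.cser_r F V)).coeff U =
      if U ∈ hs.toFinset then S.cser_r F U else 0 := fun U => by
    rw [AddMonoidAlgebra.coeff_sum, Finsupp.finsetSum_apply]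
    simp only [AddMonoidAlgebra.coeff_single, Finsupp.single_apply]
    exact Finset.sum_ite_eq' _ _ _
  have hQ : cser_Q C y (ip T y) (∑ V ∈ hs.toFinset, AddMonoidAlgebra.single V (S.cser_r F V))
      (S.cser_r F) := by
    refine ⟨fun U hU => ?_, cser_r_supp F, fun U hU => ?_⟩
    · rw [hx] at hU
      by_contra h1
      exact hU (if_neg fun h2 => h1 (hs.mem_toFinset.1 h2).1)
    · rw [hx]
      split_ifs with h1
      · rfl
      · by_contra h2
        exact h1 (hs.mem_toFinset.2 ⟨cser_r_supp F U (Ne.symm h2), hU⟩)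
  have hch : CharP (AddMonoidAlgebra (ZMod p) (ι → ℤ)) p :=
    charP_of_injective_algebraMap (algebraMap (ZMod p) _).injective p
  rw [← (cser_Q_pow hy h hQ p).2.2 T le_rfl, sum_pow_char, AddMonoidAlgebra.coeff_sum,
    Finsupp.finsetSum_apply]
  simp only [AddMonoidAlgebra.single_pow, AddMonoidAlgebra.coeff_single, Finsupp.single_apply,
    ZMod.pow_card, ← natCast_zsmul]
  by_cases hT : ∃ U, T = (p : ℤ) • U
  · obtain ⟨U, rfl⟩ := hT
    have h1 : ∀ V : ι → ℤ, (p : ℤ) • V = (p : ℤ) • U ↔ V = U := fun V =>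
      (smul_right_injective _ (Int.natCast_ne_zero.2 hp.ne_zero)).eq_iff
    simp only [h1]
    rw [Finset.sum_ite_eq', cser_r, cser_z_eq ((S.co_fr F U).trans (cser_z_cast h U))]
    split_ifs with h2
    · rfl
    · by_contra h3
      have h4 := cser_r_supp F U h3
      refine h2 (hs.mem_toFinset.2 ⟨h4, ?_⟩)
      rw [cser_ip_smul]
      exact le_mul_of_one_le_left (C.ip_nonneg hy h4) (by exact_mod_cast hp.one_le)
  · rw [cser_r_zero (by_contra fun h1 => hT (cg_zero_iff.1 (S.co_fr0 F T h1)))]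
    exact (Finset.sum_eq_zero fun V _ => if_neg fun h2 => hT ⟨V, h2.symm⟩).symm

theorem fr_pow_sub_pow {F : R} (h : S.Zi F) (f : ℕ) : S.Dv ((S.fr ^ f) F - F ^ p ^ f) := by
  induction f with
  | zero =>
    intro T
    exact ⟨0, by simp⟩
  | succ f ih =>
    have hG : S.Zi ((S.fr ^ f) F) := h.isg (isg_fr_pow f)
    obtain ⟨c, hc⟩ := sub_dvd_pow_sub_pow (⟨(S.fr ^ f) F, hG⟩ : S.ZR)
      ⟨F ^ p ^ f, cser_zi_pow h _⟩ p
    have h1 : ((S.fr ^ f) F) ^ p - (F ^ p ^ f) ^ p = ((S.fr ^ f) F - F ^ p ^ f) * c :=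
      congrArg Subtype.val hc
    have h2 : (S.fr ^ (f + 1)) F - F ^ p ^ (f + 1) =
        S.fr ((S.fr ^ f) F) - ((S.fr ^ f) F) ^ p + ((S.fr ^ f) F - F ^ p ^ f) * c := by
      rw [← h1, pow_succ p, pow_mul, pow_succ' S.fr, sub_add_sub_cancel]
      rfl
    rw [h2]
    exact (fr_sub_pow hG).add (ih.mul c.2)

/-- The fraction field of the integral series modulo `p`. -/
theorem exists_red (S : TW p C R) : ∃ (K : Type) (_ : Field K) (_ : CharP K p)
    (r : S.ZR →+* K), (∀ F : S.ZR, r F = 0 ↔ S.Dv (F : R)) ∧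
      ∀ y : K, ∃ F G : S.ZR, r G ≠ 0 ∧ y = r F / r G := by
  let I : Ideal S.ZR :=
    { carrier := {F | S.Dv (F : R)}
      add_mem' := fun h h' => Dv.add h h'
      zero_mem' := fun T => ⟨0, by simp⟩
      smul_mem' := fun c F hF => by
        have h1 := Dv.mul hF c.2
        rwa [mul_comm] at h1 }
  have hI : I.IsPrime := ⟨fun h => not_dv_one (S := S) ((Ideal.eq_top_iff_one I).1 h),
    fun {F G} h => Dv.prime F.2 G.2 h⟩
  have h0 : ∀ F : S.ZR, algebraMap (S.ZR ⧸ I) (FractionRing (S.ZR ⧸ I)) (Ideal.Quotient.mk I F) = 0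
      ↔ S.Dv (F : R) := fun F => by
    rw [map_eq_zero_iff _ (IsFractionRing.injective _ _), Ideal.Quotient.eq_zero_iff_mem]
    rfl
  have hch : CharP (FractionRing (S.ZR ⧸ I)) p := by
    rw [CharP.charP_iff_prime_eq_zero Fact.out]
    have h1 := (h0 p).2 (by simpa using Zi.dv (S := S) Zi.one)
    rwa [map_natCast, map_natCast] at h1
  refine ⟨FractionRing (S.ZR ⧸ I), inferInstance, hch,
    (algebraMap (S.ZR ⧸ I) _).comp (Ideal.Quotient.mk I), h0, fun y => ?_⟩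
  obtain ⟨a, b, hb, rfl⟩ := IsFractionRing.div_surjective (S.ZR ⧸ I) y
  obtain ⟨F, rfl⟩ := Ideal.Quotient.mk_surjective a
  obtain ⟨G, rfl⟩ := Ideal.Quotient.mk_surjective b
  have h2 := IsFractionRing.to_map_ne_zero_of_mem_nonZeroDivisors
    (K := FractionRing (S.ZR ⧸ I)) hb
  exact ⟨F, G, h2, rfl⟩

end TW

end Pool.Agent.E7
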