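import Pool.Agent.Lib.MP_7e5527_ag.EO.DRed

/-! Coefficients are bounded by the supremum over rational translates. -/

noncomputable section

namespace Pool.Agent.E7

theorem norm_eT_rat (T B : Ix → ℚ) : ‖eT T (toR ℂ B)‖ = 1 := by
  have e : (fun l => (toR ℂ B l).im) = 0 := by
    funext l
    simp [toR]
  rw [norm_eT, e, tr_zero_right, mul_zero, neg_zero, Real.exp_zero]

open Classical in
theorem GoodC.filter_bd {F : Fn} {a : (Ix → ℚ) → ℂ} (h : GoodC F a) (Z : HH) {S : ℝ}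
    (hS : ∀ X : Ix → ℚ, ‖F (ofC (Z + toR ℂ X))‖ ≤ S) (T0 B : Ix → ℚ) :
    ∃ G : Fn, (GoodC G fun T => if ∃ n : ℤ, tr (T - T0) B = n then a T else 0) ∧
      ∀ X : Ix → ℚ, ‖G (ofC (Z + toR ℂ X))‖ ≤ S := by
  obtain ⟨M, hM, h1⟩ := h.supp
  obtain ⟨M', hM', h0⟩ := exists_den T0
  obtain ⟨N, hN, h2⟩ := eT_root_unif (mul_pos hM hM') B
  have h8 : (N : ℂ) ≠ 0 := Nat.cast_ne_zero.2 hN.ne'
  have h3 := GoodC.finsum (Finset.range N) fun j _ =>
    (h.transl 0 ((j : ℚ) • B)).smul ((N : ℂ)⁻¹ * (eT T0 (toR ℂ B))⁻¹ ^ j)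
  refine ⟨_, g1_congr h3 fun T => ?_, fun X => ?_⟩
  · simp only [Finset.sum_apply, Pi.smul_apply, smul_eq_mul, g1_pow]
    by_cases ha : a T = 0
    · simp [ha]
    have h4 : eT (T - T0) (toR ℂ B) ^ N = 1 := h2 _ (by
      rw [smul_sub]
      refine Lam.sub ?_ ?_
      · rw [Nat.cast_mul, mul_comm, mul_smul]; exact Lam.nsmul (h1 T ha).1 M'
      · rw [Nat.cast_mul, mul_smul]; exact Lam.nsmul h0 M)
    have h5 : ∀ j : ℕ, (N : ℂ)⁻¹ * (eT T0 (toR ℂ B))⁻¹ ^ j * (a T * eT T (toR ℂ B) ^ j) =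
        (N : ℂ)⁻¹ * a T * eT (T - T0) (toR ℂ B) ^ j := by
      intro j
      have h6 : eT (T - T0) (toR ℂ B) = (eT T0 (toR ℂ B))⁻¹ * eT T (toR ℂ B) := by
        rw [eq_inv_mul_iff_mul_eq₀ (eT_ne _ _), ← eT_add, add_sub_cancel]
      rw [h6, mul_pow]
      ring
    simp only [h5, ← Finset.mul_sum, ← eT_eq_one]
    split_ifs with h7
    · simp only [h7, one_pow, Finset.sum_const, Finset.card_range, nsmul_eq_mul, mul_one]
      field_simp
    · rw [geom_sum_eq h7, h4, sub_self, zero_div, mul_zero]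
  · rw [Finset.sum_apply]
    refine (norm_sum_le_of_le (n := fun _ => (N : ℝ)⁻¹ * S) _ fun j _ => ?_).trans ?_
    · rw [Pi.smul_apply, smul_eq_mul, norm_mul, norm_mul, norm_pow, norm_inv, norm_inv, norm_eT_rat,
        Complex.norm_natCast, inv_one, one_pow, mul_one, E7.sl_nE, coe_ofC (HH.add_toR Z.2 X),
        add_assoc, ← toR_add]
      exact mul_le_mul_of_nonneg_left (hS _) (by positivity)
    · have h9 : (N : ℝ) ≠ 0 := Nat.cast_ne_zero.2 hN.ne'
      rw [Finset.sum_const, Finset.card_range, nsmul_eq_mul, mul_inv_cancel_left₀ h9]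

theorem GoodC.coef_le {F : Fn} {a : (Ix → ℚ) → ℂ} (h : GoodC F a) (Z : HH) {S : ℝ}
    (hS : ∀ X : Ix → ℚ, ‖F (ofC (Z + toR ℂ X))‖ ≤ S) (T : Ix → ℚ) : ‖a T * eT T Z‖ ≤ S := by
  classical
  have h1 : ∀ s : Finset (Ix → ℚ), ∃ (G : Fn) (b : (Ix → ℚ) → ℂ), GoodC G b ∧
      (∀ X : Ix → ℚ, ‖G (ofC (Z + toR ℂ X))‖ ≤ S) ∧ b T = a T ∧ (∀ T', ‖b T'‖ ≤ ‖a T'‖) ∧
      ∀ T' ∈ s, T' ≠ T → b T' = 0 := by
    intro s
    induction s using Finset.induction_on with
    | empty => exact ⟨F, a, h, hS, rfl, fun _ => le_rfl, by simp⟩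
    | insert T1 s _ ih =>
      obtain ⟨G, b, g1, g2, g3, g4, g5⟩ := ih
      by_cases hT : T1 = T
      · exact ⟨G, b, g1, g2, g3, g4, by simpa [hT] using g5⟩
      obtain ⟨i, hi⟩ : ∃ i, tr (T1 - T) (UU i) ≠ 0 := by
        by_contra h4
        push Not at h4
        have h5 := latJ_sum_TT (T1 - T)
        simp only [h4, zero_smul, Finset.sum_const_zero] at h5
        exact hT (sub_eq_zero.1 h5.symm)
      obtain ⟨G', k1, k2⟩ := g1.filter_bd Z g2 T ((2 * tr (T1 - T) (UU i))⁻¹ • UU i)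
      refine ⟨G', _, k1, k2, ?_, fun T' => ?_, fun T' hT' hne => ?_⟩
      · rw [if_pos ⟨0, by rw [sub_self, tr_zero_left, Int.cast_zero]⟩, g3]
      · split_ifs
        · exact g4 T'
        · rw [norm_zero]
          exact norm_nonneg _
      · rcases Finset.mem_insert.1 hT' with rfl | hT'
        · refine if_neg ?_
          rintro ⟨n, hn⟩
          rw [tr_smul_right, inv_mul_eq_iff_eq_mul₀ (mul_ne_zero two_ne_zero hi)] at hn
          have h6 : (1 : ℚ) = 2 * n := mul_left_cancel₀ hi (by linarith)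
          have h7 : (1 : ℤ) = 2 * n := by exact_mod_cast h6
          omega
        · simp [g5 T' hT' hne]
  refine le_of_forall_pos_le_add fun ε hε => ?_
  have h2 := (h.sum Z).summable.norm
  obtain ⟨s, hs⟩ := ((tendsto_tsum_compl_atTop_zero fun T' => ‖a T' * eT T' Z‖).eventually
    (gt_mem_nhds hε)).exists_forall_of_atTop
  obtain ⟨G, b, g1, g2, g3, g4, g5⟩ := h1 (insert T s)
  have h3 := g2 0
  rw [toR_zero, add_zero, ofC_coe] at h3
  have h4 := (g1.sum Z).summable.sum_add_tsum_compl (s := insert T s)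
  rw [(g1.sum Z).tsum_eq, Finset.sum_eq_single_of_mem T (Finset.mem_insert_self _ _)
    (fun T' hT' hne => by rw [g5 T' hT' hne, zero_mul]), g3] at h4
  have h5 := tsum_of_norm_bounded (f := fun T' : ((↑(insert T s) : Set (Ix → ℚ))ᶜ : Set (Ix → ℚ)) =>
    b T' * eT T' Z) (h2.subtype _).hasSum fun T' => by
      simp only [Function.comp_apply, norm_mul]
      exact mul_le_mul_of_nonneg_right (g4 _) (norm_nonneg _)
  have h6 := hs (insert T s) (Finset.subset_insert _ _)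
  rw [eq_sub_of_add_eq h4]
  exact (norm_sub_le _ _).trans (add_le_add h3 (h5.trans h6.le))

end Pool.Agent.E7
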