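import Pool.Agent.Lib.MP_7e5527_ag.E7.MFs

/-! Reduction of the points with coordinates in `ℚ(i)`. -/

noncomputable section

namespace Pool.Agent.E7

/-- The imaginary part. -/
def imP (Z : Ix → ℂ) : Ix → ℝ := fun l => (Z l).im

/-- The point `X + i Y`. -/
def qi (X Y : Ix → ℚ) : Ix → ℂ := toR ℂ X + Complex.I • toR ℂ Y

theorem imP_qi (X Y : Ix → ℚ) : imP (qi X Y) = toR ℝ Y := by
  funext l
  simp [imP, qi, toR]

theorem qi_mem {X Y : Ix → ℚ} : qi X Y ∈ HH ↔ toR ℝ Y ∈ Om := by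
  rw [← imP_qi X Y]; rfl

theorem qi_add (X Y B : Ix → ℚ) : qi X Y + toR ℂ B = qi (X + B) Y := by
  simp only [qi, toR_add]; abel

theorem nrm_imP_pos {Z : Ix → ℂ} (h : Z ∈ HH) : 0 < nrm (imP Z) := h.2.2

theorem nrm_imP_act {γ : Gb} (hγ : γ ∈ Gam) {Z : Ix → ℂ} (hZ : Z ∈ HH) :
    ‖jf γ Z‖ ^ 2 * nrm (imP (act γ Z)) = nrm (imP Z) := by
  refine Gam_ind (p := fun g => ∀ Z ∈ HH, ‖jf g Z‖ ^ 2 * nrm (imP (act g Z)) = nrm (imP Z))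
    ?_ ?_ ?_ ?_ γ hγ Z hZ
  · intro B _ Z _
    have e : imP (Z + toR ℂ B) = imP Z := by
      funext l
      simp [imP, toR]
    rw [jf_nE, act_nE, e, norm_one, one_pow, one_mul]
  · intro A g hA hg Z _
    have e : imP (lin A Z) = lin A (imP Z) := im_lin A Z
    rw [hg.jf_eq, hg.act_eq, e, hA.1.nrm_lin Complex.ofRealHom, norm_one]
    simp
  · intro Z h
    have h0 : dg Z 0 ≠ 0 := HH.dg_ne h 0
    have hc : dg (tube1C Z) 0 = (starRingEnd ℂ) (dg Z 0) := rfl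
    have h0' : dg (tube1C Z) 0 ≠ 0 := by
      rw [hc]
      exact (map_ne_zero _).2 h0
    have hI : (2 * Complex.I : ℂ) ≠ 0 := mul_ne_zero two_ne_zero Complex.I_ne_zero
    have m2 := (tube1_minors h0 h0').2.2
    rw [tube1_i0_C, tube1_sub_C, tube1_sub_C, hc, Complex.mul_conj, nrm_smul, nrm_smul,
      mul_left_comm, tube1_nrm_ofReal, tube1_nrm_ofReal] at m2
    have k := mul_left_cancel₀ (pow_ne_zero 3 hI) m2
    rw [jf_w0E, act_w0E h, ← Complex.normSq_eq_norm_sq]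
    exact Complex.ofReal_injective (by rw [Complex.ofReal_mul]; exact k)
  · intro g hg g' hg' h h' Z hZ
    rw [jf_mul g (Gam_le hg') hZ, act_mul (Gam_le hg) (Gam_le hg') hZ, norm_mul, ← h' Z hZ,
      ← h _ (act_spec (Gam_le hg') hZ).2.1]
    ring

theorem rr_qi (X Y : Ix → ℚ) : ∃ u ∈ WQ, ∃ v ∈ WQ, rr (qi X Y) = u + Complex.I • v := by
  refine ⟨(1, toR ℂ X, toR ℂ (sharp X - sharp Y), ((nrm X - tr X (sharp Y) : ℚ) : ℂ)),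
    ⟨⟨1, by simp⟩, ⟨_, rfl⟩, ⟨_, rfl⟩, _, rfl⟩,
    (0, toR ℂ Y, toR ℂ (cross X Y), ((tr (sharp X) Y - nrm Y : ℚ) : ℂ)),
    ⟨⟨0, by simp⟩, ⟨_, rfl⟩, ⟨_, rfl⟩, _, rfl⟩, ?_⟩
  have h2 : Complex.I ^ 2 = -1 := Complex.I_sq
  have h3 : Complex.I ^ 3 = -Complex.I := Complex.I_pow_three
  simp only [rr, qi, Prod.smul_mk, Prod.mk_add_mk, smul_eq_mul, mul_zero, add_zero, Prod.mk.injEq,
    true_and]
  refine ⟨?_, ?_⟩
  · rw [sharp_add, cross_smul_right, sharp_smul, h2, toR_sub, sharp_toR, sharp_toR, cross_toR]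
    module
  · rw [nrm_add, sharp_smul, tr_smul_right, tr_smul_right, nrm_smul, h2, h3, sharp_toR, sharp_toR,
      tr_toR, tr_toR, nrm_toR, nrm_toR]
    push_cast
    ring

theorem act_qi {γ : Gb} (hγ : γ ∈ Gam) {X Y : Ix → ℚ} (h : qi X Y ∈ HH) :
    ∃ X' Y', act γ (qi X Y) = qi X' Y' := by
  obtain ⟨u, hu, v, hv, e⟩ := rr_qi X Y
  obtain ⟨⟨a, ha⟩, ⟨A, hA⟩, -⟩ := WQ_map (Gam_le hγ) hu
  obtain ⟨⟨b, hb⟩, ⟨B, hB⟩, -⟩ := WQ_map (Gam_le hγ) hv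
  have h1 : jf γ (qi X Y) = a + Complex.I * b := by
    rw [jf, e, map_add, map_smul, Prod.fst_add, Prod.smul_fst, ha, hb, smul_eq_mul]
  have h2 : (γ (rr (qi X Y))).2.1 = toR ℂ A + Complex.I • toR ℂ B := by
    rw [e, map_add, map_smul, Prod.snd_add, Prod.fst_add, Prod.smul_snd, Prod.smul_fst, hA, hB]
  have h3 := (act_spec (Gam_le hγ) h).1
  have h4 : ((a : ℂ) + Complex.I * b) * (a - Complex.I * b) = ((a ^ 2 + b ^ 2 : ℚ) : ℂ) := by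
    push_cast
    linear_combination (-(b : ℂ) ^ 2) * Complex.I_sq
  have h5 : ((a ^ 2 + b ^ 2 : ℚ) : ℂ) ≠ 0 := by
    intro h0
    have h6 : a ^ 2 + b ^ 2 = 0 := by exact_mod_cast h0
    have h7 : a = 0 := by nlinarith [sq_nonneg a, sq_nonneg b]
    have h8 : b = 0 := by nlinarith [sq_nonneg a, sq_nonneg b]
    exact h3 (by rw [h1, h7, h8]; simp)
  refine ⟨(a ^ 2 + b ^ 2)⁻¹ • (a • A + b • B), (a ^ 2 + b ^ 2)⁻¹ • (a • B - b • A), ?_⟩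
  have h9 : ((a : ℂ) + Complex.I * b)⁻¹ = ((a ^ 2 + b ^ 2 : ℚ) : ℂ)⁻¹ * (a - Complex.I * b) := by
    refine inv_eq_of_mul_eq_one_right ?_
    rw [mul_left_comm, h4, inv_mul_cancel₀ h5]
  rw [act, h1, h2, h9, qi]
  simp only [toR_smul, toR_add, toR_sub, Rat.cast_inv]
  funext l
  simp only [Pi.smul_apply, Pi.add_apply, Pi.sub_apply, smul_eq_mul]
  linear_combination (-((a ^ 2 + b ^ 2 : ℚ) : ℂ)⁻¹ * b * toR ℂ B l) * Complex.I_sq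

theorem jf_qi_den (X Y : Ix → ℚ) :
    ∃ D : ℕ, 0 < D ∧ ∀ γ ∈ Gam, ∃ n : ℕ, (D : ℝ) * ‖jf γ (qi X Y)‖ ^ 2 = n := by
  obtain ⟨u, hu, v, hv, e⟩ := rr_qi X Y
  obtain ⟨M, hM, h1⟩ := exists_den_W hu
  obtain ⟨N, hN, h2⟩ := exists_den_W hv
  refine ⟨(M * N) ^ 2, by positivity, fun γ hγ => ?_⟩
  obtain ⟨a, ha⟩ := (WZ_map hγ h1).1
  obtain ⟨b, hb⟩ := (WZ_map hγ h2).1
  rw [map_smul, Prod.smul_fst, smul_eq_mul] at ha hb
  have h3 : ((M * N : ℕ) : ℂ) * jf γ (qi X Y) = ((N * a : ℤ) : ℝ) + ((M * b : ℤ) : ℝ) * Complex.I := by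
    rw [jf, e, map_add, map_smul, Prod.fst_add, Prod.smul_fst, smul_eq_mul]
    push_cast
    rw [← ha, ← hb]
    ring
  have h4 := congrArg Complex.normSq h3
  rw [Complex.normSq_add_mul_I, map_mul, Complex.normSq_natCast, Complex.normSq_eq_norm_sq] at h4
  refine ⟨((N * a) ^ 2 + (M * b) ^ 2 : ℤ).toNat, ?_⟩
  have h5 : ((((N * a) ^ 2 + (M * b) ^ 2 : ℤ).toNat : ℤ) : ℝ) =
      (((N * a) ^ 2 + (M * b) ^ 2 : ℤ) : ℝ) := by rw [Int.toNat_of_nonneg (by positivity)]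
  rw [Int.cast_natCast] at h5
  rw [h5]
  push_cast at h4 ⊢
  linarith

theorem reduce_qi {X Y : Ix → ℚ} (h : qi X Y ∈ HH) :
    ∃ γ ∈ Gam, ∃ X' Y', act γ (qi X Y) = qi X' Y' ∧ toR ℝ Y' ∈ Sieg ∧ 1 / 2 ≤ dg Y' 0 := by
  obtain ⟨D, hD, h1⟩ := jf_qi_den X Y
  obtain ⟨g, hg, hm⟩ := sieg1_min (O := (Gam : Set Gb)) ⟨1, one_mem _⟩
    (fun γ => ‖jf γ (qi X Y)‖ ^ 2) (c := D) (by exact_mod_cast hD) h1
  obtain ⟨X1, Y1, e1⟩ := act_qi hg h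
  have k1 : qi X1 Y1 ∈ HH := e1 ▸ (act_spec (Gam_le hg) h).2.1
  obtain ⟨A, hA, hS⟩ := reduce (qi_mem.1 k1)
  obtain ⟨m, hmA⟩ := exists_m hA.1
  set n : ℤ := round (dg (lin A X1) 0) with hn
  have hB : (-n : ℚ) • (ed 0 : Ix → ℚ) ∈ Lam := by
    simpa using Lam.zsmul (ed_mem 0) (-n)
  set B : Ix → ℚ := (-n : ℚ) • ed 0 with hB'
  have g1 : m * g ∈ Gam := mul_mem (hmA.mem_Gam hA) hg
  have g2 : nE (toR ℂ B) * (m * g) ∈ Gam := mul_mem (nE_mem_Gam hB) g1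
  have e2 : act (m * g) (qi X Y) = qi (lin A X1) (lin A Y1) := by
    rw [act_mul (Gam_le (hmA.mem_Gam hA)) (Gam_le hg) h, hmA.act_eq, e1, qi, lin_add, lin_smul,
      lin_toR, lin_toR, qi]
  have e3 : act (nE (toR ℂ B) * (m * g)) (qi X Y) = qi (lin A X1 + B) (lin A Y1) := by
    rw [act_mul (nE_mem_GG B) (Gam_le g1) h, act_nE, e2, qi_add]
  refine ⟨_, g2, _, _, e3, hS, ?_⟩
  have j1 : jf (w0E * (nE (toR ℂ B) * (m * g))) (qi X Y) =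
      dg (qi (lin A X1 + B) (lin A Y1)) 0 * jf g (qi X Y) := by
    rw [jf_mul _ (Gam_le g2) h, e3, jf_w0E, jf_mul _ (Gam_le g1) h, jf_nE,
      jf_mul _ (Gam_le hg) h, hmA.jf_eq, one_mul, one_mul]
  have j2 := hm _ (mul_mem w0E_mem g2)
  have j3 : 0 < ‖jf g (qi X Y)‖ ^ 2 := pow_pos (norm_pos_iff.2 (act_spec (Gam_le hg) h).1) 2
  simp only [j1, norm_mul, mul_pow] at j2
  have j4 : 1 ≤ ‖dg (qi (lin A X1 + B) (lin A Y1)) 0‖ ^ 2 := (le_mul_iff_one_le_left j3).1 j2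
  have j5 : dg (qi (lin A X1 + B) (lin A Y1)) 0 =
      ((dg (lin A X1) 0 - n : ℚ) : ℝ) + ((dg (lin A Y1) 0 : ℚ) : ℝ) * Complex.I := by
    simp [qi, dg, toR, hB', ed, mkJ, mul_comm, sub_eq_add_neg]
  rw [j5, ← Complex.normSq_eq_norm_sq, Complex.normSq_add_mul_I] at j4
  have j6 : (1 : ℚ) ≤ (dg (lin A X1) 0 - n) ^ 2 + dg (lin A Y1) 0 ^ 2 := by exact_mod_cast j4
  have j7 : |dg (lin A X1) 0 - n| ≤ 1 / 2 := abs_sub_round _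
  have j8 : (0 : ℚ) < dg (lin A Y1) 0 := by
    have := (Sieg_sub hS).1
    rw [dg_toR] at this
    exact_mod_cast this
  rw [abs_le] at j7
  nlinarith [j7.1, j7.2]

end Pool.Agent.E7
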