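import Pool.Agent.Lib.MP_7e5527_ag.EO.DVT1

/-! A form that vanishes to high order is zero. -/

noncomputable section

namespace Pool.Agent.E7

theorem Trans.norm {Δ : Subgroup Gb} (hΔ : Δ ≤ Gam) {τ : Type} [Fintype τ] (R : Trans Δ τ) {k : ℤ}
    {F : Fn} (hi : Inv Δ k F) : Inv Gam (∑ _t : τ, k) (∏ t, sl k (R.rep t) F) := by
  intro g hg
  obtain ⟨σ, hσ⟩ := R.perm g hg
  rw [sl_prod (Gam_le hg), ← Equiv.prod_comp σ fun t => sl k (R.rep t) F]
  refine Finset.prod_congr rfl fun t _ => ?_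
  obtain ⟨δ, hδ, e⟩ := hσ t
  rw [← sl_mul k (Gam_le (R.mem t)) (Gam_le hg), e, sl_mul k (Gam_le (hΔ hδ)) (Gam_le (R.mem _)),
    hi δ hδ]

theorem gd_prod_zero {α : Type} (s : Finset α) {F : α → Fn} (hF : ∀ a, Gd (F a))
    (h : ∏ a ∈ s, F a = 0) : ∃ a, F a = 0 := by
  classical
  induction s using Finset.induction_on with
  | empty => exact absurd (congrFun h bpt) (by simp)
  | insert a s ha ih =>
    rw [Finset.prod_insert ha] at h
    exact ((hF a).mul_eq_zero (GQ.prod_mem fun b _ => hF b) h).elim (fun h => ⟨a, h⟩) ih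

theorem vt {p : ℕ} [Fact p.Prime] (e : ℂ_[p] ≃+* ℂ) {Δ : Subgroup Gb} (hΔ : Δ ≤ Gam)
    (hi : Δ.relIndex Gam ≠ 0) : ∃ μ : ℕ, ∀ (k : ℕ) (F : Fn), MF k F → Inv Δ k F →
      (∀ T, cf F T ≠ 0 → (μ * (k + 1) : ℚ) < tr T one3) → F = 0 := by
  classical
  obtain ⟨μ, hμ⟩ := vt1
  have h1 : Δ ⊓ Gam2 ≤ Gam := inf_le_left.trans hΔ
  obtain ⟨τ, _, ⟨R⟩⟩ := exists_trans h1 (Subgroup.relIndex_inf_ne_zero hi Gam2_index)
  refine ⟨μ * (260 * Fintype.card τ + 1), fun k F hF hI hs => ?_⟩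
  have hJ : Gd JacF := (mem_GZ.1 JacF_mem).1
  have h2 : MF (k + 260) (F * JacF ^ 2) := hF.mul JacF_m2.1
  have h3 : Inv (Δ ⊓ Gam2) (k + 260) (F * JacF ^ 2) :=
    (hI.mono inf_le_left).mul h1 (JacF_m2.2.mono inf_le_right)
  have h4 : ∀ t, Gd (sl (k + 260) (R.rep t) (F * JacF ^ 2)) := fun t => h2.1 _ (R.mem t)
  obtain ⟨t0, δ, hδ, e0⟩ := R.cover 1 (one_mem _)
  have h5 : sl (k + 260) (R.rep t0) (F * JacF ^ 2) = F * JacF ^ 2 :=
    h3 _ (by rw [eq_inv_of_mul_eq_one_right e0.symm]; exact inv_mem hδ)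
  have h6 := R.norm h1 h3
  have h7 : ∑ _t : τ, ((k : ℤ) + 260) = (Fintype.card τ * (k + 260) : ℕ) := by simp
  rw [h7] at h6
  have h8 : Gd (∏ t ∈ Finset.univ.erase t0, sl (k + 260) (R.rep t) (F * JacF ^ 2)) :=
    GQ.prod_mem fun t _ => h4 t
  have h9 := hμ _ _ (GQ.prod_mem fun t _ => h4 t) h6 fun T hT => by
    rw [← Finset.mul_prod_erase _ _ (Finset.mem_univ t0), h5] at hT
    generalize ∏ t ∈ Finset.univ.erase t0, sl (k + 260) (R.rep t) (F * JacF ^ 2) = G at h8 hT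
    refine ⟨fun i => ?_, ?_⟩
    · rw [show F * JacF ^ 2 * G = JacF * (F * JacF * G) by ring] at hT
      obtain ⟨S, s1, s2⟩ := hJ.supp_mul (GQ.mul_mem (GQ.mul_mem hF.gd hJ) h8) hT
      have s3 : dg (T - S) i = dg T i - dg S i := rfl
      linarith [br_pos (F := FF Thi) _ (fun a => by
        cases a with
        | none => exact ThF_mf.gd
        | some j => exact (Thi_spec j).2.gd) s1 i, s2.dg_nonneg i]
    · rw [mul_assoc] at hT
      obtain ⟨S, s1, s2⟩ := hF.gd.supp_mul (GQ.mul_mem (GQ.pow_mem hJ 2) h8) hT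
      have s3 := (abs_nonneg _).trans (s2.abs_le (.inl 0))
      have s4 := hs S s1
      have s5 : μ * (Fintype.card τ * (k + 260) + 1) ≤ μ * (260 * Fintype.card τ + 1) * (k + 1) := by
        rw [mul_assoc]
        exact Nat.mul_le_mul_left _ (by nlinarith)
      have s6 : ((μ * (Fintype.card τ * (k + 260) + 1) : ℕ) : ℚ) ≤
          (μ * (260 * Fintype.card τ + 1) * (k + 1) : ℕ) := Nat.cast_le.2 s5
      rw [tr_sub_left] at s3
      push_cast at s4 s6 ⊢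
      linarith
  obtain ⟨t, ht⟩ := gd_prod_zero _ h4 h9
  have h10 := sl_mul (k + 260) (Gam_le (R.mem t)) (Gam_le (inv_mem (R.mem t))) (F * JacF ^ 2)
  rw [mul_inv_cancel, sl_one, ht, sl_zero] at h10
  refine (hF.gd.mul_eq_zero (GQ.pow_mem hJ 2) h10).resolve_right fun h => ?_
  rw [sq] at h
  exact JacF_ne e ((hJ.mul_eq_zero hJ h).elim id id)

end Pool.Agent.E7
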