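import Pool.Agent.Lib.MP_7e5527_ag.EO.DCoef
import Pool.Agent.Lib.MP_7e5527_ag.EO.DPsd
import Pool.Agent.Lib.MP_7e5527_ag.EO.DSup

/-! A cusp form of level one that vanishes to high order is zero. -/

noncomputable section

namespace Pool.Agent.E7

/-- The invariant size. -/
def hsz (k : ℕ) (H : Fn) (Z : HH) : ℝ := ‖H Z‖ * Real.sqrt (nrm (imP Z)) ^ k

theorem hsz_act {k : ℕ} {H : Fn} (hi : Inv Gam k H) {γ : Gb} (hγ : γ ∈ Gam) (Z : HH) :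
    hsz k H (ofC (act γ Z)) = hsz k H Z := by
  have h1 := act_spec (Gam_le hγ) Z.2
  have h2 : H Z = jf γ Z ^ (-(k : ℤ)) * H (ofC (act γ Z)) := (congrFun (hi γ hγ) Z).symm
  have h3 : ‖jf γ Z‖ ≠ 0 := norm_ne_zero_iff.2 h1.1
  rw [hsz, hsz, coe_ofC h1.2.1, ← nrm_imP_act hγ Z.2, Real.sqrt_mul (sq_nonneg _),
    Real.sqrt_sq (norm_nonneg _), h2, norm_mul, norm_zpow, zpow_neg, zpow_natCast, mul_pow]
  field_simp

theorem hsz_le {k : ℕ} {H : Fn} (hH : Gd H) (Z : HH) {g : (Ix → ℚ) → ℝ} (hg : Summable g)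
    (g0 : ∀ T, 0 ≤ g T)
    (h : ∀ T, cf H T ≠ 0 → ‖cf H T * eT T Z‖ * Real.sqrt (nrm (imP Z)) ^ k ≤ g T) :
    hsz k H Z ≤ ∑' T, g T := by
  have h1 := (hH.spec.sum Z).mul_right ((Real.sqrt (nrm (imP Z)) ^ k : ℝ) : ℂ)
  have h2 : ∀ z : ℂ, ‖z * ((Real.sqrt (nrm (imP Z)) ^ k : ℝ) : ℂ)‖ =
      ‖z‖ * Real.sqrt (nrm (imP Z)) ^ k := fun z => by
    rw [norm_mul, Complex.norm_real, Real.norm_of_nonneg (by positivity)]
  rw [hsz, ← h2, ← h1.tsum_eq]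
  refine tsum_of_norm_bounded hg.hasSum fun T => ?_
  by_cases hT : cf H T = 0
  · simpa [hT] using g0 T
  · rw [h2]
    exact h T hT

theorem norm_eT_qi (T X Y : Ix → ℚ) :
    ‖eT T (qi X Y)‖ = Real.exp (-(2 * Real.pi * tr (toR ℝ T) (toR ℝ Y))) := by
  rw [norm_eT, ← imP_qi X Y]
  rfl

/-- It is enough to bound the size at reduced points. -/
theorem hsz_red {k : ℕ} {H : Fn} (hi : Inv Gam k H) {S : ℝ}
    (h : ∀ X Y, toR ℝ Y ∈ Sieg → 1 / 2 ≤ dg (toR ℝ Y) 0 → hsz k H (ofC (qi X Y)) ≤ S)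
    (X Y : Ix → ℚ) (hZ : qi X Y ∈ HH) : hsz k H (ofC (qi X Y)) ≤ S := by
  obtain ⟨γ, hγ, X', Y', e, h1, h2⟩ := reduce_qi hZ
  rw [← hsz_act hi hγ, coe_ofC hZ, e]
  refine h X' Y' h1 ?_
  have h3 : ((1 / 2 : ℚ) : ℝ) ≤ (dg Y' 0 : ℚ) := Rat.cast_le.2 h2
  rw [dg_toR]
  simpa using h3

theorem Inv.supp_Lam {k : ℤ} {H : Fn} (hi : Inv Gam k H) (hH : Gd H) {T : Ix → ℚ}
    (h : cf H T ≠ 0) : T ∈ Lam :=
  hH.spec.supp_Lam (fun _ hB => hi _ (nE_mem_Gam hB)) h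

theorem hsz_bdd {k : ℕ} {H : Fn} (hH : Gd H) (hi : Inv Gam k H)
    (hp : ∀ T, cf H T ≠ 0 → ∀ i, 0 < dg T i) :
    ∃ S : ℝ, ∀ X Y, qi X Y ∈ HH → hsz k H (ofC (qi X Y)) ≤ S := by
  have hπ := Real.pi_pos
  obtain ⟨C, hC, h1⟩ := psd_pow_le (2 * k) (e := Real.pi / 834) (by positivity)
  have h2 : qi 0 ((1 / 6000 : ℚ) • one3) ∈ HH := by
    rw [qi_mem, toR_smul, toR_one3]
    exact Om.smul one3_mem (by norm_num)
  refine ⟨_, hsz_red hi fun X Y hY h0 => hsz_le hH _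
    ((hH.spec.sum ⟨_, h2⟩).summable.norm.mul_left C) (fun T => by positivity) fun T hT => ?_⟩
  have h3 : qi X Y ∈ HH := qi_mem.2 (Sieg_sub hY)
  have h4 : ∀ i, 1 ≤ dg T i := fun i => by
    obtain ⟨n, hn⟩ := (hi.supp_Lam hH hT).1 i
    have h5 := hp T hT i
    rw [hn] at h5 ⊢
    exact_mod_cast h5
  have h5 := sieg_trace (hH.psd hT) hY h0
  have h6 := sieg_nrm (hH.psd hT) h4 hY
  have h7 : 0 ≤ tr (toR ℝ T) (toR ℝ Y) := hH.psd hT _ (Sieg_sub hY)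
  have h8 := h1 (834 * tr (toR ℝ T) (toR ℝ Y)) (by positivity)
  rw [coe_ofC h3, imP_qi, norm_mul, norm_mul, norm_eT_qi, norm_eT_qi, toR_smul, toR_one3,
    tr_smul_right, tr_toR_one3, mul_assoc, mul_left_comm C]
  refine mul_le_mul_of_nonneg_left ?_ (norm_nonneg _)
  calc _ ≤ Real.exp (-(2 * Real.pi * tr (toR ℝ T) (toR ℝ Y))) *
        (C * Real.exp (Real.pi / 834 * (834 * tr (toR ℝ T) (toR ℝ Y)))) := by
        refine mul_le_mul_of_nonneg_left (le_trans ?_ h8) (Real.exp_pos _).le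
        rw [pow_mul]
        exact pow_le_pow_left₀ (Real.sqrt_nonneg _) h6 k
    _ ≤ _ := by
        rw [mul_left_comm, ← Real.exp_add]
        refine mul_le_mul_of_nonneg_left (Real.exp_le_exp.2 ?_) hC
        push_cast
        nlinarith

theorem hsz_coef {k : ℕ} {H : Fn} (hH : Gd H) {S : ℝ}
    (h : ∀ X Y, qi X Y ∈ HH → hsz k H (ofC (qi X Y)) ≤ S) {Y : Ix → ℚ} (hY : toR ℝ Y ∈ Om)
    (T : Ix → ℚ) : ‖cf H T‖ * Real.exp (-(2 * Real.pi * tr (toR ℝ T) (toR ℝ Y))) *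
      Real.sqrt (nrm (toR ℝ Y)) ^ k ≤ S := by
  have h1 : 0 < Real.sqrt (nrm (toR ℝ Y)) ^ k := pow_pos (Real.sqrt_pos.2 hY.2.2) k
  rw [← le_div_iff₀ h1, ← norm_eT_qi T 0, ← norm_mul]
  refine hH.spec.coef_le ⟨qi 0 Y, qi_mem.2 hY⟩ (fun X => ?_) T
  have h2 := h (0 + X) Y (qi_mem.2 hY)
  rw [hsz, coe_ofC (qi_mem.2 hY), imP_qi] at h2
  rw [le_div_iff₀ h1, qi_add]
  exact h2

theorem vt1 : ∃ μ : ℕ, ∀ (k : ℕ) (H : Fn), Gd H → Inv Gam k H →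
    (∀ T, cf H T ≠ 0 → (∀ i, 0 < dg T i) ∧ (μ * (k + 1) : ℚ) < tr T one3) → H = 0 := by
  have hπ := Real.pi_pos
  obtain ⟨μ, hμ⟩ := tail_small (c := Real.pi / 3000) (by positivity)
  refine ⟨μ, fun k H hH hi hs => ?_⟩
  obtain ⟨u, u1, u2, u3, u4⟩ := hμ k
  obtain ⟨S0, h0⟩ := hsz_bdd hH hi fun T hT => (hs T hT).1
  have h1 : toR ℝ one3 ∈ Om := by
    rw [toR_one3]
    exact one3_mem
  let R : Set ℝ := {r | ∃ X Y, qi X Y ∈ HH ∧ r = hsz k H (ofC (qi X Y))}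
  have h2 : BddAbove R := ⟨S0, by rintro _ ⟨X, Y, h, rfl⟩; exact h0 X Y h⟩
  have h3 : ∀ X Y, qi X Y ∈ HH → hsz k H (ofC (qi X Y)) ≤ sSup R := fun X Y h =>
    le_csSup h2 ⟨X, Y, h, rfl⟩
  have h4 : 0 ≤ sSup R := le_trans (by rw [hsz]; positivity) (h3 0 one3 (qi_mem.2 h1))
  have h5 : sSup R ≤ ∑' T, 3 ^ k * sSup R * u T := by
    refine csSup_le ⟨_, 0, one3, qi_mem.2 h1, rfl⟩ ?_
    rintro _ ⟨X, Y, h, rfl⟩
    refine hsz_red hi (fun X Y hY hy => hsz_le hH _ (u1.mul_left _)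
      (fun T => mul_nonneg (by positivity) (u2 T)) fun T hT => ?_) X Y h
    have k1 : qi X Y ∈ HH := qi_mem.2 (Sieg_sub hY)
    have k2 : toR ℝ ((1 / 2 : ℚ) • Y) ∈ Om := by
      rw [toR_smul]
      exact Om.smul (Sieg_sub hY) (by norm_num)
    have k3 := hsz_coef hH h3 k2 T
    have k4 := sieg_trace (hH.psd hT) hY hy
    have k5 := u4 T (hi.supp_Lam hH hT) (hH.psd hT) (hs T hT).2
    have k6 : Real.sqrt (nrm (toR ℝ Y)) ≤ 3 * Real.sqrt (nrm (toR ℝ ((1 / 2 : ℚ) • Y))) := by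
      refine Real.sqrt_le_iff.2 ⟨by positivity, ?_⟩
      rw [mul_pow, Real.sq_sqrt k2.2.2.le, toR_smul, nrm_smul]
      push_cast
      linarith [(Sieg_sub hY).2.2]
    have k7 : Real.exp (-(2 * Real.pi * tr (toR ℝ T) (toR ℝ Y))) ≤
        Real.exp (-(2 * Real.pi * tr (toR ℝ T) (toR ℝ ((1 / 2 : ℚ) • Y)))) * u T := by
      refine le_trans ?_ (mul_le_mul_of_nonneg_left k5 (Real.exp_pos _).le)
      rw [← Real.exp_add, toR_smul, tr_smul_right]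
      refine Real.exp_le_exp.2 ?_
      push_cast
      nlinarith
    rw [coe_ofC k1, imP_qi, norm_mul, norm_eT_qi]
    calc _ ≤ ‖cf H T‖ * (Real.exp (-(2 * Real.pi * tr (toR ℝ T) (toR ℝ ((1 / 2 : ℚ) • Y)))) * u T) *
          (3 * Real.sqrt (nrm (toR ℝ ((1 / 2 : ℚ) • Y)))) ^ k := by
          have := u2 T
          gcongr
      _ = 3 ^ k * (‖cf H T‖ * Real.exp (-(2 * Real.pi * tr (toR ℝ T) (toR ℝ ((1 / 2 : ℚ) • Y)))) *
          Real.sqrt (nrm (toR ℝ ((1 / 2 : ℚ) • Y))) ^ k) * u T := by ring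
      _ ≤ _ := by
          have := u2 T
          gcongr
  rw [tsum_mul_left] at h5
  have h6 : sSup R ≤ 0 := by nlinarith
  refine hH.eq_zero fun T => norm_le_zero_iff.1 ?_
  have h7 := (hsz_coef hH h3 h1 T).trans h6
  rw [mul_assoc] at h7
  exact nonpos_of_mul_nonpos_left h7
    (mul_pos (Real.exp_pos _) (pow_pos (Real.sqrt_pos.2 h1.2.2) k))

end Pool.Agent.E7
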