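import Pool.Agent.Lib.MP_7e5527_ag.EO.LvG
import Pool.Agent.Lib.MP_7e5527_ag.EO.QOp

/-! Congruence subgroups, and the levels that are stable under `U` and `φ U`. -/

noncomputable section

namespace Pool.Agent.E7

/-- The principal congruence subgroup. -/
def GamN (N : ℕ) : Subgroup Gb where
  carrier := {γ | γ ∈ Gam ∧ ∀ v ∈ WZ, ∃ w ∈ WZ, γ v = v + (N : ℂ) • w}
  one_mem' := ⟨one_mem _, fun v _ => ⟨0, comm_mem.2 (zero_mem _), by simp⟩⟩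
  mul_mem' := fun {x y} hx hy => ⟨mul_mem hx.1 hy.1, fun v hv => by
    obtain ⟨w, hw, e⟩ := hy.2 v hv
    obtain ⟨w', hw', e'⟩ := hx.2 _ (WZ_map hy.1 hv)
    exact ⟨w + w', comm_add hw hw', by rw [LinearEquiv.mul_apply, e', e, smul_add, add_assoc]⟩⟩
  inv_mem' := fun {x} hx => ⟨inv_mem hx.1, fun v hv => by
    obtain ⟨w, hw, e⟩ := hx.2 _ (WZ_map (inv_mem hx.1) hv)
    rw [← LinearEquiv.mul_apply, mul_inv_cancel, LinearEquiv.coe_one, id] at e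
    refine ⟨0 - w, comm_sub (comm_mem.2 (zero_mem _)) hw, ?_⟩
    rw [zero_sub, smul_neg, ← sub_eq_add_neg, eq_sub_iff_add_eq]
    exact e.symm⟩

variable {p N N' : ℕ}

theorem GamN_le (N : ℕ) : GamN N ≤ Gam := fun _ h => h.1

theorem GamN_mono (h : N ∣ N') : GamN N' ≤ GamN N := fun γ hγ => ⟨hγ.1, fun v hv => by
  obtain ⟨k, rfl⟩ := h
  obtain ⟨w, hw, e⟩ := hγ.2 v hv
  exact ⟨_, comm_nsmul hw k, by rw [e, Nat.cast_mul, mul_smul]⟩⟩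

theorem GamN_den {g : Gb} (hg : g ∈ GG) {D D' : ℕ} (hD' : 0 < D')
    (h : ∀ v ∈ WZ, (D : ℂ) • g v ∈ WZ) (h' : ∀ v ∈ WZ, (D' : ℂ) • g⁻¹ v ∈ WZ) {γ : Gb}
    (hγ : γ ∈ GamN (D * D' * N)) : g * γ * g⁻¹ ∈ GamN N := by
  have h0 : (D' : ℂ) ≠ 0 := Nat.cast_ne_zero.2 hD'.ne'
  have key : ∀ γ ∈ GamN (D * D' * N), ∀ v ∈ WZ, ∃ w ∈ WZ, (g * γ * g⁻¹) v = v + (N : ℂ) • w := by
    intro γ hγ v hv
    obtain ⟨w, hw, e⟩ := hγ.2 _ (h' v hv)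
    refine ⟨_, h w hw, smul_right_injective _ h0 ?_⟩
    have e1 := congrArg g e
    rw [map_add, map_smul, map_smul, map_smul, map_smul, ← LinearEquiv.mul_apply g g⁻¹,
      mul_inv_cancel, LinearEquiv.coe_one, id] at e1
    simp only [LinearEquiv.mul_apply, e1]
    push_cast
    module
  have key' : ∀ γ ∈ GamN (D * D' * N), ∀ v ∈ WZ, (g * γ * g⁻¹) v ∈ WZ := fun γ hγ v hv => by
    obtain ⟨w, hw, e⟩ := key γ hγ v hv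
    exact e ▸ comm_add hv (comm_nsmul hw N)
  refine ⟨mem_Gam_of_WZ (mul_mem (mul_mem hg (Gam_le hγ.1)) (inv_mem hg)) fun v =>
    ⟨fun hv => ?_, key' γ hγ v⟩, key γ hγ⟩
  have h1 := key' _ (inv_mem hγ) _ hv
  rwa [← LinearEquiv.mul_apply, show g * γ⁻¹ * g⁻¹ * (g * γ * g⁻¹) = 1 by group] at h1

theorem GamN_conj {g γ : Gb} (hg : g ∈ Gam) (hγ : γ ∈ GamN N) : g * γ * g⁻¹ ∈ GamN N :=
  GamN_den (D := 1) (D' := 1) (Gam_le hg) one_pos (fun v hv => by simpa using WZ_map hg hv)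
    (fun v hv => by simpa using WZ_map (inv_mem hg) hv) (by simpa using hγ)

theorem GamN_GG {g : Gb} (hg : g ∈ GG) :
    ∃ M : ℕ, 0 < M ∧ ∀ N, ∀ γ ∈ GamN (M * N), g * γ * g⁻¹ ∈ GamN N := by
  obtain ⟨D, h0, h⟩ := exists_den_G hg
  obtain ⟨D', h0', h'⟩ := exists_den_G (inv_mem hg)
  exact ⟨D * D', mul_pos h0 h0', fun N γ hγ => GamN_den hg h0' h h' hγ⟩

theorem GamN_nE {M : ℕ} (hM : 0 < M) {B : Ix → ℚ} (hB : (M : ℚ) • B ∈ Lam) {γ : Gb}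
    (hγ : γ ∈ GamN (M ^ 3 * M ^ 3 * N)) : nE (toR ℂ B) * γ * (nE (toR ℂ B))⁻¹ ∈ GamN N := by
  have h0 : (M : ℚ) ≠ 0 := Nat.cast_ne_zero.2 hM.ne'
  have h0' : (M : ℂ) ≠ 0 := Nat.cast_ne_zero.2 hM.ne'
  have key : ∀ B : Ix → ℚ, (M : ℚ) • B ∈ Lam → ∀ v ∈ WZ,
      ((M ^ 3 : ℕ) : ℂ) • nE (toR ℂ B) v ∈ WZ := fun B hB v hv => by
    obtain ⟨x, hx, y, hy, z, hz, e⟩ := nE_expand hB hv
    have e1 := e (M : ℚ)⁻¹
    rw [inv_smul_smul₀ h0] at e1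
    have e2 : ((M ^ 3 : ℕ) : ℂ) • nE (toR ℂ B) v =
        ((M ^ 3 : ℕ) : ℂ) • v + ((M ^ 2 : ℕ) : ℂ) • x + (M : ℂ) • y + z := by
      rw [e1]
      push_cast
      match_scalars <;> field_simp
    rw [e2]
    exact comm_add (comm_add (comm_add (comm_nsmul hv _) (comm_nsmul hx _)) (comm_nsmul hy _)) hz
  refine GamN_den (nE_mem_GG B) (pow_pos hM 3) (key B hB) ?_ hγ
  rw [← nE_neg, ← toR_neg]
  exact key _ (by rw [smul_neg]; exact Lam.neg hB)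

theorem GamN_index (hN : 0 < N) : (GamN N).relIndex Gam ≠ 0 := by
  obtain ⟨Q, _, r, hr⟩ := comm_reps hN.ne'
  have : Nonempty Q := ⟨(hr 0 (comm_mem.2 (zero_mem _))).choose⟩
  choose! q b hb e using hr
  let f : Gam ⧸ (GamN N).subgroupOf Gam → Q → Q := fun x t => q ((x.out : Gb)⁻¹ (r t))
  have hf : Function.Injective f := by
    intro x y h
    rw [← x.out_eq', ← y.out_eq', QuotientGroup.eq, Subgroup.mem_subgroupOf]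
    refine ⟨(x.out⁻¹ * y.out : Gam).2, fun v hv => ?_⟩
    have h1 := WZ_map y.out.2 hv
    have h2 : r (q ((y.out : Gb) v)) ∈ WZ := e _ h1 ▸ comm_add h1 (comm_nsmul (hb _ h1) N)
    have h3 := WZ_map (inv_mem x.out.2) h2
    have h4 := WZ_map (inv_mem y.out.2) h2
    have h5 := (e _ h3).symm.trans ((congrArg r (congrFun h (q ((y.out : Gb) v)))).trans (e _ h4))
    refine ⟨_, comm_sub (comm_sub (comm_add (WZ_map (inv_mem y.out.2) (hb _ h1)) (hb _ h4))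
      (WZ_map (inv_mem x.out.2) (hb _ h1))) (hb _ h3), ?_⟩
    generalize b ((x.out : Gb)⁻¹ (r (q ((y.out : Gb) v)))) = b1 at h5
    generalize b ((y.out : Gb)⁻¹ (r (q ((y.out : Gb) v)))) = b2 at h5
    rw [e _ h1, map_add, map_add, map_smul, map_smul, ← LinearEquiv.mul_apply (y.out : Gb)⁻¹,
      inv_mul_cancel, LinearEquiv.coe_one, id] at h5
    change (x.out : Gb)⁻¹ ((y.out : Gb) v) = _
    linear_combination (norm := module) h5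
  have := Finite.of_injective f hf
  exact Subgroup.index_ne_zero_of_finite

theorem GamN_conj_GG {g : Gb} (hg : g ∈ GG) (hN : 0 < N) :
    ∃ N1 : ℕ, 0 < N1 ∧ N ∣ N1 ∧ ∀ γ ∈ GamN N1, g * γ * g⁻¹ ∈ GamN N := by
  obtain ⟨M, h0, h⟩ := GamN_GG hg
  exact ⟨M * N, mul_pos h0 hN, dvd_mul_left _ _, h N⟩

/-- The group generated by the principal congruence subgroup and the integral translations. -/
def Dp (N : ℕ) : Subgroup Gb where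
  carrier := {γ | ∃ B ∈ Lam, (nE (toR ℂ B))⁻¹ * γ ∈ GamN N}
  one_mem' := ⟨0, Lam.zero, by rw [toR_zero, nE_zero, inv_mul_cancel]; exact one_mem _⟩
  mul_mem' := fun {x y} ⟨B, hB, hx⟩ ⟨B', hB', hy⟩ => ⟨B + B', Lam.add hB hB', by
    have h := mul_mem (GamN_conj (inv_mem (nE_mem_Gam hB')) hx) hy
    rwa [show (nE (toR ℂ B'))⁻¹ * ((nE (toR ℂ B))⁻¹ * x) * (nE (toR ℂ B'))⁻¹⁻¹ *
      ((nE (toR ℂ B'))⁻¹ * y) = (nE (toR ℂ B) * nE (toR ℂ B'))⁻¹ * (x * y) by group, ← nE_add,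
      ← toR_add] at h⟩
  inv_mem' := fun {x} ⟨B, hB, hx⟩ => ⟨-B, Lam.neg hB, by
    have h := GamN_conj (nE_mem_Gam hB) (inv_mem hx)
    rwa [show nE (toR ℂ B) * ((nE (toR ℂ B))⁻¹ * x)⁻¹ * (nE (toR ℂ B))⁻¹ =
      (nE (toR ℂ B))⁻¹⁻¹ * x⁻¹ by group, ← nE_neg, ← toR_neg] at h⟩

/-- The elements of `Dp N` whose conjugate by the dilation of ratio `p` lies in `Dp N`. -/
def DD (p N : ℕ) : Subgroup Gb where
  carrier := {γ | γ ∈ Dp N ∧ ∀ m, IsM ((p : ℚ) • 1) (p ^ 3) m → m * γ * m⁻¹ ∈ Dp N}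
  one_mem' := ⟨one_mem _, fun m _ => by rw [mul_one, mul_inv_cancel]; exact one_mem _⟩
  mul_mem' := fun {x y} hx hy => ⟨mul_mem hx.1 hy.1, fun m hm => by
    have h := mul_mem (hx.2 m hm) (hy.2 m hm)
    rwa [show m * x * m⁻¹ * (m * y * m⁻¹) = m * (x * y) * m⁻¹ by group] at h⟩
  inv_mem' := fun {x} hx => ⟨inv_mem hx.1, fun m hm => by
    have h := inv_mem (hx.2 m hm)
    rwa [show (m * x * m⁻¹)⁻¹ = m * x⁻¹ * m⁻¹ by group] at h⟩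

theorem GamN_le_Dp (N : ℕ) : GamN N ≤ Dp N := fun γ h =>
  ⟨0, Lam.zero, by rwa [toR_zero, nE_zero, inv_one, one_mul]⟩

theorem nE_mem_Dp (N : ℕ) {B : Ix → ℚ} (hB : B ∈ Lam) : nE (toR ℂ B) ∈ Dp N :=
  ⟨B, hB, by rw [inv_mul_cancel]; exact one_mem _⟩

theorem Dp_le (N : ℕ) : Dp N ≤ Gam := fun _ ⟨_, hB, h⟩ =>
  (mul_mem_cancel_left (inv_mem (nE_mem_Gam hB))).1 h.1

theorem Dp_mono (h : N ∣ N') : Dp N' ≤ Dp N := fun _ ⟨B, hB, h1⟩ => ⟨B, hB, GamN_mono h h1⟩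

theorem DD_le_Dp (p N : ℕ) : DD p N ≤ Dp N := fun _ h => h.1

theorem DD_le (p N : ℕ) : DD p N ≤ Gam := (DD_le_Dp p N).trans (Dp_le N)

theorem DD_mono (h : N ∣ N') : DD p N' ≤ DD p N := fun _ h1 =>
  ⟨Dp_mono h h1.1, fun m hm => Dp_mono h (h1.2 m hm)⟩

theorem IsM.dil {m : Gb} (hp : 0 < p) (hm : IsM ((p : ℚ) • 1) (p ^ 3) m) (v : W) :
    m v = dil 1 p (p ^ 2) (p ^ 3) v := by
  have h0 : (p : ℚ) ≠ 0 := Nat.cast_ne_zero.2 hp.ne'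
  have h1 : (p : ℂ) ≠ 0 := Nat.cast_ne_zero.2 hp.ne'
  have e : ((p : ℚ) • (1 : Matrix Ix Ix ℚ))⁻¹ = (p : ℚ)⁻¹ • 1 :=
    Matrix.inv_eq_left_inv (by simp [smul_smul, h0])
  rw [hm, mfun, adjM_smul, adjM_one, e, lin_scalar, lin_scalar, E7.dil, one_mul, smul_smul]
  push_cast
  rw [show (p : ℂ) ^ 3 * (p : ℂ)⁻¹ = p ^ 2 by field_simp]

theorem nE_mem_DD (hp : 1 < p) (N : ℕ) {B : Ix → ℚ} (hB : B ∈ Lam) : nE (toR ℂ B) ∈ DD p N := by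
  refine ⟨nE_mem_Dp N hB, fun m hm => ?_⟩
  have h0 : (p : ℚ) ≠ 0 := Nat.cast_ne_zero.2 (by omega)
  have h := dil_nE hp (hm.dil (by omega)) ((p : ℚ) • B)
  rw [inv_smul_smul₀ h0] at h
  rw [← h, show ∀ x : Gb, m * (m⁻¹ * x * m) * m⁻¹ = x from fun x => by group]
  exact nE_mem_Dp N (Lam.nsmul hB p)

theorem dil_den (hp : 1 < p) {m : Gb} (hm : IsM ((p : ℚ) • 1) (p ^ 3) m) {v : W} (hv : v ∈ WZ) :
    ((1 : ℕ) : ℂ) • m v ∈ WZ ∧ ((p ^ 3 : ℕ) : ℂ) • m⁻¹ v ∈ WZ := by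
  have h0 : (p : ℂ) ≠ 0 := Nat.cast_ne_zero.2 (by omega)
  have s1 := dil_mem 1 p (p ^ 2) (p ^ 3) hv
  have s2 := dil_mem (p ^ 3) (p ^ 2) p 1 hv
  have s3 : (p : ℂ) ^ 3 • m⁻¹ v = dil ((p : ℂ) ^ 3) ((p : ℂ) ^ 2) p 1 v := by
    simp only [dil_inv hp (hm.dil (by omega)), dil, Prod.smul_mk, smul_eq_mul, Prod.mk.injEq]
    refine ⟨by ring, ?_, ?_, by field_simp⟩ <;> match_scalars <;> field_simp
  push_cast at s1 s2 ⊢
  rw [one_smul, hm.dil (by omega), s3]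
  exact ⟨s1, s2⟩

theorem GamN_le_DD (hp : 1 < p) (N : ℕ) : GamN (p ^ 3 * N) ≤ DD p N := fun γ h =>
  ⟨GamN_le_Dp N (GamN_mono (dvd_mul_left _ _) h), fun m hm => GamN_le_Dp N
    (GamN_den (hm.mem_GG (isSim_scalar (by exact_mod_cast (by omega : 0 < p)))) (by positivity)
      (fun _ hv => (dil_den hp hm hv).1) (fun _ hv => (dil_den hp hm hv).2) (by rwa [one_mul]))⟩

theorem Dp_index (hN : 0 < N) : (Dp N).relIndex Gam ≠ 0 := fun h =>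
  GamN_index hN (Subgroup.relIndex_eq_zero_of_le_left (GamN_le_Dp N) h)

theorem DD_index (hp : 1 < p) (hN : 0 < N) : (DD p N).relIndex Gam ≠ 0 := fun h =>
  GamN_index (N := p ^ 3 * N) (by positivity)
    (Subgroup.relIndex_eq_zero_of_le_left (GamN_le_DD hp N) h)

theorem gl (hp : 1 < p) (hN : 0 < N) (hd : p ∣ N) {m : Gb} (hm : IsM ((p : ℚ) • 1) (p ^ 3) m)
    {γ : Gb} (h : γ ∈ GamN N) : m⁻¹ * γ * m ∈ DD p N := by
  have hg := hm.mem_GG (isSim_scalar (by exact_mod_cast (by omega : 0 < p)))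
  have key : ∀ γ ∈ GamN N, ∀ v ∈ WZ, (m⁻¹ * γ * m) v ∈ WZ := fun γ h v hv => by
    obtain ⟨B, hB, h1⟩ := gl_aux hp hN hd (hm.dil (by omega)) h.1 h.2
    obtain ⟨w, hw, e⟩ := h1 v hv
    have h2 := WZ_map (nE_mem_Gam hB) (e ▸ comm_add hv (comm_nsmul hw N))
    rwa [← LinearEquiv.mul_apply, mul_inv_cancel_left] at h2
  have h1 : m⁻¹ * γ * m ∈ Gam := by
    refine mem_Gam_of_WZ (mul_mem (mul_mem (inv_mem hg) (Gam_le h.1)) hg) fun v =>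
      ⟨fun hv => ?_, key γ h v⟩
    have h1 := key _ (inv_mem h) _ hv
    rwa [← LinearEquiv.mul_apply, show m⁻¹ * γ⁻¹ * m * (m⁻¹ * γ * m) = 1 by group] at h1
  obtain ⟨B, hB, h2⟩ := gl_aux hp hN hd (hm.dil (by omega)) h.1 h.2
  refine ⟨⟨B, hB, mul_mem (inv_mem (nE_mem_Gam hB)) h1, h2⟩, fun m' hm' => ?_⟩
  obtain rfl : m' = m := LinearEquiv.ext fun v => (hm' v).trans (hm v).symm
  rw [show m' * (m'⁻¹ * γ * m') * m'⁻¹ = γ by group]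
  exact GamN_le_Dp N h

variable {k : ℤ} {F : Fn}

theorem inv_Dp (hZ : F ∈ GZ) (h : Inv (GamN N) k F) : Inv (Dp N) k F := by
  rintro γ ⟨B, hB, h1⟩
  rw [← mul_inv_cancel_left (nE (toR ℂ B)) γ, sl_mul k (nE_mem_GG B) (Gam_le h1.1),
    (mem_GZ.1 hZ).1.spec.sl_nE (mem_GZ.1 hZ).2 k hB, h _ h1]

theorem Inv.conj {Δ Δ' : Subgroup Gb} (hΔ : Δ ≤ Gam) (hΔ' : Δ' ≤ Gam) {g : Gb} (hg : g ∈ GG)
    (hc : ∀ γ ∈ Δ', g * γ * g⁻¹ ∈ Δ) (h : Inv Δ k F) : Inv Δ' k (sl k g F) := fun γ hγ => by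
  rw [← sl_mul k hg (Gam_le (hΔ' hγ)), ← inv_mul_cancel_right (g * γ) g,
    sl_mul k (Gam_le (hΔ (hc γ hγ))) hg, h _ (hc γ hγ)]

theorem opP_mem_GZ {A : Matrix Ix Ix ℚ} {c : ℚ} (hA : IsSim A c) (B : Ix → ℚ) (hF : Gd F)
    (h : ∀ T, cf F T ≠ 0 → lin (adjM A) T ∈ Lam) : opP A B F ∈ GZ := by
  have h1 := hF.spec.opP hA B
  refine mem_GZ.2 ⟨⟨_, h1⟩, fun T hT => ?_⟩
  rw [h1.cf_eq] at hT
  simpa only [lin_lin_inv (show IsUnit (adjM A).det from det_adjM A ▸ hA.1)] using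
    h _ (left_ne_zero_of_mul hT)

theorem clsF_mem_GZ {M : ℕ} (hM : 0 < M) (T0 : Ix → ℚ) (hZ : F ∈ GZ) : clsF M T0 F ∈ GZ := by
  refine mem_GZ.2 ⟨⟨_, (clsF_span (mem_GZ.1 hZ).1 hM T0).1⟩, fun T hT => (mem_GZ.1 hZ).2 T ?_⟩
  rw [cf_clsF (mem_GZ.1 hZ).1 hM, clc] at hT
  exact fun h => hT (by rw [h, ite_self])

theorem up_mem_GZ (hp : 0 < p) (hF : Gd F) : opP ((p : ℚ)⁻¹ • 1) 0 (clsF p 0 F) ∈ GZ := by
  refine opP_mem_GZ (isSim_scalar (inv_pos.2 (by exact_mod_cast hp))) 0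
    ⟨_, (clsF_span hF hp 0).1⟩ fun T hT => ?_
  rw [cf_clsF hF hp, clc, sub_zero] at hT
  rw [adjM_smul, adjM_one, lin_scalar, Rat.cast_id]
  exact by_contra fun h => hT (if_neg h)

theorem fr_mem_GZ (hp : 0 < p) (hZ : F ∈ GZ) : opP ((p : ℚ) • 1) 0 F ∈ GZ := by
  refine opP_mem_GZ (isSim_scalar (by exact_mod_cast hp)) 0 (mem_GZ.1 hZ).1 fun T hT => ?_
  rw [adjM_smul, adjM_one, lin_scalar, Rat.cast_id]
  exact Lam.nsmul ((mem_GZ.1 hZ).2 T hT) p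

theorem inv_up (hp : 1 < p) (hN : 0 < N) (hd : p ∣ N) (hZ : F ∈ GZ) (h : Inv (DD p N) k F) :
    Inv (Dp N) k (opP ((p : ℚ)⁻¹ • 1) 0 (clsF p 0 F)) := by
  have h0 : (0 : ℚ) < p := by exact_mod_cast (by omega : 0 < p)
  have hF := (mem_GZ.1 hZ).1
  refine inv_Dp (up_mem_GZ (by omega) hF) (inv_clsF hF (by omega) 0 _ fun B hB => ?_)
  obtain ⟨m, hm⟩ := exists_m (isSim_scalar h0)
  have hg := hm.mem_GG (isSim_scalar h0)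
  have e : ((p : ℚ) • (1 : Matrix Ix Ix ℚ))⁻¹ = (p : ℚ)⁻¹ • 1 :=
    Matrix.inv_eq_left_inv (by simp [smul_smul, h0.ne'])
  have h1 := dil_nE hp (hm.dil (by omega)) ((p : ℚ) • B)
  rw [inv_smul_smul₀ h0.ne'] at h1
  rw [← e, ← sl_nE_eq k, ← (hm.symm (isSim_scalar h0)).sl_eq k,
    ← sl_mul k (nE_mem_GG B) (inv_mem hg)]
  refine h.conj (DD_le p N) (GamN_le N) (mul_mem (nE_mem_GG B) (inv_mem hg)) fun γ hγ => ?_
  have h2 := gl hp hN hd hm (GamN_conj (nE_mem_Gam hB) hγ)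
  rwa [← h1, show ∀ x : Gb, m⁻¹ * x * m * m⁻¹ * γ * (m⁻¹ * x * m * m⁻¹)⁻¹ =
    m⁻¹ * (x * γ * x⁻¹) * m from fun x => by group]

theorem inv_fr (hp : 0 < p) (h : Inv (Dp N) k F) : Inv (DD p N) k (opP ((p : ℚ) • 1) 0 F) := by
  have h0 : (0 : ℚ) < p := by exact_mod_cast hp
  obtain ⟨m, hm⟩ := exists_m (isSim_scalar h0)
  rw [← hm.sl_eq k]
  exact h.conj (Dp_le N) (DD_le p N) (hm.mem_GG (isSim_scalar h0)) fun γ hγ => hγ.2 m hm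

theorem inv_deep {A : Matrix Ix Ix ℚ} {c : ℚ} (hA : IsSim A c) {M : ℕ} (hM : 0 < M) (hN : 0 < N) :
    ∃ N1 : ℕ, 0 < N1 ∧ N ∣ N1 ∧ ∀ (k : ℤ) (F : Fn) (T0 : Ix → ℚ), Gd F → Inv (GamN N) k F →
      Inv (GamN N1) k (opP A 0 (clsF M T0 F)) ∧ Inv (GamN N1) k (opP A 0 F) := by
  obtain ⟨m, hm⟩ := exists_m hA
  obtain ⟨N1, h1, h2, h3⟩ := GamN_conj_GG (N := M ^ 3 * M ^ 3 * N) (hm.mem_GG hA) (by positivity)
  refine ⟨N1, h1, (dvd_mul_left _ _).trans h2, fun k F T0 hF h => ⟨inv_clsF hF hM T0 _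
    fun B hB => ?_, ?_⟩⟩
  · rw [← sl_nE_eq k, ← hm.sl_eq k]
    exact (h.conj (GamN_le _) (GamN_le _) (nE_mem_GG B) fun γ hγ => GamN_nE hM hB hγ).conj
      (GamN_le _) (GamN_le _) (hm.mem_GG hA) h3
  · rw [← hm.sl_eq k]
    exact (h.mono (GamN_mono (dvd_mul_left _ _))).conj (GamN_le _) (GamN_le _) (hm.mem_GG hA) h3

end Pool.Agent.E7
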