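import Pool.Agent.Lib.MP_7e5527_ag.EO.Adj
import Pool.Agent.Lib.MP_7e5527_ag.E7.PsiM

/-! The norm of the gradient of a quotient of two forms is a form. -/

open Filter Topology

noncomputable section

namespace Pool.Agent.E7

/-- The norm of the gradient of `G / F`. -/
def NBF (F G : Fn) : Fn := MvPolynomial.aeval (fun l => F * dl l G - G * dl l F) Np

theorem sy_Gam {γ : Gb} (hγ : γ ∈ Gam) (v v' : W) : sy (γ v) (γ v') = sy v v' := by
  refine Gam_ind (p := fun g => ∀ v v', sy (g v) (g v') = sy v v') (fun B _ => sy_nE _) ?_ sy_w0E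
    (fun g _ g' _ h h' v v' => (h _ _).trans (h' v v')) γ hγ v v'
  intro A g hA hg v v'
  rw [hg, hg, sy_mfun 1 hA.1.1, Rat.cast_one, one_mul]

theorem nrm_fderiv {γ : Gb} (hγ : γ ∈ Gam) {Z : Ix → ℂ} (hZ : Z ∈ HH) (v : Ix → ℂ) :
    nrm (fderiv ℂ (act γ) Z v) = (jf γ Z ^ 2)⁻¹ * nrm v := by
  have hg := Gam_le hγ
  have h0 : HasDerivAt (fun t : ℂ => Z + t • v) v 0 := by
    simpa using ((hasDerivAt_id (0 : ℂ)).smul_const v).const_add Z
  have h1 : HasDerivAt (fun t : ℂ => act γ (Z + t • v)) (fderiv ℂ (act γ) Z v) 0 :=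
    (differentiableAt_act hg hZ).hasFDerivAt.comp_hasDerivAt_of_eq 0 h0 (by simp)
  have h2 : Continuous (nrm : (Ix → ℂ) → ℂ) := (polyFn_rr
    ((LinearMap.snd ℂ _ _).comp ((LinearMap.snd ℂ _ _).comp (LinearMap.snd ℂ _ _)))).differentiable.continuous
  have h3 : Tendsto (fun t : ℂ => Z + t • v) (𝓝[≠] 0) (𝓝 Z) := by
    simpa using h0.continuousAt.tendsto.mono_left nhdsWithin_le_nhds
  have h4 := ((((polyFn_jf γ).differentiable.continuous.tendsto Z).comp h3).const_mul (jf γ Z)).mul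
    ((h2.tendsto _).comp (hasDerivAt_iff_tendsto_slope_zero.1 h1))
  have h5 : jf γ Z * jf γ Z * nrm (fderiv ℂ (act γ) Z v) = nrm v := by
    refine tendsto_nhds_unique h4 (tendsto_const_nhds.congr' ?_)
    filter_upwards [h3.eventually (isOpen_HH.mem_nhds hZ), self_mem_nhdsWithin] with t ht h6
    have h7 : t ≠ 0 := h6
    have h8 := sy_Gam hγ (rr Z) (rr (Z + t • v))
    rw [(act_spec hg hZ).2.2, (act_spec hg ht).2.2, sy_smul, sy_rr, sy_rr, add_sub_cancel_left,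
      nrm_smul] at h8
    simp only [Function.comp_apply, zero_add, zero_smul, add_zero, nrm_smul]
    field_simp
    linear_combination -h8
  rw [← h5]
  field_simp [(act_spec hg hZ).1]

theorem nrm_tv_adj {L : (Ix → ℂ) →ₗ[ℂ] Ix → ℂ} (hL : LinearMap.det L ≠ 0) {c : ℂ} (hc : c ≠ 0)
    (h : ∀ v, nrm (L v) = c * nrm v) (ξ : Ix → ℂ) :
    nrm (tv fun i => ∑ l, ξ l * yc (L (toR ℂ (UU i))) l) = c * nrm (tv ξ) := by
  have h1 : ∀ η x : Ix → ℂ, tr (tv η) x = ∑ l, η l * yc x l := fun η x => by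
    rw [← pt_yc x, tr_tv_pt, yc_pt]
    rfl
  let g : (Ix → ℂ) →ₗ[ℂ] Ix → ℂ :=
    { toFun := fun y => tv fun i => tr y (L (toR ℂ (UU i)))
      map_add' := fun y y' => eq_of_tr fun x => by
        simp only [tr_add_left, h1, add_mul, Finset.sum_add_distrib]
      map_smul' := fun s y => eq_of_tr fun x => by
        simp only [tr_smul_left, h1, RingHom.id_apply, Finset.mul_sum, mul_assoc] }
  have h2 := sim_adj L g (LinearMap.equivOfDetNeZero L hL).surjective (fun x y => by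
    change _ = tr x (tv fun i => tr y (L (toR ℂ (UU i))))
    rw [tr_comm x, h1, tr_comm]
    conv_lhs => rw [← pt_yc x, pt, map_sum, tr_sum_right]
    simp only [map_smul, tr_smul_right, mul_comm]) hc h (tv ξ)
  simp only [← h1]
  exact h2

theorem NBF_apply (F G : Fn) (Z : HH) :
    NBF F G Z = 8 * nrm (tv fun l => F Z * dl l G Z - G Z * dl l F Z) := by
  rw [← aeval_Np]
  exact (MvPolynomial.map_aeval _ (Pi.evalRingHom (fun _ : HH => ℂ) Z) Np).trans (by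
    rw [MvPolynomial.aeval_eq_eval₂Hom]
    congr 2)

theorem tv_smul (c : ℂ) (ξ : Ix → ℂ) : tv (fun l => c * ξ l) = c • tv ξ := by
  simp only [tv, Finset.smul_sum, smul_smul]

theorem sl_NBF {γ : Gb} (hγ : γ ∈ Gam) (k : ℤ) {F G : Fn} (hF : IsHol F) (hG : IsHol G) :
    sl (6 * k + 2) γ (NBF F G) = NBF (sl k γ F) (sl k γ G) := by
  have hg := Gam_le hγ
  funext Z
  have hj := (act_spec hg Z.2).1
  have h1 : ∀ H, sl k γ H = sl k γ 1 * sl 0 γ H := fun H => by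
    rw [← sl_mul_fn k 0 hg, add_zero, one_mul]
  have h2 : IsHol (sl k γ 1) := IsHol.sl (mem_Hol.1 (one_mem Hol)) k hg
  have h3 : ∀ i, sl k γ F Z * dl i (sl k γ G) Z - sl k γ G Z * dl i (sl k γ F) Z =
      jf γ Z ^ (-k) * jf γ Z ^ (-k) * ∑ l, (F (ofC (act γ Z)) * dl l G (ofC (act γ Z)) -
        G (ofC (act γ Z)) * dl l F (ofC (act γ Z))) *
        yc (fderiv ℂ (act γ) Z (toR ℂ (UU i))) l := fun i => by
    rw [h1 F, h1 G, dl_mul h2 (hF.sl 0 hg), dl_mul h2 (hG.sl 0 hg)]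
    simp only [Pi.mul_apply, Pi.add_apply, slh_chain hg hF, slh_chain hg hG]
    simp only [sl, neg_zero, zpow_zero, one_mul, Pi.one_apply, mul_one, sub_mul, mul_assoc,
      Finset.sum_sub_distrib, ← Finset.mul_sum]
    ring
  obtain ⟨s, hs, hd⟩ := jac_det hγ
  have h4 := nrm_tv_adj (L := (fderiv ℂ (act γ) Z : (Ix → ℂ) →ₗ[ℂ] Ix → ℂ)) (by
    rw [hd _ Z.2]
    refine mul_ne_zero ?_ (zpow_ne_zero _ hj)
    rintro h0
    obtain rfl : s = 0 := by exact_mod_cast h0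
    simp at hs) (inv_ne_zero (pow_ne_zero 2 hj)) (nrm_fderiv hγ Z.2)
  simp only [ContinuousLinearMap.coe_coe] at h4
  rw [NBF_apply, funext h3, tv_smul, nrm_smul, h4, sl, NBF_apply, neg_add, zpow_add₀ hj,
    show -(6 * k) = -k * (6 : ℕ) by ring, zpow_mul, zpow_natCast, zpow_neg _ 2, zpow_ofNat]
  ring

theorem NBF_mem (𝒮 : Subalgebra ℂ Fn) (hd : ∀ i, ∀ F ∈ 𝒮, dl i F ∈ 𝒮) {F G : Fn} (hF : F ∈ 𝒮)
    (hG : G ∈ 𝒮) : NBF F G ∈ 𝒮 := by
  rw [NBF, MvPolynomial.aeval_def, MvPolynomial.eval₂_eq]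
  exact sum_mem fun _ _ => mul_mem (intCast_mem 𝒮 _) (prod_mem fun l _ =>
    pow_mem (sub_mem (mul_mem hF (hd l G hG)) (mul_mem hG (hd l F hF))) _)

theorem NBF_mf {k : ℤ} {F G : Fn} (hF : MF k F) (hG : MF k G) : MF (6 * k + 2) (NBF F G) :=
  mfs_two hF hG NBF (fun _ _ => NBF_mem GQ fun i _ h => GQ.dl_mem i h) fun _ hγ =>
    sl_NBF hγ k hF.gd.isHol hG.gd.isHol

theorem NBF_inv {Δ : Subgroup Gb} (hΔ : Δ ≤ Gam) {k : ℤ} {F G : Fn} (hF : MF k F) (hG : MF k G)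
    (iF : Inv Δ k F) (iG : Inv Δ k G) : Inv Δ (6 * k + 2) (NBF F G) := fun δ hδ => by
  rw [sl_NBF (hΔ hδ) k hF.gd.isHol hG.gd.isHol, iF δ hδ, iG δ hδ]

end Pool.Agent.E7
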