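import Pool.Agent.Lib.MP_7e5527_ag.EO.QR
import Pool.Agent.Lib.MP_7e5527_ag.EO.Lv1
import Pool.Agent.Lib.MP_7e5527_ag.EO.DMain
import Pool.Agent.Lib.MP_7e5527_ag.EO.NBm
import Pool.Agent.Lib.MP_7e5527_ag.EO.SH

/-! Classes of forms and frames. -/

open Filter Topology Polynomial Matrix

noncomputable section

namespace Pool.Agent.E7

variable {p : ℕ} [Fact p.Prime]

theorem lv2_div {e : ℂ_[p] ≃+* ℂ} {F : RQ e} (h : (TWE e).Dv F) :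
    ∃ (G : RQ e) (c : ℂ), (G : Fn) = c • (F : Fn) ∧ IntC G ∧ F = p * G := by
  have h0 : (p : ℂ_[p]) ≠ 0 := Nat.cast_ne_zero.2 (Fact.out : p.Prime).ne_zero
  refine ⟨(TWE e).cst (p : ℂ_[p])⁻¹ * F, _, (Algebra.smul_def (e (p : ℂ_[p])⁻¹) (F : Fn)).symm,
    (zi_iff _).1 fun T => (h T).imp fun n hn => ?_, ?_⟩
  · rw [TW.co_cst, hn, inv_mul_cancel_left₀ h0]
  · rw [← mul_assoc, ← map_natCast (TWE e).cst, ← map_mul, mul_inv_cancel₀ h0, map_one, one_mul]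

theorem lv2_up {e : ℂ_[p] ≃+* ℂ} {k : ℤ} {F : RQ e} (h : MF k F ∧ IntC F) :
    MF k ((TWE e).up F) ∧ IntC ((TWE e).up F) :=
  ⟨(h.1.clsF (Fact.out : p.Prime).pos 0).opP
    (isSim_scalar (inv_pos.2 (Nat.cast_pos.2 (Fact.out : p.Prime).pos))) 0,
    (zi_iff _).1 ((zi_iff F).2 h.2).up⟩

theorem lv2_fr {e : ℂ_[p] ≃+* ℂ} {k : ℤ} {F : RQ e} (h : MF k F ∧ IntC F) :
    MF k ((TWE e).fr F) ∧ IntC ((TWE e).fr F) :=
  ⟨TWE_fr F ▸ h.1.opP (isSim_nat (Fact.out : p.Prime).pos) 0,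
    (zi_iff _).1 (((zi_iff F).2 h.2).isg
      (isg_opR (isSim_nat (Fact.out : p.Prime).pos) (intS_scalar p)))⟩

/-- All integral forms. -/
def clW (e : ℂ_[p] ≃+* ℂ) (k0 : ℕ) : Cl (TWE e) where
  M a := {F | MF (a * k0) F ∧ IntC F}
  int _ F h := (zi_iff F).2 h.2
  one := ⟨by simpa using MF.one, (zi_iff _).1 TW.Zi.one⟩
  zero _ := ⟨MF.zero _, (zi_iff _).1 fun _ => ⟨0, by simp⟩⟩
  add _ F h G h' := ⟨h.1.add h'.1, (zi_iff _).1 (((zi_iff F).2 h.2).add ((zi_iff G).2 h'.2))⟩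
  neg _ F h := ⟨by simpa using h.1.smul (-1), (zi_iff _).1 ((zi_iff F).2 h.2).neg⟩
  mul _ _ F h G h' := ⟨by simpa [add_mul] using h.1.mul h'.1,
    (zi_iff _).1 (((zi_iff F).2 h.2).mul ((zi_iff G).2 h'.2))⟩
  div _ _ h hd := let ⟨G, c, h1, h2, h3⟩ := lv2_div hd; ⟨G, ⟨h1 ▸ h.1.smul c, h2⟩, h3⟩
  up _ _ h := lv2_up h
  frup _ _ h := lv2_fr (lv2_up h)

theorem lv2_mk {e : ℂ_[p] ≃+* ℂ} {k0 a : ℕ} {Δ : Subgroup Gb} {F : RQ e} (h : F ∈ (clW e k0).M a)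
    (hi : Inv Δ (a * k0) F) : MI Δ (a * k0) F ∧ IntC F := ⟨⟨h.1, hi⟩, h.2⟩

/-- The integral forms of level `DD p N` (`inv_up`, `inv_fr`). -/
def clN (e : ℂ_[p] ≃+* ℂ) (k0 : ℕ) {N : ℕ} (hN : 0 < N) (hp : p ∣ N) : Cl (TWE e) where
  M a := {F | MI (DD p N) (a * k0) F ∧ IntC F}
  int _ F h := (zi_iff F).2 h.2
  one := lv2_mk (clW e k0).one (by simpa using Inv.one _)
  zero a := lv2_mk ((clW e k0).zero a) (Inv.zero _ _)
  add a F h G h' := lv2_mk ((clW e k0).add a F ⟨h.1.1, h.2⟩ G ⟨h'.1.1, h'.2⟩) (h.1.2.add h'.1.2)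
  neg a F h := lv2_mk ((clW e k0).neg a F ⟨h.1.1, h.2⟩) (by simpa using h.1.2.smul (-1))
  mul a b F h G h' := lv2_mk ((clW e k0).mul a b F ⟨h.1.1, h.2⟩ G ⟨h'.1.1, h'.2⟩)
    (by simpa [add_mul] using h.1.2.mul (DD_le p N) h'.1.2)
  div _ _ h hd := let ⟨G, c, h1, h2, h3⟩ := lv2_div hd
    ⟨G, ⟨h1 ▸ ⟨h.1.1.smul c, h.1.2.smul c⟩, h2⟩, h3⟩
  up a F h := lv2_mk ((clW e k0).up a F ⟨h.1.1, h.2⟩)
    ((inv_up (Fact.out : p.Prime).one_lt hN hp F.2.2 h.1.2).mono (DD_le_Dp p N))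
  frup a F h := lv2_mk ((clW e k0).frup a F ⟨h.1.1, h.2⟩)
    (by rw [TWE_fr, TWE_up]
        exact inv_fr (Fact.out : p.Prime).pos (inv_up (Fact.out : p.Prime).one_lt hN hp F.2.2 h.1.2))

variable {e : ℂ_[p] ≃+* ℂ} {k0 N : ℕ}

theorem mem_clW {a : ℕ} {F : RQ e} : F ∈ (clW e k0).M a ↔ MF (a * k0) F ∧ IntC F := Iff.rfl

theorem mem_clN {hN : 0 < N} {hp : p ∣ N} {a : ℕ} {F : RQ e} :
    F ∈ (clN e k0 hN hp).M a ↔ MI (DD p N) (a * k0) F ∧ IntC F := Iff.rfl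

theorem clW_tow (e : ℂ_[p] ≃+* ℂ) (k0 : ℕ) : (clW e k0).Tow :=
  ⟨fun _ c _ hN F h => ⟨TWE_cs hN c F ▸ h.1.clsF hN _, (zi_iff _).1 (((zi_iff F).2 h.2).cs hN c)⟩,
    fun _ _ h => lv2_fr h⟩

theorem clN_sub (hN : 0 < N) (hp : p ∣ N) (a : ℕ) : (clN e k0 hN hp).M a ⊆ (clW e k0).M a :=
  fun _ h => ⟨h.1.1, h.2⟩

theorem clW_opR {A : Matrix Ix Ix ℚ} {c : ℚ} (hA : IsSim A c) (hZ : IntS A) (a : ℕ) :
    ∀ F ∈ (clW e k0).M a, opR e hA hZ 0 F ∈ (clW e k0).M a := fun F h =>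
  ⟨h.1.opP hA 0, (zi_iff _).1 (((zi_iff F).2 h.2).isg (isg_opR hA hZ))⟩

/-- `inv_deep` for the level `p ^ 3 * N`, `GamN_le_DD`, `inv_Dp`. -/
theorem clN_deep (hN : 0 < N) (hp : p ∣ N) {A A' : Matrix Ix Ix ℚ} {c c' : ℚ} (hA : IsSim A c)
    (hZ : IntS A) (hA' : IsSim A' c') (hZ' : IntS A') {M : ℕ} (hM : 0 < M) :
    ∃ (N1 : ℕ) (h1 : 0 < N1) (h2 : N ∣ N1), ∀ (e : ℂ_[p] ≃+* ℂ) (k0 a : ℕ),
      ∀ F ∈ (clN e k0 hN hp).M a, opR e hA' hZ' 0 F ∈ (clN e k0 h1 (hp.trans h2)).M a ∧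
        ∀ c0, opR e hA hZ 0 ((TWE e).cs M c0 F) ∈ (clN e k0 h1 (hp.trans h2)).M a := by
  have h0 := (Fact.out : p.Prime).one_lt
  obtain ⟨N1, h1, h2, H⟩ := inv_deep hA hM (N := p ^ 3 * N) (by positivity)
  obtain ⟨N2, h3, -, H'⟩ := inv_deep hA' hM (N := p ^ 3 * N) (by positivity)
  refine ⟨N1 * N2, by positivity, ((dvd_mul_left _ _).trans h2).mul_right _,
    fun e k0 a F h => ⟨lv2_mk (clW_opR hA' hZ' a F ⟨h.1.1, h.2⟩) ?_, fun c0 => lv2_mk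
      (clW_opR hA hZ a _ ((clW_tow e k0).cs M c0 a hM F ⟨h.1.1, h.2⟩)) ?_⟩⟩ <;>
    refine (inv_Dp (mem_RQ.1 (Subtype.property _)).2 ?_).mono (DD_le_Dp _ _)
  · exact (H' _ F 0 (RQ.gd F) (h.1.2.mono (GamN_le_DD h0 N))).2.mono (GamN_mono (dvd_mul_left _ _))
  · rw [opR_coe, TWE_cs hM]
    exact (H _ F _ (RQ.gd F) (h.1.2.mono (GamN_le_DD h0 N))).1.mono (GamN_mono (dvd_mul_right _ _))

theorem frm_mem (e : ℂ_[p] ≃+* ℂ) {k : ℤ} {G : Fn} (hG : MI Gam k G) (T0 : Ix → ℚ) :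
    clsF p T0 G ∈ RQ e :=
  (hG.1.clsF (Fact.out : p.Prime).pos T0).mem_RQ
    (clsF_mem_GZ (Fact.out : p.Prime).pos T0 (hG.mem_GZ fun _ hB => nE_mem_Gam hB))

theorem lv2b_int {G : Fn} (h : Gd G) (hG : IntC G) {M : ℕ} (hM : 0 < M) (T0 : Ix → ℚ) :
    IntC (clsF M T0 G) := fun T => by
  rw [cf_clsF h hM, clc]
  split_ifs
  exacts [hG T, ⟨0, by simp⟩]

theorem lv2b_sup {G : Fn} (h : Gd G) (c : Ix → ℤ) {T0 : Ix → ℚ} (hc : T0 = vec c)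
    (hm : clsF p T0 G ∈ RQ e) : (TWE e).Sup p c ⟨clsF p T0 G, hm⟩ := fun m h1 => by
  subst hc
  rw [TWE_co] at h1
  change e.symm (cf (clsF p (vec c) G) (vec m)) ≠ 0 at h1
  rw [cf_clsF h (Fact.out : p.Prime).pos, clc_vec (Fact.out : p.Prime).pos] at h1
  exact by_contra fun h2 => h1 (by
    rw [if_neg (show ¬ ∀ i, (p : ℤ) ∣ m i - c i from h2), map_zero])

/-- The frame made of class sums of forms of level one. -/
def frm (e : ℂ_[p] ≃+* ℂ) {k0 : ℕ} (G : Option Ix → Fn) (hG : ∀ o, MI Gam k0 (G o) ∧ IntC (G o)) :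
    Fr (TWE e) where
  e0 := ⟨clsF p (oT none) (G none), frm_mem e (hG _).1 _⟩
  e i := ⟨clsF p (oT (some i)) (G (some i)), frm_mem e (hG _).1 _⟩
  int0 := (zi_iff _).2 (lv2b_int (hG _).1.1.gd (hG _).2 (Fact.out : p.Prime).pos _)
  int _ := (zi_iff _).2 (lv2b_int (hG _).1.1.gd (hG _).2 (Fact.out : p.Prime).pos _)
  sup0 := lv2b_sup (hG _).1.1.gd 0 vec_zero.symm _
  sup i := lv2b_sup (hG _).1.1.gd _ (vec_single i).symm _

variable {G : Option Ix → Fn} (hG : ∀ o, MI Gam k0 (G o) ∧ IntC (G o))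

theorem frm_oe (o : Option Ix) : ((frm e G hG).oe o : Fn) = clsF p (oT o) (G o) := by
  cases o <;> rfl

/-- The level `N` is deep enough for all frames. -/
def Deep (p N : ℕ) : Prop := ∀ (k : ℤ) (G : Fn) (T0 : Ix → ℚ), MI Gam k G →
  Inv (GamN N) k (clsF p T0 G)

/-- `inv_deep` with `A = 1`, `M = p`, `N = 1`. -/
theorem exists_deep (p : ℕ) [Fact p.Prime] : ∃ N : ℕ, 0 < N ∧ p ∣ N ∧ Deep p N := by
  have hp := (Fact.out : p.Prime).pos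
  obtain ⟨N1, h1, -, h2⟩ := inv_deep IsSim.one hp one_pos
  refine ⟨p * N1, by positivity, dvd_mul_right _ _, fun k G T0 hG => ?_⟩
  have h3 := (h2 k G T0 hG.1.gd (hG.2.mono (GamN_le 1))).1
  rw [opP_one] at h3
  exact h3.mono (GamN_mono (dvd_mul_left _ _))

theorem Deep.mono {N' : ℕ} (h : Deep p N) (h' : N ∣ N') : Deep p N' :=
  fun k G T0 hG => (h k G T0 hG).mono (GamN_mono h')

theorem lv2b_mf (o : Option Ix) : MF k0 ((frm e G hG).oe o) := by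
  rw [frm_oe]
  exact (hG o).1.1.clsF (Fact.out : p.Prime).pos _

theorem frm_mi (hD : Deep p N) (o : Option Ix) : MI (Dp N) k0 ((frm e G hG).oe o) := by
  refine ⟨lv2b_mf hG o, inv_Dp ((frm e G hG).oe o).2.2 ?_⟩
  rw [frm_oe]
  exact hD _ _ _ (hG o).1

theorem frm_int (o : Option Ix) : IntC ((frm e G hG).oe o) := by
  rw [frm_oe]
  exact lv2b_int (hG o).1.1.gd (hG o).2 (Fact.out : p.Prime).pos _

/-- Relations between functions are relations in the ring. -/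
theorem Fr.rl_of {E : Fr (TWE e)} {k : Type} [CommRing k] (k1 : k →+* RQ e) (k2 : k →+* Fn)
    (hk : ∀ c, (k1 c : Fn) = k2 c) {a : ℕ} {F : RQ e} {P : (MvPolynomial (Option Ix) k)[X]}
    (h0 : P ≠ 0) (h1 : WH a P)
    (h2 : P.eval₂ (MvPolynomial.eval₂Hom k2 fun o => (E.oe o : Fn)) F = 0) : E.Rl k1 a F P := by
  refine ⟨h0, h1, Subtype.ext ?_⟩
  have h3 := Polynomial.hom_eval₂ P (MvPolynomial.eval₂Hom k1 E.oe) (RQ e).val.toRingHom F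
  have h4 : (RQ e).val.toRingHom.comp (MvPolynomial.eval₂Hom k1 E.oe) =
      MvPolynomial.eval₂Hom k2 fun o => (E.oe o : Fn) := by
    refine MvPolynomial.ringHom_ext (fun c => ?_) fun o => ?_
    · rw [RingHom.comp_apply, MvPolynomial.eval₂Hom_C, MvPolynomial.eval₂Hom_C]
      exact hk c
    · rw [RingHom.comp_apply, MvPolynomial.eval₂Hom_X', MvPolynomial.eval₂Hom_X']
      rfl
  rw [h4] at h3
  exact h3.trans h2

theorem lv2b_cast (c : ℤ) : ((Int.castRingHom (RQ e) c : RQ e) : Fn) = Int.castRingHom Fn c := by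
  rw [eq_intCast, eq_intCast]
  exact map_intCast (RQ e).val c

theorem lv2b_one (k0 : ℕ) : (((1 : ℕ) : ℤ) * k0) = k0 := by rw [Nat.cast_one, one_mul]

theorem lv2b_W (o : Option Ix) : (frm e G hG).oe o ∈ (clW e k0).M 1 :=
  mem_clW.2 ⟨by rw [lv2b_one]; exact lv2b_mf hG o, frm_int hG o⟩

/-- `gfh` for the common stabiliser of `F` and of the frame (`stabF`, `stabF_index`). -/
theorem ad_W : Ad (clW e k0) (frm e G hG) := by
  refine ⟨lv2b_W hG none, fun i => lv2b_W hG (some i),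
    (clW_tow e k0).fr 1 _ (lv2b_W hG none), fun i => (clW_tow e k0).fr 1 _ (lv2b_W hG (some i)),
    fun a F hF => ?_⟩
  obtain ⟨h1, h2⟩ := mem_clW.1 hF
  obtain ⟨D0, hD0⟩ := gfh e (Δ := stabF k0 (fun o => ((frm e G hG).oe o : Fn)) ⊓
      stabF (a * k0) (fun _ : Unit => (F : Fn))) (inf_le_left.trans (stabF_le _ _))
    (Subgroup.relIndex_inf_ne_zero (stabF_index _ _ fun o => (lv2b_mf hG o).2)
      (stabF_index _ _ fun _ => h1.2)) k0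
  obtain ⟨P, p1, p2, -, p3⟩ := (hD0 (fun o => ((frm e G hG).oe o : Fn)) a F
    (fun o => ⟨lv2b_mf hG o, fun δ hδ => hδ.1.2 o, ((frm e G hG).oe o).2.2⟩) h1
    (fun δ hδ => hδ.2.2 ()) F.2.2).2 (frm_int hG) h2
  exact ⟨P, Fr.rl_of _ _ lv2b_cast p1 p2 p3⟩

theorem bdeg_N (hN : 0 < N) (hp : p ∣ N) (hD : Deep p N) :
    BDeg (clN e k0 hN hp) (frm e G hG) := by
  obtain ⟨D0, hD0⟩ := gfh e (DD_le p N) (DD_index (Fact.out : p.Prime).one_lt hN) k0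
  refine ⟨D0, fun a F hF => ?_⟩
  obtain ⟨h1, h2⟩ := mem_clN.1 hF
  obtain ⟨P, p1, p2, p4, p3⟩ := (hD0 (fun o => ((frm e G hG).oe o : Fn)) a F
    (fun o => ⟨lv2b_mf hG o, (frm_mi hG hD o).2.mono (DD_le_Dp p N), ((frm e G hG).oe o).2.2⟩)
    h1.1 h1.2 F.2.2).2 (frm_int hG) h2
  exact ⟨P, Fr.rl_of _ _ lv2b_cast p1 p2 p3, p4⟩

theorem lv2b_comb (E : Fr (TWE e)) (lam : Ix → ℤ) :
    ((∑ i, (lam i : RQ e) * E.e i : RQ e) : Fn) = ∑ i, (lam i : ℂ) • (E.e i : Fn) := by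
  rw [AddSubmonoidClass.coe_finsetSum]
  refine Finset.sum_congr rfl fun i _ => (map_mul (RQ e).val (lam i : RQ e) (E.e i)).trans ?_
  rw [map_intCast, Algebra.smul_def, map_intCast]
  rfl

theorem NB_coe (E : Fr (TWE e)) (lam : Ix → ℤ) :
    (E.NB lam : Fn) = NBF E.e0 (∑ i, (lam i : ℂ) • (E.e i : Fn)) := by
  rw [← lv2b_comb, NBF, Fr.NB]
  refine (MvPolynomial.map_aeval _ (RQ e).val.toRingHom Np).trans ?_
  rw [MvPolynomial.aeval_eq_eval₂Hom]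
  congr 2

theorem lv2b_nb_zi (E : Fr (TWE e)) (lam : Ix → ℤ) : (TWE e).Zi (E.NB lam) := by
  change E.NB lam ∈ (TWE e).ZR
  have h0 : E.e0 ∈ (TWE e).ZR := E.int0
  have h1 : (∑ i, (lam i : RQ e) * E.e i : RQ e) ∈ (TWE e).ZR :=
    sum_mem fun i _ => mul_mem (intCast_mem _ _) (E.int i)
  rw [Fr.NB, MvPolynomial.aeval_def, MvPolynomial.eval₂_eq]
  exact sum_mem fun _ _ => mul_mem (intCast_mem _ _) (prod_mem fun l _ => pow_mem
    (sub_mem (mul_mem h0 (TW.Zi.del h1 l)) (mul_mem h1 (TW.Zi.del h0 l))) _)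

theorem lv2b_N (hN : 0 < N) (hp : p ∣ N) (hD : Deep p N) (o : Option Ix) :
    (frm e G hG).oe o ∈ (clN e k0 hN hp).M 1 ∧
      (TWE e).fr ((frm e G hG).oe o) ∈ (clN e k0 hN hp).M 1 := by
  have h1 := frm_mi (e := e) hG hD o
  have h2 := mem_clW.1 ((clW_tow e k0).fr 1 _ (lv2b_W hG o))
  refine ⟨mem_clN.2 ⟨?_, frm_int hG o⟩, mem_clN.2 ⟨⟨h2.1, ?_⟩, h2.2⟩⟩ <;> rw [lv2b_one]
  · exact ⟨h1.1, h1.2.mono (DD_le_Dp p N)⟩
  · exact inv_fr (Fact.out : p.Prime).pos h1.2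

/-- `NBF_mf`, `NBF_inv`; `r * (6 * k0 + 2) = (6 * r + 1) * k0`. -/
theorem ad3_N (hN : 0 < N) (hp : p ∣ N) (hD : Deep p N) {r : ℕ} (hr : 0 < r) (hk : k0 = 2 * r) :
    Ad3 (clN e k0 hN hp) (frm e G hG) := by
  refine ⟨⟨(lv2b_N hG hN hp hD none).1, fun i => (lv2b_N hG hN hp hD (some i)).1,
    (lv2b_N hG hN hp hD none).2, fun i => (lv2b_N hG hN hp hD (some i)).2,
    fun a F hF => (ad_W hG).alg a F (clN_sub hN hp a hF)⟩, r, hr, fun lam => mem_clN.2 ⟨?_, ?_⟩⟩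
  · have h1 : ∀ o, MI (DD p N) k0 ((frm e G hG).oe o) := fun o =>
      ⟨lv2b_mf hG o, (frm_mi hG hD o).2.mono (DD_le_Dp p N)⟩
    have h2 : ∀ j, MI (DD p N) (6 * k0 + 2) ((frm e G hG).NB (lam j)) := fun j => by
      have a1 : MF k0 (∑ i, (lam j i : ℂ) • ((frm e G hG).e i : Fn)) :=
        MF.sum _ fun i _ => (h1 (some i)).1.smul _
      have a2 : Inv (DD p N) k0 (∑ i, (lam j i : ℂ) • ((frm e G hG).e i : Fn)) :=
        Inv.sum _ fun i _ => (h1 (some i)).2.smul _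
      rw [NB_coe]
      exact ⟨NBF_mf (h1 none).1 a1, NBF_inv (DD_le p N) (h1 none).1 a1 (h1 none).2 a2⟩
    have h3 : (((6 * r + 1 : ℕ) : ℤ) * k0) = ∑ _j : Fin r, (6 * (k0 : ℤ) + 2) := by
      rw [Finset.sum_const, Finset.card_univ, Fintype.card_fin, nsmul_eq_mul, hk]
      push_cast
      ring
    have h4 : ((∏ j, (frm e G hG).NB (lam j) : RQ e) : Fn) =
        ∏ j, ((frm e G hG).NB (lam j) : Fn) := map_prod (RQ e).val _ _
    rw [h3, h4]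
    exact ⟨MF.prod _ fun j _ => (h2 j).1, Inv.prod (DD_le p N) _ fun j _ => (h2 j).2⟩
  · refine (zi_iff _).1 ?_
    change _ ∈ (TWE e).ZR
    exact prod_mem fun j _ => lv2b_nb_zi _ _

/-- `gfh` over `ℂ`, moved to `ℂ_[p]` by `e.symm`. -/
theorem kl_N (hN : 0 < N) (hD : Deep p N) : ∃ D0 : ℕ,
    (frm e G hG).Kl (TWE e).cst (fun a => {F | MI (DD p N) (a * k0) F}) D0 := by
  obtain ⟨D0, hD0⟩ := gfh e (DD_le p N) (DD_index (Fact.out : p.Prime).one_lt hN) k0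
  have h1 : ∀ o, MI (DD p N) k0 ((frm e G hG).oe o) := fun o =>
    ⟨lv2b_mf hG o, (frm_mi hG hD o).2.mono (DD_le_Dp p N)⟩
  refine ⟨D0, fun c => ⟨c, rfl⟩, fun a => ⟨MF.zero _, Inv.zero _ _⟩,
    fun a F hF F' hF' => ⟨MF.add hF.1 hF'.1, Inv.add hF.2 hF'.2⟩, fun a F hF => ?_,
    fun a n F hF => ?_, fun a F hF => ?_⟩
  · change MI (DD p N) (((a + 1 : ℕ) : ℤ) * k0) ((F : Fn) * ((frm e G hG).oe none : Fn))
    rw [Nat.cast_succ, add_mul, one_mul]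
    exact MI.mul (DD_le p N) hF (h1 none)
  · have h2 : (((n : RQ e) * F : RQ e) : Fn) = (n : ℂ) • (F : Fn) := by
      refine (map_mul (RQ e).val _ _).trans ?_
      rw [map_intCast, Algebra.smul_def, map_intCast]
      rfl
    change MI (DD p N) _ (((n : RQ e) * F : RQ e) : Fn)
    rw [h2]
    exact ⟨MF.smul hF.1 _, Inv.smul hF.2 _⟩
  · obtain ⟨P, p1, p2, p4, p3⟩ := (hD0 (fun o => ((frm e G hG).oe o : Fn)) a F
      (fun o => ⟨(h1 o).1, (h1 o).2, ((frm e G hG).oe o).2.2⟩) hF.1 hF.2 F.2.2).1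
    have hi : Function.Injective (MvPolynomial.map (σ := Option Ix) e.symm.toRingHom) :=
      MvPolynomial.map_injective _ e.symm.injective
    refine ⟨P.map (MvPolynomial.map e.symm.toRingHom),
      Fr.rl_of _ ((algebraMap ℂ Fn).comp e.toRingHom) (fun c => rfl)
        ((Polynomial.map_ne_zero_iff hi).2 p1) ?_ ?_, natDegree_map_le.trans p4⟩
    · obtain ⟨L, hL⟩ := p2
      refine ⟨L, fun j hj => ?_⟩
      rw [Polynomial.coeff_map] at hj ⊢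
      obtain ⟨d, d1, d2⟩ := hL j fun h0 => hj (by rw [h0, map_zero])
      exact ⟨d, d1, d2.map _⟩
    · rw [Polynomial.eval₂_map, ← p3]
      congr 1
      refine MvPolynomial.ringHom_ext (fun c => ?_) fun o => ?_
      · rw [RingHom.comp_apply, MvPolynomial.map_C, MvPolynomial.eval₂Hom_C,
          MvPolynomial.eval₂Hom_C, RingHom.comp_apply]
        exact congrArg _ (e.apply_symm_apply c)
      · rw [RingHom.comp_apply, MvPolynomial.map_X, MvPolynomial.eval₂Hom_X',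
          MvPolynomial.eval₂Hom_X']

variable {χ : Fn → ℂ_[p]} {χb : CQ e →+* ℂ_[p]} {A : Matrix Ix Ix ℚ} {c : ℚ}

theorem lv2b_ch (h : Ext e χ χb) (hA : IsSim A c) (B : Ix → ℚ) (o : Option Ix) :
    chAB χb hA B ((frm e G hG).oe o) = χ (opP A B (clsF p (oT o) (G o))) := by
  rw [chAB_eq h hA B (lv2b_mf hG o), frm_oe]

theorem frm_gp (h : Ext e χ χb) (hA : IsSim A c) (B : Ix → ℚ)
    (hu : ∀ o, ‖χ (opP A B (clsF p (oT o) (G o)))‖ = 1) : (frm e G hG).Gp (chAB χb hA B) := by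
  have h1 : ∀ o, IsU (chAB χb hA B ((frm e G hG).oe o)) := fun o => by
    rw [lv2b_ch hG h]
    exact (isU_iff (hu o).le).2 (hu o)
  exact ⟨chAB_ch h hA B, h1 none, fun i => h1 (some i)⟩

theorem frm_xc (h : Ext e χ χb) (hA : IsSim A c) (B : Ix → ℚ) (i : Ix) :
    (frm e G hG).xc (chAB χb hA B) i =
      χ (opP A B (clsF p (oT (some i)) (G (some i)))) / χ (opP A B (clsF p (oT none) (G none))) := by
  rw [← lv2b_ch hG h hA B, ← lv2b_ch hG h hA B, div_eq_mul_inv, Fr.xc, Fr.nz, pow_one,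
    Ring.inverse_eq_inv']
  rfl

end Pool.Agent.E7
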