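import Pool.Agent.Lib.MP_7e5527_ag.E7.Comm

/-! Conjugation of a principal congruence subgroup by the dilation of ratio `p`. -/

noncomputable section

namespace Pool.Agent.E7

/-- The components of `v` are multiplied by four scalars. -/
def dil (a b c d : ℂ) (v : W) : W := (a * v.1, b • v.2.1, c • v.2.2.1, d * v.2.2.2)

theorem dil_mem (a b c d : ℤ) {v : W} (h : v ∈ WZ) : dil a b c d v ∈ WZ := by
  obtain ⟨⟨n, hn⟩, ⟨T, hT, e⟩, ⟨T', hT', e'⟩, m, hm⟩ := h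
  refine ⟨⟨a * n, ?_⟩, ⟨_, Lam.zsmul hT b, ?_⟩, ⟨_, Lam.zsmul hT' c, ?_⟩, d * m, ?_⟩
  · simp [dil, hn]
  · simp [dil, e, toR_smul]
  · simp [dil, e', toR_smul]
  · simp [dil, hm]

theorem WZ_zsmul (a : ℤ) {v : W} (h : v ∈ WZ) : (a : ℂ) • v ∈ WZ := dil_mem a a a a h

theorem dil_smul (a b c d s : ℂ) (v : W) : dil a b c d (s • v) = s • dil a b c d v := by
  simp only [dil, Prod.smul_fst, Prod.smul_snd, Prod.smul_mk, smul_eq_mul, smul_comm s,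
    mul_left_comm s]

theorem nE_expand {B : Ix → ℚ} (hB : B ∈ Lam) {v : W} (hv : v ∈ WZ) : ∃ x ∈ WZ, ∃ y ∈ WZ, ∃ z ∈ WZ,
    ∀ s : ℚ, nE (toR ℂ (s • B)) v = v + (s : ℂ) • x + (s : ℂ) ^ 2 • y + (s : ℂ) ^ 3 • z := by
  obtain ⟨a, b, c, d⟩ := v
  obtain ⟨⟨n, hn⟩, ⟨T, hT, e⟩, ⟨T', hT', e'⟩, m, hm⟩ := hv
  dsimp only at hn e e' hm
  subst hn e e' hm
  obtain ⟨k1, h1⟩ := Lam.tr_int hT' hB
  obtain ⟨k2, h2⟩ := Lam.tr_int hT (Lam.sharp_mem hB)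
  obtain ⟨k3, h3⟩ := Lam.nrm_int hB
  refine ⟨_, kr_mk (n := 0) (m := k1) (Lam.zsmul hB n) (Lam.cross_mem hT hB),
    _, kr_mk (n := 0) (m := k2) Lam.zero (Lam.zsmul (Lam.sharp_mem hB) n),
    _, kr_mk (n := 0) (m := n * k3) Lam.zero Lam.zero, fun s => ?_⟩
  simp only [nE_apply, nfun, toR_smul, cross_smul_right, sharp_smul, tr_smul_right, nrm_smul,
    cross_toR, sharp_toR, tr_toR, nrm_toR, h1, h2, h3, toR_zero, Prod.smul_mk, Prod.mk_add_mk,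
    smul_eq_mul, Prod.mk.injEq]
  push_cast
  refine ⟨by ring, by module, by module, by ring⟩

/-- Integral at `p`. -/
def LocZ (p : ℕ) (v : W) : Prop := ∃ u : ℤ, IsCoprime u p ∧ (u : ℂ) • v ∈ WZ

/-- Congruent to the identity modulo `N`, at `p`. -/
def CnL (p N : ℕ) (g : Gb) : Prop := ∀ v ∈ WZ, ∃ y, LocZ p y ∧ g v = v + (N : ℂ) • y

variable {p N : ℕ}

theorem LocZ.of {v : W} (h : v ∈ WZ) : LocZ p v := ⟨1, isCoprime_one_left, by simpa using h⟩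

theorem LocZ.add {v w : W} (h : LocZ p v) (h' : LocZ p w) : LocZ p (v + w) := by
  obtain ⟨u, h1, h2⟩ := h
  obtain ⟨u', h3, h4⟩ := h'
  refine ⟨u * u', h1.mul_left h3, ?_⟩
  have e : ((u * u' : ℤ) : ℂ) • (v + w) = (u' : ℂ) • (u : ℂ) • v + (u : ℂ) • (u' : ℂ) • w := by
    push_cast
    module
  rw [e]
  exact comm_add (WZ_zsmul _ h2) (WZ_zsmul _ h4)

theorem LocZ.dil {v : W} (h : LocZ p v) (a b c d : ℤ) : LocZ p (dil a b c d v) := by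
  obtain ⟨u, h1, h2⟩ := h
  exact ⟨u, h1, dil_smul a b c d u v ▸ dil_mem a b c d h2⟩

theorem LocZ.zsmul {v : W} (h : LocZ p v) (a : ℤ) : LocZ p ((a : ℂ) • v) := h.dil a a a a

theorem cop_ne (hp : 1 < p) {u : ℤ} (h : IsCoprime u p) : (u : ℂ) ≠ 0 := by
  rintro h0
  obtain rfl : u = 0 := by exact_mod_cast h0
  have h1 := Int.isUnit_iff_natAbs_eq.1 (isCoprime_zero_left.1 h)
  rw [Int.natAbs_natCast] at h1
  omega

theorem LocZ.inv_smul (hp : 1 < p) {v : W} (h : LocZ p v) {a : ℤ} (ha : IsCoprime a p) :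
    LocZ p ((a : ℂ)⁻¹ • v) := by
  obtain ⟨u, h1, h2⟩ := h
  refine ⟨u * a, h1.mul_left ha, ?_⟩
  rwa [Int.cast_mul, mul_smul, smul_inv_smul₀ (cop_ne hp ha)]

theorem LocZ.mem {v : W} (h : LocZ p v) {k : ℕ} (h' : (p : ℂ) ^ k • v ∈ WZ) : v ∈ WZ := by
  obtain ⟨u, h1, h2⟩ := h
  obtain ⟨a, b, e⟩ := h1.pow_right (n := k)
  have e1 : (a : ℂ) * u + b * p ^ k = 1 := by exact_mod_cast e
  have e2 : v = (a : ℂ) • (u : ℂ) • v + (b : ℂ) • (p : ℂ) ^ k • v := by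
    rw [smul_smul, smul_smul, ← add_smul, e1, one_smul]
  rw [e2]
  exact comm_add (WZ_zsmul _ h2) (WZ_zsmul _ h')

theorem CnL.mul (hp : 1 < p) {g g' : Gb} (h : CnL p N g) (h' : CnL p N g') : CnL p N (g * g') := by
  intro v hv
  obtain ⟨y, ⟨u, u1, u2⟩, e⟩ := h' v hv
  obtain ⟨y1, k1, e1⟩ := h v hv
  obtain ⟨y2, k2, e2⟩ := h _ u2
  have h0 := cop_ne hp u1
  refine ⟨y1 + y + (u : ℂ)⁻¹ • ((N : ℤ) : ℂ) • y2,
    (k1.add ⟨u, u1, u2⟩).add ((k2.zsmul N).inv_smul hp u1), ?_⟩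
  have e3 : g y = y + (u : ℂ)⁻¹ • (N : ℂ) • y2 := by
    rw [← inv_smul_smul₀ h0 (g y), ← map_smul, e2, smul_add, inv_smul_smul₀ h0]
  rw [LinearEquiv.mul_apply, e, map_add, map_smul, e1, e3, Int.cast_natCast]
  module

theorem cnL_nE (hp : 1 < p) {B : Ix → ℚ} (hB : B ∈ Lam) (n : ℤ) {a : ℤ} (ha : IsCoprime a p) :
    CnL p N (nE (toR ℂ (((N * n : ℤ) / a : ℚ) • B))) := by
  intro v hv
  obtain ⟨x, hx, y, hy, z, hz, e⟩ := nE_expand hB hv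
  have h0 := cop_ne hp ha
  refine ⟨(a : ℂ)⁻¹ • (n : ℂ) • x + ((a ^ 2 : ℤ) : ℂ)⁻¹ • ((N * n ^ 2 : ℤ) : ℂ) • y +
    ((a ^ 3 : ℤ) : ℂ)⁻¹ • ((N ^ 2 * n ^ 3 : ℤ) : ℂ) • z,
    ((((LocZ.of hx).zsmul _).inv_smul hp ha).add (((LocZ.of hy).zsmul _).inv_smul hp ha.pow_left)).add
      (((LocZ.of hz).zsmul _).inv_smul hp ha.pow_left), ?_⟩
  rw [e]
  push_cast
  match_scalars <;> field_simp

/-- An element that fixes the line of `(1, 0, 0, 0)` lowers the degree. -/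
theorem lower {g : Gb} (hg : g ∈ GG) {s : ℂ} (h : g (1, 0, 0, 0) = s • (1, 0, 0, 0)) (v : W) :
    (v.2.2.2 = 0 → (g v).2.2.2 = 0) ∧ (v.2.2 = 0 → (g v).2.2 = 0) ∧ (v.2 = 0 → (g v).2 = 0) := by
  have hw := Gam_le wE_mem
  obtain ⟨t, B, A, c, -, -, e⟩ := stab (g := wE * g * wE⁻¹) (s := s)
    (mul_mem (mul_mem hw hg) (inv_mem hw)) (by
      have e1 : wE⁻¹ ee = (-1 : ℂ) • ((1, 0, 0, 0) : W) := by simp [tube1_wE_inv_apply, ee]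
      rw [LinearEquiv.mul_apply, LinearEquiv.mul_apply, e1, map_smul, h]
      simp [tube1_wE_apply, ee])
  have e1 : g v = wE⁻¹ ((t : ℂ) • nfun (toR ℂ B) (mfun A c (wE v))) := by
    rw [← e, ← LinearEquiv.mul_apply, ← LinearEquiv.mul_apply]
    congr 1
    group
  obtain ⟨a, b, c', d⟩ := v
  rw [e1]
  refine ⟨?_, ?_, ?_⟩
  · rintro rfl
    simp [tube1_wE_inv_apply, tube1_wE_apply, nfun, mfun]
  · intro h0
    obtain ⟨rfl, rfl⟩ := Prod.mk.inj h0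
    simp [tube1_wE_inv_apply, tube1_wE_apply, nfun, mfun, lin_zero]
  · intro h0
    obtain ⟨rfl, h1⟩ := Prod.mk.inj h0
    obtain ⟨rfl, rfl⟩ := Prod.mk.inj h1
    simp [tube1_wE_inv_apply, tube1_wE_apply, nfun, mfun, lin_zero, cross_zero_left]

theorem dil_inv (hp : 1 < p) {m : Gb} (hm : ∀ v, m v = dil 1 p (p ^ 2) (p ^ 3) v) (v : W) :
    m⁻¹ v = dil 1 (p : ℂ)⁻¹ ((p : ℂ) ^ 2)⁻¹ ((p : ℂ) ^ 3)⁻¹ v := by
  have h0 : (p : ℂ) ≠ 0 := Nat.cast_ne_zero.2 (by omega)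
  refine m.injective ?_
  rw [← LinearEquiv.mul_apply, mul_inv_cancel, hm]
  simp [dil, smul_smul, h0]

theorem CnL.conj (hp : 1 < p) {m : Gb} (hm : ∀ v, m v = dil 1 p (p ^ 2) (p ^ 3) v) {g : Gb}
    (hg : g ∈ GG) {s : ℂ} (h : g (1, 0, 0, 0) = s • (1, 0, 0, 0)) (hc : CnL p N g) (hN : 0 < N) :
    CnL p N (m⁻¹ * g * m) := by
  have h0 : (p : ℂ) ≠ 0 := Nat.cast_ne_zero.2 (by omega)
  have hN' : (N : ℂ) ≠ 0 := Nat.cast_ne_zero.2 hN.ne'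
  intro v hv
  obtain ⟨y0, k0, e0⟩ := hc _ (dil_mem 1 0 0 0 hv)
  obtain ⟨y1, k1, e1⟩ := hc _ (dil_mem 0 1 0 0 hv)
  obtain ⟨y2, k2, e2⟩ := hc _ (dil_mem 0 0 1 0 hv)
  obtain ⟨y3, k3, e3⟩ := hc _ (dil_mem 0 0 0 1 hv)
  have z0 := (lower hg h _).2.2 (show (dil (1 : ℤ) (0 : ℤ) (0 : ℤ) (0 : ℤ) v).2 = 0 by simp [dil])
  have z1 := (lower hg h _).2.1 (show (dil (0 : ℤ) (1 : ℤ) (0 : ℤ) (0 : ℤ) v).2.2 = 0 by simp [dil])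
  have z2 := (lower hg h _).1 (show (dil (0 : ℤ) (0 : ℤ) (1 : ℤ) (0 : ℤ) v).2.2.2 = 0 by simp [dil])
  rw [e0] at z0
  rw [e1] at z1
  rw [e2] at z2
  refine ⟨_, (((k0.dil 1 0 0 0).add (k1.dil p 1 0 0)).add (k2.dil (p ^ 2) p 1 0)).add
    (k3.dil (p ^ 3) (p ^ 2) p 1), ?_⟩
  have e4 : m v = dil (1 : ℤ) (0 : ℤ) (0 : ℤ) (0 : ℤ) v + (p : ℂ) • dil (0 : ℤ) (1 : ℤ) (0 : ℤ) (0 : ℤ) v +
      (p : ℂ) ^ 2 • dil (0 : ℤ) (0 : ℤ) (1 : ℤ) (0 : ℤ) v +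
      (p : ℂ) ^ 3 • dil (0 : ℤ) (0 : ℤ) (0 : ℤ) (1 : ℤ) v := by simp [hm, dil]
  rw [LinearEquiv.mul_apply, LinearEquiv.mul_apply, e4, map_add g, map_add g, map_add g,
    map_smul g, map_smul g, map_smul g, e0, e1, e2, e3, dil_inv hp hm]
  obtain ⟨a, b, c, d⟩ := v
  obtain ⟨a0, b0, c0, d0⟩ := y0
  obtain ⟨a1, b1, c1, d1⟩ := y1
  obtain ⟨a2, b2, c2, d2⟩ := y2
  obtain ⟨a3, b3, c3, d3⟩ := y3
  simp [dil, hN', Prod.ext_iff] at z0 z1 z2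
  obtain ⟨rfl, rfl, rfl⟩ := z0
  obtain ⟨rfl, rfl⟩ := z1
  subst z2
  simp only [dil, Prod.smul_mk, Prod.mk_add_mk, smul_eq_mul, Prod.mk.injEq]
  push_cast
  refine ⟨by ring, ?_, ?_, by field_simp; ring⟩ <;> match_scalars <;> field_simp <;> ring

theorem dil_nE (hp : 1 < p) {m : Gb} (hm : ∀ v, m v = dil 1 p (p ^ 2) (p ^ 3) v) (B : Ix → ℚ) :
    m⁻¹ * nE (toR ℂ B) * m = nE (toR ℂ ((p : ℚ)⁻¹ • B)) := by
  have h0 : (p : ℂ) ≠ 0 := Nat.cast_ne_zero.2 (by omega)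
  refine LinearEquiv.ext fun v => ?_
  rw [LinearEquiv.mul_apply, LinearEquiv.mul_apply, hm, dil_inv hp hm]
  simp only [dil, nE_apply, nfun, toR_smul, cross_smul_right, cross_smul_left, sharp_smul,
    tr_smul_right, tr_smul_left, nrm_smul, Prod.mk.injEq]
  push_cast
  refine ⟨rfl.trans (by ring), ?_, ?_, by field_simp⟩ <;> match_scalars <;> field_simp

theorem gl_aux (hp : 1 < p) (hN : 0 < N) (hd : p ∣ N) {m : Gb}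
    (hm : ∀ v, m v = dil 1 p (p ^ 2) (p ^ 3) v) {γ : Gb} (hγ : γ ∈ Gam)
    (h : ∀ v ∈ WZ, ∃ w ∈ WZ, γ v = v + (N : ℂ) • w) :
    ∃ B ∈ Lam, ∀ v ∈ WZ, ∃ w ∈ WZ, ((nE (toR ℂ B))⁻¹ * (m⁻¹ * γ * m)) v = v + (N : ℂ) • w := by
  obtain ⟨N1, rfl⟩ := hd
  have h0 : (p : ℂ) ≠ 0 := Nat.cast_ne_zero.2 (by omega)
  have h0' : (p : ℚ) ≠ 0 := Nat.cast_ne_zero.2 (by omega)
  have hN' : ((p * N1 : ℕ) : ℂ) ≠ 0 := Nat.cast_ne_zero.2 hN.ne'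
  have z1 : ((1, 0, 0, 0) : W) ∈ WZ := by
    simpa [toR_zero] using kr_mk (n := 1) (m := 0) Lam.zero Lam.zero
  obtain ⟨⟨a0, b0, c0, d0⟩, ⟨⟨n, hn⟩, ⟨T, hT, hb⟩, -⟩, e0⟩ := h _ z1
  dsimp only at hn hb
  subst hn hb
  obtain ⟨a, ha⟩ : ∃ a : ℤ, a = 1 + (p * N1 : ℕ) * n := ⟨_, rfl⟩
  have a1 : IsCoprime a p := ⟨1, -(N1 * n), by rw [ha]; push_cast; ring⟩
  have a2 := cop_ne hp a1
  have a3 : (a : ℚ) ≠ 0 := by exact_mod_cast a2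
  have e1 : γ (1, 0, 0, 0) = ((a : ℂ), ((p * N1 : ℕ) : ℂ) • toR ℂ T, ((p * N1 : ℕ) : ℂ) • c0,
      ((p * N1 : ℕ) : ℂ) * d0) := by simp [e0, ha]
  obtain ⟨r1, -, r3⟩ := rank_one (mul_mem (Gam_le hγ) (Gam_le wE_mem)) 1 (v := γ (1, 0, 0, 0))
    (by simp [tube1_wE_apply, ee])
  rw [e1] at r1 r3
  dsimp only at r1 r3
  have e2 : γ (1, 0, 0, 0) = (a : ℂ) • nE (toR ℂ ((((p * N1 : ℕ) * 1 : ℤ) / a : ℚ) • T)) (1, 0, 0, 0) := by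
    have s1 : ((p * N1 : ℕ) : ℂ) • c0 = (a : ℂ)⁻¹ • sharp (((p * N1 : ℕ) : ℂ) • toR ℂ T) := by
      rw [r1, inv_smul_smul₀ a2]
    rw [s1, tr_smul_right, tr_comm, tr_sharp_self, nrm_smul] at r3
    rw [e1, s1]
    simp only [nE_apply, nfun, toR_smul, sharp_smul, nrm_smul, cross_zero_left, tr_zero_left,
      Prod.smul_mk, smul_eq_mul, Prod.mk.injEq]
    push_cast at r3 ⊢
    refine ⟨by ring, ?_, ?_, ?_⟩
    · match_scalars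
      field_simp
    · match_scalars
      field_simp
    · field_simp at r3 ⊢
      linear_combination (-(p : ℂ)) * r3
  have e3 : nE (toR ℂ ((((p * N1 : ℕ) * (-1) : ℤ) / a : ℚ) • T)) =
      (nE (toR ℂ ((((p * N1 : ℕ) * 1 : ℤ) / a : ℚ) • T)))⁻¹ := by
    rw [← nE_neg, ← toR_neg, ← neg_smul]
    congr 3
    push_cast
    ring
  have c1 : CnL p (p * N1) γ := fun v hv => (h v hv).imp fun w hw => ⟨LocZ.of hw.1, hw.2⟩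
  have c2 := ((cnL_nE hp hT (-1) a1).mul hp c1).conj hp hm (mul_mem (nE_mem_GG _) (Gam_le hγ))
    (s := a) (by
      rw [LinearEquiv.mul_apply, e2, map_smul, e3, ← LinearEquiv.mul_apply, inv_mul_cancel]
      rfl) hN
  have c3 := (cnL_nE hp (Lam.nsmul hT N1) (-n) a1).mul hp c2
  have e4 : nE (toR ℂ ((((p * N1 : ℕ) * (-n) : ℤ) / a : ℚ) • (N1 : ℚ) • T)) *
      (m⁻¹ * (nE (toR ℂ ((((p * N1 : ℕ) * (-1) : ℤ) / a : ℚ) • T)) * γ) * m) =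
      (nE (toR ℂ ((N1 : ℚ) • T)))⁻¹ * (m⁻¹ * γ * m) := by
    have s1 : ∀ x : Gb, m⁻¹ * (x * γ) * m = m⁻¹ * x * m * (m⁻¹ * γ * m) := fun x => by group
    have s2 : (a : ℚ) = 1 + p * N1 * n := by rw [ha]; push_cast; ring
    rw [s1, dil_nE hp hm, ← mul_assoc, ← nE_add, ← toR_add, ← nE_neg, ← toR_neg]
    congr 3
    match_scalars
    field_simp
    rw [s2]
    ring
  rw [e4] at c3
  refine ⟨_, Lam.nsmul hT N1, fun v hv => ?_⟩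
  obtain ⟨y, k1, k2⟩ := c3 v hv
  refine ⟨y, k1.mem (k := 3) ?_, k2⟩
  have hv1 : m v ∈ WZ := by
    have s1 := dil_mem 1 p (p ^ 2) (p ^ 3) hv
    push_cast at s1
    rwa [hm]
  obtain ⟨w, hw, e5⟩ := h _ hv1
  obtain ⟨x1, hx1, x2, hx2, x3, hx3, e6⟩ := nE_expand hT hv
  have e7 : (p : ℂ) ^ 3 • m⁻¹ w ∈ WZ := by
    have s1 := dil_mem (p ^ 3) (p ^ 2) p 1 hw
    have s2 : (p : ℂ) ^ 3 • m⁻¹ w = dil ((p ^ 3 : ℤ) : ℂ) ((p ^ 2 : ℤ) : ℂ) ((p : ℤ) : ℂ) (1 : ℤ) w := by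
      simp only [dil_inv hp hm, dil, Prod.smul_mk, smul_eq_mul, Prod.mk.injEq]
      push_cast
      refine ⟨by ring, ?_, ?_, by field_simp⟩ <;> match_scalars <;> field_simp
    rwa [s2]
  have e8 := WZ_map (inv_mem (nE_mem_Gam (Lam.nsmul hT N1))) e7
  have e9 := e6 (-N1)
  rw [neg_smul, toR_neg, nE_neg] at e9
  rw [LinearEquiv.mul_apply, LinearEquiv.mul_apply, LinearEquiv.mul_apply, e5, map_add m⁻¹,
    ← LinearEquiv.mul_apply m⁻¹ m, inv_mul_cancel, map_smul, map_add, map_smul,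
    LinearEquiv.coe_one, id, e9] at k2
  rw [map_smul] at e8
  have e10 : (p : ℂ) ^ 3 • y = (p : ℂ) ^ 3 • (nE (toR ℂ ((N1 : ℚ) • T)))⁻¹ (m⁻¹ w) +
      (((-p ^ 2 : ℤ) : ℂ) • x1 + ((p ^ 2 * N1 : ℤ) : ℂ) • x2 + ((-p ^ 2 * N1 ^ 2 : ℤ) : ℂ) • x3) := by
    refine smul_right_injective _ hN' ?_
    push_cast at k2 ⊢
    linear_combination (norm := module) (-(p : ℂ) ^ 3) • k2
  rw [e10]
  exact comm_add e8 (comm_add (comm_add (WZ_zsmul _ hx1) (WZ_zsmul _ hx2)) (WZ_zsmul _ hx3))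

end Pool.Agent.E7
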