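import Pool.Agent.Lib.MP_7e5527_ag.EO.QOrd
import Pool.Agent.Lib.MP_7e5527_ag.E7.BR2

/-! The ring of functions on the curve. -/

open Filter Topology Polynomial Matrix

noncomputable section

namespace Pool.Agent.E7

variable {p : ℕ} [Fact p.Prime]

/-- The ring of functions on the curve, as `BR`. -/
structure BRo (e : ℂ_[p] ≃+* ℂ) (h : ℂ → Ix → ℂ) (Δ : Subgroup Gb) (k0 : ℕ) (θ : Fn)
    (v : ℕ → Fn → ℂ_[p]) (B : Type) [CommRing B] [Algebra ℂ_[p] B] where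
  io : ℤ → Fn → B
  ep : ℕ → B →ₐ[ℂ_[p]] ℂ_[p]
  van : ∀ m F, MI Δ (k0 * m) F → (io m F = 0 ↔ Van F h)
  ev : ∀ n m F, MI Δ (k0 * m) F → ep n (io m F) = v n F / v n θ ^ m
  add : ∀ m F G, MI Δ (k0 * m) F → MI Δ (k0 * m) G → io m (F + G) = io m F + io m G
  mul : ∀ m l F G, MI Δ (k0 * m) F → MI Δ (k0 * l) G → io (m + l) (F * G) = io m F * io l G
  smul : ∀ m c F, MI Δ (k0 * m) F → io m (e c • F) = c • io m F
  one : io 0 1 = 1
  th : io 1 θ = 1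
  surj : ∀ b, ∃ m F, MI Δ (k0 * m) F ∧ b = io m F

variable {e : ℂ_[p] ≃+* ℂ} {h : ℂ → Ix → ℂ} {Δ : Subgroup Gb} {k0 : ℕ} {θ : Fn}
  {v : ℕ → Fn → ℂ_[p]}

theorem ob_zero (k : ℤ) : MI Δ k 0 := ⟨MF.zero k, Inv.zero _ k⟩

theorem ob_one : MI Δ (k0 * 0) 1 := by
  rw [mul_zero]
  exact ⟨MF.one, Inv.one _⟩

theorem ob_sum {k : ℤ} {α : Type} (s : Finset α) {F : α → Fn} (hF : ∀ a ∈ s, MI Δ k (F a)) :
    MI Δ k (∑ a ∈ s, F a) :=
  ⟨MF.sum s fun a ha => (hF a ha).1, Inv.sum s fun a ha => (hF a ha).2⟩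

theorem ob_mul (hΔ : Δ ≤ Gam) {k l : ℤ} {F G : Fn} (hF : MI Δ (k0 * k) F) (hG : MI Δ (k0 * l) G) :
    MI Δ (k0 * (k + l)) (F * G) := by
  rw [mul_add]
  exact hF.mul hΔ hG

theorem ob_pow (hΔ : Δ ≤ Gam) {m : ℤ} {F : Fn} (hF : MI Δ (k0 * m) F) (n : ℕ) :
    MI Δ (k0 * (n * m)) (F ^ n) := by
  rw [mul_left_comm]
  exact hF.pow hΔ n

theorem ob_mono (hΔ : Δ ≤ Gam) {k : ℤ} {F : Fn} (hF : MI Gam k F) : MI Δ k F :=
  ⟨hF.1, hF.2.mono hΔ⟩

/-- As `exists_BR`. -/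
theorem exists_BRo (hA : Arc h) (hΔ : Δ ≤ Gam) (hθ : MI Δ k0 θ) (hv : ∀ n, FC e (v n))
    (h0 : ∀ n, v n θ ≠ 0) (kill : ∀ n k F, MI Δ k F → Van F h → v n F = 0) :
    ∃ (B : Type) (_ : CommRing B) (_ : IsDomain B) (_ : Algebra ℂ_[p] B),
      Nonempty (BRo e h Δ k0 θ v B) := by
  classical
  let _ : Algebra ℂ_[p] (FractionRing An) :=
    (((algebraMap An (FractionRing An)).comp An.cst).comp e.toRingHom).toAlgebra
  have hol : ∀ {k F}, MI Δ k F → IsHol F := fun h => h.1.gd.isHol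
  have M1 : MI Δ (k0 * 0) 1 := ob_one
  have Mθ : MI Δ (k0 * 1) θ := by
    rw [mul_one]
    exact hθ
  have Madd : ∀ (m : ℤ) F G, MI Δ (k0 * m) F → MI Δ (k0 * m) G → MI Δ (k0 * m) (F + G) :=
    fun m F G hF hG => ⟨hF.1.add hG.1, hF.2.add hG.2⟩
  have Mmul : ∀ (m l : ℤ) F G, MI Δ (k0 * m) F → MI Δ (k0 * l) G → MI Δ (k0 * (m + l)) (F * G) :=
    fun m l F G hF hG => ob_mul hΔ hF hG
  have Msm : ∀ (m : ℤ) (c : ℂ_[p]) F, MI Δ (k0 * m) F → MI Δ (k0 * m) (e c • F) :=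
    fun m c F hF => ⟨hF.1.smul _, hF.2.smul _⟩
  have T1 : br1_T hA 1 = 1 := (br1_T_eq hA 1).trans (by rw [map_one, map_one])
  have Tθ : br1_T hA θ ≠ 0 := fun h1 => h0 0 (kill 0 _ _ hθ ((br1_T_zero hA (hol Mθ)).1 h1))
  have Tadd : ∀ (m : ℤ) F G, MI Δ (k0 * m) F → MI Δ (k0 * m) G →
      br1_T hA (F + G) = br1_T hA F + br1_T hA G := fun m F G hF hG =>
    (br1_T_eq hA (⟨F, hol hF⟩ + ⟨G, hol hG⟩)).trans (by
      rw [map_add, map_add, ← br1_T_eq, ← br1_T_eq])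
  have Tmul : ∀ (m l : ℤ) F G, MI Δ (k0 * m) F → MI Δ (k0 * l) G →
      br1_T hA (F * G) = br1_T hA F * br1_T hA G := fun m l F G hF hG =>
    (br1_T_eq hA (⟨F, hol hF⟩ * ⟨G, hol hG⟩)).trans (by
      rw [map_mul, map_mul, ← br1_T_eq, ← br1_T_eq])
  have Tsm : ∀ (m : ℤ) (c : ℂ_[p]) F, MI Δ (k0 * m) F →
      br1_T hA (e c • F) = c • br1_T hA F := fun m c F hF =>
    (br1_T_eq hA (e c • ⟨F, hol hF⟩)).trans (by
      rw [Algebra.smul_def, map_mul, map_mul, ← br1_T_eq hA ⟨F, hol hF⟩, tau_const]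
      rfl)
  obtain ⟨S, ep, hS, hep⟩ := br1_abs (fun m F => MI Δ (k0 * m) F) θ (fun c F => e c • F)
    (br1_T hA) v M1 Mθ Madd Mmul Msm T1 Tθ Tadd Tmul Tsm (fun n => (hv n).one) h0
    (fun n m F G hF hG => (hv n).add _ F G hF.1 hG.1)
    (fun n m l F G hF hG => (hv n).mul _ _ F G hF.1 hG.1)
    (fun n m c F hF => by rw [(hv n).smul _ F _ hF.1, e.symm_apply_apply])
    (fun n m F hF h1 => kill n _ F hF ((br1_T_zero hA (hol hF)).1 h1))
  let io : ℤ → Fn → S := fun m F =>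
    if hF : MI Δ (k0 * m) F then ⟨br1_T hA F / br1_T hA θ ^ m, (hS _).2 ⟨m, F, hF, rfl⟩⟩ else 0
  have hio : ∀ m F, MI Δ (k0 * m) F →
      (io m F : FractionRing An) = br1_T hA F / br1_T hA θ ^ m := fun m F hF => by
    simp only [io, dif_pos hF]
  refine ⟨S, inferInstance, inferInstance, inferInstance, ⟨io, ep, fun m F hF => ?_,
    fun n m F hF => hep n m F _ hF (hio m F hF), fun m F G hF hG => Subtype.ext ?_,
    fun m l F G hF hG => Subtype.ext ?_, fun m c F hF => Subtype.ext ?_, Subtype.ext ?_,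
    Subtype.ext ?_, fun b => ?_⟩⟩
  · rw [← br1_T_zero hA (hol hF), ← ZeroMemClass.coe_eq_zero, hio m F hF,
      div_eq_zero_iff, or_iff_left (zpow_ne_zero m Tθ)]
  · rw [Subalgebra.coe_add, hio m _ (Madd m F G hF hG), hio m F hF, hio m G hG,
      Tadd m F G hF hG, add_div]
  · rw [Subalgebra.coe_mul, hio _ _ (Mmul m l F G hF hG), hio m F hF, hio l G hG,
      Tmul m l F G hF hG, zpow_add₀ Tθ, div_mul_div_comm]
  · rw [Subalgebra.coe_smul, hio m _ (Msm m c F hF), hio m F hF, Tsm m c F hF, smul_div_assoc]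
  · rw [hio 0 1 M1, T1, zpow_zero, div_one, Subalgebra.coe_one]
  · rw [hio 1 θ Mθ, zpow_one, div_self Tθ, Subalgebra.coe_one]
  · obtain ⟨m, F, hF, h1⟩ := (hS b).1 b.2
    exact ⟨m, F, hF, Subtype.ext (h1.trans (hio m F hF).symm)⟩

variable {B : Type} [CommRing B] [Algebra ℂ_[p] B]

theorem BRo.zero (R : BRo e h Δ k0 θ v B) (m : ℤ) : R.io m 0 = 0 := by
  have h1 := R.add m 0 0 (ob_zero _) (ob_zero _)
  rw [add_zero] at h1
  exact left_eq_add.1 h1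

theorem BRo.sum (R : BRo e h Δ k0 θ v B) (m : ℤ) {α : Type} (s : Finset α) {F : α → Fn}
    (hF : ∀ a ∈ s, MI Δ (k0 * m) (F a)) : R.io m (∑ a ∈ s, F a) = ∑ a ∈ s, R.io m (F a) := by
  classical
  induction s using Finset.induction_on with
  | empty => simpa using R.zero m
  | insert a s ha ih =>
    have h1 : ∀ b ∈ s, MI Δ (k0 * m) (F b) := fun b hb => hF b (Finset.mem_insert_of_mem hb)
    rw [Finset.sum_insert ha, Finset.sum_insert ha,
      R.add m _ _ (hF a (Finset.mem_insert_self _ _)) (ob_sum s h1), ih h1]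

theorem BRo.pow (R : BRo e h Δ k0 θ v B) (hΔ : Δ ≤ Gam) {m : ℤ} {F : Fn} (hF : MI Δ (k0 * m) F)
    (n : ℕ) : R.io (n * m) (F ^ n) = R.io m F ^ n := by
  induction n with
  | zero => simpa using R.one
  | succ n ih =>
    rw [pow_succ, pow_succ, Nat.cast_succ, add_one_mul, R.mul _ _ _ _ (ob_pow hΔ hF n) hF, ih]

theorem ob_prod (R : BRo e h Δ k0 θ v B) (hΔ : Δ ≤ Gam) {α : Type} (s : Finset α) (k : α → ℤ)
    {F : α → Fn} (hF : ∀ a ∈ s, MI Δ (k0 * k a) (F a)) :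
    MI Δ (k0 * ∑ a ∈ s, k a) (∏ a ∈ s, F a) ∧
      R.io (∑ a ∈ s, k a) (∏ a ∈ s, F a) = ∏ a ∈ s, R.io (k a) (F a) := by
  classical
  induction s using Finset.induction_on with
  | empty => exact ⟨ob_one, R.one⟩
  | insert a s ha ih =>
    obtain ⟨h1, h2⟩ := ih fun b hb => hF b (Finset.mem_insert_of_mem hb)
    have h3 := hF a (Finset.mem_insert_self _ _)
    rw [Finset.sum_insert ha, Finset.prod_insert ha, Finset.prod_insert ha, R.mul _ _ _ _ h3 h1, h2]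
    exact ⟨ob_mul hΔ h3 h1, rfl⟩

/-- As `BR.aeval`. -/
theorem BRo.aeval (R : BRo e h Δ k0 θ v B) (hΔ : Δ ≤ Gam) {σ : Type} {m : ℤ} {F : σ → Fn}
    (hF : ∀ r, MI Δ (k0 * m) (F r)) {P : MvPolynomial σ ℂ_[p]} {n : ℕ} (hP : P.IsHomogeneous n) :
    MI Δ (k0 * (n * m)) (MvPolynomial.aeval F (MvPolynomial.map e.toRingHom P)) ∧
      R.io (n * m) (MvPolynomial.aeval F (MvPolynomial.map e.toRingHom P)) =
        MvPolynomial.aeval (fun r => R.io m (F r)) P := by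
  have e1 : MvPolynomial.aeval F (MvPolynomial.map e.toRingHom P) =
      ∑ d ∈ P.support, e (P.coeff d) • ∏ r ∈ d.support, F r ^ d r := by
    rw [MvPolynomial.aeval_def, MvPolynomial.eval₂_map, MvPolynomial.eval₂_eq]
    simp only [Algebra.smul_def]
    rfl
  have e2 : MvPolynomial.aeval (fun r => R.io m (F r)) P =
      ∑ d ∈ P.support, P.coeff d • ∏ r ∈ d.support, R.io m (F r) ^ d r := by
    rw [MvPolynomial.aeval_def, MvPolynomial.eval₂_eq]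
    simp only [Algebra.smul_def]
  have w : ∀ d ∈ P.support, (n * m : ℤ) = ∑ r ∈ d.support, (d r : ℤ) * m := fun d hd => by
    rw [hP.degree_eq_sum_deg_support hd, ← Finset.sum_mul]
    push_cast
    rfl
  have key : ∀ d ∈ P.support, MI Δ (k0 * (n * m)) (∏ r ∈ d.support, F r ^ d r) ∧
      R.io (n * m) (∏ r ∈ d.support, F r ^ d r) = ∏ r ∈ d.support, R.io m (F r) ^ d r := by
    intro d hd
    obtain ⟨h1, h2⟩ := ob_prod R hΔ d.support (fun r => (d r : ℤ) * m)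
      (F := fun r => F r ^ d r) fun r _ => ob_pow hΔ (hF r) (d r)
    rw [w d hd]
    exact ⟨h1, h2.trans (Finset.prod_congr rfl fun r _ => R.pow hΔ (hF r) (d r))⟩
  have k2 : ∀ d ∈ P.support,
      MI Δ (k0 * (n * m)) (e (P.coeff d) • ∏ r ∈ d.support, F r ^ d r) :=
    fun d hd => ⟨(key d hd).1.1.smul _, (key d hd).1.2.smul _⟩
  rw [e1, e2]
  refine ⟨ob_sum _ k2, ?_⟩
  rw [R.sum _ _ k2]
  refine Finset.sum_congr rfl fun d hd => ?_
  rw [R.smul _ _ _ (key d hd).1, (key d hd).2]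

theorem ob_sym (hΔ : Δ ≤ Gam) {τ : Type} [Fintype τ] (T : Trans Δ τ) {k : ℤ} {G : Fn}
    (hG : MI Δ k G) {i : ℕ} (hi : i ≤ Fintype.card τ) :
    MI Gam ((Fintype.card τ - i : ℕ) * k)
      ((∏ t, (Polynomial.X + Polynomial.C (sl k (T.rep t) G))).coeff i) := by
  have w : ∀ u ∈ Finset.powersetCard (Fintype.card τ - i) (Finset.univ : Finset τ),
      ((Fintype.card τ - i : ℕ) * k : ℤ) = ∑ _a ∈ u, k := fun u hu => by
    rw [Finset.sum_const, (Finset.mem_powersetCard.1 hu).2, nsmul_eq_mul]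
  constructor
  · rw [Finset.prod_X_add_C_coeff _ _ hi]
    refine MF.sum _ fun u hu => ?_
    rw [w u hu]
    exact MF.prod u fun t _ => hG.1.slash (Gam_le (T.mem t))
  · intro g hg
    obtain ⟨σ, hσ⟩ := T.perm g hg
    conv_rhs => rw [← Equiv.prod_comp σ]
    rw [Finset.prod_X_add_C_coeff _ _ hi, Finset.prod_X_add_C_coeff _ _ hi, sl_sum]
    refine Finset.sum_congr rfl fun u hu => ?_
    rw [w u hu, sl_prod (Gam_le hg)]
    refine Finset.prod_congr rfl fun t _ => ?_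
    obtain ⟨δ, hδ, e1⟩ := hσ t
    rw [← sl_mul k (Gam_le (T.mem t)) (Gam_le hg), e1,
      sl_mul k (Gam_le (hΔ hδ)) (Gam_le (T.mem _)), hG.2 δ hδ]

/-- The monic equation of a form over the forms of level one (copy `br2_sym`, `br2_alg`). -/
theorem exists_sym (hΔ : Δ ≤ Gam) (hi : Δ.relIndex Gam ≠ 0) : ∃ N : ℕ, 0 < N ∧
    ∀ (k : ℤ) (F : Fn), MI Δ k F → ∃ s : ℕ → Fn, s N = 1 ∧
      (∀ i ≤ N, MI Gam ((N - i : ℕ) * k) (s i)) ∧ ∑ i ∈ Finset.range (N + 1), s i * F ^ i = 0 := by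
  obtain ⟨τ, _, ⟨T⟩⟩ := exists_trans hΔ hi
  obtain ⟨t, δ, hδ, e1⟩ := T.cover 1 (one_mem _)
  refine ⟨Fintype.card τ, Fintype.card_pos_iff.2 ⟨t⟩, fun k F hF => ?_⟩
  have hG : MI Δ k ((-1 : ℂ) • F) := ⟨hF.1.smul _, hF.2.smul _⟩
  obtain ⟨Q, hQ⟩ : ∃ Q,
      Q = ∏ t, (Polynomial.X + Polynomial.C (sl k (T.rep t) ((-1 : ℂ) • F))) := ⟨_, rfl⟩
  have hQ0 : Q.eval F = 0 := by
    rw [hQ, Polynomial.eval_prod]
    refine Finset.prod_eq_zero (Finset.mem_univ t) ?_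
    rw [← hG.2 δ hδ, ← sl_mul _ (Gam_le (hΔ hδ)) (Gam_le (T.mem t)), ← e1, sl_one]
    simp
  have hQ2 : Q.natDegree < Fintype.card τ + 1 := by
    rw [hQ, Nat.lt_succ_iff]
    refine (Polynomial.natDegree_prod_le _ _).trans
      ((Finset.sum_le_card_nsmul _ _ 1 fun t _ => ?_).trans (by simp))
    rw [Polynomial.natDegree_add_C]
    exact Polynomial.natDegree_X_le
  refine ⟨Q.coeff, ?_, fun i h1 => ?_, ?_⟩
  · rw [hQ, Finset.prod_X_add_C_coeff _ _ (le_refl (Fintype.card τ))]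
    simp
  · rw [hQ]
    exact ob_sym hΔ T hG h1
  · rw [← Polynomial.eval_eq_sum_range' hQ2, hQ0]

/-- The equation of a form, read in the ring. -/
theorem ob_eqn (R : BRo e h Δ k0 θ v B) (hΔ : Δ ≤ Gam) {m : ℤ} {F : Fn} (hF : MI Δ (k0 * m) F)
    {N : ℕ} {s : ℕ → Fn} (hs : ∀ i ≤ N, MI Gam ((N - i : ℕ) * (k0 * m)) (s i))
    (h0 : ∑ i ∈ Finset.range (N + 1), s i * F ^ i = 0) :
    ∑ i ∈ Finset.range (N + 1), R.io ((N - i : ℕ) * m) (s i) * R.io m F ^ i = 0 := by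
  have w : ∀ i ∈ Finset.range (N + 1), (N * m : ℤ) = (N - i : ℕ) * m + (i : ℕ) * m :=
    fun i hi => by
      rw [← add_mul, ← Nat.cast_add,
        Nat.sub_add_cancel (Nat.lt_succ_iff.1 (Finset.mem_range.1 hi))]
  have hc : ∀ i ∈ Finset.range (N + 1), MI Δ (k0 * ((N - i : ℕ) * m)) (s i) := fun i hi => by
    rw [mul_left_comm]
    exact ob_mono hΔ (hs i (Nat.lt_succ_iff.1 (Finset.mem_range.1 hi)))
  have h1 : ∀ i ∈ Finset.range (N + 1), MI Δ (k0 * (N * m)) (s i * F ^ i) := fun i hi => by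
    rw [w i hi]
    exact ob_mul hΔ (hc i hi) (ob_pow hΔ hF i)
  rw [← R.zero (N * m), ← h0, R.sum _ _ h1]
  refine Finset.sum_congr rfl fun i hi => ?_
  rw [w i hi, R.mul _ _ _ _ (hc i hi) (ob_pow hΔ hF i), R.pow hΔ hF]

section

variable {L : Type} [Field L] [Algebra ℂ_[p] L] (R : BRo e h Δ k0 θ v B) (φ : B →ₐ[ℂ_[p]] L)
  {j : ℕ} {H : Fn}

/-- The quotient of a form by a power of `H`. -/
def ob_w (j : ℕ) (H : Fn) (m : ℕ) (F : Fn) : L := φ (R.io (m * j) F) / φ (R.io j H) ^ m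

theorem ob_w_mul (hΔ : Δ ≤ Gam) {m l : ℕ} {F G : Fn} (hF : MI Gam (k0 * (m * j)) F)
    (hG : MI Gam (k0 * (l * j)) G) : MI Gam (k0 * ((m + l : ℕ) * j)) (F * G) ∧
      ob_w R φ j H (m + l) (F * G) = ob_w R φ j H m F * ob_w R φ j H l G := by
  rw [ob_w, Nat.cast_add, add_mul, R.mul _ _ _ _ (ob_mono hΔ hF) (ob_mono hΔ hG), map_mul,
    pow_add, ← div_mul_div_comm]
  exact ⟨ob_mul le_rfl hF hG, rfl⟩

theorem ob_w_pow (hΔ : Δ ≤ Gam) (hH : MI Gam (k0 * j) H) (h0 : φ (R.io j H) ≠ 0) (n : ℕ) :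
    ob_w R φ j H n (H ^ n) = 1 := by
  rw [ob_w, R.pow hΔ (ob_mono hΔ hH), map_pow, div_self (pow_ne_zero n h0)]

theorem ob_lift (hΔ : Δ ≤ Gam) (hH : MI Gam (k0 * j) H) (h0 : φ (R.io j H) ≠ 0) {m N : ℕ} {F : Fn}
    (hF : MI Gam (k0 * (m * j)) F) (hN : m ≤ N) :
    ∃ G, MI Gam (k0 * (N * j)) G ∧ ob_w R φ j H m F = ob_w R φ j H N G := by
  obtain ⟨n, rfl⟩ := Nat.exists_eq_add_of_le hN
  obtain ⟨h1, h2⟩ := ob_w_mul R φ (H := H) hΔ hF (ob_pow le_rfl hH n)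
  exact ⟨F * H ^ n, h1, by rw [h2, ob_w_pow R φ hΔ hH h0, mul_one]⟩

/-- The quotients of the forms of level one. -/
def ob_sub (hΔ : Δ ≤ Gam) (hH : MI Gam (k0 * j) H) (h0 : φ (R.io j H) ≠ 0) :
    Subalgebra ℂ_[p] L where
  carrier := {b | ∃ (m : ℕ) (F : Fn), MI Gam (k0 * (m * j)) F ∧ ob_w R φ j H m F = b}
  mul_mem' := by
    rintro _ _ ⟨m, F, h1, rfl⟩ ⟨l, G, h2, rfl⟩
    exact ⟨m + l, F * G, ob_w_mul R φ hΔ h1 h2⟩
  add_mem' := by
    rintro _ _ ⟨m, F, h1, rfl⟩ ⟨l, G, h2, rfl⟩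
    obtain ⟨F', a1, a2⟩ := ob_lift R φ hΔ hH h0 h1 (le_max_left m l)
    obtain ⟨G', b1, b2⟩ := ob_lift R φ hΔ hH h0 h2 (le_max_right m l)
    refine ⟨max m l, F' + G', ⟨a1.1.add b1.1, a1.2.add b1.2⟩, ?_⟩
    rw [a2, b2, ob_w, R.add _ _ _ (ob_mono hΔ a1) (ob_mono hΔ b1), map_add, add_div]
    rfl
  algebraMap_mem' c := by
    have h1 : MI Gam (k0 * 0) 1 := ob_one
    refine ⟨0, e c • 1, ?_, ?_⟩
    · rw [Nat.cast_zero, zero_mul]
      exact ⟨h1.1.smul _, h1.2.smul _⟩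
    · rw [ob_w, Nat.cast_zero, zero_mul, R.smul _ _ _ ob_one, R.one, pow_zero, div_one, map_smul,
        map_one, Algebra.algebraMap_eq_smul_one]

theorem ob_dep (hA : Arc h) (hΔ : Δ ≤ Gam) (hH : MI Gam (k0 * j) H) (h0 : φ (R.io j H) ≠ 0)
    {a b : L} (ha : a ∈ ob_sub R φ hΔ hH h0) (hb : b ∈ ob_sub R φ hΔ hH h0) :
    ∃ P : MvPolynomial (Fin 2) ℂ_[p], P ≠ 0 ∧ MvPolynomial.aeval ![a, b] P = 0 := by
  obtain ⟨m, F, h1, rfl⟩ := ha
  obtain ⟨l, G, h2, rfl⟩ := hb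
  obtain ⟨F', a1, a2⟩ := ob_lift R φ hΔ hH h0 h1 (le_max_left m l)
  obtain ⟨G', b1, b2⟩ := ob_lift R φ hΔ hH h0 h2 (le_max_right m l)
  rw [a2, b2]
  generalize max m l = N at a1 b1 ⊢
  have hT : ∀ i, MI Gam (k0 * (N * j)) (![H ^ N, F', G'] i) := by
    intro i
    fin_cases i
    · exact ob_pow le_rfl hH N
    · exact a1
    · exact b1
  obtain ⟨P, n, hP0, hP, hv⟩ := hA.crv _ _ hT
  have hm : MvPolynomial.map e.toRingHom (MvPolynomial.map e.symm.toRingHom P) = P := by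
    rw [MvPolynomial.map_map, RingEquiv.toRingHom_comp_symm_toRingHom, MvPolynomial.map_id]
  have hP' : (MvPolynomial.map e.symm.toRingHom P).IsHomogeneous n := hP.map _
  have hP0' : MvPolynomial.map e.symm.toRingHom P ≠ 0 := by
    intro h3
    rw [h3, map_zero] at hm
    exact hP0 hm.symm
  obtain ⟨d1, d2⟩ := R.aeval hΔ (F := ![H ^ N, F', G']) (fun r => ob_mono hΔ (hT r)) hP'
  rw [hm] at d1 d2
  obtain ⟨P2, e1, e2⟩ := exists_dehomog hP0' hP'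
  refine ⟨P2, e1, ?_⟩
  have e3 : (fun r => (φ (R.io j H) ^ N)⁻¹ * φ (R.io (N * j) (![H ^ N, F', G'] r))) =
      ![1, ob_w R φ j H N F', ob_w R φ j H N G'] := by
    funext r
    rw [← div_eq_inv_mul]
    fin_cases r
    · exact ob_w_pow R φ hΔ hH h0 N
    · rfl
    · rfl
  have e5 : R.io (n * (N * j)) (MvPolynomial.aeval ![H ^ N, F', G'] P) = 0 := by
    rw [R.van _ _ d1]
    filter_upwards [hv] with t ht
    rw [← ht]
    exact MvPolynomial.comp_aeval_apply ![H ^ N, F', G']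
      (Pi.evalAlgHom ℂ (fun _ : HH => ℂ) (ofC (h t))) P
  rw [e2, ← e3, wrc2_scale hP', ← MvPolynomial.comp_aeval_apply, ← d2, e5, map_zero, mul_zero]

theorem ob_alg (hΔ : Δ ≤ Gam) (hi : Δ.relIndex Gam ≠ 0) (hH : MI Gam (k0 * j) H)
    (h0 : φ (R.io j H) ≠ 0) {m : ℕ} {F : Fn} (hF : MI Δ (k0 * m) F) :
    IsAlgebraic (ob_sub R φ hΔ hH h0) (φ (R.io m F) ^ j / φ (R.io j H) ^ m) := by
  obtain ⟨N, -, hN⟩ := exists_sym hΔ hi
  have hF' := ob_pow hΔ hF j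
  obtain ⟨s, h1, h2, h3⟩ := hN _ _ hF'
  have h4 := ob_eqn R hΔ hF' h2 h3
  have w : ∀ i : ℕ, (((N - i) * m : ℕ) * j : ℤ) = (N - i : ℕ) * (j * m) := fun i => by
    rw [Nat.cast_mul]
    ring
  let c : Fin (N + 1) → ob_sub R φ hΔ hH h0 := fun i => ⟨ob_w R φ j H ((N - i) * m) (s i), _, _,
    by rw [w, mul_left_comm]; exact h2 i (Nat.lt_succ_iff.1 i.2), rfl⟩
  refine ⟨∑ i : Fin (N + 1), Polynomial.monomial i (c i), fun h5 => ?_, ?_⟩
  · have h6 := congrArg (fun P => Polynomial.coeff P N) h5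
    simp only [Polynomial.finsetSum_coeff, Polynomial.coeff_monomial, Polynomial.coeff_zero] at h6
    rw [Finset.sum_eq_single (Fin.last N), if_pos (Fin.val_last N)] at h6
    · have h7 := congrArg Subtype.val h6
      simp only [c, ob_w, Fin.val_last, h1, Nat.sub_self, Nat.cast_zero, zero_mul, R.one,
        pow_zero, map_one, div_one] at h7
      exact one_ne_zero h7
    · intro i _ hi
      exact if_neg fun e1 => hi (Fin.ext e1)
    · simp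
  · have h5 := congrArg (fun x => φ x / φ (R.io j H) ^ (N * m)) h4
    simp only [map_zero, zero_div, map_sum, Finset.sum_div, Finset.sum_range] at h5
    rw [← h5, map_sum]
    refine Finset.sum_congr rfl fun i _ => ?_
    have h6 : N * m = (N - i) * m + m * i := by
      rw [mul_comm m, ← add_mul, Nat.sub_add_cancel (Nat.lt_succ_iff.1 i.2)]
    rw [Polynomial.aeval_monomial, h6, pow_add, map_mul, ← div_mul_div_comm, R.pow hΔ hF,
      map_pow, map_pow, pow_mul _ m, ← div_pow, ← w]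
    rfl

end

/-- Some coefficient `H` of the equation of `θ` has `η = io j H ≠ 0`, `j > 0`. In the fraction field
of `B` let `L0` be the algebra of the `io (j * m) F / η ^ m`, `F` of level one, `m : ℕ`; two of its
elements are dependent by `hA.crv` (as `br2_dep` with `H` for `ThF`). For `b = io m F`, `m ≥ 0`,
the elements `b ^ j / η ^ m` and `1 / η` are integral over `L0` (`exists_sym` for `F ^ j`, `θ ^ j`).
Apply `dep2_of_alg` in the fraction field. -/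
theorem BRo.dep2 [IsDomain B] (R : BRo e h Δ k0 θ v B) (hA : Arc h) (hΔ : Δ ≤ Gam)
    (hi : Δ.relIndex Gam ≠ 0) (hθ : MI Δ k0 θ) : Dep2 ℂ_[p] B := by
  have Mθ : MI Δ (k0 * 1) θ := by
    rw [mul_one]
    exact hθ
  obtain ⟨j, H, hj, hH, hη⟩ : ∃ (j : ℕ) (H : Fn), 0 < j ∧ MI Gam (k0 * j) H ∧ R.io j H ≠ 0 := by
    obtain ⟨N, -, hN⟩ := exists_sym hΔ hi
    obtain ⟨s, h1, h2, h3⟩ := hN _ _ Mθ
    have h4 := ob_eqn R hΔ Mθ h2 h3
    by_contra h5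
    rw [Finset.sum_range_succ, h1, Nat.sub_self, Nat.cast_zero, zero_mul, R.one, R.th, one_pow,
      mul_one, Finset.sum_eq_zero, zero_add] at h4
    · exact one_ne_zero h4
    · intro i h6
      have h7 := Finset.mem_range.1 h6
      have h8 := h2 i h7.le
      rw [mul_one, mul_comm] at h8
      rw [mul_one, not_not.1 fun h9 => h5 ⟨N - i, s i, Nat.sub_pos_of_lt h7, h8, h9⟩, zero_mul]
  let φ := IsScalarTower.toAlgHom ℂ_[p] B (FractionRing B)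
  have hφ : Function.Injective φ := IsFractionRing.injective B (FractionRing B)
  have h0 : φ (R.io j H) ≠ 0 := fun h1 => hη (hφ (h1.trans (map_zero φ).symm))
  have h1 : IsAlgebraic (ob_sub R φ hΔ hH h0) (φ (R.io j H)) := by
    have h2 := ob_alg R φ hΔ hi hH h0 (m := 1) (F := θ) Mθ
    rw [Nat.cast_one, R.th, map_one, one_pow, pow_one, one_div] at h2
    exact IsAlgebraic.inv_iff.1 h2
  have h2 : ∀ b, IsAlgebraic (ob_sub R φ hΔ hH h0) (φ b) := fun b => by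
    obtain ⟨m, F, hF, rfl⟩ := R.surj b
    obtain ⟨n, hn⟩ := Int.le.dest (le_max_left m 0)
    obtain ⟨l, hl⟩ := Int.eq_ofNat_of_zero_le (le_max_right m 0)
    have h3 := ob_pow hΔ Mθ n
    have h4 := R.pow hΔ Mθ n
    rw [mul_one] at h3 h4
    have h5 := R.mul _ _ _ _ hF h3
    have h6 := ob_mul hΔ hF h3
    rw [hn, hl] at h5 h6
    rw [h4, R.th, one_pow, mul_one] at h5
    have h7 := (ob_alg R φ hΔ hi hH h0 h6).mul (h1.pow l)
    rw [div_mul_cancel₀ _ (pow_ne_zero l h0), h5] at h7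
    exact h7.of_pow hj
  have h3 : Dep2 ℂ_[p] (FractionRing B) :=
    dep2_of_alg (ob_sub R φ hΔ hH h0) (fun _ ha _ hb => ob_dep R φ hA hΔ hH h0 ha hb) fun x => by
      obtain ⟨a, b, -, rfl⟩ := IsFractionRing.div_surjective (A := B) x
      rw [div_eq_mul_inv]
      exact (h2 a).mul (IsAlgebraic.inv_iff.2 (h2 b))
  intro a b
  obtain ⟨P, h4, h5⟩ := h3 (φ a) (φ b)
  refine ⟨P, h4, hφ ?_⟩
  rw [map_zero, ← h5, MvPolynomial.comp_aeval_apply]
  congr 2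
  funext i
  fin_cases i <;> rfl

end Pool.Agent.E7
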