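import Pool.Agent.Lib.MP_7e5527_ag.EO.TX

/-! The Jacobian matrix of the coordinates. -/

open Filter Topology Polynomial Matrix

noncomputable section

namespace Pool.Agent.E7

variable {ι : Type} [Fintype ι] [DecidableEq ι] {p : ℕ} [Fact p.Prime] {C : Cone ι} {R : Type}
  [CommRing R] {S : TW p C R}

variable {A : Type} [NormedCommRing A] [NormOneClass A] [NormedAlgebra ℂ_[p] A] [CompleteSpace A]
  [IsUltrametricDist A] {ψ : R →+* A} {u v : ι → Aˣ} {E : Fr S}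

theorem norm_mulVec_le {J : Matrix ι ι A} (h : ∀ i l, ‖J i l‖ ≤ 1) (y : ι → A) :
    ‖J *ᵥ y‖ ≤ ‖y‖ := by
  refine (pi_norm_le_iff_of_nonneg (norm_nonneg _)).2 fun i => ?_
  exact IsUltrametricDist.norm_sum_le_of_forall_le_of_nonneg (norm_nonneg _)
    fun l _ => pinv_mul (h i l) (norm_le_pi_norm y l)

theorem tj_sub {x y : A} {r : ℝ} (hx : ‖x‖ ≤ r) (hy : ‖y‖ ≤ r) : ‖x - y‖ ≤ r := by
  rw [sub_eq_add_neg]
  exact pinv_add hx (by rwa [norm_neg])

theorem tj_prod_le {α : Type} (s : Finset α) {a : α → A} (h : ∀ x, ‖a x‖ ≤ 1) :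
    ‖∏ x ∈ s, a x‖ ≤ 1 := by
  classical
  induction s using Finset.induction_on with
  | empty => simp
  | insert x s hx ih => rw [Finset.prod_insert hx]; exact pinv_mul (h x) ih

theorem tj_prod_sub {α : Type} (s : Finset α) {a b : α → A} {r : ℝ} (hr : 0 ≤ r)
    (ha : ∀ x, ‖a x‖ ≤ 1) (hb : ∀ x, ‖b x‖ ≤ 1) (h : ∀ x, ‖a x - b x‖ ≤ r) :
    ‖∏ x ∈ s, a x - ∏ x ∈ s, b x‖ ≤ r := by
  classical
  induction s using Finset.induction_on with
  | empty => simpa using hr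
  | insert x s hx ih =>
    rw [Finset.prod_insert hx, Finset.prod_insert hx]
    have e : a x * ∏ y ∈ s, a y - b x * ∏ y ∈ s, b y =
        a x * (∏ y ∈ s, a y - ∏ y ∈ s, b y) + (∏ y ∈ s, b y) * (a x - b x) := by ring
    rw [e]
    exact pinv_add (pinv_mul (ha x) ih) (pinv_mul (tj_prod_le s hb) (h x))

theorem tj_sign (σ : Equiv.Perm ι) : ‖((Equiv.Perm.sign σ : ℤ) : A)‖ ≤ 1 := by
  rcases Int.units_eq_one_or (Equiv.Perm.sign σ) with h | h <;> simp [h]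

theorem tj_det_le {J : Matrix ι ι A} (h : ∀ i l, ‖J i l‖ ≤ 1) : ‖J.det‖ ≤ 1 := by
  rw [Matrix.det_apply']
  exact IsUltrametricDist.norm_sum_le_of_forall_le_of_nonneg zero_le_one
    fun σ _ => pinv_mul (tj_sign σ) (tj_prod_le _ fun i => h _ _)

theorem tj_det_sub {J K : Matrix ι ι A} {r : ℝ} (hr : 0 ≤ r) (hJ : ∀ i l, ‖J i l‖ ≤ 1)
    (hK : ∀ i l, ‖K i l‖ ≤ 1) (h : ∀ i l, ‖J i l - K i l‖ ≤ r) : ‖J.det - K.det‖ ≤ r := by
  rw [Matrix.det_apply', Matrix.det_apply', ← Finset.sum_sub_distrib]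
  refine IsUltrametricDist.norm_sum_le_of_forall_le_of_nonneg hr fun σ _ => ?_
  rw [← mul_sub]
  exact pinv_mul (tj_sign σ)
    (tj_prod_sub _ hr (fun i => hJ _ _) (fun i => hK _ _) fun i => h _ _)

theorem tj_isU_prod {α : Type} (s : Finset α) {a : α → A} (h : ∀ x, IsU (a x)) :
    IsU (∏ x ∈ s, a x) := by
  classical
  induction s using Finset.induction_on with
  | empty => exact ⟨1, by simp, by simp⟩
  | insert x s hx ih => rw [Finset.prod_insert hx]; exact (h x).mul ih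

theorem tj_dv {c : ι → ℤ} {F : R} (hF : S.Zi F) (hc : S.Sup p c F) (l : ι) :
    S.Dv (S.del l F - (c l : R) * F) := by
  intro T
  rw [map_sub, Pi.sub_apply, S.co_del, TW.co_int]
  by_cases h0 : S.co F T = 0
  · exact ⟨0, by simp [h0]⟩
  · obtain ⟨n, hn⟩ := hF T
    obtain ⟨m, hm⟩ := hc T h0 l
    refine ⟨m * n, ?_⟩
    rw [← sub_mul, ← Int.cast_sub, hm, hn]
    push_cast
    ring

namespace Fr

theorem dq_zi (E : Fr S) (l : ι) {G : R} (h : S.Zi G) : S.Zi (E.dq l G) := by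
  rw [Fr.dq, sub_eq_add_neg]
  exact (E.int0.mul (h.del l)).add (h.mul (E.int0.del l)).neg

theorem Gp.Jm_le (h : E.Gp ψ) (i l : ι) : ‖E.Jm ψ i l‖ ≤ 1 :=
  h.nz_le 2 zero_le_one (E.dq_zi l (E.int i)).bd

theorem Gp.Jm_near (h : E.Gp ψ) (i l : ι) :
    ‖E.Jm ψ i l - if i = l then E.xc ψ i else 0‖ ≤ (p : ℝ)⁻¹ := by
  have h1 := (tj_dv (E.int i) (E.sup i) l).mul E.int0
  have h2 := (tj_dv E.int0 E.sup0 l).mul (E.int i).neg
  have h3 := h.nz_le 2 (inv_nonneg.2 (Nat.cast_nonneg p)) (h1.add h2).bd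
  have hu := Ring.mul_inverse_cancel _ h.unit
  refine le_of_eq_of_le (congrArg _ ?_) h3
  simp only [Fr.Jm, Fr.xc, Fr.nz, Fr.dq, Matrix.of_apply, map_sub, map_add, map_mul, map_neg,
    map_intCast, Pi.zero_apply, Int.cast_zero, map_zero]
  by_cases e : i = l
  · subst e
    simp only [if_true, Pi.single_eq_same, Int.cast_one]
    linear_combination (ψ (E.e i) * Ring.inverse (ψ E.e0)) * hu
  · simp only [if_neg e, Pi.single_eq_of_ne (Ne.symm e), Int.cast_zero]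
    ring

theorem Gp.Jm_det (h : E.Gp ψ) : IsU (E.Jm ψ).det := by
  have h1 : IsU (Matrix.diagonal (E.xc ψ)).det := by
    rw [Matrix.det_diagonal]
    exact tj_isU_prod _ h.xc_isU
  have hp : (p : ℝ)⁻¹ < 1 := inv_lt_one_of_one_lt₀ (by exact_mod_cast (Fact.out : p.Prime).one_lt)
  refine h1.near (lt_of_le_of_lt (tj_det_sub (inv_nonneg.2 (Nat.cast_nonneg p)) h.Jm_le
    (fun i l => ?_) fun i l => ?_) hp)
  · rw [Matrix.diagonal_apply]
    split_ifs
    · exact h.xc_le i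
    · simp
  · rw [Matrix.diagonal_apply]
    exact h.Jm_near i l

theorem Gp.Jm_inv_le (h : E.Gp ψ) (i l : ι) : ‖(E.Jm ψ)⁻¹ i l‖ ≤ 1 := by
  rw [Matrix.inv_def, Matrix.smul_apply, smul_eq_mul, Matrix.adjugate_apply]
  refine pinv_mul h.Jm_det.inv_le (tj_det_le fun a b => ?_)
  by_cases e : a = l
  · subst e
    rw [Matrix.updateRow_self, Pi.single_apply]
    split_ifs <;> simp
  · rw [Matrix.updateRow_ne e]
    exact h.Jm_le a b

theorem Gp.taylor (h : E.Gp ψ) (hu : Nr u) :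
    ‖E.xc (S.twc ψ u) - E.xc ψ - E.Jm ψ *ᵥ (uv u - 1)‖ ≤ ‖uv u - 1‖ ^ 2 := by
  refine (pi_norm_le_iff_of_nonneg (sq_nonneg _)).2 fun i => ?_
  have t0 := TW.twc_taylor h.ch hu zero_le_one E.int0.bd
  have t1 := TW.twc_taylor h.ch hu zero_le_one (E.int i).bd
  have s0 := TW.twc_sub h.ch hu Nr.one zero_le_one E.int0.bd
  rw [TW.twc_one h.ch] at s0
  have e1 : uv (1 : ι → Aˣ) = 1 := rfl
  rw [e1] at s0
  rw [mul_one] at t0 t1 s0
  have hL : ∀ G, S.Zi G → ‖∑ l, ψ (S.del l G) * ((u l : A) - 1)‖ ≤ ‖uv u - 1‖ := fun G hG =>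
    IsUltrametricDist.norm_sum_le_of_forall_le_of_nonneg (norm_nonneg _) fun l _ =>
      pinv_mul (h.ch _ 1 zero_le_one (hG.del l).bd) (norm_le_pi_norm (uv u - 1) l)
  have ha : ‖ψ E.e0‖ ≤ 1 := h.ch _ 1 zero_le_one E.int0.bd
  have hb : ‖ψ (E.e i)‖ ≤ 1 := h.ch _ 1 zero_le_one (E.int i).bd
  have hi := h.un.1.inv_le
  have hi' := (h.twc hu).un.1.inv_le
  have hu1 := Ring.mul_inverse_cancel _ h.unit
  have hu2 := Ring.mul_inverse_cancel _ (h.twc hu).unit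
  have eJ : (E.Jm ψ *ᵥ (uv u - 1)) i = (ψ E.e0 * ∑ l, ψ (S.del l (E.e i)) * ((u l : A) - 1) -
      ψ (E.e i) * ∑ l, ψ (S.del l E.e0) * ((u l : A) - 1)) * Ring.inverse (ψ E.e0) ^ 2 := by
    rw [Finset.mul_sum, Finset.mul_sum, ← Finset.sum_sub_distrib, Finset.sum_mul]
    refine Finset.sum_congr rfl fun l _ => ?_
    simp only [Fr.Jm, Fr.nz, Fr.dq, Matrix.of_apply, map_sub, map_mul, Pi.sub_apply, uv,
      Pi.one_apply]
    ring
  rw [Pi.sub_apply, Pi.sub_apply, eJ]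
  have hLa := hL _ E.int0
  have hLb := hL _ (E.int i)
  simp only [Fr.xc, Fr.nz, pow_one]
  generalize ∑ l, ψ (S.del l (E.e i)) * ((u l : A) - 1) = Lb at *
  generalize ∑ l, ψ (S.del l E.e0) * ((u l : A) - 1) = La at *
  generalize Ring.inverse (ψ E.e0) = c at *
  generalize Ring.inverse (S.twc ψ u E.e0) = c' at *
  generalize S.twc ψ u E.e0 = a' at *
  generalize S.twc ψ u (E.e i) = b' at *
  generalize ψ E.e0 = a at *
  generalize ψ (E.e i) = b at *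
  have e : b' * c' - b * c - (a * Lb - b * La) * c ^ 2 = c' * (c * (c * (a * (a * (b' - b - Lb) -
      b * (a' - a - La)) - (a * Lb - b * La) * (a' - a)))) := by
    linear_combination (-(c' * b' * (a * c + 1)) + c' * c * b * a') * hu1 +
      (b * c + (a * Lb - b * La) * c ^ 2) * hu2
  rw [e]
  refine pinv_mul hi' (pinv_mul hi (pinv_mul hi (tj_sub
    (pinv_mul ha (tj_sub (pinv_mul ha t1) (pinv_mul hb t0))) ?_)))
  rw [sq]
  exact (norm_mul_le _ _).trans (mul_le_mul (tj_sub (pinv_mul ha hLb) (pinv_mul hb hLa)) s0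
    (norm_nonneg _) (norm_nonneg _))

/-- The chain rule for the coordinates. -/
theorem xc_der {B k : Type} [CommRing B] [CommRing k] [Algebra k B] {ψ : R →+* B}
    (h : IsUnit (ψ E.e0)) (D : Derivation k B B) (η : ι → B)
    (h0 : D (ψ E.e0) = ∑ l, ψ (S.del l E.e0) * η l)
    (h1 : ∀ i, D (ψ (E.e i)) = ∑ l, ψ (S.del l (E.e i)) * η l) (i : ι) :
    D (E.xc ψ i) = (E.Jm ψ *ᵥ η) i := by
  have hu := Ring.mul_inverse_cancel _ h
  have eJ : (E.Jm ψ *ᵥ η) i = (ψ E.e0 * D (ψ (E.e i)) - ψ (E.e i) * D (ψ E.e0)) *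
      Ring.inverse (ψ E.e0) ^ 2 := by
    rw [h0, h1, Finset.mul_sum, Finset.mul_sum, ← Finset.sum_sub_distrib, Finset.sum_mul]
    refine Finset.sum_congr rfl fun l _ => ?_
    simp only [Fr.Jm, Fr.nz, Fr.dq, Matrix.of_apply, map_sub, map_mul]
    ring
  have hD := congrArg D hu
  rw [D.leibniz, D.map_one_eq_zero, smul_eq_mul, smul_eq_mul] at hD
  rw [eJ]
  simp only [Fr.xc, Fr.nz, pow_one]
  rw [D.leibniz, smul_eq_mul, smul_eq_mul]
  linear_combination (ψ (E.e i) * Ring.inverse (ψ E.e0)) * hD -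
    (ψ (E.e i) * D (Ring.inverse (ψ E.e0)) + Ring.inverse (ψ E.e0) * D (ψ (E.e i))) * hu

/-- Column operations reduce the bracket to `k * e0 ^ (card + 1) * det Jm`. -/
theorem br_eq {B : Type} [CommRing B] {ψ : R →+* B} (h : IsUnit (ψ E.e0)) (k : ℤ) :
    ψ (Wr.br S.del (fun _ => k) E.oe) =
      k * ψ E.e0 ^ (Fintype.card ι + 1) * (E.Jm ψ).det := by
  have hu := Ring.mul_inverse_cancel _ h
  have e : ((Wr.brM S.del (fun _ => k) E.oe).map ψ).submatrix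
      (Equiv.optionEquivSumPUnit.{0} ι).symm (Equiv.optionEquivSumPUnit.{0} ι).symm =
      Matrix.fromBlocks (ψ E.e0 • (E.Jm ψ)ᵀ) (Matrix.of fun l _ => ψ (S.del l E.e0)) 0
        (Matrix.of fun _ _ => k * ψ E.e0) *
      Matrix.fromBlocks 1 0 (Matrix.of fun _ i => E.xc ψ i) 1 := by
    rw [Matrix.fromBlocks_multiply]
    ext r c
    rcases r with l | r <;> rcases c with i | c
    · simp [Wr.brM, Wr.col, Fr.oe, Matrix.mul_apply, Fr.Jm, Fr.xc, Fr.nz, Fr.dq]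
      linear_combination (-(ψ (S.del l (E.e i)) * (ψ E.e0 * Ring.inverse (ψ E.e0) + 1)) +
        ψ (E.e i) * ψ (S.del l E.e0) * Ring.inverse (ψ E.e0)) * hu
    · simp [Wr.brM, Wr.col, Fr.oe]
    · simp [Wr.brM, Wr.col, Fr.oe, Matrix.mul_apply, Fr.xc, Fr.nz]
      linear_combination (-(k * ψ (E.e i))) * hu
    · simp [Wr.brM, Wr.col, Fr.oe]
  rw [Wr.br, RingHom.map_det, RingHom.mapMatrix_apply,
    ← Matrix.det_submatrix_equiv_self (Equiv.optionEquivSumPUnit.{0} ι).symm, e, Matrix.det_mul,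
    Matrix.det_fromBlocks_zero₂₁, Matrix.det_fromBlocks_zero₁₂, Matrix.det_smul,
    Matrix.det_transpose, Matrix.det_unique (n := PUnit.{1}), Matrix.det_one, Matrix.det_one,
    Matrix.of_apply]
  ring

end Fr

end Pool.Agent.E7
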