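import Pool.Agent.Lib.MP_7e5527_ag.EO.Lv2
import Pool.Agent.Lib.MP_7e5527_ag.EO.OM
import Pool.Agent.Lib.MP_7e5527_ag.EO.OB
import Pool.Agent.Lib.MP_7e5527_ag.EO.OO
import Pool.Agent.Lib.MP_7e5527_ag.EO.TJ
import Pool.Agent.Lib.MP_7e5527_ag.E7.Glue

/-! The equations of the curve. -/

open Filter Topology Polynomial Matrix

noncomputable section

namespace Pool.Agent.E7

open scoped Polynomial.Bivariate

variable {p : ℕ} [Fact p.Prime]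

variable {e : ℂ_[p] ≃+* ℂ} {Z0 : HH} {χ : Fn → ℂ_[p]} {c : ℂ} {k0 N : ℕ} {S0 : Set Fn}
  {χb : CQ e →+* ℂ_[p]}

/-- The frame of the points. -/
abbrev OPts.E (X : OPts e χ (DD p N) S0) (O : OrdC e Z0 χ c k0 S0) : Fr (TWE e) :=
  frm e X.G fun o => O.mem _ (X.mem o)

/-- The characters of the points. -/
abbrev OPts.ψ (X : OPts e χ (DD p N) S0) (χb : CQ e →+* ℂ_[p]) (n : ℕ) : RQ e →+* ℂ_[p] :=
  chAB χb (X.sim n) (X.B n)

variable (X : OPts e χ (DD p N) S0) (O : OrdC e Z0 χ c k0 S0) (hx : Ext e χ χb) (hN : 0 < N)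
  (hD : Deep p N)

include hx in
theorem OPts.gp (n : ℕ) : (X.E O).Gp (X.ψ χb n) := frm_gp _ hx _ _ (X.unit n)

include hx hN hD in
/-- `kl_N`, `Kl.fib`, `FC.prop`, `X.sep`. -/
theorem OPts.fib (x : Ix → ℂ_[p]) : {n | (X.E O).xc (X.ψ χb n) = x}.Finite := by
  have hp := (Fact.out : p.Prime).one_lt
  have hG := fun o => O.mem _ (X.mem o)
  obtain ⟨D0, hK⟩ := kl_N (e := e) hG hN hD
  refine hK.fib (j0 := RingHom.id _) (fun _ _ h => h) (X.gp O hx)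
    (fun n c => chAB_lin hx (X.sim n) (X.B n) c) (fun n m hnm => ?_) x
  by_contra hn
  push Not at hn
  have h0 : MI (Dp N) k0 ((X.E O).e0 : Fn) := frm_mi hG hD none
  have hu : ∀ n, χ (opP (X.A n) (X.B n) ((X.E O).e0 : Fn)) ≠ 0 := fun n h => by
    have h1 := X.unit n none
    rw [show clsF p (oT none) (X.G none) = ((X.E O).e0 : Fn) from rfl, h, norm_zero] at h1
    exact zero_ne_one h1
  obtain ⟨d, hd, h1⟩ := FC.prop (O.fc.opP (X.sim n) (X.B n)) (O.fc.opP (X.sim m) (X.B m))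
    (DD_le p N) O.pos ⟨h0.1, h0.2.mono (DD_le_Dp p N)⟩ (hu n) (hu m) fun a F hF => by
      have h2 := hn a ⟨F, hF.1.mem_RQ (hF.mem_GZ fun B hB => nE_mem_DD hp N hB)⟩ hF
      rwa [Fr.nz, Fr.nz, chAB_eq hx _ _ h0.1, chAB_eq hx _ _ h0.1,
        chAB_eq hx _ _ (F := ⟨F, _⟩) hF.1, chAB_eq hx _ _ (F := ⟨F, _⟩) hF.1,
        Ring.inverse_eq_inv'] at h2
  exact X.sep n m hnm ⟨d, hd, fun k F hF => h1 k F ⟨hF.1, hF.2.mono (DD_le p N)⟩⟩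

include hx hN hD in
/-- `br_mi`, `br_eq`, `Jm_det`, `TWE_br`, `X.kill`. -/
theorem OPts.jac : ¬ Van (Wr.br dl (fun _ => (k0 : ℤ)) fun o => ((X.E O).oe o : Fn)) X.h := fun hv => by
  have hp := (Fact.out : p.Prime).one_lt
  have hG := fun o => O.mem _ (X.mem o)
  have h1 := br_mi (DD_le p N) (DD_index hp hN) (k := fun _ => (k0 : ℤ))
    (F := fun o => ((X.E O).oe o : Fn)) fun o =>
      ⟨(frm_mi hG hD o).1, (frm_mi hG hD o).2.mono (DD_le_Dp p N)⟩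
  have h2 := X.kill 0 _ _ h1 (hv.mono fun t ht => by rw [Pi.pow_apply, ht, zero_pow two_ne_zero])
  have e1 : ((Wr.br (TWE e).del (fun _ => (k0 : ℤ)) (X.E O).oe ^ 2 : RQ e) : Fn) =
      (Wr.br dl (fun _ => (k0 : ℤ)) fun o => ((X.E O).oe o : Fn)) ^ 2 := by
    rw [SubmonoidClass.coe_pow, TWE_br]
  have h3 := X.gp O hx 0
  rw [← e1] at h1 h2
  rw [← chAB_eq hx (X.sim 0) _ h1.1, map_pow, Fr.br_eq h3.unit] at h2
  exact pow_ne_zero 2 (mul_ne_zero (mul_ne_zero (by exact_mod_cast O.pos.ne')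
    (pow_ne_zero _ h3.unit.ne_zero)) h3.Jm_det.isUnit.ne_zero) h2

include hx in
theorem OPts.alg (n b : ℕ) (i : Ix) :
    IsAlgebraic ℚ_[p] ((X.E O).xc ((X.ψ χb n).comp ((TWE e).fr ^ b)) i) := by
  have hp := (Fact.out : p.Prime).pos
  have hG := fun o => O.mem _ (X.mem o)
  have hA := isSim_nat (pow_pos hp b)
  have h0 : ∀ o, MF k0 ((X.E O).oe o : Fn) := fun o => by
    rw [frm_oe]
    exact (hG o).1.1.clsF hp _
  have h1 : ∀ o, (X.ψ χb n).comp ((TWE e).fr ^ b) ((X.E O).oe o) =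
      χ (opP ((((p ^ b : ℕ) : ℚ) • 1) * X.A n) (lin (((p ^ b : ℕ) : ℚ) • 1) (X.B n) + 0)
        ((X.E O).oe o : Fn)) := fun o => by
    rw [RingHom.comp_apply, chAB_eq hx _ _ (k := k0) (by rw [TWE_fr_pow]; exact (h0 o).opP hA 0),
      TWE_fr_pow, opP_opP (X.sim n)]
  have h2 := O.alg_opP (hA.mul (X.sim n)) (lin (((p ^ b : ℕ) : ℚ) • 1) (X.B n) + 0)
    (h0 (some i)) (h0 none) (frm_int hG _) (frm_int hG _)
  rw [← h1, ← h1, div_eq_mul_inv] at h2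
  rw [Fr.xc, Fr.nz, pow_one, Ring.inverse_eq_inv']
  exact h2

section

variable {h : ℂ → Ix → ℂ} {Δ : Subgroup Gb} {θ : Fn} {v : ℕ → Fn → ℂ_[p]} {B : Type} [CommRing B]
  [Algebra ℂ_[p] B]

theorem og1b_norm (R : BRo e h Δ k0 θ v B) (hu : ∀ n, ‖v n θ‖ = 1) (n : ℕ) {m : ℤ} {F : Fn}
    (hF : MI Δ (k0 * m) F) : ‖R.ep n (R.io m F)‖ = ‖v n F‖ := by
  rw [R.ev n m F hF, norm_div, norm_zpow, hu, _root_.one_zpow, div_one]

theorem og1b_hom (R : BRo e h Δ k0 θ v B) (hΔ : Δ ≤ Gam) {a b : Fn} (hθ : MI Δ (k0 * 1) θ)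
    (ha : MI Δ (k0 * 1) a) (hb : MI Δ (k0 * 1) b) {P : MvPolynomial (Fin 3) ℂ_[p]} {n : ℕ}
    (hP : P.IsHomogeneous n) :
    MI Δ (k0 * n) (MvPolynomial.aeval ![θ, a, b] (MvPolynomial.map e.toRingHom P)) ∧
      (Van (MvPolynomial.aeval ![θ, a, b] (MvPolynomial.map e.toRingHom P)) h ↔
        MvPolynomial.aeval ![1, R.io 1 a, R.io 1 b] P = 0) := by
  obtain ⟨h1, h2⟩ := R.aeval hΔ (m := 1) (F := ![θ, a, b]) (fun r => by
    fin_cases r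
    exacts [hθ, ha, hb]) hP
  have h3 : (fun r => R.io 1 (![θ, a, b] r)) = ![1, R.io 1 a, R.io 1 b] := by
    funext r
    fin_cases r
    · exact R.th
    · rfl
    · rfl
  rw [h3] at h2
  rw [mul_one] at h1 h2
  exact ⟨h1, by rw [← R.van _ _ h1, h2]⟩

theorem og1b_dep [IsDomain B] (R : BRo e h Δ k0 θ v B) (hd : Dep2 ℂ_[p] B)
    (hu : ∀ n, ‖v n θ‖ = 1) (hb : ∀ k F, MI Δ k F → ∃ C : ℝ, ∀ n, ‖v n F‖ ≤ C) {a : Fn}
    (ha : MI Δ (k0 * 1) a) {m : ℤ} {F : Fn} (hF : MI Δ (k0 * m) F) (h0 : ¬ Van F h) :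
    ∃ Q0 : ℂ_[p][X], Q0 ≠ 0 ∧ ∃ C : ℝ, ∀ n, ‖Q0.eval (R.ep n (R.io 1 a))‖ ≤ C * ‖v n F‖ := by
  obtain ⟨Q0, hQ, P, h1⟩ := curve_dep hd (R.io 1 a) (R.io m F) fun h1 => h0 ((R.van m F hF).1 h1)
  obtain ⟨C, hC⟩ := glue_bdd (fun n => ![R.ep n (R.io 1 a), R.ep n (R.io m F)]) (fun r => by
    fin_cases r
    · obtain ⟨C, hC⟩ := hb _ _ ha
      exact ⟨C, fun n => (og1b_norm R hu n ha).le.trans (hC n)⟩
    · obtain ⟨C, hC⟩ := hb _ _ hF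
      exact ⟨C, fun n => (og1b_norm R hu n hF).le.trans (hC n)⟩) P
  refine ⟨Q0, hQ, C, fun n => ?_⟩
  rw [← ccurve_eps1, h1, map_mul, ccurve_eps2, norm_mul, og1b_norm R hu n hF, mul_comm]
  exact mul_le_mul_of_nonneg_right (hC n) (norm_nonneg _)

theorem og1b_main (E : Fr (TWE e)) (ψ : ℕ → RQ e →+* ℂ_[p]) (hA : Arc h) (hΔ : Δ ≤ Gam)
    (hi : Δ.relIndex Gam ≠ 0) (hn : ∀ B ∈ Lam, nE (toR ℂ B) ∈ Δ) (hk : 0 < k0)
    (hf : ∀ o, MI Δ k0 (E.oe o)) (hv : ∀ n, FC e (v n))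
    (hψ : ∀ n k (F : RQ e), MF k F → ψ n F = v n F) (hch : ∀ n, (TWE e).Ch (ψ n))
    (hu : ∀ n, ‖v n E.e0‖ = 1) (kill : ∀ n k F, MI Δ k F → Van F h → v n F = 0)
    (halg : ∀ n i, IsAlgebraic ℚ_[p] (E.xc (ψ n) i)) (hfib : ∀ x, {n | E.xc (ψ n) = x}.Finite)
    (hjac : ¬ Van (Wr.br dl (fun _ => (k0 : ℤ)) fun o => (E.oe o : Fn)) h) :
    ∃ (i1 : Ix) (E0 : IntermediateField ℚ_[p] ℂ_[p]), FiniteDimensional ℚ_[p] E0 ∧
      (∀ y, {n | E.xc (ψ n) i1 = y}.Finite) ∧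
      (∀ j, ∃ P : ℂ_[p][X][Y], P ≠ 0 ∧ ∀ n, P.evalEval (E.xc (ψ n) i1) (E.xc (ψ n) j) = 0) ∧
      Nonempty (Pk E ψ E0 i1) := by
  classical
  have h0' : ∀ n, v n E.e0 ≠ 0 := fun n h1 => by simpa [h1] using hu n
  obtain ⟨B, _, _, _, ⟨R⟩⟩ := exists_BRo (θ := E.e0) hA hΔ (hf none) hv h0' kill
  have hd := R.dep2 hA hΔ hi (hf none)
  have hf1 : ∀ o, MI Δ (k0 * 1) (E.oe o) := fun o => (mul_one (k0 : ℤ)).symm ▸ hf o
  have hH0 : ∀ o, IsHol (E.oe o : Fn) := fun o => (hf o).1.gd.isHol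
  have hX : ∀ n i, R.ep n (R.io 1 (E.e i)) = E.xc (ψ n) i := fun n i => by
    rw [R.ev n 1 (E.e i) (hf1 (some i)), Fr.xc, Fr.nz, hψ n _ (E.e i) (hf (some i)).1,
      hψ n _ E.e0 (hf none).1, Ring.inverse_eq_inv', pow_one, zpow_one, div_eq_mul_inv]
  have hb : ∀ k F, MI Δ k F → ∃ C : ℝ, ∀ n, ‖v n F‖ ≤ C := fun k F hF => by
    obtain ⟨C, h1, h2⟩ := (TWE e).bdd ⟨F, hF.1.mem_RQ (hF.mem_GZ hn)⟩
    refine ⟨C, fun n => ?_⟩
    have h3 := hch n _ C h1 h2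
    rwa [hψ n k _ hF.1] at h3
  obtain ⟨i1, E1, P, hE1, hco, h0, h1, hfb⟩ := curve_alg (K0 := ℚ_[p]) hd
    (fun i => R.io 1 (E.e i)) R.ep (fun n i => by rw [hX]; exact halg n i)
    (fun c => by simp only [hX]; exact hfib c)
  choose m Ph hhom hPco hPh using fun j => exists_homog E1 (P j) (hco j)
  let Φ : Ix → RQ e := fun j => MvPolynomial.eval₂ (TWE e).cst ![E.e0, E.e i1, E.e j] (Ph j)
  have hΦ : ∀ j, (Φ j : Fn) = MvPolynomial.aeval ![(E.e0 : Fn), E.e i1, E.e j]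
      (MvPolynomial.map e.toRingHom (Ph j)) := fun j => by
    have h2 : (fun r => ((![E.e0, E.e i1, E.e j] r : RQ e) : Fn)) =
        ![(E.e0 : Fn), E.e i1, E.e j] := by
      funext r
      fin_cases r <;> rfl
    rw [← h2]
    exact TWE_aeval _ _
  have hΦ' : (fun j => (Φ j : Fn)) = fun j => MvPolynomial.aeval ![(E.e0 : Fn), E.e i1, E.e j]
      (MvPolynomial.map e.toRingHom (Ph j)) := funext hΦ
  have hom := fun j {Q : MvPolynomial (Fin 3) ℂ_[p]} {n : ℕ} (hQ : Q.IsHomogeneous n) =>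
    og1b_hom R hΔ (a := E.e i1) (b := E.e j) (hf1 none) (hf1 (some i1)) (hf1 (some j)) hQ
  have hm2 : ∀ j, MI Δ (k0 * m j) (Φ j) := fun j => by
    rw [hΦ]
    exact (hom j (hhom j)).1
  have hvan : ∀ j, Van (Φ j) h := fun j => by
    rw [hΦ, (hom j (hhom j)).2, (hPh j B _ _).1]
    exact h0 j
  let k : Option Ix → ℤ := fun o => o.elim (k0 : ℤ) fun j => k0 * (m j : ℤ)
  have hM : ∀ a : Option Ix, MI Δ (k a) (a.elim (E.e0 : Fn) fun j => Φ j) := fun a => by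
    cases a with
    | none => exact hf none
    | some j => exact hm2 j
  have hDk : ¬ Van (Wr.Dk dl k (fun o => o.elim (E.e0 : Fn) fun j => Φ j) i1 k0 (E.e i1)) h := by
    have h2 := Dk_eq_prod' hH0 k0 _ m (fun j => (hhom j).map e.toRingHom) i1
    rw [hΦ']
    have hH : ∀ j, IsHol (MvPolynomial.aeval ![(E.e0 : Fn), E.e i1, E.e j]
        (MvPolynomial.pderiv 2 (MvPolynomial.map e.toRingHom (Ph j)))) := fun j =>
      isHol_aeval (fun r => by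
        fin_cases r
        exacts [hH0 none, hH0 (some i1), hH0 (some j)]) _
    intro h3
    rcases van_mul hA (mem_Hol.1 (prod_mem fun j _ => mem_Hol.2 (hH j))) (isHol_br _ hH0)
      (h2 ▸ h3) with h4 | h4
    · obtain ⟨j, _, hj⟩ := van_prod hA _ (fun j _ => hH j) h4
      rw [MvPolynomial.pderiv_map, (hom j (hhom j).pderiv).2, (hPh j B _ _).2] at hj
      exact h1 j hj
    · exact hjac h4
  have PP : ∀ d, PB d := fun d => (exists_PB d).some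
  have h4 := fun d => (psi_mi hΔ hi hM i1 (PP d)).pow hΔ k0
  have hψ' : ∀ d,
      ¬ Van ((PsiF k (fun o => o.elim (E.e0 : Fn) fun j => Φ j) i1 (PP d) ^ 2) ^ k0) h :=
    fun d h2 => psi_not_van hA (fun a => (hM a).1.gd.isHol) i1 (fun j _ => hvan j)
      (Int.natCast_ne_zero.2 hk.ne') (fun h3 => h0' 0 (kill 0 _ _ (hf none) h3)) (hH0 (some i1))
      hDk (PP d)
      (van_pow hA (isHol_PsiF _ (fun a => (hM a).1.gd.isHol) _ _) (by rwa [← pow_mul] at h2))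
  refine ⟨i1, E1, hE1, fun c => ?_, fun j => ?_, ⟨{
    Ph := Ph
    m := m
    Ψ := fun d => ⟨_, (h4 d).1.mem_RQ ((h4 d).mem_GZ hn)⟩
    hom := hhom
    coE := hPco
    van := fun n j => ?_
    dep := fun d => ?_
    orc := orc_E7 k E.e0 Φ i1 PP (r := 2 * k0) (by omega) _ fun _ => (pow_mul _ _ _).symm }⟩⟩
  · simp only [← hX]
    exact hfb c
  · obtain ⟨P, hP, h2⟩ := curve_rel hd (R.io 1 (E.e i1)) (R.io 1 (E.e j))
    refine ⟨P, hP, fun n => ?_⟩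
    rw [← hX, ← hX]
    exact h2 _
  · have h2 := (hPh j ℂ_[p] (E.xc (ψ n) i1) (E.xc (ψ n) j)).1
    rw [MvPolynomial.aeval_eq_eval, MvPolynomial.aeval_eq_eval] at h2
    rw [h2, ← hX, ← hX, ← ccurve_eps2, h0 j, map_zero]
  · obtain ⟨Q0, hQ, C, hC⟩ := og1b_dep R hd hu hb (hf1 (some i1)) (h4 d) (hψ' d)
    refine ⟨Q0, hQ, C, fun n => ?_⟩
    rw [← hX, hψ n _ _ (h4 d).1]
    exact hC n

end

include hx hN hD in
/-- As `exists_data`, `glue_dep`, with `BRo` for `θ = e0`, `v n F = χ (opP (A n) (B n) F)` and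
`Ψ d = PsiF ^ (2 * k0)` of weight `k0 * (2 * wP)`. -/
theorem OPts.pk : ∃ (i1 : Ix) (E0 : IntermediateField ℚ_[p] ℂ_[p]), FiniteDimensional ℚ_[p] E0 ∧
    (∀ y, {n | (X.E O).xc (X.ψ χb n) i1 = y}.Finite) ∧
    (∀ j, ∃ P : ℂ_[p][X][Y], P ≠ 0 ∧
      ∀ n, P.evalEval ((X.E O).xc (X.ψ χb n) i1) ((X.E O).xc (X.ψ χb n) j) = 0) ∧
    Nonempty (Pk (X.E O) (X.ψ χb) E0 i1) := by
  have hp := (Fact.out : p.Prime).one_lt
  refine og1b_main (v := fun n F => χ (opP (X.A n) (X.B n) F)) (X.E O) (X.ψ χb) X.arc (DD_le p N)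
    (DD_index hp hN) (fun B hB => nE_mem_DD hp N hB) O.pos
    (fun o => ⟨(frm_mi _ hD o).1, (frm_mi _ hD o).2.mono (DD_le_Dp p N)⟩)
    (fun n => O.fc.opP (X.sim n) (X.B n)) (fun n k F hF => chAB_eq hx (X.sim n) (X.B n) hF)
    (fun n => chAB_ch hx (X.sim n) (X.B n)) (fun n => X.unit n none) X.kill (fun n i => ?_)
    (X.fib O hx hN hD) (X.jac O hx hN hD)
  exact X.alg O hx n 0 i

end Pool.Agent.E7
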