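import Pool.Agent.Lib.MP_7e5527_ag.EO.QOrd
import Pool.Agent.Lib.MP_7e5527_ag.E7.Good3

/-! The closure of the forms for the Gauss norm. -/

open Filter Topology Polynomial Matrix

noncomputable section

namespace Pool.Agent.E7

variable {p : ℕ} [Fact p.Prime]

/-- The Gauss norm is at most `B`. -/
def GB (e : ℂ_[p] ≃+* ℂ) (B : ℝ) (F : Fn) : Prop := ∀ T, ‖e.symm (cf F T)‖ ≤ B

/-- Sums of forms. -/
def SF : AddSubmonoid Fn := AddSubmonoid.closure {G | ∃ k, MF k G}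

/-- Good functions that are limits of sums of forms. -/
def IsCQ (e : ℂ_[p] ≃+* ℂ) (F : Fn) : Prop := Gd F ∧ ∀ ε : ℝ, 0 < ε → ∃ G ∈ SF, GB e ε (F - G)

variable {e : ℂ_[p] ≃+* ℂ}

theorem cf_add {F G : Fn} (hF : Gd F) (hG : Gd G) : cf (F + G) = cf F + cf G :=
  (hF.spec.add hG.spec).cf_eq

theorem cf_sub {F G : Fn} (hF : Gd F) (hG : Gd G) : cf (F - G) = cf F - cf G := by
  have h := (hF.spec.add (hG.spec.smul (-1))).cf_eq
  rwa [neg_one_smul, neg_one_smul, ← sub_eq_add_neg, ← sub_eq_add_neg] at h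

theorem cf_smul {F : Fn} (hF : Gd F) (c : ℂ) : cf (c • F) = c • cf F :=
  (hF.spec.smul c).cf_eq

theorem Gd.gb (e : ℂ_[p] ≃+* ℂ) {F : Fn} (hF : Gd F) : ∃ B : ℝ, 0 < B ∧ GB e B F := by
  obtain ⟨s, hs⟩ := hF.spec.fg
  obtain ⟨C, h1, h2⟩ := good2_bdd e s
  exact ⟨C, h1, fun T => h2 _ (hs T)⟩

theorem qc_mono {B B' : ℝ} {F : Fn} (h : GB e B F) (hB : B ≤ B') : GB e B' F :=
  fun T => (h T).trans hB

theorem qc_zero {B : ℝ} (hB : 0 ≤ B) : GB e B 0 := fun T => by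
  rw [GoodC.zero.cf_eq, Pi.zero_apply, map_zero, norm_zero]
  exact hB

theorem qc_smul {B : ℝ} {F : Fn} (hF : Gd F) (h : GB e B F) (c : ℂ) :
    GB e (‖e.symm c‖ * B) (c • F) := fun T => by
  rw [cf_smul hF, Pi.smul_apply, smul_eq_mul, map_mul, norm_mul]
  exact mul_le_mul_of_nonneg_left (h T) (norm_nonneg _)

theorem qc_gsub {F G : Fn} (hF : Gd F) (hG : Gd G) : Gd (F - G) := GQ.sub_mem hF hG

theorem GB.add {B : ℝ} {F G : Fn} (hF : Gd F) (hG : Gd G) (h : GB e B F) (h' : GB e B G) :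
    GB e B (F + G) := fun T => by
  rw [cf_add hF hG, Pi.add_apply, map_add]
  exact (IsUltrametricDist.norm_add_le_max _ _).trans (max_le (h T) (h' T))

theorem qc_sub {B : ℝ} {F G : Fn} (hF : Gd F) (hG : Gd G) (h : GB e B F) (h' : GB e B G) :
    GB e B (F - G) := fun T => by
  rw [cf_sub hF hG, Pi.sub_apply, map_sub, sub_eq_add_neg]
  exact (IsUltrametricDist.norm_add_le_max _ _).trans (max_le (h T) (by rw [norm_neg]; exact h' T))

theorem GB.mul {B B' : ℝ} {F G : Fn} (hF : Gd F) (hG : Gd G) (h : GB e B F) (h' : GB e B' G) :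
    GB e (B * B') (F * G) := fun T => by
  have h0 : 0 ≤ B := (norm_nonneg _).trans (h 0)
  have h1 : 0 ≤ B' := (norm_nonneg _).trans (h' 0)
  rw [(hF.spec.mul hG.spec).cf_eq]
  refine finsum_induction (fun x => ‖e.symm x‖ ≤ B * B') ?_ (fun x y hx hy => ?_) fun S => ?_
  · rw [map_zero, norm_zero]
    positivity
  · rw [map_add]
    exact (IsUltrametricDist.norm_add_le_max _ _).trans (max_le hx hy)
  · rw [map_mul, norm_mul]
    exact mul_le_mul (h _) (h' _) (norm_nonneg _) h0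

theorem GB.opP {B : ℝ} {F : Fn} (hF : Gd F) (h : GB e B F) {A : Matrix Ix Ix ℚ} {c : ℚ}
    (hA : IsSim A c) (B' : Ix → ℚ) : GB e B (opP A B' F) := fun T => by
  rw [(hF.spec.opP hA B').cf_eq]
  beta_reduce
  rw [map_mul, norm_mul, good2_norm_eT, mul_one]
  exact h _

theorem qc_mf {k : ℤ} {F : Fn} (h : MF k F) : F ∈ SF := AddSubmonoid.subset_closure ⟨k, h⟩

theorem qc_map {S : AddSubmonoid Fn} (f : Fn →+ Fn) (h : ∀ k G, MF k G → f G ∈ S) {F : Fn}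
    (hF : F ∈ SF) : f F ∈ S :=
  (AddSubmonoid.closure_le (S := S.comap f)).2 (fun G hG => h _ G (Exists.choose_spec hG)) hF

theorem SF.gd {F : Fn} (h : F ∈ SF) : Gd F :=
  qc_map (S := GQ.toSubsemiring.toAddSubmonoid) (AddMonoidHom.id _) (fun _ _ hG => hG.gd) h

theorem SF.mul {F G : Fn} (h : F ∈ SF) (h' : G ∈ SF) : F * G ∈ SF :=
  qc_map (AddMonoidHom.mulRight G) (fun _ F hF =>
    qc_map (AddMonoidHom.mulLeft F) (fun _ _ hG => qc_mf (hF.mul hG)) h') h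

theorem SF.smul {F : Fn} (h : F ∈ SF) (c : ℂ) : c • F ∈ SF :=
  qc_map (DistribSMul.toAddMonoidHom Fn c) (fun _ _ hG => qc_mf (hG.smul c)) h

theorem qc_ssub {F G : Fn} (h : F ∈ SF) (h' : G ∈ SF) : F - G ∈ SF := by
  rw [sub_eq_add_neg, ← neg_one_smul ℂ G]
  exact add_mem h (SF.smul h' _)

theorem SF.isCQ {F : Fn} (h : F ∈ SF) : IsCQ e F :=
  ⟨SF.gd h, fun ε hε => ⟨F, h, by rw [sub_self]; exact qc_zero hε.le⟩⟩

theorem MF.isCQ {k : ℤ} {F : Fn} (h : MF k F) : IsCQ e F := SF.isCQ (qc_mf h)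

theorem IsCQ.add {F G : Fn} (h : IsCQ e F) (h' : IsCQ e G) : IsCQ e (F + G) := by
  refine ⟨GQ.add_mem h.1 h'.1, fun ε hε => ?_⟩
  obtain ⟨F', a1, a2⟩ := h.2 ε hε
  obtain ⟨G', b1, b2⟩ := h'.2 ε hε
  refine ⟨F' + G', add_mem a1 b1, ?_⟩
  rw [add_sub_add_comm]
  exact GB.add (qc_gsub h.1 (SF.gd a1)) (qc_gsub h'.1 (SF.gd b1)) a2 b2

theorem IsCQ.mul {F G : Fn} (h : IsCQ e F) (h' : IsCQ e G) : IsCQ e (F * G) := by
  refine ⟨GQ.mul_mem h.1 h'.1, fun ε hε => ?_⟩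
  obtain ⟨B, hB, h1⟩ := h.1.gb e
  obtain ⟨G', b1, b2⟩ := h'.2 (ε / B) (by positivity)
  obtain ⟨B', hB', h2⟩ := (SF.gd b1).gb e
  obtain ⟨F', a1, a2⟩ := h.2 (ε / B') (by positivity)
  refine ⟨F' * G', SF.mul a1 b1, ?_⟩
  have a3 := qc_gsub h.1 (SF.gd a1)
  have b3 := qc_gsub h'.1 (SF.gd b1)
  rw [show F * G - F' * G' = F * (G - G') + (F - F') * G' by ring]
  refine GB.add (GQ.mul_mem h.1 b3) (GQ.mul_mem a3 (SF.gd b1))
    (qc_mono (GB.mul h.1 b3 h1 b2) ?_) (qc_mono (GB.mul a3 (SF.gd b1) a2 h2) ?_)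
  · rw [mul_div_cancel₀ _ hB.ne']
  · rw [div_mul_cancel₀ _ hB'.ne']

theorem IsCQ.cst (c : ℂ) : IsCQ e (algebraMap ℂ Fn c) := by
  rw [Algebra.algebraMap_eq_smul_one]
  exact (MF.one.smul c).isCQ

/-- The closure as an algebra. -/
def CQ (e : ℂ_[p] ≃+* ℂ) : Subalgebra ℂ Fn where
  carrier := {F | IsCQ e F}
  mul_mem' := IsCQ.mul
  add_mem' := IsCQ.add
  algebraMap_mem' := IsCQ.cst

theorem IsCQ.closed {F : Fn} (hF : Gd F) (h : ∀ ε : ℝ, 0 < ε → ∃ G, IsCQ e G ∧ GB e ε (F - G)) :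
    IsCQ e F := by
  refine ⟨hF, fun ε hε => ?_⟩
  obtain ⟨G, a1, a2⟩ := h ε hε
  obtain ⟨G', b1, b2⟩ := a1.2 ε hε
  refine ⟨G', b1, ?_⟩
  rw [← sub_add_sub_cancel F G G']
  exact GB.add (qc_gsub hF a1.1) (qc_gsub a1.1 (SF.gd b1)) a2 b2

theorem IsCQ.opP {F : Fn} (h : IsCQ e F) {A : Matrix Ix Ix ℚ} {c : ℚ} (hA : IsSim A c)
    (B : Ix → ℚ) : IsCQ e (opP A B F) := by
  refine ⟨⟨_, h.1.spec.opP hA B⟩, fun ε hε => ?_⟩
  obtain ⟨G, a1, a2⟩ := h.2 ε hε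
  refine ⟨E7.opP A B G, qc_map (E7.opP A B).toRingHom.toAddMonoidHom
    (fun _ _ hG => qc_mf (hG.opP hA B)) a1, ?_⟩
  rw [← map_sub]
  exact GB.opP (qc_gsub h.1 (SF.gd a1)) a2 hA B

theorem IsCQ.clsF {F : Fn} (h : IsCQ e F) {N : ℕ} (hN : 0 < N) (T0 : Ix → ℚ) :
    IsCQ e (clsF N T0 F) :=
  (Submodule.span_le (p := Subalgebra.toSubmodule (CQ e))).2
    (by
      rintro _ ⟨B, -, rfl⟩
      exact h.opP IsSim.one B) (clsF_span h.1 hN T0).2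

theorem qc_res {F : Fn} (h : IsCQ e F) (hZ : F ∈ GZ) (i : Ix) {N : ℕ} (hN : 0 < N) :
    ∃ G, IsCQ e G ∧ ∀ T, ∃ n : ℤ, cf (dl i F - G) T = N * n * cf F T := by
  classical
  have key : ∀ c : ℕ, ∃ G, G ∈ CQ e ∧ GoodC G fun T =>
      if ∃ n : ℤ, tr (T - (c : ℚ) • TT i) ((N : ℚ)⁻¹ • UU i) = n then cf F T else 0 := fun c => by
    obtain ⟨M, w, h1⟩ := h.1.spec.filter 0 ((c : ℚ) • TT i) ((N : ℚ)⁻¹ • UU i)
    refine ⟨_, Subalgebra.sum_mem _ fun j _ => Subalgebra.smul_mem _ ?_ _, h1⟩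
    rw [sl_nE_eq]
    exact h.opP IsSim.one _
  choose G h1 h2 using key
  have h3 := GoodC.finsum (Finset.range N) fun c _ => (h2 c).smul (c : ℂ)
  refine ⟨_, Subalgebra.sum_mem (CQ e) fun c (_ : c ∈ Finset.range N) =>
    Subalgebra.smul_mem _ (h1 c) (c : ℂ), fun T => ?_⟩
  rw [cf_sub ⟨_, h.1.spec.dl i⟩ ⟨_, h3⟩, h3.cf_eq, Pi.sub_apply, cf_dl i h.1, Finset.sum_apply]
  by_cases h0 : cf F T = 0
  · exact ⟨0, by simp [h0]⟩
  obtain ⟨m, hm⟩ := Lam.tr_int (hZ.2 T h0) (UU_mem i)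
  have hN0 : (N : ℚ) ≠ 0 := Nat.cast_ne_zero.2 hN.ne'
  have h4 : ∀ c : ℕ, (∃ n : ℤ, tr (T - (c : ℚ) • TT i) ((N : ℚ)⁻¹ • UU i) = n) ↔
      (N : ℤ) ∣ m - c := fun c => by
    rw [tr_smul_right, tr_sub_left, tr_smul_left, tr_TT_UU, if_pos rfl, mul_one, hm]
    refine exists_congr fun n => ?_
    rw [inv_mul_eq_iff_eq_mul₀ hN0]
    exact_mod_cast Iff.rfl
  have h5 : 0 ≤ m % N := Int.emod_nonneg _ (by omega)
  have h6 : m % N < N := Int.emod_lt_of_pos _ (by omega)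
  obtain ⟨c, hc⟩ := Int.eq_ofNat_of_zero_le h5
  have h7 : m - c = N * (m / N) := by linarith [Int.emod_add_mul_ediv m N]
  refine ⟨m / N, ?_⟩
  rw [Finset.sum_eq_single_of_mem c (Finset.mem_range.2 (by omega)) fun c' hc' hne => ?_]
  · simp only [Pi.smul_apply, smul_eq_mul, h4]
    rw [if_pos ⟨_, h7⟩, hm, ← sub_mul]
    congr 1
    exact_mod_cast h7
  · simp only [Pi.smul_apply, smul_eq_mul, h4]
    rw [if_neg, mul_zero]
    intro h8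
    have h9 := Int.eq_zero_of_abs_lt_dvd (dvd_sub h8 ⟨_, h7⟩) (by
      have := Finset.mem_range.1 hc'
      rw [abs_lt]
      omega)
    omega

/-- `dl i F` is the limit of the sums `∑ c, c i • clsF (p ^ j) (vec c) F`. -/
theorem IsCQ.dl {F : Fn} (h : IsCQ e F) (hZ : F ∈ GZ) (i : Ix) : IsCQ e (dl i F) := by
  refine IsCQ.closed ⟨_, h.1.spec.dl i⟩ fun ε hε => ?_
  obtain ⟨B, hB, h1⟩ := h.1.gb e
  have hp : ‖(p : ℂ_[p])‖ < 1 := by
    rw [← map_natCast (algebraMap ℚ_[p] ℂ_[p]) p, norm_algebraMap']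
    exact Padic.norm_p_lt_one
  obtain ⟨j, hj⟩ := exists_pow_lt_of_lt_one (div_pos hε hB) hp
  obtain ⟨G, h2, h3⟩ := qc_res h hZ i (pow_pos (Fact.out : p.Prime).pos j)
  refine ⟨G, h2, fun T => ?_⟩
  obtain ⟨n, hn⟩ := h3 T
  rw [hn, map_mul, map_mul, map_natCast, map_intCast, Nat.cast_pow, norm_mul, norm_mul, norm_pow]
  have h4 := IsUltrametricDist.norm_intCast_le_one ℂ_[p] n
  rw [lt_div_iff₀ hB] at hj
  refine (mul_le_mul (mul_le_of_le_one_right (by positivity) h4) (h1 T) (norm_nonneg _)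
    (by positivity)).trans hj.le

/-- An extension of `χ` to the closure. -/
structure Ext (e : ℂ_[p] ≃+* ℂ) (χ : Fn → ℂ_[p]) (χb : CQ e →+* ℂ_[p]) : Prop where
  eq : ∀ k (F : CQ e), MF k F → χb F = χ F
  bd : ∀ (F : CQ e) (B : ℝ), 0 ≤ B → GB e B F → ‖χb F‖ ≤ B
  cst : ∀ c : ℂ, χb (algebraMap ℂ (CQ e) c) = e.symm c

/-- The norms come close to one. -/
theorem qc_dense {r : ℝ} (hr : 1 < r) : ∃ y : ℂ_[p], 1 < ‖y‖ ∧ ‖y‖ < r := by
  obtain ⟨z, hz⟩ := NormedField.exists_one_lt_norm ℂ_[p]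
  obtain ⟨n, hn⟩ := pow_unbounded_of_one_lt ‖z‖ hr
  have h0 : 0 < n := Nat.pos_of_ne_zero fun h => by
    rw [h, pow_zero] at hn
    linarith
  obtain ⟨y, rfl⟩ := IsAlgClosed.exists_pow_nat_eq z h0
  rw [norm_pow] at hz hn
  exact ⟨y, (one_lt_pow_iff_of_nonneg (norm_nonneg _) h0.ne').1 hz,
    lt_of_pow_lt_pow_left₀ n (by linarith) hn⟩

/-- The value on a decomposition. -/
def qcVal (χ : Fn → ℂ_[p]) (F : Fn) (x : ℂ_[p]) : Prop :=
  ∃ (n : ℕ) (k : Fin n → ℤ) (G : Fin n → Fn), (∀ i, MF (k i) (G i)) ∧ F = ∑ i, G i ∧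
    x = ∑ i, χ (G i)

variable {χ : Fn → ℂ_[p]}

theorem qc_vmf {k : ℤ} {F : Fn} (h : MF k F) : qcVal χ F (χ F) :=
  ⟨1, fun _ => k, fun _ => F, fun _ => h, by simp, by simp⟩

theorem qc_vzero : qcVal χ 0 0 := ⟨0, Fin.elim0, Fin.elim0, fun i => i.elim0, rfl, rfl⟩

theorem qc_vadd {F G : Fn} {x y : ℂ_[p]} (h : qcVal χ F x) (h' : qcVal χ G y) :
    qcVal χ (F + G) (x + y) := by
  obtain ⟨n, k, F, a1, rfl, rfl⟩ := h
  obtain ⟨m, l, G, b1, rfl, rfl⟩ := h'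
  refine ⟨n + m, Fin.append k l, Fin.append F G, fun i => ?_, ?_, ?_⟩
  · induction i using Fin.addCases with
    | left i => simpa using a1 i
    | right i => simpa using b1 i
  · simp [Fin.sum_univ_add]
  · simp [Fin.sum_univ_add]

theorem qc_vsmul (hχ : FC e χ) {F : Fn} {x : ℂ_[p]} (h : qcVal χ F x) (c : ℂ) :
    qcVal χ (c • F) (e.symm c * x) := by
  obtain ⟨n, k, F, a1, rfl, rfl⟩ := h
  refine ⟨n, k, fun i => c • F i, fun i => (a1 i).smul c, Finset.smul_sum, ?_⟩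
  rw [Finset.mul_sum]
  exact Finset.sum_congr rfl fun i _ => (hχ.smul _ _ c (a1 i)).symm

theorem qc_vsf {F : Fn} {x : ℂ_[p]} (h : qcVal χ F x) : F ∈ SF := by
  obtain ⟨n, k, F, a1, rfl, -⟩ := h
  exact sum_mem fun i _ => qc_mf (a1 i)

theorem qc_vex {F : Fn} (h : F ∈ SF) : ∃ x, qcVal χ F x := by
  induction h using AddSubmonoid.closure_induction with
  | mem G hG => exact ⟨_, qc_vmf hG.choose_spec⟩
  | zero => exact ⟨_, qc_vzero⟩
  | add F G _ _ a b => exact ⟨_, qc_vadd a.choose_spec b.choose_spec⟩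

theorem qc_vbd (hχ : FC e χ)
    (bd : ∀ (n : ℕ) (k : Fin n → ℤ) (F : Fin n → Fn), (∀ i, MF (k i) (F i)) →
      (∀ T, ‖e.symm (∑ i, cf (F i) T)‖ ≤ 1) → ‖∑ i, χ (F i)‖ ≤ 1) {F : Fn} {x : ℂ_[p]}
    (h : qcVal χ F x) {B : ℝ} (hB : GB e B F) : ‖x‖ ≤ B := by
  have key : ∀ {F : Fn} {x : ℂ_[p]}, qcVal χ F x → GB e 1 F → ‖x‖ ≤ 1 := by
    rintro _ _ ⟨n, k, F, a1, rfl, rfl⟩ a2
    refine bd n k F a1 fun T => ?_
    have a3 := a2 T
    rwa [(GoodC.finsum Finset.univ fun i _ => (a1 i).gd.spec).cf_eq, Finset.sum_apply] at a3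
  have h0 : 0 ≤ B := (norm_nonneg _).trans (hB 0)
  by_contra hlt
  rw [not_le] at hlt
  have hx : 0 < ‖x‖ := h0.trans_lt hlt
  obtain ⟨y, h1, h2⟩ := qc_dense (p := p) (r := 2 * ‖x‖ / (B + ‖x‖))
    ((one_lt_div (by linarith)).2 (by linarith))
  have h3 := key (qc_vsmul hχ h (e (y / x))) (qc_mono (qc_smul (SF.gd (qc_vsf h)) hB _) (by
    rw [lt_div_iff₀ (by linarith)] at h2
    rw [e.symm_apply_apply, norm_div, div_mul_eq_mul_div, div_le_one hx]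
    nlinarith))
  rw [e.symm_apply_apply, div_mul_cancel₀ _ (norm_pos_iff.1 hx)] at h3
  linarith

theorem qc_lim (hχ : FC e χ)
    (bd : ∀ (n : ℕ) (k : Fin n → ℤ) (F : Fin n → Fn), (∀ i, MF (k i) (F i)) →
      (∀ T, ‖e.symm (∑ i, cf (F i) T)‖ ≤ 1) → ‖∑ i, χ (F i)‖ ≤ 1) {F : Fn} (hF : IsCQ e F) :
    ∃ y : ℂ_[p], ∀ (ε : ℝ) G x, qcVal χ G x → GB e ε (F - G) → ‖y - x‖ ≤ ε := by
  have two : ∀ (ε ε' : ℝ) G x G' x', qcVal χ G x → GB e ε (F - G) → qcVal χ G' x' →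
      GB e ε' (F - G') → ‖x' - x‖ ≤ ε + ε' := fun ε ε' G x G' x' a1 a2 b1 b2 => by
    have h1 := qc_vadd b1 (qc_vsmul hχ a1 (-1))
    rw [neg_one_smul, map_neg, map_one, neg_one_mul, ← sub_eq_add_neg, ← sub_eq_add_neg,
      ← sub_sub_sub_cancel_left G G' F] at h1
    have c1 : 0 ≤ ε := (norm_nonneg _).trans (a2 0)
    have c2 : 0 ≤ ε' := (norm_nonneg _).trans (b2 0)
    exact qc_vbd hχ bd h1 (qc_sub (qc_gsub hF.1 (SF.gd (qc_vsf a1)))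
      (qc_gsub hF.1 (SF.gd (qc_vsf b1))) (qc_mono a2 (by linarith)) (qc_mono b2 (by linarith)))
  choose G h1 h2 using fun n : ℕ => hF.2 (1 / ((n : ℝ) + 1)) Nat.one_div_pos_of_nat
  choose x hx using fun n => qc_vex (χ := χ) (h1 n)
  have h0 : Tendsto (fun n : ℕ => 1 / ((n : ℝ) + 1)) atTop (𝓝 0) :=
    tendsto_one_div_add_atTop_nhds_zero_nat
  have h3 : CauchySeq x := by
    refine cauchySeq_of_le_tendsto_0 (fun n : ℕ => 1 / ((n : ℝ) + 1) + 1 / ((n : ℝ) + 1))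
      (fun n m N hn hm => ?_) (by simpa using h0.add h0)
    rw [dist_eq_norm]
    exact two _ _ _ _ _ _ (hx m) (qc_mono (h2 m) (Nat.one_div_le_one_div hm)) (hx n)
      (qc_mono (h2 n) (Nat.one_div_le_one_div hn))
  obtain ⟨y, hy⟩ := cauchySeq_tendsto_of_complete h3
  refine ⟨y, fun ε G' x' a1 a2 => ?_⟩
  have h4 := h0.const_add ε
  rw [add_zero] at h4
  exact le_of_tendsto_of_tendsto' (hy.sub_const x').norm h4 fun n =>
    two _ _ _ _ _ _ a1 a2 (hx n) (h2 n)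

theorem qc_ext0 (D : CQ e →+ ℂ_[p]) {C : ℝ} (hC : 0 < C)
    (hb : ∀ (F : CQ e) (B : ℝ), GB e B F → ‖D F‖ ≤ B * C)
    (h0 : ∀ k (F : CQ e), MF k F → D F = 0) (F : CQ e) : D F = 0 := by
  have h1 : ∀ G (hG : G ∈ SF), D ⟨G, SF.isCQ hG⟩ = 0 := fun G hG => by
    induction hG using AddSubmonoid.closure_induction with
    | mem G hG => exact h0 _ _ hG.choose_spec
    | zero => exact D.map_zero
    | add F G a b a' b' =>
      exact (D.map_add ⟨F, SF.isCQ a⟩ ⟨G, SF.isCQ b⟩).trans (by rw [a', b', add_zero])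
  refine norm_le_zero_iff.1 (le_of_forall_pos_le_add fun ε hε => ?_)
  obtain ⟨G, a1, a2⟩ := F.2.2 (ε / C) (by positivity)
  have h2 := hb (F - ⟨G, SF.isCQ a1⟩) _ a2
  rwa [map_sub, h1 G a1, sub_zero, div_mul_cancel₀ _ hC.ne', ← zero_add ε] at h2

/-- On `SF` take `∑ χ (F i)` for any decomposition; by scaling it is bounded by the Gauss norm
(the norms of `ℂ_[p]` are dense), so it is well defined and uniformly continuous. -/
theorem exists_ext {χ : Fn → ℂ_[p]} (h : FC e χ)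
    (bd : ∀ (n : ℕ) (k : Fin n → ℤ) (F : Fin n → Fn), (∀ i, MF (k i) (F i)) →
      (∀ T, ‖e.symm (∑ i, cf (F i) T)‖ ≤ 1) → ‖∑ i, χ (F i)‖ ≤ 1) : ∃ χb, Ext e χ χb := by
  choose Y hY using fun F : CQ e => qc_lim h bd F.2
  have hb : ∀ (F : CQ e) (B : ℝ), GB e B F → ‖Y F‖ ≤ B := fun F B hB => by
    simpa using hY F B 0 0 qc_vzero (by rwa [sub_zero])
  have he : ∀ k (F : CQ e), MF k F → Y F = χ F := fun k F hF =>
    sub_eq_zero.1 (norm_le_zero_iff.1 (hY F 0 _ _ (qc_vmf hF) (by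
      rw [sub_self]
      exact qc_zero le_rfl)))
  have ha : ∀ F G, Y (F + G) = Y F + Y G := fun F G => by
    refine sub_eq_zero.1 (norm_le_zero_iff.1 (le_of_forall_pos_le_add fun ε hε => ?_))
    obtain ⟨F', a1, a2⟩ := F.2.2 (ε / 3) (by positivity)
    obtain ⟨G', b1, b2⟩ := G.2.2 (ε / 3) (by positivity)
    obtain ⟨x, a3⟩ := qc_vex (χ := χ) a1
    obtain ⟨y, b3⟩ := qc_vex (χ := χ) b1
    have c1 := hY (F + G) (ε / 3) _ _ (qc_vadd a3 b3) (by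
      rw [Subalgebra.coe_add, add_sub_add_comm]
      exact GB.add (qc_gsub F.2.1 (SF.gd a1)) (qc_gsub G.2.1 (SF.gd b1)) a2 b2)
    have c2 := norm_sub_le (Y (F + G) - (x + y)) ((Y F - x) + (Y G - y))
    have c3 := norm_add_le (Y F - x) (Y G - y)
    rw [show Y (F + G) - (x + y) - (Y F - x + (Y G - y)) = Y (F + G) - (Y F + Y G) by ring] at c2
    linarith [hY F _ _ _ a3 a2, hY G _ _ _ b3 b2]
  let Z : CQ e →+ ℂ_[p] := AddMonoidHom.mk' Y ha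
  have key : ∀ G : CQ e, (∀ k (F : CQ e), MF k F → Y (F * G) = Y F * Y G) →
      ∀ F, Y (F * G) = Y F * Y G := fun G hG F => by
    obtain ⟨C, hC, h1⟩ := G.2.1.gb e
    refine sub_eq_zero.1 (qc_ext0 (Z.comp (AddMonoidHom.mulRight G) -
      (AddMonoidHom.mulRight (Y G)).comp Z) hC (fun F B hB => ?_)
      (fun k F hF => sub_eq_zero.2 (hG k F hF)) F)
    show ‖Y (F * G) - Y F * Y G‖ ≤ B * C
    rw [sub_eq_add_neg]
    refine (IsUltrametricDist.norm_add_le_max _ _).trans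
      (max_le (hb _ _ (GB.mul F.2.1 G.2.1 hB h1)) ?_)
    rw [norm_neg, norm_mul]
    exact mul_le_mul (hb _ _ hB) (hb _ _ h1) (norm_nonneg _) ((norm_nonneg _).trans (hB 0))
  have hm : ∀ F G, Y (F * G) = Y F * Y G := fun F G => key G (fun k F hF => by
    rw [mul_comm, mul_comm (Y F)]
    refine key F (fun l G hG => ?_) G
    rw [he _ _ hG, he _ _ hF, he _ (G * F) (hG.mul hF)]
    exact h.mul _ _ _ _ hG hF) F
  have h1 : Y 1 = 1 := (he 0 1 MF.one).trans h.one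
  refine ⟨{ Z with map_one' := h1, map_mul' := hm }, he, fun F B _ => hb F B, fun c => ?_⟩
  have h2 : ((algebraMap ℂ (CQ e) c : CQ e) : Fn) = c • 1 := Algebra.algebraMap_eq_smul_one c
  refine (he 0 _ (h2 ▸ MF.one.smul c)).trans ?_
  rw [h2, h.smul 0 1 c MF.one, h.one, mul_one]

end Pool.Agent.E7
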