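import Pool.Agent.Lib.MP_7e5527_ag.EO.QOp
import Pool.Agent.Lib.MP_7e5527_ag.EO.TDefs

/-! The hypothesis on the point, for functions on the domain. -/

open Filter Topology Polynomial Matrix

noncomputable section

namespace Pool.Agent.E7

variable {p : ℕ} [Fact p.Prime]

/-- A character on forms. -/
structure FC (e : ℂ_[p] ≃+* ℂ) (v : Fn → ℂ_[p]) : Prop where
  one : v 1 = 1
  add : ∀ k F G, MF k F → MF k G → v (F + G) = v F + v G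
  mul : ∀ k l F G, MF k F → MF l G → v (F * G) = v F * v G
  smul : ∀ k F (c : ℂ), MF k F → v (c • F) = e.symm c * v F

/-- The content of `IsOrd`. -/
structure OrdC (e : ℂ_[p] ≃+* ℂ) (Z0 : HH) (χ : Fn → ℂ_[p]) (c : ℂ) (k0 : ℕ) (S0 : Set Fn) :
    Prop where
  c0 : c ≠ 0
  pos : 0 < k0
  fin : S0.Finite
  mem : ∀ G ∈ S0, MI Gam k0 G ∧ IntC G
  fc : FC e χ
  bd : ∀ (n : ℕ) (k : Fin n → ℤ) (F : Fin n → Fn), (∀ i, MF (k i) (F i)) →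
    (∀ T, ‖e.symm (∑ i, cf (F i) T)‖ ≤ 1) → ‖∑ i, χ (F i)‖ ≤ 1
  lvl : ∀ k F, MI Gam k F → F Z0 = c ^ k * e (χ F)
  red : ∀ A t B, IsSim A t → ∀ T0 ∈ Lam, ∃ G ∈ S0, ‖χ (opP A B (clsF p T0 G))‖ = 1
  alg : ∀ k F G, MF k F → MF k G → (∀ T, IsAlgebraic ℚ (cf F T) ∧ IsAlgebraic ℚ (cf G T)) →
    IsAlgebraic ℚ_[p] (χ F / χ G)
  nc : ∀ (s : ℂ_[p] →+* ℂ_[p]) (f : ℕ) (κ : Matrix Ix Ix ℚ_[p]), 0 < f → Frob s f →
    (∀ (j : ℕ) (B B' : Ix → ℚ), (p : ℚ) ^ j • B ∈ Lam → (p : ℚ) ^ j • B' ∈ Lam →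
      (∀ T ∈ Lam, ‖tr (toR ℚ_[p] T) (toR ℚ_[p] B' - κ.mulVec (toR ℚ_[p] B))‖ ≤ 1) →
      ∃ d : ℂ_[p], d ≠ 0 ∧ ∀ (n : ℕ) F, MI Gam (n * k0) F → IntC F →
        s (χ (opP 1 B F)) = d ^ n * χ (opP 1 B' F)) →
    ¬ ∃ t : ℚ_[p], ∀ x : Ix → ℚ_[p], tr (sharp x) (κ.mulVec x) = t * nrm x

theorem qo_expn {F : (Ix → ℂ) → ℂ} {a : (Ix → ℚ) → ℂ} : Expn F a ↔ GoodC (res F) a :=
  ⟨fun h => ⟨h.1, h.2.1, fun Z => h.2.2 Z Z.2⟩, fun h => ⟨h.supp, h.fg, fun Z hZ => h.sum ⟨Z, hZ⟩⟩⟩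

theorem qo_smul {k : ℤ} {F : (Ix → ℂ) → ℂ} {a : (Ix → ℚ) → ℂ} (h : IsForm k F a) (x : ℂ) :
    IsForm k (x • F) (x • a) := by
  obtain ⟨h1, S, h2, h3, h4⟩ := h
  refine ⟨qo_expn.2 ((qo_expn.1 h1).smul x), (x • ·) '' S, h2.image _, ⟨F, h3, rfl⟩, ?_⟩
  rintro _ ⟨G, hG, rfl⟩
  obtain ⟨⟨b, a1⟩, a2, a3, G', a4, a5⟩ := h4 G hG
  refine ⟨⟨_, qo_expn.2 ((qo_expn.1 a1).smul x)⟩, fun B hB => ?_, fun A hA hL => ?_,
    _, ⟨G', a4, rfl⟩, fun Z hZ => ?_⟩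
  · obtain ⟨G1, b1, b2⟩ := a2 B hB
    exact ⟨_, ⟨G1, b1, rfl⟩, fun Z hZ => congrArg (x * ·) (b2 Z hZ)⟩
  · obtain ⟨G1, b1, b2⟩ := a3 A hA hL
    exact ⟨_, ⟨G1, b1, rfl⟩, fun Z hZ => congrArg (x * ·) (b2 Z hZ)⟩
  · show x * G (inv Z) = nrm Z ^ k * (x * G' Z)
    rw [a5 Z hZ, mul_left_comm]

/-- A relation between the expansions gives a relation between the values. -/
theorem qo_zero {e : ℂ_[p] ≃+* ℂ} {χ : ((Ix → ℂ) → ℂ) → ℂ_[p]}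
    (hs : ∀ k F a (x : ℂ), IsForm k F a → χ (x • F) = e.symm x * χ F)
    (hb : ∀ (n : ℕ) (k : Fin n → ℤ) (F : Fin n → (Ix → ℂ) → ℂ) (a : Fin n → (Ix → ℚ) → ℂ),
      (∀ i, IsForm (k i) (F i) (a i)) → (∀ T, ‖e.symm (∑ i, a i T)‖ ≤ 1) → ‖∑ i, χ (F i)‖ ≤ 1)
    {k : ℤ} {F G H : (Ix → ℂ) → ℂ} {a b : (Ix → ℚ) → ℂ} (hF : IsForm k F a) (hG : IsForm k G b)
    (hH : IsForm k H (a + b)) : χ H = χ F + χ G := by
  by_contra hne
  have h0 : χ H - (χ F + χ G) ≠ 0 := sub_ne_zero.2 hne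
  obtain ⟨y, hy⟩ := NormedField.exists_one_lt_norm ℂ_[p]
  obtain ⟨x, hx⟩ : ∃ x : ℂ, e.symm x = y / (χ H - (χ F + χ G)) := ⟨e _, e.symm_apply_apply _⟩
  have h1 := hb 3 (fun _ => k) ![x • H, (-x) • F, (-x) • G] ![x • (a + b), (-x) • a, (-x) • b]
    (fun i => by
      fin_cases i
      exacts [qo_smul hH x, qo_smul hF _, qo_smul hG _])
    fun T => by
      have : ∑ i, (![x • (a + b), (-x) • a, (-x) • b] : Fin 3 → (Ix → ℚ) → ℂ) i T = 0 := by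
        simp only [Fin.sum_univ_three, cons_val_zero, cons_val_one, cons_val, Pi.smul_apply,
          Pi.add_apply, smul_eq_mul]
        ring
      rw [this, map_zero, norm_zero]
      exact zero_le_one
  simp only [Fin.sum_univ_three, cons_val_zero, cons_val_one, cons_val] at h1
  rw [hs _ _ _ _ hH, hs _ _ _ _ hF, hs _ _ _ _ hG, map_neg, hx] at h1
  rw [show y / (χ H - (χ F + χ G)) * χ H + -(y / (χ H - (χ F + χ G))) * χ F +
    -(y / (χ H - (χ F + χ G))) * χ G = y / (χ H - (χ F + χ G)) * (χ H - (χ F + χ G)) by ring,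
    div_mul_cancel₀ _ h0] at h1
  exact absurd hy (not_lt.2 h1)

theorem qo_res {k : ℤ} {F : (Ix → ℂ) → ℂ} {a : (Ix → ℚ) → ℤ} (h : IsMF k F fun T => a T) :
    MI Gam k (res F) ∧ IntC (res F) :=
  ⟨⟨h.mf, h.inv_Gam⟩, fun T => ⟨a T, congrFun h.good.cf_eq T⟩⟩

/-- Take `fun F => χ (ext F)` and `S0 = {res F | IsMF k0 F a, a ∈ S}`. The bound applied to
`x • F`, `-x • F'` (and to three functions) shows that `χ` only depends on the values on the domain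
(`IsForm.congr`) and is additive; `χ 1 ≠ 0` because some value has norm one. -/
theorem IsOrd.ordC {e : ℂ_[p] ≃+* ℂ} {Z0 : Ix → ℂ} (h0 : Z0 ∈ HH) (h : IsOrd e Z0) :
    ∃ χ c k0 S0, OrdC e ⟨Z0, h0⟩ χ c k0 S0 := by
  obtain ⟨χ, c, k0, S, hc, hk, hS, hs, hm, hb, hl, hr, ha, hn⟩ := h
  have dep : ∀ {k : ℤ} {G : Fn} (H : (Ix → ℂ) → ℂ), MF k G → (∀ Z : HH, H Z = G Z) →
      χ H = χ (ext G) := fun {k G} H hG hH => by
    have h1 := qo_smul hG.isForm 0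
    have h2 := qo_zero hs hb hG.isForm h1 (H := H) (by
      rw [zero_smul, add_zero]
      exact hG.isForm.congr fun Z hZ => by rw [ext, ofC_eq hZ, ← hH])
    rwa [hs _ _ _ _ hG.isForm, map_zero, zero_mul, add_zero] at h2
  have hp : 0 < p := (Fact.out : p.Prime).pos
  have red : ∀ A t B, IsSim A t → ∀ T0 ∈ Lam, ∃ G ∈ {G : Fn | ∃ a ∈ S, ∃ F,
      (IsMF k0 F fun T => a T) ∧ G = res F}, MF k0 (opP A B (clsF p T0 G)) ∧
        ‖χ (ext (opP A B (clsF p T0 G)))‖ = 1 := fun A t B hA T0 hT => by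
    obtain ⟨a, a1, ⟨F, a2⟩, a3⟩ := hr A t B T0 hT hA
    have a4 := (a2.mf.clsF hp T0).opP hA B
    refine ⟨res F, ⟨a, a1, F, a2, rfl⟩, a4, ?_⟩
    refine (congrArg norm (dep _ a4 fun Z => ?_)).symm.trans a3
    rw [opP_apply, clsF, cls, a2.good.cf_eq, coe_ofC (HH.add_toR (HH.lin_mem Z.2 hA) B)]
    refine tsum_congr fun T => ?_
    rw [clc, ite_mul, zero_mul]
    rfl
  have mul : ∀ k l F G, MF k F → MF l G → χ (ext (F * G)) = χ (ext F) * χ (ext G) :=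
    fun k l F G hF hG => hm _ _ _ _ _ _ hF.isForm hG.isForm
  refine ⟨fun F => χ (ext F), c, k0, {G : Fn | ∃ a ∈ S, ∃ F, (IsMF k0 F fun T => a T) ∧ G = res F},
    hc, hk, ?_, ?_, ⟨?_, fun k F G hF hG => ?_, mul, fun k F x hF => hs _ _ _ x hF.isForm⟩,
    fun n k F hF => hb n k _ _ fun i => (hF i).isForm, fun k F hF => ?_,
    fun A t B hA T0 hT => ?_, fun k F G hF hG => ha _ _ _ _ _ hF.isForm hG.isForm,
    fun s f κ hf hσ H => hn s f κ hf hσ.iso hσ.res fun j B B' hB hB' hT => ?_⟩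
  · refine (hS.image fun a (Z : HH) => ∑' T, (a T : ℂ) * eT T Z).subset ?_
    rintro _ ⟨a, a1, F, a2, rfl⟩
    exact ⟨a, a1, funext fun Z => (a2.good.sum Z).tsum_eq⟩
  · rintro _ ⟨a, -, F, a2, rfl⟩
    exact qo_res a2
  · obtain ⟨G, -, a1, a2⟩ := red 1 1 0 IsSim.one 0 Lam.zero
    have a3 := mul _ _ _ _ MF.one a1
    rw [one_mul] at a3
    refine mul_right_cancel₀ (norm_ne_zero_iff.1 (a2 ▸ one_ne_zero)) ?_
    rw [one_mul]
    exact a3.symm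
  · refine qo_zero hs hb hF.isForm hG.isForm ?_
    rw [← (hF.gd.spec.add hG.gd.spec).cf_eq]
    exact (hF.add hG).isForm
  · have a1 := hl _ _ _ (isMF_ext hF.1.gd hF.2)
    rwa [ext, ofC_eq h0] at a1
  · obtain ⟨G, a1, -, a2⟩ := red A t B hA T0 hT
    exact ⟨G, a1, a2⟩
  · obtain ⟨d, a1, a2⟩ := H j B B' hB hB' hT
    refine ⟨d, a1, fun n F a a3 => ?_⟩
    have a4 : ∀ B, χ (fun Z => F (Z + toR ℂ B)) = χ (ext (opP 1 B (res F))) := fun B =>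
      dep _ (a3.mf.opP IsSim.one B) fun Z => by
        rw [opP_apply, lin_one, res, coe_ofC (HH.add_toR Z.2 B)]
    rw [a4, a4]
    exact a2 n _ (qo_res a3).1 (qo_res a3).2

variable {e : ℂ_[p] ≃+* ℂ}

theorem FC.zero {v : Fn → ℂ_[p]} (h : FC e v) : v 0 = 0 := by
  have h1 := h.smul 0 0 0 (MF.zero 0)
  rwa [zero_smul, map_zero, zero_mul] at h1

theorem FC.sum {v : Fn → ℂ_[p]} (h : FC e v) {k : ℤ} {α : Type} (s : Finset α) {F : α → Fn}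
    (hF : ∀ a ∈ s, MF k (F a)) : v (∑ a ∈ s, F a) = ∑ a ∈ s, v (F a) := by
  classical
  induction s using Finset.induction_on with
  | empty => exact h.zero
  | insert a s ha ih =>
    have h1 : ∀ b ∈ s, MF k (F b) := fun b hb => hF b (Finset.mem_insert_of_mem hb)
    rw [Finset.sum_insert ha, Finset.sum_insert ha,
      h.add k _ _ (hF a (Finset.mem_insert_self _ _)) (MF.sum s h1), ih h1]

theorem FC.pow {v : Fn → ℂ_[p]} (h : FC e v) {k : ℤ} {F : Fn} (hF : MF k F) (n : ℕ) :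
    v (F ^ n) = v F ^ n := by
  induction n with
  | zero => rw [pow_zero, pow_zero, h.one]
  | succ n ih => rw [pow_succ, pow_succ, h.mul _ _ _ _ (hF.pow n) hF, ih]

theorem FC.opP {v : Fn → ℂ_[p]} (h : FC e v) {A : Matrix Ix Ix ℚ} {c : ℚ} (hA : IsSim A c)
    (B : Ix → ℚ) : FC e fun F => v (opP A B F) :=
  ⟨by rw [map_one, h.one],
    fun k F G hF hG => by rw [map_add, h.add k _ _ (hF.opP hA B) (hG.opP hA B)],
    fun k l F G hF hG => by rw [map_mul, h.mul k l _ _ (hF.opP hA B) (hG.opP hA B)],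
    fun k F x hF => by rw [map_smul, h.smul k _ x (hF.opP hA B)]⟩

theorem OrdC.even {Z0 : HH} {χ : Fn → ℂ_[p]} {c : ℂ} {k0 : ℕ} {S0 : Set Fn}
    (h : OrdC e Z0 χ c k0 S0) : ∃ r : ℕ, 0 < r ∧ k0 = 2 * r := by
  rcases Nat.even_or_odd k0 with ⟨r, hr⟩ | ho
  · have := h.pos
    exact ⟨r, by omega, by omega⟩
  obtain ⟨G, h1, h2⟩ := h.red 1 1 0 IsSim.one 0 Lam.zero
  have h3 : clsF p 0 0 = 0 := funext fun Z => by simp [clsF, clc, GoodC.zero.cf_eq]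
  rw [odd_zero (Int.odd_coe_nat _ |>.2 ho) (h.mem G h1).1.2, h3, map_zero, h.fc.zero,
    norm_zero] at h2
  exact absurd h2 zero_ne_one

/-- Integers times roots of unity are algebraic (`GoodC.opP`, `eT_root`). -/
theorem OrdC.alg_opP {Z0 : HH} {χ : Fn → ℂ_[p]} {c : ℂ} {k0 : ℕ} {S0 : Set Fn}
    (h : OrdC e Z0 χ c k0 S0) {A : Matrix Ix Ix ℚ} {t : ℚ} (hA : IsSim A t) (B : Ix → ℚ) {k : ℤ}
    {F G : Fn} (hF : MF k F) (hG : MF k G) (iF : IntC F) (iG : IntC G) :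
    IsAlgebraic ℚ_[p] (χ (opP A B F) / χ (opP A B G)) := by
  have key : ∀ {F : Fn}, MF k F → IntC F → ∀ T, IsAlgebraic ℚ (cf (opP A B F) T) :=
    fun {F} hF iF T => by
      obtain ⟨n, hn⟩ := iF (lin (adjM A)⁻¹ T)
      obtain ⟨N, hN, h1⟩ := eT_root (lin (adjM A)⁻¹ T) B
      rw [(hF.gd.spec.opP hA B).cf_eq]
      beta_reduce
      rw [hn]
      exact (isAlgebraic_intCast n).mul (IsAlgebraic.of_pow hN (h1 ▸ isAlgebraic_one))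
  exact h.alg k _ _ (hF.opP hA B) (hG.opP hA B) fun T => ⟨key hF iF T, key hG iG T⟩

end Pool.Agent.E7
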