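import Pool.Agent.Lib.MP_7e5527_ag.EO.G2
import Pool.Agent.Lib.MP_7e5527_ag.EO.SH

/-! The points on one sheet satisfy a cubic relation. -/

open Filter Topology Polynomial Matrix

noncomputable section

namespace Pool.Agent.E7

variable {p : ℕ} [Fact p.Prime] {R : Type} [CommRing R] {S : TW p cone R}

variable {s : ℂ_[p] →+* ℂ_[p]} {α : Matrix Ix Ix ℂ_[p]}

/-- `trn_map`, `Trn.comp`. -/
theorem Ad.trn_pow {M : Cl S} {E : Fr S} (h : Ad M E) {ψ : R →+* ℂ_[p]} (hψ : E.Gp ψ)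
    (hs : UAP.Iso s) (h0 : M.Sim (s.comp ψ) ψ) (ht : M.Trn (s.comp ψ) ψ α) (k : ℕ) :
    M.Trn ((s ^ k).comp ψ) ψ (α ^ k) := by
  induction k with
  | zero =>
    intro u hu
    exact ⟨u, hu, by rw [pow_zero, one_mulVec], Cl.Sim.refl _⟩
  | succ k ih =>
    have h1 : E.Gp ((s ^ k).comp ψ) := hψ.map _ fun a => (hs.iterate k a).le
    have h2 := (h.trn_map h1 hψ (h0.pow k) ih hs).comp ht
    rw [pow_succ' s, pow_succ' α]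
    exact h2

/-- A power of `s` fixes the coordinates of `ψ' n` and the roots of unity; `BDeg.period`. -/
theorem ODat.deep (D : ODat S) (hs : UAP.Iso s) (n : ℕ) : ∃ r : ℕ, 0 < r ∧ ∀ k : ℕ,
    (D.M' n).Sim ((s ^ (r * k)).comp (D.ψ' n)) (D.ψ' n) ∧
      ∀ i, (s ^ (r * k)) (D.ζ n i) = D.ζ n i := by
  have hζ : ∀ i, IsAlgebraic ℚ_[p] (D.ζ n i : ℂ_[p]) := fun i => by
    refine IsAlgebraic.of_pow (D.trl n).pos ?_
    rw [← Units.val_pow_eq_pow_val, (D.trl n).ord i, Units.val_one]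
    exact isAlgebraic_one
  obtain ⟨r, hr, h⟩ := iso_period_fam hs (τ := Ix ⊕ Ix)
    (y := Sum.elim ((D.E' n).xc (D.ψ' n)) fun i => (D.ζ n i : ℂ_[p]))
    (by
      rintro (i | i)
      · exact D.alg' n i
      · exact hζ i)
  obtain ⟨r', hr', h'⟩ := (D.b' n).period (D.a' n).toAd (D.gp' n) (hs.iterate r)
    fun i => h (Sum.inl i)
  refine ⟨r * r', Nat.mul_pos hr hr', fun k => ⟨?_, fun i => ?_⟩⟩
  · rw [pow_mul, pow_mul]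
    exact h'.pow k
  · rw [mul_assoc, pow_mul]
    exact pow_fix (h (Sum.inr i)) _

/-- Let `α'` be the matrix of `ψ' n` on `M' n`. Composing with `g0 n` gives `α' = β`
(`Sim.comp`, `twc_isg`, `trn_lg`, `mat_eq_of_lgv`); composing with `g n`, `t n` (`Sim.trl`,
`twc_isg`, `twc_trl`, `lgv_upow`) gives the relation. -/
theorem ODat.alpha (D : ODat S) (hs : UAP.Iso s) (n : ℕ)
    (h1 : (D.M' n).Sim (s.comp (D.ψ' n)) (D.ψ' n)) (h2 : ∀ i, s (D.ζ n i) = D.ζ n i)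
    {β : Matrix Ix Ix ℂ_[p]} (hβ : D.M.Trn (s.comp D.χ) D.χ β) :
    D.M.Sim (s.comp (D.ψ n)) (D.ψ n) ∧ ∀ α, D.M.Trn (s.comp (D.ψ n)) (D.ψ n) α →
      α * mc p (D.Cm n) = mc p (D.Cm n) * β := by
  have hs' : ∀ a, ‖s a‖ ≤ ‖a‖ := fun a => (hs a).le
  have g2 := D.gp' n
  have g1 : (D.E' n).Gp (s.comp (D.ψ' n)) := g2.map s hs'
  have hζ : ∀ i, (s.comp (D.ψ' n)) (S.cst (D.ζ n i)) = D.ψ' n (S.cst (D.ζ n i)) := fun i => by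
    rw [RingHom.comp_apply, D.lin' n]
    exact h2 i
  have e1 : ((s.comp (D.ψ' n)).comp (D.g n)).comp (D.t n) = s.comp (D.ψ n) := by
    rw [D.eq1 n]
    rfl
  have e0 : (s.comp (D.ψ' n)).comp (D.g0 n) = s.comp D.χ := by
    rw [D.eq0 n]
    rfl
  constructor
  · have := h1.trl (D.isg n) (D.trl n) (D.m1 n) hζ
    rwa [e1, ← D.eq1 n] at this
  intro α hα
  refine mat_eq_of_lgv fun u hu => ?_
  obtain ⟨v, hv, huv⟩ := (D.a' n).toAd.tr_ex g1 g2 h1 hu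
  have k0 := huv.comp (D.g0 n) (D.m0 n)
  rw [TW.twc_isg g1.ch hu (D.isg0 n), TW.twc_isg g2.ch hv (D.isg0 n), e0, ← D.eq0 n, upow_scalar,
    upow_scalar] at k0
  have k1 := D.ac.toAd.trn_lg D.gc hβ (hu.pow _) (hv.pow _) k0
  rw [lgv_pow hu, lgv_pow hv, mulVec_smul] at k1
  have hN : (D.N n : ℂ_[p]) ≠ 0 := Nat.cast_ne_zero.2 (D.hN n).ne'
  have k2 : lgv p v = β *ᵥ lgv p u := smul_right_injective _ hN k1
  have k3 := huv.trl (D.isg n) (D.trl n) (D.m1 n) fun i => by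
    rw [TW.twc_cst g1.ch hu, TW.twc_cst g2.ch hv]
    exact hζ i
  rw [TW.twc_isg g1.ch hu (D.isg n), TW.twc_isg g2.ch hv (D.isg n),
    TW.twc_trl (g1.ch.isg (D.isg n)) (hu.upow _) (D.trl n),
    TW.twc_trl (g2.ch.isg (D.isg n)) (hv.upow _) (D.trl n), e1, ← D.eq1 n] at k3
  have k4 := D.aE.toAd.trn_lg (D.gp n) hα (hu.upow _) (hv.upow _) k3
  rw [lgv_upow hu, lgv_upow hv, k2] at k4
  rw [← mulVec_mulVec, ← mulVec_mulVec]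
  exact k4.symm

/-- Two ways from `s.comp ψ1` to a twist of `ψ2` (`trn_map`, `trn_shift`, `trn_unique`). -/
theorem Ad.square {M : Cl S} {E : Fr S} (h : Ad M E) (hs : UAP.Iso s) {ψ1 ψ2 : R →+* ℂ_[p]}
    (h1 : E.Gp ψ1) (h2 : E.Gp ψ2) {u : Ix → ℂ_[p]ˣ} (hu : Nr u) (e : M.Sim ψ1 (S.twc ψ2 u))
    {κ α1 α2 : Matrix Ix Ix ℂ_[p]} (hκ : M.Trn ψ1 (S.twc ψ2 u) κ) (s1 : M.Sim (s.comp ψ1) ψ1)
    (t1 : M.Trn (s.comp ψ1) ψ1 α1) (s2 : M.Sim (s.comp ψ2) ψ2) (t2 : M.Trn (s.comp ψ2) ψ2 α2) :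
    κ * α1 = α2 * κ := by
  have _ := s2
  have hs' : ∀ a, ‖s a‖ ≤ ‖a‖ := fun a => (hs a).le
  have hu' : Nr (umap s u) := hu.umap s hs'
  have k1 := h.trn_map h1 (h2.twc hu) e hκ hs
  have k2 := e.map s
  rw [TW.twc_map h2.ch hu s hs'] at k1 k2
  obtain ⟨w, hw, -, k3⟩ := t2 _ hu'
  have k4 := h.trn_shift (h2.map s hs') h2 t2 hu' hw k3
  have k5 : M.Sim (S.twc ψ2 w) (S.twc ψ2 u) := ((k3.symm.trans k2.symm).trans s1).trans e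
  have k6 : w = u := h2.xc_inj hw hu (k5.xc h (h2.twc hu).unit)
  rw [k6] at k4
  exact h.trn_unique (h2.twc hu) (t1.comp hκ) (k1.comp k4)

theorem ODat.mc_unit (D : ODat S) (n : ℕ) : IsUnit (mc p (D.Cm n)).det := by
  have h : (mc p (D.Cm n)).det = ((D.Cm n).det : ℂ_[p]) := (Int.cast_det _).symm
  rw [h]
  exact (Int.cast_ne_zero.2 (D.isg n).det).isUnit

/-- With `s0 = σ ^ r0` from `BDeg.period`, `α` from `Ad3.tr`, `N0` from `exists_cent`,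
`β = α ^ N0`; `nc` applies to `s0 ^ N0` (`Frob.pow`, `trn_pow`, `trn_unique`). The matrix
`g = (A m)⁻¹ * κ * A n` with `A n = (N n)⁻¹ • mc (Cm n)` commutes with `β`. -/
theorem ODat.cent (D : ODat S) {σ : ℂ_[p] →+* ℂ_[p]} {f : ℕ} (hσ : Frob σ f) (hf : 0 < f)
    (hx : ∀ i, σ (D.Ec.xc D.χ i) = D.Ec.xc D.χ i) : ∃ β : Matrix Ix Ix ℂ_[p],
    (¬ ∃ t, ∀ y, cub β y = t * nrm (pt y)) ∧ ∀ (m n : ℕ) (u : Ix → ℂ_[p]ˣ)
      (κ : Matrix Ix Ix ℂ_[p]), Nr u → D.M.Sim (D.ψ n) (S.twc (D.ψ m) u) →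
      D.M.Trn (D.ψ n) (S.twc (D.ψ m) u) κ →
      (mc p (D.Cm m))⁻¹ * κ * mc p (D.Cm n) * β = β * ((mc p (D.Cm m))⁻¹ * κ * mc p (D.Cm n)) := by
  obtain ⟨r0, hr0, hs0⟩ := D.bc.period D.ac.toAd D.gc hσ.iso hx
  have F0 := hσ.pow r0
  obtain ⟨α, tα, -⟩ := D.ac.tr (D.gc.map _ fun a => (F0.iso a).le) D.gc hs0
  obtain ⟨N0, hN0, hc⟩ := exists_cent α
  have F1 := F0.pow N0
  have hs1 := hs0.pow N0
  have t1 := D.ac.toAd.trn_pow D.gc F0.iso hs0 tα N0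
  refine ⟨α ^ N0, ?_, fun m n u κ hu e hκ => ?_⟩
  · obtain ⟨κ, tκ, hz, ht, -⟩ := D.ac.tr (D.gc.map _ fun a => (F1.iso a).le) D.gc hs1
    rw [← D.ac.toAd.trn_unique D.gc tκ t1]
    exact D.nc _ _ κ (Nat.mul_pos hN0 (Nat.mul_pos hr0 hf)) F1 hz ht
  · obtain ⟨a, ha, h1⟩ := D.deep F1.iso m
    obtain ⟨b, hb, h2⟩ := D.deep F1.iso n
    have h1' := h1 b
    have h2' := h2 a
    rw [mul_comm] at h2'
    have i2 := (F1.pow (a * b)).iso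
    have t2 := D.ac.toAd.trn_pow D.gc F1.iso hs1 t1 (a * b)
    obtain ⟨sm, cm⟩ := D.alpha i2 m h1'.1 h1'.2 t2
    obtain ⟨sn, cn⟩ := D.alpha i2 n h2'.1 h2'.2 t2
    have tm := D.aE.toAd.trn ((D.gp m).map _ fun a => (i2 a).le) (D.gp m) sm
    have tn := D.aE.toAd.trn ((D.gp n).map _ fun a => (i2 a).le) (D.gp n) sn
    have q := D.aE.toAd.square i2 (D.gp n) (D.gp m) hu e hκ sn tn sm tm
    refine hc (a * b) (Nat.mul_pos ha hb) _ ?_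
    rw [pow_mul, Matrix.mul_assoc, ← cn _ tn, ← Matrix.mul_assoc, Matrix.mul_assoc _ κ, q,
      ← Matrix.mul_assoc, ← Matrix.mul_assoc, ← Matrix.mul_assoc]
    congr 2
    rw [← Matrix.nonsing_inv_mul_cancel_left _ (_ * (mc p (D.Cm m))⁻¹) (D.mc_unit m),
      ← Matrix.mul_assoc (mc p (D.Cm m)), ← cm _ tm,
      Matrix.mul_nonsing_inv_cancel_right _ _ (D.mc_unit m)]

/-- `BDeg.same`, `Ad.st`, `Ad3.tr`, `exists_cubic` for `L` the logarithm of `χ`, `exists_subst`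
for `y ↦ (A m)⁻¹ (L m + y)`, `IsL.twc`, `IsL.trn`, `ODat.isL`. -/
theorem ODat.sheet (D : ODat S) {σ : ℂ_[p] →+* ℂ_[p]} {f : ℕ} (hσ : Frob σ f) (hf : 0 < f)
    (hx : ∀ i, σ (D.Ec.xc D.χ i) = D.Ec.xc D.χ i) (U : Ultrafilter ℕ) {x : Ix → ℂ_[p]}
    (h : ∀ᶠ n in (U : Filter ℕ), ‖D.x n - x‖ < 1) : ∃ (m : ℕ) (P : MvPolynomial Ix ℂ_[p]),
    ‖D.x m - x‖ < 1 ∧ P.totalDegree ≤ 3 ∧ (∃ y, MvPolynomial.eval y P ≠ 0) ∧
      ∀ᶠ n in (U : Filter ℕ), ∃ (u : Ix → ℂ_[p]ˣ) (κ : Matrix Ix Ix ℂ_[p]), Nr u ∧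
        D.M.Sim (D.ψ n) (S.twc (D.ψ m) u) ∧ D.M.Trn (D.ψ n) (S.twc (D.ψ m) u) κ ∧
        IsUnit κ.det ∧ MvPolynomial.eval (lgv p u) P = 0 := by
  obtain ⟨β, hβ, hc⟩ := D.cent hσ hf hx
  obtain ⟨m, hm, hcg⟩ := D.bE.same D.aE.toAd U D.gp h
  obtain ⟨L0, l0⟩ := D.wc.exists_isL D.gc hσ hf
  obtain ⟨Lm, lm⟩ := D.wE.exists_isL (D.gp m) hσ hf
  obtain ⟨P, hP, hP0, hPv⟩ := exists_cubic hβ L0
  obtain ⟨P', hP', hP0', e⟩ := exists_subst hP hP0 (Matrix.isUnit_nonsing_inv_det _ (D.mc_unit m))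
    ((mc p (D.Cm m))⁻¹ *ᵥ Lm)
  refine ⟨m, P', hm, hP', hP0', hcg.mono fun n hn => ?_⟩
  obtain ⟨u, hu, hs⟩ := D.aE.toAd.st (D.gp n) (D.gp m) hn
  obtain ⟨κ, tκ, hz, -, hκ, hd⟩ := D.aE.tr (D.gp n) ((D.gp m).twc hu) hs
  obtain ⟨Ln, ln⟩ := D.wE.exists_isL (D.gp n) hσ hf
  have h1 := Cl.IsL.trn D.aE.toAd D.sub (D.gp n) ((D.gp m).twc hu) hs tκ hz hσ hf ln
    (Cl.IsL.twc D.tow (D.gp m).ch hσ lm hu)
  have h2 := hPv ((D.N n : ℂ_[p])⁻¹ • ((mc p (D.Cm m))⁻¹ * κ * mc p (D.Cm n)))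
    (((((D.conf m).inv (D.mc_unit m)).mul hκ).mul (D.conf n)).smul
      (inv_ne_zero (Nat.cast_ne_zero.2 (D.hN n).ne')))
    (by rw [Matrix.smul_mul, Matrix.mul_smul, hc m n u κ hu hs tκ])
  rw [← Matrix.mul_smul, ← mulVec_mulVec, ← mulVec_mulVec, ← D.isL hσ hf n l0 ln, ← h1,
    mulVec_add] at h2
  refine ⟨u, κ, hu, hs, tκ, hd, ?_⟩
  have h3 := e ℂ_[p] (lgv p u)
  rw [MvPolynomial.aeval_eq_eval, MvPolynomial.aeval_eq_eval] at h3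
  exact h3.trans h2

end Pool.Agent.E7
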