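import Pool.Agent.Lib.MP_7e5527_ag.EO.R1
import Pool.Agent.Lib.MP_7e5527_ag.E7.PBr2
import Pool.Agent.Lib.MP_7e5527_ag.E7.PArc

/-! The Puiseux arc. -/

open Filter Topology Polynomial Matrix

noncomputable section

namespace Pool.Agent.E7

variable {p : ℕ} [Fact p.Prime] {R : Type} [CommRing R] {S : TW p cone R}

variable {A : Type} [NormedCommRing A] [NormOneClass A] [NormedAlgebra ℂ_[p] A] [CompleteSpace A]
  [IsUltrametricDist A] [IsDomain A]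

/-- `branch`; the exponents vanish because all coordinates have norm one. -/
theorem ODat.arc (D : ODat S) (B : BS p A) {U : Ultrafilter ℕ} (hU : (U : Filter ℕ) ≤ cofinite)
    {y : ℂ_[p]} (hy : Tendsto (fun n => D.x n D.i1) U (𝓝 y)) :
    ∃ (x : Ix → ℂ_[p]) (X : Ix → A) (t : ℕ → ℂ_[p]),
      ‖X - fun i => algebraMap ℂ_[p] A (x i)‖ < 1 ∧ Tendsto t U (𝓝 0) ∧
      ∀ᶠ n in (U : Filter ℕ), t n ≠ 0 ∧ ∀ i, B.ev (t n) (X i) = D.x n i := by
  have hn : ∀ n i, ‖D.x n i‖ = 1 := fun n i =>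
    (isU_iff ((D.gp n).xc_le i)).1 ((D.gp n).xc_isU i)
  have hne : ∀ᶠ n in (U : Filter ℕ), D.x n D.i1 ≠ y :=
    hU ((D.fib y).eventually_cofinite_notMem)
  obtain ⟨n0, t, cc, a, g, h⟩ := branch B U D.x
    (fun n i => norm_ne_zero_iff.1 (by rw [hn]; exact one_ne_zero)) D.i1 y hy hne D.rel
  have hc : ∀ i, ‖cc i‖ = 1 := fun i => (h.norm i).trans (hn n0 i)
  have ha : ∀ i, a i = 0 := by
    intro i
    obtain ⟨n, h0, h1, h2⟩ := h.eq.exists
    have e := congrArg norm (h2 i)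
    rw [hn, norm_mul, norm_mul, hc, B.norm_ev_unit (h.one i), norm_zpow, one_mul, mul_one] at e
    exact (zpow_eq_one_iff_right₀ (norm_nonneg _) h1.ne).1 e.symm
  refine ⟨cc, fun i => algebraMap ℂ_[p] A (cc i) * g i, t, ?_, h.lim, ?_⟩
  · refine (pi_norm_lt_iff one_pos).2 fun i => ?_
    have e : ((fun i => algebraMap ℂ_[p] A (cc i) * g i) - fun i => algebraMap ℂ_[p] A (cc i)) i =
        algebraMap ℂ_[p] A (cc i) * ((g i : A) - 1) := by
      simp only [Pi.sub_apply]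
      ring
    rw [e]
    refine (norm_mul_le _ _).trans_lt ?_
    rw [norm_algebraMap', hc, one_mul]
    exact h.one i
  · filter_upwards [h.eq] with n hn'
    refine ⟨hn'.1, fun i => ?_⟩
    rw [hn'.2.2 i, ha, zpow_zero, mul_one, map_mul, AlgHom.commutes]
    rfl

/-- `xc_surj` in `A`, `ev_twc`. -/
theorem Fr.Gp.lift (B : BS p A) {E : Fr S} {ψ : R →+* ℂ_[p]} (h : E.Gp ψ) {x : Ix → ℂ_[p]}
    {X : Ix → A} (hX : ‖X - fun i => algebraMap ℂ_[p] A (x i)‖ < 1) (hx : ‖E.xc ψ - x‖ < 1) :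
    ∃ v : Ix → Aˣ, Nr v ∧ E.xc (S.twc ((algebraMap ℂ_[p] A).comp ψ) v) = X ∧
      ∀ s, E.xc (S.twc ψ (umap (B.ev s : A →+* ℂ_[p]) v)) = fun i => B.ev s (X i) := by
  have hA : E.Gp ((algebraMap ℂ_[p] A).comp ψ) :=
    h.map _ fun a => (norm_algebraMap' A a).le
  have hy : ‖X - E.xc ((algebraMap ℂ_[p] A).comp ψ)‖ < 1 := by
    rw [Fr.xc_map h.unit]
    refine (pi_norm_lt_iff one_pos).2 fun i => ?_
    have h1 := (pi_norm_lt_iff one_pos).1 hX i
    have h2 := (pi_norm_lt_iff one_pos).1 hx i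
    simp only [Pi.sub_apply] at h1 h2 ⊢
    have e : X i - algebraMap ℂ_[p] A (E.xc ψ i) =
        (X i - algebraMap ℂ_[p] A (x i)) + algebraMap ℂ_[p] A (x i - E.xc ψ i) := by
      rw [map_sub]
      ring
    rw [e]
    refine (IsUltrametricDist.norm_add_le_max _ _).trans_lt (max_lt h1 ?_)
    rw [norm_algebraMap', norm_sub_rev]
    exact h2
  obtain ⟨v, hv, e⟩ := hA.xc_surj hy
  refine ⟨v, hv, e, fun s => ?_⟩
  rw [← B.ev_twc s h.ch hv, Fr.xc_map (hA.twc hv).unit, e]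
  rfl

/-- Compare the values at every `s` (`ext_ev`, `lgv_umap`, `xc_inj`). -/
theorem Ad.lift_lg (B : BS p A) {M : Cl S} {E : Fr S} (h : Ad M E) {ψ1 ψ2 : R →+* ℂ_[p]}
    (h1 : E.Gp ψ1) (h2 : E.Gp ψ2) {u : Ix → ℂ_[p]ˣ} (hu : Nr u) {κ : Matrix Ix Ix ℂ_[p]}
    (ht : M.Trn ψ1 (S.twc ψ2 u) κ) {v1 v2 : Ix → Aˣ} (n1 : Nr v1) (n2 : Nr v2)
    (e : ∀ s, E.xc (S.twc ψ1 (umap (B.ev s : A →+* ℂ_[p]) v1)) =
      E.xc (S.twc ψ2 (umap (B.ev s : A →+* ℂ_[p]) v2))) :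
    lgv p v2 = (fun i => algebraMap ℂ_[p] A (lgv p u i)) +
      κ.map (algebraMap ℂ_[p] A) *ᵥ lgv p v1 := by
  funext i
  refine B.ext_ev fun s _ => ?_
  have hρ : ∀ a : A, ‖(B.ev s : A →+* ℂ_[p]) a‖ ≤ ‖a‖ := fun a => B.ev_le s a
  have m1 := n1.umap (B.ev s : A →+* ℂ_[p]) hρ
  have m2 := n2.umap (B.ev s : A →+* ℂ_[p]) hρ
  obtain ⟨w, hw, hl, hs⟩ := ht _ m1
  rw [TW.twc_twc h2.ch hu hw] at hs
  have hx := hs.xc h (h2.twc (hw.mul hu)).unit
  have hw2 := h2.xc_inj m2 (hw.mul hu) ((e s).symm.trans hx)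
  have hl2 := lgv_mul (p := p) hw hu
  rw [← hw2, hl, lgv_umap n1 _ hρ, lgv_umap n2 _ hρ] at hl2
  have := congrFun hl2 i
  simp only [Pi.add_apply, Matrix.mulVec, dotProduct, RingHom.coe_coe] at this
  simp only [Pi.add_apply, Matrix.mulVec, dotProduct, Matrix.map_apply, map_add, map_sum, map_mul,
    AlgHom.commutes, Algebra.algebraMap_self, RingHom.id_apply]
  rw [this, add_comm]

/-- The oracle for `ε = twc ψ v` (`twc_der`, `lg_der`, `xc_der`, `Φ_eq`). -/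
theorem ODat.arc_orc (D : ODat S) (B : BS p A) (n : ℕ) {v : Ix → Aˣ} (hv : Nr v) {X : Ix → A}
    (hX : D.E.xc (S.twc ((algebraMap ℂ_[p] A).comp (D.ψ n)) v) = X)
    (hΦ : ∀ j, MvPolynomial.aeval ![1, X D.i1, X j] (D.pk.Ph j) = 0) (hd : B.dt (X D.i1) ≠ 0)
    {P : MvPolynomial Ix ℂ_[p]} (h0 : P ≠ 0) (h3 : P.totalDegree ≤ 3)
    (he : MvPolynomial.aeval (lgv p v) P = 0) :
    S.twc ((algebraMap ℂ_[p] A).comp (D.ψ n)) v (D.pk.Ψ 3) = 0 := by
  have hψ : D.E.Gp ((algebraMap ℂ_[p] A).comp (D.ψ n)) :=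
    (D.gp n).map _ fun a => (norm_algebraMap' A a).le
  have hu := (hψ.twc hv).unit
  have hc : ∀ c, S.twc ((algebraMap ℂ_[p] A).comp (D.ψ n)) v (S.cst c) = algebraMap ℂ_[p] A c :=
    fun c => by rw [TW.twc_cst hψ.ch hv, RingHom.comp_apply, D.lin n c]; rfl
  have hch : ∀ F, B.dt (S.twc ((algebraMap ℂ_[p] A).comp (D.ψ n)) v F) =
      ∑ i, S.twc ((algebraMap ℂ_[p] A).comp (D.ψ n)) v (S.del i F) * B.dt (lgv p v i) := fun F => by
    have h1 := TW.twc_der hψ.ch hv B.dt B.dt_cont 0 (fun i => B.dt (lgv p v i))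
      (fun i => (lg_der (hv i) B.dt B.dt_cont).symm) F fun j c => by
        rw [RingHom.comp_apply, Derivation.map_algebraMap]
        simp
    simpa only [Pi.zero_apply, zero_add] using h1
  refine D.orc A B.dt _ (lgv p v) hc hch (fun j => ?_) ?_ 3 (P.map (algebraMap ℂ_[p] A))
    (fun h => h0 (MvPolynomial.map_injective _ (algebraMap ℂ_[p] A).injective (h.trans
      (map_zero _).symm))) ?_ (fun m => ?_) ?_
  · rw [D.Φ_eq hc hu, hX, hΦ, mul_zero]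
  · by_contra h
    have h1 : (fun i => B.dt (lgv p v i)) = 0 := funext fun i => by_contra fun h1 => h ⟨i, h1⟩
    have h2 := Fr.xc_der hu B.dt _ (hch _) (fun i => hch _) D.i1
    rw [hX, h1, mulVec_zero] at h2
    exact hd h2
  · exact le_trans (Finset.sup_mono (MvPolynomial.support_map_subset _ _)) h3
  · rw [MvPolynomial.coeff_map, Derivation.map_algebraMap]
  · rw [MvPolynomial.eval_map, ← MvPolynomial.aeval_def, he]

omit [NormOneClass A] [CompleteSpace A] [IsUltrametricDist A] [IsDomain A] in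
theorem r2_ev (B : BS p A) (s : ℂ_[p]) {α : Type} (z : α → A) (P : MvPolynomial α ℂ_[p]) :
    B.ev s (MvPolynomial.aeval z P) = MvPolynomial.eval (fun i => B.ev s (z i)) P := by
  rw [← MvPolynomial.aeval_eq_eval, ← MvPolynomial.comp_aeval_apply]

/-- With `v` the lift for `ψ m` one has `v (t n) = u n`, so `P (lgv v) = 0` by `B.zero`. For most
`n` let `v n` be the lift for `ψ n`; `lift_lg`, `exists_subst`, `arc_orc`; evaluate at `t n`, where
`v n` is `1`; `ODat.absurd`. -/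
theorem ODat.caseR (D : ODat S) {σ : ℂ_[p] →+* ℂ_[p]} {f : ℕ} (hσ : Frob σ f) (hf : 0 < f)
    (hx : ∀ i, σ (D.Ec.xc D.χ i) = D.Ec.xc D.χ i) {U : Ultrafilter ℕ}
    (hU : (U : Filter ℕ) ≤ cofinite) {y : ℂ_[p]} (hy : Tendsto (fun n => D.x n D.i1) U (𝓝 y)) :
    False := by
  obtain ⟨A, _, _, _, _, _, _, ⟨B⟩⟩ := exists_bs p
  obtain ⟨x, X, t, hX, ht, hev⟩ := D.arc B hU hy
  have hA : Ad D.M D.E := D.aE.toAd
  have hnear : ∀ᶠ n in (U : Filter ℕ), ‖D.x n - x‖ < 1 := by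
    filter_upwards [hev] with n hn
    refine (pi_norm_lt_iff one_pos).2 fun i => ?_
    have h1 := (B.ev_le (t n) _).trans_lt ((pi_norm_lt_iff one_pos).1 hX i)
    rwa [Pi.sub_apply, map_sub, hn.2, AlgHom.commutes] at h1
  obtain ⟨m, P, hm, h3, h0, hs⟩ := D.sheet hσ hf hx U hnear
  obtain ⟨v, hv, -, hvs⟩ := (D.gp m).lift B hX hm
  have hP : MvPolynomial.aeval (lgv p v) P = 0 := by
    refine B.zero _ U t ht ?_
    filter_upwards [hev, hs] with n hn ⟨u, κ, hu, h1, _, _, h2⟩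
    refine ⟨hn.1, ?_⟩
    have h4 : umap (B.ev (t n) : A →+* ℂ_[p]) v = u :=
      (D.gp m).xc_inj (hv.umap _ (B.ev_le _)) hu (by
        rw [hvs, ← h1.xc hA ((D.gp m).twc hu).unit]
        exact funext hn.2)
    rw [r2_ev, ← h2, ← h4, lgv_umap hv (B.ev (t n) : A →+* ℂ_[p]) (B.ev_le _)]
    rfl
  have hΦ : ∀ j, MvPolynomial.aeval ![1, X D.i1, X j] (D.pk.Ph j) = 0 := fun j => by
    refine B.zero _ U t ht ?_
    filter_upwards [hev] with n hn
    refine ⟨hn.1, ?_⟩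
    rw [r2_ev, ← D.pk.van n j]
    congr 2
    funext i
    fin_cases i
    · exact map_one _
    · exact hn.2 _
    · exact hn.2 _
  have hd : B.dt (X D.i1) ≠ 0 := fun h => by
    obtain ⟨n, h1, h2⟩ := (hev.and (D.ne_ev hU (B.ev 0 (X D.i1)))).exists
    exact h2 (by rw [← h1.2, B.const _ h])
  refine D.absurd hU 3 ?_
  filter_upwards [hev, hs, hnear] with n hn ⟨u, κ, hu, _, h1, hκ, _⟩ hxn
  obtain ⟨w, hw, hwX, hws⟩ := (D.gp n).lift B hX hxn
  have h2 := hA.lift_lg B (D.gp n) (D.gp m) hu h1 hw hv fun s => (hws s).trans (hvs s).symm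
  obtain ⟨P', h4, ⟨y', h5⟩, h6⟩ := exists_subst h3 h0 hκ (lgv p u)
  have h7 := D.arc_orc B n hw hwX hΦ hd (P := P') (fun h => h5 (by rw [h, map_zero])) h4
    (by rw [h6, ← h2, hP])
  have h8 : umap (B.ev (t n) : A →+* ℂ_[p]) w = 1 :=
    (D.gp n).xc_inj (hw.umap _ (B.ev_le _)) Nr.one (by
      rw [hws, TW.twc_one (D.gp n).ch]
      exact funext hn.2)
  have h9 := TW.twc_map ((D.gp n).map _ fun a => (norm_algebraMap' A a).le).ch hw
    (B.ev (t n) : A →+* ℂ_[p]) (B.ev_le _)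
  have e : (B.ev (t n) : A →+* ℂ_[p]).comp ((algebraMap ℂ_[p] A).comp (D.ψ n)) = D.ψ n :=
    RingHom.ext fun F => (B.ev (t n)).commutes _
  rw [e, h8, TW.twc_one (D.gp n).ch] at h9
  rw [← h9, RingHom.comp_apply, h7, map_zero]

end Pool.Agent.E7
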