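import Pool.Agent.Lib.MP_7e5527_ag.EO.TDefs

/-! Elementary facts about series rings with class sums. -/

open Filter Topology Polynomial Matrix

noncomputable section

namespace Pool.Agent.E7

variable {ι : Type} [Fintype ι] [DecidableEq ι] {p : ℕ} [Fact p.Prime] {C : Cone ι} {R : Type}
  [CommRing R] {S : TW p C R}

theorem Cg.refl (N : ℕ) (T : ι → ℤ) : Cg N T T := fun i => by simp

theorem Cg.symm {N : ℕ} {T c : ι → ℤ} (h : Cg N T c) : Cg N c T := fun i => dvd_sub_comm.1 (h i)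

theorem Cg.trans {N : ℕ} {T c d : ι → ℤ} (h : Cg N T c) (h' : Cg N c d) : Cg N T d :=
  fun i => by simpa using dvd_add (h i) (h' i)

theorem Cg.add {N : ℕ} {T c T' c' : ι → ℤ} (h : Cg N T c) (h' : Cg N T' c') :
    Cg N (T + T') (c + c') := fun i => by
  simpa only [Pi.add_apply, add_sub_add_comm] using dvd_add (h i) (h' i)

theorem Cg.sub {N : ℕ} {T c T' c' : ι → ℤ} (h : Cg N T c) (h' : Cg N T' c') :
    Cg N (T - T') (c - c') := fun i => by
  simpa only [Pi.sub_apply, sub_sub_sub_comm] using dvd_sub (h i) (h' i)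

theorem Cg.mono {N M : ℕ} (hN : N ∣ M) {T c : ι → ℤ} (h : Cg M T c) : Cg N T c :=
  fun i => (Int.natCast_dvd_natCast.2 hN).trans (h i)

theorem Cg.vecMul {N : ℕ} {T c : ι → ℤ} (h : Cg N T c) (M : Matrix ι ι ℤ) :
    Cg N (T ᵥ* M) (c ᵥ* M) := fun i => by
  simp only [Matrix.vecMul, dotProduct, ← Finset.sum_sub_distrib, ← sub_mul]
  exact Finset.dvd_sum fun l _ => (h l).mul_right _

theorem cg_zero_iff {N : ℕ} {T : ι → ℤ} : Cg N T 0 ↔ ∃ T', T = (N : ℤ) • T' := by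
  constructor
  · intro h
    choose T' hT using h
    exact ⟨T', funext fun i => by simpa using hT i⟩
  · rintro ⟨T', rfl⟩ i
    simp

theorem exists_rp {N : ℕ} (hN : 0 < N) (T : ι → ℤ) : ∃! c : ι → Fin N, Cg N T (rp c) := by
  have h0 : (0 : ℤ) < N := Int.natCast_pos.2 hN
  refine ⟨fun i => ⟨(T i % N).toNat, ?_⟩, fun i => ?_, fun c hc => funext fun i => Fin.ext ?_⟩
  · have := Int.emod_lt_of_pos (T i) h0
    omega
  · simp only [rp]
    rw [Int.toNat_of_nonneg (Int.emod_nonneg _ h0.ne')]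
    exact Int.dvd_self_sub_emod
  · have h1 : T i % N = ((c i : ℕ) : ℤ) % N :=
      Int.emod_eq_emod_iff_emod_sub_eq_zero.2 (Int.emod_eq_zero_of_dvd (hc i))
    rw [Int.emod_eq_of_lt (Int.natCast_nonneg _) (Int.ofNat_lt.2 (c i).2)] at h1
    simp only [h1, Int.toNat_natCast]

theorem umon_single {A : Type} [CommRing A] (u : ι → Aˣ) (i : ι) :
    umon u (Pi.single i 1) = u i := by
  rw [umon, Finset.prod_eq_single i (fun l _ hl => by simp [hl]) (by simp)]
  simp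

theorem umon_mul' {A : Type} [CommRing A] (u v : ι → Aˣ) (T : ι → ℤ) :
    umon (u * v) T = umon u T * umon v T := umon_mul u v T

theorem umon_one {A : Type} [CommRing A] (T : ι → ℤ) : umon (1 : ι → Aˣ) T = 1 := by
  simp [umon]

private theorem tbas1_zpow {G α : Type} [CommGroup G] (g : G) (s : Finset α) (f : α → ℤ) :
    g ^ ∑ a ∈ s, f a = ∏ a ∈ s, g ^ f a := by
  classical
  induction s using Finset.induction_on with
  | empty => simp
  | insert a s ha ih => rw [Finset.sum_insert ha, Finset.prod_insert ha, _root_.zpow_add, ih]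

theorem umon_upow {A : Type} [NormedCommRing A] (u : ι → Aˣ) (M : Matrix ι ι ℤ) (T : ι → ℤ) :
    umon (upow u M) T = umon u (T ᵥ* M) := by
  simp only [umon, upow, Matrix.vecMul, dotProduct, tbas1_zpow, ← Finset.prod_zpow,
    ← _root_.zpow_mul]
  rw [Finset.prod_comm]
  simp only [mul_comm]

theorem upow_scalar {A : Type} [NormedCommRing A] (u : ι → Aˣ) (n : ℕ) :
    upow u ((n : ℤ) • (1 : Matrix ι ι ℤ)) = u ^ n := by
  funext i
  rw [upow, Finset.prod_eq_single i (fun l _ hl => by simp [hl.symm]) (by simp)]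
  simp

theorem umon_umap {A A' : Type} [CommRing A] [CommRing A'] (ρ : A →+* A') (u : ι → Aˣ)
    (T : ι → ℤ) : umon (umap ρ u) T = ρ (umon u T) := by
  simp only [umon, umap, ← map_zpow, ← map_prod]
  rfl

theorem umon_cg {A : Type} [CommRing A] {u : ι → Aˣ} {M : ℕ} (h : ∀ i, u i ^ M = 1) {T c : ι → ℤ}
    (hc : Cg M T c) : umon u T = umon u c := by
  simp only [umon]
  congr 1
  refine Finset.prod_congr rfl fun i _ => ?_
  obtain ⟨k, hk⟩ := hc i
  rw [eq_add_of_sub_eq hk, _root_.zpow_add, _root_.zpow_mul, zpow_natCast, h i, _root_.one_zpow,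
    one_mul]

namespace TW

theorem ext_co {F G : R} (h : ∀ T, S.co F T = S.co G T) : F = G := S.inj (funext h)

theorem conv_fin (F G : R) (T : ι → ℤ) :
    (Function.support fun U => S.co F U * S.co G (T - U)).Finite := by
  obtain ⟨y, hy⟩ := C.ne
  refine (C.fin y hy (ip T y)).subset fun U hU => ⟨S.supp F U (left_ne_zero_of_mul hU), ?_⟩
  have h := C.ip_nonneg hy (S.supp G _ (right_ne_zero_of_mul hU))
  rwa [ip_sub, sub_nonneg] at h

theorem co_cst' (c : ℂ_[p]) (T : ι → ℤ) : S.co (S.cst c) T = if T = 0 then c else 0 := by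
  rw [← mul_one (S.cst c), S.co_cst, S.co_one, Pi.single_apply, mul_ite, mul_one, mul_zero]

theorem co_int (n : ℤ) (F : R) (T : ι → ℤ) : S.co (n * F) T = n * S.co F T := by
  rw [← zsmul_eq_mul, map_zsmul, Pi.smul_apply, zsmul_eq_mul]

theorem cst_inj : Function.Injective S.cst := fun a b h => by
  simpa only [co_cst', if_true] using congrArg (fun F => S.co F 0) h

theorem p_cancel (S : TW p C R) {F : R} (h : (p : R) * F = 0) : F = 0 := by
  refine ext_co (S := S) fun T => ?_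
  have h1 := congrArg (fun G => S.co G T) h
  simp only [← nsmul_eq_mul, map_nsmul, Pi.smul_apply, map_zero, Pi.zero_apply] at h1
  rw [map_zero, Pi.zero_apply]
  exact (smul_eq_zero.1 h1).resolve_left (Fact.out : p.Prime).ne_zero

private theorem tbas1_nonneg {B : ℝ} {F : R} (h : S.Bd B F) : 0 ≤ B :=
  (norm_nonneg _).trans (h 0)

private theorem tbas1_int (n : ℤ) : ‖(n : ℂ_[p])‖ ≤ 1 := IsUltrametricDist.norm_intCast_le_one _ n

private theorem tbas1_p : ‖(p : ℂ_[p])‖ = (p : ℝ)⁻¹ := by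
  rw [← Padic.norm_p (p := p), ← PadicComplex.norm_extends']
  simp

theorem Bd.one : S.Bd 1 1 := fun T => by
  rw [S.co_one, Pi.single_apply]
  split_ifs <;> simp

theorem Bd.mono {B B' : ℝ} {F : R} (h : S.Bd B F) (h' : B ≤ B') : S.Bd B' F :=
  fun T => (h T).trans h'

theorem Bd.add {B : ℝ} {F G : R} (h : S.Bd B F) (h' : S.Bd B G) : S.Bd B (F + G) :=
  fun T => by
    rw [map_add, Pi.add_apply]
    exact (IsUltrametricDist.norm_add_le_max _ _).trans (max_le (h T) (h' T))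

theorem Bd.neg {B : ℝ} {F : R} (h : S.Bd B F) : S.Bd B (-F) := fun T => by
  rw [map_neg, Pi.neg_apply, norm_neg]
  exact h T

theorem Bd.sub {B : ℝ} {F G : R} (h : S.Bd B F) (h' : S.Bd B G) : S.Bd B (F - G) := by
  rw [sub_eq_add_neg]
  exact h.add h'.neg

theorem Bd.sum {B : ℝ} (hB : 0 ≤ B) {α : Type} (s : Finset α) {F : α → R}
    (h : ∀ a ∈ s, S.Bd B (F a)) : S.Bd B (∑ a ∈ s, F a) :=
  Finset.sum_induction F (S.Bd B) (fun _ _ => Bd.add) (fun T => by simpa using hB) h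

theorem Bd.mul {B B' : ℝ} {F G : R} (h : S.Bd B F) (h' : S.Bd B' G) : S.Bd (B * B') (F * G) :=
  fun T => by
    rw [S.co_mul]
    refine finsum_induction (fun x : ℂ_[p] => ‖x‖ ≤ B * B') ?_ (fun x y hx hy => ?_) fun U => ?_
    · simpa using mul_nonneg (tbas1_nonneg h) (tbas1_nonneg h')
    · exact (IsUltrametricDist.norm_add_le_max _ _).trans (max_le hx hy)
    · rw [norm_mul]
      exact mul_le_mul (h _) (h' _) (norm_nonneg _) (tbas1_nonneg h)

theorem Bd.cst (c : ℂ_[p]) : S.Bd ‖c‖ (S.cst c) := fun T => by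
  rw [co_cst']
  split_ifs <;> simp

theorem Bd.cs {B : ℝ} {F : R} (h : S.Bd B F) {N : ℕ} (hN : 0 < N) (c : ι → ℤ) :
    S.Bd B (S.cs N c F) := fun T => by
  rw [S.co_cs _ _ _ _ hN]
  split_ifs
  · exact h T
  · simpa using tbas1_nonneg h

theorem Bd.del {B : ℝ} {F : R} (h : S.Bd B F) (i : ι) : S.Bd B (S.del i F) := fun T => by
  rw [S.co_del, norm_mul]
  exact (mul_le_of_le_one_left (norm_nonneg _) (tbas1_int _)).trans (h T)

theorem Bd.isg {g : R →+* R} {M : Matrix ι ι ℤ} (hg : S.Isg g M) {B : ℝ} {F : R} (h : S.Bd B F) :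
    S.Bd B (g F) := fun T => by
  by_cases h0 : S.co (g F) T = 0
  · simpa [h0] using tbas1_nonneg h
  · obtain ⟨T', rfl⟩ := hg.co_zero F T h0
    rw [hg.co_eq]
    exact h T'

theorem Bd.trl {t : R →+* R} {ζ : ι → ℂ_[p]ˣ} {M : ℕ} (ht : S.Trl t ζ M) {B : ℝ} {F : R}
    (h : S.Bd B F) : S.Bd B (t F) := fun T => by
  have h1 : ‖umon ζ T‖ ^ M = 1 := by
    have h2 : (∏ i, ζ i ^ T i) ^ M = 1 := by
      rw [← Finset.prod_pow]
      refine Finset.prod_eq_one fun i _ => ?_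
      rw [← zpow_natCast, ← _root_.zpow_mul, mul_comm, _root_.zpow_mul, zpow_natCast, ht.ord i,
        _root_.one_zpow]
    rw [← norm_pow, umon, ← Units.val_pow_eq_pow_val, h2, Units.val_one, norm_one]
  rw [ht.co_eq, norm_mul, (pow_eq_one_iff_of_nonneg (norm_nonneg _) ht.pos.ne').1 h1, one_mul]
  exact h T

theorem Zi.bd {F : R} (h : S.Zi F) : S.Bd 1 F := fun T => by
  obtain ⟨n, hn⟩ := h T
  rw [hn]
  exact tbas1_int n

theorem Dv.bd {F : R} (h : S.Dv F) : S.Bd (p : ℝ)⁻¹ F := fun T => by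
  obtain ⟨n, hn⟩ := h T
  rw [hn, norm_mul, tbas1_p]
  exact mul_le_of_le_one_right (by positivity) (tbas1_int n)

theorem Zi.one : S.Zi 1 := fun T => by
  rw [S.co_one, Pi.single_apply]
  split_ifs
  exacts [⟨1, Int.cast_one.symm⟩, ⟨0, Int.cast_zero.symm⟩]

theorem Zi.add {F G : R} (h : S.Zi F) (h' : S.Zi G) : S.Zi (F + G) := fun T => by
  obtain ⟨n, hn⟩ := h T
  obtain ⟨m, hm⟩ := h' T
  exact ⟨n + m, by rw [map_add, Pi.add_apply, hn, hm, Int.cast_add]⟩

theorem Zi.neg {F : R} (h : S.Zi F) : S.Zi (-F) := fun T => by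
  obtain ⟨n, hn⟩ := h T
  exact ⟨-n, by rw [map_neg, Pi.neg_apply, hn, Int.cast_neg]⟩

theorem Zi.mul {F G : R} (h : S.Zi F) (h' : S.Zi G) : S.Zi (F * G) := fun T => by
  rw [S.co_mul]
  refine finsum_induction (fun x : ℂ_[p] => ∃ n : ℤ, x = n) ⟨0, Int.cast_zero.symm⟩ ?_ fun U => ?_
  · rintro _ _ ⟨n, rfl⟩ ⟨m, rfl⟩
    exact ⟨n + m, (Int.cast_add n m).symm⟩
  · obtain ⟨n, hn⟩ := h U
    obtain ⟨m, hm⟩ := h' (T - U)
    exact ⟨n * m, by rw [hn, hm, Int.cast_mul]⟩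

theorem Zi.cs {F : R} (h : S.Zi F) {N : ℕ} (hN : 0 < N) (c : ι → ℤ) : S.Zi (S.cs N c F) :=
  fun T => by
    rw [S.co_cs _ _ _ _ hN]
    split_ifs
    exacts [h T, ⟨0, Int.cast_zero.symm⟩]

theorem Zi.del {F : R} (h : S.Zi F) (i : ι) : S.Zi (S.del i F) := fun T => by
  obtain ⟨n, hn⟩ := h T
  exact ⟨T i * n, by rw [S.co_del, hn, Int.cast_mul]⟩

theorem Zi.up {F : R} (h : S.Zi F) : S.Zi (S.up F) := fun T => by
  rw [S.co_up]
  exact h _

theorem Zi.isg {g : R →+* R} {M : Matrix ι ι ℤ} (hg : S.Isg g M) {F : R} (h : S.Zi F) :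
    S.Zi (g F) := fun T => by
  by_cases h0 : S.co (g F) T = 0
  · exact ⟨0, h0.trans Int.cast_zero.symm⟩
  · obtain ⟨T', rfl⟩ := hg.co_zero F T h0
    rw [hg.co_eq]
    exact h T'

theorem Dv.mul {F G : R} (h : S.Dv F) (h' : S.Zi G) : S.Dv (F * G) := fun T => by
  rw [S.co_mul]
  refine finsum_induction (fun x : ℂ_[p] => ∃ n : ℤ, x = p * n) ⟨0, by simp⟩ ?_ fun U => ?_
  · rintro _ _ ⟨n, rfl⟩ ⟨m, rfl⟩
    exact ⟨n + m, by rw [Int.cast_add, mul_add]⟩
  · obtain ⟨n, hn⟩ := h U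
    obtain ⟨m, hm⟩ := h' (T - U)
    exact ⟨n * m, by rw [hn, hm, Int.cast_mul, mul_assoc]⟩

theorem Dv.add {F G : R} (h : S.Dv F) (h' : S.Dv G) : S.Dv (F + G) := fun T => by
  obtain ⟨n, hn⟩ := h T
  obtain ⟨m, hm⟩ := h' T
  exact ⟨n + m, by rw [map_add, Pi.add_apply, hn, hm, Int.cast_add, mul_add]⟩

theorem Zi.dv {F : R} (h : S.Zi F) : S.Dv (p * F) := fun T => by
  obtain ⟨n, hn⟩ := h T
  exact ⟨n, by rw [← nsmul_eq_mul, map_nsmul, Pi.smul_apply, hn, nsmul_eq_mul]⟩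

/-- The subring of integral series. -/
def ZR (S : TW p C R) : Subring R where
  carrier := {F | S.Zi F}
  mul_mem' := Zi.mul
  one_mem' := Zi.one
  add_mem' := Zi.add
  zero_mem' := fun _ => ⟨0, by simp⟩
  neg_mem' := Zi.neg

theorem tbas2_single {N : ℕ} (hN : 0 < N) (T : ι → ℤ) : ∃ c₀ : ι → Fin N, Cg N T (rp c₀) ∧
    ∀ g : (ι → Fin N) → ℂ_[p], (∀ c, ¬ Cg N T (rp c) → g c = 0) → ∑ c, g c = g c₀ := by
  obtain ⟨c₀, h0, h1⟩ := exists_rp hN T
  exact ⟨c₀, h0, fun g hg => Finset.sum_eq_single c₀ (fun c _ hc => hg c fun h => hc (h1 c h))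
    fun h => absurd (Finset.mem_univ _) h⟩

theorem Sup.mul {N : ℕ} {c d : ι → ℤ} {F G : R} (h : S.Sup N c F) (h' : S.Sup N d G) :
    S.Sup N (c + d) (F * G) := fun T hT => by
  by_contra h0
  rw [S.co_mul] at hT
  refine hT (finsum_eq_zero_of_forall_eq_zero fun U => ?_)
  by_contra h1
  have h2 := (h U (left_ne_zero_of_mul h1)).add (h' _ (right_ne_zero_of_mul h1))
  rw [add_sub_cancel] at h2
  exact h0 h2

theorem Sup.one (N : ℕ) : S.Sup N 0 1 := fun T hT => by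
  obtain rfl : T = 0 := by
    by_contra h
    rw [S.co_one, Pi.single_eq_of_ne h] at hT
    exact hT rfl
  exact Cg.refl N 0

theorem Sup.cs {N : ℕ} (hN : 0 < N) (c : ι → ℤ) (F : R) : S.Sup N c (S.cs N c F) := fun T hT => by
  by_contra h
  rw [S.co_cs _ _ _ _ hN, if_neg h] at hT
  exact hT rfl

theorem Sup.del {N : ℕ} {c : ι → ℤ} {F : R} (h : S.Sup N c F) (i : ι) : S.Sup N c (S.del i F) :=
  fun T hT => h T (right_ne_zero_of_mul (S.co_del i F T ▸ hT))

theorem Sup.cs_eq {N : ℕ} (hN : 0 < N) {c : ι → ℤ} {F : R} (h : S.Sup N c F) : S.cs N c F = F :=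
  ext_co (S := S) fun T => by
    rw [S.co_cs _ _ _ _ hN]
    split_ifs with h1
    · rfl
    · exact (not_not.1 fun h0 => h1 (h T h0)).symm

theorem cs_congr {N : ℕ} (hN : 0 < N) {c d : ι → ℤ} (h : Cg N c d) (F : R) :
    S.cs N c F = S.cs N d F := ext_co (S := S) fun T => by
  rw [S.co_cs _ _ _ _ hN, S.co_cs _ _ _ _ hN]
  exact if_congr ⟨fun a => a.trans h, fun a => a.trans h.symm⟩ rfl rfl

theorem cs_add {N : ℕ} (hN : 0 < N) (c : ι → ℤ) (F G : R) :
    S.cs N c (F + G) = S.cs N c F + S.cs N c G := ext_co (S := S) fun T => by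
  simp only [map_add, Pi.add_apply, S.co_cs _ _ _ _ hN]
  split_ifs <;> simp

theorem cs_sum {N : ℕ} (hN : 0 < N) (F : R) : ∑ c : ι → Fin N, S.cs N (rp c) F = F :=
  ext_co (S := S) fun T => by
    obtain ⟨c₀, h0, h1⟩ := tbas2_single (p := p) hN T
    rw [map_sum, Finset.sum_apply, h1 _ fun c hc => by rw [S.co_cs _ _ _ _ hN, if_neg hc],
      S.co_cs _ _ _ _ hN, if_pos h0]

theorem cs_refine {N M : ℕ} (hM : 0 < M) (h : N ∣ M) (c : ι → ℤ) (F : R) :
    S.cs N c F = ∑ d : ι → Fin M, if Cg N (rp d) c then S.cs M (rp d) F else 0 :=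
  ext_co (S := S) fun T => by
    obtain ⟨c₀, h0, h1⟩ := tbas2_single (p := p) hM T
    have h2 := h0.mono h
    rw [map_sum, Finset.sum_apply, h1 _ fun d hd => by
      split_ifs
      · rw [S.co_cs _ _ _ _ hM, if_neg hd]
      · rw [map_zero, Pi.zero_apply], S.co_cs _ _ _ _ (Nat.pos_of_dvd_of_pos h hM)]
    by_cases h3 : Cg N T c
    · rw [if_pos h3, if_pos (h2.symm.trans h3), S.co_cs _ _ _ _ hM, if_pos h0]
    · rw [if_neg h3, if_neg fun h4 => h3 (h2.trans h4), map_zero, Pi.zero_apply]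

theorem tbas2_sum {N : ℕ} (hN : 0 < N) (c : ι → ℤ) {α : Type} (s : Finset α) (F : α → R) :
    S.cs N c (∑ a ∈ s, F a) = ∑ a ∈ s, S.cs N c (F a) :=
  map_sum (AddMonoidHom.mk' (S.cs N c) (cs_add hN c)) F s

theorem tbas2_sup {N : ℕ} (hN : 0 < N) (c : ι → ℤ) {d : ι → ℤ} (F : R) {G : R}
    (h : S.Sup N d G) : S.cs N (c + d) (F * G) = S.cs N c F * G := ext_co (S := S) fun T => by
  rw [S.co_cs _ _ _ _ hN, S.co_mul, S.co_mul]
  simp only [S.co_cs _ _ _ _ hN]
  by_cases h1 : Cg N T (c + d)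
  · rw [if_pos h1]
    refine finsum_congr fun U => ?_
    by_cases h2 : S.co G (T - U) = 0
    · rw [h2, mul_zero, mul_zero]
    · have h3 := h1.sub (h _ h2)
      rw [sub_sub_cancel, add_sub_cancel_right] at h3
      rw [if_pos h3]
  · rw [if_neg h1]
    refine (finsum_eq_zero_of_forall_eq_zero fun U => ?_).symm
    by_cases h2 : S.co G (T - U) = 0
    · rw [h2, mul_zero]
    · rw [if_neg fun h3 => h1 (add_sub_cancel U T ▸ Cg.add h3 (h _ h2)), zero_mul]

theorem cs_mul {N : ℕ} (hN : 0 < N) (c : ι → ℤ) (F G : R) :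
    S.cs N c (F * G) = ∑ a : ι → Fin N, S.cs N (rp a) F * S.cs N (c - rp a) G := by
  conv_lhs => rw [← cs_sum (S := S) hN F, Finset.sum_mul, tbas2_sum hN]
  refine Finset.sum_congr rfl fun a _ => ?_
  rw [mul_comm, mul_comm _ (S.cs N _ G), ← tbas2_sup hN _ G (Sup.cs hN _ F), sub_add_cancel]

theorem cs_mul_sup {N : ℕ} (hN : 0 < N) (c : ι → ℤ) {d : ι → ℤ} (F : R) {G : R}
    (h : S.Sup N d G) : S.cs N (c + d) (F * G) = S.cs N c F * G := tbas2_sup hN c F h

theorem del_add (i : ι) (F G : R) : S.del i (F + G) = S.del i F + S.del i G :=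
  ext_co (S := S) fun T => by simp only [map_add, Pi.add_apply, S.co_del, mul_add]

theorem del_mul (i : ι) (F G : R) : S.del i (F * G) = F * S.del i G + G * S.del i F :=
  ext_co (S := S) fun T => by
    rw [mul_comm G, map_add, Pi.add_apply, S.co_del, S.co_mul, S.co_mul, S.co_mul, mul_finsum,
      ← finsum_add_distrib (conv_fin _ _ T) (conv_fin _ _ T)]
    refine finsum_congr fun U => ?_
    rw [S.co_del, S.co_del, Pi.sub_apply, Int.cast_sub]
    ring

theorem del_cst (i : ι) (c : ℂ_[p]) : S.del i (S.cst c) = 0 := ext_co (S := S) fun T => by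
  rw [S.co_del, co_cst', map_zero, Pi.zero_apply]
  split_ifs with h <;> simp [h]

theorem del_cs {N : ℕ} (hN : 0 < N) (i : ι) (c : ι → ℤ) (F : R) :
    S.del i (S.cs N c F) = S.cs N c (S.del i F) := ext_co (S := S) fun T => by
  simp only [S.co_del, S.co_cs _ _ _ _ hN]
  split_ifs <;> simp

theorem del_fr (i : ι) (F : R) : S.del i (S.fr F) = p * S.fr (S.del i F) :=
  ext_co (S := S) fun T => by
    rw [← Int.cast_natCast (R := R), co_int, S.co_del]
    by_cases h : Cg p T 0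
    · obtain ⟨T', rfl⟩ := cg_zero_iff.1 h
      rw [S.co_fr, S.co_fr, S.co_del, Pi.smul_apply, smul_eq_mul, Int.cast_mul, mul_assoc]
    · rw [not_not.1 fun h0 => h (S.co_fr0 _ T h0), not_not.1 fun h0 => h (S.co_fr0 _ T h0),
        mul_zero, mul_zero]

/-- The derivations. -/
def dD (S : TW p C R) (i : ι) : Derivation ℤ R R :=
  Derivation.mk' (AddMonoidHom.toIntLinearMap (AddMonoidHom.mk' (S.del i) (del_add i)))
    fun F G => del_mul i F G

theorem dD_apply (i : ι) (F : R) : S.dD i F = S.del i F := rfl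

theorem del_approx (i : ι) {B : ℝ} {F : R} (h : S.Bd B F) (j : ℕ) : S.Bd (B * ((p : ℝ) ^ j)⁻¹)
    (S.del i F - ∑ c : ι → Fin (p ^ j), (rp c i : R) * S.cs (p ^ j) (rp c) F) := fun T => by
  have hN : 0 < p ^ j := pow_pos (Fact.out : p.Prime).pos j
  have hp : ‖(p : ℂ_[p])‖ = (p : ℝ)⁻¹ := by
    rw [← map_natCast (algebraMap ℚ_[p] ℂ_[p]) p, norm_algebraMap', Padic.norm_p]
  obtain ⟨c₀, h0, h1⟩ := tbas2_single (p := p) hN T
  obtain ⟨n, hn⟩ := h0 i
  rw [map_sub, Pi.sub_apply, map_sum, Finset.sum_apply, h1 _ fun c hc => by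
    rw [co_int, S.co_cs _ _ _ _ hN, if_neg hc, mul_zero], co_int, S.co_cs _ _ _ _ hN, if_pos h0,
    S.co_del, ← sub_mul, ← Int.cast_sub, hn, norm_mul, mul_comm B, Int.cast_mul, norm_mul,
    Int.cast_natCast, Nat.cast_pow, norm_pow, hp, inv_pow]
  exact mul_le_mul (mul_le_of_le_one_right (by positivity)
    (IsUltrametricDist.norm_intCast_le_one _ n)) (h T) (norm_nonneg _) (by positivity)

theorem isg_fr : S.Isg S.fr ((p : ℤ) • (1 : Matrix ι ι ℤ)) := by
  refine ⟨?_, fun F T => ?_, fun F T h => ?_⟩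
  · rw [det_smul, det_one, mul_one]
    exact pow_ne_zero _ (Nat.cast_ne_zero.2 (Fact.out : p.Prime).ne_zero)
  · rw [vecMul_smul, vecMul_one, S.co_fr]
  · simpa only [vecMul_smul, vecMul_one] using cg_zero_iff.1 (S.co_fr0 F T h)

theorem tbas2_comp {g g' : R →+* R} {M M' : Matrix ι ι ℤ} (h : S.Isg g M) (h' : S.Isg g' M') :
    S.Isg (g' * g) (M * M') := by
  refine ⟨det_mul M M' ▸ mul_ne_zero h.det h'.det, fun F T => ?_, fun F T h0 => ?_⟩
  · rw [← vecMul_vecMul]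
    exact (h'.co_eq (g F) _).trans (h.co_eq F T)
  · obtain ⟨T', rfl⟩ := h'.co_zero (g F) T h0
    obtain ⟨U, rfl⟩ := h.co_zero F T' (h'.co_eq (g F) T' ▸ h0)
    exact ⟨U, vecMul_vecMul _ _ _⟩

theorem tbas2_ext {g : R →+* R} {M : Matrix ι ι ℤ} (hg : S.Isg g M) {F G : R}
    (h : ∀ T, S.co G (T ᵥ* M) = S.co F T) (h' : ∀ T, S.co G T ≠ 0 → ∃ T', T = T' ᵥ* M) :
    g F = G := ext_co (S := S) fun T => by
  by_cases h1 : ∃ T', T = T' ᵥ* M
  · obtain ⟨T', rfl⟩ := h1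
    rw [h, hg.co_eq]
  · rw [not_not.1 fun h0 => h1 (h' T h0), not_not.1 fun h0 => h1 (hg.co_zero F T h0)]

theorem isg_fr_pow (f : ℕ) : S.Isg (S.fr ^ f) (((p ^ f : ℕ) : ℤ) • (1 : Matrix ι ι ℤ)) := by
  induction f with
  | zero =>
    rw [pow_zero, pow_zero, Nat.cast_one, one_smul]
    exact ⟨by simp, fun F T => by simp, fun F T _ => ⟨T, by simp⟩⟩
  | succ f ih =>
    have h := tbas2_comp isg_fr ih
    rwa [← pow_succ, smul_mul_smul_comm, mul_one, ← Nat.cast_mul, ← pow_succ'] at h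

theorem fr_up (F : R) : S.fr (S.up F) = S.cs p 0 F := ext_co (S := S) fun T => by
  rw [S.co_cs _ _ _ _ (Fact.out : p.Prime).pos]
  split_ifs with h
  · obtain ⟨T', rfl⟩ := cg_zero_iff.1 h
    rw [S.co_fr, S.co_up]
  · exact not_not.1 fun h0 => h (S.co_fr0 _ T h0)

theorem Isg.cst {g : R →+* R} {M : Matrix ι ι ℤ} (hg : S.Isg g M) (c : ℂ_[p]) :
    g (S.cst c) = S.cst c := by
  refine tbas2_ext hg (fun T => ?_) fun T h => ⟨0, ?_⟩
  · rw [co_cst', co_cst']
    exact if_congr ⟨eq_zero_of_vecMul_eq_zero hg.det, fun h => by rw [h, zero_vecMul]⟩ rfl rfl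
  · rw [co_cst'] at h
    rw [zero_vecMul]
    exact not_not.1 fun h0 => h (if_neg h0)

theorem Isg.comm {g : R →+* R} {M : Matrix ι ι ℤ} (hg : S.Isg g M) (f : ℕ) (F : R) :
    g ((S.fr ^ f) F) = (S.fr ^ f) (g F) := by
  have h1 := tbas2_comp (isg_fr_pow f) hg
  have h2 := tbas2_comp hg (isg_fr_pow f)
  rw [Matrix.smul_mul, Matrix.one_mul] at h1
  rw [Matrix.mul_smul, Matrix.mul_one] at h2
  exact tbas2_ext h1 (h2.co_eq F) (h2.co_zero F)

theorem Isg.cs {g : R →+* R} {M : Matrix ι ι ℤ} (hg : S.Isg g M) {N : ℕ} (hN : 0 < N) (c : ι → ℤ)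
    (F : R) : S.cs N c (g F) =
      ∑ a : ι → Fin N, if Cg N (rp a ᵥ* M) c then g (S.cs N (rp a) F) else 0 := by
  conv_lhs => rw [← cs_sum (S := S) hN F, map_sum, tbas2_sum hN]
  refine Finset.sum_congr rfl fun a _ => ?_
  have h1 : S.Sup N (rp a ᵥ* M) (g (S.cs N (rp a) F)) := fun T hT => by
    obtain ⟨T', rfl⟩ := hg.co_zero _ T hT
    exact (Sup.cs hN _ F T' (hg.co_eq _ T' ▸ hT)).vecMul M
  split_ifs with h
  · rw [← cs_congr hN h, h1.cs_eq hN]
  · refine ext_co (S := S) fun T => ?_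
    rw [map_zero, Pi.zero_apply, S.co_cs _ _ _ _ hN]
    split_ifs with h2
    · exact not_not.1 fun h0 => h ((h1 T h0).symm.trans h2)
    · rfl

theorem Trl.cst {t : R →+* R} {ζ : ι → ℂ_[p]ˣ} {M : ℕ} (ht : S.Trl t ζ M) (c : ℂ_[p]) :
    t (S.cst c) = S.cst c := ext_co (S := S) fun T => by
  rw [ht.co_eq, co_cst']
  split_ifs with h
  · rw [h, umon, Finset.prod_eq_one fun i _ => zpow_zero _, Units.val_one, one_mul]
  · rw [mul_zero]

theorem Trl.cs {t : R →+* R} {ζ : ι → ℂ_[p]ˣ} {M : ℕ} (ht : S.Trl t ζ M) {N : ℕ} (hN : 0 < N)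
    (c : ι → ℤ) (F : R) : S.cs N c (t F) = t (S.cs N c F) := ext_co (S := S) fun T => by
  simp only [S.co_cs _ _ _ _ hN, ht.co_eq]
  split_ifs <;> simp

theorem Trl.sup {t : R →+* R} {ζ : ι → ℂ_[p]ˣ} {M : ℕ} (ht : S.Trl t ζ M) {c : ι → ℤ} {F : R}
    (h : S.Sup M c F) : t F = S.cst (umon ζ c) * F := ext_co (S := S) fun T => by
  rw [ht.co_eq, S.co_cst]
  by_cases h0 : S.co F T = 0
  · rw [h0, mul_zero, mul_zero]
  · rw [umon_cg ht.ord (h T h0)]

theorem Trl.eq_sum {t : R →+* R} {ζ : ι → ℂ_[p]ˣ} {M : ℕ} (ht : S.Trl t ζ M) (F : R) :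
    t F = ∑ c : ι → Fin M, S.cst (umon ζ (rp c)) * S.cs M (rp c) F := by
  conv_lhs => rw [← cs_sum (S := S) ht.pos F, map_sum]
  exact Finset.sum_congr rfl fun c _ => ht.sup (Sup.cs ht.pos _ F)

end TW

namespace Cl

variable (M : Cl S)

theorem sub {a : ℕ} {F G : R} (h : F ∈ M.M a) (h' : G ∈ M.M a) : F - G ∈ M.M a :=
  sub_eq_add_neg F G ▸ M.add a F h _ (M.neg a G h')

theorem sum {a : ℕ} {α : Type} (s : Finset α) {F : α → R} (h : ∀ x ∈ s, F x ∈ M.M a) :
    ∑ x ∈ s, F x ∈ M.M a :=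
  Finset.sum_induction F (· ∈ M.M a) (fun x y hx hy => M.add a x hx y hy) (M.zero a) h

theorem zsmul {a : ℕ} {F : R} (h : F ∈ M.M a) (n : ℤ) : (n : R) * F ∈ M.M a := by
  induction n using Int.induction_on with
  | zero => simpa using M.zero a
  | succ n ih => simpa [add_mul] using M.add a _ ih F h
  | pred n ih => simpa [sub_mul] using M.sub ih h

theorem pow {a : ℕ} {F : R} (h : F ∈ M.M a) (n : ℕ) : F ^ n ∈ M.M (n * a) := by
  induction n with
  | zero => simpa using M.one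
  | succ n ih => simpa only [pow_succ, Nat.succ_mul] using M.mul _ _ _ ih F h

theorem prod {α : Type} (s : Finset α) {a : α → ℕ} {F : α → R} (h : ∀ x ∈ s, F x ∈ M.M (a x)) :
    ∏ x ∈ s, F x ∈ M.M (∑ x ∈ s, a x) := by
  classical
  induction s using Finset.induction_on with
  | empty => simpa using M.one
  | insert x s hx ih =>
    rw [Finset.prod_insert hx, Finset.sum_insert hx]
    exact M.mul _ _ _ (h x (Finset.mem_insert_self x s)) _
      (ih fun y hy => h y (Finset.mem_insert_of_mem hy))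

theorem Tow.fr_pow {M : Cl S} (h : M.Tow) (f : ℕ) {a : ℕ} {F : R} (hF : F ∈ M.M a) :
    (S.fr ^ f) F ∈ M.M a := by
  induction f with
  | zero => exact hF
  | succ f ih =>
    rw [pow_succ']
    exact h.fr a _ ih

end Cl

end Pool.Agent.E7
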