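import Pool.Agent.Lib.MP_7e5527_ag.EO.TTw

/-! The action of the formal torus on characters. -/

open Filter Topology Polynomial Matrix

noncomputable section

namespace Pool.Agent.E7

variable {ι : Type} [Fintype ι] [DecidableEq ι] {p : ℕ} [Fact p.Prime] {C : Cone ι} {R : Type}
  [CommRing R] {S : TW p C R}

variable {A : Type} [NormedCommRing A] [NormOneClass A] [NormedAlgebra ℂ_[p] A] [CompleteSpace A]
  [IsUltrametricDist A] {ψ : R →+* A} {u v : ι → Aˣ}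

theorem Nr.one : Nr (1 : ι → Aˣ) :=
  fun i => by simp

theorem Nr.mul (hu : Nr u) (hv : Nr v) : Nr (u * v) :=
  fun i => norm_mul_sub_one (hu i) (hv i)

theorem Nr.inv (hu : Nr u) : Nr u⁻¹ :=
  fun i => (pinv_inv_le (hu i)).trans_lt (hu i)

theorem Nr.pow (hu : Nr u) (n : ℕ) : Nr (u ^ n) := by
  induction n with
  | zero => rw [pow_zero]; exact Nr.one
  | succ n ih => rw [pow_succ]; exact ih.mul hu

theorem Nr.upow (hu : Nr u) (M : Matrix ι ι ℤ) : Nr (upow u M) :=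
  fun i => norm_umon_sub_one hu (M i)

theorem Nr.umap (hu : Nr u) {A' : Type} [NormedCommRing A'] (ρ : A →+* A')
    (hρ : ∀ a, ‖ρ a‖ ≤ ‖a‖) : Nr (umap ρ u) :=
  fun i => by
  have := hρ ((u i : A) - 1)
  rw [map_sub, map_one] at this
  exact this.trans_lt (hu i)

theorem nr_iff : Nr u ↔ ‖uv u - 1‖ < 1 :=
  (pi_norm_lt_iff one_pos).symm

theorem exists_nr {x : ι → A} (h : ‖x - 1‖ < 1) : ∃ u : ι → Aˣ, Nr u ∧ uv u = x := by
  have h1 : ∀ i, ‖x i - 1‖ < 1 := (pi_norm_lt_iff one_pos).1 h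
  choose u hu using fun i => exists_unit (h1 i)
  exact ⟨u, fun i => (hu i).symm ▸ h1 i, funext hu⟩

theorem norm_umon_taylor (hu : Nr u) (T : ι → ℤ) :
    ‖umon u T - 1 - ∑ l, (T l : A) * ((u l : A) - 1)‖ ≤ ‖uv u - 1‖ ^ 2 := by
  have h1 : ∀ T, ‖umon u T - 1‖ ≤ ‖uv u - 1‖ := fun T =>
    (pinv_umon (norm_nonneg _) (fun i => ⟨hu i, norm_le_pi_norm (uv u - 1) i⟩) T).2
  have h2 : ∀ T T', ‖(umon u T - 1) * (umon u T' - 1)‖ ≤ ‖uv u - 1‖ ^ 2 := fun T T' =>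
    (norm_mul_le _ _).trans (sq ‖uv u - 1‖ ▸ mul_le_mul (h1 T) (h1 T') (norm_nonneg _) (norm_nonneg _))
  let H : AddSubgroup (ι → ℤ) :=
    { carrier := {T | ‖umon u T - 1 - ∑ l, (T l : A) * ((u l : A) - 1)‖ ≤ ‖uv u - 1‖ ^ 2}
      zero_mem' := by simp [umon_zero]
      add_mem' := fun {a b} ha hb => by
        refine le_of_eq_of_le (congrArg _ ?_) (pinv_add (pinv_add ha hb) (h2 a b))
        simp only [umon_add, Pi.add_apply, Int.cast_add, add_mul, Finset.sum_add_distrib]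
        ring
      neg_mem' := fun {a} ha => by
        refine le_of_eq_of_le ((norm_neg _).symm.trans (congrArg _ ?_)) (pinv_add ha (h2 a (-a)))
        have e := umon_add u a (-a)
        rw [add_neg_cancel, umon_zero] at e
        simp only [Pi.neg_apply, Int.cast_neg, neg_mul, Finset.sum_neg_distrib]
        linear_combination e }
  have h3 : ∀ i, Pi.single i 1 ∈ H := fun i => by
    change ‖_‖ ≤ _
    rw [umon_single, Finset.sum_eq_single i (fun l _ h => by simp [h]) (by simp)]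
    simp
  have e : T = ∑ i, T i • Pi.single i (1 : ℤ) := by
    funext j
    simp [Pi.single_apply]
  change T ∈ H
  rw [e]
  exact H.sum_mem fun i _ => H.zsmul_mem (h3 i) _

theorem IsU.mul {a b : A} (ha : IsU a) (hb : IsU b) : IsU (a * b) := by
  obtain ⟨a', h1, h2⟩ := ha
  obtain ⟨b', h3, h4⟩ := hb
  exact ⟨a' * b', by rw [mul_mul_mul_comm, h1, h3, one_mul], pinv_mul h2 h4⟩

theorem IsU.isUnit {a : A} (ha : IsU a) : IsUnit a :=
  .of_mul_eq_one _ ha.choose_spec.1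

theorem IsU.inv_le {a : A} (ha : IsU a) : ‖Ring.inverse a‖ ≤ 1 := by
  obtain ⟨b, h1, h2⟩ := id ha
  rwa [← one_mul (Ring.inverse a), ← h1, mul_right_comm, Ring.mul_inverse_cancel _ ha.isUnit,
    one_mul]

theorem IsU.near {a b : A} (ha : IsU a) (h : ‖b - a‖ < 1) : IsU b := by
  obtain ⟨c, h1, h2⟩ := ha
  have h3 : ‖c * b - 1‖ < 1 := by
    rw [← h1, mul_comm a, ← mul_sub]
    exact (pinv_mul h2 le_rfl).trans_lt h
  obtain ⟨w, hw⟩ := exists_unit h3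
  refine ⟨c * (w⁻¹ : Aˣ), ?_, pinv_mul h2 (pinv_inv (hw ▸ h3))⟩
  rw [← mul_assoc, mul_comm b, ← hw, Units.mul_inv]

theorem IsU.map {a : A} (ha : IsU a) {A' : Type} [NormedCommRing A'] (ρ : A →+* A')
    (hρ : ∀ a, ‖ρ a‖ ≤ ‖a‖) : IsU (ρ a) := by
  obtain ⟨b, h1, h2⟩ := ha
  exact ⟨ρ b, by rw [← map_mul, h1, map_one], (hρ b).trans h2⟩

theorem IsU.inv_sub {a b : A} (ha : IsU a) (hb : IsU b) :
    ‖Ring.inverse a - Ring.inverse b‖ ≤ ‖a - b‖ := by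
  have e : Ring.inverse a - Ring.inverse b = Ring.inverse a * (Ring.inverse b * (b - a)) := by
    linear_combination Ring.inverse b * Ring.inverse_mul_cancel _ ha.isUnit -
      Ring.inverse a * Ring.inverse_mul_cancel _ hb.isUnit
  rw [e]
  exact pinv_mul ha.inv_le (pinv_mul hb.inv_le (norm_sub_rev _ _).le)

theorem isU_iff {K : Type} [NormedField K] {a : K} (h : ‖a‖ ≤ 1) : IsU a ↔ ‖a‖ = 1 := by
  refine ⟨fun ⟨b, h1, h2⟩ => h.antisymm ?_, fun h1 => ⟨a⁻¹, mul_inv_cancel₀ fun h0 => ?_, ?_⟩⟩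
  · have := congrArg norm h1
    rw [norm_mul, norm_one] at this
    nlinarith [norm_nonneg a]
  · simp [h0] at h1
  · rw [norm_inv, h1, inv_one]

namespace TW

theorem twc_apply (hψ : S.Ch ψ) (hu : Nr u) (G : R) : S.twc ψ u G = S.tw ψ (umon u) G := by
  have h : ∃ φ : R →+* A, ∀ G, φ G = S.tw ψ (umon u) G :=
    ⟨RingHom.mk' ⟨⟨S.tw ψ (umon u), (tw_one_right hψ (UC.umon hu)).trans (umon_zero u)⟩,
      fun F G => by
        have := tw_mul hψ (UC.umon hu) (Finset.univ : Finset Unit) (fun _ _ => UC.umon hu)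
          (fun _ _ => UC.umon hu) (fun T T' => by rw [umon_add, Fintype.sum_unique]) F G
        rwa [Fintype.sum_unique] at this⟩ (tw_add_right hψ (UC.umon hu)), fun _ => rfl⟩
  rw [twc, dif_pos h]
  exact h.choose_spec G

theorem Ch.twc (hψ : S.Ch ψ) (hu : Nr u) : S.Ch (S.twc ψ u) := fun F B hB hF => by
  rw [twc_apply hψ hu]
  exact (tw_le hψ (UC.umon hu) hB hF zero_le_one (norm_umon_le hu)).trans (one_mul B).le

theorem twc_one (hψ : S.Ch ψ) : S.twc ψ 1 = ψ := by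
  ext G
  rw [twc_apply hψ Nr.one, funext (umon_one (A := A) (ι := ι)), tw_const hψ, one_mul]

theorem tw_twc (hψ : S.Ch ψ) (hu : Nr u) {f : (ι → ℤ) → A} (hf : UC p f) (G : R) :
    S.tw (S.twc ψ u) f G = S.tw ψ (fun T => f T * umon u T) G := by
  obtain ⟨θ, h0, h1, hθ⟩ := hu.theta p
  obtain ⟨B, hB, hG⟩ := S.bdd G
  obtain ⟨B', hB'⟩ := hf.1
  have hθ0 : 0 ≤ θ := le_trans (by positivity) h0
  have hB0 : 0 ≤ B' := (norm_nonneg _).trans (hB' 0)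
  have hd : ∀ j, ‖S.rs (S.twc ψ u) f G j - S.rs ψ (fun T => f T * umon u T) G j‖ ≤
      B' * (θ ^ (j + 1) * B) := fun j => by
    have hp : 0 < p ^ j := pow_pos (Fact.out : p.Prime).pos j
    rw [rs, rs, ← Finset.sum_sub_distrib]
    refine IsUltrametricDist.norm_sum_le_of_forall_le_of_nonneg (by positivity) fun c _ => ?_
    rw [mul_assoc, ← mul_sub, twc_apply hψ hu, ← tw_const hψ,
      ← tw_sub hψ (UC.umon hu) (UC.const _)]
    refine (norm_mul_le _ _).trans (mul_le_mul (hB' _) ?_ (norm_nonneg _) hB0)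
    exact tw_le_sup hψ ((UC.umon hu).sub (UC.const _)) hB (Bd.cs hG hp _) (by positivity)
      (Sup.cs hp _ G) fun T hT => norm_umon_cg h0 h1 hθ hT
  have hz : Tendsto (fun j => B' * (θ ^ (j + 1) * B)) atTop (𝓝 0) := by
    simpa using (((tendsto_pow_atTop_nhds_zero_of_lt_one hθ0 h1).comp
      (tendsto_add_atTop_nat 1)).mul_const B).const_mul B'
  exact sub_eq_zero.1 (tendsto_nhds_unique ((tendsto_rs (hψ.twc hu) hf G).sub
    (tendsto_rs hψ (hf.mul (UC.umon hu)) G)) (squeeze_zero_norm hd hz))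

theorem twc_twc (hψ : S.Ch ψ) (hu : Nr u) (hv : Nr v) :
    S.twc (S.twc ψ u) v = S.twc ψ (v * u) := by
  ext G
  rw [twc_apply (hψ.twc hu) hv, tw_twc hψ hu (UC.umon hv), twc_apply hψ (hv.mul hu),
    funext (umon_mul' v u)]

theorem twc_cst (hψ : S.Ch ψ) (hu : Nr u) (c : ℂ_[p]) : S.twc ψ u (S.cst c) = ψ (S.cst c) := by
  have := tw_cst_mul hψ (UC.umon hu) c 1
  rwa [mul_one, tw_one_right hψ (UC.umon hu), umon_zero, mul_one, ← twc_apply hψ hu] at this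

theorem Lin.twc (hψ : S.Ch ψ) (hl : S.Lin ψ) (hu : Nr u) : S.Lin (S.twc ψ u) :=
  fun c => (twc_cst hψ hu c).trans (hl c)

theorem twc_isg (hψ : S.Ch ψ) (hu : Nr u) {g : R →+* R} {M : Matrix ι ι ℤ} (hg : S.Isg g M) :
    (S.twc ψ u).comp g = S.twc (ψ.comp g) (upow u M) := by
  ext G
  rw [RingHom.comp_apply, twc_apply hψ hu, tw_isg hψ (UC.umon hu) hg,
    twc_apply (hψ.isg hg) (hu.upow M), funext (umon_upow u M)]

theorem twc_fr (hψ : S.Ch ψ) (hu : Nr u) (f : ℕ) :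
    (S.twc ψ u).comp (S.fr ^ f) = S.twc (ψ.comp (S.fr ^ f)) (u ^ p ^ f) := by
  rw [twc_isg hψ hu (isg_fr_pow f), upow_scalar]

theorem twc_trl (hψ : S.Ch ψ) (hu : Nr u) {t : R →+* R} {ζ : ι → ℂ_[p]ˣ} {M : ℕ}
    (ht : S.Trl t ζ M) : (S.twc ψ u).comp t = S.twc (ψ.comp t) u := by
  ext G
  rw [RingHom.comp_apply, twc_apply hψ hu, tw_trl hψ (UC.umon hu) ht, twc_apply (hψ.trl ht) hu]

theorem twc_map (hψ : S.Ch ψ) (hu : Nr u) {A' : Type} [NormedCommRing A'] [NormOneClass A']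
    [NormedAlgebra ℂ_[p] A'] [CompleteSpace A'] [IsUltrametricDist A'] (ρ : A →+* A')
    (hρ : ∀ a, ‖ρ a‖ ≤ ‖a‖) : ρ.comp (S.twc ψ u) = S.twc (ρ.comp ψ) (umap ρ u) := by
  ext G
  rw [RingHom.comp_apply, twc_apply hψ hu, tw_map hψ (UC.umon hu) ρ hρ,
    twc_apply (hψ.map ρ hρ) (hu.umap ρ hρ), funext (umon_umap ρ u)]

theorem twc_sub (hψ : S.Ch ψ) (hu : Nr u) (hv : Nr v) {G : R} {B : ℝ} (hB : 0 ≤ B)
    (hG : S.Bd B G) : ‖S.twc ψ u G - S.twc ψ v G‖ ≤ ‖uv u - uv v‖ * B := by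
  rw [twc_apply hψ hu, twc_apply hψ hv, ← tw_sub hψ (UC.umon hu) (UC.umon hv)]
  exact tw_le hψ ((UC.umon hu).sub (UC.umon hv)) hB hG (norm_nonneg _)
    (norm_umon_sub hu hv (norm_nonneg _) fun i => norm_le_pi_norm (uv u - uv v) i)

theorem twc_taylor (hψ : S.Ch ψ) (hu : Nr u) {G : R} {B : ℝ} (hB : 0 ≤ B) (hG : S.Bd B G) :
    ‖S.twc ψ u G - ψ G - ∑ l, ψ (S.del l G) * ((u l : A) - 1)‖ ≤ ‖uv u - 1‖ ^ 2 * B := by
  have h1 : ∀ l, UC p fun T : ι → ℤ => (T l : A) * ((u l : A) - 1) := fun l =>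
    (UC.coord l).mul (UC.const _)
  have h2 := UC.sum Finset.univ fun l _ => h1 l
  have h3 := (UC.umon (p := p) hu).sub (UC.const 1)
  have h4 := tw_le hψ (h3.sub h2) hB hG (sq_nonneg _) (norm_umon_taylor hu)
  rw [tw_sub hψ h3 h2, tw_sub hψ (UC.umon hu) (UC.const 1), tw_const hψ, one_mul,
    tw_sum hψ _ fun l _ => h1 l, ← twc_apply hψ hu] at h4
  refine le_of_eq_of_le (congrArg (fun x => ‖_ - x‖) (Finset.sum_congr rfl fun l _ => ?_)) h4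
  rw [← tw_del hψ (UC.const _), tw_const hψ, mul_comm]

/-- A torsion point acts on a series with exponents in one class by a scalar. -/
theorem twc_sup (hψ : S.Ch ψ) (hu : Nr u) {N j : ℕ} (hj : p ^ j ∣ N) (h : ∀ i, u i ^ p ^ j = 1)
    {c : ι → ℤ} {G : R} (hG : S.Sup N c G) : S.twc ψ u G = umon u c * ψ G := by
  obtain ⟨B, hB, hb⟩ := S.bdd G
  have h1 := tw_le_sup hψ ((UC.umon hu).sub (UC.const (umon u c))) hB hb le_rfl (i := j) (c := c)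
    (fun T hT => (hG T hT).mono hj) fun T hT => by rw [umon_cg h hT, sub_self, norm_zero]
  rwa [zero_mul, norm_le_zero_iff, tw_sub hψ (UC.umon hu) (UC.const _), tw_const hψ, sub_eq_zero,
    ← twc_apply hψ hu] at h1

/-- A translation of `p`-power order is a twist. -/
theorem comp_trl {ψ : R →+* ℂ_[p]} (hψ : S.Ch ψ) {t : R →+* R} {ζ η : ι → ℂ_[p]ˣ} {j : ℕ}
    (ht : S.Trl t ζ (p ^ j)) (hη : ∀ i, ψ (S.cst (ζ i)) = η i) (hn : Nr η) :
    ψ.comp t = S.twc ψ η := by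
  obtain rfl : η = umap (ψ.comp S.cst) ζ := funext fun i => Units.ext (hη i).symm
  ext G
  rw [RingHom.comp_apply, ht.eq_sum, map_sum]
  conv_rhs => rw [← cs_sum (S := S) ht.pos G, map_sum]
  refine Finset.sum_congr rfl fun c _ => ?_
  rw [twc_sup hψ hn dvd_rfl (fun i => by rw [umap, ← map_pow, ht.ord, map_one])
    (Sup.cs ht.pos _ G), umon_umap, map_mul, RingHom.comp_apply]

/-- The chain rule: apply `D` to the Riemann sums; `D (umon u T) = (∑ T i * ω i) * umon u T`. -/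
theorem twc_der (hψ : S.Ch ψ) (hu : Nr u) {k : Type} [CommRing k] [Algebra k A]
    (D : Derivation k A A) (hD : Continuous D) (η ω : ι → A)
    (hω : ∀ i, D (u i : A) = ω i * u i) (G : R)
    (h : ∀ j c, D (ψ (S.cs (p ^ j) c G)) = ∑ i, ψ (S.del i (S.cs (p ^ j) c G)) * η i) :
    D (S.twc ψ u G) = ∑ i, S.twc ψ u (S.del i G) * (η i + ω i) := by
  have hU : UC p (umon u) := UC.umon hu
  have h1 := (hD.tendsto _).comp (tendsto_rs hψ hU G)
  have h2 := tendsto_finsetSum Finset.univ fun i _ =>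
    ((tendsto_rs hψ hU (S.del i G)).mul_const (η i)).add
      ((tendsto_rs hψ ((UC.coord i).mul hU) G).mul_const (ω i))
  simp only [← tw_del hψ hU, ← mul_add, ← twc_apply hψ hu] at h1 h2
  refine tendsto_nhds_unique h1 (h2.congr fun j => ?_)
  have hp : 0 < p ^ j := pow_pos (Fact.out : p.Prime).pos j
  simp only [Function.comp_apply, rs, map_sum, Derivation.leibniz, h, der_umon D u ω hω,
    smul_eq_mul, del_cs hp, Finset.sum_mul, Finset.mul_sum, ← Finset.sum_add_distrib]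
  rw [Finset.sum_comm]
  exact Finset.sum_congr rfl fun c _ => Finset.sum_congr rfl fun i _ => by ring

end TW

namespace Cl

variable {M : Cl S}

theorem Sim.refl {B : Type} [CommRing B] (ψ : R →+* B) : M.Sim ψ ψ :=
  ⟨1, fun a F _ => by simp⟩

theorem Sim.symm {B : Type} [CommRing B] {ψ1 ψ2 : R →+* B} (h : M.Sim ψ1 ψ2) : M.Sim ψ2 ψ1 := by
  obtain ⟨c, h⟩ := h
  refine ⟨c⁻¹, fun a F hF => ?_⟩
  rw [h a F hF, ← mul_assoc, ← mul_pow, Units.inv_mul, one_pow, one_mul]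

theorem Sim.trans {B : Type} [CommRing B] {ψ1 ψ2 ψ3 : R →+* B} (h : M.Sim ψ1 ψ2)
    (h' : M.Sim ψ2 ψ3) : M.Sim ψ1 ψ3 := by
  obtain ⟨c, h⟩ := h
  obtain ⟨d, h'⟩ := h'
  refine ⟨c * d, fun a F hF => ?_⟩
  rw [h a F hF, h' a F hF, Units.val_mul, mul_pow, mul_assoc]

theorem Sim.map {B B' : Type} [CommRing B] [CommRing B'] {ψ1 ψ2 : R →+* B} (h : M.Sim ψ1 ψ2)
    (ρ : B →+* B') : M.Sim (ρ.comp ψ1) (ρ.comp ψ2) := by
  obtain ⟨c, h⟩ := h
  refine ⟨Units.map (ρ : B →* B') c, fun a F hF => ?_⟩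
  rw [RingHom.comp_apply, h a F hF, map_mul, map_pow]
  rfl

theorem Sim.comp {B : Type} [CommRing B] {ψ1 ψ2 : R →+* B} (h : M.Sim ψ1 ψ2) {M' : Cl S}
    (g : R →+* R) (hg : ∀ a, ∀ F ∈ M'.M a, g F ∈ M.M a) : M'.Sim (ψ1.comp g) (ψ2.comp g) := by
  obtain ⟨c, h⟩ := h
  exact ⟨c, fun a F hF => h a _ (hg a F hF)⟩

theorem Sim.mono {B : Type} [CommRing B] {ψ1 ψ2 : R →+* B} (h : M.Sim ψ1 ψ2) {M' : Cl S}
    (hg : ∀ a, M'.M a ⊆ M.M a) : M'.Sim ψ1 ψ2 := by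
  obtain ⟨c, h⟩ := h
  exact ⟨c, fun a F hF => h a _ (hg a hF)⟩

theorem Sim.nz {B : Type} [CommRing B] {ψ1 ψ2 : R →+* B} (h : M.Sim ψ1 ψ2) {E : Fr S}
    (h0 : E.e0 ∈ M.M 1) (hu : IsUnit (ψ2 E.e0)) {a : ℕ} {F : R} (hF : F ∈ M.M a) :
    E.nz ψ1 a F = E.nz ψ2 a F := by
  obtain ⟨c, h⟩ := h
  obtain ⟨w, hw⟩ := hu
  rw [Fr.nz, Fr.nz, h a F hF, h 1 _ h0, ← hw, pow_one, ← Units.val_mul, Ring.inverse_unit,
    Ring.inverse_unit, mul_inv, Units.val_mul, mul_pow, mul_comm _ (ψ2 F), mul_assoc,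
    ← mul_assoc ((c : B) ^ a), ← mul_pow, Units.mul_inv, one_pow, one_mul]

theorem sim_of_nz {B : Type} [CommRing B] {ψ1 ψ2 : R →+* B} {E : Fr S} (h1 : IsUnit (ψ1 E.e0))
    (h2 : IsUnit (ψ2 E.e0)) (h : ∀ a, ∀ F ∈ M.M a, E.nz ψ1 a F = E.nz ψ2 a F) : M.Sim ψ1 ψ2 := by
  obtain ⟨w1, e1⟩ := h1
  obtain ⟨w2, e2⟩ := h2
  refine ⟨w1 * w2⁻¹, fun a F hF => ?_⟩
  have := h a F hF
  rw [Fr.nz, Fr.nz, ← e1, ← e2, Ring.inverse_unit, Ring.inverse_unit] at this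
  rw [Units.val_mul, mul_pow, mul_assoc, mul_comm _ (ψ2 F), ← this, mul_left_comm, ← mul_pow,
    Units.mul_inv, one_pow, mul_one]

theorem Sim.xc {B : Type} [CommRing B] {ψ1 ψ2 : R →+* B} (h : M.Sim ψ1 ψ2) {E : Fr S}
    (hA : Ad M E) (hu : IsUnit (ψ2 E.e0)) : E.xc ψ1 = E.xc ψ2 :=
  funext fun i => h.nz hA.e0 hu (hA.e i)

/-- Cancel an injective map of fields. -/
theorem Sim.of_map {K : Type} [Field K] {ψ1 ψ2 : R →+* K} (ρ : K →+* K) {E : Fr S}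
    (h0 : E.e0 ∈ M.M 1) (hu : ψ2 E.e0 ≠ 0) (h : M.Sim (ρ.comp ψ1) (ρ.comp ψ2)) : M.Sim ψ1 ψ2 := by
  obtain ⟨c, h⟩ := h
  have h1 : ρ (ψ1 E.e0 / ψ2 E.e0) = c := by
    have := h 1 _ h0
    rw [pow_one, RingHom.comp_apply, RingHom.comp_apply] at this
    rw [map_div₀, this, mul_div_cancel_right₀ _ ((map_ne_zero ρ).2 hu)]
  refine ⟨Units.mk0 (ψ1 E.e0 / ψ2 E.e0) fun h2 => c.ne_zero (by rw [← h1, h2, map_zero]),
    fun a F hF => ρ.injective ?_⟩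
  rw [map_mul, map_pow, Units.val_mk0, h1]
  exact h a F hF

theorem Sim.twc (hM : M.Tow) {ψ1 ψ2 : R →+* A} (h1 : S.Ch ψ1) (h2 : S.Ch ψ2) (h : M.Sim ψ1 ψ2)
    (hu : Nr u) : M.Sim (S.twc ψ1 u) (S.twc ψ2 u) := by
  obtain ⟨c, h⟩ := h
  refine ⟨c, fun a F hF => ?_⟩
  rw [TW.twc_apply h1 hu, TW.twc_apply h2 hu]
  exact TW.tw_prop h1 h2 (UC.umon hu) F _ fun j d =>
    h a _ (hM.cs _ d a (pow_pos (Fact.out : p.Prime).pos j) F hF)

/-- Use `Trl.eq_sum`. -/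
theorem Sim.trl {B : Type} [CommRing B] {ψ1 ψ2 : R →+* B} (h : M.Sim ψ1 ψ2) {M' : Cl S}
    {g t : R →+* R} {Cm : Matrix ι ι ℤ} (hg : S.Isg g Cm) {ζ : ι → ℂ_[p]ˣ} {N : ℕ}
    (ht : S.Trl t ζ N) (hm : ∀ a c, ∀ F ∈ M'.M a, g (S.cs N c F) ∈ M.M a)
    (hζ : ∀ i, ψ1 (S.cst (ζ i)) = ψ2 (S.cst (ζ i))) :
    M'.Sim ((ψ1.comp g).comp t) ((ψ2.comp g).comp t) := by
  obtain ⟨c, h⟩ := h
  refine ⟨c, fun a F hF => ?_⟩
  have e : ∀ T, ψ1 (S.cst (umon ζ T)) = ψ2 (S.cst (umon ζ T)) := fun T => by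
    rw [← RingHom.comp_apply, ← RingHom.comp_apply, map_umon, map_umon]
    exact congrArg (umon · T) (funext fun i => Units.ext (hζ i))
  simp only [RingHom.comp_apply, ht.eq_sum F, map_sum, map_mul, hg.cst, Finset.mul_sum]
  refine Finset.sum_congr rfl fun d _ => ?_
  rw [e, h a _ (hm a _ F hF), mul_left_comm]

end Cl

end Pool.Agent.E7
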