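import Pool.Agent.Lib.MP_7e5527_ag.EO.CEC
import Pool.Agent.Lib.MP_7e5527_ag.EO.TJ
import Pool.Agent.Lib.MP_7e5527_ag.EO.TLg

/-! The transition between the twists of two proportional characters. -/

open Filter Topology Polynomial Matrix

noncomputable section

namespace Pool.Agent.E7

variable {ι : Type} [Fintype ι] [DecidableEq ι] {p : ℕ} [Fact p.Prime] {C : Cone ι} {R : Type}
  [CommRing R] {S : TW p C R}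

/-- The matrix of the transition. -/
def Fr.kap (E : Fr S) {A : Type} [CommRing A] (ψ1 ψ2 : R →+* A) : Matrix ι ι A :=
  (E.Jm ψ2)⁻¹ * E.Jm ψ1

variable {M : Cl S} {E : Fr S}

section

variable {A : Type} [NormedCommRing A] [NormOneClass A] [NormedAlgebra ℂ_[p] A] [CompleteSpace A]
  [IsUltrametricDist A] {ψ1 ψ2 : R →+* A} {u v : ι → Aˣ}

theorem Fr.kap_map (h1 : E.Gp ψ1) (h2 : E.Gp ψ2) {A' : Type} [CommRing A'] (ρ : A →+* A') :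
    E.kap (ρ.comp ψ1) (ρ.comp ψ2) = (E.kap ψ1 ψ2).map ρ := by
  have e : ((E.Jm ψ2).map ρ)⁻¹ = (E.Jm ψ2)⁻¹.map ρ := inv_eq_right_inv (by
    rw [← Matrix.map_mul, mul_nonsing_inv _ h2.Jm_det.isUnit,
      Matrix.map_one _ (map_zero ρ) (map_one ρ)])
  rw [kap, kap, Jm_map h1.unit, Jm_map h2.unit, Matrix.map_mul, e]

theorem Fr.kap_unit (h1 : E.Gp ψ1) (h2 : E.Gp ψ2) : IsUnit (E.kap ψ1 ψ2).det := by
  rw [kap, det_mul]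
  exact (isUnit_nonsing_inv_det _ h2.Jm_det.isUnit).mul h1.Jm_det.isUnit

theorem Fr.Jm_kap (h2 : E.Gp ψ2) : E.Jm ψ2 * E.kap ψ1 ψ2 = E.Jm ψ1 :=
  mul_nonsing_inv_cancel_left _ _ h2.Jm_det.isUnit

/-- `cgr_twc`, `cgr_of_sim`, `Ad.st`. -/
theorem Ad.tr_ex (h : Ad M E) (h1 : E.Gp ψ1) (h2 : E.Gp ψ2) (hs : M.Sim ψ1 ψ2) (hu : Nr u) :
    ∃ v, Nr v ∧ M.Sim (S.twc ψ1 u) (S.twc ψ2 v) :=
  h.st (h1.twc hu) h2 ((Cl.cgr_twc h1 hu).trans (h.cgr_of_sim h2 hs))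

/-- `xc_iso`, `xc_lip`, `Sim.xc`. -/
theorem Ad.tr_le (h : Ad M E) (h1 : E.Gp ψ1) (h2 : E.Gp ψ2) (hs : M.Sim ψ1 ψ2) (hu : Nr u)
    (hv : Nr v) (ht : M.Sim (S.twc ψ1 u) (S.twc ψ2 v)) : ‖uv v - 1‖ ≤ ‖uv u - 1‖ := by
  have e1 := h2.xc_iso hv Nr.one
  have e2 := h1.xc_lip hu Nr.one
  rw [TW.twc_one h2.ch, ← ht.xc h (h2.twc hv).unit, ← hs.xc h h2.unit] at e1
  rw [TW.twc_one h1.ch] at e2
  exact e1.trans e2

theorem tr1_add {x y : ι → A} {r : ℝ} (hx : ‖x‖ ≤ r) (hy : ‖y‖ ≤ r) : ‖x + y‖ ≤ r :=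
  (IsUltrametricDist.norm_add_le_max x y).trans (max_le hx hy)

theorem tr1_sub {x y : ι → A} {r : ℝ} (hx : ‖x‖ ≤ r) (hy : ‖y‖ ≤ r) : ‖x - y‖ ≤ r := by
  rw [sub_eq_add_neg]
  exact tr1_add hx ((norm_neg y).trans_le hy)

/-- `Gp.taylor` twice, `Jm_inv_le`. -/
theorem Ad.tr_taylor (h : Ad M E) (h1 : E.Gp ψ1) (h2 : E.Gp ψ2) (hs : M.Sim ψ1 ψ2) (hu : Nr u)
    (hv : Nr v) (ht : M.Sim (S.twc ψ1 u) (S.twc ψ2 v)) :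
    ‖uv v - 1 - E.kap ψ1 ψ2 *ᵥ (uv u - 1)‖ ≤ ‖uv u - 1‖ ^ 2 := by
  have e1 := h1.taylor hu
  have e2 := (h2.taylor hv).trans
    (pow_le_pow_left₀ (norm_nonneg _) (h.tr_le h1 h2 hs hu hv ht) 2)
  rw [← ht.xc h (h2.twc hv).unit, ← hs.xc h h2.unit] at e2
  have e3 := (norm_mulVec_le h2.Jm_inv_le _).trans (tr1_sub e1 e2)
  rwa [sub_sub_sub_cancel_left, mulVec_sub, mulVec_mulVec, mulVec_mulVec,
    nonsing_inv_mul _ h2.Jm_det.isUnit, one_mulVec] at e3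

theorem tr1_pow (hu : Nr u) (n : ℕ) : ‖uv (u ^ n) - 1‖ ≤ ‖uv u - 1‖ ∧
    ‖uv (u ^ n) - 1 - n • (uv u - 1)‖ ≤ ‖uv u - 1‖ ^ 2 := by
  refine ⟨(pi_norm_le_iff_of_nonneg (norm_nonneg _)).2 fun i => ((pinv_grp A (norm_nonneg _)).pow_mem
    ⟨hu i, norm_le_pi_norm (uv u - 1) i⟩ n).2, (pi_norm_le_iff_of_nonneg (sq_nonneg _)).2 fun i =>
      le_trans ?_ (pow_le_pow_left₀ (norm_nonneg _) (norm_le_pi_norm (uv u - 1) i) 2)⟩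
  simpa [uv] using plg_step (hu i).le n

theorem tr1_fr (h : Ad M E) (h1 : E.Gp ψ1) (h2 : E.Gp ψ2) (hu : Nr u) (hv : Nr v)
    (ht : M.Sim (S.twc ψ1 u) (S.twc ψ2 v)) (hs : M.Sim ψ1 ψ2) (f : ℕ) :
    ‖uv (v ^ p ^ f) - 1 - E.kap (ψ1.comp (S.fr ^ f)) (ψ2.comp (S.fr ^ f)) *ᵥ (uv (u ^ p ^ f) - 1)‖ ≤
      ‖uv (u ^ p ^ f) - 1‖ ^ 2 := by
  have e := h.desc (h1.twc hu) (h2.twc hv) ht f
  rw [TW.twc_fr h1.ch hu, TW.twc_fr h2.ch hv] at e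
  exact h.tr_taylor (h1.fr f) (h2.fr f) (h.desc h1 h2 hs f) (hu.pow _) (hv.pow _) e

theorem tr1_norm (n : ℕ) (z : A) : ‖(p : A) ^ n * z‖ = (p : ℝ)⁻¹ ^ n * ‖z‖ := by
  rw [← map_natCast (algebraMap ℂ_[p] A), ← map_pow, ← Algebra.smul_def, norm_smul, norm_pow,
    UAP.norm_p_eq]

/-- By `Ad.desc` and `twc_fr` the pair `u ^ p ^ f`, `v ^ p ^ f` is a transition for the composites
with `fr ^ f`. Take `u = 1 + p ^ k single l 1`, compare the two Taylor bounds (`plg_step`) and let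
`k` tend to infinity. -/
theorem Ad.kap_fr (h : Ad M E) (h1 : E.Gp ψ1) (h2 : E.Gp ψ2) (hs : M.Sim ψ1 ψ2) (f : ℕ) :
    E.kap (ψ1.comp (S.fr ^ f)) (ψ2.comp (S.fr ^ f)) = E.kap ψ1 ψ2 := by
  obtain ⟨κ, hκ⟩ : ∃ κ, κ = E.kap (ψ1.comp (S.fr ^ f)) (ψ2.comp (S.fr ^ f)) := ⟨_, rfl⟩
  have key : ∀ u : ι → Aˣ, Nr u →
      ‖p ^ f • ((E.kap ψ1 ψ2 - κ) *ᵥ (uv u - 1))‖ ≤ ‖uv u - 1‖ ^ 2 := fun u hu => by
    obtain ⟨v, hv, ht⟩ := h.tr_ex h1 h2 hs hu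
    have e1 := (IsUltrametricDist.norm_nsmul_le _ (p ^ f)).trans (h.tr_taylor h1 h2 hs hu hv ht)
    have e2 := (tr1_fr h h1 h2 hu hv ht hs f).trans
      (pow_le_pow_left₀ (norm_nonneg _) (tr1_pow hu _).1 2)
    have e3 := (tr1_pow hv (p ^ f)).2.trans
      (pow_le_pow_left₀ (norm_nonneg _) (h.tr_le h1 h2 hs hu hv ht) 2)
    have e4 := ((norm_mulVec_le (h2.fr f).Jm_inv_le _).trans
      (norm_mulVec_le (h1.fr f).Jm_le _)).trans (tr1_pow hu (p ^ f)).2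
    rw [mulVec_mulVec, ← Fr.kap, ← hκ] at e4
    rw [← hκ] at e2
    refine le_of_eq_of_le (congrArg _ ?_) (tr1_add (tr1_sub (tr1_sub e2 e3) e1) e4)
    rw [mulVec_sub κ (_ - 1), mulVec_smul, sub_mulVec]
    module
  obtain ⟨h3, h4⟩ := plg_lt p
  rw [← hκ]
  refine Matrix.ext fun i l => (sub_eq_zero.1 (norm_le_zero_iff.1 (le_of_mul_le_mul_left
    (le_of_le_of_eq (ge_of_tendsto' (tendsto_pow_atTop_nhds_zero_of_lt_one h3.le h4) fun k => ?_)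
      (mul_zero _).symm) (pow_pos h3 f)))).symm
  have e : ‖(Pi.single l ((p : A) ^ (k + 1)) : ι → A)‖ = (p : ℝ)⁻¹ ^ (k + 1) := by
    rw [Pi.norm_single, ← mul_one (_ ^ _), tr1_norm, norm_one, mul_one]
  obtain ⟨u, hu, hx⟩ := exists_nr (x := (Pi.single l ((p : A) ^ (k + 1)) : ι → A) + 1) (by
    rw [add_sub_cancel_right, e]
    exact pow_lt_one₀ h3.le h4 k.succ_ne_zero)
  have e1 := (norm_le_pi_norm _ i).trans (key u hu)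
  rw [hx, add_sub_cancel_right, e, mulVec_single, Pi.smul_apply, nsmul_eq_mul, Nat.cast_pow,
    tr1_norm, Pi.smul_apply, MulOpposite.smul_eq_mul_unop, MulOpposite.unop_op, mul_comm (_ : A),
    tr1_norm, mul_left_comm, sq] at e1
  exact (le_of_mul_le_mul_left e1 (pow_pos h3 _)).trans (pow_le_pow_of_le_one h3.le h4.le k.le_succ)

theorem tr1_lim (hu : Nr u) : Tendsto (fun k : ℕ => ((p : ℂ_[p]) ^ k)⁻¹ • (uv (u ^ p ^ k) - 1))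
    atTop (𝓝 (lgv p u)) :=
  tendsto_pi_nhds.2 fun i => (lg_spec (hu i)).congr fun k => by simp [uv]

/-- Divide the Taylor bound for `u ^ p ^ k`, `v ^ p ^ k` by `p ^ k` (`ppow_bound`, `lg_spec`). -/
theorem Ad.tr_lg (h : Ad M E) (h1 : E.Gp ψ1) (h2 : E.Gp ψ2) (hs : M.Sim ψ1 ψ2) (hu : Nr u)
    (hv : Nr v) (ht : M.Sim (S.twc ψ1 u) (S.twc ψ2 v)) :
    lgv p v = E.kap ψ1 ψ2 *ᵥ lgv p u := by
  obtain ⟨B, hB⟩ := ppow_bound p (nr_iff.1 hu)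
  obtain ⟨h3, h4⟩ := plg_lt p
  refine sub_eq_zero.1 (tendsto_nhds_unique ((tr1_lim hv).sub
    (((continuous_const.matrix_mulVec continuous_id).tendsto _).comp (tr1_lim hu)))
    (squeeze_zero_norm (a := fun k => B ^ 2 * (p : ℝ)⁻¹ ^ k) (fun k => ?_) ?_))
  · have e1 : ‖uv (u ^ p ^ k) - 1‖ ≤ B * ((p : ℝ) ^ k)⁻¹ :=
      (pi_norm_le_iff_of_nonneg ((norm_nonneg _).trans (hB A 1 (by simp) k))).2 fun i => by
        simpa [uv] using hB A (u i) (norm_le_pi_norm (uv u - 1) i) k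
    have e2 := (tr1_fr h h1 h2 hu hv ht hs k).trans (pow_le_pow_left₀ (norm_nonneg _) e1 2)
    rw [h.kap_fr h1 h2 hs] at e2
    rw [Function.comp_apply, id, mulVec_smul, ← smul_sub, norm_smul, norm_inv, norm_pow,
      UAP.norm_p_eq, inv_mul_le_iff₀ (pow_pos h3 k), inv_pow]
    exact e2.trans_eq (by ring)
  · simpa using (tendsto_pow_atTop_nhds_zero_of_lt_one h3.le h4).const_mul (B ^ 2)

end

variable {ψ1 ψ2 ψ3 : R →+* ℂ_[p]} {κ κ' : Matrix ι ι ℂ_[p]}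

theorem Ad.trn (h : Ad M E) (h1 : E.Gp ψ1) (h2 : E.Gp ψ2) (hs : M.Sim ψ1 ψ2) :
    M.Trn ψ1 ψ2 (E.kap ψ1 ψ2) := fun _ hu =>
  (h.tr_ex h1 h2 hs hu).imp fun _ hv => ⟨hv.1, h.tr_lg h1 h2 hs hu hv.1 hv.2, hv.2⟩

theorem Ad.trn_lg (h : Ad M E) (h2 : E.Gp ψ2) (ht : M.Trn ψ1 ψ2 κ) {u v : ι → ℂ_[p]ˣ} (hu : Nr u)
    (hv : Nr v) (hs : M.Sim (S.twc ψ1 u) (S.twc ψ2 v)) : lgv p v = κ *ᵥ lgv p u := by
  obtain ⟨w, hw, e, h3⟩ := ht u hu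
  rwa [h.twc_inj h2 hv hw (hs.symm.trans h3)]

theorem Ad.trn_unique (h : Ad M E) (h2 : E.Gp ψ2) (ht : M.Trn ψ1 ψ2 κ) (ht' : M.Trn ψ1 ψ2 κ') :
    κ = κ' := mat_eq_of_lgv fun u hu => by
  obtain ⟨v, hv, e, h3⟩ := ht u hu
  exact e.symm.trans (h.trn_lg h2 ht' hu hv h3)

theorem Cl.Trn.comp (ht : M.Trn ψ1 ψ2 κ) (ht' : M.Trn ψ2 ψ3 κ') : M.Trn ψ1 ψ3 (κ' * κ) := by
  intro u hu
  obtain ⟨v, hv, e, h1⟩ := ht u hu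
  obtain ⟨w, hw, e', h2⟩ := ht' v hv
  exact ⟨w, hw, by rw [e', e, mulVec_mulVec], h1.trans h2⟩

theorem Ad.trn_shift (h : Ad M E) (h1 : E.Gp ψ1) (h2 : E.Gp ψ2) (ht : M.Trn ψ1 ψ2 κ)
    {w w' : ι → ℂ_[p]ˣ} (hw : Nr w) (hw' : Nr w') (hs : M.Sim (S.twc ψ1 w) (S.twc ψ2 w')) :
    M.Trn (S.twc ψ1 w) (S.twc ψ2 w') κ := by
  intro u hu
  obtain ⟨v, hv, e, h3⟩ := ht _ (hu.mul hw)
  refine ⟨v * w'⁻¹, hv.mul hw'.inv, ?_, ?_⟩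
  · rw [lgv_mul hv hw'.inv, lgv_inv hw', e, h.trn_lg h2 ht hw hw' hs, lgv_mul hu hw, mulVec_add,
      add_neg_cancel_right]
  · rwa [TW.twc_twc h1.ch hw hu, TW.twc_twc h2.ch hw' (hv.mul hw'.inv), inv_mul_cancel_right]

theorem Ad.trn_fr (h : Ad M E) (h1 : E.Gp ψ1) (h2 : E.Gp ψ2) (hs : M.Sim ψ1 ψ2)
    (ht : M.Trn ψ1 ψ2 κ) (f : ℕ) : M.Trn (ψ1.comp (S.fr ^ f)) (ψ2.comp (S.fr ^ f)) κ := by
  rw [h.trn_unique h2 ht (h.trn h1 h2 hs), ← h.kap_fr h1 h2 hs f]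
  exact h.trn (h1.fr f) (h2.fr f) (h.desc h1 h2 hs f)

end Pool.Agent.E7
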