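import Pool.Agent.Lib.MP_7e5527_ag.EO.TR1
import Pool.Agent.Lib.MP_7e5527_ag.EO.TRb

/-! The matrix of the transition has entries in the `p`-adic integers. -/

open Filter Topology Polynomial Matrix

noncomputable section

namespace Pool.Agent.E7

variable {ι : Type} [Fintype ι] [DecidableEq ι] {p : ℕ} [Fact p.Prime] {C : Cone ι} {R : Type}
  [CommRing R] {S : TW p C R}

variable {M : Cl S} {E : Fr S} {ψ1 ψ2 : R →+* ℂ_[p]}

section

variable {A : Type} [NormedCommRing A] [NormOneClass A] [NormedAlgebra ℂ_[p] A] [CompleteSpace A]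
  [IsUltrametricDist A] [IsDomain A]

theorem tr2_near {U : Aˣ} (hU : ‖(U : A) - 1‖ < 1) (n : ℤ) : ‖((U ^ n : Aˣ) : A) - 1‖ < 1 := by
  have h := norm_umon_sub_one (u := fun _ : Unit => U) (fun _ => hU) (fun _ => n)
  simpa only [umon, Finset.univ_unique, Finset.prod_singleton] using h

theorem tr2_der {k B : Type} [CommRing k] [CommRing B] [Algebra k B] (D : Derivation k B B)
    (U : Bˣ) (n : ℤ) : D ((U ^ n : Bˣ) : B) * U = (n : B) * D U * ((U ^ n : Bˣ) : B) := by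
  induction n using Int.induction_on with
  | zero => simp
  | succ n ih =>
    rw [_root_.zpow_add_one, Units.val_mul, Derivation.leibniz, smul_eq_mul, smul_eq_mul]
    push_cast at ih ⊢
    linear_combination (U : B) * ih
  | pred n ih =>
    have e : U ^ (-(n : ℤ)) = U ^ (-(n : ℤ) - 1) * U := by
      rw [← _root_.zpow_add_one, sub_add_cancel]
    rw [e, Units.val_mul, Derivation.leibniz, smul_eq_mul, smul_eq_mul] at ih
    refine (Units.mul_left_inj U).1 ?_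
    push_cast at ih ⊢
    linear_combination ih

theorem tr2_alg_le (c : ℂ_[p]) : ‖algebraMap ℂ_[p] A c‖ ≤ ‖c‖ := (norm_algebraMap' A c).le

theorem tr2_one (B : BS p A) {π : ℂ_[p]} (hπ : ‖π‖ < 1) {U : Aˣ} (hU : (U : A) = 1 + π • B.t) :
    ‖(U : A) - 1‖ < 1 := by
  rw [hU, add_sub_cancel_left, norm_smul]
  exact (mul_le_of_le_one_right (norm_nonneg _) B.norm_t).trans_lt hπ

theorem tr2_dt (B : BS p A) {π : ℂ_[p]} {U : Aˣ} (hU : (U : A) = 1 + π • B.t) :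
    B.dt U = algebraMap ℂ_[p] A π := by
  rw [hU, map_add, Derivation.map_one_eq_zero, zero_add, Derivation.map_smul, B.dt_t,
    Algebra.algebraMap_eq_smul_one]

theorem tr2_ev (B : BS p A) {π : ℂ_[p]} {U : Aˣ} (hU : (U : A) = 1 + π • B.t) {s : ℂ_[p]}
    (hs : ‖s‖ < 1) : B.ev s U = 1 + π * s := by
  rw [hU, map_add, map_one, map_smul, B.ev_t s hs, smul_eq_mul]

theorem tr2_cont (B : BS p A) (s : ℂ_[p]) : Continuous (B.ev s) :=
  AddMonoidHomClass.continuous_of_bound (B.ev s) 1 fun a => by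
    rw [one_mul]
    exact B.ev_le s a

theorem tr2_evz (B : BS p A) (s : ℂ_[p]) (U : Aˣ) (n : ℤ) :
    B.ev s ((U ^ n : Aˣ) : A) = B.ev s U ^ n := by
  have h := congrArg Units.val (map_zpow (Units.map (B.ev s : A →* ℂ_[p])) U n)
  rw [Units.val_zpow_eq_zpow_val] at h
  exact h

theorem tr2_unit (B : BS p A) {π : ℂ_[p]} (hπ : ‖π‖ < 1) : ∃ U : Aˣ, (U : A) = 1 + π • B.t := by
  refine exists_unit ?_
  rw [add_sub_cancel_left, norm_smul]
  exact (mul_le_of_le_one_right (norm_nonneg _) B.norm_t).trans_lt hπ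

theorem tr2_dvd {x : ℂ_[p]} {a b : ℤ} {k : ℕ} (ha : ‖x - a‖ ≤ ((p : ℝ) ^ k)⁻¹)
    (hb : ‖x - b‖ ≤ ((p : ℝ) ^ k)⁻¹) : ((p ^ k : ℕ) : ℤ) ∣ -a - -b := by
  refine int_dvd_of_norm ?_
  have e : ((-a - -b : ℤ) : ℂ_[p]) = (x - a) + -(x - b) := by
    push_cast
    ring
  rw [e]
  exact (IsUltrametricDist.norm_add_le_max _ _).trans (max_le ha (by rwa [norm_neg]))

theorem tr2_mono (p : ℕ) [Fact p.Prime] {j k : ℕ} (h : j ≤ k) :
    ((p : ℝ) ^ k)⁻¹ ≤ ((p : ℝ) ^ j)⁻¹ := by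
  rw [← inv_pow, ← inv_pow]
  exact pow_le_pow_of_le_one (plg_lt p).1.le (plg_lt p).2.le h

theorem BS.ev_alg (B : BS p A) (s : ℂ_[p]) (ψ : R →+* ℂ_[p]) :
    (B.ev s : A →+* ℂ_[p]).comp ((algebraMap ℂ_[p] A).comp ψ) = ψ := by
  ext F
  exact (B.ev s).commutes (ψ F)

theorem BS.ext_ev (B : BS p A) {f g : A} (h : ∀ s, ‖s‖ < 1 → B.ev s f = B.ev s g) : f = g := by
  obtain ⟨h0, h1⟩ := plg_lt p
  have hp : (p : ℂ_[p]) ≠ 0 := Nat.cast_ne_zero.2 (Fact.out : p.Prime).ne_zero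
  have hn : ‖(p : ℂ_[p])‖ < 1 := by
    rw [UAP.norm_p_eq]
    exact h1
  refine sub_eq_zero.1 (B.zero (f - g) (hyperfilter ℕ) (fun n => (p : ℂ_[p]) ^ (n + 1)) ?_ ?_)
  · refine Tendsto.mono_left ?_ Nat.hyperfilter_le_atTop
    exact (tendsto_pow_atTop_nhds_zero_of_norm_lt_one hn).comp (tendsto_add_atTop_nat 1)
  · refine Eventually.of_forall fun n => ⟨pow_ne_zero _ hp, ?_⟩
    rw [map_sub, h, sub_self]
    rw [norm_pow]
    exact pow_lt_one₀ (norm_nonneg _) hn n.succ_ne_zero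

/-- The value at `s` of a twist of a constant character (`twc_map`). -/
theorem BS.ev_twc (B : BS p A) (s : ℂ_[p]) {ψ : R →+* ℂ_[p]} (hψ : S.Ch ψ) {u : ι → Aˣ}
    (hu : Nr u) : (B.ev s : A →+* ℂ_[p]).comp (S.twc ((algebraMap ℂ_[p] A).comp ψ) u) =
      S.twc ψ (umap (B.ev s : A →+* ℂ_[p]) u) := by
  rw [TW.twc_map (hψ.map (algebraMap ℂ_[p] A) tr2_alg_le) hu (B.ev s : A →+* ℂ_[p]) (B.ev_le s),
    B.ev_alg]

/-- The transition along a one parameter group: `tr_ex`, `tr_lg`, `kap_map`, `lg_der`; the value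
at `0` is `1` by `twc_inj`. -/
theorem Ad.tr_arc (B : BS p A) (h : Ad M E) (h1 : E.Gp ψ1) (h2 : E.Gp ψ2) (hs : M.Sim ψ1 ψ2)
    {π : ℂ_[p]} (hπ : ‖π‖ < 1) {U : Aˣ} (hU : (U : A) = 1 + π • B.t) (a : ι → ℤ) :
    ∃ v : ι → Aˣ, Nr v ∧ (∀ i, B.ev 0 (v i) = 1) ∧
      (∀ i, B.dt (v i) * U = ((E.kap ψ1 ψ2 *ᵥ fun l => (a l : ℂ_[p])) i * π) • (v i : A)) ∧
      ∀ s, M.Sim (S.twc ψ1 (umap (B.ev s : A →+* ℂ_[p]) fun i => U ^ a i))
        (S.twc ψ2 (umap (B.ev s : A →+* ℂ_[p]) v)) := by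
  have hU1 := tr2_one B hπ hU
  have g1 := h1.map (algebraMap ℂ_[p] A) tr2_alg_le
  have g2 := h2.map (algebraMap ℂ_[p] A) tr2_alg_le
  have gs := hs.map (algebraMap ℂ_[p] A)
  have hu : Nr fun i => U ^ a i := fun i => tr2_near hU1 (a i)
  obtain ⟨v, hv, ht⟩ := h.tr_ex g1 g2 gs hu
  have hl := h.tr_lg g1 g2 gs hu hv ht
  rw [Fr.kap_map h1 h2] at hl
  have h4 : ∀ s, M.Sim (S.twc ψ1 (umap (B.ev s : A →+* ℂ_[p]) fun i => U ^ a i))
      (S.twc ψ2 (umap (B.ev s : A →+* ℂ_[p]) v)) := fun s => by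
    have h5 := ht.map (B.ev s : A →+* ℂ_[p])
    rwa [B.ev_twc s h1.ch hu, B.ev_twc s h2.ch hv] at h5
  refine ⟨v, hv, fun i => ?_, fun i => ?_, h4⟩
  · have h5 := h4 0
    have e : (umap (B.ev 0 : A →+* ℂ_[p]) fun i => U ^ a i) = 1 := by
      funext l
      refine Units.ext ?_
      have h6 : B.ev 0 ((U ^ a l : Aˣ) : A) = 1 := by
        rw [tr2_evz, tr2_ev B hU (by simp), mul_zero, add_zero, _root_.one_zpow]
      exact h6
    rw [e, TW.twc_one h1.ch] at h5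
    have h6 : M.Sim (S.twc ψ2 (umap (B.ev 0 : A →+* ℂ_[p]) v)) (S.twc ψ2 1) := by
      rw [TW.twc_one h2.ch]
      exact h5.symm.trans hs
    have h7 := h.twc_inj h2 (hv.umap _ (B.ev_le 0)) Nr.one h6
    exact congrArg Units.val (congrFun h7 i)
  · have h5 : ∀ l, B.dt (lg p ((U ^ a l : Aˣ) : A)) * U = algebraMap ℂ_[p] A (a l * π) := by
      intro l
      refine (Units.mul_left_inj (U ^ a l)).1 ?_
      rw [mul_right_comm, lg_der (hu l) B.dt B.dt_cont, tr2_der, tr2_dt B hU, map_mul, map_intCast]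
    have h6 : lg p (v i : A) = ∑ l, E.kap ψ1 ψ2 i l • lg p ((U ^ a l : Aˣ) : A) := by
      refine (congrFun hl i).trans ?_
      simp only [Matrix.mulVec, dotProduct, Matrix.map_apply, lgv, Algebra.smul_def]
    rw [← lg_der (hv i) B.dt B.dt_cont, mul_right_comm, h6, map_sum, Finset.sum_mul,
      Algebra.smul_def]
    refine congrArg (· * (v i : A)) ?_
    simp only [Matrix.mulVec, dotProduct, Finset.sum_mul, map_sum]
    refine Finset.sum_congr rfl fun l _ => ?_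
    rw [Derivation.map_smul, smul_mul_assoc, h5, Algebra.smul_def, ← map_mul, mul_assoc]

/-- The powers `U ^ m k` with integers `m k` tending to `z` form a Cauchy sequence (`plg_geo`); the
limit solves the same equation, so its quotient by `v` is constant (`B.const`). -/
theorem BS.ode_val (B : BS p A) {π : ℂ_[p]} (hπ : ‖π‖ < 1) {U v : Aˣ} (hU : (U : A) = 1 + π • B.t)
    (z : ℤ_[p]) (h0 : B.ev 0 v = 1) (h : B.dt v * U = (UAP.zp p z * π) • (v : A)) {s : ℂ_[p]}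
    {j : ℕ} (hs : B.ev s U ^ p ^ j = 1) {b : ℤ} (hb : ‖(b : ℂ_[p]) - UAP.zp p z‖ ≤ ((p : ℝ) ^ j)⁻¹) :
    B.ev s v = B.ev s U ^ b := by
  have hU1 := tr2_one B hπ hU
  choose m hm using zp_approx z
  obtain ⟨θ, t0, t1, ht⟩ := Nr.theta (u := fun _ : Unit => U) (fun _ => hU1) p
  have t2 : 0 ≤ θ := (plg_lt p).1.le.trans t0
  have hc : CauchySeq fun k => ((U ^ (-m k) : Aˣ) : A) := by
    refine cauchySeq_of_le_geometric θ θ t1 fun k => ?_
    have h2 := norm_umon_cg (u := fun _ : Unit => U) t0 t1 ht (j := k) (T := fun _ => -m k)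
      (T' := fun _ => -m (k + 1)) fun _ => tr2_dvd (hm k) ((hm _).trans (tr2_mono p k.le_succ))
    rw [dist_eq_norm, ← pow_succ']
    simpa only [umon, Finset.univ_unique, Finset.prod_singleton] using h2
  obtain ⟨W, hW⟩ := cauchySeq_tendsto_of_complete hc
  have hf : Tendsto (fun k => (v : A) * ((U ^ (-m k) : Aˣ) : A)) atTop (𝓝 (v * W)) :=
    hW.const_mul _
  have hz : Tendsto (fun k => UAP.zp p z - m k) atTop (𝓝 0) := by
    refine squeeze_zero_norm hm ?_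
    simp only [← inv_pow]
    exact tendsto_pow_atTop_nhds_zero_of_lt_one (plg_lt p).1.le (plg_lt p).2
  have hd : B.dt (v * W) = 0 := by
    have h2 : Tendsto (fun k => B.dt ((v : A) * ((U ^ (-m k) : Aˣ) : A)) * U) atTop
        (𝓝 (B.dt (v * W) * U)) := ((B.dt_cont.tendsto _).comp hf).mul_const _
    have h3 : Tendsto (fun k => ((UAP.zp p z - m k) * π) • ((v : A) * ((U ^ (-m k) : Aˣ) : A)))
        atTop (𝓝 (((0 : ℂ_[p]) * π) • (v * W))) := (hz.mul_const π).smul hf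
    have h4 : ∀ k, B.dt ((v : A) * ((U ^ (-m k) : Aˣ) : A)) * U =
        ((UAP.zp p z - m k) * π) • ((v : A) * ((U ^ (-m k) : Aˣ) : A)) := fun k => by
      have h5 := tr2_der B.dt U (-m k)
      rw [tr2_dt B hU] at h5
      rw [Algebra.smul_def, map_mul] at h
      rw [Derivation.leibniz, smul_eq_mul, smul_eq_mul, Algebra.smul_def, map_mul, map_sub,
        map_intCast]
      rw [Int.cast_neg] at h5
      linear_combination (v : A) * h5 + ((U ^ (-m k) : Aˣ) : A) * h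
    simp only [h4] at h2
    have h5 := tendsto_nhds_unique h2 h3
    rw [zero_mul, zero_smul] at h5
    exact (Units.mul_left_eq_zero U).1 h5
  have hne : B.ev s U ≠ 0 := fun e => by
    rw [e, zero_pow (pow_ne_zero _ (Fact.out : p.Prime).ne_zero)] at hs
    exact zero_ne_one hs
  have e0 : B.ev 0 (v * W) = 1 := by
    refine tendsto_nhds_unique (((tr2_cont B 0).tendsto _).comp hf) ?_
    refine tendsto_const_nhds.congr fun k => ?_
    rw [Function.comp_apply, map_mul, tr2_evz, tr2_ev B hU (by simp), h0, mul_zero, add_zero,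
      _root_.one_zpow, one_mul]
  have e1 : B.ev s (v * W) = B.ev s v * B.ev s U ^ (-b) := by
    refine tendsto_nhds_unique (((tr2_cont B s).tendsto _).comp hf) ?_
    refine tendsto_const_nhds.congr' ((eventually_ge_atTop j).mono fun k hk => ?_)
    obtain ⟨c, e⟩ := tr2_dvd ((hm k).trans (tr2_mono p hk)) (by rwa [norm_sub_rev] at hb)
    rw [Function.comp_apply, map_mul, tr2_evz, sub_eq_iff_eq_add.1 e, zpow_add₀ hne, _root_.zpow_mul,
      _root_.zpow_natCast, hs, _root_.one_zpow, one_mul]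
  rw [B.const _ hd s, e0, _root_.zpow_neg] at e1
  exact (mul_inv_eq_one₀ (zpow_ne_zero b hne)).1 e1.symm

end

/-- `exists_bsc`, `tr_arc` with `a = single l 1`, `ode_coeff`, `exists_norm_gt`, `zp_of_bnm`. -/
theorem Ad.zpm (h : Ad M E) (h1 : E.Gp ψ1) (h2 : E.Gp ψ2) (hs : M.Sim ψ1 ψ2) :
    ZpM (E.kap ψ1 ψ2) := by
  intro i l
  obtain ⟨A, i1, i2, i3, i4, i5, i6, B, co, hm, ht, hd, h0⟩ := exists_bsc p
  refine zp_of_bnm fun n => ?_
  have key : ∀ π : ℂ_[p], ‖π‖ < 1 → ‖bnm (E.kap ψ1 ψ2 i l) n‖ * ‖π‖ ^ n ≤ 1 := by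
    intro π hπ
    obtain ⟨U, hU⟩ := tr2_unit B hπ
    obtain ⟨v, hv, e0, e1, -⟩ := h.tr_arc B h1 h2 hs hπ hU (Pi.single l 1)
    have e2 : (E.kap ψ1 ψ2 *ᵥ fun k => (((Pi.single l 1 : ι → ℤ) k : ℤ) : ℂ_[p])) i =
        E.kap ψ1 ψ2 i l := by
      simp [Matrix.mulVec, dotProduct, Pi.single_apply]
    have e3 := congrArg co (e1 i)
    rw [e2, map_mul, hd, hU, map_add, map_one, map_smul, map_smul, ht, PowerSeries.smul_eq_C_mul,
      PowerSeries.smul_eq_C_mul] at e3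
    have e4 := ode_coeff e3 ((h0 _).symm.trans (e0 i)) n
    rw [← norm_pow, ← norm_mul, ← e4]
    exact (hm.le _ _).trans (pinv_le (hv i))
  by_contra hc
  rw [not_le] at hc
  have h3 : Tendsto (fun r : ℝ => ‖bnm (E.kap ψ1 ψ2 i l) n‖ * r ^ n) (𝓝 1)
      (𝓝 (‖bnm (E.kap ψ1 ψ2 i l) n‖ * 1 ^ n)) :=
    (continuous_const.mul (continuous_pow n)).tendsto 1
  rw [one_pow, mul_one] at h3
  have h4 := (h3.eventually (lt_mem_nhds hc)).filter_mono (nhdsWithin_le_nhds (s := Set.Iio 1))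
  obtain ⟨r, r1, r2⟩ := (h4.and (Ioo_mem_nhdsLT (zero_lt_one' ℝ))).exists
  obtain ⟨π, p1, p2⟩ := exists_norm_gt (p := p) r2.2
  exact absurd (key π p2) (not_le.2 (r1.trans_le (mul_le_mul_of_nonneg_left
    (pow_le_pow_left₀ r2.1.le p1.le n) (norm_nonneg _))))

/-- Write `ζ = 1 + π s` with `π ^ 2 = ζ - 1`, `s = π`. -/
theorem Ad.tor (h : Ad M E) (h1 : E.Gp ψ1) (h2 : E.Gp ψ2) (hs : M.Sim ψ1 ψ2) :
    M.Tor ψ1 ψ2 (E.kap ψ1 ψ2) := by
  intro j ζ a b hζ hb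
  obtain ⟨A, i1, i2, i3, i4, i5, i6, B, -⟩ := exists_bsc p
  have hζ' : (ζ : ℂ_[p]) ^ p ^ j = 1 := by
    rw [← Units.val_pow_eq_pow_val, hζ, Units.val_one]
  obtain ⟨π, e⟩ := IsAlgClosed.exists_pow_nat_eq ((ζ : ℂ_[p]) - 1) two_pos
  have hπ : ‖π‖ < 1 := by
    have h3 := ppow_root_near hζ'
    rw [← e, norm_pow] at h3
    exact (pow_lt_one_iff_of_nonneg (norm_nonneg _) two_ne_zero).1 h3
  obtain ⟨U, hU⟩ := tr2_unit B hπ
  obtain ⟨v, hv, e0, e1, e2⟩ := h.tr_arc B h1 h2 hs hπ hU a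
  have e3 : B.ev π U = ζ := by
    rw [tr2_ev B hU hπ, ← sq, e, add_sub_cancel]
  choose z hz using h.zpm h1 h2 hs
  have e4 : ∀ i, (E.kap ψ1 ψ2 *ᵥ fun l => (a l : ℂ_[p])) i = UAP.zp p (∑ l, z i l * a l) := by
    intro i
    simp only [Matrix.mulVec, dotProduct, hz, map_sum, map_mul, map_intCast]
  have e5 : (umap (B.ev π : A →+* ℂ_[p]) fun i => U ^ a i) = fun i => ζ ^ a i := by
    funext i
    refine Units.ext ?_
    have h6 : B.ev π ((U ^ a i : Aˣ) : A) = (ζ : ℂ_[p]) ^ a i := by rw [tr2_evz, e3]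
    rw [Units.val_zpow_eq_zpow_val]
    exact h6
  have e6 : umap (B.ev π : A →+* ℂ_[p]) v = fun i => ζ ^ b i := by
    funext i
    refine Units.ext ?_
    have h5 := e1 i
    have h7 := hb i
    rw [e4] at h5 h7
    have h6 := B.ode_val hπ hU _ (e0 i) h5 (s := π) (j := j) (by rw [e3, hζ']) h7
    rw [e3] at h6
    rw [Units.val_zpow_eq_zpow_val]
    exact h6
  have e7 := e2 π
  rwa [e5, e6] at e7

theorem ZpM.mul {κ κ' : Matrix ι ι ℂ_[p]} (h : ZpM κ) (h' : ZpM κ') : ZpM (κ * κ') := by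
  choose z hz using h
  choose w hw using h'
  intro i l
  refine ⟨∑ k, z i k * w k l, ?_⟩
  simp only [Matrix.mul_apply, hz, hw, map_sum, map_mul]

theorem iso_qp {σ : ℂ_[p] →+* ℂ_[p]} (hσ : UAP.Iso σ) (a : ℚ_[p]) :
    σ (algebraMap ℚ_[p] ℂ_[p] a) = algebraMap ℚ_[p] ℂ_[p] a := by
  have hc : Continuous σ := AddMonoidHomClass.continuous_of_bound σ 1 fun z => by
    rw [one_mul]
    exact (hσ z).le
  have ha : Continuous (algebraMap ℚ_[p] ℂ_[p]) := continuous_algebraMap _ _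
  refine (Padic.denseRange_ratCast p).induction_on a (isClosed_eq (hc.comp ha) ha) fun q => ?_
  rw [map_ratCast, map_ratCast]

theorem ZpM.map {κ : Matrix ι ι ℂ_[p]} (h : ZpM κ) {σ : ℂ_[p] →+* ℂ_[p]} (hσ : UAP.Iso σ) :
    κ.map σ = κ := by
  ext i l
  obtain ⟨z, hz⟩ := h i l
  rw [Matrix.map_apply, hz]
  exact iso_qp hσ z

theorem Ad.trn_map (h : Ad M E) (h1 : E.Gp ψ1) (h2 : E.Gp ψ2) (hs : M.Sim ψ1 ψ2)
    {κ : Matrix ι ι ℂ_[p]} (ht : M.Trn ψ1 ψ2 κ) {σ : ℂ_[p] →+* ℂ_[p]} (hσ : UAP.Iso σ) :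
    M.Trn (σ.comp ψ1) (σ.comp ψ2) κ := by
  have h3 := h.trn (h1.map σ fun z => (hσ z).le) (h2.map σ fun z => (hσ z).le) (hs.map σ)
  rw [Fr.kap_map h1 h2, (h.zpm h1 h2 hs).map hσ] at h3
  rw [h.trn_unique h2 ht (h.trn h1 h2 hs)]
  exact h3

end Pool.Agent.E7
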