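import Pool.Agent.Lib.MP_7e5527_ag.EO.TBas

/-! Integration against the measure of a series. -/

open Filter Topology Polynomial Matrix

noncomputable section

namespace Pool.Agent.E7

variable {ι : Type} [Fintype ι] [DecidableEq ι] {p : ℕ} [Fact p.Prime] {C : Cone ι} {R : Type}
  [CommRing R] {S : TW p C R}

variable {A : Type} [NormedCommRing A] [NormOneClass A] [NormedAlgebra ℂ_[p] A] [CompleteSpace A]
  [IsUltrametricDist A] {ψ : R →+* A} {f g : (ι → ℤ) → A}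

theorem UC.const (a : A) : UC p fun _ : ι → ℤ => a :=
  ⟨⟨‖a‖, fun _ => le_rfl⟩, fun ε hε => ⟨0, fun _ _ _ => by simpa using hε.le⟩⟩

theorem ttw_two (hf : UC p f) (hg : UC p g) {ε : ℝ} (hε : 0 < ε) :
    ∃ j : ℕ, ∀ T T', Cg (p ^ j) T T' → ‖f T - f T'‖ ≤ ε ∧ ‖g T - g T'‖ ≤ ε := by
  obtain ⟨i, hi⟩ := hf.2 ε hε
  obtain ⟨j, hj⟩ := hg.2 ε hε
  exact ⟨i + j, fun T T' h => ⟨hi T T' (h.mono (pow_dvd_pow p (Nat.le_add_right i j))),
    hj T T' (h.mono (pow_dvd_pow p (Nat.le_add_left j i)))⟩⟩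

theorem UC.add (hf : UC p f) (hg : UC p g) : UC p fun T => f T + g T := by
  obtain ⟨B, hB⟩ := hf.1
  obtain ⟨B', hB'⟩ := hg.1
  refine ⟨⟨max B B', fun T => pinv_add (le_max_of_le_left (hB T)) (le_max_of_le_right (hB' T))⟩,
    fun ε hε => (ttw_two hf hg hε).imp fun j hj T T' h => ?_⟩
  rw [add_sub_add_comm]
  exact pinv_add (hj T T' h).1 (hj T T' h).2

theorem UC.sub (hf : UC p f) (hg : UC p g) : UC p fun T => f T - g T := by
  simpa only [sub_eq_add_neg] using hf.add (g := fun T => -g T)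
    ⟨hg.1.imp fun B hB T => (norm_neg _).trans_le (hB T), fun ε hε => (hg.2 ε hε).imp
      fun j hj T T' h => by rw [neg_sub_neg]; exact hj T' T h.symm⟩

theorem UC.mul (hf : UC p f) (hg : UC p g) : UC p fun T => f T * g T := by
  obtain ⟨K, hK⟩ := hf.1
  obtain ⟨K', hK'⟩ := hg.1
  have h0 : 0 < max (max K K') 1 := lt_max_of_lt_right one_pos
  have h1 : ∀ {x y : A} {ε : ℝ}, ‖x‖ ≤ max K K' → ‖y‖ ≤ ε / max (max K K') 1 → ‖x * y‖ ≤ ε :=
    fun hx hy => (norm_mul_le _ _).trans ((mul_le_mul (le_max_of_le_left hx) hy (norm_nonneg _)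
      h0.le).trans_eq (mul_div_cancel₀ _ h0.ne'))
  refine ⟨⟨K * K', fun T => (norm_mul_le _ _).trans (mul_le_mul (hK T) (hK' T) (norm_nonneg _)
    ((norm_nonneg _).trans (hK T)))⟩,
    fun ε hε => (ttw_two hf hg (div_pos hε h0)).imp fun j hj T T' h => ?_⟩
  rw [show f T * g T - f T' * g T' = f T * (g T - g T') + g T' * (f T - f T') by ring]
  exact pinv_add (h1 (le_max_of_le_left (hK T)) (hj T T' h).2)
    (h1 (le_max_of_le_right (hK' T')) (hj T T' h).1)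

theorem UC.pow (hf : UC p f) (n : ℕ) : UC p fun T => f T ^ n := by
  induction n with
  | zero => simpa only [pow_zero] using UC.const 1
  | succ n ih => simpa only [pow_succ] using ih.mul hf

theorem UC.sum {α : Type} (s : Finset α) {f : α → (ι → ℤ) → A} (h : ∀ a ∈ s, UC p (f a)) :
    UC p fun T => ∑ a ∈ s, f a T := by
  induction s using Finset.cons_induction with
  | empty => simpa only [Finset.sum_empty] using UC.const 0
  | cons a s ha ih =>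
    simpa only [Finset.sum_cons] using (h a (Finset.mem_cons_self a s)).add
      (ih fun b hb => h b (Finset.mem_cons_of_mem hb))

theorem UC.coord (i : ι) : UC p fun T : ι → ℤ => (T i : A) := by
  refine ⟨⟨1, fun T => IsUltrametricDist.norm_intCast_le_one A _⟩, fun ε hε => ?_⟩
  obtain ⟨j, hj⟩ := exists_pow_lt_of_lt_one hε (plg_lt p).2
  refine ⟨j, fun T T' h => ?_⟩
  obtain ⟨k, hk⟩ := h i
  rw [← Int.cast_sub, hk, Int.cast_mul, mul_comm, Int.cast_natCast]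
  refine pinv_mul (IsUltrametricDist.norm_intCast_le_one A _) ?_
  rw [← map_natCast (algebraMap ℂ_[p] A), norm_algebraMap', Nat.cast_pow, norm_pow, UAP.norm_p_eq]
  exact hj.le

theorem ttw_pos (p : ℕ) [Fact p.Prime] (j : ℕ) : 0 < p ^ j := pow_pos (Fact.out : p.Prime).pos j

theorem UC.step (j : ℕ) (hf : ∀ T T', Cg (p ^ j) T T' → f T = f T') : UC p f := by
  refine ⟨⟨∑ c : ι → Fin (p ^ j), ‖f (rp c)‖, fun T => ?_⟩, fun ε hε => ⟨j, fun T T' h => ?_⟩⟩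
  · obtain ⟨c, hc, -⟩ := exists_rp (ttw_pos p j) T
    rw [hf _ _ hc]
    exact Finset.single_le_sum (f := fun c : ι → Fin (p ^ j) => ‖f (rp c)‖)
      (fun _ _ => norm_nonneg _) (Finset.mem_univ c)
  · rw [hf _ _ h, sub_self, norm_zero]
    exact hε.le

theorem UC.vecMul (hf : UC p f) (M : Matrix ι ι ℤ) : UC p fun T => f (T ᵥ* M) :=
  ⟨hf.1.imp fun _ hB _ => hB _, fun ε hε => (hf.2 ε hε).imp fun _ hj _ _ h => hj _ _ (h.vecMul M)⟩

theorem UC.map {A' : Type} [NormedCommRing A'] (ρ : A →+* A') (hρ : ∀ a, ‖ρ a‖ ≤ ‖a‖)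
    (hf : UC p f) : UC p fun T => ρ (f T) :=
  ⟨hf.1.imp fun _ hB T => (hρ _).trans (hB T), fun ε hε => (hf.2 ε hε).imp fun _ hj T T' h => by
    rw [← map_sub]
    exact (hρ _).trans (hj T T' h)⟩

/-- `plg_geo`, `norm_umon_sub`, `pinv_umon`. -/
theorem norm_umon_cg {u : ι → Aˣ} {θ : ℝ} (h0 : (p : ℝ)⁻¹ ≤ θ) (h1 : θ < 1)
    (hu : ∀ i, ‖(u i : A) - 1‖ ≤ θ) {j : ℕ} {T T' : ι → ℤ} (h : Cg (p ^ j) T T') :
    ‖umon u T - umon u T'‖ ≤ θ ^ (j + 1) := by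
  choose k hk using h
  have e : umon u T = umon u T' * umon u k ^ p ^ j := by
    rw [umon, umon, umon, ← Units.val_pow_eq_pow_val, ← Units.val_mul, ← Finset.prod_pow,
      ← Finset.prod_mul_distrib]
    refine congrArg _ (Finset.prod_congr rfl fun i _ => ?_)
    rw [← zpow_natCast, ← _root_.zpow_mul, ← _root_.zpow_add, mul_comm, ← hk, add_sub_cancel]
  have h2 : ∀ i, ‖(u i : A) - 1‖ < 1 := fun i => (hu i).trans_lt h1
  rw [e, ← mul_sub_one]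
  exact pinv_mul (norm_umon_le h2 T') (plg_geo (pinv_umon ((plg_lt p).1.le.trans h0)
    (fun i => ⟨h2 i, hu i⟩) k).2 h0 h1.le j)

theorem Nr.theta {u : ι → Aˣ} (hu : Nr u) (p : ℕ) [Fact p.Prime] :
    ∃ θ : ℝ, (p : ℝ)⁻¹ ≤ θ ∧ θ < 1 ∧ ∀ i, ‖(u i : A) - 1‖ ≤ θ := by
  obtain ⟨o, ho⟩ := Finite.exists_max fun o : Option ι => o.elim (p : ℝ)⁻¹ fun i => ‖(u i : A) - 1‖
  refine ⟨_, ho none, ?_, fun i => ho (some i)⟩
  cases o with
  | none => exact (plg_lt p).2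
  | some i => exact hu i

theorem UC.umon {u : ι → Aˣ} (hu : Nr u) : UC p (umon u) := by
  obtain ⟨θ, h0, h1, h2⟩ := hu.theta p
  refine ⟨⟨1, norm_umon_le hu⟩, fun ε hε => ?_⟩
  obtain ⟨j, hj⟩ := exists_pow_lt_of_lt_one hε h1
  exact ⟨j, fun T T' h => (norm_umon_cg h0 h1 h2 h).trans ((pow_le_pow_of_le_one
    ((plg_lt p).1.le.trans h0) h1.le j.le_succ).trans hj.le)⟩

namespace TW

theorem ttw_le (hψ : S.Ch ψ) {G : R} {B ε : ℝ} (hB : 0 ≤ B) (hG : S.Bd B G) (hε : 0 ≤ ε) {N : ℕ}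
    (hN : 0 < N) {a : (ι → Fin N) → A} (h : ∀ d, S.cs N (rp d) G ≠ 0 → ‖a d‖ ≤ ε) :
    ‖∑ d, a d * ψ (S.cs N (rp d) G)‖ ≤ ε * B := by
  refine IsUltrametricDist.norm_sum_le_of_forall_le_of_nonneg (mul_nonneg hε hB) fun d _ => ?_
  by_cases h0 : S.cs N (rp d) G = 0
  · rw [h0, map_zero, mul_zero, norm_zero]
    exact mul_nonneg hε hB
  · exact (norm_mul_le _ _).trans
      (mul_le_mul (h d h0) (hψ _ B hB (hG.cs hN _)) (norm_nonneg _) hε)

theorem ttw_diff (hψ : S.Ch ψ) {G : R} {B ε : ℝ} (hB : 0 ≤ B) (hG : S.Bd B G) (hε : 0 ≤ ε)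
    {j k : ℕ} (hk : j ≤ k) (h : ∀ T T', Cg (p ^ j) T T' → ‖f T - f T'‖ ≤ ε) :
    ‖S.rs ψ f G k - S.rs ψ f G j‖ ≤ ε * B := by
  choose π h1 h2 using fun d : ι → Fin (p ^ k) => exists_rp (ttw_pos p j) (rp d)
  have e : S.rs ψ f G j = ∑ d, f (rp (π d)) * ψ (S.cs (p ^ k) (rp d) G) := by
    simp only [rs, cs_refine (ttw_pos p k) (pow_dvd_pow p hk), map_sum, Finset.mul_sum]
    rw [Finset.sum_comm]
    refine Finset.sum_congr rfl fun d _ => ?_
    rw [Finset.sum_eq_single (π d) (fun c _ hc => ?_) (by simp), if_pos (h1 d)]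
    rw [if_neg fun h => hc (h2 d c h), map_zero, mul_zero]
  rw [e, rs, ← Finset.sum_sub_distrib]
  simp only [← sub_mul]
  exact ttw_le hψ hB hG hε (ttw_pos p k) fun d _ => h _ _ (h1 d)

/-- Refine with `cs_refine`: consecutive Riemann sums differ by at most the oscillation. -/
theorem tendsto_rs (hψ : S.Ch ψ) (hf : UC p f) (G : R) :
    Tendsto (S.rs ψ f G) atTop (𝓝 (S.tw ψ f G)) := by
  obtain ⟨B, hB, hG⟩ := S.bdd G
  refine CauchySeq.tendsto_limUnder (Metric.cauchySeq_iff'.2 fun ε hε => ?_)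
  have h0 : 0 < B + 1 := by linarith
  obtain ⟨j, hj⟩ := hf.2 _ (div_pos hε h0)
  refine ⟨j, fun k hk => ?_⟩
  rw [dist_eq_norm]
  refine (ttw_diff hψ hB hG (div_pos hε h0).le hk hj).trans_lt ?_
  exact (mul_lt_mul_of_pos_left (lt_add_one B) (div_pos hε h0)).trans_eq (div_mul_cancel₀ _ h0.ne')

theorem tw_approx (hψ : S.Ch ψ) (hf : UC p f) {G : R} {B ε : ℝ} (hB : 0 ≤ B) (hG : S.Bd B G)
    (hε : 0 ≤ ε) {j : ℕ} (h : ∀ T T', Cg (p ^ j) T T' → ‖f T - f T'‖ ≤ ε) :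
    ‖S.tw ψ f G - S.rs ψ f G j‖ ≤ ε * B :=
  le_of_tendsto ((tendsto_rs hψ hf G).sub_const _).norm
    (eventually_atTop.2 ⟨j, fun _ hk => ttw_diff hψ hB hG hε hk h⟩)

theorem tw_le_sup (hψ : S.Ch ψ) (hf : UC p f) {G : R} {B ε : ℝ} (hB : 0 ≤ B) (hG : S.Bd B G)
    (hε : 0 ≤ ε) {i : ℕ} {c : ι → ℤ} (hc : S.Sup (p ^ i) c G)
    (h : ∀ T, Cg (p ^ i) T c → ‖f T‖ ≤ ε) : ‖S.tw ψ f G‖ ≤ ε * B := by
  refine le_of_tendsto (tendsto_rs hψ hf G).norm (eventually_atTop.2 ⟨i, fun k hk =>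
    ttw_le hψ hB hG hε (ttw_pos p k) fun d hd => h _ ?_⟩)
  by_contra hn
  refine hd (ext_co (S := S) fun T => ?_)
  rw [S.co_cs _ _ _ _ (ttw_pos p k), map_zero, Pi.zero_apply, ite_eq_right_iff]
  intro h1
  by_contra h2
  exact hn ((h1.mono (pow_dvd_pow p hk)).symm.trans (hc T h2))

theorem tw_le (hψ : S.Ch ψ) (hf : UC p f) {G : R} {B ε : ℝ} (hB : 0 ≤ B) (hG : S.Bd B G)
    (hε : 0 ≤ ε) (h : ∀ T, ‖f T‖ ≤ ε) : ‖S.tw ψ f G‖ ≤ ε * B :=
  tw_le_sup hψ hf hB hG hε (i := 0) (c := 0) (fun _ _ _ => by simp) fun T _ => h T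

theorem tw_add (hψ : S.Ch ψ) (hf : UC p f) (hg : UC p g) (G : R) :
    S.tw ψ (fun T => f T + g T) G = S.tw ψ f G + S.tw ψ g G :=
  tendsto_nhds_unique (tendsto_rs hψ (hf.add hg) G)
    (((tendsto_rs hψ hf G).add (tendsto_rs hψ hg G)).congr fun j => by
      simp only [rs, add_mul, Finset.sum_add_distrib])

theorem tw_sub (hψ : S.Ch ψ) (hf : UC p f) (hg : UC p g) (G : R) :
    S.tw ψ (fun T => f T - g T) G = S.tw ψ f G - S.tw ψ g G :=
  tendsto_nhds_unique (tendsto_rs hψ (hf.sub hg) G)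
    (((tendsto_rs hψ hf G).sub (tendsto_rs hψ hg G)).congr fun j => by
      simp only [rs, sub_mul, Finset.sum_sub_distrib])

theorem tw_smul (hψ : S.Ch ψ) (hf : UC p f) (a : A) (G : R) :
    S.tw ψ (fun T => a * f T) G = a * S.tw ψ f G :=
  tendsto_nhds_unique (tendsto_rs hψ ((UC.const a).mul hf) G)
    (((tendsto_rs hψ hf G).const_mul a).congr fun j => by
      simp only [rs, Finset.mul_sum, mul_assoc])

theorem tw_sum (hψ : S.Ch ψ) {α : Type} (s : Finset α) {f : α → (ι → ℤ) → A}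
    (h : ∀ a ∈ s, UC p (f a)) (G : R) :
    S.tw ψ (fun T => ∑ a ∈ s, f a T) G = ∑ a ∈ s, S.tw ψ (f a) G :=
  tendsto_nhds_unique (tendsto_rs hψ (UC.sum s h) G)
    ((tendsto_finsetSum s fun a ha => tendsto_rs hψ (h a ha) G).congr fun j => by
      simp only [rs, Finset.sum_mul]
      exact Finset.sum_comm)

theorem tw_const (hψ : S.Ch ψ) (a : A) (G : R) : S.tw ψ (fun _ => a) G = a * ψ G :=
  tendsto_nhds_unique (tendsto_rs hψ (UC.const a) G) (tendsto_const_nhds.congr fun j => by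
    rw [rs, ← Finset.mul_sum, ← map_sum, cs_sum (ttw_pos p j)])

theorem tw_add_right (hψ : S.Ch ψ) (hf : UC p f) (F G : R) :
    S.tw ψ f (F + G) = S.tw ψ f F + S.tw ψ f G :=
  tendsto_nhds_unique (tendsto_rs hψ hf _)
    (((tendsto_rs hψ hf F).add (tendsto_rs hψ hf G)).congr fun j => by
      simp only [rs, cs_add (ttw_pos p j), map_add, mul_add, Finset.sum_add_distrib])

theorem tw_cst_mul (hψ : S.Ch ψ) (hf : UC p f) (c : ℂ_[p]) (G : R) :
    S.tw ψ f (S.cst c * G) = ψ (S.cst c) * S.tw ψ f G := by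
  refine tendsto_nhds_unique (tendsto_rs hψ hf _)
    (((tendsto_rs hψ hf G).const_mul _).congr fun j => ?_)
  rw [rs, rs, Finset.mul_sum]
  refine Finset.sum_congr rfl fun d _ => ?_
  rw [mul_left_comm, ← map_mul]
  refine congrArg (fun F => f (rp d) * ψ F) (ext_co (S := S) fun T => ?_)
  rw [S.co_cst, S.co_cs _ _ _ _ (ttw_pos p j), S.co_cs _ _ _ _ (ttw_pos p j), S.co_cst, mul_ite,
    mul_zero]

theorem tw_one_right (hψ : S.Ch ψ) (hf : UC p f) : S.tw ψ f 1 = f 0 := by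
  refine eq_of_forall_dist_le fun ε hε => ?_
  obtain ⟨j, hj⟩ := hf.2 ε hε
  have h := tw_le_sup hψ (hf.sub (UC.const (f 0))) zero_le_one Bd.one hε.le (Sup.one (p ^ j))
    fun T hT => hj T 0 hT
  rwa [tw_sub hψ hf (UC.const _), tw_const hψ, map_one, mul_one, mul_one, ← dist_eq_norm] at h

theorem ttw2_lim (hf : UC p f) {x y : A} {b : ℕ → A} (hb : Tendsto b atTop (𝓝 y)) {B : ℝ}
    (hB : 0 ≤ B) (h : ∀ ε, 0 ≤ ε → ∀ j, (∀ T T', Cg (p ^ j) T T' → ‖f T - f T'‖ ≤ ε) →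
      ‖x - b j‖ ≤ ε * B) : x = y := by
  refine eq_of_norm_sub_le_zero (le_of_forall_pos_le_add fun δ hδ => ?_)
  obtain ⟨j, hj⟩ := hf.2 (δ / (B + 1)) (by positivity)
  refine (le_of_tendsto (hb.const_sub x).norm ((eventually_ge_atTop j).mono fun k hk =>
    h _ (by positivity) k fun T T' h1 => hj T T' (h1.mono (pow_dvd_pow p hk)))).trans ?_
  rw [zero_add, div_mul_eq_mul_div, div_le_iff₀ (by positivity)]
  nlinarith

theorem ttw2_dec (hψ : S.Ch ψ) (hf : UC p f) {α : Type} [Fintype α] {H : α → R} {d : α → ι → ℤ}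
    {B ε : ℝ} {j : ℕ} (hB : 0 ≤ B) (hε : 0 ≤ ε)
    (h : ∀ T T', Cg (p ^ j) T T' → ‖f T - f T'‖ ≤ ε) (hs : ∀ x, S.Sup (p ^ j) (d x) (H x))
    (hH : ∀ x, S.Bd B (H x)) : ‖S.tw ψ f (∑ x, H x) - ∑ x, f (d x) * ψ (H x)‖ ≤ ε * B := by
  have h1 : S.tw ψ f (∑ x, H x) = ∑ x, S.tw ψ f (H x) :=
    map_sum (AddMonoidHom.mk' (S.tw ψ f) (tw_add_right hψ hf)) _ _
  rw [h1, ← Finset.sum_sub_distrib]
  refine IsUltrametricDist.norm_sum_le_of_forall_le_of_nonneg (mul_nonneg hε hB) fun x _ => ?_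
  rw [← tw_const hψ, ← tw_sub hψ hf (UC.const _)]
  exact tw_le_sup hψ (hf.sub (UC.const _)) hB (hH x) hε (hs x) fun T hT => h _ _ hT

theorem tw_del (hψ : S.Ch ψ) (hf : UC p f) (i : ι) (G : R) :
    S.tw ψ f (S.del i G) = S.tw ψ (fun T => (T i : A) * f T) G := by
  obtain ⟨B, hB, hG⟩ := S.bdd G
  obtain ⟨E, hE⟩ := hf.1
  have hp : (1 : ℝ) < p := Nat.one_lt_cast.2 (Fact.out : p.Prime).one_lt
  have h0 : Tendsto (fun j : ℕ => E * (((p : ℝ) ^ j)⁻¹ * B)) atTop (𝓝 0) := by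
    simpa using (((tendsto_pow_atTop_atTop_of_one_lt hp).inv_tendsto_atTop).mul_const B).const_mul E
  refine sub_eq_zero.1 (tendsto_nhds_unique ((tendsto_rs hψ hf _).sub
    (tendsto_rs hψ ((UC.coord i).mul hf) G)) (squeeze_zero_norm (fun j => ?_) h0))
  have hj := pow_pos (Fact.out : p.Prime).pos j
  rw [rs, rs, ← Finset.sum_sub_distrib]
  refine IsUltrametricDist.norm_sum_le_of_forall_le_of_nonneg
    (mul_nonneg ((norm_nonneg _).trans (hE 0)) (by positivity)) fun c _ => ?_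
  rw [mul_comm (rp c i : A), mul_assoc, ← mul_sub, ← map_intCast ψ, ← map_mul, ← map_sub]
  refine (norm_mul_le _ _).trans (mul_le_mul (hE _) (hψ _ _ (by positivity) fun T => ?_)
    (norm_nonneg _) ((norm_nonneg _).trans (hE 0)))
  rw [map_sub, Pi.sub_apply, co_int, S.co_cs _ _ _ _ hj, S.co_cs _ _ _ _ hj, S.co_del]
  split_ifs with h
  · obtain ⟨n, hn⟩ := h i
    rw [← sub_mul, ← Int.cast_sub, hn, norm_mul, Int.cast_mul, norm_mul, Int.cast_natCast,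
      Nat.cast_pow, norm_pow, UAP.norm_p_eq, inv_pow]
    exact mul_le_mul (mul_le_of_le_one_right (by positivity)
      (IsUltrametricDist.norm_intCast_le_one _ n)) (hG T) (norm_nonneg _) (by positivity)
  · rw [mul_zero, sub_zero, norm_zero]
    positivity

theorem tw_cs (hψ : S.Ch ψ) (hf : UC p f) (j : ℕ) (c : ι → ℤ) (G : R) :
    S.tw ψ f (S.cs (p ^ j) c G) = S.tw ψ (fun T => if Cg (p ^ j) T c then f T else 0) G := by
  refine ((tendsto_rs hψ hf _).congr' ((eventually_ge_atTop j).mono fun k hk => ?_)).limUnder_eq.symm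
  refine Finset.sum_congr rfl fun d _ => ?_
  have hj := pow_pos (Fact.out : p.Prime).pos j
  have hk' := pow_pos (Fact.out : p.Prime).pos k
  have h : S.cs (p ^ k) (rp d) (S.cs (p ^ j) c G) =
      if Cg (p ^ j) (rp d) c then S.cs (p ^ k) (rp d) G else 0 := ext_co fun T => by
    rw [S.co_cs _ _ _ _ hk', S.co_cs _ _ _ _ hj]
    by_cases h1 : Cg (p ^ k) T (rp d)
    · have h2 := h1.mono (pow_dvd_pow p hk)
      by_cases h3 : Cg (p ^ j) (rp d) c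
      · rw [if_pos h1, if_pos h3, if_pos (h2.trans h3), S.co_cs _ _ _ _ hk', if_pos h1]
      · rw [if_pos h1, if_neg h3, if_neg fun h4 => h3 (h2.symm.trans h4), map_zero, Pi.zero_apply]
    · rw [if_neg h1]
      split_ifs
      · rw [S.co_cs _ _ _ _ hk', if_neg h1]
      · rw [map_zero, Pi.zero_apply]
  rw [h]
  by_cases h1 : Cg (p ^ j) (rp d) c <;> simp [h1]

/-- `cs_mul`; the error of replacing the representative of `a + b` is the oscillation of `f`. -/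
theorem tw_mul (hψ : S.Ch ψ) (hf : UC p f) {α : Type} (s : Finset α) {g h : α → (ι → ℤ) → A}
    (hg : ∀ r ∈ s, UC p (g r)) (hh : ∀ r ∈ s, UC p (h r))
    (e : ∀ T T', f (T + T') = ∑ r ∈ s, g r T * h r T') (F G : R) :
    S.tw ψ f (F * G) = ∑ r ∈ s, S.tw ψ (g r) F * S.tw ψ (h r) G := by
  obtain ⟨B, hB, hF⟩ := S.bdd F
  obtain ⟨B', hB', hG⟩ := S.bdd G
  refine ttw2_lim hf (tendsto_finsetSum s fun r hr => (tendsto_rs hψ (hg r hr) F).mul
    (tendsto_rs hψ (hh r hr) G)) (mul_nonneg hB hB') fun ε hε j h1 => ?_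
  have hj := pow_pos (Fact.out : p.Prime).pos j
  have h2 := ttw2_dec hψ hf (α := (ι → Fin (p ^ j)) × (ι → Fin (p ^ j))) (mul_nonneg hB hB') hε h1
    (fun x => (Sup.cs hj (rp x.1) F).mul (Sup.cs hj (rp x.2) G))
    fun x => (Bd.cs hF hj _).mul (Bd.cs hG hj _)
  rw [Fintype.sum_prod_type' fun a b => S.cs _ (rp a) F * S.cs _ (rp b) G, ← Finset.sum_mul_sum,
    cs_sum hj, cs_sum hj] at h2
  have h3 : ∑ r ∈ s, S.rs ψ (g r) F j * S.rs ψ (h r) G j =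
      ∑ x : (ι → Fin (p ^ j)) × (ι → Fin (p ^ j)), f (rp x.1 + rp x.2) *
        ψ (S.cs (p ^ j) (rp x.1) F * S.cs (p ^ j) (rp x.2) G) := by
    simp only [e, Finset.sum_mul, map_mul]
    rw [Finset.sum_comm]
    refine Finset.sum_congr rfl fun r _ => ?_
    rw [rs, rs, Finset.sum_mul_sum, ← Fintype.sum_prod_type']
    exact Finset.sum_congr rfl fun x _ => mul_mul_mul_comm _ _ _ _
  rwa [h3]

theorem Ch.map (hψ : S.Ch ψ) {A' : Type} [NormedCommRing A'] (ρ : A →+* A')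
    (hρ : ∀ a, ‖ρ a‖ ≤ ‖a‖) : S.Ch (ρ.comp ψ) :=
  fun F B hB h => (hρ _).trans (hψ F B hB h)

theorem Ch.isg (hψ : S.Ch ψ) {g : R →+* R} {M : Matrix ι ι ℤ} (hg : S.Isg g M) :
    S.Ch (ψ.comp g) :=
  fun _ B hB h => hψ _ B hB (h.isg hg)

theorem Ch.trl (hψ : S.Ch ψ) {t : R →+* R} {ζ : ι → ℂ_[p]ˣ} {M : ℕ} (ht : S.Trl t ζ M) :
    S.Ch (ψ.comp t) :=
  fun _ B hB h => hψ _ B hB (h.trl ht)

theorem tw_map (hψ : S.Ch ψ) (hf : UC p f) {A' : Type} [NormedCommRing A'] (ρ : A →+* A')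
    (hρ : ∀ a, ‖ρ a‖ ≤ ‖a‖) (G : R) :
    ρ (S.tw ψ f G) = S.tw (ρ.comp ψ) (fun T => ρ (f T)) G := by
  have hc : Continuous ρ := AddMonoidHomClass.continuous_of_bound ρ 1 fun a => by
    simpa using hρ a
  refine (((hc.tendsto _).comp (tendsto_rs hψ hf G)).congr fun j => ?_).limUnder_eq.symm
  simp [rs]

theorem tw_isg (hψ : S.Ch ψ) (hf : UC p f) {g : R →+* R} {M : Matrix ι ι ℤ} (hg : S.Isg g M)
    (G : R) : S.tw ψ f (g G) = S.tw (ψ.comp g) (fun T => f (T ᵥ* M)) G := by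
  obtain ⟨B, hB, hG⟩ := S.bdd G
  refine ttw2_lim hf (tendsto_rs (hψ.isg hg) (hf.vecMul M) G) hB fun ε hε j h1 => ?_
  have hj := pow_pos (Fact.out : p.Prime).pos j
  have h2 := ttw2_dec hψ hf (α := ι → Fin (p ^ j)) (H := fun a => g (S.cs (p ^ j) (rp a) G))
    (d := fun a => rp a ᵥ* M) hB hε h1 (fun a T hT => by
      obtain ⟨T', rfl⟩ := hg.co_zero _ T hT
      exact (Sup.cs hj (rp a) G T' (hg.co_eq _ T' ▸ hT)).vecMul M)
    fun a => (Bd.cs hG hj _).isg hg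
  rwa [← map_sum, cs_sum hj] at h2

theorem tw_trl (hψ : S.Ch ψ) (hf : UC p f) {t : R →+* R} {ζ : ι → ℂ_[p]ˣ} {M : ℕ}
    (ht : S.Trl t ζ M) (G : R) : S.tw ψ f (t G) = S.tw (ψ.comp t) f G := by
  refine ((tendsto_rs hψ hf _).congr fun j => Finset.sum_congr rfl fun c _ => ?_).limUnder_eq.symm
  rw [ht.cs (pow_pos (Fact.out : p.Prime).pos j), RingHom.comp_apply]

theorem tw_mem (hψ : S.Ch ψ) (hf : UC p f) (G : R) (M : AddSubgroup A) (hM : IsClosed (M : Set A))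
    (h : ∀ j c, f c * ψ (S.cs (p ^ j) c G) ∈ M) : S.tw ψ f G ∈ M :=
  hM.mem_of_tendsto (tendsto_rs hψ hf G) (.of_forall fun j => M.sum_mem fun c _ => h j (rp c))

theorem tw_prop {ψ' : R →+* A} (hψ : S.Ch ψ) (hψ' : S.Ch ψ') (hf : UC p f) (G : R) (a : A)
    (h : ∀ j c, ψ (S.cs (p ^ j) c G) = a * ψ' (S.cs (p ^ j) c G)) :
    S.tw ψ f G = a * S.tw ψ' f G := by
  refine tendsto_nhds_unique (tendsto_rs hψ hf G)
    (((tendsto_rs hψ' hf G).const_mul a).congr fun j => ?_)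
  simp only [rs, Finset.mul_sum, h, mul_left_comm a]

end TW

end Pool.Agent.E7
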